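import Pool.Agent.Work.MP_499dc6_lc.Bd.B01
import Pool.Agent.Work.MP_499dc6_lc.Deg.Assemble
import Pool.Agent.Work.MP_499dc6_lc.Deg.CircuitDef

/-! Bundle of small proof modules (one section per former module). -/

section

set_option autoImplicit false
set_option linter.unusedSectionVars false

/-! Openness of the condition that homogeneous forms generate a power of the ideal of the
variables modulo a homogeneous ideal. -/

namespace Pool.Agent.Work.MP_499dc6_lc.Deg

open Submodule Module MvPolynomial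

variable {σ : Type*}

theorem TruncClosed.sup_span_range {K : Type*} [Field K] {I : Ideal (MvPolynomial σ K)}
    (hI : TruncClosed I) {τ : Type*} [Fintype τ] {G : τ → MvPolynomial σ K} {δ : ℕ}
    (hδ : 0 < δ) (hG : ∀ t, (G t).IsHomogeneous δ) :
    TruncClosed (Ideal.span (Set.range G) ⊔ I) := by
  intro p hp m
  obtain ⟨g, hg, i, hi, rfl⟩ := Submodule.mem_sup.1 hp
  obtain ⟨h, rfl⟩ := Ideal.mem_span_range_iff_exists_fun.1 hg
  rw [map_add, map_sum]
  refine add_mem (Submodule.sum_mem _ fun t _ => ?_) (Ideal.mem_sup_right (hI i hi m))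
  obtain ⟨q', _, hq', _⟩ := trunc_mul_homogeneous (hG t) hδ m (h t)
  rw [hq']
  exact Ideal.mem_sup_left (Ideal.mul_mem_left _ _ (Ideal.subset_span ⟨t, rfl⟩))

/-- The part of degree exactly `m`. -/
theorem TruncClosed.part_mem {K : Type*} [Field K] {I : Ideal (MvPolynomial σ K)}
    (hI : TruncClosed I) (p : MvPolynomial σ K) (hp : p ∈ I) (m : ℕ) :
    homogeneousComponent m p ∈ I := by
  rcases m with _ | m
  · have h := hI p hp 0
    have h2 : trunc 0 p = homogeneousComponent 0 p := by
      unfold trunc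
      rw [LinearMap.sum_apply, Finset.sum_range_one]
    rwa [h2] at h
  · have h := sub_mem (hI p hp (m + 1)) (hI p hp m)
    have h2 : trunc (m + 1) p - trunc m p = homogeneousComponent (m + 1) p := by
      unfold trunc
      rw [LinearMap.sum_apply, LinearMap.sum_apply, Finset.sum_range_succ _ (m + 1)]
      ring
    rwa [h2] at h

theorem coeff_map_eval {p : MvPolynomial σ (Polynomial ℂ)} (t : ℂ) (d : σ →₀ ℕ) :
    coeff d (map (Polynomial.evalRingHom t) p) = Polynomial.eval t (coeff d p) := by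
  rw [coeff_map]
  rfl

theorem map_eval_map_C (p : MvPolynomial σ ℂ) (t : ℂ) :
    map (Polynomial.evalRingHom t) (map (Polynomial.C : ℂ →+* Polynomial ℂ) p) = p := by
  rw [map_map]
  have : (Polynomial.evalRingHom t).comp (Polynomial.C : ℂ →+* Polynomial ℂ) = RingHom.id ℂ := by
    ext x
    simp
  rw [this, MvPolynomial.map_id]

/-- Openness. -/
theorem deform [Fintype σ] {τ : Type*} [Fintype τ] {I : Ideal (MvPolynomial σ ℂ)}
    (hI : TruncClosed I) (G : τ → MvPolynomial σ (Polynomial ℂ)) {δ : ℕ} (hδ : 0 < δ)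
    (hG : ∀ s, (G s).IsHomogeneous δ) {E : ℕ}
    (h0 : idealOfVars σ ℂ ^ E ≤
      Ideal.span (Set.range fun s => map (Polynomial.evalRingHom 0) (G s)) ⊔ I) :
    ∃ t : ℂ, t ≠ 0 ∧ idealOfVars σ ℂ ^ E ≤
      Ideal.span (Set.range fun s => map (Polynomial.evalRingHom t) (G s)) ⊔ I := by
  classical
  let D := ↥(Finset.finsuppAntidiag (Finset.univ : Finset σ) E)
  have hdeg : ∀ d : σ →₀ ℕ, d.degree = E → d ∈ Finset.finsuppAntidiag (Finset.univ : Finset σ) E := by
    intro d hd
    rw [Finset.mem_finsuppAntidiag]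
    refine ⟨?_, Finset.subset_univ _⟩
    rw [← hd, Finsupp.degree_eq_sum]
  have hdeg' : ∀ d : D, (d : σ →₀ ℕ).degree = E := by
    intro d
    have := (Finset.mem_finsuppAntidiag.1 d.2).1
    rw [Finsupp.degree_eq_sum]
    exact this
  -- representations at `0`
  have hrep : ∀ d : D, ∃ h : τ → MvPolynomial σ ℂ, ∃ i ∈ I,
      ∑ s, h s * map (Polynomial.evalRingHom 0) (G s) + i = monomial (d : σ →₀ ℕ) 1 := by
    intro d
    have h1 : (monomial (d : σ →₀ ℕ) 1 : MvPolynomial σ ℂ) ∈ idealOfVars σ ℂ ^ E := by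
      rw [monomial_mem_pow_idealOfVars_iff _ _ one_ne_zero]
      exact (hdeg' d).ge
    obtain ⟨g, hg, i, hi, hgi⟩ := Submodule.mem_sup.1 (h0 h1)
    obtain ⟨h, rfl⟩ := Ideal.mem_span_range_iff_exists_fun.1 hg
    exact ⟨h, i, hi, hgi⟩
  choose h i hi hrep using hrep
  let w : D → MvPolynomial σ (Polynomial ℂ) := fun d =>
    ∑ s, map Polynomial.C (h d s) * G s + map Polynomial.C (i d)
  have hw : ∀ (t : ℂ) (d : D), map (Polynomial.evalRingHom t) (w d) =
      ∑ s, h d s * map (Polynomial.evalRingHom t) (G s) + i d := by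
    intro t d
    simp only [w, map_add, map_sum, map_mul, map_eval_map_C]
  let A : Matrix D D (Polynomial ℂ) := fun d d' => coeff (d' : σ →₀ ℕ) (w d)
  have hA0 : A.map (Polynomial.evalRingHom 0) = 1 := by
    ext d d'
    rw [Matrix.map_apply]
    show Polynomial.eval 0 (coeff (d' : σ →₀ ℕ) (w d)) = _
    rw [← coeff_map_eval, hw, hrep, coeff_monomial, Matrix.one_apply]
    by_cases hdd : d = d'
    · rw [if_pos hdd, if_pos (congrArg Subtype.val hdd)]
    · rw [if_neg hdd, if_neg (fun h => hdd (Subtype.ext h))]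
  have hdet0 : Polynomial.eval 0 A.det = 1 := by
    have := RingHom.map_det (Polynomial.evalRingHom (0 : ℂ)) A
    rw [RingHom.mapMatrix_apply, hA0, Matrix.det_one] at this
    exact this
  have hne : A.det * Polynomial.X ≠ 0 := by
    intro h1
    rcases mul_eq_zero.1 h1 with h2 | h2
    · rw [h2] at hdet0
      simp at hdet0
    · exact Polynomial.X_ne_zero h2
  obtain ⟨t, ht⟩ : ∃ t : ℂ, Polynomial.eval t (A.det * Polynomial.X) ≠ 0 := by
    by_contra hcon
    push Not at hcon
    exact hne (Polynomial.funext fun t => by rw [hcon t, Polynomial.eval_zero])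
  rw [Polynomial.eval_mul, Polynomial.eval_X] at ht
  refine ⟨t, right_ne_zero_of_mul ht, ?_⟩
  set Q := Ideal.span (Set.range fun s => map (Polynomial.evalRingHom t) (G s)) ⊔ I with hQ
  have hQt : TruncClosed Q := by
    apply hI.sup_span_range hδ
    intro s
    exact (hG s).map _
  -- the matrix at `t`
  let At : Matrix D D ℂ := A.map (Polynomial.evalRingHom t)
  have hdet : At.det ≠ 0 := by
    have := RingHom.map_det (Polynomial.evalRingHom t) A
    rw [RingHom.mapMatrix_apply] at this
    show (A.map (Polynomial.evalRingHom t)).det ≠ 0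
    rw [← this]
    exact left_ne_zero_of_mul ht
  have hwt : ∀ d, map (Polynomial.evalRingHom t) (w d) ∈ Q := by
    intro d
    rw [hw]
    refine add_mem (Submodule.sum_mem _ fun s _ => ?_) (Ideal.mem_sup_right (hi d))
    exact Ideal.mem_sup_left (Ideal.mul_mem_left _ _ (Ideal.subset_span ⟨s, rfl⟩))
  have hinv : At⁻¹ * At = 1 := Matrix.nonsing_inv_mul _ (isUnit_iff_ne_zero.2 hdet)
  rw [pow_idealOfVars_eq_span, Ideal.span_le]
  rintro _ ⟨d, hd, rfl⟩
  have hd' : d.degree = E := hd
  let d0 : D := ⟨d, hdeg d hd'⟩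
  have hcomb : (monomial d 1 : MvPolynomial σ ℂ) = homogeneousComponent E
      (∑ d', C (At⁻¹ d0 d') * map (Polynomial.evalRingHom t) (w d')) := by
    ext e
    rw [coeff_homogeneousComponent, coeff_monomial]
    by_cases he : e.degree = E
    · rw [if_pos he, coeff_sum]
      simp only [coeff_C_mul]
      let e0 : D := ⟨e, hdeg e he⟩
      have h3 := congrFun (congrFun hinv d0) e0
      rw [Matrix.mul_apply, Matrix.one_apply] at h3
      have h4 : ∀ d', At d' e0 = coeff e (map (Polynomial.evalRingHom t) (w d')) := by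
        intro d'
        rw [coeff_map_eval]
        rfl
      simp only [h4] at h3
      rw [h3]
      by_cases hdd : d = e
      · rw [if_pos hdd, if_pos (Subtype.ext hdd : d0 = e0)]
      · rw [if_neg hdd, if_neg (fun h => hdd (congrArg Subtype.val h))]
    · rw [if_neg he, if_neg]
      rintro rfl
      exact he hd'
  rw [SetLike.mem_coe]
  show (monomial d 1 : MvPolynomial σ ℂ) ∈ Q
  rw [hcomb]
  apply hQt.part_mem
  exact Submodule.sum_mem _ fun d' _ => Ideal.mul_mem_left _ _ (hwt d')

end Pool.Agent.Work.MP_499dc6_lc.Deg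

end

section

set_option autoImplicit false
set_option linter.unusedSectionVars false

/-! The lower bound for the number of products needed for the permanent. -/

namespace Pool.Agent.Work.MP_499dc6_lc.Deg

open MvPolynomial Submodule

variable {b m k : ℕ}

/-- The ideal. -/
noncomputable def IG (b m k κ : ℕ) : Ideal (PR b m k) :=
  Ideal.span (gen '' (genSet b m k κ : Set (Gen b m k)))

theorem gD_mem (κ : ℕ) (J0 : Fin m) (D : Finset (Idx b m k)) (hD : D ⊆ Grp b J0)
    (hne : D.Nonempty) : gD Finset.univ D ∈ IG b m k κ := by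
  classical
  let f : Fin k ↪ Idx b m k := ⟨fun c : Fin k => Sum.inr (J0, c), fun x y h => by simpa using h⟩
  let Cs : Finset (Fin k) := Finset.univ.filter (fun c => (Sum.inr (J0, c) : Idx b m k) ∈ D)
  have hDC : D = Cs.map f := by
    ext t
    rw [Finset.mem_map]
    constructor
    · intro ht
      obtain ⟨c, rfl⟩ := (mem_Grp J0 t).1 (hD ht)
      exact ⟨c, Finset.mem_filter.2 ⟨Finset.mem_univ _, ht⟩, rfl⟩
    · rintro ⟨c, hc, rfl⟩
      exact (Finset.mem_filter.1 hc).2
  have hcard : 1 ≤ Cs.card := by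
    have h1 : D.card = Cs.card := by
      conv_lhs => rw [hDC]
      rw [Finset.card_map]
    have h2 := Finset.card_pos.2 hne
    omega
  have hmem : (Sum.inl (J0, Cs) : Gen b m k) ∈ genSet b m k κ := by
    unfold genSet
    rw [Finset.mem_disjSum]
    exact Or.inl ⟨(J0, Cs), Finset.mem_filter.2 ⟨Finset.mem_univ _, hcard⟩, rfl⟩
  have hgen : (gen (Sum.inl (J0, Cs)) : PR b m k) = gD Finset.univ D := by
    conv_rhs => rw [hDC]
    rfl
  rw [← hgen]
  exact Ideal.subset_span ⟨_, hmem, rfl⟩

theorem es_mem (κ : ℕ) (i0 : Fin b) (J0 : Fin m) (j : ℕ) (h1 : 1 ≤ j) (h2 : j ≤ κ - 1) :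
    es (vf i0) j (Grp b J0) ∈ IG b m k κ := by
  have hmem : (Sum.inr (i0, (J0, j)) : Gen b m k) ∈ genSet b m k κ := by
    unfold genSet
    rw [Finset.mem_disjSum]
    refine Or.inr ⟨(i0, (J0, j)), ?_, rfl⟩
    simp only [Finset.mem_product, Finset.mem_univ, true_and, Finset.mem_Icc]
    exact ⟨h1, h2⟩
  exact Ideal.subset_span ⟨_, hmem, rfl⟩

theorem totalDegree_entry_le (gv : Fin k → ℂ) (p q : Idx b m k) :
    (entry gv p q).totalDegree ≤ 1 := by
  cases p with
  | inl i =>
    cases q with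
    | inl g =>
      show (1 : PR b m k).totalDegree ≤ 1
      rw [totalDegree_one]
      exact Nat.zero_le _
    | inr p =>
      show (X (i, p) : PR b m k).totalDegree ≤ 1
      rw [totalDegree_X]
  | inr p =>
    cases q with
    | inl g =>
      show (C (gv p.2) : PR b m k).totalDegree ≤ 1
      rw [totalDegree_C]
      exact Nat.zero_le _
    | inr q =>
      show (if p.1 = q.1 then (1 : PR b m k) else 0).totalDegree ≤ 1
      split_ifs
      · rw [totalDegree_one]
        exact Nat.zero_le _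
      · rw [totalDegree_zero]
        exact Nat.zero_le _

theorem c1_pos (b m k κ : ℕ) : 0 < c1 b m k κ := by
  unfold c1
  positivity

/-- Lower bound for the number of products, for an index type adapted to the gadget. -/
theorem perm_reach_bound {κ : ℕ} (hκ : 3 ≤ κ) (hk : κ ≤ k) (hb : κ ≤ b) {s : ℕ}
    {L : Submodule ℂ (MvPolynomial (Idx b m k × Idx b m k) ℂ)}
    (hL : Reach (L0 (Idx b m k × Idx b m k)) s L) (hf : permPoly (Idx b m k) ∈ L) :
    (κ - 1) ^ (b * (m * k) - (m * 2 ^ k + b * (m * (κ - 1)))) ≤ 2 ^ (3 * s) := by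
  classical
  obtain ⟨gv, hgv⟩ := exists_gv (k := k) (κ := κ) (by omega) hk
  obtain ⟨M, hM, -, hder⟩ := baur_strassen (fun v : Idx b m k × Idx b m k => pderiv (R := ℂ) v)
    (L0 _) one_mem_L0 (fun v => pderiv_L0 v) hL hf
  let I := IG b m k κ
  let ψ : MvPolynomial (Idx b m k × Idx b m k) ℂ →ₐ[ℂ] PR b m k :=
    aeval (fun p => entry gv p.2 p.1)
  let φ : MvPolynomial (Idx b m k × Idx b m k) ℂ →ₐ[ℂ] (PR b m k ⧸ I) :=
    (Ideal.Quotient.mkₐ ℂ I).comp ψ
  have hφ : ∀ x, φ x = Ideal.Quotient.mk I (ψ x) := fun x => rfl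
  have h1 : (1 : PR b m k ⧸ I) ∈ (L0 (Idx b m k × Idx b m k)).map φ.toLinearMap :=
    ⟨1, one_mem_L0, map_one φ⟩
  have hX : ∀ v : Pos b m k, Ideal.Quotient.mk I (X v) ∈ M.map φ.toLinearMap := by
    rintro ⟨i, p⟩
    refine ⟨X (Sum.inr p, Sum.inl i), hM.le (X_mem_L0 _), ?_⟩
    show Ideal.Quotient.mk I (ψ (X (Sum.inr p, Sum.inl i))) = _
    rw [aeval_X]
    rfl
  have hM0 : (L0 (Idx b m k × Idx b m k)).map φ.toLinearMap ≤
      (restrictTotalDegree (Pos b m k) ℂ 1).map (Ideal.Quotient.mkₐ ℂ I).toLinearMap := by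
    unfold L0
    rw [Submodule.map_span, Submodule.span_le]
    rintro _ ⟨x, hx, rfl⟩
    rcases hx with rfl | ⟨⟨p, q⟩, rfl⟩
    · exact ⟨1, one_mem_W 1, (map_one φ).symm⟩
    · refine ⟨entry gv q p, ?_, ?_⟩
      · rw [SetLike.mem_coe, mem_restrictTotalDegree]
        exact totalDegree_entry_le gv q p
      · show Ideal.Quotient.mk I _ = Ideal.Quotient.mk I (ψ (X (p, q)))
        rw [aeval_X]
  have hF : ∀ v : Pos b m k, ∃ F ∈ M.map φ.toLinearMap,
      Ideal.Quotient.mk I (X v) ^ (κ - 1) - F ∈ ordIdeal I (κ - 1 + 1) := by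
    rintro ⟨i0, J0, c⟩
    set c0 : Idx b m k := Sum.inr (J0, c) with hc0
    have hlead := lead (m := m) (by omega : 0 < κ) hk hb i0 J0 c
    have hmod := lead_mod (b := b) (κ := κ) I i0 J0 c
      (fun D hD hne _ => gD_mem κ J0 D hD hne) (fun j hj1 hj2 => es_mem κ i0 J0 j hj1 hj2)
    have hder0 : ψ (pderiv (c0, Sum.inl i0) (permPoly (Idx b m k))) =
        sf ((∏ i ∈ Finset.univ.erase i0, (vrow i + Zs (Glob b m k))) * Qp b m k κ Finset.univ)
        (Finset.univ.erase c0) := by
      rw [← prod_rows gv hgv i0]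
      exact aeval_pderiv (entry gv) c0 (Sum.inl i0)
    set F0 : PR b m k := sf ((∏ i ∈ Finset.univ.erase i0, (vrow i + Zs (Glob b m k))) *
      Qp b m k κ Finset.univ) (Finset.univ.erase c0) with hF0
    set Sg : PR b m k := ∑ D ∈ ((Grp b J0).erase c0).powersetCard (κ - 1),
      gD (Finset.univ.erase i0) D with hSg
    let a : ℂ := (c1 b m k κ : ℂ) * ((κ - 1).factorial : ℂ)
    have ha : a ≠ 0 := by
      apply mul_ne_zero
      · exact_mod_cast (c1_pos b m k κ).ne'
      · exact_mod_cast (Nat.factorial_pos _).ne'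
    refine ⟨(-a⁻¹) • φ (pderiv (c0, Sum.inl i0) (permPoly (Idx b m k))), ?_, ?_⟩
    · exact Submodule.smul_mem _ _ (mem_map_of_mem (hder (c0, Sum.inl i0)))
    · have h2 : Ideal.Quotient.mk I (F0 + (c1 b m k κ : PR b m k) * Sg) ∈ ordIdeal I κ :=
        Ideal.mem_map_of_mem _ hlead
      have h3 : Ideal.Quotient.mk I (Sg - ((κ - 1).factorial : PR b m k) *
          X (i0, (J0, c)) ^ (κ - 1)) = 0 := Ideal.Quotient.eq_zero_iff_mem.2 hmod
      have h4 : Ideal.Quotient.mk I (F0 + C a * X (i0, (J0, c)) ^ (κ - 1)) ∈ ordIdeal I κ := by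
        have h5 : F0 + C a * X (i0, (J0, c)) ^ (κ - 1) =
            (F0 + (c1 b m k κ : PR b m k) * Sg) - (c1 b m k κ : PR b m k) *
              (Sg - ((κ - 1).factorial : PR b m k) * X (i0, (J0, c)) ^ (κ - 1)) := by
          have h6 : (C a : PR b m k) = (c1 b m k κ : PR b m k) *
              ((κ - 1).factorial : PR b m k) := by
            show (C ((c1 b m k κ : ℂ) * ((κ - 1).factorial : ℂ)) : PR b m k) = _
            rw [map_mul, map_natCast, map_natCast]
          rw [h6]
          ring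
        rw [h5, map_sub, map_mul, h3, mul_zero, sub_zero]
        exact h2
      have h7 : Ideal.Quotient.mk I (X (i0, (J0, c))) ^ (κ - 1) -
          (-a⁻¹) • φ (pderiv (c0, Sum.inl i0) (permPoly (Idx b m k))) =
          Ideal.Quotient.mk I (C a⁻¹ * (F0 + C a * X (i0, (J0, c)) ^ (κ - 1))) := by
        have h8 : C a⁻¹ * (F0 + C a * X (i0, (J0, c)) ^ (κ - 1)) =
            X (i0, (J0, c)) ^ (κ - 1) - (-a⁻¹) • F0 := by
          rw [mul_add, ← mul_assoc, ← map_mul, inv_mul_cancel₀ ha, map_one, one_mul, neg_smul,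
            sub_neg_eq_add, smul_eq_C_mul, add_comm]
        rw [h8, map_sub, map_pow]
        congr 1
        have h9 := (Ideal.Quotient.mkₐ ℂ I).toLinearMap.map_smul (-a⁻¹) F0
        rw [hφ, hder0]
        exact h9.symm
      rw [h7, map_mul, Nat.sub_add_cancel (by omega : 1 ≤ κ)]
      exact Ideal.mul_mem_left _ _ h4
  have hbound := degree_bound (genSet b m k κ) gen genDeg (gen_homogeneous κ)
    (δ := κ - 1) (by omega) (S := 3 * s)
    (M0 := (L0 (Idx b m k × Idx b m k)).map φ.toLinearMap) (M := M.map φ.toLinearMap)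
    h1 hX hM0 (hM.map φ) hF
  refine le_trans (Nat.pow_le_pow_right (by omega) ?_) hbound
  have hcard : Fintype.card (Pos b m k) = b * (m * k) := by simp
  rw [hcard]
  exact Nat.sub_le_sub_left (card_genSet κ) _

end Pool.Agent.Work.MP_499dc6_lc.Deg

end

section

set_option autoImplicit false
set_option linter.unusedSectionVars false

/-! Circuits and the final bound. -/

namespace Pool.Agent.Work.MP_499dc6_lc.Deg

open MvPolynomial Submodule

theorem IsCircuit.reach {σ : Type*} {s : ℕ} {f : Fin s → MvPolynomial σ ℂ}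
    {N : Finset (Fin s)} (h : IsCircuit f N) : ∀ n ≤ s,
      ∃ L, Reach (L0 σ) (N.filter (fun t : Fin s => (t : ℕ) < n)).card L ∧
        ∀ t : Fin s, (t : ℕ) < n → f t ∈ L := by
  classical
  intro n
  induction n with
  | zero =>
    intro _
    refine ⟨L0 σ, ?_, fun t ht => absurd ht (Nat.not_lt_zero _)⟩
    have : N.filter (fun t : Fin s => (t : ℕ) < 0) = ∅ := by
      apply Finset.filter_eq_empty_iff.2
      intro t _
      exact Nat.not_lt_zero _
    rw [this, Finset.card_empty]
    exact Reach.refl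
  | succ n ih =>
    intro hn
    obtain ⟨L, hL, hmem⟩ := ih (by omega)
    let t0 : Fin s := ⟨n, by omega⟩
    have ht0 : ∀ t : Fin s, (t : ℕ) < n + 1 ↔ (t : ℕ) < n ∨ t = t0 := by
      intro t
      constructor
      · intro h1
        rcases Nat.lt_succ_iff_lt_or_eq.1 h1 with h2 | h2
        · exact Or.inl h2
        · exact Or.inr (Fin.ext h2)
      · rintro (h1 | rfl)
        · omega
        · exact Nat.lt_succ_self n
    by_cases hcase : t0 ∈ N
    · have hcard : (N.filter (fun t : Fin s => (t : ℕ) < n + 1)).card =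
          (N.filter (fun t : Fin s => (t : ℕ) < n)).card + 1 := by
        have h1 : N.filter (fun t : Fin s => (t : ℕ) < n + 1) =
            insert t0 (N.filter (fun t : Fin s => (t : ℕ) < n)) := by
          ext t
          rw [Finset.mem_insert, Finset.mem_filter, Finset.mem_filter, ht0 t]
          constructor
          · rintro ⟨h1, h2 | h2⟩
            · exact Or.inr ⟨h1, h2⟩
            · exact Or.inl h2
          · rintro (rfl | ⟨h1, h2⟩)
            · exact ⟨hcase, Or.inr rfl⟩
            · exact ⟨h1, Or.inl h2⟩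
        rw [h1, Finset.card_insert_of_notMem]
        intro h2
        exact absurd (Finset.mem_filter.1 h2).2 (lt_irrefl n)
      have hprod : ∃ u ∈ L, ∃ v ∈ L, f t0 ∈ L ⊔ span ℂ {u * v} := by
        rcases h t0 with ⟨c, hc⟩ | ⟨i, hi⟩ | ⟨a, ha, b, hb, α, β, hab⟩ | ⟨-, a, ha, b, hb, hab⟩
        · refine ⟨1, hL.le one_mem_L0, 1, hL.le one_mem_L0, mem_sup_left ?_⟩
          rw [hc, ← mul_one (C c), ← smul_eq_C_mul]
          exact L.smul_mem c (hL.le one_mem_L0)
        · refine ⟨1, hL.le one_mem_L0, 1, hL.le one_mem_L0, mem_sup_left ?_⟩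
          rw [hi]
          exact hL.le (X_mem_L0 i)
        · refine ⟨1, hL.le one_mem_L0, 1, hL.le one_mem_L0, mem_sup_left ?_⟩
          rw [hab, ← smul_eq_C_mul, ← smul_eq_C_mul]
          exact L.add_mem (L.smul_mem _ (hmem a ha)) (L.smul_mem _ (hmem b hb))
        · refine ⟨f a, hmem a ha, f b, hmem b hb, mem_sup_right ?_⟩
          rw [hab]
          exact mem_span_singleton_self _
      obtain ⟨u, hu, v, hv, huv⟩ := hprod
      refine ⟨L ⊔ span ℂ {u * v}, ?_, ?_⟩
      · rw [hcard]
        exact hL.step hu hv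
      · intro t ht
        rcases (ht0 t).1 ht with h1 | rfl
        · exact mem_sup_left (hmem t h1)
        · exact huv
    · have hcard : N.filter (fun t : Fin s => (t : ℕ) < n + 1) = N.filter (fun t : Fin s => (t : ℕ) < n) := by
        ext t
        rw [Finset.mem_filter, Finset.mem_filter, ht0 t]
        constructor
        · rintro ⟨h1, h2 | rfl⟩
          · exact ⟨h1, h2⟩
          · exact absurd h1 hcase
        · rintro ⟨h1, h2⟩
          exact ⟨h1, Or.inl h2⟩
      refine ⟨L, ?_, ?_⟩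
      · rw [hcard]
        exact hL
      · intro t ht
        rcases (ht0 t).1 ht with h1 | rfl
        · exact hmem t h1
        · rcases h t0 with ⟨c, hc⟩ | ⟨i, hi⟩ | ⟨a, ha, b, hb, α, β, hab⟩ | ⟨h1, -⟩
          · rw [hc, ← mul_one (C c), ← smul_eq_C_mul]
            exact L.smul_mem c (hL.le one_mem_L0)
          · rw [hi]
            exact hL.le (X_mem_L0 i)
          · rw [hab, ← smul_eq_C_mul, ← smul_eq_C_mul]
            exact L.add_mem (L.smul_mem _ (hmem a ha)) (L.smul_mem _ (hmem b hb))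
          · exact absurd h1 hcase

theorem IsCircuit.reach_all {σ : Type*} {s : ℕ} {f : Fin s → MvPolynomial σ ℂ}
    {N : Finset (Fin s)} (h : IsCircuit f N) : ∃ L, Reach (L0 σ) N.card L ∧ ∀ t, f t ∈ L := by
  obtain ⟨L, hL, hmem⟩ := h.reach s le_rfl
  have : N.filter (fun t : Fin s => (t : ℕ) < s) = N := by
    apply Finset.filter_true_of_mem
    intro t _
    exact t.2
  rw [this] at hL
  exact ⟨L, hL, fun t => hmem t t.2⟩

theorem L0_map_rename {σ τ : Type*} (e : σ ≃ τ) :
    (L0 σ).map (rename (R := ℂ) e).toLinearMap = L0 τ := by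
  unfold L0
  rw [Submodule.map_span, Set.image_insert_eq]
  congr 2
  · exact map_one (rename (R := ℂ) e)
  · ext x
    constructor
    · rintro ⟨_, ⟨v, rfl⟩, rfl⟩
      exact ⟨e v, (rename_X e v).symm⟩
    · rintro ⟨w, rfl⟩
      refine ⟨X (e.symm w), ⟨_, rfl⟩, ?_⟩
      have := rename_X (R := ℂ) e (e.symm w)
      rw [Equiv.apply_symm_apply] at this
      exact this

theorem rename_permPoly {T T' : Type} [DecidableEq T] [Fintype T] [DecidableEq T'] [Fintype T']
    (e : T ≃ T') : rename (e.prodCongr e) (permPoly T) = permPoly T' := by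
  rw [permPoly_eq, permPoly_eq, map_sum]
  refine Fintype.sum_equiv (Equiv.permCongr e) _ _ ?_
  intro σ
  rw [map_prod, ← e.prod_comp]
  apply Finset.prod_congr rfl
  intro i _
  rw [rename_X]
  simp

/-- Lower bound for the number of products for the `n × n` permanent. -/
theorem perm_bound {b m k κ n : ℕ} (hn : n = b + m * k) (hκ : 3 ≤ κ) (hk : κ ≤ k) (hb : κ ≤ b)
    {s : ℕ} {L : Submodule ℂ (MvPolynomial (Fin n × Fin n) ℂ)}
    (hL : Reach (L0 (Fin n × Fin n)) s L) (hf : permPoly (Fin n) ∈ L) :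
    (κ - 1) ^ (b * (m * k) - (m * 2 ^ k + b * (m * (κ - 1)))) ≤ 2 ^ (3 * s) := by
  have hcard : Fintype.card (Fin n) = Fintype.card (Idx b m k) := by
    simp [hn]
  let e : Fin n ≃ Idx b m k := Fintype.equivOfCardEq hcard
  have h1 := hL.map (rename (R := ℂ) (e.prodCongr e))
  rw [L0_map_rename] at h1
  refine perm_reach_bound hκ hk hb h1 ?_
  rw [← rename_permPoly e]
  exact mem_map_of_mem hf

end Pool.Agent.Work.MP_499dc6_lc.Deg

end
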