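import Pool.Agent.Work.MP_499dc6_lc.Bd.B01
import Pool.Agent.Work.MP_499dc6_lc.Bd.B11
import Pool.Agent.Work.MP_499dc6_lc.Gadget.Eval

/-! Bundle of small proof modules (one section per former module). -/

section

set_option autoImplicit false
set_option linter.unusedSectionVars false

/-! The degree bound for the number of products needed to compute a polynomial all of whose
derivatives have large order. -/

namespace Pool.Agent.Work.MP_499dc6_lc.Deg

open Submodule Module MvPolynomial

theorem Reach.mono_left {K A : Type*} [Field K] [CommRing A] [Algebra K A]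
    {M0 M0' M : Submodule K A} {s : ℕ} (h : M0 ≤ M0') (hR : Reach M0 s M) :
    ∃ M', M ≤ M' ∧ Reach M0' s M' := by
  induction hR with
  | refl => exact ⟨M0', h, Reach.refl⟩
  | @step t M' _ u v hu hv ih =>
    obtain ⟨M'', h1, h2⟩ := ih
    exact ⟨M'' ⊔ span K {u * v}, sup_le_sup_right h1 _, h2.step (h1 hu) (h1 hv)⟩

theorem derivation_pow {K A : Type*} [CommRing K] [CommRing A] [Algebra K A]
    (D : Derivation K A A) (I : Ideal A) : ∀ (n : ℕ), ∀ p ∈ I ^ (n + 1), D p ∈ I ^ n := by
  intro n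
  induction n with
  | zero => intro p _; simp
  | succ n ih =>
    intro p hp
    rw [pow_succ] at hp
    refine Submodule.mul_induction_on hp ?_ ?_
    · intro a ha b hb
      rw [Derivation.leibniz]
      refine add_mem ?_ ?_
      · rw [smul_eq_mul]
        exact Ideal.mul_mem_right _ _ ha
      · rw [smul_eq_mul, mul_comm, pow_succ]
        exact Ideal.mul_mem_mul (ih a ha) hb
    · intro x y hx hy
      rw [map_add]
      exact add_mem hx hy

theorem L0_le_W {σ : Type*} : L0 σ ≤ restrictTotalDegree σ ℂ 1 := by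
  unfold L0
  rw [Submodule.span_le]
  rintro x (rfl | ⟨v, rfl⟩)
  · exact one_mem_W 1
  · rw [SetLike.mem_coe, mem_restrictTotalDegree, totalDegree_X]

theorem C_mem_L0 {σ : Type*} (c : ℂ) : (C c : MvPolynomial σ ℂ) ∈ L0 σ := by
  have h : (C c : MvPolynomial σ ℂ) = c • 1 := by rw [smul_eq_C_mul, mul_one]
  rw [h]
  exact Submodule.smul_mem _ c one_mem_L0

theorem C_mul_X_mem_L0 {σ : Type*} (c : ℂ) (v : σ) : (C c * X v : MvPolynomial σ ℂ) ∈ L0 σ := by
  rw [← smul_eq_C_mul]
  exact Submodule.smul_mem _ c (X_mem_L0 v)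

theorem L0_map_le {σ τ : Type*} (g : τ → MvPolynomial σ ℂ) (hg : ∀ p, g p ∈ L0 σ) :
    (L0 τ).map (aeval (R := ℂ) g).toLinearMap ≤ L0 σ := by
  conv_lhs => unfold L0
  rw [Submodule.map_span, Submodule.span_le]
  rintro _ ⟨x, (rfl | ⟨v, rfl⟩), rfl⟩
  · rw [AlgHom.toLinearMap_apply, map_one]
    exact one_mem_L0
  · rw [AlgHom.toLinearMap_apply, aeval_X]
    exact hg v

/-- Affine substitutions do not increase the number of products. -/
theorem reach_aeval {σ τ : Type*} {s : ℕ} {L : Submodule ℂ (MvPolynomial τ ℂ)}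
    (hL : Reach (L0 τ) s L) {f : MvPolynomial τ ℂ} (hf : f ∈ L)
    (g : τ → MvPolynomial σ ℂ) (hg : ∀ p, g p ∈ L0 σ) :
    ∃ L', Reach (L0 σ) s L' ∧ aeval g f ∈ L' := by
  obtain ⟨L', h1, h2⟩ := (hL.map (aeval (R := ℂ) g)).mono_left (L0_map_le g hg)
  exact ⟨L', h2, h1 (mem_map_of_mem hf)⟩

/-- The degree bound for one polynomial. -/
theorem reach_degree_bound {σ : Type*} [Fintype σ] {f : MvPolynomial σ ℂ} {s : ℕ}
    {L : Submodule ℂ (MvPolynomial σ ℂ)} (hL : Reach (L0 σ) s L) (hf : f ∈ L)
    {ι : Type*} (T : Finset ι) (J : ι → MvPolynomial σ ℂ) (e : ι → ℕ)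
    (hJ : ∀ i ∈ T, (J i).IsHomogeneous (e i) ∧ 0 < e i)
    {δ : ℕ} (hδ : 2 ≤ δ) (G : σ → MvPolynomial σ ℂ) (hG : ∀ v, (G v).IsHomogeneous δ)
    (hlead : ∀ v, pderiv v f - G v ∈ idealOfVars σ ℂ ^ (δ + 1))
    {E : ℕ} (hE : idealOfVars σ ℂ ^ E ≤ Ideal.span (Set.range G) ⊔ Ideal.span (J '' T)) :
    δ ^ (Fintype.card σ - T.card) ≤ 2 ^ (3 * s) := by
  classical
  obtain ⟨M, hM, -, hder⟩ := baur_strassen (fun v : σ => pderiv (R := ℂ) v)
    (L0 _) one_mem_L0 (fun v => pderiv_L0 v) hL hf
  let I := Ideal.span (J '' T)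
  let φ : MvPolynomial σ ℂ →ₐ[ℂ] (MvPolynomial σ ℂ ⧸ I) := Ideal.Quotient.mkₐ ℂ I
  refine degree_bound_gen T J e hJ hδ (S := 3 * s) (M0 := (L0 σ).map φ.toLinearMap)
    (M := M.map φ.toLinearMap) ?_ ?_ ?_ (hM.map φ) G hG ?_ hE
  · exact ⟨1, one_mem_L0, map_one φ⟩
  · intro v
    exact ⟨X v, hM.le (X_mem_L0 _), rfl⟩
  · exact Submodule.map_mono L0_le_W
  · intro v
    refine ⟨φ (pderiv v f), mem_map_of_mem (hder v), ?_⟩
    have h1 : Ideal.Quotient.mk I (pderiv v f - G v) ∈ ordIdeal I (δ + 1) :=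
      Ideal.mem_map_of_mem _ (hlead v)
    have h2 : Ideal.Quotient.mk I (G v) - φ (pderiv v f) =
        - Ideal.Quotient.mk I (pderiv v f - G v) := by
      rw [map_sub, neg_sub]
      rfl
    rw [h2]
    exact neg_mem h1

/-- The degree bound for a polynomial whose leading form is `P`. -/
theorem reach_degree_bound_lead {σ : Type*} [Fintype σ] {f P : MvPolynomial σ ℂ} {s : ℕ}
    {L : Submodule ℂ (MvPolynomial σ ℂ)} (hL : Reach (L0 σ) s L) (hf : f ∈ L)
    {ι : Type*} (T : Finset ι) (J : ι → MvPolynomial σ ℂ) (e : ι → ℕ)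
    (hJ : ∀ i ∈ T, (J i).IsHomogeneous (e i) ∧ 0 < e i)
    {κ : ℕ} (hκ : 3 ≤ κ) (hP : P.IsHomogeneous κ) {c0 c1 : ℂ} (hc1 : c1 ≠ 0)
    (hlead : f - (C c0 + C c1 * P) ∈ idealOfVars σ ℂ ^ (κ + 1))
    {E : ℕ} (hE : idealOfVars σ ℂ ^ E ≤
      Ideal.span (Set.range fun v => pderiv v P) ⊔ Ideal.span (J '' T)) :
    (κ - 1) ^ (Fintype.card σ - T.card) ≤ 2 ^ (3 * s) := by
  classical
  refine reach_degree_bound hL hf T J e hJ (δ := κ - 1) (by omega)
    (fun v => C c1 * pderiv v P) ?_ ?_ (E := E) ?_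
  · intro v
    have h1 := hP.pderiv (i := v)
    have h2 := (isHomogeneous_C σ c1).mul h1
    rwa [zero_add] at h2
  · intro v
    have h1 := derivation_pow (pderiv (R := ℂ) v) (idealOfVars σ ℂ) κ _ hlead
    rw [map_sub, map_add, pderiv_C, zero_add] at h1
    rw [show κ - 1 + 1 = κ by omega]
    convert h1 using 2
    rw [Derivation.leibniz, pderiv_C, smul_zero, add_zero, smul_eq_mul]
  · refine hE.trans (sup_le_sup_right ?_ _)
    rw [Ideal.span_le]
    rintro _ ⟨v, rfl⟩
    have h1 : pderiv v P = C c1⁻¹ * (C c1 * pderiv v P) := by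
      rw [← mul_assoc, ← map_mul, inv_mul_cancel₀ hc1, map_one, one_mul]
    rw [SetLike.mem_coe]
    show pderiv v P ∈ _
    rw [h1]
    exact Ideal.mul_mem_left _ _ (Ideal.subset_span ⟨v, rfl⟩)

section Pad

variable {Λ Φ R : Type*} [Fintype Λ] [DecidableEq Λ] [Fintype Φ] [DecidableEq Φ] [CommRing R]

theorem permanent_fromBlocks_one (A : Matrix Λ Λ R) :
    (Matrix.fromBlocks A 0 0 (1 : Matrix Φ Φ R)).permanent = A.permanent := by
  classical
  unfold Matrix.permanent
  symm
  refine Fintype.sum_of_injective (fun τ : Equiv.Perm Λ => Equiv.sumCongr τ (Equiv.refl Φ))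
    ?_ _ _ ?_ ?_
  · intro τ τ' h
    ext i
    have := congrArg (fun σ : Equiv.Perm (Λ ⊕ Φ) => σ (Sum.inl i)) h
    simpa using this
  · intro σ hσ
    by_contra hne
    apply hσ
    have hfix : ∀ j : Φ, σ (Sum.inr j) = Sum.inr j := by
      intro j
      by_contra hj
      apply hne
      apply Finset.prod_eq_zero (Finset.mem_univ (Sum.inr j))
      rcases h : σ (Sum.inr j) with i | j'
      · rfl
      · rw [h] at hj
        have : j' ≠ j := fun h' => hj (by rw [h'])
        show (1 : Matrix Φ Φ R) j' j = 0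
        exact Matrix.one_apply_ne this
    have hinl : ∀ i : Λ, ∃ i', σ (Sum.inl i) = Sum.inl i' := by
      intro i
      rcases h : σ (Sum.inl i) with i' | j
      · exact ⟨i', rfl⟩
      · have h2 : σ (Sum.inr j) = σ (Sum.inl i) := by rw [hfix j, h]
        have h3 := σ.injective h2
        simp at h3
    choose f hf using hinl
    have hinj : Function.Injective f := by
      intro a b hab
      have h1 : σ (Sum.inl a) = σ (Sum.inl b) := by rw [hf, hf, hab]
      have := σ.injective h1
      simpa using this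
    refine ⟨Equiv.ofBijective f (Finite.injective_iff_bijective.1 hinj), ?_⟩
    ext x
    rcases x with i | j
    · simp [hf]
    · simp [hfix]
  · intro τ
    rw [Fintype.prod_sum_type]
    simp

end Pad

/-- Any permanent of a matrix of size at most `n` with affine entries is computed with as many
products as the `n × n` permanent. -/
theorem reach_permanent {n s : ℕ} {L : Submodule ℂ (MvPolynomial (Fin n × Fin n) ℂ)}
    (hL : Reach (L0 (Fin n × Fin n)) s L) (hf : permPoly (Fin n) ∈ L)
    {Λ : Type*} [Fintype Λ] [DecidableEq Λ] (hcard : Fintype.card Λ ≤ n) {σ : Type*}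
    (A : Matrix Λ Λ (MvPolynomial σ ℂ)) (hA : ∀ i j, A i j ∈ L0 σ) :
    ∃ L', Reach (L0 σ) s L' ∧ A.permanent ∈ L' := by
  classical
  have hc : Fintype.card (Fin n) = Fintype.card (Λ ⊕ Fin (n - Fintype.card Λ)) := by
    simp only [Fintype.card_fin, Fintype.card_sum]
    omega
  let e : Fin n ≃ Λ ⊕ Fin (n - Fintype.card Λ) := Fintype.equivOfCardEq hc
  let B : Matrix (Λ ⊕ Fin (n - Fintype.card Λ)) (Λ ⊕ Fin (n - Fintype.card Λ))
    (MvPolynomial σ ℂ) := Matrix.fromBlocks A 0 0 1
  have hB : ∀ i j, B i j ∈ L0 σ := by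
    rintro (i | i) (j | j)
    · exact hA i j
    · exact zero_mem _
    · exact zero_mem _
    · show (1 : Matrix _ _ (MvPolynomial σ ℂ)) i j ∈ L0 σ
      rw [Matrix.one_apply]
      split_ifs
      · exact one_mem_L0
      · exact zero_mem _
  obtain ⟨L', h1, h2⟩ := reach_aeval hL hf (fun p => B (e p.1) (e p.2)) (fun p => hB _ _)
  refine ⟨L', h1, ?_⟩
  convert h2 using 1
  rw [← permanent_fromBlocks_one (Φ := Fin (n - Fintype.card Λ)) A, permPoly_eq, map_sum]
  unfold Matrix.permanent
  refine (Fintype.sum_equiv (Equiv.permCongr e) _ _ ?_).symm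
  intro τ
  rw [map_prod, ← e.symm.prod_comp]
  apply Finset.prod_congr rfl
  intro i _
  rw [aeval_X]
  simp [B]

end Pool.Agent.Work.MP_499dc6_lc.Deg

end

section

/-!
The permanent of the gadget as a sum over pairs of active sets.
-/

set_option linter.unusedSectionVars false
set_option synthInstance.maxSize 2000

namespace Pool.Agent.Work.MP_499dc6_lc.Gadget

open MvPolynomial Finset

section

variable {R : Type*} [CommRing R]

lemma top_univ_prod {Λ : Type*} [DecidableEq Λ] [Fintype Λ] :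
    top univ (∏ w : Λ, X w : MvPolynomial Λ R) = 1 := by
  have h5 := top_shift_prod (R := R) (S := (∅ : Finset Λ)) (T := univ) (by simp) 1
  rw [Finset.union_empty, mul_one, top_apply, top_apply] at h5
  rw [top_apply, h5]
  have : ind (∅ : Finset Λ) = 0 := by unfold ind; simp
  rw [this, coeff_zero_one]

variable {A B : Type*} [Fintype A] [DecidableEq A] [Fintype B] [DecidableEq B]
variable {ka kb L Sn κ : ℕ}

/-- product over all labels of one side -/
lemma side_labels {M : Type*} [CommMonoid M] {k : ℕ} (f : SideV A k L → M) :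
    ∏ w, f w = ((∏ w, f (.inl w)) * ∏ w, f (cpIncl A k L w)) *
      ((∏ r, f (.inr (.inl (r, Fin.last L)))) * ∏ l : Fin L, ∏ r, f (.inr (.inr (.inr (r, l))))) := by
  have h1 : (∏ w : (A × Fin (k + 1)) × Fin (L + 1), f (.inr (.inl w))) =
      (∏ w : (A × Fin (k + 1)) × Fin L, f (.inr (.inl (w.1, w.2.castSucc)))) *
        ∏ r, f (.inr (.inl (r, Fin.last L))) := by
    rw [Fintype.prod_prod_type (f := fun w : (A × Fin (k + 1)) × Fin (L + 1) =>
      f (.inr (.inl w))), Fintype.prod_prod_type (f := fun w : (A × Fin (k + 1)) × Fin L =>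
      f (.inr (.inl (w.1, w.2.castSucc)))), ← Finset.prod_mul_distrib]
    exact Finset.prod_congr rfl fun r _ => Fin.prod_univ_castSucc _
  have h2 : (∏ w : (A × Fin (k + 1)) × Fin L, f (.inr (.inr (.inr w)))) =
      ∏ l : Fin L, ∏ r, f (.inr (.inr (.inr (r, l)))) := by
    rw [Fintype.prod_prod_type (f := fun w : (A × Fin (k + 1)) × Fin L =>
      f (.inr (.inr (.inr w)))), Finset.prod_comm]
  have h3 : (∏ w, f (cpIncl A k L w)) =
      (∏ w : (A × Fin (k + 1)) × Fin L, f (.inr (.inl (w.1, w.2.castSucc)))) *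
        ∏ w : (A × Fin (k + 1)) × Fin L, f (.inr (.inr (.inl w))) := by
    rw [Fintype.prod_sum_type]
    rfl
  rw [Fintype.prod_sum_type, Fintype.prod_sum_type (α₁ := (A × Fin (k + 1)) × Fin (L + 1)),
    Fintype.prod_sum_type (α₁ := (A × Fin (k + 1)) × Fin L), h1, h2, h3]
  simp only [mul_assoc]
  congr 2
  rw [mul_left_comm]

lemma rearr3 {M : Type*} [CommMonoid M] (a1 a2 a3 a4 b1 b2 b3 b4 u : M) :
    a1 * a2 * (a3 * a4) * (b1 * b2 * (b3 * b4)) * u =
    a1 * a2 * (b1 * b2) * (b3 * a3 * (b4 * (u * a4))) := by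
  ac_rfl

lemma all_labels {M : Type*} [CommMonoid M] (f : GV A B ka kb L Sn κ → M) :
    ∏ w, f w = (((∏ w, f (pA (.inl w))) * ∏ w, f (pA (cpIncl A ka L w))) *
      ((∏ w, f (pB (.inl w))) * ∏ w, f (pB (cpIncl B kb L w)))) *
      (((∏ c, f (pB (.inr (.inl (c, Fin.last L))))) *
        ∏ r, f (pA (.inr (.inl (r, Fin.last L))))) *
        ∏ l : Fin L, ((∏ c, f (pB (.inr (.inr (.inr (c, l)))))) *
          ((∏ w : Fin Sn × Fin κ, f (.inr (l, w))) *
            ∏ r, f (pA (.inr (.inr (.inr (r, l)))))))) := by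
  rw [Fintype.prod_sum_type, Fintype.prod_sum_type,
    side_labels (fun w => f (.inl (.inl w))), side_labels (fun w => f (.inl (.inr w))),
    Fintype.prod_prod_type (f := fun w : Fin L × (Fin Sn × Fin κ) => f (.inr w))]
  rw [Finset.prod_mul_distrib (s := (univ : Finset (Fin L))),
    Finset.prod_mul_distrib (s := (univ : Finset (Fin L)))]
  exact rearr3 _ _ _ _ _ _ _ _ _

lemma two_sides {Λ : Type*} [DecidableEq Λ] {S : Finset Λ} {YA YB : Set Λ}
    {FA FB FH PA PB : MvPolynomial Λ R} (EA : Eqv S YA FA PA) (EB : Eqv S YB FB PB)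
    (h1 : FB ∈ Free (R := R) YA) (h2 : FH ∈ Free (R := R) YA) (h3 : PA ∈ Free (R := R) YB)
    (h4 : FH ∈ Free (R := R) YB) : top S (FA * FB * FH) = top S (PA * PB * FH) := by
  have t1 := EA (FB * FH) (mul_mem h1 h2)
  have t2 := EB (PA * FH) (mul_mem h3 h4)
  have r1 : FA * FB * FH = FA * (FB * FH) := by ring
  have r2 : PA * (FB * FH) = FB * (PA * FH) := by ring
  have r3 : PB * (PA * FH) = PA * PB * FH := by ring
  rw [r1, t1, r2, t2, r3]

lemma distribute {M : Type*} [CommRing M] {ι ι' : Type*} (s : Finset ι) (s' : Finset ι')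
    {κ' κ'' : Type*} (t : Finset κ') (t' : Finset κ'') (P1 P2 P3 P4 H c T0 : M)
    (T : ι → κ' → M) (U : ι' → κ'' → M) :
    P1 * (P2 * (∑ a ∈ s, ∑ Q ∈ t, T a Q + c * T0)) * (P3 * (P4 * ∑ b ∈ s', ∑ Q ∈ t', U b Q)) * H =
    ∑ a ∈ s, ∑ Q ∈ t, ∑ b ∈ s', ∑ Q' ∈ t', (((P1 * P2) * (P3 * P4)) * (T a Q * U b Q' * H)) +
      c * ∑ b ∈ s', ∑ Q' ∈ t', (((P1 * P2) * (P3 * P4)) * (T0 * U b Q' * H)) := by
  have e1 : ∀ x : M, ∑ b ∈ s', ∑ Q' ∈ t', (((P1 * P2) * (P3 * P4)) * (x * U b Q' * H)) =
      ((P1 * P2) * (P3 * P4)) * (x * (∑ b ∈ s', ∑ Q ∈ t', U b Q) * H) := by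
    intro x
    rw [Finset.mul_sum, Finset.sum_mul, Finset.mul_sum]
    refine Finset.sum_congr rfl fun b _ => ?_
    rw [Finset.mul_sum, Finset.sum_mul, Finset.mul_sum]
  simp only [e1]
  set SB := ∑ b ∈ s', ∑ Q ∈ t', U b Q
  have e2 : ∑ a ∈ s, ∑ Q ∈ t, (((P1 * P2) * (P3 * P4)) * (T a Q * SB * H)) =
      ((P1 * P2) * (P3 * P4)) * ((∑ a ∈ s, ∑ Q ∈ t, T a Q) * SB * H) := by
    rw [Finset.sum_mul, Finset.sum_mul, Finset.mul_sum]
    refine Finset.sum_congr rfl fun a _ => ?_
    rw [Finset.sum_mul, Finset.sum_mul, Finset.mul_sum]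
  rw [e2]
  ring

theorem perm_sum (α : Fin L → Fin Sn → Fin (ka + 1) → R)
    (β : Fin L → Fin Sn → Fin (kb + 1) → R) (g : Fin κ → R)
    (V : A × Fin (ka + 1) → B × Fin (kb + 1) → R) (lam : R) :
    (gadget α β g V lam).permanent =
      ∑ a, ∑ Q ∈ (univ : Finset (Fin (ka + 1))).powerset,
        ∑ b, ∑ Q' ∈ (univ : Finset (Fin (kb + 1))).powerset,
          val α β g V (inGroup a Q) (inGroup b Q') +
      lam * ∑ b, ∑ Q' ∈ (univ : Finset (Fin (kb + 1))).powerset,
          val α β g V ∅ (inGroup b Q') := by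
  classical
  rw [← top_prod_lin, gadget_prod]
  have hpAinj : Function.Injective (fun w => (pA w : GV A B ka kb L Sn κ)) := by
    intro a b h; simpa using h
  have hpBinj : Function.Injective (fun w => (pB w : GV A B ka kb L Sn κ)) := by
    intro a b h; simpa using h
  set YA : Set (GV A B ka kb L Sn κ) := YS (fun w => (pA w : GV A B ka kb L Sn κ)) with hYA
  set YB : Set (GV A B ka kb L Sn κ) := YS (fun w => (pB w : GV A B ka kb L Sn κ)) with hYB
  have hAno : ∀ w, (pB w : GV A B ka kb L Sn κ) ∉ YA := by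
    intro w hw
    obtain ⟨w', h⟩ := YS_sub _ hw
    simp at h
  have hBno : ∀ w, (pA w : GV A B ka kb L Sn κ) ∉ YB := by
    intro w hw
    obtain ⟨w', h⟩ := YS_sub _ hw
    simp at h
  have huno : ∀ w, (.inr w : GV A B ka kb L Sn κ) ∉ YA := by
    intro w hw
    obtain ⟨w', h⟩ := YS_sub _ hw
    simp at h
  have huno' : ∀ w, (.inr w : GV A B ka kb L Sn κ) ∉ YB := by
    intro w hw
    obtain ⟨w', h⟩ := YS_sub _ hw
    simp at h
  have hwA : wForm R A B ka kb L Sn κ ∈ Free (R := R) YA :=
    sum_mem fun r _ => X_mem_Free (hL_not_YS _ hpAinj r)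
  have hgA : ∀ l j, gForm A B ka β g l j ∈ Free (R := R) YA := fun l j =>
    sum_mem fun s _ => mul_mem (C_mem_Free _ _) (sum_mem fun q _ =>
      mul_mem (C_mem_Free _ _) (X_mem_Free (huno _)))
  have hgB : ∀ l j, gForm A B ka β g l j ∈
      Free (R := R) (Set.range fun w => (pB w : GV A B ka kb L Sn κ)) := fun l j =>
    sum_mem fun s _ => mul_mem (C_mem_Free _ _) (sum_mem fun q _ =>
      mul_mem (C_mem_Free _ _) (free_of _ _ (by intro i; simp)))
  have hwB : wForm R A B ka kb L Sn κ ∈
      Free (R := R) (Set.range fun w => (pB w : GV A B ka kb L Sn κ)) :=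
    sum_mem fun r _ => free_of _ _ (by intro i; simp)
  have hvA : ∀ r, (vForm V r : MvPolynomial (GV A B ka kb L Sn κ) R) ∈
      Free (R := R) (Set.range fun w => (pA w : GV A B ka kb L Sn κ)) := fun r =>
    sum_mem fun c _ => mul_mem (C_mem_Free _ _) (free_of _ _ (by intro i; simp))
  have hoA : ∀ l, oForm R A B ka kb L Sn κ l ∈
      Free (R := R) (Set.range fun w => (pA w : GV A B ka kb L Sn κ)) := fun l =>
    sum_mem fun c _ => free_of _ _ (by intro i; simp)
  have hvB : ∀ r, (vForm V r : MvPolynomial (GV A B ka kb L Sn κ) R) ∈ Free (R := R) YB :=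
    fun r => sum_mem fun c _ => mul_mem (C_mem_Free _ _) (X_mem_Free (hL_not_YS _ hpBinj c))
  have hoB : ∀ l, oForm R A B ka kb L Sn κ l ∈ Free (R := R) YB := fun l =>
    sum_mem fun c _ => X_mem_Free (t_not_YS _ hpBinj (c, l))
  have hhubA : (hubProd B kb κ α : MvPolynomial (GV A B ka kb L Sn κ) R) ∈ Free (R := R) YA :=
    prod_mem fun l _ => prod_mem fun s _ => prod_mem fun q _ => add_mem (X_mem_Free (huno _))
      (sum_mem fun r _ => mul_mem (C_mem_Free _ _) (X_mem_Free (t_not_YS _ hpAinj (r, l))))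
  have hhubB : (hubProd B kb κ α : MvPolynomial (GV A B ka kb L Sn κ) R) ∈ Free (R := R) YB :=
    prod_mem fun l _ => prod_mem fun s _ => prod_mem fun q _ => add_mem (X_mem_Free (huno' _))
      (sum_mem fun r _ => mul_mem (C_mem_Free _ _) (X_mem_Free (hBno _)))
  -- the two sides
  have EA := sideFull_eqv (R := R) (S := univ) (fun w => (pA w : GV A B ka kb L Sn κ)) hpAinj
    (fun _ => mem_univ _) lam (fun a i => vForm V (a, i)) (fun l _ _ => oForm R A B ka kb L Sn κ l)
    (fun a i => hvA _) (fun l _ _ => hoA l)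
  have EB := sideFull_eqv (R := R) (S := univ) (fun w => (pB w : GV A B ka kb L Sn κ)) hpBinj
    (fun _ => mem_univ _) 0 (fun _ _ => wForm R A B ka kb L Sn κ)
    (fun l _ j => gForm A B ka β g l j) (fun _ _ => hwB) (fun l _ j => hgB l j)
  rw [sideVal_A] at EA
  rw [sideVal_B] at EB
  set FA : MvPolynomial (GV A B ka kb L Sn κ) R :=
    sideProd (fun w => (pA (.inl w) : GV A B ka kb L Sn κ)) (C lam)
          (fun a i => X (pA (.inr (.inl ((a, i), 0))))) (fun a i => vForm V (a, i)) *
        copyProd (fun w => pA w) (fun l _ _ => oForm R A B ka kb L Sn κ l) with hFA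
  set FB : MvPolynomial (GV A B ka kb L Sn κ) R :=
    sideProd (fun w => (pB (.inl w) : GV A B ka kb L Sn κ)) (C 0)
          (fun a i => X (pB (.inr (.inl ((a, i), 0))))) (fun _ _ => wForm R A B ka kb L Sn κ) *
        copyProd (fun w => pB w) (fun l _ j => gForm A B ka β g l j) with hFB
  set SA : MvPolynomial (GV A B ka kb L Sn κ) R :=
    ∑ a, ∑ Q ∈ (univ : Finset (Fin (ka + 1))).powerset, TA Sn κ V (inGroup a Q) +
        C lam * TA Sn κ V ∅ with hSA
  set SB : MvPolynomial (GV A B ka kb L Sn κ) R :=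
    ∑ b, ∑ Q ∈ (univ : Finset (Fin (kb + 1))).powerset, TB A ka β g (inGroup b Q) with hSB
  have hFBA : FB ∈ Free (R := R) YA := by
    refine mul_mem (sideProd_mem _ _ (fun w => X_mem_Free (hAno _)) _ (C_mem_Free _ _) _ _
      (fun _ _ => X_mem_Free (hAno _)) (fun _ _ => hwA)) (copyProd_mem _ _
      (fun w => X_mem_Free (hAno _)) _ (fun l _ j => hgA l j))
  have hTAB : ∀ Q, (TA Sn κ V Q : MvPolynomial (GV A B ka kb L Sn κ) R) ∈ Free (R := R) YB :=
    fun Q => mul_mem (C_mem_Free _ _) (mul_mem (mul_mem (pow_mem (prod_mem fun l _ => hoB l) _)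
      (prod_mem fun r _ => hvB r)) (prod_mem fun r _ => mul_mem (X_mem_Free (hBno _))
      (prod_mem fun l _ => X_mem_Free (hBno _))))
  set PA1 : MvPolynomial (GV A B ka kb L Sn κ) R := ∏ w, X (pA (.inl w)) with hPA1
  set PA2 : MvPolynomial (GV A B ka kb L Sn κ) R := ∏ w, X (pA (cpIncl A ka L w)) with hPA2
  set PB1 : MvPolynomial (GV A B ka kb L Sn κ) R := ∏ w, X (pB (.inl w)) with hPB1
  set PB2 : MvPolynomial (GV A B ka kb L Sn κ) R := ∏ w, X (pB (cpIncl B kb L w)) with hPB2
  have hPAB : PA1 * (PA2 * SA) ∈ Free (R := R) YB := by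
    refine mul_mem (prod_mem fun w _ => X_mem_Free (hBno _)) (mul_mem
      (prod_mem fun w _ => X_mem_Free (hBno _)) (add_mem (sum_mem fun a _ => sum_mem fun Q _ =>
      hTAB _) (mul_mem (C_mem_Free _ _) (hTAB _))))
  rw [two_sides EA EB hFBA hhubA hPAB hhubB]
  -- each pair
  have hpriv : ((PA1 * PA2) * (PB1 * PB2)) ∈ Free (R := R) (YA ∪ YB)ᶜ := by
    refine mul_mem (mul_mem (prod_mem fun w _ => X_mem_Free ?_) (prod_mem fun w _ =>
      X_mem_Free ?_)) (mul_mem (prod_mem fun w _ => X_mem_Free ?_) (prod_mem fun w _ =>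
      X_mem_Free ?_))
    · intro h; exact h (Or.inl (Or.inl ⟨w, rfl⟩))
    · intro h; exact h (Or.inl (Or.inr ⟨w, rfl⟩))
    · intro h; exact h (Or.inr (Or.inl ⟨w, rfl⟩))
    · intro h; exact h (Or.inr (Or.inr ⟨w, rfl⟩))
  have hpair : ∀ (Q : Finset (A × Fin (ka + 1))) (Q' : Finset (B × Fin (kb + 1))),
      top univ (((PA1 * PA2) * (PB1 * PB2)) * (TA Sn κ V Q * TB A ka β g Q' *
        hubProd B kb κ α)) = val α β g V Q Q' := by
    intro Q Q'
    have h := families_eqv (κ := κ) α β g V Q Q' _ hpriv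
    rw [mul_comm, h, mul_assoc, mul_comm _ ((PA1 * PA2) * (PB1 * PB2)), ← all_labels, top_apply,
      coeff_C_mul, ← top_apply, top_univ_prod, mul_one]
  rw [hSA, hSB, distribute]
  rw [map_add, map_sum, top_apply (P := C lam * _), coeff_C_mul, ← top_apply, map_sum]
  congr 1
  · refine Finset.sum_congr rfl fun a _ => ?_
    rw [map_sum]
    refine Finset.sum_congr rfl fun Q _ => ?_
    rw [map_sum]
    refine Finset.sum_congr rfl fun b _ => ?_
    rw [map_sum]
    exact Finset.sum_congr rfl fun Q' _ => hpair _ _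
  · congr 1
    refine Finset.sum_congr rfl fun b _ => ?_
    rw [map_sum]
    exact Finset.sum_congr rfl fun Q' _ => hpair _ _

end

end Pool.Agent.Work.MP_499dc6_lc.Gadget

end

section

/-!
The main gadget theorem.
-/

set_option linter.unusedSectionVars false
set_option synthInstance.maxSize 2000

namespace Pool.Agent.Work.MP_499dc6_lc.Gadget

open MvPolynomial Finset

section combinatorics

variable {M : Type*} [CommRing M]

lemma sum_inj_eq_sum_emb {α β : Type*} [Fintype α] [DecidableEq α] [Fintype β] [DecidableEq β]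
    (F : (α → β) → M) :
    ∑ f : α → β, (if Function.Injective f then F f else 0) = ∑ f : α ↪ β, F f := by
  rw [← Finset.sum_subset (Finset.subset_univ (univ.image fun (f : α ↪ β) => (f : α → β)))]
  · rw [Finset.sum_image (fun f _ g _ h => DFunLike.coe_injective h)]
    exact Finset.sum_congr rfl fun f _ => if_pos f.injective
  · intro f _ hf
    rw [if_neg]
    intro hinj
    exact hf (Finset.mem_image.mpr ⟨⟨f, hinj⟩, mem_univ _, rfl⟩)

/-- the bijection sum, restricted to groups -/
lemma tau_group {A B : Type*} [Fintype A] [DecidableEq A] [Fintype B] [DecidableEq B]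
    {n m : ℕ} (V : A × Fin n → B × Fin m → M) (a : A) (b : B) (Q : Finset (Fin n))
    (Q' : Finset (Fin m)) :
    (∑ f : inGroup a Q → B × Fin m, if Function.Injective f ∧ univ.image f = inGroup b Q' then
      ∏ r : inGroup a Q, V r (f r) else 0) =
    ∑ f : Q → Fin m, if Function.Injective f ∧ univ.image f = Q' then
      ∏ i : Q, V (a, i) (b, f i) else 0 := by
  have hmem : ∀ i : Q, ((a, (i : Fin n)) : A × Fin n) ∈ inGroup a Q := fun i => by
    rw [mem_inGroup]; exact ⟨rfl, i.2⟩
  let e : Q ≃ inGroup a Q :=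
    { toFun := fun i => ⟨(a, i), hmem i⟩
      invFun := fun r => ⟨r.1.2, ((mem_inGroup a Q r.1).mp r.2).2⟩
      left_inv := fun i => by simp
      right_inv := fun r => by
        have h := ((mem_inGroup a Q r.1).mp r.2).1
        apply Subtype.ext
        exact Prod.ext h.symm rfl }
  -- transport to Q
  rw [← Equiv.sum_comp (Equiv.arrowCongr e (Equiv.refl (B × Fin m)))]
  have h1 : ∀ f : Q → B × Fin m,
      (if Function.Injective ((Equiv.arrowCongr e (Equiv.refl (B × Fin m))) f) ∧
        univ.image ((Equiv.arrowCongr e (Equiv.refl (B × Fin m))) f) = inGroup b Q' then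
      ∏ r : inGroup a Q, V r ((Equiv.arrowCongr e (Equiv.refl (B × Fin m))) f r) else 0) =
      if Function.Injective f ∧ univ.image f = inGroup b Q' then
        ∏ i : Q, V (a, i) (f i) else 0 := by
    intro f
    have e1 : Function.Injective ((Equiv.arrowCongr e (Equiv.refl (B × Fin m))) f) ↔
        Function.Injective f := by
      change Function.Injective (f ∘ e.symm) ↔ _
      exact e.symm.injective_comp f
    have e2 : univ.image ((Equiv.arrowCongr e (Equiv.refl (B × Fin m))) f) = univ.image f := by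
      ext x
      simp only [mem_image, mem_univ, true_and]
      constructor
      · rintro ⟨r, rfl⟩; exact ⟨e.symm r, rfl⟩
      · rintro ⟨i, rfl⟩
        exact ⟨e i, by
          change f (e.symm (e i)) = f i
          rw [Equiv.symm_apply_apply]⟩
    have e3 : ∏ r : inGroup a Q, V r ((Equiv.arrowCongr e (Equiv.refl (B × Fin m))) f r) =
        ∏ i : Q, V (a, i) (f i) := by
      rw [← Equiv.prod_comp e]
      refine Finset.prod_congr rfl fun i _ => ?_
      change V (a, i) (f (e.symm (e i))) = _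
      rw [Equiv.symm_apply_apply]
    simp only [e1, e2, e3]
  rw [Finset.sum_congr rfl fun f _ => h1 f]
  -- only functions into group b count
  have hinj : Function.Injective (fun (f : Q → Fin m) (i : Q) => ((b, f i) : B × Fin m)) := by
    intro f g h
    funext i
    have := congrFun h i
    simpa using this
  rw [← Finset.sum_subset (Finset.subset_univ (univ.image
    fun (f : Q → Fin m) (i : Q) => ((b, f i) : B × Fin m)))]
  · rw [Finset.sum_image (fun f _ g _ h => hinj h)]
    refine Finset.sum_congr rfl fun f _ => ?_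
    have e1 : Function.Injective (fun i : Q => ((b, f i) : B × Fin m)) ↔ Function.Injective f := by
      constructor
      · intro h i j hij; exact h (by simp [hij])
      · intro h i j hij; exact h (by simpa using hij)
    have e2 : univ.image (fun i : Q => ((b, f i) : B × Fin m)) = inGroup b Q' ↔
        univ.image f = Q' := by
      constructor
      · intro h
        ext x
        have := Finset.ext_iff.mp h (b, x)
        rw [mem_inGroup] at this
        simpa using this
      · intro h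
        ext x
        rw [mem_inGroup, ← h]
        simp only [mem_image, mem_univ, true_and]
        constructor
        · rintro ⟨i, rfl⟩; exact ⟨rfl, i, rfl⟩
        · rintro ⟨h1, i, h2⟩; exact ⟨i, Prod.ext h1.symm h2⟩
    simp only [e1, e2]
  · intro f _ hf
    rw [if_neg]
    rintro ⟨_, himg⟩
    apply hf
    rw [Finset.mem_image]
    refine ⟨fun i => (f i).2, mem_univ _, ?_⟩
    funext i
    have : f i ∈ inGroup b Q' := by rw [← himg]; exact Finset.mem_image_of_mem _ (mem_univ _)
    rw [mem_inGroup] at this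
    exact Prod.ext this.1.symm rfl

/-- summing over the image set -/
lemma sum_image_sets {α : Type*} [Fintype α] [DecidableEq α] {m : ℕ}
    (x : (α → Fin m) → M) (G : Finset (Fin m) → M) :
    ∑ Q' ∈ (univ : Finset (Fin m)).powerset,
      (∑ f : α → Fin m, if Function.Injective f ∧ univ.image f = Q' then x f else 0) * G Q' =
    ∑ f : α ↪ Fin m, x f * G (univ.image f) := by
  rw [← sum_inj_eq_sum_emb (fun f => x f * G (univ.image f))]
  simp only [Finset.sum_mul]
  rw [Finset.sum_comm]
  refine Finset.sum_congr rfl fun f _ => ?_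
  rw [Finset.sum_eq_single (univ.image f)]
  · by_cases h : Function.Injective f
    · rw [if_pos ⟨h, rfl⟩, if_pos h]
    · rw [if_neg (fun h' => h h'.1), if_neg h, zero_mul]
  · intro Q' _ hQ'
    rw [if_neg (fun h => hQ' h.2.symm), zero_mul]
  · intro h
    exact absurd (Finset.mem_powerset.mpr (Finset.subset_univ _)) h

end combinatorics

section

variable {R : Type*} [CommRing R]
variable {A B : Type*} [Fintype A] [DecidableEq A] [Fintype B] [DecidableEq B]
variable {ka kb L Sn κ : ℕ}

lemma val_ne (α : Fin L → Fin Sn → Fin (ka + 1) → R)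
    (β : Fin L → Fin Sn → Fin (kb + 1) → R) (g : Fin κ → R)
    (V : A × Fin (ka + 1) → B × Fin (kb + 1) → R)
    (Q : Finset (A × Fin (ka + 1))) (Q' : Finset (B × Fin (kb + 1))) (h : Q.card ≠ Q'.card) :
    val α β g V Q Q' = 0 := by
  unfold val
  rw [if_neg h.symm]
  ring

lemma val_small (hL : 0 < L) (α : Fin L → Fin Sn → Fin (ka + 1) → R)
    (β : Fin L → Fin Sn → Fin (kb + 1) → R) (g : Fin κ → R)
    (hg : ∀ j, 0 < j → j < κ → hubN g j = 0)
    (V : A × Fin (ka + 1) → B × Fin (kb + 1) → R)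
    (Q : Finset (A × Fin (ka + 1))) (Q' : Finset (B × Fin (kb + 1)))
    (h0 : 0 < Q.card) (h1 : Q.card < κ) :
    val α β g V Q Q' = 0 := by
  by_cases h : Q.card = Q'.card
  · unfold val
    have : ∏ l : Fin L, ((if Q.card = Q'.card then (Q.card.factorial : R) else 0) *
      hubVal (fun s (r : A × Fin (ka + 1)) => α l s r.2)
        (fun s (c : B × Fin (kb + 1)) => β l s c.2) g Q Q') = 0 := by
      apply Finset.prod_eq_zero (mem_univ (⟨0, hL⟩ : Fin L))
      rw [hubVal_small _ _ g hg Q Q' (by omega) (by omega), mul_zero]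
    rw [this]
    ring
  · exact val_ne α β g V Q Q' h

lemma val_empty (α : Fin L → Fin Sn → Fin (ka + 1) → R)
    (β : Fin L → Fin Sn → Fin (kb + 1) → R) (g : Fin κ → R)
    (V : A × Fin (ka + 1) → B × Fin (kb + 1) → R) :
    val α β g V ∅ ∅ = 2 ^ (L * (Fintype.card A * (ka + 1) + Fintype.card B * (kb + 1))) := by
  unfold val
  have h1 : (∑ f : ((∅ : Finset (A × Fin (ka + 1))) : Type _) → B × Fin (kb + 1),
      if Function.Injective f ∧ univ.image f = ∅ then
      ∏ m : ((∅ : Finset (A × Fin (ka + 1))) : Type _), V m (f m) else 0) = 1 := by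
    rw [Fintype.sum_eq_single (fun c => absurd c.2 (Finset.notMem_empty _))]
    · rw [if_pos]
      · simp
      · refine ⟨fun c => absurd c.2 (Finset.notMem_empty _), ?_⟩
        rw [Finset.image_eq_empty]
        exact Finset.univ_eq_empty
    · intro f hf
      exact absurd (funext fun c => absurd c.2 (Finset.notMem_empty _)) hf
  rw [h1]
  have h2 : ∀ l : Fin L, ((if (∅ : Finset (A × Fin (ka + 1))).card =
      (∅ : Finset (B × Fin (kb + 1))).card then
      ((∅ : Finset (A × Fin (ka + 1))).card.factorial : R) else 0) *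
      hubVal (fun s (r : A × Fin (ka + 1)) => α l s r.2)
        (fun s (c : B × Fin (kb + 1)) => β l s c.2) g ∅ ∅) = 1 := by
    intro l
    rw [hubVal_empty]
    simp
  rw [Finset.prod_congr rfl fun l _ => h2 l]
  simp only [Finset.card_empty, pow_zero, Finset.compl_empty, Finset.card_univ, Fintype.card_prod,
    Fintype.card_fin, Nat.factorial_zero, Nat.cast_one, if_true, Finset.prod_const_one, one_mul,
    mul_one]
  rw [← pow_add]
  congr 1
  ring

/-- sum over the column sets, for a full row set -/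
lemma val_top (α : Fin L → Fin Sn → Fin (ka + 1) → R)
    (β : Fin L → Fin Sn → Fin (kb + 1) → R) (g : Fin κ → R) (hκ : 0 < κ)
    (hg : ∀ j, 0 < j → j < κ → hubN g j = 0)
    (V : A × Fin (ka + 1) → B × Fin (kb + 1) → R) (a : A) (b : B)
    (Q : Finset (Fin (ka + 1))) (hQ : Q.card = κ) :
    ∑ Q' ∈ (univ : Finset (Fin (kb + 1))).powerset, val α β g V (inGroup a Q) (inGroup b Q') =
      (4 ^ κ * 2 ^ (L * (Fintype.card A * (ka + 1) - κ)) *
        2 ^ (L * (Fintype.card B * (kb + 1) - κ)) * (κ.factorial : R) ^ (L + 1) *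
        ((κ.factorial : R) ^ 2 * ∏ q, g q) ^ L) *
      ∑ s : Fin L → Fin Sn, ∑ φ : Q ↪ Fin (kb + 1),
        ∏ i : Q, ((∏ l, α l (s l) i * β l (s l) (φ i)) * V (a, i) (b, φ i)) := by
  set c1 : R := (4 ^ κ * 2 ^ (L * (Fintype.card A * (ka + 1) - κ)) *
        2 ^ (L * (Fintype.card B * (kb + 1) - κ)) * (κ.factorial : R) ^ (L + 1) *
        ((κ.factorial : R) ^ 2 * ∏ q, g q) ^ L) with hc1
  set G : Finset (Fin (kb + 1)) → R := fun Q' =>
    if Q'.card = κ then c1 * ∏ l : Fin L, ∑ s, (∏ c ∈ Q', β l s c) * ∏ i ∈ Q, α l s i else 0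
    with hG
  have h1 : ∀ Q' ∈ (univ : Finset (Fin (kb + 1))).powerset,
      val α β g V (inGroup a Q) (inGroup b Q') =
      (∑ f : Q → Fin (kb + 1), if Function.Injective f ∧ univ.image f = Q' then
      ∏ i : Q, V (a, i) (b, f i) else 0) * G Q' := by
    intro Q' _
    by_cases hc : Q'.card = κ
    · unfold val
      rw [tau_group]
      have h2 : ∀ l : Fin L, ((if (inGroup a Q).card = (inGroup b Q').card then
          ((inGroup a Q).card.factorial : R) else 0) *
          hubVal (fun s (r : A × Fin (ka + 1)) => α l s r.2)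
        (fun s (c : B × Fin (kb + 1)) => β l s c.2) g (inGroup a Q) (inGroup b Q')) =
        (κ.factorial : R) * (((κ.factorial : R) ^ 2 * ∏ q, g q) *
          ∑ s, (∏ c ∈ Q', β l s c) * ∏ i ∈ Q, α l s i) := by
        intro l
        rw [hubVal_top _ _ g hg hκ _ _ (by rw [card_inGroup, hc]) (by rw [card_inGroup, hQ])]
        rw [card_inGroup, card_inGroup, hQ, hc, if_pos rfl]
        simp only [prod_inGroup]
      rw [Finset.prod_congr rfl fun l _ => h2 l]
      rw [Finset.prod_mul_distrib, Finset.prod_mul_distrib, Finset.prod_const, Finset.prod_const,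
        Finset.card_univ, Fintype.card_fin]
      simp only [card_inGroup, Finset.card_compl, Fintype.card_prod, Fintype.card_fin, hQ, hc,
        if_true]
      rw [hG]
      simp only [hc, if_true]
      rw [hc1]
      have h4 : (4 : R) ^ κ = (-2) ^ κ * (-2) ^ κ := by
        rw [← mul_pow]; norm_num
      rw [h4]
      ring
    · rw [val_ne, hG]
      · simp only [hc, if_false, mul_zero]
      · rw [card_inGroup, card_inGroup, hQ]
        exact fun h => hc h.symm
  rw [Finset.sum_congr rfl h1, sum_image_sets, Finset.mul_sum]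
  have h3 : ∀ f : Q ↪ Fin (kb + 1), (∏ i : Q, V (a, i) (b, f i)) * G (univ.image f) =
      ∑ s : Fin L → Fin Sn, c1 *
        ∏ i : Q, ((∏ l, α l (s l) i * β l (s l) (f i)) * V (a, i) (b, f i)) := by
    intro f
    have hcard : (univ.image f).card = κ := by
      rw [Finset.card_image_of_injective _ f.injective, Finset.card_univ, Fintype.card_coe, hQ]
    rw [hG]
    simp only [hcard, if_true]
    rw [Finset.prod_univ_sum, Fintype.piFinset_univ, ← mul_assoc, Finset.mul_sum]
    refine Finset.sum_congr rfl fun s _ => ?_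
    rw [Finset.prod_mul_distrib (s := (univ : Finset Q))]
    have h5 : ∏ i : Q, ∏ l, α l (s l) i * β l (s l) (f i) =
        ∏ l, ((∏ c ∈ univ.image f, β l (s l) c) * ∏ i ∈ Q, α l (s l) i) := by
      rw [Finset.prod_comm]
      refine Finset.prod_congr rfl fun l _ => ?_
      rw [Finset.prod_image (fun i _ j _ h => f.injective h), Finset.prod_mul_distrib,
        ← Finset.prod_coe_sort Q (fun i => α l (s l) i)]
      ring
    rw [h5]
    ring
  rw [Finset.sum_congr rfl fun f _ => h3 f, Finset.sum_comm]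
  refine Finset.sum_congr rfl fun s _ => ?_
  rw [Finset.mul_sum]

lemma val_mem (α : Fin L → Fin Sn → Fin (ka + 1) → R)
    (β : Fin L → Fin Sn → Fin (kb + 1) → R) (g : Fin κ → R)
    (V : A × Fin (ka + 1) → B × Fin (kb + 1) → R) (I : Ideal R)
    (hV : ∀ r c, V r c ∈ I)
    (Q : Finset (A × Fin (ka + 1))) (Q' : Finset (B × Fin (kb + 1))) (h : κ < Q.card) :
    val α β g V Q Q' ∈ I ^ (κ + 1) := by
  unfold val
  apply Ideal.mul_mem_left
  apply Ideal.mul_mem_right
  apply Ideal.mul_mem_right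
  refine Ideal.sum_mem _ fun f _ => ?_
  split_ifs
  · have h1 : ∏ m : Q, V m (f m) ∈ I ^ (Fintype.card Q) := by
      have := Ideal.prod_mem_prod (s := (univ : Finset Q)) (I := fun _ => I)
        (x := fun m => V m (f m)) (fun m _ => hV _ _)
      rwa [Finset.prod_const, Finset.card_univ] at this
    refine Ideal.pow_le_pow_right ?_ h1
    rw [Fintype.card_coe]
    exact h
  · exact zero_mem _

/-- **Main gadget theorem.** -/
theorem perm_gadget (α : Fin L → Fin Sn → Fin (ka + 1) → R)
    (β : Fin L → Fin Sn → Fin (kb + 1) → R) (g : Fin κ → R)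
    (V : A × Fin (ka + 1) → B × Fin (kb + 1) → R) (lam : R) (I : Ideal R)
    (hV : ∀ r c, V r c ∈ I) (hL : 0 < L) (hκ : 0 < κ)
    (hg : ∀ j, 0 < j → j < κ → hubN g j = 0) :
    ∃ rest ∈ I ^ (κ + 1), (gadget α β g V lam).permanent =
      ((Fintype.card A : R) + lam) * (Fintype.card B : R) *
        2 ^ (L * (Fintype.card A * (ka + 1) + Fintype.card B * (kb + 1))) +
      (4 ^ κ * 2 ^ (L * (Fintype.card A * (ka + 1) - κ)) *
        2 ^ (L * (Fintype.card B * (kb + 1) - κ)) * (κ.factorial : R) ^ (L + 1) *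
        ((κ.factorial : R) ^ 2 * ∏ q, g q) ^ L) *
      (∑ a, ∑ b, ∑ s : Fin L → Fin Sn, ∑ Q ∈ powersetCard κ (univ : Finset (Fin (ka + 1))),
        ∑ φ : Q ↪ Fin (kb + 1),
          ∏ i : Q, ((∏ l, α l (s l) i * β l (s l) (φ i)) * V (a, i) (b, φ i))) + rest := by
  set K0 : R := 2 ^ (L * (Fintype.card A * (ka + 1) + Fintype.card B * (kb + 1))) with hK0
  set c1 : R := (4 ^ κ * 2 ^ (L * (Fintype.card A * (ka + 1) - κ)) *
        2 ^ (L * (Fintype.card B * (kb + 1) - κ)) * (κ.factorial : R) ^ (L + 1) *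
        ((κ.factorial : R) ^ 2 * ∏ q, g q) ^ L) with hc1
  -- inner sums
  have hemp : ∀ b : B, ∑ Q' ∈ (univ : Finset (Fin (kb + 1))).powerset,
      val α β g V ∅ (inGroup b Q') = K0 := by
    intro b
    rw [Finset.sum_eq_single ∅]
    · rw [inGroup_empty, val_empty]
    · intro Q' _ hQ'
      apply val_ne
      rw [card_inGroup, Finset.card_empty]
      exact (Finset.card_pos.mpr (Finset.nonempty_iff_ne_empty.mpr hQ')).ne
    · intro h
      exact absurd (Finset.empty_mem_powerset _) h
  set rest : R := ∑ a, ∑ Q ∈ (univ : Finset (Fin (ka + 1))).powerset.filter (fun Q => κ < Q.card),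
    ∑ b, ∑ Q' ∈ (univ : Finset (Fin (kb + 1))).powerset,
          val α β g V (inGroup a Q) (inGroup b Q') with hrest
  refine ⟨rest, ?_, ?_⟩
  · refine Ideal.sum_mem _ fun a _ => Ideal.sum_mem _ fun Q hQ => Ideal.sum_mem _ fun b _ =>
      Ideal.sum_mem _ fun Q' _ => val_mem α β g V I hV _ _ ?_
    rw [card_inGroup]
    exact (Finset.mem_filter.mp hQ).2
  · rw [perm_sum]
    have hlam : lam * ∑ b, ∑ Q' ∈ (univ : Finset (Fin (kb + 1))).powerset,
          val α β g V (∅ : Finset (A × Fin (ka + 1))) (inGroup b Q') =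
        lam * ((Fintype.card B : R) * K0) := by
      rw [Finset.sum_congr rfl fun b _ => hemp b, Finset.sum_const, Finset.card_univ,
        nsmul_eq_mul]
    rw [hlam]
    -- split the row sum
    have hsplit : ∀ a : A, ∑ Q ∈ (univ : Finset (Fin (ka + 1))).powerset,
        ∑ b, ∑ Q' ∈ (univ : Finset (Fin (kb + 1))).powerset,
          val α β g V (inGroup a Q) (inGroup b Q') =
        (Fintype.card B : R) * K0 +
        c1 * (∑ b, ∑ s : Fin L → Fin Sn, ∑ Q ∈ powersetCard κ (univ : Finset (Fin (ka + 1))),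
        ∑ φ : Q ↪ Fin (kb + 1),
          ∏ i : Q, ((∏ l, α l (s l) i * β l (s l) (φ i)) * V (a, i) (b, φ i))) +
        ∑ Q ∈ (univ : Finset (Fin (ka + 1))).powerset.filter (fun Q => κ < Q.card),
        ∑ b, ∑ Q' ∈ (univ : Finset (Fin (kb + 1))).powerset,
          val α β g V (inGroup a Q) (inGroup b Q') := by
      intro a
      set W : Finset (Fin (ka + 1)) → R := fun Q =>
        ∑ b, ∑ Q' ∈ (univ : Finset (Fin (kb + 1))).powerset,
          val α β g V (inGroup a Q) (inGroup b Q') with hW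
      have hW0 : W ∅ = (Fintype.card B : R) * K0 := by
        rw [hW]
        simp only [inGroup_empty]
        rw [Finset.sum_congr rfl fun b _ => hemp b, Finset.sum_const, Finset.card_univ,
          nsmul_eq_mul]
      have hWsmall : ∀ Q, 0 < Q.card → Q.card < κ → W Q = 0 := by
        intro Q h0 h1
        exact Finset.sum_eq_zero fun b _ => Finset.sum_eq_zero fun Q' _ =>
          val_small hL α β g hg V _ _ (by rw [card_inGroup]; exact h0)
            (by rw [card_inGroup]; exact h1)
      have hWtop : ∀ Q, Q.card = κ → W Q = c1 * ∑ b, ∑ s : Fin L → Fin Sn,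
          ∑ φ : Q ↪ Fin (kb + 1),
          ∏ i : Q, ((∏ l, α l (s l) i * β l (s l) (φ i)) * V (a, i) (b, φ i)) := by
        intro Q hQ
        rw [hW]
        simp only
        rw [Finset.sum_congr rfl fun b _ => val_top α β g hκ hg V a b Q hQ, ← Finset.mul_sum]
      have hall : ∑ Q ∈ (univ : Finset (Fin (ka + 1))).powerset, W Q =
          W ∅ + ∑ Q ∈ powersetCard κ (univ : Finset (Fin (ka + 1))), W Q +
          ∑ Q ∈ (univ : Finset (Fin (ka + 1))).powerset.filter (fun Q => κ < Q.card), W Q := by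
        rw [← Finset.sum_filter_add_sum_filter_not _ (fun Q => κ < Q.card), add_comm]
        congr 1
        rw [← Finset.add_sum_erase _ W (a := ∅)]
        · congr 1
          symm
          apply Finset.sum_subset
          · intro Q hQ
            rw [Finset.mem_powersetCard] at hQ
            rw [Finset.mem_erase, Finset.mem_filter]
            refine ⟨?_, Finset.mem_powerset.mpr hQ.1, by omega⟩
            rintro rfl
            rw [Finset.card_empty] at hQ
            omega
          · intro Q hQ hQ2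
            rw [Finset.mem_erase, Finset.mem_filter] at hQ
            apply hWsmall
            · exact Finset.card_pos.mpr (Finset.nonempty_iff_ne_empty.mpr hQ.1)
            · have h3 : Q.card ≠ κ := fun h =>
                hQ2 (Finset.mem_powersetCard.mpr ⟨Finset.subset_univ _, h⟩)
              have := hQ.2.2
              omega
        · rw [Finset.mem_filter]
          exact ⟨Finset.empty_mem_powerset _, by simp⟩
      rw [hall, hW0]
      congr 2
      rw [Finset.sum_congr rfl fun Q hQ => hWtop Q (Finset.mem_powersetCard.mp hQ).2,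
        ← Finset.mul_sum]
      congr 1
      rw [Finset.sum_comm]
      refine Finset.sum_congr rfl fun b _ => ?_
      rw [Finset.sum_comm]
    rw [Finset.sum_congr rfl fun a _ => hsplit a, Finset.sum_add_distrib, Finset.sum_add_distrib,
      Finset.sum_const, Finset.card_univ, nsmul_eq_mul, ← Finset.mul_sum]
    ring

end

end Pool.Agent.Work.MP_499dc6_lc.Gadget

end
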