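import Mathlib
import Pool.Agent.Work.MP_499dc6_lc.CD.Stmts

/-! Bundle of small proof modules (one section per former module). -/

section

/-!
# Item BBhc: homogeneous components preserve `BB`
-/

namespace Pool.Agent.Work.MP_499dc6_lc.CD

open MvPolynomial

theorem pr_BBhc (h1 : S_BiMul) (h2 : S_BiHom) : S_BBhc := by
  intro Y Z _ _ K _ al be f c k hf
  induction hf with
  | zero => rw [map_zero]; exact BB.zero
  | @term g h x y x' y' hg hh =>
    have hhom : (g * h).IsHomogeneous ((x + x') + (y + y')) :=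
      h2 Y Z K (g * h) _ _ (h1 Y Z K g h x y x' y' hg hh)
    rw [homogeneousComponent_of_mem ((mem_homogeneousSubmodule _ _).2 hhom)]
    split_ifs
    · exact BB.term hg hh
    · exact BB.mono BB.zero (Real.exp_pos _).le
  | add _ _ ih1 ih2 => rw [map_add]; exact BB.add ih1 ih2
  | mono _ hc ih => exact BB.mono ih hc

end Pool.Agent.Work.MP_499dc6_lc.CD

end

section

/-!
# Item BBphi: the trivial bound for homogeneous polynomials
-/

namespace Pool.Agent.Work.MP_499dc6_lc.CD

open MvPolynomial

theorem BBphi_one (Y Z : Type) [Fintype Y] [Fintype Z] (K : Type) [Field K] :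
    IsBi (1 : MvPolynomial (Y ⊕ Z) K) 0 0 := by
  classical
  intro m hm
  rw [coeff_one] at hm
  split_ifs at hm with h
  · subst h
    exact ⟨by simp [dY], by simp [dZ]⟩
  · exact absurd rfl hm

theorem BBphi_bi (Y Z : Type) [Fintype Y] [Fintype Z] (K : Type) [Field K] (al be : ℝ)
    (g : MvPolynomial (Y ⊕ Z) K) (x y : ℕ) (hg : IsBi g x y) :
    BB al be g (Real.exp (-(|(x : ℝ) * al - (y : ℝ) * be| / 2))) := by
  have h1 := BBphi_one Y Z K
  rcases le_or_gt 0 ((x : ℝ) * al - (y : ℝ) * be) with h | h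
  · have := BB.term (al := al) (be := be) hg h1
    rw [mul_one] at this
    refine BB.mono this (le_of_eq ?_)
    rw [abs_of_nonneg h]
    congr 1
    push_cast
    ring
  · have := BB.term (al := al) (be := be) h1 hg
    rw [one_mul] at this
    refine BB.mono this (le_of_eq ?_)
    rw [abs_of_neg h]
    congr 1
    push_cast
    ring

theorem pr_BBphi (h : S_BiDec) : S_BBphi := by
  intro Y Z _ _ K _ al be f k hf
  obtain ⟨c, hc, hfc⟩ := h Y Z K f k hf
  rw [hfc]
  unfold phi
  have key : ∀ n, n ≤ k + 1 → BB al be (∑ u ∈ Finset.range n, c u)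
      (∑ u ∈ Finset.range n, Real.exp (-(|(u : ℝ) * al - ((k : ℝ) - u) * be| / 2))) := by
    intro n
    induction n with
    | zero => intro _; simpa using (BB.zero : BB al be (0 : MvPolynomial (Y ⊕ Z) K) 0)
    | succ n ih =>
      intro hn
      rw [Finset.sum_range_succ, Finset.sum_range_succ]
      refine BB.add (ih (by omega)) ?_
      have := BBphi_bi Y Z K al be (c n) n (k - n) (hc n (by omega))
      rwa [Nat.cast_sub (by omega : n ≤ k)] at this
  exact key (k + 1) le_rfl

end Pool.Agent.Work.MP_499dc6_lc.CD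

end

section

/-!
# Item BiDec: a homogeneous polynomial is the sum of its bihomogeneous parts
-/

namespace Pool.Agent.Work.MP_499dc6_lc.CD

open MvPolynomial

theorem BiDec_deg {Y Z : Type} [Fintype Y] [Fintype Z] (m : Y ⊕ Z →₀ ℕ) :
    Finsupp.weight (1 : Y ⊕ Z → ℕ) m = dY m + dZ m := by
  have h : Finsupp.weight (1 : Y ⊕ Z → ℕ) m = Finsupp.degree m := by
    rw [Finsupp.degree_eq_weight_one]
    rfl
  rw [h, Finsupp.degree_eq_sum, Fintype.sum_sum_type]
  rfl

theorem pr_BiDec : S_BiDec := by
  intro Y Z _ _ R _ f k hf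
  classical
  refine ⟨fun u => ∑ m ∈ f.support.filter (fun m => dY m = u), monomial m (coeff m f), ?_, ?_⟩
  · intro u _ m hm
    have hm' : m ∈ f.support.filter (fun m => dY m = u) := by
      by_contra hcon
      apply hm
      rw [coeff_sum]
      refine Finset.sum_eq_zero fun m' hm'' => ?_
      rw [coeff_monomial, if_neg]
      rintro rfl
      exact hcon hm''
    rw [Finset.mem_filter, mem_support_iff] at hm'
    have hd := hf hm'.1
    rw [BiDec_deg] at hd
    exact ⟨hm'.2, by omega⟩
  · have hmaps : ∀ m ∈ f.support, dY m ∈ Finset.range (k + 1) := by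
      intro m hm
      have hd := hf (mem_support_iff.1 hm)
      rw [BiDec_deg] at hd
      rw [Finset.mem_range]
      omega
    have h := Finset.sum_fiberwise_of_maps_to hmaps (fun m => monomial m (coeff m f))
    exact (support_sum_monomial_coeff f).symm.trans h.symm

end Pool.Agent.Work.MP_499dc6_lc.CD

end

section

namespace Pool.Agent.Work.MP_499dc6_lc.CD

/-- Inner vertices of a closed walk. -/
def walkEquiv (k n : ℕ) (z0 : Fin n) : Walk (k + 1) n z0 ≃ (Fin k → Fin n) where
  toFun s := fun i => s.1 i.castSucc.succ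
  invFun t := ⟨Fin.cons z0 (Fin.snoc t z0 : Fin (k + 1) → Fin n), by
    refine ⟨rfl, ?_⟩
    rw [← Fin.succ_last]
    simp [Fin.cons_succ]⟩
  left_inv := by
    rintro ⟨s, h0, h1⟩
    apply Subtype.ext
    funext i
    refine Fin.cases ?_ (fun j => ?_) i
    · simp [h0]
    · simp only [Fin.cons_succ]
      refine Fin.lastCases ?_ (fun l => ?_) j
      · simp only [Fin.snoc_last, Fin.succ_last]
        exact h1.symm
      · simp only [Fin.snoc_castSucc]
  right_inv := by
    intro t
    funext i
    simp only [Fin.cons_succ, Fin.snoc_castSucc]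

theorem pr_CardWalk : S_CardWalk := by
  intro m n z0 hm
  obtain ⟨k, rfl⟩ := Nat.exists_eq_succ_of_ne_zero (by omega : m ≠ 0)
  rw [Nat.succ_eq_add_one, Fintype.card_congr (walkEquiv k n z0)]
  simp

end Pool.Agent.Work.MP_499dc6_lc.CD

end

section

/-!
# MP_499dc6_lc, CD: the matrix of the hard polynomial (helper85)
-/

namespace Pool.Agent.Work.MP_499dc6_lc.CD

open MvPolynomial

/-- The multilinear monomial of a function. -/
noncomputable def Hard_cf {T V : Type} [Fintype T] (f : T → V) : T × V →₀ ℕ :=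
  ∑ t, Finsupp.single (t, f t) 1

theorem Hard_cf_apply {T V : Type} [Fintype T] [DecidableEq V] (f : T → V) (t : T)
    (v : V) : Hard_cf f (t, v) = if f t = v then 1 else 0 := by
  classical
  unfold Hard_cf
  rw [Finsupp.finsetSum_apply, Finset.sum_eq_single t]
  · rw [Finsupp.single_apply]
    simp
  · intro t' _ h
    rw [Finsupp.single_apply, if_neg]
    simp [h]
  · simp

theorem Hard_cf_le {T V : Type} [Fintype T] (f : T → V) (x : T × V) : Hard_cf f x ≤ 1 := by
  classical
  rw [show x = (x.1, x.2) from rfl, Hard_cf_apply]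
  split_ifs <;> simp

theorem Hard_cf_sum {T V : Type} [Fintype T] [Fintype V] (f : T → V) :
    ∑ x, Hard_cf f x = Fintype.card T := by
  classical
  rw [Fintype.sum_prod_type]
  simp [Hard_cf_apply]

theorem Hard_cf_dist {T V : Type} [Fintype T] [Fintype V] [DecidableEq V] (f g : T → V) :
    ∑ x, (Hard_cf g x - Hard_cf f x) = ∑ t, if g t = f t then 0 else 1 := by
  rw [Fintype.sum_prod_type]
  refine Finset.sum_congr rfl fun t _ => ?_
  rw [Finset.sum_eq_single (g t)]
  · rw [Hard_cf_apply, Hard_cf_apply, if_pos rfl]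
    by_cases h : g t = f t
    · simp [h]
    · rw [if_neg (fun h' => h h'.symm), if_neg h]
  · intro v _ hv
    rw [Hard_cf_apply, if_neg (fun h => hv h.symm), Nat.zero_sub]
  · simp

theorem Hard_pow {T : Type} [Fintype T] (P : T → Prop) [DecidablePred P] (r : ℝ) :
    r ^ (∑ t, if P t then 0 else 1) = ∏ t, if P t then 1 else r := by
  rw [← Finset.prod_pow_eq_pow_sum]
  refine Finset.prod_congr rfl fun t _ => ?_
  split_ifs <;> simp

theorem Hard_prodX {T σ R : Type} [CommSemiring R] (S : Finset T) (f : T → σ) :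
    ∏ t ∈ S, (X (f t) : MvPolynomial σ R) = monomial (∑ t ∈ S, Finsupp.single (f t) 1) 1 := by
  classical
  induction S using Finset.induction_on with
  | empty => simp
  | insert a S ha ih =>
    rw [Finset.prod_insert ha, Finset.sum_insert ha, ih, X, monomial_mul, one_mul]

theorem Hard_elim {T U V : Type} [Fintype T] [Fintype U] (f : T → V) (g : U → V) :
    Finsupp.sumElim (Hard_cf f) (Hard_cf g) =
      (∑ i, Finsupp.single (Sum.inr (i, g i)) 1 : (T × V) ⊕ (U × V) →₀ ℕ) +
        ∑ t, Finsupp.single (Sum.inl (t, f t)) 1 := by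
  classical
  ext x
  rcases x with x | x
  · rw [Finsupp.sumElim_inl, Finsupp.add_apply, Finsupp.finsetSum_apply,
      Finsupp.finsetSum_apply]
    unfold Hard_cf
    rw [Finsupp.finsetSum_apply]
    rw [Finset.sum_eq_zero (s := (Finset.univ : Finset U))
      (fun i _ => by rw [Finsupp.single_apply, if_neg (by simp)]), zero_add]
    refine Finset.sum_congr rfl fun t _ => ?_
    rw [Finsupp.single_apply, Finsupp.single_apply]
    simp only [Sum.inl.injEq]
  · rw [Finsupp.sumElim_inr, Finsupp.add_apply, Finsupp.finsetSum_apply,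
      Finsupp.finsetSum_apply]
    unfold Hard_cf
    rw [Finsupp.finsetSum_apply]
    rw [Finset.sum_eq_zero (s := (Finset.univ : Finset T))
      (fun i _ => by rw [Finsupp.single_apply, if_neg (by simp)]), add_zero]
    refine Finset.sum_congr rfl fun t _ => ?_
    rw [Finsupp.single_apply, Finsupp.single_apply]
    simp only [Sum.inr.injEq]

/-- The pairs read at the `Z` positions. -/
def Hard_zp {m n : ℕ} (s : Fin (m + 1) → Fin n) (i : Fin m) : Fin n × Fin n :=
  (s i.castSucc, s i.succ)

/-- The pairs read at the `Y` positions. -/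
def Hard_yp {m n : ℕ} {T : Type} (it : T → Fin m) (s : Fin (m + 1) → Fin n) (t : T) :
    Fin n × Fin n := (s (it t).castSucc, s (it t).succ)

theorem Hard_PW (R : Type) [CommSemiring R] (m n : ℕ) (z0 : Fin n) (it : Fin (aa m) → Fin m)
    (hit : ∀ t, (it t : ℕ) = tau m t) :
    PW R m n z0 = ∑ s : Walk m n z0,
      monomial (Finsupp.sumElim (Hard_cf (Hard_yp it s.1)) (Hard_cf (Hard_zp s.1))) (1 : R) := by
  unfold PW
  refine Finset.sum_congr rfl fun s _ => ?_
  rw [Finset.prod_mul_distrib, Hard_elim]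
  have h1 : ∏ i : Fin m, (X (Sum.inr (i, s.1 i.castSucc, s.1 i.succ)) :
      MvPolynomial ((Fin (aa m) × Fin n × Fin n) ⊕ (Fin m × Fin n × Fin n)) R) =
      monomial (∑ i, Finsupp.single (Sum.inr (i, Hard_zp s.1 i)) 1) 1 :=
    Hard_prodX Finset.univ (fun i : Fin m => Sum.inr (i, Hard_zp s.1 i))
  have h2 : ∏ i : Fin m, ∏ t ∈ Finset.univ.filter (fun t : Fin (aa m) => tau m t = i),
      (X (Sum.inl (t, s.1 i.castSucc, s.1 i.succ)) :
        MvPolynomial ((Fin (aa m) × Fin n × Fin n) ⊕ (Fin m × Fin n × Fin n)) R) =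
      monomial (∑ t, Finsupp.single (Sum.inl (t, Hard_yp it s.1 t)) 1) 1 := by
    rw [← Hard_prodX Finset.univ (fun t : Fin (aa m) => Sum.inl (t, Hard_yp it s.1 t)),
      ← Finset.prod_fiberwise (s := Finset.univ) (g := it)]
    refine Finset.prod_congr rfl fun i _ => ?_
    have hf : (Finset.univ.filter (fun t : Fin (aa m) => tau m t = i)) =
        Finset.univ.filter (fun t : Fin (aa m) => it t = i) := by
      refine Finset.filter_congr fun t _ => ?_
      rw [Fin.ext_iff, hit]
    rw [hf]
    refine Finset.prod_congr rfl fun t ht => ?_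
    have := (Finset.mem_filter.1 ht).2
    rw [← this]
    rfl
  rw [h1, h2, monomial_mul, one_mul]

theorem Hard_side (hWalk : S_Walk) (m n : ℕ) (z0 : Fin n) (hn : 1 ≤ n) (s : Walk m n z0)
    (w : ℕ → ℝ) (hw0 : ∀ i, 0 ≤ w i) (hw1 : ∀ i, w i ≤ 1)
    (hw : ∀ j k, j < k → k < m → (n : ℝ) ^ (k - j) * ∏ i ∈ Finset.Icc j k, w i ≤
      (n : ℝ) ^ (-(1 - 1 / √2)))
    (hm : 10 * (m : ℝ) ^ 2 ≤ (n : ℝ) ^ (1 - 1 / √2)) (F : Walk m n z0 → ℝ)
    (hF : ∀ s' : Walk m n z0, F s' = ∏ i : Fin m,
      (if s'.1 i.castSucc = s.1 i.castSucc ∧ s'.1 i.succ = s.1 i.succ then (1 : ℝ) else w i)) :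
    ∑ s' ∈ Finset.univ.erase s, F s' ≤ 1 / 4 := by
  have hn0 : (0 : ℝ) < n := by exact_mod_cast hn
  have h := hWalk m n z0 s w ((n : ℝ) ^ (-(1 - 1 / √2))) (Real.rpow_nonneg hn0.le _) hw0 hw1 hw
  have h1 : ∑ s' : Walk m n z0, F s' ≤ Real.exp ((m : ℝ) ^ 2 * (n : ℝ) ^ (-(1 - 1 / √2))) := by
    refine le_trans (le_of_eq ?_) h
    exact Finset.sum_congr rfl fun s' _ => hF s'
  have h2 : F s = 1 := by
    rw [hF s]
    exact Finset.prod_eq_one fun i _ => if_pos ⟨rfl, rfl⟩
  have h3 : ∑ s' ∈ Finset.univ.erase s, F s' = ∑ s' : Walk m n z0, F s' - 1 := by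
    rw [← Finset.add_sum_erase _ _ (Finset.mem_univ s), h2]
    ring
  have h4 : (m : ℝ) ^ 2 * (n : ℝ) ^ (-(1 - 1 / √2)) ≤ 1 / 10 := by
    have e : (n : ℝ) ^ (1 - 1 / √2) * (n : ℝ) ^ (-(1 - 1 / √2)) = 1 := by
      rw [← Real.rpow_add hn0, add_neg_cancel, Real.rpow_zero]
    have p : 0 ≤ (n : ℝ) ^ (-(1 - 1 / √2)) := Real.rpow_nonneg hn0.le _
    have := mul_le_mul_of_nonneg_right hm p
    rw [e] at this
    linarith
  have h5 : Real.exp ((m : ℝ) ^ 2 * (n : ℝ) ^ (-(1 - 1 / √2))) ≤ 10 / 9 := by
    refine (Real.exp_le_exp.2 h4).trans ?_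
    have k := Real.one_sub_le_exp_neg (1 / 10)
    rw [Real.exp_neg] at k
    have k2 := Real.exp_pos (1 / 10)
    have k3 : (9 : ℝ) / 10 ≤ (Real.exp (1 / 10))⁻¹ := by linarith
    rw [le_inv_comm₀ (by norm_num) k2] at k3
    refine k3.trans ?_
    norm_num
  rw [h3]
  linarith

theorem pr_Hard (hConf : S_Conf) (hWalk : S_Walk) (hTau : S_Tau) (hTauLt : S_TauLt)
    (hCard : S_CardWalk) : S_Hard := by
  classical
  intro R _ m n L l z0 hm hn hL hl hmn
  have hn0 : (0 : ℝ) < n := by exact_mod_cast hn
  have hn1 : (1 : ℝ) ≤ n := by exact_mod_cast hn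
  have ha : 1 ≤ aa m := by
    unfold aa
    rw [Nat.one_le_ceil_iff]
    have : (0 : ℝ) < m := by exact_mod_cast hm
    positivity
  have hs2 : (0 : ℝ) < √2 := by positivity
  set it : Fin (aa m) → Fin m := fun t => ⟨tau m t, hTauLt m t⟩ with hit
  have hit' : ∀ t, (it t : ℕ) = tau m t := fun t => rfl
  have : Nonempty (Fin (aa m) × Fin n × Fin n) := ⟨(⟨0, ha⟩, z0, z0)⟩
  have : Nonempty (Fin m × Fin n × Fin n) := ⟨(⟨0, hm⟩, z0, z0)⟩
  have cY : Fintype.card (Fin (aa m) × Fin n × Fin n) = aa m * n * n := by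
    simp [mul_assoc]
  have cZ : Fintype.card (Fin m × Fin n × Fin n) = m * n * n := by
    simp [mul_assoc]
  have cYr : ((Fintype.card (Fin (aa m) × Fin n × Fin n) : ℕ) : ℝ) = (aa m : ℝ) * n * n := by
    rw [cY]; push_cast; ring
  have cZr : ((Fintype.card (Fin m × Fin n × Fin n) : ℕ) : ℝ) = (m : ℝ) * n * n := by
    rw [cZ]; push_cast; ring
  have cY1 : (1 : ℝ) ≤ (aa m : ℝ) * n * n := by
    have : (1 : ℝ) ≤ aa m := by exact_mod_cast ha
    exact one_le_mul_of_one_le_of_one_le (one_le_mul_of_one_le_of_one_le this hn1) hn1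
  have cZ1 : (1 : ℝ) ≤ (m : ℝ) * n * n := by
    have : (1 : ℝ) ≤ m := by exact_mod_cast hm
    exact one_le_mul_of_one_le_of_one_le (one_le_mul_of_one_le_of_one_le this hn1) hn1
  set r : ℝ := (L : ℝ) / ((aa m : ℝ) * n * n + L - 1) with hr
  set r' : ℝ := (l : ℝ) / ((m : ℝ) * n * n + l - 1) with hr'
  have hr0 : 0 ≤ r := div_nonneg (Nat.cast_nonneg _)
    (by have : (0 : ℝ) ≤ L := Nat.cast_nonneg _
        linarith)
  have hr'0 : 0 ≤ r' := div_nonneg (Nat.cast_nonneg _)
    (by have : (0 : ℝ) ≤ l := Nat.cast_nonneg _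
        linarith)
  have hr1 : r ≤ 1 := hL.trans (Real.rpow_le_one_of_one_le_of_nonpos hn1
    (neg_nonpos.2 (by positivity)))
  have hr'1 : r' ≤ 1 := hl.trans (Real.rpow_le_one_of_one_le_of_nonpos hn1 (by norm_num))
  obtain ⟨I, i1, i2, rr, cc, e1, e2⟩ := hConf (Fin (aa m) × Fin n × Fin n)
    (Fin m × Fin n × Fin n) R (Walk m n z0) (fun s => Hard_cf (Hard_yp it s.1))
    (fun s => Hard_cf (Hard_zp s.1)) (aa m) m L l (1 / 4) (fun c i => Hard_cf_le _ _)
    (fun c i => Hard_cf_le _ _)
    (fun c => by rw [Hard_cf_sum, Fintype.card_fin]) (fun c => by rw [Hard_cf_sum, Fintype.card_fin])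
    (by
      intro c
      rw [cYr]
      refine Hard_side hWalk m n z0 hn c
        (fun i => r ^ (Finset.univ.filter (fun t : Fin (aa m) => tau m t = i)).card)
        (fun i => pow_nonneg hr0 _) (fun i => pow_le_one₀ hr0 hr1) ?_ hmn _ ?_
      · intro j k hjk hk
        have hT := hTau m j k hjk.le hk
        rw [Finset.prod_pow_eq_pow_sum]
        set N : ℕ := ∑ i ∈ Finset.Icc j k,
          (Finset.univ.filter (fun t : Fin (aa m) => tau m t = i)).card with hN
        have hNr : √2 * ((k : ℝ) + 1 - j) - 1 ≤ N := by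
          rw [hN]; push_cast; exact hT
        have q1 : r ^ N ≤ (n : ℝ) ^ (-(1 / √2) * N) := by
          rw [Real.rpow_mul hn0.le, Real.rpow_natCast]
          exact pow_le_pow_left₀ hr0 hL _
        have q2 : (n : ℝ) ^ (k - j) = (n : ℝ) ^ ((k : ℝ) - j) := by
          rw [← Nat.cast_sub hjk.le, Real.rpow_natCast]
        calc (n : ℝ) ^ (k - j) * r ^ N ≤ (n : ℝ) ^ ((k : ℝ) - j) * (n : ℝ) ^ (-(1 / √2) * N) := by
              rw [q2]
              exact mul_le_mul_of_nonneg_left q1 (Real.rpow_nonneg hn0.le _)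
          _ = (n : ℝ) ^ ((k : ℝ) - j + -(1 / √2) * N) := (Real.rpow_add hn0 _ _).symm
          _ ≤ (n : ℝ) ^ (-(1 - 1 / √2)) := by
              refine Real.rpow_le_rpow_of_exponent_le hn1 ?_
              have q3 : (1 / √2) * (√2 * ((k : ℝ) + 1 - j) - 1) ≤ (1 / √2) * N :=
                mul_le_mul_of_nonneg_left hNr (by positivity)
              have q4 : (1 / √2) * (√2 * ((k : ℝ) + 1 - j) - 1) = ((k : ℝ) + 1 - j) - 1 / √2 := by
                field_simp
              rw [q4] at q3
              linarith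
      · intro s'
        rw [Hard_cf_dist, Hard_pow, ← Finset.prod_fiberwise (s := Finset.univ) (g := it)]
        refine Finset.prod_congr rfl fun i _ => ?_
        have hf : (Finset.univ.filter (fun t : Fin (aa m) => tau m t = i)) =
            Finset.univ.filter (fun t : Fin (aa m) => it t = i) := by
          refine Finset.filter_congr fun t _ => ?_
          rw [Fin.ext_iff, hit']
        rw [hf]
        have hc : ∀ t ∈ Finset.univ.filter (fun t : Fin (aa m) => it t = i),
            (if Hard_yp it s'.1 t = Hard_yp it c.1 t then (1 : ℝ) else r) =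
            if s'.1 i.castSucc = c.1 i.castSucc ∧ s'.1 i.succ = c.1 i.succ then 1 else r := by
          intro t ht
          have ht := (Finset.mem_filter.1 ht).2
          unfold Hard_yp
          rw [ht]
          simp only [Prod.mk.injEq]
        rw [Finset.prod_congr rfl hc, Finset.prod_const]
        split_ifs <;> simp)
    (by
      intro c
      rw [cZr]
      refine Hard_side hWalk m n z0 hn c (fun _ => r') (fun i => hr'0) (fun i => hr'1) ?_ hmn _ ?_
      · intro j k hjk hk
        rw [Finset.prod_const, Nat.card_Icc]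
        have q2 : (n : ℝ) ^ (k - j) = (n : ℝ) ^ ((k : ℝ) - j) := by
          rw [← Nat.cast_sub hjk.le, Real.rpow_natCast]
        have q1 : r' ^ (k + 1 - j) ≤ (n : ℝ) ^ (-1 * ((k : ℝ) + 1 - j)) := by
          have q3 : ((k : ℝ) + 1 - j) = ((k + 1 - j : ℕ) : ℝ) := by
            rw [Nat.cast_sub (by omega)]; push_cast; ring
          rw [q3, Real.rpow_mul hn0.le, Real.rpow_natCast]
          exact pow_le_pow_left₀ hr'0 hl _
        calc (n : ℝ) ^ (k - j) * r' ^ (k + 1 - j) ≤
            (n : ℝ) ^ ((k : ℝ) - j) * (n : ℝ) ^ (-1 * ((k : ℝ) + 1 - j)) := by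
              rw [q2]
              exact mul_le_mul_of_nonneg_left q1 (Real.rpow_nonneg hn0.le _)
          _ = (n : ℝ) ^ ((k : ℝ) - j + -1 * ((k : ℝ) + 1 - j)) := (Real.rpow_add hn0 _ _).symm
          _ ≤ (n : ℝ) ^ (-(1 - 1 / √2)) := by
              refine Real.rpow_le_rpow_of_exponent_le hn1 ?_
              have : 0 ≤ 1 / √2 := by positivity
              linarith
      · intro s'
        rw [Hard_cf_dist, Hard_pow]
        refine Finset.prod_congr rfl fun i _ => ?_
        unfold Hard_zp
        simp only [Prod.mk.injEq]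
        rfl)
  refine ⟨I, i1, i2, rr, cc, ?_, ?_⟩
  · rw [Hard_PW R m n z0 it hit']
    exact e1
  · rw [cY, cZ, hCard m n z0 hm] at e2
    push_cast at e2
    linarith

end Pool.Agent.Work.MP_499dc6_lc.CD

end

section

/-!
# Permanent of a Hessenberg matrix with unit subdiagonal
-/

namespace Pool.Agent.Work.MP_499dc6_lc.CD

open MvPolynomial Equiv

/-- Expansion of the permanent along the first column. -/
theorem hess_expand {R : Type} [CommRing R] {n : ℕ}
    (A : Matrix (Fin (n + 1)) (Fin (n + 1)) R) :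
    A.permanent = ∑ q : Fin (n + 1), A q 0 *
      (Matrix.permanent (fun i j : Fin n => A (Equiv.swap 0 q i.succ) j.succ)) := by
  unfold Matrix.permanent
  rw [← (Equiv.Perm.decomposeFin (n := n)).symm.sum_comp, Fintype.sum_prod_type]
  refine Finset.sum_congr rfl fun q _ => ?_
  rw [Finset.mul_sum]
  refine Finset.sum_congr rfl fun e _ => ?_
  rw [Fin.prod_univ_succ]
  simp [Equiv.Perm.decomposeFin_symm_apply_zero, Equiv.Perm.decomposeFin_symm_apply_succ]

/-- Linearity in a row. -/
theorem hess_row {R : Type} [CommRing R] {n : ℕ} (z : Fin n)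
    (A B C : Matrix (Fin n) (Fin n) R) (a b : R)
    (h0 : ∀ j, C z j = a * A z j + b * B z j)
    (h1 : ∀ i j, i ≠ z → C i j = A i j) (h2 : ∀ i j, i ≠ z → C i j = B i j) :
    C.permanent = a * A.permanent + b * B.permanent := by
  unfold Matrix.permanent
  rw [Finset.mul_sum, Finset.mul_sum, ← Finset.sum_add_distrib]
  refine Finset.sum_congr rfl fun σ _ => ?_
  have key : ∀ D : Matrix (Fin n) (Fin n) R, ∏ i, D (σ i) i =
      D z (σ.symm z) * ∏ i ∈ Finset.univ.erase (σ.symm z), D (σ i) i := by
    intro D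
    rw [← Finset.mul_prod_erase Finset.univ (fun i => D (σ i) i) (Finset.mem_univ (σ.symm z))]
    simp
  rw [key A, key B, key C, h0]
  have e1 : ∏ i ∈ Finset.univ.erase (σ.symm z), C (σ i) i =
      ∏ i ∈ Finset.univ.erase (σ.symm z), A (σ i) i := by
    refine Finset.prod_congr rfl fun i hi => h1 _ _ ?_
    intro h
    exact (Finset.mem_erase.1 hi).1 (by rw [← h]; simp)
  have e2 : ∏ i ∈ Finset.univ.erase (σ.symm z), C (σ i) i =
      ∏ i ∈ Finset.univ.erase (σ.symm z), B (σ i) i := by
    refine Finset.prod_congr rfl fun i hi => h2 _ _ ?_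
    intro h
    exact (Finset.mem_erase.1 hi).1 (by rw [← h]; simp)
  rw [← e1, add_mul]
  rw [e1, mul_assoc, ← e1, e2]
  ring

theorem pr_Hess : S_Hess := by
  intro R _ N
  induction N with
  | zero =>
    intro A p _ _ h3 h4
    have e : A.permanent = A 0 0 := by
      simp [Matrix.permanent]
    have := h4 0
    simp at this
    simp at h3
    rw [h3, mul_one] at this
    rw [e, this]
  | succ N ih =>
    intro A p h1 h2 h3 h4
    -- the reduced matrix
    set C : Matrix (Fin (N + 1)) (Fin (N + 1)) R := fun i j =>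
      if i = 0 then A 0 0 * A 1 j.succ + A 0 j.succ else A i.succ j.succ with hC
    have hexp : A.permanent = C.permanent := by
      rw [hess_expand, Fin.sum_univ_succ, Fin.sum_univ_succ]
      have hz : ∑ i : Fin N, A i.succ.succ 0 *
          (Matrix.permanent (fun i' j : Fin (N + 1) =>
            A (Equiv.swap 0 i.succ.succ i'.succ) j.succ)) = 0 := by
        refine Finset.sum_eq_zero fun i _ => ?_
        rw [h1 i.succ.succ 0 (by simp), zero_mul]
      rw [hz, add_zero]
      have h10 : A (Fin.succ 0) 0 = 1 := by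
        have := h2 0
        simpa using this
      rw [h10, hess_row (0 : Fin (N + 1))
        (fun i j : Fin (N + 1) => A (Equiv.swap 0 0 i.succ) j.succ)
        (fun i j : Fin (N + 1) => A (Equiv.swap 0 (Fin.succ 0) i.succ) j.succ) C (A 0 0) 1]
      · intro j
        simp [hC]
      · intro i j hi
        simp [hC, hi]
      · intro i j hi
        have h5 : Equiv.swap (0 : Fin (N + 2)) (Fin.succ 0) i.succ = i.succ := by
          apply Equiv.swap_apply_of_ne_of_ne
          · exact Fin.succ_ne_zero i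
          · intro h
            exact hi (Fin.succ_injective _ h)
        simp only [hC, hi, if_false, h5]
    rw [hexp]
    set p' : ℕ → R := fun i => if i = 0 then p 0 else p (i + 1) with hp'
    have := ih C p' ?_ ?_ ?_ ?_
    · rw [this]; simp [hp']
    · intro i j hij
      have hi : i ≠ 0 := by
        rintro rfl
        simp at hij
      simp only [hC, hi, if_false]
      exact h1 _ _ (by simp; omega)
    · intro i
      have hi : (i.succ : Fin (N + 1)) ≠ 0 := Fin.succ_ne_zero i
      simp only [hC, hi, if_false]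
      have := h2 i.succ
      simpa using this
    · simp [hp']
      exact h3
    · intro i
      by_cases hi : i = 0
      · subst hi
        simp only [hp', hC, Fin.val_zero, if_true]
        have e0 := h4 0
        have e1 := h4 1
        rw [Fin.sum_univ_succ] at e0 e1
        simp only [Fin.val_zero, Fin.val_one, Fin.val_succ, Fin.zero_le, if_true] at e0 e1 ⊢
        rw [e0]
        have e2 : ¬ ((1 : Fin (N + 2)) ≤ 0) := by
          simp
        rw [if_neg e2, zero_add] at e1
        have e3 : p (0 + 1) = p 1 := rfl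
        rw [e3, e1, Finset.mul_sum, ← Finset.sum_add_distrib]
        refine Finset.sum_congr rfl fun j _ => ?_
        have e4 : (1 : Fin (N + 2)) ≤ j.succ := by
          rw [Fin.le_iff_val_le_val]; simp
        rw [if_pos e4]
        simp only [Nat.add_eq_zero_iff, one_ne_zero, and_false, if_false]
        ring
      · have hi0 : (i : ℕ) ≠ 0 := by
          intro h; exact hi (Fin.ext (by simpa using h))
        simp only [hp', hC, hi, hi0, if_false]
        have e0 := h4 i.succ
        rw [Fin.sum_univ_succ] at e0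
        have e2 : ¬ (i.succ ≤ (0 : Fin (N + 2))) := by
          simp
        rw [if_neg e2, zero_add] at e0
        simp only [Fin.val_succ] at e0
        rw [e0]
        refine Finset.sum_congr rfl fun j _ => ?_
        simp only [Nat.add_eq_zero_iff, one_ne_zero, and_false, if_false, Fin.succ_le_succ_iff]

end Pool.Agent.Work.MP_499dc6_lc.CD

end

section

/-!
# Constant depth circuits for the permanent: the hard polynomial is bihomogeneous
-/

set_option autoImplicit false

namespace Pool.Agent.Work.MP_499dc6_lc.CD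

open MvPolynomial

theorem isBi_sum {Y Z : Type} [Fintype Y] [Fintype Z] {R : Type} [CommSemiring R] {ι : Type}
    (s : Finset ι) (f : ι → MvPolynomial (Y ⊕ Z) R) (x y : ℕ) (h : ∀ i ∈ s, IsBi (f i) x y) :
    IsBi (∑ i ∈ s, f i) x y := by
  intro m hm
  rw [coeff_sum] at hm
  obtain ⟨i, hi, hne⟩ := Finset.exists_ne_zero_of_sum_ne_zero hm
  exact h i hi m hne

theorem isBi_one {Y Z : Type} [Fintype Y] [Fintype Z] {R : Type} [CommSemiring R] :
    IsBi (1 : MvPolynomial (Y ⊕ Z) R) 0 0 := by
  intro m hm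
  classical
  rw [coeff_one] at hm
  have h0 : 0 = m := by
    by_contra h
    simp [h] at hm
  subst h0
  simp [dY, dZ]

theorem isBi_X_inl {Y Z : Type} [Fintype Y] [Fintype Z] {R : Type} [CommSemiring R] (i : Y) :
    IsBi (X (Sum.inl i) : MvPolynomial (Y ⊕ Z) R) 1 0 := by
  intro m hm
  classical
  rw [coeff_X] at hm
  have h0 : Finsupp.single (Sum.inl i) 1 = m := by
    by_contra h
    simp [h] at hm
  subst h0
  simp [dY, dZ, Finsupp.single_apply]

theorem isBi_X_inr {Y Z : Type} [Fintype Y] [Fintype Z] {R : Type} [CommSemiring R] (i : Z) :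
    IsBi (X (Sum.inr i) : MvPolynomial (Y ⊕ Z) R) 0 1 := by
  intro m hm
  classical
  rw [coeff_X] at hm
  have h0 : Finsupp.single (Sum.inr i) 1 = m := by
    by_contra h
    simp [h] at hm
  subst h0
  simp [dY, dZ, Finsupp.single_apply]

theorem isBi_prod (hmul : S_BiMul) {Y Z : Type} [Fintype Y] [Fintype Z] {R : Type}
    [CommSemiring R] {ι : Type} (s : Finset ι) (f : ι → MvPolynomial (Y ⊕ Z) R)
    (x y : ι → ℕ) (h : ∀ i ∈ s, IsBi (f i) (x i) (y i)) :
    IsBi (∏ i ∈ s, f i) (∑ i ∈ s, x i) (∑ i ∈ s, y i) := by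
  classical
  induction s using Finset.induction_on with
  | empty => simpa using isBi_one
  | insert a s ha ih =>
    rw [Finset.prod_insert ha, Finset.sum_insert ha, Finset.sum_insert ha]
    exact hmul Y Z R _ _ _ _ _ _ (h a (Finset.mem_insert_self _ _))
      (ih fun i hi => h i (Finset.mem_insert_of_mem hi))

theorem pr_PWhom (hmul : S_BiMul) (htau : S_TauLt) : S_PWhom := by
  intro R _ m n z0
  refine isBi_sum _ _ _ _ fun s _ => ?_
  have key : IsBi (∏ i : Fin m,
      (X (Sum.inr (i, s.1 i.castSucc, s.1 i.succ)) *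
        ∏ t ∈ Finset.univ.filter (fun t : Fin (aa m) => tau m t = i),
          X (Sum.inl (t, s.1 i.castSucc, s.1 i.succ))) :
        MvPolynomial ((Fin (aa m) × Fin n × Fin n) ⊕ (Fin m × Fin n × Fin n)) R)
      (∑ i : Fin m, (0 + ∑ t ∈ Finset.univ.filter (fun t : Fin (aa m) => tau m t = i), 1))
      (∑ i : Fin m,
        (1 + ∑ t ∈ Finset.univ.filter (fun t : Fin (aa m) => tau m t = i), 0)) := by
    refine isBi_prod hmul _ _ _ _ fun i _ => ?_
    refine hmul _ _ _ _ _ _ _ _ _ (isBi_X_inr _) ?_
    exact isBi_prod hmul _ _ _ _ fun t _ => isBi_X_inl _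
  have e1 : (∑ i : Fin m,
      (0 + ∑ t ∈ Finset.univ.filter (fun t : Fin (aa m) => tau m t = i), 1)) = aa m := by
    have h := Finset.card_eq_sum_card_fiberwise (s := (Finset.univ : Finset (Fin (aa m))))
      (t := (Finset.univ : Finset (Fin m))) (f := fun t => (⟨tau m t, htau m t⟩ : Fin m))
      (fun _ _ => Finset.mem_coe.2 (Finset.mem_univ _))
    rw [Finset.card_univ, Fintype.card_fin] at h
    refine Eq.trans (Finset.sum_congr rfl fun i _ => ?_) h.symm
    rw [zero_add, Finset.sum_const, smul_eq_mul, mul_one]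
    congr 1
    ext t
    simp [Fin.ext_iff]
  have e2 : (∑ i : Fin m,
      (1 + ∑ t ∈ Finset.univ.filter (fun t : Fin (aa m) => tau m t = i), 0)) = m := by
    simp
  rw [e1, e2] at key
  exact key

end Pool.Agent.Work.MP_499dc6_lc.CD

end

section

/-!
# The number of partitions
-/

namespace Pool.Agent.Work.MP_499dc6_lc.CD

theorem Part_inj (k : ℕ) : Function.Injective
    (fun (P : Nat.Partition k) (i : Fin k) => P.parts.count ((i : ℕ) + 1)) := by
  intro P Q h
  apply Nat.Partition.ext
  ext a
  rcases Nat.eq_zero_or_pos a with rfl | ha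
  · rw [Multiset.count_eq_zero_of_notMem (fun h0 => absurd (P.parts_pos h0) (lt_irrefl _)),
      Multiset.count_eq_zero_of_notMem (fun h0 => absurd (Q.parts_pos h0) (lt_irrefl _))]
  · by_cases hk : a ≤ k
    · have h1 := congrFun h ⟨a - 1, by omega⟩
      simp only at h1
      rwa [Nat.sub_add_cancel ha] at h1
    · rw [Multiset.count_eq_zero_of_notMem (fun h0 => hk (Nat.Partition.le_of_mem_parts h0)),
        Multiset.count_eq_zero_of_notMem (fun h0 => hk (Nat.Partition.le_of_mem_parts h0))]

theorem Part_sum (k : ℕ) (P : Nat.Partition k) :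
    ∑ i : Fin k, P.parts.count ((i : ℕ) + 1) * ((i : ℕ) + 1) = k := by
  have h1 : P.parts.sum =
      ∑ a ∈ (Finset.range k).map ⟨Nat.succ, Nat.succ_injective⟩, P.parts.count a • a := by
    refine Finset.sum_multiset_count_of_subset _ _ ?_
    intro a ha
    rw [Multiset.mem_toFinset] at ha
    have h2 := P.parts_pos ha
    have h3 := Nat.Partition.le_of_mem_parts ha
    rw [Finset.mem_map]
    exact ⟨a - 1, Finset.mem_range.2 (by omega), by
      show Nat.succ (a - 1) = a
      omega⟩
  rw [Finset.sum_map] at h1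
  rw [Fin.sum_univ_eq_sum_range (fun i => P.parts.count (i + 1) * (i + 1)) k]
  rw [P.parts_sum] at h1
  exact h1.symm

theorem Part_count (k : ℕ) (P : Nat.Partition k) (a : ℕ) : P.parts.count (a + 1) < k + 1 := by
  have h1 : P.parts.count (a + 1) ≤ Multiset.card P.parts := Multiset.count_le_card _ _
  have h2 : Multiset.card P.parts ≤ P.parts.sum := by
    have h3 := Multiset.card_nsmul_le_sum (s := P.parts) (a := 1) (fun x hx => P.parts_pos hx)
    simpa using h3
  rw [P.parts_sum] at h2
  omega

theorem Part_geom (t : ℝ) (ht : 0 < t) (k : ℕ) :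
    ∑ c ∈ Finset.range (k + 1), (Real.exp (-t)) ^ c ≤ Real.exp (2 / t ^ 2) := by
  have hx0 : 0 < Real.exp (-t) := Real.exp_pos _
  have hx1 : Real.exp (-t) < 1 := by
    rw [Real.exp_lt_one_iff]
    linarith
  have h1 : ∑ c ∈ Finset.range (k + 1), (Real.exp (-t)) ^ c ≤ (1 - Real.exp (-t))⁻¹ := by
    rw [← tsum_geometric_of_lt_one hx0.le hx1]
    exact (summable_geometric_of_lt_one hx0.le hx1).sum_le_tsum _ (fun i _ => by positivity)
  have h2 : (1 - Real.exp (-t))⁻¹ = 1 + (Real.exp t - 1)⁻¹ := by
    have e1 : Real.exp t ≠ 0 := (Real.exp_pos _).ne'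
    have e2 : Real.exp t - 1 ≠ 0 := by
      have := Real.add_one_lt_exp ht.ne'
      linarith
    rw [Real.exp_neg]
    field_simp
    ring
  have h3 : (Real.exp t - 1)⁻¹ ≤ 2 / t ^ 2 := by
    have h4 := Real.quadratic_le_exp_of_nonneg ht.le
    rw [inv_le_comm₀ (by nlinarith [sq_nonneg t]) (by positivity), inv_div]
    nlinarith
  have h4 := Real.add_one_le_exp (2 / t ^ 2)
  linarith

theorem Part_sq (k : ℕ) :
    ∑ i ∈ Finset.range (k + 1), (1 : ℝ) / ((i : ℝ) + 1) ^ 2 ≤ 2 - 1 / ((k : ℝ) + 1) := by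
  induction k with
  | zero => norm_num
  | succ k ih =>
    rw [Finset.sum_range_succ]
    have hk : (0 : ℝ) ≤ k := Nat.cast_nonneg k
    have h1 : (1 : ℝ) / (((k + 1 : ℕ) : ℝ) + 1) ^ 2 ≤
        1 / ((k : ℝ) + 1) - 1 / (((k + 1 : ℕ) : ℝ) + 1) := by
      push_cast
      rw [div_sub_div _ _ (by positivity) (by positivity), div_le_div_iff₀ (by positivity)
        (by positivity)]
      nlinarith
    linarith

theorem Part_sq' (k : ℕ) :
    ∑ i ∈ Finset.range k, (1 : ℝ) / ((i : ℝ) + 1) ^ 2 ≤ 2 := by
  cases k with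
  | zero => norm_num
  | succ k =>
    have h1 := Part_sq k
    have h2 : (0 : ℝ) ≤ 1 / ((k : ℝ) + 1) := by positivity
    linarith

theorem pr_Part : S_Part := by
  intro k e he
  classical
  set x : Fin k → ℝ := fun i => Real.exp (-(e * ((i : ℝ) + 1))) with hx
  have h1 : ∀ P : Nat.Partition k,
      (1 : ℝ) = Real.exp (e * k) * ∏ i : Fin k, x i ^ (P.parts.count ((i : ℕ) + 1)) := by
    intro P
    have e1 : ∏ i : Fin k, x i ^ (P.parts.count ((i : ℕ) + 1)) = Real.exp (-(e * k)) := by
      have e2 : ∀ i : Fin k, x i ^ (P.parts.count ((i : ℕ) + 1)) =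
          Real.exp (-(e * ((P.parts.count ((i : ℕ) + 1) * ((i : ℕ) + 1) : ℕ) : ℝ))) := by
        intro i
        rw [hx, ← Real.exp_nat_mul]
        congr 1
        push_cast
        ring
      rw [Finset.prod_congr rfl fun i _ => e2 i, ← Real.exp_sum]
      congr 1
      rw [Finset.sum_neg_distrib, ← Finset.mul_sum, ← Nat.cast_sum, Part_sum]
    rw [e1, ← Real.exp_add, add_neg_cancel, Real.exp_zero]
  have h2 : (Fintype.card (Nat.Partition k) : ℝ) = Real.exp (e * k) *
      ∑ P : Nat.Partition k, ∏ i : Fin k, x i ^ (P.parts.count ((i : ℕ) + 1)) := by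
    rw [Finset.mul_sum, ← Finset.sum_congr rfl fun P _ => h1 P, Finset.sum_const,
      Finset.card_univ, nsmul_eq_mul, mul_one]
  have h3 : ∑ P : Nat.Partition k, ∏ i : Fin k, x i ^ (P.parts.count ((i : ℕ) + 1)) ≤
      ∑ f ∈ Fintype.piFinset (fun _ : Fin k => Finset.range (k + 1)), ∏ i : Fin k, x i ^ (f i) := by
    rw [← Finset.sum_image (s := Finset.univ)
      (g := fun (P : Nat.Partition k) (i : Fin k) => P.parts.count ((i : ℕ) + 1))
      (f := fun f : Fin k → ℕ => ∏ i : Fin k, x i ^ (f i))
      (fun P _ Q _ h => Part_inj k h)]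
    refine Finset.sum_le_sum_of_subset_of_nonneg ?_ (fun _ _ _ => Finset.prod_nonneg fun _ _ => by
      positivity)
    intro f hf
    rw [Finset.mem_image] at hf
    obtain ⟨P, -, rfl⟩ := hf
    rw [Fintype.mem_piFinset]
    intro i
    exact Finset.mem_range.2 (Part_count k P _)
  rw [← Finset.prod_univ_sum (fun _ : Fin k => Finset.range (k + 1)) (fun i c => x i ^ c)] at h3
  have h4 : ∏ i : Fin k, ∑ c ∈ Finset.range (k + 1), x i ^ c ≤
      ∏ i : Fin k, Real.exp (2 / (e * ((i : ℝ) + 1)) ^ 2) :=
    Finset.prod_le_prod (fun _ _ => Finset.sum_nonneg fun _ _ => by positivity)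
      (fun i _ => Part_geom _ (by positivity) k)
  have h5 : ∏ i : Fin k, Real.exp (2 / (e * ((i : ℝ) + 1)) ^ 2) ≤ Real.exp (4 / e ^ 2) := by
    rw [← Real.exp_sum, Real.exp_le_exp]
    have e1 : ∀ i : Fin k, 2 / (e * ((i : ℝ) + 1)) ^ 2 = 2 / e ^ 2 * (1 / ((i : ℝ) + 1) ^ 2) := by
      intro i
      rw [mul_pow]
      field_simp
    rw [Finset.sum_congr rfl fun i _ => e1 i, ← Finset.mul_sum,
      Fin.sum_univ_eq_sum_range (fun i => (1 : ℝ) / ((i : ℝ) + 1) ^ 2) k]
    have e2 := Part_sq' k
    calc 2 / e ^ 2 * ∑ i ∈ Finset.range k, (1 : ℝ) / ((i : ℝ) + 1) ^ 2 ≤ 2 / e ^ 2 * 2 :=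
          mul_le_mul_of_nonneg_left (by linarith) (by positivity)
      _ = 4 / e ^ 2 := by ring
  rw [h2, Real.exp_add]
  exact mul_le_mul_of_nonneg_left (h3.trans (h4.trans h5)) (Real.exp_pos _).le

end Pool.Agent.Work.MP_499dc6_lc.CD

end

section

set_option autoImplicit false

namespace Pool.Agent.Work.MP_499dc6_lc.CD

section PermWalk

variable {R : Type} [CommRing R] {n : ℕ}

/-- Sum over walks of length `r` starting at time `k` in the state `u`. -/
def PermWalk_Q (B : ℕ → Matrix (Fin n) (Fin n) R) (z0 : Fin n) : ℕ → ℕ → Fin n → R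
  | 0, _, u => if u = z0 then 1 else 0
  | r + 1, k, u => ∑ v, B k u v * PermWalk_Q B z0 r (k + 1) v

lemma PermWalk_sum (B : ℕ → Matrix (Fin n) (Fin n) R) (z0 : Fin n) :
    ∀ (r k : ℕ) (u : Fin n),
      (∑ s : Fin (r + 1) → Fin n, if s 0 = u ∧ s (Fin.last r) = z0 then
        ∏ i : Fin r, B (k + i) (s i.castSucc) (s i.succ) else 0) = PermWalk_Q B z0 r k u := by
  intro r
  induction r with
  | zero =>
    intro k u
    rw [← (Equiv.funUnique (Fin 1) (Fin n)).symm.sum_comp]
    simp only [Equiv.funUnique_symm_apply, uniqueElim_const, Fin.last_zero]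
    have : ∀ x : Fin n, (if x = u ∧ x = z0 then ∏ i : Fin 0, B (k + i)
        ((uniqueElim x : Fin 1 → Fin n) i.castSucc) ((uniqueElim x : Fin 1 → Fin n) i.succ)
          else (0 : R)) = if x = u then (if u = z0 then 1 else 0) else 0 := by
      intro x
      by_cases h : x = u
      · subst h; simp
      · simp [h]
    simp only [PermWalk_Q]
    simp
    by_cases h : u = z0
    · subst h; simp [Finset.filter_eq']
    · have : ∀ x : Fin n, ¬ (x = u ∧ x = z0) := by
        rintro x ⟨h1, h2⟩; exact h (h1.symm.trans h2)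
      simp [this, h]
  | succ r ih =>
    intro k u
    rw [← (Fin.consEquiv (fun _ : Fin (r + 2) => Fin n)).sum_comp]
    rw [Fintype.sum_prod_type]
    simp only [Fin.consEquiv_apply]
    have h1 : ∀ (a : Fin n) (s : Fin (r + 1) → Fin n),
        (if (Fin.cons a s : Fin (r + 2) → Fin n) 0 = u ∧
            (Fin.cons a s : Fin (r + 2) → Fin n) (Fin.last (r + 1)) = z0 then
          ∏ i : Fin (r + 1), B (k + i) ((Fin.cons a s : Fin (r + 2) → Fin n) i.castSucc)
            ((Fin.cons a s : Fin (r + 2) → Fin n) i.succ) else (0 : R)) =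
        if a = u then (∑ v, if s 0 = v then B k u v * (if s (Fin.last r) = z0 then
          ∏ i : Fin r, B (k + 1 + i) (s i.castSucc) (s i.succ) else 0) else 0) else 0 := by
      intro a s
      rw [Finset.sum_ite_eq, if_pos (Finset.mem_univ _)]
      by_cases ha : a = u
      · subst ha
        rw [if_pos rfl]
        have h2 : (Fin.cons a s : Fin (r + 2) → Fin n) (Fin.last (r + 1)) = s (Fin.last r) := by
          rw [← Fin.succ_last, Fin.cons_succ]
        rw [h2]
        by_cases hz : s (Fin.last r) = z0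
        · rw [if_pos ⟨Fin.cons_zero _ _, hz⟩, if_pos hz, Fin.prod_univ_succ]
          congr 1
          refine Finset.prod_congr rfl fun i _ => ?_
          rw [Fin.cons_succ, ← Fin.succ_castSucc, Fin.cons_succ]
          have h5 : k + ((i.succ : Fin (r + 1)) : ℕ) = k + 1 + (i : ℕ) := by
            rw [Fin.val_succ]; omega
          rw [h5]
        · rw [if_neg (fun h => hz h.2), if_neg hz, mul_zero]
      · rw [if_neg ha, if_neg]
        rintro ⟨h, -⟩
        exact ha (by simpa using h)
    simp_rw [h1]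
    have h3 : ∀ a : Fin n, (∑ s : Fin (r + 1) → Fin n, if a = u then (∑ v, if s 0 = v then
        B k u v * (if s (Fin.last r) = z0 then
          ∏ i : Fin r, B (k + 1 + i) (s i.castSucc) (s i.succ) else (0 : R)) else 0) else 0) =
        if a = u then PermWalk_Q B z0 (r + 1) k u else 0 := by
      intro a
      by_cases ha : a = u
      · simp only [if_pos ha]
        rw [Finset.sum_comm]
        unfold PermWalk_Q
        refine Finset.sum_congr rfl fun v _ => ?_
        rw [← ih (k + 1) v, Finset.mul_sum]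
        refine Finset.sum_congr rfl fun s _ => ?_
        by_cases h : s 0 = v
        · by_cases hz : s (Fin.last r) = z0
          · simp [h, hz]
          · simp [h, hz]
        · simp [h]
      · simp [ha]
    rw [Finset.sum_congr rfl fun a _ => h3 a, Finset.sum_ite_eq', if_pos (Finset.mem_univ _)]

lemma PermWalk_block (n c K : ℕ) (hn : 0 < n) (hK : (c + 1) * n ≤ K) (f : ℕ → R) :
    (∑ j ∈ Finset.range K, if j / n = c then f j else 0) = ∑ v ∈ Finset.range n, f (c * n + v) := by
  rw [← Finset.sum_filter]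
  symm
  refine Finset.sum_nbij' (fun v => c * n + v) (fun j => j % n) ?_ ?_ ?_ ?_ ?_
  · intro v hv
    have hv' := Finset.mem_range.1 hv
    rw [Finset.mem_filter, Finset.mem_range]
    constructor
    · nlinarith
    · rw [add_comm, Nat.add_mul_div_right _ _ hn, Nat.div_eq_of_lt hv', zero_add]
  · intro j _
    exact Finset.mem_range.2 (Nat.mod_lt _ hn)
  · intro v hv
    have hv' := Finset.mem_range.1 hv
    show (c * n + v) % n = v
    rw [add_comm, Nat.add_mul_mod_self_right, Nat.mod_eq_of_lt hv']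
  · intro j hj
    have hj' := (Finset.mem_filter.1 hj).2
    show c * n + j % n = j
    rw [← hj']
    exact Nat.div_add_mod' j n
  · intro v _; rfl

theorem pr_PermWalk (h : S_Hess) : S_PermWalk := by
  intro R _ m n M z0 B hm hM
  have hn : 0 < n := lt_of_le_of_lt (Nat.zero_le _) z0.2
  obtain ⟨N, rfl⟩ : ∃ N, M = N + 1 := ⟨M - 1, by omega⟩
  have hN : (m - 1) * n ≤ N := by omega
  have hn1 : n ≤ (m - 1) * n := Nat.le_mul_of_pos_left n (by omega)
  let fn : ℕ → Fin n := fun x => ⟨x % n, Nat.mod_lt _ hn⟩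
  let a : ℕ → ℕ → R := fun i j =>
    if j + 1 = i then 1 else
    if i = 0 then (if j / n = 0 then B 0 z0 (fn j) else 0) else
    if i - 1 < (m - 1) * n then
      (if (i - 1) / n = m - 2 then (if j = N then B (m - 1) (fn (i - 1)) z0 else 0) else
        (if j / n = (i - 1) / n + 1 then B ((i - 1) / n + 1) (fn (i - 1)) (fn j) else 0))
    else 0
  let p : ℕ → R := fun i =>
    if i = 0 then PermWalk_Q B z0 m 0 z0 else
    if i = N + 1 then 1 else
    if i - 1 < (m - 1) * n then
      PermWalk_Q B z0 (m - 1 - (i - 1) / n) ((i - 1) / n + 1) (fn (i - 1)) else 0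
  -- values of `p`
  have hp : ∀ c v : ℕ, c ≤ m - 2 → v < n →
      p (c * n + v + 1) = PermWalk_Q B z0 (m - 1 - c) (c + 1) (fn v) := by
    intro c v hc hv
    have h1 : (c + 1) * n ≤ (m - 1) * n := Nat.mul_le_mul_right n (by omega)
    have h2 : c * n + v < (m - 1) * n := by nlinarith
    have h3 : (c * n + v) / n = c := by
      rw [add_comm, Nat.add_mul_div_right _ _ hn, Nat.div_eq_of_lt hv, zero_add]
    have h4 : fn (c * n + v) = fn v := by
      apply Fin.ext
      show (c * n + v) % n = v % n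
      rw [add_comm, Nat.add_mul_mod_self_right]
    simp only [p]
    rw [if_neg (by omega), if_neg (by omega), Nat.add_sub_cancel, if_pos h2, h3, h4]
  have hsum : ∀ g : Fin n → R, ∑ v ∈ Finset.range n, g (fn v) = ∑ v : Fin n, g v := by
    intro g
    rw [← Fin.sum_univ_eq_sum_range (fun v => g (fn v)) n]
    refine Finset.sum_congr rfl fun v _ => ?_
    congr 1
    apply Fin.ext
    show (v : ℕ) % n = v
    exact Nat.mod_eq_of_lt v.2
  refine ⟨fun i j => a i j, ?_, ?_⟩
  · intro i j
    simp only [a]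
    split_ifs with h1 h2 h3 h4 h5 h6 h7
    · exact Or.inr (Or.inl rfl)
    · exact Or.inr (Or.inr ⟨0, z0, fn j, by omega, rfl⟩)
    · exact Or.inl rfl
    · exact Or.inr (Or.inr ⟨m - 1, _, _, by omega, rfl⟩)
    · exact Or.inl rfl
    · refine Or.inr (Or.inr ⟨((i : ℕ) - 1) / n + 1, _, _, ?_, rfl⟩)
      have : ((i : ℕ) - 1) / n < m - 1 := by
        rw [Nat.div_lt_iff_lt_mul hn]; exact h4
      omega
    · exact Or.inl rfl
    · exact Or.inl rfl
  · have hper := h R N (fun i j => a i j) p ?_ ?_ ?_ ?_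
    · rw [hper]
      show p 0 = _
      simp only [p, if_true]
      rw [← PermWalk_sum B z0 m 0 z0, ← Finset.sum_filter]
      symm
      refine Finset.sum_bij (fun s _ => s.1) ?_ ?_ ?_ ?_
      · intro s _; simp only [Finset.mem_filter, Finset.mem_univ, true_and]; exact s.2
      · intro s _ s' _ hss; exact Subtype.ext hss
      · intro s hs
        simp only [Finset.mem_filter, Finset.mem_univ, true_and] at hs
        exact ⟨⟨s, hs⟩, Finset.mem_univ _, rfl⟩
      · intro s _
        refine Finset.prod_congr rfl fun i _ => ?_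
        rw [zero_add]
    · intro i j hij
      show a i j = 0
      simp only [a]
      have hj := j.2
      have hi := i.2
      rw [if_neg (by omega), if_neg (by omega)]
      by_cases h4 : (i : ℕ) - 1 < (m - 1) * n
      · rw [if_pos h4]
        by_cases h5 : ((i : ℕ) - 1) / n = m - 2
        · rw [if_pos h5, if_neg (by omega)]
        · rw [if_neg h5, if_neg]
          intro h6
          have h7 : (j : ℕ) / n ≤ ((i : ℕ) - 1) / n := Nat.div_le_div_right (by omega)
          omega
      · rw [if_neg h4]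
    · intro i
      show a (i.succ : ℕ) (i.castSucc : ℕ) = 1
      simp only [a, Fin.val_succ, Fin.val_castSucc, if_true]
    · simp [p]
    · intro i
      have hi := i.2
      have hconv : (∑ j : Fin (N + 1), if i ≤ j then a i j * p (j + 1) else 0) =
          ∑ j ∈ Finset.range (N + 1), (if (i : ℕ) ≤ j then a i j * p (j + 1) else 0) := by
        rw [← Fin.sum_univ_eq_sum_range
          (fun j => if (i : ℕ) ≤ j then a i j * p (j + 1) else 0) (N + 1)]
        rfl
      rw [hconv]
      generalize (i : ℕ) = x at hi ⊢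
      rcases Nat.eq_zero_or_pos x with hx | hx
      · subst hx
        have h1 : ∀ j ∈ Finset.range (N + 1), (if 0 ≤ j then a 0 j * p (j + 1) else 0) =
            if j / n = 0 then B 0 z0 (fn j) * p (j + 1) else 0 := by
          intro j _
          simp only [a]
          rw [if_pos (Nat.zero_le _), if_neg (by omega)]
          by_cases hj : j / n = 0
          · simp [hj]
          · simp [hj]
        rw [Finset.sum_congr rfl h1,
          PermWalk_block n 0 (N + 1) hn (by omega) (fun j => B 0 z0 (fn j) * p (j + 1))]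
        have h2 : ∀ v ∈ Finset.range n, B 0 z0 (fn (0 * n + v)) * p (0 * n + v + 1) =
            B 0 z0 (fn v) * PermWalk_Q B z0 (m - 1) 1 (fn v) := by
          intro v hv
          rw [hp 0 v (by omega) (Finset.mem_range.1 hv), Nat.sub_zero, zero_mul, zero_add]
        rw [Finset.sum_congr rfl h2, hsum (fun v => B 0 z0 v * PermWalk_Q B z0 (m - 1) 1 v)]
        simp only [p, if_true]
        obtain ⟨m', rfl⟩ : ∃ m', m = m' + 1 := ⟨m - 1, by omega⟩
        simp only [PermWalk_Q, Nat.add_sub_cancel, zero_add]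
      · have hpx : p x = if x - 1 < (m - 1) * n then
            PermWalk_Q B z0 (m - 1 - (x - 1) / n) ((x - 1) / n + 1) (fn (x - 1)) else 0 := by
          simp only [p]
          rw [if_neg (by omega), if_neg (by omega)]
        rw [hpx]
        by_cases h4 : x - 1 < (m - 1) * n
        · rw [if_pos h4]
          have hc : (x - 1) / n < m - 1 := by rw [Nat.div_lt_iff_lt_mul hn]; exact h4
          by_cases h5 : (x - 1) / n = m - 2
          · have h6 : m - 1 - (x - 1) / n = 0 + 1 := by omega
            have h7 : (x - 1) / n + 1 = m - 1 := by omega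
            rw [h6, h7]
            simp only [PermWalk_Q, mul_ite, mul_one, mul_zero]
            rw [Finset.sum_ite_eq', if_pos (Finset.mem_univ _)]
            rw [Finset.sum_eq_single N]
            · rw [if_pos (by omega)]
              have h8 : p (N + 1) = 1 := by simp [p]
              rw [h8, mul_one]
              simp only [a]
              rw [if_neg (by omega), if_neg (by omega), if_pos h4, if_pos h5]
              simp
            · intro j _ hj
              by_cases hxj : x ≤ j
              · rw [if_pos hxj]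
                simp only [a]
                rw [if_neg (by omega), if_neg (by omega), if_pos h4, if_pos h5, if_neg hj,
                  zero_mul]
              · rw [if_neg hxj]
            · intro hN'
              exact absurd (Finset.mem_range.2 (Nat.lt_succ_self N)) hN'
          · obtain ⟨c, hc'⟩ : ∃ c, (x - 1) / n = c := ⟨_, rfl⟩
            have hxlow : x - 1 < (c + 1) * n := by
              have := Nat.lt_mul_div_succ (x - 1) hn
              rw [hc'] at this
              rw [mul_comm]; exact this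
            have h1 : ∀ j ∈ Finset.range (N + 1), (if x ≤ j then a x j * p (j + 1) else 0) =
                if j / n = c + 1 then B (c + 1) (fn (x - 1)) (fn j) * p (j + 1) else 0 := by
              intro j _
              by_cases hj : j / n = c + 1
              · have h9 : (c + 1) * n ≤ j := by
                  rw [← hj]; exact Nat.div_mul_le_self j n
                rw [if_pos (by omega), if_pos hj]
                simp only [a]
                rw [if_neg (by omega), if_neg (by omega), if_pos h4, if_neg h5, hc', if_pos hj]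
              · rw [if_neg hj]
                by_cases hxj : x ≤ j
                · rw [if_pos hxj]
                  simp only [a]
                  rw [if_neg (by omega), if_neg (by omega), if_pos h4, if_neg h5, hc',
                    if_neg hj, zero_mul]
                · rw [if_neg hxj]
            have hK : (c + 1 + 1) * n ≤ N + 1 := by
              have : (c + 1 + 1) * n ≤ (m - 1) * n := Nat.mul_le_mul_right n (by omega)
              omega
            rw [Finset.sum_congr rfl h1, PermWalk_block n (c + 1) (N + 1) hn hK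
              (fun j => B (c + 1) (fn (x - 1)) (fn j) * p (j + 1)), hc']
            have h2 : ∀ v ∈ Finset.range n, B (c + 1) (fn (x - 1)) (fn ((c + 1) * n + v)) *
                p ((c + 1) * n + v + 1) =
                B (c + 1) (fn (x - 1)) (fn v) *
                  PermWalk_Q B z0 (m - 1 - (c + 1)) (c + 1 + 1) (fn v) := by
              intro v hv
              rw [hp (c + 1) v (by omega) (Finset.mem_range.1 hv)]
              have h10 : fn ((c + 1) * n + v) = fn v := by
                apply Fin.ext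
                show ((c + 1) * n + v) % n = v % n
                rw [add_comm, Nat.add_mul_mod_self_right]
              rw [h10]
            rw [Finset.sum_congr rfl h2, hsum (fun v => B (c + 1) (fn (x - 1)) v *
              PermWalk_Q B z0 (m - 1 - (c + 1)) (c + 1 + 1) v)]
            obtain ⟨r, hr⟩ : ∃ r, m - 1 - c = r + 1 := ⟨m - 1 - c - 1, by omega⟩
            have hr' : m - 1 - (c + 1) = r := by omega
            rw [hr, hr']
            simp only [PermWalk_Q]
        · rw [if_neg h4]
          symm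
          refine Finset.sum_eq_zero fun j _ => ?_
          by_cases hxj : x ≤ j
          · rw [if_pos hxj]
            simp only [a]
            rw [if_neg (by omega), if_neg (by omega), if_neg h4, zero_mul]
          · rw [if_neg hxj]

end PermWalk

end Pool.Agent.Work.MP_499dc6_lc.CD

end

section

/-! Item Phi: the trivial bound for homogeneous polynomials. -/

namespace Pool.Agent.Work.MP_499dc6_lc.CD

theorem Phi_geom (n : ℕ) : ∑ j ∈ Finset.range n, ((1 : ℝ) / 10) ^ j ≤ 10 / 9 := by
  have h := geom_sum_eq (show ((1 : ℝ) / 10) ≠ 1 by norm_num) n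
  rw [h]
  have h2 : (0 : ℝ) ≤ (1 / 10) ^ n := by positivity
  have h3 : (((1 : ℝ) / 10) ^ n - 1) / (1 / 10 - 1) = (10 / 9) * (1 - (1 / 10) ^ n) := by
    field_simp
    ring
  rw [h3]
  linarith

/-- sum over a range around `u0` -/
theorem Phi_sum (f : ℕ → ℝ) (k u0 : ℕ) (A : ℝ) (hA : 0 ≤ A) (hu : u0 ≤ k)
    (h1 : ∀ u, u < u0 → f u ≤ A * (1 / 10) ^ (u0 - 1 - u))
    (h2 : ∀ u, u0 < u → f u ≤ A * (1 / 10) ^ (u - (u0 + 1))) :
    ∑ u ∈ Finset.range (k + 1), f u ≤ f u0 + 3 * A := by
  have e1 : ∑ u ∈ Finset.range (k + 1), f u =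
      ∑ u ∈ Finset.range u0, f u + (f u0 + ∑ u ∈ Finset.Ico (u0 + 1) (k + 1), f u) := by
    rw [← Finset.sum_eq_sum_Ico_succ_bot (by omega), Finset.range_eq_Ico, Finset.range_eq_Ico,
      Finset.sum_Ico_consecutive _ (Nat.zero_le _) (by omega)]
  have e2 : ∑ u ∈ Finset.range u0, f u ≤ A * (10 / 9) := by
    calc ∑ u ∈ Finset.range u0, f u ≤ ∑ u ∈ Finset.range u0, A * (1 / 10) ^ (u0 - 1 - u) :=
          Finset.sum_le_sum fun u hu => h1 u (Finset.mem_range.1 hu)
      _ = A * ∑ u ∈ Finset.range u0, ((1 : ℝ) / 10) ^ u := by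
          rw [Finset.mul_sum, Finset.sum_range_reflect (fun j => A * ((1 : ℝ) / 10) ^ j) u0]
      _ ≤ A * (10 / 9) := mul_le_mul_of_nonneg_left (Phi_geom _) hA
  have e3 : ∑ u ∈ Finset.Ico (u0 + 1) (k + 1), f u ≤ A * (10 / 9) := by
    calc ∑ u ∈ Finset.Ico (u0 + 1) (k + 1), f u
        ≤ ∑ u ∈ Finset.Ico (u0 + 1) (k + 1), A * (1 / 10) ^ (u - (u0 + 1)) :=
          Finset.sum_le_sum fun u hu => h2 u (by have := (Finset.mem_Ico.1 hu).1; omega)
      _ = A * ∑ u ∈ Finset.range (k + 1 - (u0 + 1)), ((1 : ℝ) / 10) ^ u := by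
          rw [Finset.sum_Ico_eq_sum_range, Finset.mul_sum]
          refine Finset.sum_congr rfl fun j _ => ?_
          rw [Nat.add_sub_cancel_left]
      _ ≤ A * (10 / 9) := mul_le_mul_of_nonneg_left (Phi_geom _) hA
  rw [e1]
  linarith

theorem Phi_exp12 : Real.exp (-12) ≤ 1 / 10 := by
  rw [Real.exp_neg]
  have h : (10 : ℝ) ≤ Real.exp 12 := by
    have := Real.add_one_le_exp (12 : ℝ)
    linarith
  rw [inv_eq_one_div]
  exact one_div_le_one_div_of_le (by norm_num) h

theorem Phi_term (al : ℝ) (hal : 10 ≤ al) (s : ℝ) (hs : 1.4142 < s) (x : ℝ) (d : ℕ)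
    (hx : (1 + s) * ((d : ℝ) + 1 / 2) ≤ |x|) :
    Real.exp (-(al * |x| / 2)) ≤ Real.exp (-(0.6 * al)) * (1 / 10) ^ d := by
  have h1 : Real.exp (-(12 * (d : ℝ))) ≤ (1 / 10) ^ d := by
    have : -(12 * (d : ℝ)) = d * (-12) := by ring
    rw [this, Real.exp_nat_mul]
    exact pow_le_pow_left₀ (Real.exp_pos _).le Phi_exp12 d
  refine le_trans ?_ (mul_le_mul_of_nonneg_left h1 (Real.exp_pos _).le)
  rw [← Real.exp_add]
  apply Real.exp_le_exp.2
  have hd : (0 : ℝ) ≤ d := Nat.cast_nonneg d
  have h2 : (2.4142 : ℝ) * ((d : ℝ) + 1 / 2) ≤ |x| := by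
    refine le_trans ?_ hx
    apply mul_le_mul_of_nonneg_right _ (by positivity)
    linarith
  have h3 : al * (2.4142 * ((d : ℝ) + 1 / 2)) ≤ al * |x| :=
    mul_le_mul_of_nonneg_left h2 (by linarith)
  have h4 : (0 : ℝ) ≤ (al - 10) * d := mul_nonneg (by linarith) hd
  nlinarith

theorem Phi_irr (s : ℝ) (hs2 : s ^ 2 = 2) (hs1 : 1.4142 < s) (_hs3 : s < 1.4143) (k u : ℕ)
    (hk : 1 ≤ k) (hu : u ≤ k) :
    1 / (s * k) ≤ |(u : ℝ) - s * ((k : ℝ) - u)| := by
  obtain ⟨v, rfl⟩ : ∃ v, k = u + v := ⟨k - u, by omega⟩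
  have hv : ((u + v : ℕ) : ℝ) - u = v := by push_cast; ring
  rw [hv]
  have hu0 : (0 : ℝ) ≤ u := Nat.cast_nonneg u
  have hv0 : (0 : ℝ) ≤ v := Nat.cast_nonneg v
  have hkr : (1 : ℝ) ≤ ((u + v : ℕ) : ℝ) := by exact_mod_cast hk
  have hirr : (u : ℤ) ^ 2 - 2 * (v : ℤ) ^ 2 ≠ 0 := by
    intro h
    have h1 : u * u = 2 * (v * v) := by
      have : ((u * u : ℕ) : ℤ) = ((2 * (v * v) : ℕ) : ℤ) := by push_cast; linarith
      exact_mod_cast this
    by_cases hv1 : v = 0
    · subst hv1; simp at h1; omega
    · have h2 : Irrational (Real.sqrt 2) := irrational_sqrt_two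
      apply h2
      refine ⟨(u : ℚ) / v, ?_⟩
      have hv2 : (0 : ℝ) < v := by exact_mod_cast Nat.pos_of_ne_zero hv1
      have h3 : ((u : ℝ) / v) ^ 2 = 2 := by
        rw [div_pow, div_eq_iff (by positivity)]
        have : ((u * u : ℕ) : ℝ) = ((2 * (v * v) : ℕ) : ℝ) := by rw [h1]
        push_cast at this
        linarith
      push_cast
      rw [← h3, Real.sqrt_sq (by positivity)]
  have h5 : (1 : ℝ) ≤ |(u : ℝ) ^ 2 - 2 * (v : ℝ) ^ 2| := by
    have : (1 : ℤ) ≤ |(u : ℤ) ^ 2 - 2 * (v : ℤ) ^ 2| := Int.one_le_abs hirr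
    have h6 : ((1 : ℤ) : ℝ) ≤ ((|(u : ℤ) ^ 2 - 2 * (v : ℤ) ^ 2| : ℤ) : ℝ) := by exact_mod_cast this
    push_cast at h6
    exact h6
  have h6 : (u : ℝ) ^ 2 - 2 * (v : ℝ) ^ 2 = ((u : ℝ) - s * v) * (u + s * v) := by
    have : ((u : ℝ) - s * v) * (u + s * v) = (u : ℝ) ^ 2 - s ^ 2 * (v : ℝ) ^ 2 := by ring
    rw [this, hs2]
  have h7 : (0 : ℝ) ≤ u + s * v := by positivity
  have h8 : (u : ℝ) + s * v ≤ s * ((u + v : ℕ) : ℝ) := by
    push_cast
    nlinarith
  rw [h6, abs_mul, abs_of_nonneg h7] at h5
  rw [div_le_iff₀ (by positivity)]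
  refine h5.trans ?_
  exact mul_le_mul_of_nonneg_left h8 (abs_nonneg _)

theorem pr_Phi : S_Phi := by
  intro al k hal hk hkal
  obtain ⟨s, hsdef⟩ : ∃ s, s = √(2 : ℝ) := ⟨_, rfl⟩
  have hs2 : s ^ 2 = 2 := by rw [hsdef]; exact Real.sq_sqrt (by norm_num)
  have hs0 : 0 ≤ s := by rw [hsdef]; exact Real.sqrt_nonneg _
  have hs1 : 1.4142 < s := by nlinarith
  have hs3 : s < 1.4143 := by nlinarith
  have hk0 : (1 : ℝ) ≤ k := by exact_mod_cast hk
  unfold phi
  rw [← hsdef]
  -- the real minimiser
  obtain ⟨y, hy⟩ : ∃ y : ℝ, y = s * k / (1 + s) := ⟨_, rfl⟩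
  have h1s : (0 : ℝ) < 1 + s := by linarith
  have hy1 : (1 + s) * y = s * k := by rw [hy]; field_simp
  have hy0 : 0 ≤ y := by rw [hy]; positivity
  have hyk : y ≤ k := by
    rw [hy, div_le_iff₀ h1s]
    nlinarith
  have hterm : ∀ u : ℕ, |(u : ℝ) * al - ((k : ℝ) - u) * (s * al)| / 2 =
      al * |(1 + s) * (u - y)| / 2 := by
    intro u
    have : (u : ℝ) * al - ((k : ℝ) - u) * (s * al) = al * ((1 + s) * (u - y)) := by
      have : (1 + s) * ((u : ℝ) - y) = (1 + s) * u - s * k := by rw [← hy1]; ring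
      rw [this]; ring
    rw [this, abs_mul, abs_of_nonneg (by linarith : (0 : ℝ) ≤ al)]
  simp_rw [hterm]
  obtain ⟨u0, hu0⟩ : ∃ u0 : ℕ, u0 = ⌊y + 1 / 2⌋₊ := ⟨_, rfl⟩
  have hfl1 : (u0 : ℝ) ≤ y + 1 / 2 := by rw [hu0]; exact Nat.floor_le (by positivity)
  have hfl2 : y + 1 / 2 < u0 + 1 := by rw [hu0]; exact Nat.lt_floor_add_one _
  have hu0k : u0 ≤ k := by
    have : (u0 : ℝ) < k + 1 := by linarith
    have : u0 < k + 1 := by exact_mod_cast this
    omega
  have hsum := Phi_sum (fun u : ℕ => Real.exp (-(al * |(1 + s) * ((u : ℝ) - y)| / 2))) k u0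
    (Real.exp (-(0.6 * al))) (Real.exp_pos _).le hu0k
    (by
      intro u hu
      apply Phi_term al hal s hs1
      rw [abs_mul, abs_of_nonneg h1s.le]
      apply mul_le_mul_of_nonneg_left _ h1s.le
      have : ((u0 - 1 - u : ℕ) : ℝ) = u0 - 1 - u := by
        rw [Nat.sub_sub, Nat.cast_sub (by omega)]; push_cast; ring
      rw [this, abs_sub_comm]
      refine le_trans ?_ (le_abs_self _)
      linarith)
    (by
      intro u hu
      apply Phi_term al hal s hs1
      rw [abs_mul, abs_of_nonneg h1s.le]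
      apply mul_le_mul_of_nonneg_left _ h1s.le
      have : ((u - (u0 + 1) : ℕ) : ℝ) = u - (u0 + 1) := by
        rw [Nat.cast_sub (by omega)]; push_cast; ring
      rw [this]
      refine le_trans ?_ (le_abs_self _)
      linarith)
  refine hsum.trans ?_
  -- bound for the main term
  have hmain : Real.exp (-(al * |(1 + s) * ((u0 : ℝ) - y)| / 2)) ≤ Real.exp (-(0.3535 * (al / k))) := by
    apply Real.exp_le_exp.2
    have h1 := Phi_irr s hs2 hs1 hs3 k u0 hk hu0k
    have h2 : (u0 : ℝ) - s * ((k : ℝ) - u0) = (1 + s) * ((u0 : ℝ) - y) := by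
      have : (1 + s) * ((u0 : ℝ) - y) = (1 + s) * u0 - s * k := by rw [← hy1]; ring
      rw [this]; ring
    rw [h2] at h1
    have h3 : al * (1 / (s * k)) ≤ al * |(1 + s) * ((u0 : ℝ) - y)| :=
      mul_le_mul_of_nonneg_left h1 (by linarith)
    have h4 : 0.707 * (al / k) ≤ al * (1 / (s * k)) := by
      have h5 : al * (1 / (s * k)) = (1 / s) * (al / k) := by field_simp
      rw [h5]
      apply mul_le_mul_of_nonneg_right _ (by positivity)
      rw [le_div_iff₀ (by linarith)]
      nlinarith
    linarith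
  have ht0 : 0 < al / k := by positivity
  obtain ⟨t, ht⟩ : ∃ t, t = al / k := ⟨_, rfl⟩
  rw [← ht] at hmain ht0
  have hgoal : -(al / (6 * k)) = -(t / 6) := by rw [ht]; field_simp
  rw [hgoal]
  have hfac : Real.exp (-(t / 6)) - Real.exp (-(0.3535 * t)) ≥
      Real.exp (-(t / 6)) * (1 - Real.exp (-(0.1868 * t))) := by
    have : Real.exp (-(0.3535 * t)) ≤ Real.exp (-(t / 6)) * Real.exp (-(0.1868 * t)) := by
      rw [← Real.exp_add]
      apply Real.exp_le_exp.2
      linarith
    linarith
  -- 1 - exp(-x) >= x/(1+x)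
  have hx : ∀ x : ℝ, 0 ≤ x → x / (1 + x) ≤ 1 - Real.exp (-x) := by
    intro x hx
    have h1 : Real.exp (-x) ≤ 1 / (1 + x) := by
      rw [Real.exp_neg, inv_eq_one_div]
      apply one_div_le_one_div_of_le (by linarith)
      have := Real.add_one_le_exp x
      linarith
    have h2 : x / (1 + x) = 1 - 1 / (1 + x) := by field_simp; ring
    linarith
  suffices hs : 3 * Real.exp (-(0.6 * al)) ≤
      Real.exp (-(t / 6)) * (1 - Real.exp (-(0.1868 * t))) by
    linarith
  by_cases ht1 : 1 ≤ t
  · have h1 : (0.15 : ℝ) ≤ 1 - Real.exp (-(0.1868 * t)) := by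
      refine le_trans ?_ (hx (0.1868 * t) (by positivity))
      rw [le_div_iff₀ (by positivity)]
      linarith
    have h2 : Real.exp (-(al / 6)) ≤ Real.exp (-(t / 6)) := by
      apply Real.exp_le_exp.2
      have : t ≤ al := by rw [ht]; exact div_le_self (by linarith) hk0
      linarith
    have h3 : 3 * Real.exp (-(0.6 * al)) ≤ Real.exp (-(al / 6)) * 0.15 := by
      have h4 : Real.exp (-(0.6 * al)) = Real.exp (-(al / 6)) * Real.exp (-((13 / 30) * al)) := by
        rw [← Real.exp_add]; congr 1; ring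
      have h5 : Real.exp (-((13 / 30) * al)) ≤ 1 / 20 := by
        rw [Real.exp_neg, inv_eq_one_div]
        apply one_div_le_one_div_of_le (by norm_num)
        have h6 : Real.exp 4 ≤ Real.exp ((13 / 30) * al) := Real.exp_le_exp.2 (by linarith)
        refine le_trans ?_ h6
        have h7 : Real.exp 4 = Real.exp 1 ^ 4 := by
          rw [← Real.exp_nat_mul]; norm_num
        rw [h7]
        have h8 := Real.exp_one_gt_d9
        have h9 : (2.7 : ℝ) ^ 4 ≤ Real.exp 1 ^ 4 := pow_le_pow_left₀ (by norm_num) (by linarith) 4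
        norm_num at h9 ⊢
        linarith
      rw [h4]
      have h6 : 0 < Real.exp (-(al / 6)) := Real.exp_pos _
      nlinarith
    refine h3.trans ?_
    exact mul_le_mul h2 h1 (by norm_num) (Real.exp_pos _).le
  · push Not at ht1
    have h1 : 0.157 * t ≤ 1 - Real.exp (-(0.1868 * t)) := by
      refine le_trans ?_ (hx (0.1868 * t) (by positivity))
      rw [le_div_iff₀ (by positivity)]
      nlinarith
    have h2 : (5 / 6 : ℝ) ≤ Real.exp (-(t / 6)) := by
      have := Real.add_one_le_exp (-(t / 6))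
      linarith
    have h3 : 0.13 * t ≤ Real.exp (-(t / 6)) * (1 - Real.exp (-(0.1868 * t))) := by
      refine le_trans ?_ (mul_le_mul h2 h1 (by positivity) (Real.exp_pos _).le)
      nlinarith
    refine le_trans ?_ h3
    -- t >= al * exp (-al/2)
    have h4 : al * Real.exp (-(al / 2)) ≤ t := by
      rw [ht, le_div_iff₀ (by positivity), Real.exp_neg, mul_assoc]
      have h5 : (Real.exp (al / 2))⁻¹ * (k : ℝ) ≤ 1 := by
        rw [inv_mul_le_iff₀ (Real.exp_pos _)]
        simpa using hkal
      nlinarith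
    have h5 : Real.exp (-(0.6 * al)) = Real.exp (-(al / 2)) * Real.exp (-(0.1 * al)) := by
      rw [← Real.exp_add]; congr 1; ring
    have h6 : Real.exp (-(0.1 * al)) ≤ 0.4 := by
      rw [Real.exp_neg, inv_eq_one_div]
      have h7 : (2.5 : ℝ) ≤ Real.exp (0.1 * al) := by
        have h8 := Real.exp_one_gt_d9
        have h9 : Real.exp 1 ≤ Real.exp (0.1 * al) := Real.exp_le_exp.2 (by linarith)
        linarith
      calc 1 / Real.exp (0.1 * al) ≤ 1 / 2.5 := one_div_le_one_div_of_le (by norm_num) h7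
        _ = 0.4 := by norm_num
    have h7 : 0 < Real.exp (-(al / 2)) := Real.exp_pos _
    have h8 : Real.exp (-(al / 2)) * Real.exp (-(0.1 * al)) ≤ Real.exp (-(al / 2)) * 0.4 :=
      mul_le_mul_of_nonneg_left h6 h7.le
    have h9 : 10 * Real.exp (-(al / 2)) ≤ al * Real.exp (-(al / 2)) :=
      mul_le_mul_of_nonneg_right hal h7.le
    rw [h5]
    linarith

end Pool.Agent.Work.MP_499dc6_lc.CD

end

section

namespace Pool.Agent.Work.MP_499dc6_lc.CD

open MvPolynomial

theorem pr_Prod (HL : S_LogDer) (HSp : S_Span) (HSB : S_SpanBB) (Hs : S_BBsmul) : S_Prod := by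
  classical
  intro Y Z _ _ K _ _ al be J _ v m lam hlam hc hv
  set u : J → MvPolynomial (Y ⊕ Z) K :=
    fun j => if m j = 0 then 1 else C (constantCoeff (v j))⁻¹ * v j with hu
  have hu1 : ∀ j, constantCoeff (u j) = 1 := by
    intro j
    rw [hu]
    by_cases h : m j = 0
    · simp [h]
    · simp only [h, if_false, map_mul, constantCoeff_C]
      exact inv_mul_cancel₀ (hc j h)
  have hub : ∀ j i, 1 ≤ i →
      BB al be (homogeneousComponent i (u j)) (Real.exp (-(lam * i))) := by
    intro j i hi
    rw [hu]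
    by_cases h : m j = 0
    · simp only [h, if_true]
      have h0 : homogeneousComponent i (1 : MvPolynomial (Y ⊕ Z) K) = 0 := by
        apply homogeneousComponent_eq_zero
        simp only [totalDegree_one]
        omega
      rw [h0]
      exact BB.mono BB.zero (Real.exp_pos _).le
    · simp only [h, if_false]
      rw [homogeneousComponent_C_mul]
      exact Hs Y Z K al be _ _ _ (hv j h i hi)
  have hzero : ∀ f : MvPolynomial (Y ⊕ Z) K, constantCoeff f = 1 →
      homogeneousComponent 0 f = 1 := by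
    intro f hf
    rw [homogeneousComponent_zero]
    rw [constantCoeff_eq] at hf
    rw [hf]; simp
  obtain ⟨w, hw0, hwh, hwrec, hwprod⟩ := HL (Y ⊕ Z) K J u m hu1
  have hprodeq : ∏ j, v j ^ m j = C (∏ j, constantCoeff (v j) ^ m j) * ∏ j, u j ^ m j := by
    rw [map_prod, ← Finset.prod_mul_distrib]
    refine Finset.prod_congr rfl ?_
    intro j _
    rw [hu]
    by_cases h : m j = 0
    · simp [h]
    · simp only [h, if_false]
      rw [map_pow, ← mul_pow, ← mul_assoc, ← map_mul, mul_inv_cancel₀ (hc j h), map_one, one_mul]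
  have hcc1 : constantCoeff (∏ j, u j ^ m j) = 1 := by
    rw [map_prod]
    apply Finset.prod_eq_one
    intro j _
    rw [map_pow, hu1 j, one_pow]
  refine ⟨fun k => ∑ j, (m j : MvPolynomial (Y ⊕ Z) K) * w j k, ?_, ?_, ?_⟩
  · intro k
    apply IsHomogeneous.sum
    intro j _
    have h0 : (m j : MvPolynomial (Y ⊕ Z) K) = C (m j : K) := by simp
    rw [h0]
    have := (isHomogeneous_C (Y ⊕ Z) (m j : K)).mul (hwh j k)
    simpa using this
  · intro k hk
    have hj : ∀ j, BB al be ((m j : MvPolynomial (Y ⊕ Z) K) * w j k)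
        (Real.exp (16 / lam ^ 2 - lam / 2 * k)) := by
      intro j
      have h0 : (m j : MvPolynomial (Y ⊕ Z) K) = C (m j : K) := by simp
      rw [h0]
      apply Hs Y Z K al be
      have h1 := (HSp K (MvPolynomial (Y ⊕ Z) K) (fun i => homogeneousComponent i (u j)) (w j)
        (hzero _ (hu1 j)) (hw0 j) (hwrec j) k hk).1
      exact HSB Y Z K al be _ _ lam k hlam (hub j) h1
    have hS : ∀ S : Finset J, BB al be (∑ j ∈ S, (m j : MvPolynomial (Y ⊕ Z) K) * w j k)
        ((S.card : ℝ) * Real.exp (16 / lam ^ 2 - lam / 2 * k)) := by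
      intro S
      induction S using Finset.induction_on with
      | empty => simpa using BB.zero (al := al) (be := be) (K := K)
      | insert a S ha ih =>
        rw [Finset.sum_insert ha, Finset.card_insert_of_notMem ha]
        have := BB.add (hj a) ih
        convert this using 1
        push_cast
        ring
    have := hS Finset.univ
    rwa [Finset.card_univ] at this
  · intro k hk
    rw [hprodeq, homogeneousComponent_C_mul, ← MvPolynomial.smul_eq_C_mul]
    refine Submodule.smul_mem _ _ ?_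
    refine (HSp K (MvPolynomial (Y ⊕ Z) K)
      (fun i => homogeneousComponent i (∏ j, u j ^ m j))
      (fun i => ∑ j, (m j : MvPolynomial (Y ⊕ Z) K) * w j i) (hzero _ hcc1) ?_ hwprod k hk).2
    simp [hw0]

end Pool.Agent.Work.MP_499dc6_lc.CD

end

section

namespace Pool.Agent.Work.MP_499dc6_lc.CD

open MvPolynomial

section PSbasic

variable {K : Type} [Field K] {A : Type} [CommRing A] [Algebra K A]

theorem PS_one (v : ℕ → A) : (1 : A) ∈ PS K v 0 := by
  apply Submodule.subset_span
  refine ⟨⟨0, by simp, by simp⟩, by simp⟩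

theorem PS_gen (v : ℕ → A) {k : ℕ} (hk : 1 ≤ k) : v k ∈ PS K v k := by
  apply Submodule.subset_span
  refine ⟨⟨{k}, ?_, by simp⟩, by simp⟩
  intro i hi
  rw [Multiset.mem_singleton] at hi
  omega

theorem PS_mul (v : ℕ → A) {i j : ℕ} {a b : A} (ha : a ∈ PS K v i) (hb : b ∈ PS K v j) :
    a * b ∈ PS K v (i + j) := by
  have h : PS K v i * PS K v j ≤ PS K v (i + j) := by
    unfold PS
    rw [Submodule.span_mul_span]
    apply Submodule.span_mono
    rintro x ⟨_, ⟨P, rfl⟩, _, ⟨Q, rfl⟩, rfl⟩
    refine ⟨⟨P.parts + Q.parts, ?_, ?_⟩, ?_⟩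
    · intro i hi
      rcases Multiset.mem_add.1 hi with h | h
      · exact P.parts_pos h
      · exact Q.parts_pos h
    · rw [Multiset.sum_add, P.parts_sum, Q.parts_sum]
    · simp [Multiset.map_add, Multiset.prod_add]
  exact h (Submodule.mul_mem_mul ha hb)

end PSbasic

theorem pr_Span : S_Span := by
  intro K _ _ A _ _ v w hv0 hw0 hrec k
  induction k using Nat.strong_induction_on with
  | _ k ih =>
    intro hk
    have hk0 : (k : K) ≠ 0 := Nat.cast_ne_zero.2 (by omega)
    have hmem : (k, 0) ∈ Finset.HasAntidiagonal.antidiagonal k := by simp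
    have hsum := hrec k
    rw [← Finset.add_sum_erase _ _ hmem] at hsum
    simp only [hv0, mul_one] at hsum
    have hkk : (k : A) * v k = (k : K) • v k := by
      rw [Algebra.smul_def, map_natCast]
    constructor
    · have hw : w k = (k : K) • v k -
          ∑ p ∈ (Finset.HasAntidiagonal.antidiagonal k).erase (k, 0), w p.1 * v p.2 := by
        rw [← hkk, hsum]; ring
      rw [hw]
      refine Submodule.sub_mem _ (Submodule.smul_mem _ _ (PS_gen v hk)) ?_
      refine Submodule.sum_mem _ ?_
      rintro ⟨a, b⟩ hp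
      rw [Finset.mem_erase, Finset.HasAntidiagonal.mem_antidiagonal] at hp
      obtain ⟨hne, hab⟩ := hp
      simp only at hab ⊢
      have hb : b ≠ 0 := by
        rintro rfl
        exact hne (by simp at hab; simp [hab])
      rcases Nat.eq_zero_or_pos a with ha | ha
      · subst ha
        rw [hw0, zero_mul]
        exact Submodule.zero_mem _
      · rw [← hab]
        exact PS_mul v (ih a (by omega) ha).1 (PS_gen v (by omega))
    · have hv : v k = ((k : K)⁻¹) • (w k +
          ∑ p ∈ (Finset.HasAntidiagonal.antidiagonal k).erase (k, 0), w p.1 * v p.2) := by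
        rw [← hsum, hkk, smul_smul, inv_mul_cancel₀ hk0, one_smul]
      rw [hv]
      refine Submodule.smul_mem _ _ (Submodule.add_mem _ (PS_gen w hk) ?_)
      refine Submodule.sum_mem _ ?_
      rintro ⟨a, b⟩ hp
      rw [Finset.mem_erase, Finset.HasAntidiagonal.mem_antidiagonal] at hp
      obtain ⟨hne, hab⟩ := hp
      simp only at hab ⊢
      have hb : b ≠ 0 := by
        rintro rfl
        exact hne (by simp at hab; simp [hab])
      rcases Nat.eq_zero_or_pos a with ha | ha
      · subst ha
        rw [hw0, zero_mul]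
        exact Submodule.zero_mem _
      · rw [← hab]
        exact PS_mul w (PS_gen w ha) (ih b (by omega) (by omega)).2

end Pool.Agent.Work.MP_499dc6_lc.CD

end

section

namespace Pool.Agent.Work.MP_499dc6_lc.CD

open MvPolynomial

theorem pr_SpanBB (Hs : S_BBsmul) (Hm : S_BBmul) (H1 : S_BBone) (HP : S_Part) :
    S_SpanBB := by
  intro Y Z _ _ K _ al be v f lam k hlam hv hf
  unfold PS at hf
  rw [Submodule.mem_span_range_iff_exists_fun] at hf
  obtain ⟨c, rfl⟩ := hf
  -- products over multisets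
  have hprod : ∀ s : Multiset ℕ, (∀ i ∈ s, 0 < i) →
      BB al be (s.map v).prod (Real.exp (-(lam * (s.sum : ℕ)))) := by
    intro s
    induction s using Multiset.induction_on with
    | empty =>
      intro _
      simpa using H1 Y Z K al be
    | cons a s ih =>
      intro hpos
      rw [Multiset.map_cons, Multiset.prod_cons, Multiset.sum_cons]
      have h1 := hv a (hpos a (Multiset.mem_cons_self a s))
      have h2 := ih fun i hi => hpos i (Multiset.mem_cons_of_mem hi)
      have h3 := Hm Y Z K al be _ _ _ _ h1 h2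
      rw [← Real.exp_add] at h3
      convert h3 using 2
      push_cast
      ring
  have hsum : ∀ S : Finset (Nat.Partition k),
      BB al be (∑ P ∈ S, c P • (P.parts.map v).prod) ((S.card : ℝ) * Real.exp (-(lam * k))) := by
    classical
    intro S
    induction S using Finset.induction_on with
    | empty => simpa using BB.zero (al := al) (be := be) (K := K)
    | insert P S hP ih =>
      rw [Finset.sum_insert hP, Finset.card_insert_of_notMem hP]
      have h1 := hprod P.parts (fun i hi => P.parts_pos hi)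
      rw [P.parts_sum] at h1
      have h2 := Hs Y Z K al be _ _ (c P) h1
      rw [← MvPolynomial.smul_eq_C_mul] at h2
      have h3 := BB.add h2 ih
      convert h3 using 1
      push_cast
      ring
  refine BB.mono (hsum Finset.univ) ?_
  rw [Finset.card_univ]
  have hp := HP k (lam / 2) (by positivity)
  calc (Fintype.card (Nat.Partition k) : ℝ) * Real.exp (-(lam * k))
      ≤ Real.exp (lam / 2 * k + 4 / (lam / 2) ^ 2) * Real.exp (-(lam * k)) :=
        mul_le_mul_of_nonneg_right hp (Real.exp_pos _).le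
    _ = Real.exp (16 / lam ^ 2 - lam / 2 * k) := by
        rw [← Real.exp_add]
        congr 1
        field_simp
        ring

end Pool.Agent.Work.MP_499dc6_lc.CD

end

section

/-! Item Step. -/

namespace Pool.Agent.Work.MP_499dc6_lc.CD

theorem pr_Step (hP : S_Phi) : S_Step := by
  intro al sg lm k hal hsg hlm hlm1 hk hexp
  have hk0 : (1 : ℝ) ≤ k := by exact_mod_cast hk
  have hsg0 : 0 < sg := by linarith
  have hsg2 : 0 < sg ^ 2 := by positivity
  by_cases h : 2 * sg / lm ≤ k
  · right
    apply Real.exp_le_exp.2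
    have h1 : 2 * sg ≤ k * lm := by rwa [div_le_iff₀ hlm] at h
    have h2 : lm ^ 2 / (4 * sg ^ 2) ≤ lm / 2 := by
      rw [div_le_iff₀ (by positivity)]
      nlinarith [mul_pos hlm hsg2, mul_nonneg hlm.le (by nlinarith : (0 : ℝ) ≤ sg ^ 2 - 1)]
    have h3 : lm ^ 2 / (4 * sg ^ 2) * k ≤ lm / 2 * k := mul_le_mul_of_nonneg_right h2 (by linarith)
    linarith
  · left
    push Not at h
    refine (hP al k hal hk (h.le.trans hexp)).trans ?_
    apply Real.exp_le_exp.2
    have h1 : k * lm < 2 * sg := by rwa [lt_div_iff₀ hlm] at h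
    have h2 : (k * lm) ^ 2 < (2 * sg) ^ 2 := by
      apply pow_lt_pow_left₀ h1 (by positivity) (by norm_num)
    have h3 : lm ^ 2 / (4 * sg ^ 2) * k ≤ al / (6 * k) := by
      rw [div_mul_eq_mul_div, div_le_div_iff₀ (by positivity) (by positivity)]
      nlinarith
    linarith

end Pool.Agent.Work.MP_499dc6_lc.CD

end

section

/-!
# MP_499dc6_lc, CD: items Tau, TauLt
-/

namespace Pool.Agent.Work.MP_499dc6_lc.CD

theorem Tau_le_iff (m : ℕ) (t : Fin (aa m)) (j : ℕ) : j ≤ tau m t ↔ √2 * j ≤ (t : ℝ) := by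
  have h2 : (0 : ℝ) < √2 := by positivity
  unfold tau
  rw [Nat.le_floor_iff (by positivity), le_div_iff₀ h2, mul_comm]

theorem pr_TauLt : S_TauLt := by
  intro m t
  by_contra h
  rw [not_lt, Tau_le_iff] at h
  have h1 : (t : ℕ) < ⌈√2 * (m : ℝ)⌉₊ := t.2
  rw [Nat.lt_ceil] at h1
  linarith

theorem pr_Tau : S_Tau := by
  intro m j k hjk hkm
  classical
  have h2 : (0 : ℝ) < √2 := by positivity
  -- the sum is the cardinality of the positions with tau between j and k
  have hsum : ∑ i ∈ Finset.Icc j k,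
      ((Finset.univ.filter (fun t : Fin (aa m) => tau m t = i)).card : ℝ) =
      ((Finset.univ.filter (fun t : Fin (aa m) => j ≤ tau m t ∧ tau m t ≤ k)).card : ℝ) := by
    rw [← Nat.cast_sum]
    congr 1
    rw [← Finset.card_biUnion]
    · congr 1
      ext t
      simp only [Finset.mem_biUnion, Finset.mem_filter, Finset.mem_univ, true_and,
        Finset.mem_Icc]
      constructor
      · rintro ⟨i, hi, rfl⟩
        exact hi
      · intro h
        exact ⟨tau m t, h, rfl⟩
    · intro x _ y _ hxy
      rw [Function.onFun, Finset.disjoint_left]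
      intro t ht ht'
      simp only [Finset.mem_filter, Finset.mem_univ, true_and] at ht ht'
      exact hxy (ht.symm.trans ht')
  rw [hsum]
  set A : ℕ := ⌈√2 * (j : ℝ)⌉₊ with hA
  set B : ℕ := ⌈√2 * ((k : ℝ) + 1)⌉₊ with hB
  have hBaa : B ≤ aa m := by
    have h : (k : ℝ) + 1 ≤ m := by exact_mod_cast hkm
    show ⌈√2 * ((k : ℝ) + 1)⌉₊ ≤ ⌈√2 * (m : ℝ)⌉₊
    exact Nat.ceil_mono (mul_le_mul_of_nonneg_left h h2.le)
  have hcard : (Finset.Ico A B).card ≤
      (Finset.univ.filter (fun t : Fin (aa m) => j ≤ tau m t ∧ tau m t ≤ k)).card := by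
    refine Finset.card_le_card_of_injOn
      (fun t : ℕ => if h : t < aa m then (⟨t, h⟩ : Fin (aa m)) else ⟨0, by
        have : 0 < m := by omega
        show 0 < ⌈√2 * (m : ℝ)⌉₊
        rw [Nat.ceil_pos]
        have : (0 : ℝ) < m := by exact_mod_cast this
        positivity⟩) ?_ ?_
    · intro t ht
      rw [Finset.mem_coe, Finset.mem_Ico] at ht
      have hta : t < aa m := lt_of_lt_of_le ht.2 hBaa
      simp only [Finset.coe_filter, Finset.mem_univ, true_and, Set.mem_ofPred_eq, hta, dite_true]
      have h1 : √2 * (j : ℝ) ≤ t := by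
        have := Nat.ceil_le.mp ht.1
        exact this
      have h3 : (t : ℝ) < √2 * ((k : ℝ) + 1) := Nat.lt_ceil.mp ht.2
      constructor
      · rw [Tau_le_iff]
        exact h1
      · by_contra hcon
        rw [not_le] at hcon
        have h4 : k + 1 ≤ tau m ⟨t, hta⟩ := hcon
        rw [Tau_le_iff] at h4
        push_cast at h4
        linarith
    · intro x hx y hy hxy
      rw [Finset.mem_coe, Finset.mem_Ico] at hx hy
      have hxa : x < aa m := lt_of_lt_of_le hx.2 hBaa
      have hya : y < aa m := lt_of_lt_of_le hy.2 hBaa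
      simp only [hxa, hya, dite_true, Fin.mk.injEq] at hxy
      exact hxy
  rw [Nat.card_Ico] at hcard
  have hAB : A ≤ B := by
    refine Nat.ceil_mono (mul_le_mul_of_nonneg_left ?_ h2.le)
    have : (j : ℝ) ≤ k := by exact_mod_cast hjk
    linarith
  have hc : ((B : ℝ) - A) ≤
      ((Finset.univ.filter (fun t : Fin (aa m) => j ≤ tau m t ∧ tau m t ≤ k)).card : ℝ) := by
    rw [← Nat.cast_sub hAB]
    exact_mod_cast hcard
  have h5 : √2 * ((k : ℝ) + 1) ≤ B := Nat.le_ceil _
  have h6 : (A : ℝ) < √2 * (j : ℝ) + 1 := Nat.ceil_lt_add_one (by positivity)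
  linarith

end Pool.Agent.Work.MP_499dc6_lc.CD

end

section

set_option autoImplicit false

namespace Pool.Agent.Work.MP_499dc6_lc.CD

/-- transfer recursion -/
noncomputable def Walk_A {n : ℕ} (f : ℕ → Fin n → Fin n → ℝ) (z0 : Fin n) : ℕ → Fin n → ℝ
  | 0 => fun v => if v = z0 then 1 else 0
  | k + 1 => fun v => ∑ u, Walk_A f z0 k u * f k u v

theorem Walk_sum {n : ℕ} (f : ℕ → Fin n → Fin n → ℝ) (z0 : Fin n) : ∀ (k : ℕ) (v : Fin n),
    ∑ t : Fin (k + 1) → Fin n, (if t 0 = z0 ∧ t (Fin.last k) = v then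
      ∏ i : Fin k, f i (t i.castSucc) (t i.succ) else 0) = Walk_A f z0 k v := by
  intro k
  induction k with
  | zero =>
    intro v
    rw [← (Equiv.funUnique (Fin 1) (Fin n)).symm.sum_comp]
    have h : ∀ x : Fin n, (if ((Equiv.funUnique (Fin 1) (Fin n)).symm x) 0 = z0 ∧
        ((Equiv.funUnique (Fin 1) (Fin n)).symm x) (Fin.last 0) = v then
        ∏ i : Fin 0, f i (((Equiv.funUnique (Fin 1) (Fin n)).symm x) i.castSucc)
          (((Equiv.funUnique (Fin 1) (Fin n)).symm x) i.succ) else (0 : ℝ)) =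
        if x = v then (if v = z0 then (1 : ℝ) else 0) else 0 := by
      intro x
      have h1 : ((Equiv.funUnique (Fin 1) (Fin n)).symm x) 0 = x := rfl
      have h2 : ((Equiv.funUnique (Fin 1) (Fin n)).symm x) (Fin.last 0) = x := rfl
      rw [h1, h2]
      by_cases hx : x = v
      · subst hx
        by_cases hz : x = z0
        · simp [hz]
        · simp [hz]
      · simp [hx]
    rw [Finset.sum_congr rfl fun x _ => h x]
    rw [Finset.sum_ite_eq' Finset.univ v]
    simp [Walk_A]
  | succ k ih =>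
    intro v
    rw [← (Fin.snocEquiv (fun _ : Fin (k + 2) => Fin n)).sum_comp, Fintype.sum_prod_type]
    have h : ∀ (u : Fin n) (t : Fin (k + 1) → Fin n),
        (if ((Fin.snocEquiv (fun _ : Fin (k + 2) => Fin n)) (u, t)) 0 = z0 ∧
        ((Fin.snocEquiv (fun _ : Fin (k + 2) => Fin n)) (u, t)) (Fin.last (k + 1)) = v then
        ∏ i : Fin (k + 1), f i (((Fin.snocEquiv (fun _ : Fin (k + 2) => Fin n)) (u, t)) i.castSucc)
          (((Fin.snocEquiv (fun _ : Fin (k + 2) => Fin n)) (u, t)) i.succ) else (0 : ℝ)) =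
        if u = v then ∑ u', (if t 0 = z0 ∧ t (Fin.last k) = u' then
          ∏ i : Fin k, f i (t i.castSucc) (t i.succ) else 0) * f k u' v else 0 := by
      intro u t
      have h0 : ((Fin.snocEquiv (fun _ : Fin (k + 2) => Fin n)) (u, t)) =
        (Fin.snoc t u : Fin (k + 2) → Fin n) := rfl
      rw [h0]
      have h1 : (Fin.snoc t u : Fin (k + 2) → Fin n) 0 = t 0 := by
        have := Fin.snoc_castSucc (α := fun _ : Fin (k + 2) => Fin n) u t 0
        exact this
      have h2 : (Fin.snoc t u : Fin (k + 2) → Fin n) (Fin.last (k + 1)) = u :=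
        Fin.snoc_last (α := fun _ : Fin (k + 2) => Fin n) u t
      rw [h1, h2]
      by_cases hu : u = v
      · subst hu
        rw [if_pos rfl]
        by_cases ht : t 0 = z0
        · rw [if_pos ⟨ht, rfl⟩]
          rw [Fin.prod_univ_castSucc]
          rw [Finset.sum_eq_single (t (Fin.last k))]
          · rw [if_pos ⟨ht, rfl⟩]
            have e1 : ∀ i : Fin k, (Fin.snoc t u : Fin (k + 2) → Fin n) i.castSucc.castSucc =
                t i.castSucc := fun i =>
              Fin.snoc_castSucc (α := fun _ : Fin (k + 2) => Fin n) u t i.castSucc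
            have e2 : ∀ i : Fin k, (Fin.snoc t u : Fin (k + 2) → Fin n) i.castSucc.succ =
                t i.succ := fun i => by
              rw [Fin.succ_castSucc]
              exact Fin.snoc_castSucc (α := fun _ : Fin (k + 2) => Fin n) u t i.succ
            have e3 : (Fin.snoc t u : Fin (k + 2) → Fin n) (Fin.last k).castSucc =
                t (Fin.last k) :=
              Fin.snoc_castSucc (α := fun _ : Fin (k + 2) => Fin n) u t (Fin.last k)
            have e4 : (Fin.snoc t u : Fin (k + 2) → Fin n) (Fin.last k).succ = u := by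
              rw [Fin.succ_last]
              exact h2
            rw [e3, e4]
            congr 1
            apply Finset.prod_congr rfl
            intro i _
            rw [e1, e2]
            rfl
          · intro b _ hb
            rw [if_neg, zero_mul]
            exact fun h => hb h.2.symm
          · intro h
            exact absurd (Finset.mem_univ _) h
        · rw [if_neg (fun h => ht h.1)]
          symm
          apply Finset.sum_eq_zero
          intro b _
          rw [if_neg (fun h => ht h.1), zero_mul]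
      · rw [if_neg (fun h => hu h.2), if_neg hu]
    rw [Finset.sum_congr rfl fun u _ => Finset.sum_congr rfl fun t _ => h u t]
    rw [Finset.sum_comm]
    have h3 : ∀ t : Fin (k + 1) → Fin n, (∑ u : Fin n, if u = v then
        ∑ u', (if t 0 = z0 ∧ t (Fin.last k) = u' then
          ∏ i : Fin k, f i (t i.castSucc) (t i.succ) else 0) * f k u' v else 0) =
        ∑ u', (if t 0 = z0 ∧ t (Fin.last k) = u' then
          ∏ i : Fin k, f i (t i.castSucc) (t i.succ) else 0) * f k u' v := by
      intro t
      rw [Finset.sum_ite_eq' Finset.univ v]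
      simp
    rw [Finset.sum_congr rfl fun t _ => h3 t, Finset.sum_comm]
    simp only [Walk_A]
    apply Finset.sum_congr rfl
    intro u' _
    rw [← ih u', Finset.sum_mul]

theorem Walk_eq {n : ℕ} (f : ℕ → Fin n → Fin n → ℝ) (z0 : Fin n) (m : ℕ) :
    ∑ s' : Walk m n z0, ∏ i : Fin m, f i (s'.1 i.castSucc) (s'.1 i.succ) = Walk_A f z0 m z0 := by
  rw [← Walk_sum f z0 m z0, ← Finset.sum_filter]
  symm
  apply Finset.sum_subtype
  intro x
  simp

theorem Walk_bound {n : ℕ} (z0 : Fin n) (m : ℕ) (S : ℕ → Fin n) (hS0 : S 0 = z0)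
    (w : ℕ → ℝ) (ε : ℝ) (hε : 0 ≤ ε) (hw0 : ∀ i, 0 ≤ w i)
    (h : ∀ j k, j < k → k < m → (n : ℝ) ^ (k - j) * ∏ i ∈ Finset.Icc j k, w i ≤ ε) :
    Walk_A (fun i a b => if a = S i ∧ b = S (i + 1) then (1 : ℝ) else w i) z0 m (S m) ≤
      Real.exp ((m : ℝ) ^ 2 * ε) := by
  set f : ℕ → Fin n → Fin n → ℝ :=
    fun i a b => if a = S i ∧ b = S (i + 1) then (1 : ℝ) else w i with hf
  set A := Walk_A f z0 with hA
  have hf0 : ∀ i a b, 0 ≤ f i a b := by
    intro i a b
    simp only [hf]
    split_ifs
    · exact zero_le_one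
    · exact hw0 i
  have hA0 : ∀ k v, 0 ≤ A k v := by
    intro k
    induction k with
    | zero =>
      intro v
      simp only [hA, Walk_A]
      split_ifs
      · exact zero_le_one
      · exact le_rfl
    | succ k ih =>
      intro v
      simp only [hA, Walk_A]
      exact Finset.sum_nonneg fun u _ => mul_nonneg (ih u) (hf0 _ _ _)
  set E : ℕ → ℝ := fun k => A k (S k) with hE
  set D : ℕ → ℝ := fun k => ∑ v ∈ Finset.univ.erase (S k), A k v with hD
  have hD0 : ∀ k, 0 ≤ D k := fun k => Finset.sum_nonneg fun v _ => hA0 k v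
  have hE0 : ∀ k, 0 ≤ E k := fun k => hA0 k _
  have hsplit : ∀ (k : ℕ) (g : Fin n → ℝ), ∑ u, g u = g (S k) +
      ∑ u ∈ Finset.univ.erase (S k), g u := fun k g =>
    (Finset.add_sum_erase Finset.univ g (Finset.mem_univ (S k))).symm
  have hEs : ∀ k, E (k + 1) = E k + w k * D k := by
    intro k
    simp only [hE, hD]
    change (∑ u, A k u * f k u (S (k + 1))) = _
    rw [hsplit k]
    congr 1
    · have : f k (S k) (S (k + 1)) = 1 := by
        simp [hf]
      rw [this, mul_one]
    · rw [Finset.mul_sum]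
      apply Finset.sum_congr rfl
      intro u hu
      have : f k u (S (k + 1)) = w k := by
        simp only [hf]
        rw [if_neg]
        exact fun h => (Finset.ne_of_mem_erase hu) h.1
      rw [this, mul_comm]
  have hDs : ∀ k, D (k + 1) ≤ n * w k * (E k + D k) := by
    intro k
    have h1 : ∀ v ∈ Finset.univ.erase (S (k + 1)), A (k + 1) v = w k * (E k + D k) := by
      intro v hv
      change (∑ u, A k u * f k u v) = _
      have h2 : ∀ u, f k u v = w k := by
        intro u
        simp only [hf]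
        rw [if_neg]
        exact fun h => (Finset.ne_of_mem_erase hv) h.2
      rw [Finset.sum_congr rfl fun u _ => by rw [h2 u], ← Finset.sum_mul, hsplit k, mul_comm]
    have h3 : D (k + 1) = ((Finset.univ.erase (S (k + 1))).card : ℝ) * (w k * (E k + D k)) := by
      simp only [hD]
      rw [Finset.sum_congr rfl h1, Finset.sum_const, nsmul_eq_mul]
    rw [h3, mul_assoc]
    apply mul_le_mul_of_nonneg_right
    · have : (Finset.univ.erase (S (k + 1))).card ≤ n := by
        refine (Finset.card_le_card (Finset.erase_subset _ _)).trans ?_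
        rw [Finset.card_univ, Fintype.card_fin]
      exact_mod_cast this
    · exact mul_nonneg (hw0 k) (add_nonneg (hE0 k) (hD0 k))
  have hDb : ∀ k, D k ≤ ∑ j ∈ Finset.range k, (n : ℝ) ^ (k - j) *
      (∏ i ∈ Finset.Ico j k, w i) * E j := by
    intro k
    induction k with
    | zero =>
      simp only [hD, Finset.range_zero, Finset.sum_empty]
      apply le_of_eq
      apply Finset.sum_eq_zero
      intro v hv
      simp only [hA, Walk_A]
      rw [if_neg]
      rw [← hS0]
      exact Finset.ne_of_mem_erase hv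
    | succ k ih =>
      refine (hDs k).trans ?_
      rw [Finset.sum_range_succ]
      have e1 : (n : ℝ) ^ (k + 1 - k) * (∏ i ∈ Finset.Ico k (k + 1), w i) * E k =
          n * w k * E k := by
        rw [show k + 1 - k = 1 by omega, pow_one, Nat.Ico_succ_singleton, Finset.prod_singleton]
      rw [e1, mul_add, add_comm]
      apply add_le_add_left
      refine (mul_le_mul_of_nonneg_left ih (mul_nonneg (Nat.cast_nonneg n) (hw0 k))).trans ?_
      rw [Finset.mul_sum]
      apply le_of_eq
      apply Finset.sum_congr rfl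
      intro j hj
      have hj' : j < k := Finset.mem_range.1 hj
      rw [show k + 1 - j = (k - j) + 1 by omega, pow_succ, Finset.prod_Ico_succ_top hj'.le]
      ring
  have hmono : ∀ k, E k ≤ E (k + 1) := by
    intro k
    rw [hEs]
    linarith [mul_nonneg (hw0 k) (hD0 k)]
  have hmono' : ∀ j k, j ≤ k → E j ≤ E k := fun j k hjk => monotone_nat_of_le_succ hmono hjk
  have hstep : ∀ k, k < m → E (k + 1) ≤ (1 + k * ε) * E k := by
    intro k hk
    rw [hEs, add_mul, one_mul]
    apply add_le_add_right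
    refine (mul_le_mul_of_nonneg_left (hDb k) (hw0 k)).trans ?_
    rw [Finset.mul_sum]
    have : ∀ j ∈ Finset.range k, w k * ((n : ℝ) ^ (k - j) * (∏ i ∈ Finset.Ico j k, w i) * E j) ≤
        ε * E k := by
      intro j hj
      have hj' : j < k := Finset.mem_range.1 hj
      have h1 := h j k hj' hk
      have h2 : ∏ i ∈ Finset.Icc j k, w i = (∏ i ∈ Finset.Ico j k, w i) * w k := by
        rw [← Finset.prod_Ico_succ_top hj'.le]
        congr 1
      rw [h2] at h1
      calc w k * ((n : ℝ) ^ (k - j) * (∏ i ∈ Finset.Ico j k, w i) * E j) =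
          ((n : ℝ) ^ (k - j) * ((∏ i ∈ Finset.Ico j k, w i) * w k)) * E j := by ring
        _ ≤ ε * E j := mul_le_mul_of_nonneg_right h1 (hE0 j)
        _ ≤ ε * E k := mul_le_mul_of_nonneg_left (hmono' j k hj'.le) hε
    refine (Finset.sum_le_sum this).trans ?_
    rw [Finset.sum_const, Finset.card_range, nsmul_eq_mul]
    apply le_of_eq
    ring
  have hfin : ∀ k, k ≤ m → E k ≤ Real.exp ((k : ℝ) ^ 2 * ε) := by
    intro k
    induction k with
    | zero =>
      intro _
      simp only [hE, hA, Walk_A]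
      rw [hS0, if_pos rfl]
      simp
    | succ k ih =>
      intro hk
      refine (hstep k (by omega)).trans ?_
      have h1 := ih (by omega)
      have h2 : 1 + (k : ℝ) * ε ≤ Real.exp ((k : ℝ) * ε) := by
        have := Real.add_one_le_exp ((k : ℝ) * ε)
        linarith
      have h3 : (0 : ℝ) ≤ 1 + (k : ℝ) * ε := by positivity
      calc (1 + (k : ℝ) * ε) * E k ≤ Real.exp ((k : ℝ) * ε) * Real.exp ((k : ℝ) ^ 2 * ε) :=
            mul_le_mul h2 h1 (hE0 k) (Real.exp_pos _).le
        _ = Real.exp ((k : ℝ) * ε + (k : ℝ) ^ 2 * ε) := (Real.exp_add _ _).symm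
        _ ≤ Real.exp (((k + 1 : ℕ) : ℝ) ^ 2 * ε) := by
            apply Real.exp_le_exp.2
            push_cast
            have : 0 ≤ (k : ℝ) * ε := by positivity
            nlinarith
  exact hfin m le_rfl

theorem pr_Walk : S_Walk := by
  intro m n z0 s w ε hε hw0 _ h
  set S : ℕ → Fin n := fun k => if hk : k < m + 1 then s.1 ⟨k, hk⟩ else z0 with hS
  have hS0 : S 0 = z0 := by
    simp only [hS]
    rw [dif_pos (Nat.succ_pos m)]
    exact s.2.1
  have hSm : S m = z0 := by
    simp only [hS]
    rw [dif_pos (Nat.lt_succ_self m)]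
    exact s.2.2
  have h1 := Walk_bound z0 m S hS0 w ε hε hw0 h
  rw [hSm] at h1
  refine le_trans (le_of_eq ?_) h1
  rw [← Walk_eq]
  apply Finset.sum_congr rfl
  intro s' _
  apply Finset.prod_congr rfl
  intro i _
  have e1 : S (i : ℕ) = s.1 i.castSucc := by
    simp only [hS]
    rw [dif_pos (by omega)]
    rfl
  have e2 : S ((i : ℕ) + 1) = s.1 i.succ := by
    simp only [hS]
    rw [dif_pos (by omega)]
    rfl
  rw [e1, e2]

end Pool.Agent.Work.MP_499dc6_lc.CD

end
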