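import Pool.Agent.Work.MP_499dc6_lc.CDG.Defs
import Pool.Agent.Work.MP_499dc6_lc.CD.Stmts
import Pool.Agent.Work.MP_499dc6_lc.Bd.B02

/-! Bundle of small proof modules (one section per former module). -/

section

/-!
# Constant depth circuits with arbitrary gates of small fan-in: statements of the items
-/

namespace Pool.Agent.Work.MP_499dc6_lc.CDG

open MvPolynomial Pool.Agent.Work.MP_499dc6_lc.CD

def S_RgBound : Prop :=
  ∀ (G : ℝ) (j : ℕ), 1 ≤ G → G ≤ (rg G j).1 ∧ 0 < (rg G j).2 ∧ (rg G j).2 ≤ 1 ∧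
    (rg G j).1 ≤ (257 * G) ^ (10 ^ j) ∧ 1 / (rg G j).2 ≤ (257 * G) ^ (10 ^ j)

def S_RgMono : Prop :=
  ∀ (G : ℝ) (i j : ℕ), 1 ≤ G → i ≤ j → (rg G i).1 ≤ (rg G j).1 ∧ (rg G j).2 ≤ (rg G i).2

/-- Components of a polynomial of polynomials. -/
def S_FunComp : Prop :=
  ∀ (σ τ : Type) (K : Type) [Field K] (g : MvPolynomial τ K) (v : τ → MvPolynomial σ K) (k : ℕ),
    homogeneousComponent k (aeval v g) ∈
      CS K g.vars (fun t i => homogeneousComponent i (v t)) k

/-- The number of coloured partitions. -/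
def S_ColCount : Prop :=
  ∀ (τ : Type) (V : Finset τ) (k : ℕ) (e : ℝ), 0 < e → ∃ T : Finset (Multiset (τ × ℕ)),
    (∀ M : Multiset (τ × ℕ), (∀ p ∈ M, p.1 ∈ V ∧ 1 ≤ p.2) → (M.map Prod.snd).sum = k → M ∈ T) ∧
    (T.card : ℝ) ≤ Real.exp (e * k + 4 * V.card / e ^ 2)

def S_ColBB : Prop :=
  ∀ (Y Z : Type) [Fintype Y] [Fintype Z] (K : Type) [Field K] (al be : ℝ) (τ : Type)
    (V : Finset τ) (v : τ → ℕ → MvPolynomial (Y ⊕ Z) K) (f : MvPolynomial (Y ⊕ Z) K) (lam : ℝ)
    (k : ℕ), 0 < lam → (∀ t ∈ V, ∀ i, 1 ≤ i → BB al be (v t i) (Real.exp (-(lam * i)))) →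
    f ∈ CS K V v k →
    BB al be f (Real.exp (16 * V.card / lam ^ 2 - lam / 2 * k))

/-- Upper bound for all gates of a circuit. -/
def S_CircG : Prop :=
  ∀ (Y Z : Type) [Fintype Y] [Fintype Z] (K : Type) [Field K] [CharZero K] (al G : ℝ)
    (s D e r : ℕ) (F : Fin s → MvPolynomial (Y ⊕ Z) K) (d : Fin s → ℕ), 10 ≤ al →
    IsCirc e r F d → (∀ i, d i ≤ D) → (∀ i, F i ≠ 0 → constantCoeff (F i) ≠ 0) →
    Real.log (s + 1) + e + r + 1 ≤ G → 2 * ((257 * G) ^ (10 ^ (2 * D))) ^ 2 ≤ Real.exp (al / 2) →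
    ∀ i, ∀ k, 1 ≤ k → BB al (√2 * al) (homogeneousComponent k (F i))
      (Real.exp ((rg G (2 * D)).1 - (rg G (2 * D)).2 * k))

/-- Substitution of polynomials of degree at most `e'` into a circuit. -/
def S_CircSubstG : Prop :=
  ∀ (σ τ : Type) (K : Type) [Field K] (s e e' r : ℕ) (F : Fin s → MvPolynomial σ K)
    (d : Fin s → ℕ) (θ : σ → MvPolynomial τ K), IsCirc e r F d →
    (∀ i, (θ i).totalDegree ≤ e') → IsCirc (e * e') r (fun i => aeval θ (F i)) d

/-- An `IsCircuit` is an `IsCirc`. -/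
def S_CircOf : Prop :=
  ∀ (σ : Type) (K : Type) [Field K] (s e : ℕ) (F : Fin s → MvPolynomial σ K) (d : Fin s → ℕ),
    IsCircuit e F d → IsCirc e 0 F d

end Pool.Agent.Work.MP_499dc6_lc.CDG

end

section

/-!
# Upper bound for all gates of a circuit of bounded depth with general gates of small fan-in
-/

namespace Pool.Agent.Work.MP_499dc6_lc.CDG

open MvPolynomial Pool.Agent.Work.MP_499dc6_lc.CD

namespace NCircG

/-- A product gate or a function gate. -/
def IsNS {K σ : Type} [Field K] {s : ℕ} (r : ℕ) (F : Fin s → MvPolynomial σ K)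
    (d : Fin s → ℕ) (i : Fin s) : Prop :=
  (∃ k : Fin s → ℕ, (∀ j, k j ≠ 0 → j < i ∧ d j < d i) ∧ F i = ∏ j, F j ^ k j) ∨
    (∃ g : MvPolynomial (Fin s) K, g.vars.card ≤ r ∧ (∀ j ∈ g.vars, j < i ∧ d j < d i) ∧
      F i = aeval F g)

/-- Normal form: every gate is a polynomial of low degree plus a linear combination of product
and function gates. -/
theorem normal {K σ : Type} [Field K] {s : ℕ} (e r : ℕ) (F : Fin s → MvPolynomial σ K)
    (d : Fin s → ℕ) (hF : IsCirc e r F d) (i : Fin s) :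
    ∃ (l : MvPolynomial σ K) (c : Fin s → K), l.totalDegree ≤ e ∧
      (∀ j, c j ≠ 0 → d j ≤ d i ∧ IsNS r F d j) ∧ F i = l + ∑ j, C (c j) * F j := by
  classical
  induction i using WellFoundedLT.induction with
  | ind i ih =>
  rcases hF i with ⟨l, c, hl, hc, hi⟩ | hprod
  · have ih' : ∀ j : Fin s, ∃ (l' : MvPolynomial σ K) (c' : Fin s → K), j < i →
        (l'.totalDegree ≤ e ∧
        (∀ j', c' j' ≠ 0 → d j' ≤ d j ∧ IsNS r F d j') ∧ F j = l' + ∑ j', C (c' j') * F j') := by
      intro j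
      by_cases hj : j < i
      · obtain ⟨l', c', h⟩ := ih j hj
        exact ⟨l', c', fun _ => h⟩
      · exact ⟨0, 0, fun h => absurd h hj⟩
    choose L' C' hLC using ih'
    refine ⟨l + ∑ j, C (c j) * L' j, fun j' => ∑ j, c j * C' j j', ?_, ?_, ?_⟩
    · refine (totalDegree_add _ _).trans (max_le hl ?_)
      refine totalDegree_finsetSum_le fun j _ => ?_
      by_cases hcj : c j = 0
      · simp [hcj]
      · refine (totalDegree_mul _ _).trans ?_
        rw [totalDegree_C, zero_add]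
        exact (hLC j (hc j hcj).1).1
    · intro j' hj'
      obtain ⟨j, _, hj⟩ := Finset.exists_ne_zero_of_sum_ne_zero hj'
      have hcj : c j ≠ 0 := left_ne_zero_of_mul hj
      have hC : C' j j' ≠ 0 := right_ne_zero_of_mul hj
      obtain ⟨h1, h2⟩ := hc j hcj
      obtain ⟨h3, h4⟩ := (hLC j h1).2.1 j' hC
      exact ⟨h3.trans h2, h4⟩
    · have h1 : ∀ j, C (c j) * F j = C (c j) * L' j + ∑ j', C (c j * C' j j') * F j' := by
        intro j
        by_cases hcj : c j = 0
        · simp [hcj]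
        · conv_lhs => rw [(hLC j (hc j hcj).1).2.2]
          rw [mul_add, Finset.mul_sum]
          congr 1
          refine Finset.sum_congr rfl fun j' _ => ?_
          rw [C_mul]; ring
      rw [hi, Finset.sum_congr rfl fun j _ => h1 j, Finset.sum_add_distrib, ← add_assoc]
      congr 1
      rw [Finset.sum_comm]
      refine Finset.sum_congr rfl fun j' _ => ?_
      rw [map_sum, Finset.sum_mul]
  · refine ⟨0, Pi.single i 1, by simp, ?_, ?_⟩
    · intro j hj
      have hji : j = i := by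
        by_contra hne
        exact hj (Pi.single_eq_of_ne hne _)
      subst hji
      exact ⟨le_rfl, hprod⟩
    · rw [zero_add, Finset.sum_eq_single i]
      · simp
      · intro j _ hji
        simp [Pi.single_eq_of_ne hji]
      · simp

/-- Finite sums. -/
theorem sum {Y Z : Type} [Fintype Y] [Fintype Z] {K : Type} [Field K] {al be : ℝ}
    {ι : Type} (J : Finset ι) (f : ι → MvPolynomial (Y ⊕ Z) K) (E : ℝ)
    (h : ∀ j ∈ J, BB al be (f j) E) : BB al be (∑ j ∈ J, f j) (J.card * E) := by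
  classical
  induction J using Finset.induction_on with
  | empty => simpa using BB.zero
  | insert a J ha ih =>
    rw [Finset.sum_insert ha, Finset.card_insert_of_notMem ha]
    have h1 := h a (Finset.mem_insert_self _ _)
    have h2 := ih fun j hj => h j (Finset.mem_insert_of_mem hj)
    refine BB.mono (BB.add h1 h2) (le_of_eq ?_)
    push_cast
    ring

/-- Components of polynomials of degree at most `e`. -/
theorem low (hBBphi : S_BBphi) (hPhi : S_Phi) {Y Z : Type} [Fintype Y] [Fintype Z]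
    {K : Type} [Field K] {al : ℝ} (hal : 10 ≤ al) (e : ℕ) (he : (e : ℝ) ≤ Real.exp (al / 2))
    (l : MvPolynomial (Y ⊕ Z) K)
    (hl : l.totalDegree ≤ e) (k : ℕ) (hk : 1 ≤ k) (E : ℝ) (hE : 0 ≤ E) (hE3 : k ≤ e → 1 ≤ E) :
    BB al (√2 * al) (homogeneousComponent k l) E := by
  by_cases hk3 : k ≤ e
  · refine BB.mono (hBBphi Y Z K al (√2 * al) _ k (homogeneousComponent_isHomogeneous k l)) ?_
    refine le_trans (hPhi al k hal hk ?_) ?_
    · have h1 : (k : ℝ) ≤ e := by exact_mod_cast hk3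
      linarith
    · refine le_trans ?_ (hE3 hk3)
      rw [Real.exp_le_one_iff]
      have : 0 < (k : ℝ) := by exact_mod_cast hk
      have : 0 ≤ al / (6 * k) := by positivity
      linarith
  · have h0 : homogeneousComponent k l = 0 := by
      apply homogeneousComponent_eq_zero
      omega
    rw [h0]
    exact BB.mono BB.zero hE

/-- Non-sum gates of level `0` are constants. -/
theorem const {K σ : Type} [Field K] {s : ℕ} (r : ℕ) (F : Fin s → MvPolynomial σ K)
    (d : Fin s → ℕ) (j : Fin s) (hj : d j = 0) (h : IsNS r F d j) : (F j).totalDegree = 0 := by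
  rcases h with ⟨m, hm, hFj⟩ | ⟨g, -, hg, hFj⟩
  · rw [hFj]
    have h1 : ∏ j', F j' ^ m j' = 1 := by
      refine Finset.prod_eq_one fun j' _ => ?_
      have : m j' = 0 := by
        by_contra hne
        have := (hm j' hne).2
        omega
      rw [this, pow_zero]
    rw [h1, totalDegree_one]
  · have h1 : g.vars = ∅ := by
      rw [Finset.eq_empty_iff_forall_notMem]
      intro j' hj'
      have := (hg j' hj').2
      omega
    have ha := vars_eq_empty_iff_eq_C.1 h1
    rw [hFj, ha, aeval_C, algebraMap_eq, totalDegree_C]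

end NCircG

theorem pr_CircG (hProd : CD.S_Prod) (hSpanBB : CD.S_SpanBB) (hStep : CD.S_Step)
    (hRg : S_RgBound) (hFun : S_FunComp) (hCol : S_ColBB)
    (hBBsmul : CD.S_BBsmul) (hBBphi : CD.S_BBphi) (hPhi : CD.S_Phi) : S_CircG := by
  intro Y Z _ _ K _ _ al G s D e r F d hal hcirc hd hcc hG hbig
  classical
  have hs0 : (0 : ℝ) ≤ s := Nat.cast_nonneg s
  have he0 : (0 : ℝ) ≤ e := Nat.cast_nonneg e
  have hr0 : (0 : ℝ) ≤ r := Nat.cast_nonneg r
  have hs1 : (1 : ℝ) ≤ (s : ℝ) + 1 := by linarith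
  have hlog : 0 ≤ Real.log ((s : ℝ) + 1) := Real.log_nonneg hs1
  have hG1 : 1 ≤ G := by linarith
  have hGe : (e : ℝ) ≤ G := by linarith
  have hGr : (r : ℝ) + 1 ≤ G := by linarith
  have hexpGe : ((s : ℝ) + 1) * Real.exp e ≤ Real.exp G := by
    have h1 : ((s : ℝ) + 1) * Real.exp e = Real.exp (Real.log ((s : ℝ) + 1) + e) := by
      rw [Real.exp_add, Real.exp_log (by linarith)]
    rw [h1]
    apply Real.exp_le_exp.2
    linarith
  have hexpG : (s : ℝ) + 1 ≤ Real.exp G := by
    refine le_trans ?_ hexpGe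
    have : (1 : ℝ) ≤ Real.exp e := Real.one_le_exp he0
    nlinarith
  -- the size condition
  have hsize : ∀ j, j ≤ 2 * D → 2 * (rg G j).1 / (rg G j).2 ≤ Real.exp (al / 2) := by
    intro j hj
    obtain ⟨h1, h2, h3, h4, h5⟩ := hRg G j hG1
    refine le_trans ?_ hbig
    have hX : (257 * G) ^ (10 ^ j) ≤ (257 * G) ^ (10 ^ (2 * D)) :=
      pow_le_pow_right₀ (by linarith) (Nat.pow_le_pow_right (by norm_num) hj)
    have hX0 : 0 ≤ (257 * G) ^ (10 ^ j) := by positivity
    have h6 : (rg G j).1 * (1 / (rg G j).2) ≤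
        (257 * G) ^ (10 ^ (2 * D)) * (257 * G) ^ (10 ^ (2 * D)) := by
      apply mul_le_mul (h4.trans hX) (h5.trans hX)
      · positivity
      · positivity
    calc 2 * (rg G j).1 / (rg G j).2 = 2 * ((rg G j).1 * (1 / (rg G j).2)) := by ring
      _ ≤ 2 * ((257 * G) ^ (10 ^ (2 * D)) * (257 * G) ^ (10 ^ (2 * D))) := by linarith
      _ = _ := by ring
  have heb : (e : ℝ) ≤ Real.exp (al / 2) := by
    obtain ⟨h1, h2, h3, -, -⟩ := hRg G 0 hG1
    refine le_trans ?_ (hsize 0 (Nat.zero_le _))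
    rw [le_div_iff₀ h2]
    have h4 : (0 : ℝ) ≤ (rg G 0).1 := by linarith
    nlinarith
  -- combination of the two bounds
  have hcomb : ∀ (j : ℕ), j ≤ 2 * D → ∀ (f : MvPolynomial (Y ⊕ Z) K) (k : ℕ), 1 ≤ k →
      f.IsHomogeneous k → BB al (√2 * al) f (Real.exp ((rg G j).1 - (rg G j).2 * k)) →
      BB al (√2 * al) f (Real.exp (-((rg G j).2 ^ 2 / (4 * (rg G j).1 ^ 2) * k))) := by
    intro j hj f k hk hf hb
    obtain ⟨h1, h2, h3, h4, h5⟩ := hRg G j hG1
    rcases hStep al (rg G j).1 (rg G j).2 k hal (hG1.trans h1) h2 h3 hk (hsize j hj) with h | h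
    · exact BB.mono (hBBphi Y Z K al (√2 * al) f k hf) h
    · exact BB.mono hb h
  -- the claim
  have claim : ∀ D', D' ≤ D → ∀ i, d i ≤ D' → ∀ k, 1 ≤ k →
      BB al (√2 * al) (homogeneousComponent k (F i))
        (Real.exp ((rg G (2 * D')).1 - (rg G (2 * D')).2 * k)) := by
    intro D'
    induction D' with
    | zero =>
      intro _ i hi k hk
      obtain ⟨l, c, hl, hc, hFi⟩ := NCircG.normal e r F d hcirc i
      have hdeg : (F i).totalDegree ≤ e := by
        rw [hFi]
        refine (totalDegree_add _ _).trans (max_le hl ?_)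
        refine totalDegree_finsetSum_le fun j _ => ?_
        by_cases hcj : c j = 0
        · simp [hcj]
        · refine (totalDegree_mul _ _).trans ?_
          rw [totalDegree_C, zero_add, NCircG.const r F d j (by
            have := (hc j hcj).1
            omega) (hc j hcj).2]
          exact Nat.zero_le _
      apply NCircG.low hBBphi hPhi hal e heb _ hdeg k hk _ (Real.exp_pos _).le
      intro hk3
      apply Real.one_le_exp
      have : (k : ℝ) ≤ e := by exact_mod_cast hk3
      simp only [rg]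
      linarith
    | succ D' ih =>
      intro hD i hi k hk
      have ih' := ih (by omega)
      -- constants
      obtain ⟨a1, a2, a3, -, -⟩ := hRg G (2 * D') hG1
      obtain ⟨b1, b2, b3, -, -⟩ := hRg G (2 * D' + 1) hG1
      have hrc1 : rg G (2 * D' + 1) =
          (G + 16 * G / ((rg G (2 * D')).2 ^ 2 / (4 * (rg G (2 * D')).1 ^ 2)) ^ 2,
            ((rg G (2 * D')).2 ^ 2 / (4 * (rg G (2 * D')).1 ^ 2)) / 2) := rfl
      have hrc2 : rg G (2 * (D' + 1)) =
          (G + 16 * G / ((rg G (2 * D' + 1)).2 ^ 2 / (4 * (rg G (2 * D' + 1)).1 ^ 2)) ^ 2,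
            ((rg G (2 * D' + 1)).2 ^ 2 / (4 * (rg G (2 * D' + 1)).1 ^ 2)) / 2) := rfl
      have hlm : (rg G (2 * D' + 1)).2 =
          ((rg G (2 * D')).2 ^ 2 / (4 * (rg G (2 * D')).1 ^ 2)) / 2 := rfl
      set l1 := (rg G (2 * D')).2 ^ 2 / (4 * (rg G (2 * D')).1 ^ 2) with hl1
      set l2 := (rg G (2 * D' + 1)).2 ^ 2 / (4 * (rg G (2 * D' + 1)).1 ^ 2) with hl2
      have hl1pos : 0 < l1 := by
        have : 0 < (rg G (2 * D')).1 := by linarith
        positivity
      have hl2pos : 0 < l2 := by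
        have : 0 < (rg G (2 * D' + 1)).1 := by linarith
        positivity
      have hl2lm : l2 ≤ (rg G (2 * D' + 1)).2 := by
        rw [hl2, div_le_iff₀ (by have : 0 < (rg G (2 * D' + 1)).1 := by linarith
                                 positivity)]
        have h1 : (1 : ℝ) ≤ (rg G (2 * D' + 1)).1 := by linarith
        have h2 : (1 : ℝ) ≤ 4 * (rg G (2 * D' + 1)).1 ^ 2 := by nlinarith
        have h3 : (rg G (2 * D' + 1)).2 ^ 2 ≤ (rg G (2 * D' + 1)).2 := by nlinarith
        nlinarith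
      have hl2le : l2 ≤ 1 := hl2lm.trans b3
      have hl21 : l2 ≤ l1 := by
        rw [hlm] at hl2lm
        linarith
      set E := Real.exp (e + 16 * (r + 1) / l2 ^ 2 - l2 / 2 * k) with hE
      have hEpos : 0 < E := Real.exp_pos _
      -- non-sum gates
      have hprod : ∀ j, d j ≤ D' + 1 → NCircG.IsNS r F d j →
          BB al (√2 * al) (homogeneousComponent k (F j)) E := by
        rintro j hj (⟨m, hm, hFj⟩ | ⟨g, hgr, hg, hFj⟩)
        · by_cases hzero : ∃ j', m j' ≠ 0 ∧ F j' = 0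
          · obtain ⟨j', hmj', hFj'⟩ := hzero
            have : F j = 0 := by
              rw [hFj]
              apply Finset.prod_eq_zero (Finset.mem_univ j')
              rw [hFj', zero_pow hmj']
            rw [this, map_zero]
            exact BB.mono BB.zero (Real.exp_pos _).le
          · push Not at hzero
            obtain ⟨w, hw1, hw2, hw3⟩ := hProd Y Z K al (√2 * al) (Fin s) F m l1 hl1pos
              (fun j' hj' => hcc j' (hzero j' hj'))
              (fun j' hj' k' hk' => by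
                apply hcomb (2 * D') (by omega) _ k' hk' (homogeneousComponent_isHomogeneous k' _)
                apply ih' j' _ k' hk'
                have := (hm j' hj').2
                omega)
            have hwBB : ∀ k', 1 ≤ k' → BB al (√2 * al) (w k') (Real.exp (-(l2 * k'))) := by
              intro k' hk'
              apply hcomb (2 * D' + 1) (by omega) _ k' hk' (hw1 k')
              refine BB.mono (hw2 k' hk') ?_
              rw [hrc1, Fintype.card_fin]
              simp only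
              have h1 : Real.exp (G + 16 * G / l1 ^ 2 - l1 / 2 * k') =
                  Real.exp G * Real.exp (16 * G / l1 ^ 2 - l1 / 2 * k') := by
                rw [← Real.exp_add]; congr 1; ring
              rw [h1]
              have h2 : Real.exp (16 / l1 ^ 2 - l1 / 2 * k') ≤
                  Real.exp (16 * G / l1 ^ 2 - l1 / 2 * k') := by
                apply Real.exp_le_exp.2
                have h3 : 16 / l1 ^ 2 ≤ 16 * G / l1 ^ 2 := by
                  apply div_le_div_of_nonneg_right _ (by positivity)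
                  linarith
                linarith
              apply mul_le_mul _ h2 (Real.exp_pos _).le (Real.exp_pos _).le
              linarith
            have h2 := hw3 k hk
            rw [← hFj] at h2
            refine BB.mono (hSpanBB Y Z K al (√2 * al) w _ l2 k hl2pos hwBB h2) ?_
            apply Real.exp_le_exp.2
            have h3 : 16 / l2 ^ 2 ≤ 16 * (r + 1) / l2 ^ 2 := by
              apply div_le_div_of_nonneg_right _ (by positivity)
              linarith
            linarith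
        · have h1 : homogeneousComponent k (F j) ∈
              CS K g.vars (fun t i => homogeneousComponent i (F t)) k := by
            rw [hFj]
            exact hFun (Y ⊕ Z) (Fin s) K g F k
          refine BB.mono (hCol Y Z K al (√2 * al) (Fin s) g.vars
            (fun t i => homogeneousComponent i (F t)) _ l2 k hl2pos (fun t ht k' hk' => ?_) h1) ?_
          · refine BB.mono (hcomb (2 * D') (by omega) _ k' hk'
              (homogeneousComponent_isHomogeneous k' _) (ih' t (by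
                have := (hg t ht).2
                omega) k' hk')) ?_
            apply Real.exp_le_exp.2
            rw [← hl1]
            have h3 : l2 * k' ≤ l1 * k' :=
              mul_le_mul_of_nonneg_right hl21 (Nat.cast_nonneg _)
            linarith
          · apply Real.exp_le_exp.2
            have h3 : 16 * (g.vars.card : ℝ) / l2 ^ 2 ≤ 16 * (r + 1) / l2 ^ 2 := by
              apply div_le_div_of_nonneg_right _ (by positivity)
              have : (g.vars.card : ℝ) ≤ r := by exact_mod_cast hgr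
              linarith
            linarith
      obtain ⟨l, c, hl, hc, hFi⟩ := NCircG.normal e r F d hcirc i
      have hE3 : k ≤ e → 1 ≤ E := by
        intro hk3
        apply Real.one_le_exp
        have h1 : (k : ℝ) ≤ e := by exact_mod_cast hk3
        have h2 : 0 ≤ 16 * ((r : ℝ) + 1) / l2 ^ 2 := by positivity
        have h3 : (0 : ℝ) ≤ k := Nat.cast_nonneg k
        nlinarith
      have hcomp : homogeneousComponent k (F i) =
          homogeneousComponent k l + ∑ j, C (c j) * homogeneousComponent k (F j) := by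
        conv_lhs => rw [hFi]
        rw [map_add, map_sum]
        congr 1
        refine Finset.sum_congr rfl fun j _ => ?_
        rw [homogeneousComponent_C_mul]
      rw [hcomp]
      have hpart1 := NCircG.low hBBphi hPhi hal e heb l hl k hk E hEpos.le hE3
      have hpart2 : BB al (√2 * al) (∑ j, C (c j) * homogeneousComponent k (F j))
          ((Finset.univ : Finset (Fin s)).card * E) := by
        apply NCircG.sum
        intro j _
        by_cases hcj : c j = 0
        · rw [hcj, C_0, zero_mul]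
          exact BB.mono BB.zero hEpos.le
        · obtain ⟨h1, h2⟩ := hc j hcj
          exact hBBsmul Y Z K al (√2 * al) _ _ _ (hprod j (h1.trans hi) h2)
      refine BB.mono (BB.add hpart1 hpart2) ?_
      rw [Finset.card_univ, Fintype.card_fin, hrc2]
      simp only
      have h1 : E = Real.exp e * Real.exp (16 * (r + 1) / l2 ^ 2 - l2 / 2 * k) := by
        rw [hE, ← Real.exp_add]; congr 1; ring
      have h2 : Real.exp (16 * (r + 1) / l2 ^ 2 - l2 / 2 * k) ≤
          Real.exp (16 * G / l2 ^ 2 - l2 / 2 * k) := by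
        apply Real.exp_le_exp.2
        have h3 : 16 * ((r : ℝ) + 1) / l2 ^ 2 ≤ 16 * G / l2 ^ 2 := by
          apply div_le_div_of_nonneg_right _ (by positivity)
          linarith
        linarith
      calc E + (s : ℝ) * E = ((s : ℝ) + 1) * Real.exp e *
            Real.exp (16 * (r + 1) / l2 ^ 2 - l2 / 2 * k) := by rw [h1]; ring
        _ ≤ Real.exp G * Real.exp (16 * G / l2 ^ 2 - l2 / 2 * k) :=
            mul_le_mul hexpGe h2 (Real.exp_pos _).le (Real.exp_pos _).le
        _ = _ := by rw [← Real.exp_add]; congr 1; ring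
  intro i k hk
  exact claim D le_rfl i (hd i) k hk

end Pool.Agent.Work.MP_499dc6_lc.CDG

end

section

/-! Item ColBB: measure of an element of `CS`. -/

namespace Pool.Agent.Work.MP_499dc6_lc.CDG

open MvPolynomial Pool.Agent.Work.MP_499dc6_lc.CD

namespace NColBB

variable {Y Z : Type} [Fintype Y] [Fintype Z] {K : Type} [Field K] {al be : ℝ}

theorem bb_sum {ι : Type} (S : Finset ι) (g : ι → MvPolynomial (Y ⊕ Z) K) (c : ℝ)
    (h : ∀ i ∈ S, BB al be (g i) c) : BB al be (∑ i ∈ S, g i) (S.card * c) := by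
  classical
  induction S using Finset.induction_on with
  | empty => simpa using (BB.zero : BB al be (0 : MvPolynomial (Y ⊕ Z) K) 0)
  | insert a s ha ih =>
    rw [Finset.sum_insert ha, Finset.card_insert_of_notMem ha]
    have h1 := BB.add (h a (Finset.mem_insert_self _ _))
      (ih fun i hi => h i (Finset.mem_insert_of_mem hi))
    have h2 : ((s.card + 1 : ℕ) : ℝ) * c = c + s.card * c := by push_cast; ring
    rw [h2]
    exact h1

theorem bb_prod (h2 : CD.S_BBmul) (h3 : CD.S_BBone) {τ : Type} (V : Finset τ)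
    (v : τ → ℕ → MvPolynomial (Y ⊕ Z) K) (lam : ℝ)
    (hv : ∀ t ∈ V, ∀ i, 1 ≤ i → BB al be (v t i) (Real.exp (-(lam * i))))
    (M : Multiset (τ × ℕ)) :
    (∀ p ∈ M, p.1 ∈ V ∧ 1 ≤ p.2) →
    BB al be (M.map fun p => v p.1 p.2).prod (Real.exp (-(lam * ((M.map Prod.snd).sum : ℕ)))) := by
  induction M using Multiset.induction_on with
  | empty =>
    intro _
    simpa using h3 Y Z K al be
  | cons p M ih =>
    intro hM
    rw [Multiset.map_cons, Multiset.prod_cons, Multiset.map_cons, Multiset.sum_cons]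
    have h4 := hv p.1 (hM p (Multiset.mem_cons_self _ _)).1 p.2 (hM p (Multiset.mem_cons_self _ _)).2
    have h5 := h2 Y Z K al be _ _ _ _ h4 (ih fun q hq => hM q (Multiset.mem_cons_of_mem hq))
    rw [← Real.exp_add] at h5
    have h6 : -(lam * ((p.2 + (M.map Prod.snd).sum : ℕ) : ℝ)) =
        -(lam * p.2) + -(lam * ((M.map Prod.snd).sum : ℕ)) := by push_cast; ring
    rw [h6]
    exact h5

end NColBB

theorem pr_ColBB (h1 : CD.S_BBsmul) (h2 : CD.S_BBmul) (h3 : CD.S_BBone) (h4 : S_ColCount) :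
    S_ColBB := by
  classical
  intro Y Z _ _ K _ al be τ V v f lam k hlam hv hf
  obtain ⟨T, hT, hcard⟩ := h4 τ V k (lam / 2) (by positivity)
  obtain ⟨T', hT'⟩ : ∃ T', T' = T.filter (fun M => (∀ p ∈ M, p.1 ∈ V ∧ 1 ≤ p.2) ∧
    (M.map Prod.snd).sum = k) := ⟨_, rfl⟩
  obtain ⟨W, hW⟩ : ∃ W : Finset (MvPolynomial (Y ⊕ Z) K),
    W = T'.image (fun M => (M.map fun p => v p.1 p.2).prod) := ⟨_, rfl⟩
  have hset : {a | ∃ M : Multiset (τ × ℕ), (∀ p ∈ M, p.1 ∈ V ∧ 1 ≤ p.2) ∧
      (M.map Prod.snd).sum = k ∧ a = (M.map fun p => v p.1 p.2).prod} =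
      (W : Set (MvPolynomial (Y ⊕ Z) K)) := by
    ext a
    rw [hW, hT']
    simp only [Finset.coe_image, Finset.coe_filter, Set.mem_image, Set.mem_ofPred_eq]
    constructor
    · rintro ⟨M, hM1, hM2, rfl⟩
      exact ⟨M, ⟨hT M hM1 hM2, hM1, hM2⟩, rfl⟩
    · rintro ⟨M, ⟨_, hM1, hM2⟩, rfl⟩
      exact ⟨M, hM1, hM2, rfl⟩
  unfold CS at hf
  rw [hset, Submodule.mem_span_finset] at hf
  obtain ⟨g, -, hg⟩ := hf
  have hWbb : ∀ a ∈ W, BB al be a (Real.exp (-(lam * k))) := by
    intro a ha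
    rw [hW, Finset.mem_image] at ha
    obtain ⟨M, hM, rfl⟩ := ha
    rw [hT', Finset.mem_filter] at hM
    have h5 := NColBB.bb_prod h2 h3 V v lam hv M hM.2.1
    rw [hM.2.2] at h5
    exact h5
  have hsum := NColBB.bb_sum (al := al) (be := be) W (fun a => g a • a) (Real.exp (-(lam * k)))
    (fun a ha => by
      show BB al be (g a • a) _
      rw [MvPolynomial.smul_eq_C_mul]
      exact h1 Y Z K al be _ _ _ (hWbb a ha))
  rw [hg] at hsum
  refine BB.mono hsum ?_
  have hc1 : (W.card : ℝ) ≤ T.card := by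
    have : W.card ≤ T.card := by
      rw [hW]
      refine Finset.card_image_le.trans ?_
      rw [hT']
      exact Finset.card_filter_le _ _
    exact_mod_cast this
  have hc2 : (W.card : ℝ) ≤ Real.exp (lam / 2 * k + 16 * V.card / lam ^ 2) := by
    refine (hc1.trans hcard).trans (Real.exp_le_exp.2 (le_of_eq ?_))
    have : (4 : ℝ) * V.card / (lam / 2) ^ 2 = 16 * V.card / lam ^ 2 := by
      field_simp
      ring
    rw [this]
  calc (W.card : ℝ) * Real.exp (-(lam * k))
      ≤ Real.exp (lam / 2 * k + 16 * V.card / lam ^ 2) * Real.exp (-(lam * k)) :=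
        mul_le_mul_of_nonneg_right hc2 (Real.exp_pos _).le
    _ = Real.exp (16 * V.card / lam ^ 2 - lam / 2 * k) := by
        rw [← Real.exp_add]
        congr 1
        ring

end Pool.Agent.Work.MP_499dc6_lc.CDG

end

section

/-!
# The number of coloured partitions
-/

namespace Pool.Agent.Work.MP_499dc6_lc.CDG

open Pool.Agent.Work.MP_499dc6_lc.CD

namespace NColCount

theorem count_mul_le {τ : Type} [DecidableEq (τ × ℕ)] (M : Multiset (τ × ℕ)) (p : τ × ℕ) :
    M.count p * p.2 ≤ (M.map Prod.snd).sum := by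
  rw [Finset.sum_multiset_map_count]
  by_cases hp : p ∈ M
  · have h1 := Finset.single_le_sum (f := fun m : τ × ℕ => Multiset.count m M • m.2)
      (fun _ _ => Nat.zero_le _) (Multiset.mem_toFinset.2 hp)
    simpa using h1
  · rw [Multiset.count_eq_zero_of_notMem hp, zero_mul]
    exact Nat.zero_le _

theorem mem_index {τ : Type} [DecidableEq (τ × ℕ)] (V : Finset τ) (k : ℕ)
    (M : Multiset (τ × ℕ))
    (h1 : ∀ p ∈ M, p.1 ∈ V ∧ 1 ≤ p.2) (h2 : (M.map Prod.snd).sum = k) :
    M.toFinset ⊆ V ×ˢ Finset.Icc 1 k := by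
  intro p hp
  rw [Multiset.mem_toFinset] at hp
  rw [Finset.mem_product, Finset.mem_Icc]
  refine ⟨(h1 p hp).1, (h1 p hp).2, ?_⟩
  rw [← h2]
  exact Multiset.single_le_sum (fun _ _ => Nat.zero_le _) _ (Multiset.mem_map_of_mem _ hp)

theorem sum_count {τ : Type} [DecidableEq (τ × ℕ)] (V : Finset τ) (k : ℕ)
    (M : Multiset (τ × ℕ))
    (h1 : ∀ p ∈ M, p.1 ∈ V ∧ 1 ≤ p.2) (h2 : (M.map Prod.snd).sum = k) :
    ∑ p : ↥(V ×ˢ Finset.Icc 1 k), M.count (p : τ × ℕ) * (p : τ × ℕ).2 = k := by
  rw [Finset.sum_coe_sort (V ×ˢ Finset.Icc 1 k) (fun p : τ × ℕ => M.count p * p.2)]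
  rw [← Finset.sum_subset (mem_index V k M h1 h2) (fun p _ hp => by
    rw [Multiset.mem_toFinset] at hp
    rw [Multiset.count_eq_zero_of_notMem hp, zero_mul])]
  rw [Finset.sum_multiset_map_count] at h2
  simpa using h2

theorem eq_sum {τ : Type} [DecidableEq (τ × ℕ)] (V : Finset τ) (k : ℕ)
    (M : Multiset (τ × ℕ))
    (h1 : ∀ p ∈ M, p.1 ∈ V ∧ 1 ≤ p.2) (h2 : (M.map Prod.snd).sum = k) :
    ∑ p : ↥(V ×ˢ Finset.Icc 1 k), M.count (p : τ × ℕ) • ({(p : τ × ℕ)} : Multiset (τ × ℕ)) = M := by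
  rw [Finset.sum_coe_sort (V ×ˢ Finset.Icc 1 k)
    (fun p : τ × ℕ => M.count p • ({p} : Multiset (τ × ℕ)))]
  rw [← Finset.sum_subset (mem_index V k M h1 h2) (fun p _ hp => by
    rw [Multiset.mem_toFinset] at hp
    rw [Multiset.count_eq_zero_of_notMem hp, zero_nsmul])]
  exact Multiset.toFinset_sum_count_nsmul_eq M

theorem sum_bound {τ : Type} (V : Finset τ) (k : ℕ) (e : ℝ) (he : 0 < e) :
    ∑ p ∈ V ×ˢ Finset.Icc 1 k, 2 / (e * (p.2 : ℝ)) ^ 2 ≤ 4 * V.card / e ^ 2 := by
  rw [Finset.sum_product]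
  simp only
  rw [Finset.sum_const, nsmul_eq_mul]
  have h1 : ∑ i ∈ Finset.Icc 1 k, 2 / (e * (i : ℝ)) ^ 2 =
      2 / e ^ 2 * ∑ i ∈ Finset.range k, (1 : ℝ) / ((i : ℝ) + 1) ^ 2 := by
    have e0 : Finset.Icc 1 k = Finset.Ico (0 + 1) (k + 1) := by
      ext i
      rw [Finset.mem_Icc, Finset.mem_Ico]
      omega
    rw [e0, ← Finset.sum_Ico_add' (fun i : ℕ => 2 / (e * (i : ℝ)) ^ 2) 0 k 1, Finset.mul_sum,
      Finset.range_eq_Ico]
    refine Finset.sum_congr rfl fun i _ => ?_
    have h0 : (0 : ℝ) < (i : ℝ) + 1 := by positivity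
    push_cast
    rw [mul_pow]
    field_simp
  rw [h1]
  have h2 := Part_sq' k
  calc (V.card : ℝ) * (2 / e ^ 2 * ∑ i ∈ Finset.range k, (1 : ℝ) / ((i : ℝ) + 1) ^ 2)
      ≤ (V.card : ℝ) * (2 / e ^ 2 * 2) := by
        refine mul_le_mul_of_nonneg_left (mul_le_mul_of_nonneg_left h2 (by positivity))
          (by positivity)
    _ = 4 * V.card / e ^ 2 := by ring

end NColCount

open NColCount in
theorem pr_ColCount : S_ColCount := by
  intro τ V k e he
  classical
  set I : Finset (τ × ℕ) := V ×ˢ Finset.Icc 1 k with hI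
  set F : Finset (↥I → ℕ) := (Fintype.piFinset (fun _ : ↥I => Finset.range (k + 1))).filter
    (fun c => ∑ p : ↥I, c p * (p : τ × ℕ).2 = k) with hF
  refine ⟨F.image (fun c => ∑ p : ↥I, c p • ({(p : τ × ℕ)} : Multiset (τ × ℕ))), ?_, ?_⟩
  · intro M h1 h2
    rw [Finset.mem_image]
    refine ⟨fun p => M.count (p : τ × ℕ), ?_, eq_sum V k M h1 h2⟩
    rw [hF, Finset.mem_filter, Fintype.mem_piFinset]
    refine ⟨fun p => ?_, sum_count V k M h1 h2⟩
    rw [Finset.mem_range]
    have h3 := count_mul_le M (p : τ × ℕ)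
    rw [h2] at h3
    have h4 : (p : τ × ℕ).1 ∈ V ∧ (p : τ × ℕ).2 ∈ Finset.Icc 1 k := Finset.mem_product.1 p.2
    rw [Finset.mem_Icc] at h4
    have h5 : M.count (p : τ × ℕ) * 1 ≤ M.count (p : τ × ℕ) * (p : τ × ℕ).2 :=
      Nat.mul_le_mul_left _ h4.2.1
    omega
  · have h0 : ((F.image (fun c => ∑ p : ↥I, c p • ({(p : τ × ℕ)} : Multiset (τ × ℕ)))).card : ℝ)
        ≤ F.card := by
      exact_mod_cast Finset.card_image_le
    refine h0.trans ?_
    set x : ↥I → ℝ := fun p => Real.exp (-(e * ((p : τ × ℕ).2 : ℝ))) with hx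
    have h1 : ∀ c ∈ F, (1 : ℝ) = Real.exp (e * k) * ∏ p : ↥I, x p ^ (c p) := by
      intro c hc
      rw [hF, Finset.mem_filter] at hc
      have e1 : ∏ p : ↥I, x p ^ (c p) = Real.exp (-(e * k)) := by
        have e2 : ∀ p : ↥I, x p ^ (c p) =
            Real.exp (-(e * ((c p * (p : τ × ℕ).2 : ℕ) : ℝ))) := by
          intro p
          rw [hx, ← Real.exp_nat_mul]
          congr 1
          push_cast
          ring
        rw [Finset.prod_congr rfl fun p _ => e2 p, ← Real.exp_sum]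
        congr 1
        rw [Finset.sum_neg_distrib, ← Finset.mul_sum, ← Nat.cast_sum, hc.2]
      rw [e1, ← Real.exp_add, add_neg_cancel, Real.exp_zero]
    have h2 : (F.card : ℝ) = Real.exp (e * k) * ∑ c ∈ F, ∏ p : ↥I, x p ^ (c p) := by
      rw [Finset.mul_sum, ← Finset.sum_congr rfl h1, Finset.sum_const, nsmul_eq_mul, mul_one]
    have h3 : ∑ c ∈ F, ∏ p : ↥I, x p ^ (c p) ≤
        ∑ c ∈ Fintype.piFinset (fun _ : ↥I => Finset.range (k + 1)), ∏ p : ↥I, x p ^ (c p) := by
      refine Finset.sum_le_sum_of_subset_of_nonneg (Finset.filter_subset _ _)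
        (fun _ _ _ => Finset.prod_nonneg fun _ _ => by positivity)
    rw [← Finset.prod_univ_sum (fun _ : ↥I => Finset.range (k + 1)) (fun p c => x p ^ c)] at h3
    have h4 : ∏ p : ↥I, ∑ c ∈ Finset.range (k + 1), x p ^ c ≤
        ∏ p : ↥I, Real.exp (2 / (e * ((p : τ × ℕ).2 : ℝ)) ^ 2) := by
      refine Finset.prod_le_prod (fun _ _ => Finset.sum_nonneg fun _ _ => by positivity)
        (fun p _ => Part_geom _ ?_ k)
      have h5 : (p : τ × ℕ).1 ∈ V ∧ (p : τ × ℕ).2 ∈ Finset.Icc 1 k := Finset.mem_product.1 p.2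
      rw [Finset.mem_Icc] at h5
      have h6 : (0 : ℝ) < ((p : τ × ℕ).2 : ℝ) := by exact_mod_cast h5.2.1
      positivity
    have h5 : ∏ p : ↥I, Real.exp (2 / (e * ((p : τ × ℕ).2 : ℝ)) ^ 2) ≤
        Real.exp (4 * V.card / e ^ 2) := by
      rw [← Real.exp_sum, Real.exp_le_exp,
        Finset.sum_coe_sort I (fun p : τ × ℕ => 2 / (e * (p.2 : ℝ)) ^ 2)]
      exact sum_bound V k e he
    rw [h2, Real.exp_add]
    exact mul_le_mul_of_nonneg_left (h3.trans (h4.trans h5)) (Real.exp_pos _).le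

end Pool.Agent.Work.MP_499dc6_lc.CDG

end

section

set_option autoImplicit false

namespace Pool.Agent.Work.MP_499dc6_lc.CDG

open MvPolynomial Pool.Agent.Work.MP_499dc6_lc.CD
open scoped Pointwise

namespace NFunComp

variable {K : Type} [Field K] {A τ : Type} [CommRing A] [Algebra K A]

theorem mul_mem (V : Finset τ) (v : τ → ℕ → A) (k k' : ℕ) (a b : A)
    (ha : a ∈ CS K V v k) (hb : b ∈ CS K V v k') : a * b ∈ CS K V v (k + k') := by
  have h := Submodule.mul_mem_mul ha hb
  unfold CS at h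
  rw [Submodule.span_mul_span] at h
  refine Submodule.span_mono ?_ h
  rintro _ ⟨x, ⟨M, hM, hk, rfl⟩, y, ⟨M', hM', hk', rfl⟩, rfl⟩
  refine ⟨M + M', ?_, ?_, ?_⟩
  · intro p hp
    rcases Multiset.mem_add.1 hp with hp | hp
    · exact hM p hp
    · exact hM' p hp
  · rw [Multiset.map_add, Multiset.sum_add, hk, hk']
  · rw [Multiset.map_add, Multiset.prod_add]

theorem one_mem (V : Finset τ) (v : τ → ℕ → A) : (1 : A) ∈ CS K V v 0 := by
  refine Submodule.subset_span ⟨0, ?_, ?_, ?_⟩
  · intro p hp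
    exact absurd hp (Multiset.notMem_zero p)
  · simp
  · simp

theorem single_mem (V : Finset τ) (v : τ → ℕ → A) (t : τ) (ht : t ∈ V) (k : ℕ) (hk : 1 ≤ k) :
    v t k ∈ CS K V v k := by
  refine Submodule.subset_span ⟨{(t, k)}, ?_, ?_, ?_⟩
  · intro p hp
    rw [Multiset.mem_singleton.1 hp]
    exact ⟨ht, hk⟩
  · simp
  · simp

end NFunComp

section

variable {σ τ : Type} {K : Type} [Field K]

/-- all homogeneous components are in the span -/
def NFunComp.good (V : Finset τ) (v : τ → MvPolynomial σ K) (f : MvPolynomial σ K) : Prop :=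
  ∀ k, homogeneousComponent k f ∈ CS K V (fun t i => homogeneousComponent i (v t)) k

theorem NFunComp.good_C (V : Finset τ) (v : τ → MvPolynomial σ K) (c : K) :
    NFunComp.good V v (C c) := by
  intro k
  rw [homogeneousComponent_of_mem (n := 0)
    ((mem_homogeneousSubmodule 0 _).2 (isHomogeneous_C σ c))]
  split_ifs with h
  · subst h
    have : (C c : MvPolynomial σ K) = c • 1 := by
      rw [smul_eq_C_mul, mul_one]
    rw [this]
    exact Submodule.smul_mem _ _ (NFunComp.one_mem V _)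
  · exact Submodule.zero_mem _

theorem NFunComp.good_add (V : Finset τ) (v : τ → MvPolynomial σ K) (f g : MvPolynomial σ K)
    (hf : NFunComp.good V v f) (hg : NFunComp.good V v g) : NFunComp.good V v (f + g) := by
  intro k
  rw [map_add]
  exact Submodule.add_mem _ (hf k) (hg k)

theorem NFunComp.good_mul (hmul : S_HcMul) (V : Finset τ) (v : τ → MvPolynomial σ K)
    (f g : MvPolynomial σ K)
    (hf : NFunComp.good V v f) (hg : NFunComp.good V v g) : NFunComp.good V v (f * g) := by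
  intro k
  rw [hmul σ K f g k]
  refine Submodule.sum_mem _ fun p hp => ?_
  have hp' : p.1 + p.2 = k := Finset.HasAntidiagonal.mem_antidiagonal.1 hp
  rw [← hp']
  exact NFunComp.mul_mem V _ _ _ _ _ (hf p.1) (hg p.2)

theorem NFunComp.good_var (V : Finset τ) (v : τ → MvPolynomial σ K) (t : τ) (ht : t ∈ V) :
    NFunComp.good V v (v t) := by
  intro k
  rcases Nat.eq_zero_or_pos k with rfl | hk
  · rw [homogeneousComponent_zero]
    have h := NFunComp.good_C V v (coeff 0 (v t)) 0
    rw [homogeneousComponent_of_mem (n := 0)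
      ((mem_homogeneousSubmodule 0 _).2 (isHomogeneous_C σ _)), if_pos rfl] at h
    exact h
  · exact NFunComp.single_mem V (fun t i => homogeneousComponent i (v t)) t ht k hk

theorem NFunComp.good_pow (hmul : S_HcMul) (V : Finset τ) (v : τ → MvPolynomial σ K)
    (f : MvPolynomial σ K) (hf : NFunComp.good V v f) (n : ℕ) : NFunComp.good V v (f ^ n) := by
  induction n with
  | zero =>
    rw [pow_zero, ← C_1]
    exact NFunComp.good_C V v 1
  | succ n ih =>
    rw [pow_succ]
    exact NFunComp.good_mul hmul V v _ _ ih hf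

theorem NFunComp.good_prod (hmul : S_HcMul) (V : Finset τ) (v : τ → MvPolynomial σ K)
    {ι : Type} (s : Finset ι) (f : ι → MvPolynomial σ K)
    (hf : ∀ i ∈ s, NFunComp.good V v (f i)) : NFunComp.good V v (∏ i ∈ s, f i) := by
  classical
  induction s using Finset.induction_on with
  | empty =>
    rw [Finset.prod_empty, ← C_1]
    exact NFunComp.good_C V v 1
  | insert a s ha ih =>
    rw [Finset.prod_insert ha]
    exact NFunComp.good_mul hmul V v _ _ (hf a (Finset.mem_insert_self a s))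
      (ih fun i hi => hf i (Finset.mem_insert_of_mem hi))

theorem NFunComp.good_sum (V : Finset τ) (v : τ → MvPolynomial σ K)
    {ι : Type} (s : Finset ι) (f : ι → MvPolynomial σ K)
    (hf : ∀ i ∈ s, NFunComp.good V v (f i)) : NFunComp.good V v (∑ i ∈ s, f i) := by
  intro k
  rw [map_sum]
  exact Submodule.sum_mem _ fun i hi => hf i hi k

end

theorem pr_FunComp (hmul : S_HcMul) : S_FunComp := by
  intro σ τ K _ g v k
  have h : NFunComp.good g.vars v (aeval v g) := by
    rw [aeval_def, eval₂_eq]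
    refine NFunComp.good_sum g.vars v _ _ fun d hd => ?_
    refine NFunComp.good_mul hmul g.vars v _ _ (NFunComp.good_C g.vars v _) ?_
    refine NFunComp.good_prod hmul g.vars v _ _ fun t ht => ?_
    exact NFunComp.good_pow hmul g.vars v _
      (NFunComp.good_var g.vars v t ((mem_vars t).2 ⟨d, hd, ht⟩)) _
  exact h k

end Pool.Agent.Work.MP_499dc6_lc.CDG

end

section

/-!
# MP_499dc6_lc, CDG: the recursion `rg` (helper61, after helper85's `I_Rc`)
-/

namespace Pool.Agent.Work.MP_499dc6_lc.CDG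

namespace NRg

theorem aux (G sg lm B : ℝ) (hG : 1 ≤ G) (hGs : G ≤ sg) (hl0 : 0 < lm) (hl1 : lm ≤ 1)
    (h1 : 257 * sg ≤ B) (h2 : 257 / lm ≤ B) :
    G ≤ G + 16 * G / (lm ^ 2 / (4 * sg ^ 2)) ^ 2 ∧ 0 < lm ^ 2 / (4 * sg ^ 2) / 2 ∧
    lm ^ 2 / (4 * sg ^ 2) / 2 ≤ 1 ∧
    257 * (G + 16 * G / (lm ^ 2 / (4 * sg ^ 2)) ^ 2) ≤ B ^ 10 ∧
    257 / (lm ^ 2 / (4 * sg ^ 2) / 2) ≤ B ^ 10 := by
  have hG0 : 0 < G := by linarith
  have hs1 : 1 ≤ sg := hG.trans hGs
  have hs0 : 0 < sg := by linarith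
  obtain ⟨M, hM⟩ : ∃ M, M = B / 257 := ⟨_, rfl⟩
  have hB : B = 257 * M := by rw [hM]; ring
  have hM1 : sg ≤ M := by rw [hM, le_div_iff₀ (by norm_num)]; linarith
  have hM2 : 1 / lm ≤ M := by
    rw [hM, le_div_iff₀ (by norm_num)]
    calc 1 / lm * 257 = 257 / lm := by ring
      _ ≤ B := h2
  have hMp : 1 ≤ M := hs1.trans hM1
  have e1 : 16 * G / (lm ^ 2 / (4 * sg ^ 2)) ^ 2 = 256 * (G * (sg ^ 4 * (1 / lm) ^ 4)) := by
    field_simp
    ring
  have e2 : 257 / (lm ^ 2 / (4 * sg ^ 2) / 2) = 257 * (8 * (sg ^ 2 * (1 / lm) ^ 2)) := by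
    field_simp
    ring
  have hGM : G ≤ M := hGs.trans hM1
  have q1 : G * (sg ^ 4 * (1 / lm) ^ 4) ≤ M * (M ^ 4 * M ^ 4) := by gcongr
  have q2 : sg ^ 2 * (1 / lm) ^ 2 ≤ M ^ 2 * M ^ 2 := by gcongr
  have q3 : M ^ 4 ≤ M ^ 10 := pow_le_pow_right₀ hMp (by norm_num)
  have q3' : M ^ 9 ≤ M ^ 10 := pow_le_pow_right₀ hMp (by norm_num)
  have q4 : M ≤ M ^ 10 := le_self_pow₀ hMp (by norm_num)
  have q5 : 0 < M ^ 10 := by positivity
  refine ⟨?_, by positivity, ?_, ?_, ?_⟩
  · have : 0 ≤ 16 * G / (lm ^ 2 / (4 * sg ^ 2)) ^ 2 := by positivity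
    linarith
  · have k1 : lm ^ 2 ≤ 1 := pow_le_one₀ hl0.le hl1
    have k2 : 1 ≤ sg ^ 2 := one_le_pow₀ hs1
    rw [div_div, div_le_one (by positivity)]
    linarith
  · rw [e1, hB]
    have : (257 * M) ^ 10 = 257 ^ 10 * M ^ 10 := by ring
    rw [this]
    have k3 : G ≤ M ^ 10 := hGM.trans q4
    have k4 : M * (M ^ 4 * M ^ 4) = M ^ 9 := by ring
    nlinarith
  · rw [e2, hB]
    have : (257 * M) ^ 10 = 257 ^ 10 * M ^ 10 := by ring
    rw [this]
    have k4 : M ^ 2 * M ^ 2 = M ^ 4 := by ring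
    nlinarith

theorem all (G : ℝ) (hG : 1 ≤ G) (j : ℕ) : G ≤ (rg G j).1 ∧ 0 < (rg G j).2 ∧
    (rg G j).2 ≤ 1 ∧ 257 * (rg G j).1 ≤ (257 * G) ^ (10 ^ j) ∧
    257 / (rg G j).2 ≤ (257 * G) ^ (10 ^ j) := by
  induction j with
  | zero =>
    simp only [rg, pow_zero, pow_one]
    refine ⟨le_rfl, one_pos, le_rfl, le_rfl, ?_⟩
    linarith
  | succ j ih =>
    obtain ⟨i1, i2, i3, i4, i5⟩ := ih
    have h := aux G (rg G j).1 (rg G j).2 _ hG i1 i2 i3 i4 i5
    have e : (257 * G) ^ (10 ^ (j + 1)) = ((257 * G) ^ (10 ^ j)) ^ 10 := by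
      rw [← pow_mul, pow_succ]
    rw [e]
    exact h

theorem step (G : ℝ) (hG : 1 ≤ G) (j : ℕ) : (rg G j).1 ≤ (rg G (j + 1)).1 ∧
    (rg G (j + 1)).2 ≤ (rg G j).2 := by
  have key : ∀ j, (rg G (j + 1)).2 ≤ (rg G j).2 := by
    intro j
    obtain ⟨i1, i2, i3, -, -⟩ := all G hG j
    have hs1 : 1 ≤ (rg G j).1 := hG.trans i1
    change (rg G j).2 ^ 2 / (4 * (rg G j).1 ^ 2) / 2 ≤ (rg G j).2
    have k2 : 1 ≤ (rg G j).1 ^ 2 := one_le_pow₀ hs1
    rw [div_div, div_le_iff₀ (by positivity)]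
    nlinarith [mul_pos i2 i2]
  refine ⟨?_, key j⟩
  induction j with
  | zero =>
    change G ≤ _
    exact (all G hG 1).1
  | succ j ih =>
    obtain ⟨i1, i2, i3, -, -⟩ := all G hG j
    obtain ⟨p1, p2, p3, -, -⟩ := all G hG (j + 1)
    have hk := key j
    have hG0 : 0 < G := by linarith
    have hs1 : 1 ≤ (rg G j).1 := hG.trans i1
    have hs2 : 1 ≤ (rg G (j + 1)).1 := hG.trans p1
    change G + 16 * G / ((rg G j).2 ^ 2 / (4 * (rg G j).1 ^ 2)) ^ 2 ≤
      G + 16 * G / ((rg G (j + 1)).2 ^ 2 / (4 * (rg G (j + 1)).1 ^ 2)) ^ 2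
    have h1 : (rg G (j + 1)).2 ^ 2 / (4 * (rg G (j + 1)).1 ^ 2) ≤
        (rg G j).2 ^ 2 / (4 * (rg G j).1 ^ 2) := by
      gcongr
    have h2 : 0 < (rg G (j + 1)).2 ^ 2 / (4 * (rg G (j + 1)).1 ^ 2) := by positivity
    gcongr

end NRg

theorem pr_RgBound : S_RgBound := by
  intro G j hG
  obtain ⟨i1, i2, i3, i4, i5⟩ := NRg.all G hG j
  refine ⟨i1, i2, i3, ?_, ?_⟩
  · linarith
  · have : 1 / (rg G j).2 ≤ 257 / (rg G j).2 := by
      gcongr
      norm_num
    exact this.trans i5

theorem pr_RgMono : S_RgMono := by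
  intro G i j hG hij
  have h1 : Monotone fun j => (rg G j).1 := monotone_nat_of_le_succ fun j => (NRg.step G hG j).1
  have h2 : Antitone fun j => (rg G j).2 := antitone_nat_of_succ_le fun j => (NRg.step G hG j).2
  exact ⟨h1 hij, h2 hij⟩

end Pool.Agent.Work.MP_499dc6_lc.CDG

end

section

/-! Item SubstG: substitution into a circuit. -/

namespace Pool.Agent.Work.MP_499dc6_lc.CDG

open MvPolynomial Pool.Agent.Work.MP_499dc6_lc.CD

namespace NSubstG

theorem totalDegree_aeval {σ τ : Type} {K : Type} [Field K] (l : MvPolynomial σ K)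
    (θ : σ → MvPolynomial τ K) (e' : ℕ) (h : ∀ i, (θ i).totalDegree ≤ e') :
    (aeval θ l).totalDegree ≤ l.totalDegree * e' := by
  rw [aeval_def, eval₂_eq]
  refine totalDegree_finsetSum_le fun m hm => ?_
  refine (totalDegree_mul _ _).trans ?_
  have h1 : (algebraMap K (MvPolynomial τ K) (coeff m l)).totalDegree = 0 := totalDegree_C _
  rw [h1, zero_add]
  refine (totalDegree_finsetProd _ _).trans ?_
  have h2 : ∀ i ∈ m.support, (θ i ^ m i).totalDegree ≤ m i * e' := by
    intro i _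
    exact (totalDegree_pow _ _).trans (Nat.mul_le_mul_left _ (h i))
  refine (Finset.sum_le_sum h2).trans ?_
  rw [← Finset.sum_mul]
  exact Nat.mul_le_mul_right _ (le_totalDegree hm)

end NSubstG

theorem pr_CircSubstG : S_CircSubstG := by
  intro σ τ K _ s e e' r F d θ hF hθ i
  rcases hF i with ⟨l, c, hl, hc, hFi⟩ | ⟨k, hk, hFi⟩ | ⟨g, hg, hv, hFi⟩
  · refine Or.inl ⟨aeval θ l, c, ?_, hc, ?_⟩
    · exact (NSubstG.totalDegree_aeval l θ e' hθ).trans (Nat.mul_le_mul_right _ hl)
    · show aeval θ (F i) = _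
      rw [hFi, map_add, map_sum]
      congr 1
      refine Finset.sum_congr rfl fun j _ => ?_
      rw [map_mul, aeval_C]
      rfl
  · refine Or.inr (Or.inl ⟨k, hk, ?_⟩)
    show aeval θ (F i) = _
    rw [hFi, map_prod]
    exact Finset.prod_congr rfl fun j _ => map_pow _ _ _
  · refine Or.inr (Or.inr ⟨g, hg, hv, ?_⟩)
    show aeval θ (F i) = _
    rw [hFi]
    have h := congrArg (fun φ => φ g) (comp_aeval (f := F) (aeval θ : MvPolynomial σ K →ₐ[K] _))
    exact h

theorem pr_CircOf : S_CircOf := by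
  intro σ K _ s e F d hF i
  rcases hF i with h | h
  · exact Or.inl h
  · exact Or.inr (Or.inl h)

end Pool.Agent.Work.MP_499dc6_lc.CDG

end
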