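import Mathlib
import Pool.Agent.Work.MP_499dc6_lc.CD.Stmts
import Pool.Agent.Work.MP_499dc6_lc.CD.Stmts2
import Pool.Agent.Work.MP_499dc6_lc.CD.Num

/-! Bundle of small proof modules (one section per former module). -/

section

/-!
# Closure properties of `BB` (item BBnn)
-/

set_option autoImplicit false

namespace Pool.Agent.Work.MP_499dc6_lc.CD

open MvPolynomial

theorem pr_BBnn : S_BBnn := by
  intro Y Z _ _ K _ al be f c h
  induction h with
  | zero => exact le_rfl
  | term _ _ => exact (Real.exp_pos _).le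
  | add _ _ h1 h2 => exact add_nonneg h1 h2
  | mono _ hc h1 => exact h1.trans hc

theorem BBnn_isBi_C {Y Z : Type} [Fintype Y] [Fintype Z] {K : Type} [Field K] {a : K}
    {g : MvPolynomial (Y ⊕ Z) K} {x y : ℕ} (hg : IsBi g x y) : IsBi (C a * g) x y := by
  intro m hm
  rw [coeff_C_mul] at hm
  exact hg m (right_ne_zero_of_mul hm)

theorem pr_BBsmul : S_BBsmul := by
  intro Y Z _ _ K _ al be f c a h
  induction h with
  | zero =>
    rw [mul_zero]
    exact BB.zero
  | term hg hh =>
    rw [← mul_assoc]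
    exact BB.term (BBnn_isBi_C hg) hh
  | add _ _ h1 h2 =>
    rw [mul_add]
    exact h1.add h2
  | mono _ hc h1 => exact h1.mono hc

theorem pr_BBone : S_BBone := by
  intro Y Z _ _ K _ al be
  have h1 : IsBi (1 : MvPolynomial (Y ⊕ Z) K) 0 0 := by
    classical
    intro m hm
    rw [coeff_one] at hm
    have h0 : 0 = m := by
      by_contra h
      rw [if_neg h] at hm
      exact hm rfl
    subst h0
    simp [dY, dZ]
  have h2 := BB.term (al := al) (be := be) h1 h1
  rw [mul_one] at h2
  refine h2.mono ?_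
  simp

theorem pr_BBmul (hBi : S_BiMul) : S_BBmul := by
  intro Y Z _ _ K _ al be f f' c c' h h'
  have hnn : 0 ≤ c' := pr_BBnn Y Z K al be f' c' h'
  induction h with
  | zero =>
    rw [zero_mul, zero_mul]
    exact BB.zero
  | @term g h x y x' y' hg hh =>
    induction h' with
    | zero =>
      rw [mul_zero, mul_zero]
      exact BB.zero
    | @term g1 h1 x1 y1 x1' y1' hg1 hh1 =>
      have e1 : g * h * (g1 * h1) = (g * g1) * (h * h1) := by ring
      rw [e1]
      refine (BB.term (al := al) (be := be) (hBi Y Z K g g1 x y x1 y1 hg hg1)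
        (hBi Y Z K h h1 x' y' x1' y1' hh hh1)).mono (le_of_eq ?_)
      rw [← Real.exp_add]
      congr 1
      push_cast
      ring
    | add ha hb h1 h2 =>
      rw [mul_add, mul_add]
      exact (h1 (pr_BBnn _ _ _ _ _ _ _ ha)).add (h2 (pr_BBnn _ _ _ _ _ _ _ hb))
    | mono ha hc h1 =>
      exact (h1 (pr_BBnn _ _ _ _ _ _ _ ha)).mono
        (mul_le_mul_of_nonneg_left hc (Real.exp_pos _).le)
  | add _ _ h1 h2 =>
    rw [add_mul, add_mul]
    exact h1.add h2
  | mono _ hc h1 => exact h1.mono (mul_le_mul_of_nonneg_right hc hnn)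

end Pool.Agent.Work.MP_499dc6_lc.CD

end

section

/-!
# Upper bound for the rank from `BB`
-/

namespace Pool.Agent.Work.MP_499dc6_lc.CD

open MvPolynomial

theorem BBrank_rank_add {m n K : Type} [Fintype m] [Fintype n] [Field K] (A B : Matrix m n K) :
    (A + B).rank ≤ A.rank + B.rank := by
  have h : LinearMap.range (A + B).mulVecLin ≤
      LinearMap.range A.mulVecLin ⊔ LinearMap.range B.mulVecLin := by
    rintro _ ⟨v, rfl⟩
    rw [Matrix.mulVecLin_add, LinearMap.add_apply]
    exact Submodule.add_mem_sup ⟨v, rfl⟩ ⟨v, rfl⟩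
  exact (Submodule.finrank_mono h).trans (Submodule.finrank_add_le_finrank_add_finrank _ _)

theorem BBrank_mat_add {Y Z : Type} [Fintype Y] [Fintype Z] [DecidableEq Y] [DecidableEq Z]
    {R : Type} [CommSemiring R] (f g : MvPolynomial (Y ⊕ Z) R) (p q p' q' : ℕ) :
    mat (f + g) p q p' q' = mat f p q p' q' + mat g p q p' q' := by
  classical
  ext t s
  simp only [mat, Matrix.add_apply]
  split_ifs
  · rw [coeff_add]
  · rw [add_zero]

theorem BBrank_mat_zero {Y Z : Type} [Fintype Y] [Fintype Z] [DecidableEq Y] [DecidableEq Z]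
    {R : Type} [CommSemiring R] (p q p' q' : ℕ) :
    mat (0 : MvPolynomial (Y ⊕ Z) R) p q p' q' = 0 := by
  classical
  ext t s
  simp [mat]

theorem BBrank_card {Y : Type} [Fintype Y] [DecidableEq Y] (p : ℕ) :
    Fintype.card (Mon Y p) = TT (Fintype.card Y) p := by
  rw [Fintype.card_coe, Finset.card_finsuppAntidiag_nat_eq_choose, Finset.card_univ]
  rfl

theorem pr_BBrank (hMatMul : S_MatMul) (hMatZero : S_MatZero) (hG1 : S_Grow1) (hG2 : S_Grow2)
    (hBiMul : S_BiMul) : S_BBrank := by
  intro Y Z _ _ _ _ _ _ K _ al be f c L l a b hLa h1 h2 hf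
  have hT : (0 : ℝ) ≤ (TT (Fintype.card Y) (L + a) : ℝ) * TT (Fintype.card Z) l *
      Real.exp (-((a : ℝ) * al - b * be) / 2) := by positivity
  induction hf with
  | zero =>
    rw [BBrank_mat_zero, Matrix.rank_zero]
    simp
  | @term g h x y x' y' hg hh =>
    by_cases hxy : (x + x', y + y') = (a, b)
    · rw [Prod.mk.injEq] at hxy
      obtain ⟨rfl, rfl⟩ := hxy
      have e1 : L + (x + x') = L + x' + x := by ring
      have hL : (1 : ℝ) ≤ (L : ℝ) + ((x + x' : ℕ) : ℝ) := by exact_mod_cast hLa
      have hY : (1 : ℝ) ≤ Fintype.card Y := by exact_mod_cast Fintype.card_pos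
      have hZ : (1 : ℝ) ≤ Fintype.card Z := by exact_mod_cast Fintype.card_pos
      -- growth
      have g1 : (TT (Fintype.card Y) (L + x') : ℝ) ≤
          TT (Fintype.card Y) (L + (x + x')) * Real.exp (-(al * x)) := by
        have k1 := hG1 (Fintype.card Y) (L + x') x Fintype.card_pos
        rw [e1]
        refine k1.trans (mul_le_mul_of_nonneg_left ?_ (by positivity))
        have k2 : -(al * x) = x * (-al) := by ring
        rw [k2, Real.exp_nat_mul]
        refine pow_le_pow_left₀ ?_ ?_ x
        · have : (0 : ℝ) ≤ (Fintype.card Y : ℝ) + ((L : ℝ) + x' + x) - 1 := by linarith [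
            (Nat.cast_nonneg x : (0 : ℝ) ≤ x), (Nat.cast_nonneg x' : (0 : ℝ) ≤ x'),
            (Nat.cast_nonneg L : (0 : ℝ) ≤ L)]
          push_cast
          positivity
        · have k3 : Real.exp al ≤ ((Fintype.card Y : ℝ) + (L + x' + x) - 1) / (L + x' + x) := by
            have e2 : (L : ℝ) + ((x + x' : ℕ) : ℝ) = L + x' + x := by push_cast; ring
            rw [e2] at h1
            exact h1
          have k4 : (0 : ℝ) < L + x' + x := by
            have e2 : (L : ℝ) + ((x + x' : ℕ) : ℝ) = L + x' + x := by push_cast; ring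
            rw [e2] at hL
            linarith
          rw [Real.exp_neg]
          push_cast
          rw [le_div_iff₀ k4] at k3
          have k5 : (0 : ℝ) < (Fintype.card Y : ℝ) + (L + x' + x) - 1 := by linarith
          rw [div_le_iff₀ k5, ← div_eq_inv_mul, le_div_iff₀ (Real.exp_pos _), mul_comm]
          exact k3
      have g2 : (TT (Fintype.card Z) (l + y) : ℝ) ≤
          TT (Fintype.card Z) l * Real.exp (be * y) := by
        have k1 := hG2 (Fintype.card Z) l y Fintype.card_pos
        refine k1.trans (mul_le_mul_of_nonneg_left ?_ (by positivity))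
        rw [mul_comm be, Real.exp_nat_mul]
        exact pow_le_pow_left₀ (by positivity) h2 y
      have g3 : ((mat (g * h) (L + (x + x')) l L (l + (y + y'))).rank : ℝ) ≤
          (TT (Fintype.card Y) (L + x') : ℝ) * TT (Fintype.card Z) (l + y) := by
        rw [e1, hMatMul Y Z K g h x y (L + x') l L (l + (y + y')) hg]
        have k1 := (Matrix.rank_mul_le_left (mat h (L + x') (l + y) L (l + (y + y')))
          (mat g (L + x' + x) l (L + x') (l + y))).trans (Matrix.rank_le_card_width _)
        rw [Fintype.card_prod, BBrank_card, BBrank_card] at k1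
        exact_mod_cast k1
      refine g3.trans ((mul_le_mul g1 g2 (by positivity) (by positivity)).trans_eq ?_)
      have e3 : Real.exp (-(al * x)) * Real.exp (be * y) =
          Real.exp (-(((x + x' : ℕ) : ℝ) * al - ((y + y' : ℕ) : ℝ) * be) / 2) *
          Real.exp ((((x' : ℝ) * al - y' * be) - ((x : ℝ) * al - y * be)) / 2) := by
        rw [← Real.exp_add, ← Real.exp_add]
        congr 1
        push_cast
        ring
      calc _ = (TT (Fintype.card Y) (L + (x + x')) : ℝ) * TT (Fintype.card Z) l *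
            (Real.exp (-(al * x)) * Real.exp (be * y)) := by ring
        _ = _ := by rw [e3]; ring
    · have h3 := hMatZero Y Z K (g * h) (x + x') (y + y') L l a b
        (hBiMul Y Z K g h x y x' y' hg hh) hxy
      rw [h3, Matrix.rank_zero]
      rw [Nat.cast_zero]
      exact mul_nonneg hT (Real.exp_pos _).le
  | add hf hf' ih ih' =>
    rw [BBrank_mat_add, mul_add]
    refine le_trans ?_ (add_le_add ih ih')
    exact_mod_cast BBrank_rank_add _ _
  | mono hf hc ih => exact ih.trans (mul_le_mul_of_nonneg_left hc hT)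

end Pool.Agent.Work.MP_499dc6_lc.CD

end

section

/-!
# Constant depth circuits for the permanent: products of bihomogeneous polynomials
-/

set_option autoImplicit false

namespace Pool.Agent.Work.MP_499dc6_lc.CD

open MvPolynomial

theorem pr_BiMul : S_BiMul := by
  intro Y Z _ _ R _ g h x y x' y' hg hh m hm
  classical
  rw [coeff_mul] at hm
  obtain ⟨⟨m1, m2⟩, hmem, hne⟩ := Finset.exists_ne_zero_of_sum_ne_zero hm
  rw [Finset.HasAntidiagonal.mem_antidiagonal] at hmem
  simp only at hmem hne
  have h1 := hg m1 (left_ne_zero_of_mul hne)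
  have h2 := hh m2 (right_ne_zero_of_mul hne)
  subst hmem
  unfold dY dZ at *
  simp only [Finsupp.add_apply, Finset.sum_add_distrib]
  omega

theorem pr_BiHom : S_BiHom := by
  intro Y Z _ _ R _ g x y hg m hm
  have h := hg m hm
  rw [Finsupp.weight_apply, Finsupp.sum_fintype _ _ (by simp)]
  simp only [Pi.one_apply, smul_eq_mul, mul_one, Fintype.sum_sum_type]
  unfold dY dZ at h
  omega

end Pool.Agent.Work.MP_499dc6_lc.CD

end

section

/-!
# Many isolated ones in the matrix of a polynomial whose monomials form a code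
-/

namespace Pool.Agent.Work.MP_499dc6_lc.CD

open MvPolynomial

theorem Conf_card_Mon (Y : Type) [Fintype Y] [DecidableEq Y] (p : ℕ) :
    Fintype.card (Mon Y p) = TT (Fintype.card Y) p := by
  rw [Fintype.card_coe, Finset.card_finsuppAntidiag_nat_eq_choose, Finset.card_univ, TT]

theorem Conf_mem (Y : Type) [Fintype Y] [DecidableEq Y] (p : ℕ) (f : Y →₀ ℕ) :
    f ∈ Finset.finsuppAntidiag (Finset.univ : Finset Y) p ↔ ∑ i, f i = p := by
  simp [Finset.mem_finsuppAntidiag]

theorem Conf_card_ge (hGrow : S_Grow1) (Y : Type) [Fintype Y] [DecidableEq Y] [Nonempty Y]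
    (L : ℕ) (δ : Y →₀ ℕ) :
    ((Finset.univ.filter (fun x : Mon Y L => δ ≤ x.1)).card : ℝ) ≤
      TT (Fintype.card Y) L * ((L : ℝ) / (Fintype.card Y + L - 1)) ^ (∑ i, δ i) := by
  classical
  have hN : 1 ≤ Fintype.card Y := Fintype.card_pos
  have hq : 0 ≤ (L : ℝ) / (Fintype.card Y + L - 1) := by
    have h1 : (1 : ℝ) ≤ Fintype.card Y := by exact_mod_cast hN
    have h2 : (0 : ℝ) ≤ L := Nat.cast_nonneg L
    apply div_nonneg h2
    linarith
  by_cases hδ : ∑ i, δ i ≤ L
  · have h1 : (Finset.univ.filter (fun x : Mon Y L => δ ≤ x.1)).card ≤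
        Fintype.card (Mon Y (L - ∑ i, δ i)) := by
      rw [← Finset.card_univ]
      refine Finset.card_le_card_of_injOn
        (fun x : Mon Y L => if h : δ ≤ x.1 then
          (⟨x.1 - δ, by
            rw [Conf_mem]
            have hx := (Conf_mem Y L x.1).1 x.2
            have h2 : ∑ i, (x.1 - δ) i + ∑ i, δ i = L := by
              rw [← Finset.sum_add_distrib]
              refine Eq.trans (Finset.sum_congr rfl fun i _ => ?_) hx
              rw [Finsupp.tsub_apply]
              exact Nat.sub_add_cancel (h i)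
            omega⟩ : Mon Y (L - ∑ i, δ i)) else
          ⟨Finsupp.single (Classical.arbitrary Y) (L - ∑ i, δ i), by
            rw [Conf_mem]
            generalize L - ∑ i, δ i = n
            simp [Finsupp.single_apply]⟩) (fun _ _ => Finset.mem_coe.2 (Finset.mem_univ _)) ?_
      intro x hx y hy hxy
      have hx' : δ ≤ x.1 := by simpa using hx
      have hy' : δ ≤ y.1 := by simpa using hy
      simp only [hx', hy', dif_pos] at hxy
      have h3 : x.1 - δ = y.1 - δ := congrArg Subtype.val hxy
      apply Subtype.ext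
      calc x.1 = x.1 - δ + δ := (tsub_add_cancel_of_le hx').symm
        _ = y.1 - δ + δ := by rw [h3]
        _ = y.1 := tsub_add_cancel_of_le hy'
    rw [Conf_card_Mon] at h1
    have h2 := hGrow (Fintype.card Y) (L - ∑ i, δ i) (∑ i, δ i) hN
    have h3 : ((L - ∑ i, δ i : ℕ) : ℝ) + ((∑ i, δ i : ℕ) : ℝ) = L := by
      rw [← Nat.cast_add, Nat.sub_add_cancel hδ]
    rw [Nat.sub_add_cancel hδ, h3] at h2
    refine le_trans (Nat.cast_le.mpr h1) h2
  · have h1 : Finset.univ.filter (fun x : Mon Y L => δ ≤ x.1) = ∅ := by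
      apply Finset.filter_eq_empty_iff.2
      intro x _ hx
      apply hδ
      have h2 := (Conf_mem Y L x.1).1 x.2
      rw [← h2]
      exact Finset.sum_le_sum fun i _ => hx i
    rw [h1, Finset.card_empty, Nat.cast_zero]
    positivity

theorem Conf_bad (hGrow : S_Grow1) (Y : Type) [Fintype Y] [DecidableEq Y] [Nonempty Y]
    (ι : Type) [Fintype ι] [DecidableEq ι] (μ : ι → (Y →₀ ℕ)) (L : ℕ) (η : ℝ)
    (hη : ∀ c, ∑ c' ∈ Finset.univ.erase c, ((L : ℝ) / (Fintype.card Y + L - 1)) ^
      (∑ i, (μ c' i - μ c i)) ≤ η) :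
    ∃ bad : Finset (ι × Mon Y L),
      (∀ e e' : ι × Mon Y L, e' ≠ e → e'.2.1 + μ e'.1 = e.2.1 + μ e.1 → e ∈ bad) ∧
      (bad.card : ℝ) ≤ η * (Fintype.card ι * TT (Fintype.card Y) L) := by
  classical
  refine ⟨(Finset.univ : Finset ι).biUnion fun c => (Finset.univ.erase c).biUnion fun c' =>
    (Finset.univ.filter (fun x : Mon Y L => μ c' - μ c ≤ x.1)).map
      ⟨fun x => (c, x), fun x y h => (Prod.ext_iff.1 h).2⟩, ?_, ?_⟩
  · intro e e' hne h
    rw [Finset.mem_biUnion]
    refine ⟨e.1, Finset.mem_univ _, ?_⟩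
    rw [Finset.mem_biUnion]
    refine ⟨e'.1, ?_, ?_⟩
    · rw [Finset.mem_erase]
      refine ⟨fun h1 => hne ?_, Finset.mem_univ _⟩
      rw [h1] at h
      exact Prod.ext h1 (Subtype.ext (add_right_cancel h))
    · rw [Finset.mem_map]
      refine ⟨e.2, ?_, rfl⟩
      rw [Finset.mem_filter]
      refine ⟨Finset.mem_univ _, fun i => ?_⟩
      have h2 := DFunLike.congr_fun h i
      rw [Finsupp.add_apply, Finsupp.add_apply] at h2
      rw [Finsupp.tsub_apply]
      omega
  · calc _ ≤ ((∑ c : ι, ∑ c' ∈ Finset.univ.erase c,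
          (Finset.univ.filter (fun x : Mon Y L => μ c' - μ c ≤ x.1)).card : ℕ) : ℝ) := by
          have : ∀ (A B : ℕ), A ≤ B → (A : ℝ) ≤ (B : ℝ) := fun A B h => by exact_mod_cast h
          apply this
          refine Finset.card_biUnion_le.trans (Finset.sum_le_sum fun c _ => ?_)
          refine Finset.card_biUnion_le.trans (Finset.sum_le_sum fun c' _ => ?_)
          rw [Finset.card_map]
      _ ≤ ∑ c : ι, ∑ c' ∈ Finset.univ.erase c, (TT (Fintype.card Y) L : ℝ) *
            ((L : ℝ) / (Fintype.card Y + L - 1)) ^ (∑ i, (μ c' i - μ c i)) := by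
          push_cast
          refine Finset.sum_le_sum fun c _ => Finset.sum_le_sum fun c' _ => ?_
          exact Conf_card_ge hGrow Y L (μ c' - μ c)
      _ ≤ ∑ c : ι, (TT (Fintype.card Y) L : ℝ) * η := by
          refine Finset.sum_le_sum fun c _ => ?_
          rw [← Finset.mul_sum]
          exact mul_le_mul_of_nonneg_left (hη c) (Nat.cast_nonneg _)
      _ = η * (Fintype.card ι * TT (Fintype.card Y) L) := by
          rw [Finset.sum_const, nsmul_eq_mul, Finset.card_univ]
          ring

theorem pr_Conf (hGrow : S_Grow1) : S_Conf := by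
  intro Y Z _ _ _ _ _ _ R _ ι _ _ μ ν a b L l η _ _ hμa hνb hη1 hη2
  classical
  obtain ⟨bad1, hbad1, hcard1⟩ := Conf_bad hGrow Y ι μ L η hη1
  obtain ⟨bad2, hbad2, hcard2⟩ := Conf_bad hGrow Z ι ν l η hη2
  let E := ι × Mon Y L × Mon Z l
  let col : E → Mon Y (L + a) × Mon Z l := fun e => (⟨e.2.1.1 + μ e.1, by
    rw [Conf_mem]
    have h1 := (Conf_mem Y L e.2.1.1).1 e.2.1.2
    have h2 := hμa e.1
    simp only [Finsupp.add_apply]
    rw [Finset.sum_add_distrib, h1, h2]⟩, e.2.2)
  let row : E → Mon Y L × Mon Z (l + b) := fun e => (e.2.1, ⟨e.2.2.1 + ν e.1, by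
    rw [Conf_mem]
    have h1 := (Conf_mem Z l e.2.2.1).1 e.2.2.2
    have h2 := hνb e.1
    simp only [Finsupp.add_apply]
    rw [Finset.sum_add_distrib, h1, h2]⟩)
  let good : Finset E := Finset.univ.filter (fun e : E => (e.1, e.2.1) ∉ bad1 ∧ (e.1, e.2.2) ∉ bad2)
  have hcol : ∀ e ∈ good, ∀ e' : E, col e' = col e → e' = e := by
    intro e he e' h
    by_contra hne
    have he1 : (e.1, e.2.1) ∉ bad1 := by
      have := (Finset.mem_filter.1 he).2
      exact this.1
    apply he1
    have h1 : e'.2.1.1 + μ e'.1 = e.2.1.1 + μ e.1 := congrArg (fun x => x.1.1) h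
    have h2 : e'.2.2 = e.2.2 := congrArg (fun x => x.2) h
    apply hbad1 (e.1, e.2.1) (e'.1, e'.2.1) _ h1
    intro h3
    apply hne
    have h4 : e'.1 = e.1 := congrArg (fun x : ι × Mon Y L => x.1) h3
    have h5 : e'.2.1 = e.2.1 := congrArg (fun x : ι × Mon Y L => x.2) h3
    exact Prod.ext h4 (Prod.ext h5 h2)
  have hrow : ∀ e ∈ good, ∀ e' : E, row e' = row e → e' = e := by
    intro e he e' h
    by_contra hne
    have he1 : (e.1, e.2.2) ∉ bad2 := by
      have := (Finset.mem_filter.1 he).2
      exact this.2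
    apply he1
    have h1 : e'.2.2.1 + ν e'.1 = e.2.2.1 + ν e.1 := congrArg (fun x => x.2.1) h
    have h2 : e'.2.1 = e.2.1 := congrArg (fun x => x.1) h
    apply hbad2 (e.1, e.2.2) (e'.1, e'.2.2) _ h1
    intro h3
    apply hne
    have h4 : e'.1 = e.1 := congrArg (fun x : ι × Mon Z l => x.1) h3
    have h5 : e'.2.2 = e.2.2 := congrArg (fun x : ι × Mon Z l => x.2) h3
    exact Prod.ext h4 (Prod.ext h2 h5)
  refine ⟨{e : E // e ∈ good}, inferInstance, inferInstance, fun e => row e.1, fun e => col e.1,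
    ?_, ?_⟩
  · ext e1 e2
    rw [Matrix.submatrix_apply]
    have hkey : ∀ c'' : ι, (Finsupp.sumElim (μ c'') (ν c'') =
        Finsupp.sumElim ((col e2.1).1.1 - (row e1.1).1.1) ((row e1.1).2.1 - (col e2.1).2.1) ∧
        (row e1.1).1.1 ≤ (col e2.1).1.1 ∧ (col e2.1).2.1 ≤ (row e1.1).2.1) ↔
        (e1 = e2 ∧ c'' = e1.1.1) := by
      intro c''
      constructor
      · rintro ⟨h, h1, h2⟩
        have h3 : (row e1.1).1.1 + μ c'' = (col e2.1).1.1 := by
          have : μ c'' = (col e2.1).1.1 - (row e1.1).1.1 := by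
            ext i
            have := DFunLike.congr_fun h (Sum.inl i)
            simpa using this
          rw [this, add_tsub_cancel_of_le h1]
        have h4 : (col e2.1).2.1 + ν c'' = (row e1.1).2.1 := by
          have : ν c'' = (row e1.1).2.1 - (col e2.1).2.1 := by
            ext i
            have := DFunLike.congr_fun h (Sum.inr i)
            simpa using this
          rw [this, add_tsub_cancel_of_le h2]
        have h5 : row (c'', e1.1.2.1, e2.1.2.2) = row e1.1 :=
          Prod.ext rfl (Subtype.ext h4)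
        have h6 : col (c'', e1.1.2.1, e2.1.2.2) = col e2.1 :=
          Prod.ext (Subtype.ext h3) rfl
        have h7 := hrow e1.1 e1.2 _ h5
        have h8 := hcol e2.1 e2.2 _ h6
        refine ⟨Subtype.ext (h7.symm.trans h8), ?_⟩
        exact congrArg Prod.fst h7
      · rintro ⟨rfl, rfl⟩
        have h1 : (row e1.1).1.1 ≤ (col e1.1).1.1 := by
          change e1.1.2.1.1 ≤ e1.1.2.1.1 + μ e1.1.1
          exact le_self_add
        have h2 : (col e1.1).2.1 ≤ (row e1.1).2.1 := by
          change e1.1.2.2.1 ≤ e1.1.2.2.1 + ν e1.1.1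
          exact le_self_add
        refine ⟨?_, h1, h2⟩
        have h3 : (col e1.1).1.1 - (row e1.1).1.1 = μ e1.1.1 := by
          change e1.1.2.1.1 + μ e1.1.1 - e1.1.2.1.1 = _
          exact add_tsub_cancel_left _ _
        have h4 : (row e1.1).2.1 - (col e1.1).2.1 = ν e1.1.1 := by
          change e1.1.2.2.1 + ν e1.1.1 - e1.1.2.2.1 = _
          exact add_tsub_cancel_left _ _
        rw [h3, h4]
    rw [mat, Matrix.one_apply]
    by_cases hle : (row e1.1).1.1 ≤ (col e2.1).1.1 ∧ (col e2.1).2.1 ≤ (row e1.1).2.1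
    · rw [if_pos hle, coeff_sum]
      have h1 : ∀ c'' : ι, coeff (Finsupp.sumElim ((col e2.1).1.1 - (row e1.1).1.1)
          ((row e1.1).2.1 - (col e2.1).2.1)) (monomial (Finsupp.sumElim (μ c'') (ν c'')) (1 : R)) =
          if e1 = e2 ∧ c'' = e1.1.1 then 1 else 0 := by
        intro c''
        rw [coeff_monomial]
        have := hkey c''
        by_cases h : Finsupp.sumElim (μ c'') (ν c'') =
          Finsupp.sumElim ((col e2.1).1.1 - (row e1.1).1.1) ((row e1.1).2.1 - (col e2.1).2.1)
        · rw [if_pos h, if_pos (this.1 ⟨h, hle⟩)]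
        · rw [if_neg h, if_neg fun h' => h (this.2 h').1]
      rw [Finset.sum_congr rfl fun c'' _ => h1 c'']
      by_cases h12 : e1 = e2
      · simp [h12]
      · simp [h12]
    · rw [if_neg hle]
      by_cases h12 : e1 = e2
      · exfalso
        apply hle
        exact ((hkey e1.1.1).2 ⟨h12, rfl⟩).2
      · rw [if_neg h12]
  · rw [Fintype.card_coe]
    have hE : (Fintype.card E : ℝ) = Fintype.card ι * TT (Fintype.card Y) L *
        TT (Fintype.card Z) l := by
      change (Fintype.card (ι × Mon Y L × Mon Z l) : ℝ) = _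
      rw [Fintype.card_prod, Fintype.card_prod, Conf_card_Mon, Conf_card_Mon]
      push_cast
      ring
    have h1 : Fintype.card E ≤ good.card +
        (bad1.card * TT (Fintype.card Z) l + bad2.card * TT (Fintype.card Y) L) := by
      have hsub : (Finset.univ : Finset E) ⊆ good ∪
          ((Finset.univ.filter fun e : E => (e.1, e.2.1) ∈ bad1) ∪
            (Finset.univ.filter fun e : E => (e.1, e.2.2) ∈ bad2)) := by
        intro e _
        simp only [good, Finset.mem_union, Finset.mem_filter, Finset.mem_univ, true_and]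
        tauto
      have hA : (Finset.univ.filter fun e : E => (e.1, e.2.1) ∈ bad1).card ≤
          bad1.card * TT (Fintype.card Z) l := by
        rw [← Conf_card_Mon, ← Finset.card_univ, ← Finset.card_product]
        refine Finset.card_le_card_of_injOn (fun e : E => ((e.1, e.2.1), e.2.2)) ?_ ?_
        · intro e he
          have h := (Finset.mem_filter.1 (Finset.mem_coe.1 he)).2
          exact Finset.mem_coe.2 (Finset.mem_product.2 ⟨h, Finset.mem_univ _⟩)
        · intro e _ e' _ h
          have h3 : e.1 = e'.1 := congrArg (fun x => x.1.1) h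
          have h4 : e.2.1 = e'.2.1 := congrArg (fun x => x.1.2) h
          have h5 : e.2.2 = e'.2.2 := congrArg (fun x => x.2) h
          exact Prod.ext h3 (Prod.ext h4 h5)
      have hB : (Finset.univ.filter fun e : E => (e.1, e.2.2) ∈ bad2).card ≤
          bad2.card * TT (Fintype.card Y) L := by
        rw [← Conf_card_Mon, ← Finset.card_univ, ← Finset.card_product]
        refine Finset.card_le_card_of_injOn (fun e : E => ((e.1, e.2.2), e.2.1)) ?_ ?_
        · intro e he
          have h := (Finset.mem_filter.1 (Finset.mem_coe.1 he)).2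
          exact Finset.mem_coe.2 (Finset.mem_product.2 ⟨h, Finset.mem_univ _⟩)
        · intro e _ e' _ h
          have h3 : e.1 = e'.1 := congrArg (fun x => x.1.1) h
          have h4 : e.2.2 = e'.2.2 := congrArg (fun x => x.1.2) h
          have h5 : e.2.1 = e'.2.1 := congrArg (fun x => x.2) h
          exact Prod.ext h3 (Prod.ext h5 h4)
      rw [← Finset.card_univ]
      refine (Finset.card_le_card hsub).trans ?_
      refine (Finset.card_union_le _ _).trans ?_
      have := (Finset.card_union_le (Finset.univ.filter fun e : E => (e.1, e.2.1) ∈ bad1)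
        (Finset.univ.filter fun e : E => (e.1, e.2.2) ∈ bad2))
      omega
    have h2 : (Fintype.card E : ℝ) ≤ good.card +
        (bad1.card * TT (Fintype.card Z) l + bad2.card * TT (Fintype.card Y) L) := by
      exact_mod_cast h1
    have h3 := mul_le_mul_of_nonneg_right hcard1 (Nat.cast_nonneg (α := ℝ) (TT (Fintype.card Z) l))
    have h4 := mul_le_mul_of_nonneg_right hcard2 (Nat.cast_nonneg (α := ℝ) (TT (Fintype.card Y) L))
    rw [hE] at h2
    nlinarith [h2, h3, h4]

end Pool.Agent.Work.MP_499dc6_lc.CD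

end

section

/-!
# Growth of the number of monomials
-/

namespace Pool.Agent.Work.MP_499dc6_lc.CD

theorem TT_succ (N p : ℕ) (hN : 1 ≤ N) : TT N (p + 1) * (p + 1) = TT N p * (N + p) := by
  unfold TT
  have h := Nat.add_one_mul_choose_eq (N + p - 1) p
  have e1 : N + p - 1 + 1 = N + p := by omega
  have e2 : N + (p + 1) - 1 = N + p := by omega
  rw [e1] at h
  rw [e2, ← h]
  ring

theorem TT_succ_real (N p : ℕ) (hN : 1 ≤ N) :
    (TT N (p + 1) : ℝ) = TT N p * (((N : ℝ) + p) / (p + 1)) := by
  have h := TT_succ N p hN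
  have h' : (TT N (p + 1) : ℝ) * (p + 1) = TT N p * (N + p) := by exact_mod_cast h
  have hp : (0 : ℝ) < (p : ℝ) + 1 := by positivity
  field_simp
  linarith

theorem pr_Grow2 : S_Grow2 := by
  intro N q y hN
  have hN' : (1 : ℝ) ≤ N := by exact_mod_cast hN
  induction y with
  | zero => simp
  | succ y ih =>
    have h1 : (TT N (q + (y + 1)) : ℝ) = TT N (q + y) * (((N : ℝ) + (q + y : ℕ)) / ((q + y : ℕ) + 1)) :=
      TT_succ_real N (q + y) hN
    rw [h1, pow_succ, ← mul_assoc]
    have hq : (0 : ℝ) ≤ q := by positivity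
    have hy : (0 : ℝ) ≤ y := by positivity
    refine mul_le_mul ih ?_ (by positivity) (by positivity)
    push_cast
    rw [div_le_div_iff₀ (by positivity) (by positivity)]
    nlinarith

theorem pr_Grow1 : S_Grow1 := by
  intro N p x hN
  have hN' : (1 : ℝ) ≤ N := by exact_mod_cast hN
  induction x generalizing p with
  | zero => simp
  | succ x ih =>
    have hp : (0 : ℝ) ≤ p := by positivity
    have hx : (0 : ℝ) ≤ x := by positivity
    have h1 := TT_succ_real N p hN
    have h2 := ih (p + 1)
    have e : p + 1 + x = p + (x + 1) := by ring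
    rw [e] at h2
    have h3 : (TT N p : ℝ) = TT N (p + 1) * (((p : ℝ) + 1) / (N + p)) := by
      rw [h1]
      have : (0 : ℝ) < (N : ℝ) + p := by positivity
      field_simp
    rw [h3, pow_succ, ← mul_assoc]
    push_cast at h2 ⊢
    refine mul_le_mul ?_ ?_ (by positivity) ?_
    · calc (TT N (p + 1) : ℝ) ≤ _ := h2
        _ = _ := by ring_nf
    · rw [div_le_div_iff₀ (by positivity) (by nlinarith)]
      nlinarith
    · refine mul_nonneg (by positivity) (pow_nonneg (div_nonneg (by positivity) (by nlinarith)) _)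

end Pool.Agent.Work.MP_499dc6_lc.CD

end

section

namespace Pool.Agent.Work.MP_499dc6_lc.CD

open MvPolynomial

theorem pr_HcMul : S_HcMul := by
  classical
  intro σ R _ f g k
  ext d
  rw [coeff_homogeneousComponent, coeff_sum]
  simp only [coeff_mul, coeff_homogeneousComponent]
  rw [Finset.sum_comm]
  have h1 : ∀ x ∈ Finset.HasAntidiagonal.antidiagonal d,
      (∑ p ∈ Finset.HasAntidiagonal.antidiagonal k, (if x.1.degree = p.1 then coeff x.1 f else 0) *
        (if x.2.degree = p.2 then coeff x.2 g else 0)) =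
      if d.degree = k then coeff x.1 f * coeff x.2 g else 0 := by
    intro x hx
    have hx' : x.1.degree + x.2.degree = d.degree := by
      rw [← (Finset.HasAntidiagonal.mem_antidiagonal.1 hx), map_add]
    split_ifs with hk
    · rw [Finset.sum_eq_single (x.1.degree, x.2.degree)]
      · simp
      · intro p _ hp
        by_cases h1 : x.1.degree = p.1
        · have h2 : x.2.degree ≠ p.2 := fun h2 => hp (Prod.ext h1.symm h2.symm)
          rw [if_neg h2, mul_zero]
        · rw [if_neg h1, zero_mul]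
      · intro h
        exact absurd (Finset.HasAntidiagonal.mem_antidiagonal.2 (by rw [hx', hk])) h
    · refine Finset.sum_eq_zero fun p hp => ?_
      have hp' := Finset.HasAntidiagonal.mem_antidiagonal.1 hp
      by_cases h1 : x.1.degree = p.1
      · have h2 : x.2.degree ≠ p.2 := fun h2 => hk (by rw [← hx', h1, h2, hp'])
        rw [if_neg h2, mul_zero]
      · rw [if_neg h1, zero_mul]
  rw [Finset.sum_congr rfl h1]
  split_ifs with hk
  · rfl
  · simp

end Pool.Agent.Work.MP_499dc6_lc.CD

end

section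

namespace Pool.Agent.Work.MP_499dc6_lc.CD

open MvPolynomial

section Der

variable {A : Type} [CommRing A]

/-- Euler operator on power series. -/
noncomputable def eD (F : PowerSeries A) : PowerSeries A :=
  PowerSeries.mk fun i => (i : A) * PowerSeries.coeff i F

theorem coeff_eD (F : PowerSeries A) (i : ℕ) :
    PowerSeries.coeff i (eD F) = (i : A) * PowerSeries.coeff i F := by
  simp [eD]

theorem eD_one : eD (1 : PowerSeries A) = 0 := by
  ext i
  rw [coeff_eD, PowerSeries.coeff_one]
  by_cases h : i = 0 <;> simp [h]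

theorem eD_mul (F G : PowerSeries A) : eD (F * G) = eD F * G + F * eD G := by
  ext i
  rw [coeff_eD, map_add, PowerSeries.coeff_mul, PowerSeries.coeff_mul, PowerSeries.coeff_mul,
    Finset.mul_sum, ← Finset.sum_add_distrib]
  refine Finset.sum_congr rfl ?_
  intro p hp
  rw [Finset.HasAntidiagonal.mem_antidiagonal] at hp
  rw [coeff_eD, coeff_eD, ← hp]
  push_cast
  ring

theorem eD_mul_log {F G w w' : PowerSeries A} (hF : eD F = w * F) (hG : eD G = w' * G) :
    eD (F * G) = (w + w') * (F * G) := by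
  rw [eD_mul, hF, hG]; ring

theorem eD_pow_log {F w : PowerSeries A} (hF : eD F = w * F) (n : ℕ) :
    eD (F ^ n) = ((n : PowerSeries A) * w) * F ^ n := by
  induction n with
  | zero => simp [eD_one]
  | succ n ih =>
    rw [pow_succ, eD_mul_log ih hF]
    push_cast
    ring

theorem eD_prod_log {J : Type} (s : Finset J) (V W : J → PowerSeries A) (k : J → ℕ)
    (h : ∀ j, eD (V j) = W j * V j) :
    eD (∏ j ∈ s, V j ^ k j) = (∑ j ∈ s, (k j : PowerSeries A) * W j) * ∏ j ∈ s, V j ^ k j := by
  classical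
  induction s using Finset.induction_on with
  | empty => simp [eD_one]
  | insert a s ha ih =>
    rw [Finset.prod_insert ha, Finset.sum_insert ha]
    exact eD_mul_log (eD_pow_log (h a) (k a)) ih

end Der

/-- The series of the homogeneous components. -/
noncomputable def hser {σ R : Type} [CommRing R] (f : MvPolynomial σ R) :
    PowerSeries (MvPolynomial σ R) :=
  PowerSeries.mk fun i => homogeneousComponent i f

theorem coeff_hser {σ R : Type} [CommRing R] (f : MvPolynomial σ R) (i : ℕ) :
    PowerSeries.coeff i (hser f) = homogeneousComponent i f := by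
  simp [hser]

theorem hser_mul (H : S_HcMul) {σ R : Type} [CommRing R] (f g : MvPolynomial σ R) :
    hser (f * g) = hser f * hser g := by
  ext1 i
  rw [coeff_hser, PowerSeries.coeff_mul, H]
  refine Finset.sum_congr rfl ?_
  intro p _
  rw [coeff_hser, coeff_hser]

theorem hser_one {σ R : Type} [CommRing R] : hser (1 : MvPolynomial σ R) = 1 := by
  ext1 i
  rw [coeff_hser, PowerSeries.coeff_one]
  rcases Nat.eq_zero_or_pos i with h | h
  · subst h
    simp [homogeneousComponent_zero]
  · rw [if_neg (by omega)]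
    apply homogeneousComponent_eq_zero
    simpa using h

theorem hser_pow (H : S_HcMul) {σ R : Type} [CommRing R] (f : MvPolynomial σ R) (n : ℕ) :
    hser (f ^ n) = hser f ^ n := by
  induction n with
  | zero => simp [hser_one]
  | succ n ih => rw [pow_succ, pow_succ, hser_mul H, ih]

theorem hser_prod (H : S_HcMul) {σ R J : Type} [CommRing R] (s : Finset J)
    (f : J → MvPolynomial σ R) : hser (∏ j ∈ s, f j) = ∏ j ∈ s, hser (f j) := by
  classical
  induction s using Finset.induction_on with
  | empty => simp [hser_one]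
  | insert a s ha ih => rw [Finset.prod_insert ha, Finset.prod_insert ha, hser_mul H, ih]

theorem pr_LogDer (H : S_HcMul) : S_LogDer := by
  intro σ K _ J _ v k hv
  have hV0 : ∀ j, PowerSeries.constantCoeff (hser (v j)) =
      ((1 : (MvPolynomial σ K)ˣ) : MvPolynomial σ K) := by
    intro j
    rw [← PowerSeries.coeff_zero_eq_constantCoeff_apply, coeff_hser, homogeneousComponent_zero]
    have := hv j
    rw [constantCoeff_eq] at this
    rw [this]; simp
  set W : J → PowerSeries (MvPolynomial σ K) :=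
    fun j => eD (hser (v j)) * PowerSeries.invOfUnit (hser (v j)) 1 with hW
  have hWV : ∀ j, eD (hser (v j)) = W j * hser (v j) := by
    intro j
    have := PowerSeries.mul_invOfUnit (hser (v j)) 1 (hV0 j)
    rw [hW]
    simp only
    rw [mul_assoc, mul_comm (PowerSeries.invOfUnit _ _), this, mul_one]
  have hrec : ∀ j (i : ℕ), (i : MvPolynomial σ K) * homogeneousComponent i (v j) =
        ∑ p ∈ Finset.HasAntidiagonal.antidiagonal i,
          PowerSeries.coeff p.1 (W j) * homogeneousComponent p.2 (v j) := by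
    intro j i
    have := congrArg (PowerSeries.coeff i) (hWV j)
    rw [coeff_eD, coeff_hser, PowerSeries.coeff_mul] at this
    rw [this]
    refine Finset.sum_congr rfl ?_
    intro p _
    rw [coeff_hser]
  have hv0 : ∀ j, homogeneousComponent 0 (v j) = 1 := by
    intro j
    rw [homogeneousComponent_zero]
    have := hv j
    rw [constantCoeff_eq] at this
    rw [this]; simp
  have hsolve : ∀ j (i : ℕ), PowerSeries.coeff i (W j) =
      (i : MvPolynomial σ K) * homogeneousComponent i (v j) -
        ∑ p ∈ (Finset.HasAntidiagonal.antidiagonal i).erase (i, 0),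
          PowerSeries.coeff p.1 (W j) * homogeneousComponent p.2 (v j) := by
    intro j i
    have hmem : (i, 0) ∈ Finset.HasAntidiagonal.antidiagonal i := by simp
    rw [hrec j i, ← Finset.add_sum_erase _ _ hmem]
    simp only [hv0, mul_one]
    ring
  refine ⟨fun j i => PowerSeries.coeff i (W j), ?_, ?_, hrec, ?_⟩
  · intro j
    have := hrec j 0
    simpa [hv0] using this.symm
  · intro j i
    induction i using Nat.strong_induction_on with
    | _ i ih =>
      simp only at ih ⊢
      rw [hsolve j i]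
      apply IsHomogeneous.sub
      · have h0 : (i : MvPolynomial σ K) = C (i : K) := by simp
        rw [h0]
        have := (isHomogeneous_C σ (i : K)).mul (homogeneousComponent_isHomogeneous i (v j))
        simpa using this
      · apply IsHomogeneous.sum
        rintro ⟨a, b⟩ hp
        rw [Finset.mem_erase, Finset.HasAntidiagonal.mem_antidiagonal] at hp
        obtain ⟨hne, hab⟩ := hp
        simp only at hab ⊢
        have hb : b ≠ 0 := by
          rintro rfl
          exact hne (by simp at hab; simp [hab])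
        have := (ih a (by omega)).mul (homogeneousComponent_isHomogeneous b (v j))
        rwa [hab] at this
  · intro i
    have h1 : hser (∏ j, v j ^ k j) = ∏ j, hser (v j) ^ k j := by
      rw [hser_prod H]
      exact Finset.prod_congr rfl fun j _ => hser_pow H _ _
    have h2 := eD_prod_log Finset.univ (fun j => hser (v j)) W k hWV
    rw [← h1] at h2
    have h3 := congrArg (PowerSeries.coeff i) h2
    rw [coeff_eD, coeff_hser, PowerSeries.coeff_mul] at h3
    rw [h3]
    refine Finset.sum_congr rfl ?_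
    intro p _
    rw [coeff_hser, map_sum]
    congr 1
    refine Finset.sum_congr rfl ?_
    intro j _
    have h4 : (k j : PowerSeries (MvPolynomial σ K)) = PowerSeries.C (k j : MvPolynomial σ K) := by
      simp
    rw [h4, PowerSeries.coeff_C_mul]

end Pool.Agent.Work.MP_499dc6_lc.CD

end

section

/-! The matrix of a product. -/

namespace Pool.Agent.Work.MP_499dc6_lc.CD

open MvPolynomial

theorem mm_mem {Y : Type} [Fintype Y] [DecidableEq Y] {p : ℕ} (f : Y →₀ ℕ) :
    f ∈ Finset.finsuppAntidiag (Finset.univ : Finset Y) p ↔ ∑ i, f i = p := by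
  rw [Finset.mem_finsuppAntidiag]
  simp

theorem pr_MatMul : S_MatMul := by
  intro Y Z _ _ _ _ R _ g h x y p1 q p' q' hg
  ext t s
  obtain ⟨⟨t1, ht1⟩, ⟨t2, ht2⟩⟩ := t
  obtain ⟨⟨s1, hs1⟩, ⟨s2, hs2⟩⟩ := s
  rw [Matrix.mul_apply]
  unfold mat
  dsimp only
  rw [mm_mem] at ht1 ht2 hs1 hs2
  by_cases hc : t1 ≤ s1 ∧ s2 ≤ t2
  swap
  · rw [if_neg hc, Finset.sum_eq_zero]
    rintro ⟨⟨r1, hr1⟩, ⟨r2, hr2⟩⟩ -
    dsimp only
    by_cases h1 : t1 ≤ r1 ∧ r2 ≤ t2
    · by_cases h2 : r1 ≤ s1 ∧ s2 ≤ r2
      · exact absurd ⟨h1.1.trans h2.1, h2.2.trans h1.2⟩ hc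
      · rw [if_neg h2, mul_zero]
    · rw [if_neg h1, zero_mul]
  rw [if_pos hc, coeff_mul]
  -- the two filtered sums
  rw [← Finset.sum_filter_of_ne (p := fun a : (Y ⊕ Z →₀ ℕ) × (Y ⊕ Z →₀ ℕ) =>
    dY a.1 = x ∧ dZ a.1 = y) (fun a _ ha => hg a.1 (fun h0 => ha (by rw [h0, zero_mul])))]
  rw [← Finset.sum_filter_of_ne (s := Finset.univ) (p := fun r : Mon Y p1 × Mon Z (q + y) =>
    (t1 ≤ r.1.1 ∧ r.2.1 ≤ t2) ∧ (r.1.1 ≤ s1 ∧ s2 ≤ r.2.1)) (by
      rintro ⟨⟨r1, hr1⟩, ⟨r2, hr2⟩⟩ - h0
      dsimp only at h0 ⊢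
      by_contra hcon
      apply h0
      rw [not_and_or] at hcon
      rcases hcon with h1 | h1
      · rw [if_neg h1, zero_mul]
      · rw [if_neg h1, mul_zero])]
  symm
  refine Finset.sum_bij (fun r _ => (Finsupp.sumElim (s1 - r.1.1) (r.2.1 - s2),
    Finsupp.sumElim (r.1.1 - t1) (t2 - r.2.1))) ?_ ?_ ?_ ?_
  · rintro ⟨⟨r1, hr1⟩, ⟨r2, hr2⟩⟩ hr
    rw [Finset.mem_filter] at hr
    obtain ⟨-, ⟨h1, h2⟩, ⟨h3, h4⟩⟩ := hr
    dsimp only at h1 h2 h3 h4 ⊢
    rw [mm_mem] at hr1 hr2
    rw [Finset.mem_filter, Finset.HasAntidiagonal.mem_antidiagonal]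
    refine ⟨?_, ?_, ?_⟩
    · ext i
      rcases i with i | j
      · have a1 := h1 i
        have a3 := h3 i
        simp
        omega
      · have a2 := h2 j
        have a4 := h4 j
        simp
        omega
    · unfold dY
      simp only [Finsupp.sumElim_inl, Finsupp.coe_tsub, Pi.sub_apply]
      have := Finset.sum_tsub_distrib (Finset.univ : Finset Y) (f := s1) (g := r1)
        (fun i _ => h3 i)
      rw [this, hs1, hr1]
      omega
    · unfold dZ
      simp only [Finsupp.sumElim_inr, Finsupp.coe_tsub, Pi.sub_apply]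
      have := Finset.sum_tsub_distrib (Finset.univ : Finset Z) (f := r2) (g := s2)
        (fun i _ => h4 i)
      rw [this, hs2, hr2]
      omega
  · rintro ⟨⟨r1, hr1⟩, ⟨r2, hr2⟩⟩ hr ⟨⟨u1, hu1⟩, ⟨u2, hu2⟩⟩ hu he
    rw [Finset.mem_filter] at hr hu
    obtain ⟨-, ⟨h1, h2⟩, ⟨h3, h4⟩⟩ := hr
    obtain ⟨-, ⟨k1, k2⟩, ⟨k3, k4⟩⟩ := hu
    dsimp only at h1 h2 h3 h4 k1 k2 k3 k4 he ⊢
    rw [Prod.mk.injEq] at he
    obtain ⟨e1, e2⟩ := he
    have c1 : r1 = u1 := by
      ext i
      have a := DFunLike.congr_fun e1 (Sum.inl i)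
      simp only [Finsupp.sumElim_inl, Finsupp.coe_tsub, Pi.sub_apply] at a
      have := h3 i
      have := k3 i
      omega
    have c2 : r2 = u2 := by
      ext i
      have a := DFunLike.congr_fun e1 (Sum.inr i)
      simp only [Finsupp.sumElim_inr, Finsupp.coe_tsub, Pi.sub_apply] at a
      have := h4 i
      have := k4 i
      omega
    subst c1 c2
    rfl
  · rintro ⟨a, b⟩ hab
    rw [Finset.mem_filter, Finset.HasAntidiagonal.mem_antidiagonal] at hab
    obtain ⟨h0, h1, h2⟩ := hab
    dsimp only at h0 h1 h2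
    have L : ∀ i, a (Sum.inl i) + b (Sum.inl i) = s1 i - t1 i := by
      intro i
      have := DFunLike.congr_fun h0 (Sum.inl i)
      simpa using this
    have L' : ∀ i, a (Sum.inr i) + b (Sum.inr i) = t2 i - s2 i := by
      intro i
      have := DFunLike.congr_fun h0 (Sum.inr i)
      simpa using this
    set a1 : Y →₀ ℕ := Finsupp.equivFunOnFinite.symm (fun i => a (Sum.inl i)) with ha1
    set a2 : Z →₀ ℕ := Finsupp.equivFunOnFinite.symm (fun i => a (Sum.inr i)) with ha2
    have ea1 : ∀ i, a1 i = a (Sum.inl i) := fun i => rfl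
    have ea2 : ∀ i, a2 i = a (Sum.inr i) := fun i => rfl
    have hle : ∀ i, a1 i ≤ s1 i := by
      intro i
      have := L i
      rw [ea1]
      omega
    refine ⟨⟨⟨s1 - a1, ?_⟩, ⟨s2 + a2, ?_⟩⟩, ?_, ?_⟩
    · rw [mm_mem]
      simp only [Finsupp.coe_tsub, Pi.sub_apply]
      rw [Finset.sum_tsub_distrib _ (fun i _ => hle i), hs1]
      have : ∑ i, a1 i = x := h1
      omega
    · rw [mm_mem]
      simp only [Finsupp.coe_add, Pi.add_apply]
      rw [Finset.sum_add_distrib, hs2]
      have : ∑ i, a2 i = y := h2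
      omega
    · rw [Finset.mem_filter]
      refine ⟨Finset.mem_univ _, ⟨?_, ?_⟩, ⟨?_, ?_⟩⟩
      · intro i
        have := L i
        have := hc.1 i
        simp only [Finsupp.coe_tsub, Pi.sub_apply, ea1]
        omega
      · intro i
        have := L' i
        have := hc.2 i
        simp only [Finsupp.coe_add, Pi.add_apply, ea2]
        omega
      · intro i
        simp only [Finsupp.coe_tsub, Pi.sub_apply]
        omega
      · intro i
        simp only [Finsupp.coe_add, Pi.add_apply]
        omega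
    · dsimp only
      rw [Prod.mk.injEq]
      constructor
      · ext i
        rcases i with i | j
        · have := L i
          simp only [Finsupp.sumElim_inl, Finsupp.coe_tsub, Pi.sub_apply, ea1]
          omega
        · simp only [Finsupp.sumElim_inr, Finsupp.coe_tsub, Pi.sub_apply, Finsupp.coe_add,
            Pi.add_apply, ea2]
          omega
      · ext i
        rcases i with i | j
        · have := L i
          have := hc.1 i
          simp only [Finsupp.sumElim_inl, Finsupp.coe_tsub, Pi.sub_apply, ea1]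
          omega
        · have := L' j
          have := hc.2 j
          simp only [Finsupp.sumElim_inr, Finsupp.coe_tsub, Pi.sub_apply, Finsupp.coe_add,
            Pi.add_apply, ea2]
          omega
  · rintro ⟨⟨r1, hr1⟩, ⟨r2, hr2⟩⟩ hr
    rw [Finset.mem_filter] at hr
    obtain ⟨-, hr1, hr2⟩ := hr
    dsimp only at hr1 hr2 ⊢
    rw [if_pos hr1, if_pos hr2, mul_comm]

end Pool.Agent.Work.MP_499dc6_lc.CD

end

section

/-!
# Constant depth circuits for the permanent: item MatZero
-/

namespace Pool.Agent.Work.MP_499dc6_lc.CD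

open MvPolynomial

theorem MatZero_sub {Y : Type} [Fintype Y] [DecidableEq Y] {p d : ℕ} (u : Mon Y (p + d))
    (v : Mon Y p) (h : v.1 ≤ u.1) : ∑ i : Y, (u.1 - v.1) i = d := by
  have hu : ∑ i : Y, u.1 i = p + d := (Finset.mem_finsuppAntidiag.1 u.2).1
  have hv : ∑ i : Y, v.1 i = p := (Finset.mem_finsuppAntidiag.1 v.2).1
  have h1 : ∑ i : Y, (u.1 - v.1) i + ∑ i : Y, v.1 i = ∑ i : Y, u.1 i := by
    rw [← Finset.sum_add_distrib]
    refine Finset.sum_congr rfl fun i _ => ?_
    rw [Finsupp.tsub_apply]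
    exact Nat.sub_add_cancel (h i)
  omega

theorem pr_MatZero : S_MatZero := by
  intro Y Z _ _ _ _ R _ f x y L l a b hf hne
  ext t s
  rw [Matrix.zero_apply]
  unfold mat
  split_ifs with h
  · by_contra hc
    obtain ⟨h1, h2⟩ := hf _ hc
    apply hne
    unfold dY at h1
    unfold dZ at h2
    simp only [Finsupp.sumElim_inl] at h1
    simp only [Finsupp.sumElim_inr] at h2
    rw [MatZero_sub s.1 t.1 h.1] at h1
    rw [MatZero_sub t.2 s.2 h.2] at h2
    rw [h1, h2]
  · rfl

end Pool.Agent.Work.MP_499dc6_lc.CD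

end

section

/-!
# Lower bound for the rank, border version
-/

namespace Pool.Agent.Work.MP_499dc6_lc.CD

open MvPolynomial

theorem RankLow_add {Y Z : Type} [Fintype Y] [Fintype Z] [DecidableEq Y] [DecidableEq Z]
    {R : Type} [CommSemiring R] (f g : MvPolynomial (Y ⊕ Z) R) (p q p' q' : ℕ) :
    mat (f + g) p q p' q' = mat f p q p' q' + mat g p q p' q' := by
  classical
  ext t s
  simp only [mat, Matrix.add_apply]
  split_ifs
  · rw [coeff_add]
  · rw [add_zero]

theorem RankLow_C {Y Z : Type} [Fintype Y] [Fintype Z] [DecidableEq Y] [DecidableEq Z]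
    {R : Type} [CommSemiring R] (a : R) (g : MvPolynomial (Y ⊕ Z) R) (p q p' q' : ℕ) :
    mat (C a * g) p q p' q' = a • mat g p q p' q' := by
  classical
  ext t s
  simp only [mat, Matrix.smul_apply]
  split_ifs
  · rw [coeff_C_mul, smul_eq_mul]
  · rw [smul_zero]

theorem RankLow_map {Y Z : Type} [Fintype Y] [Fintype Z] [DecidableEq Y] [DecidableEq Z]
    {R S : Type} [CommSemiring R] [CommSemiring S] (φ : R →+* S) (g : MvPolynomial (Y ⊕ Z) R)
    (p q p' q' : ℕ) :
    mat (MvPolynomial.map φ g) p q p' q' = (mat g p q p' q').map φ := by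
  classical
  ext t s
  simp only [mat, Matrix.map_apply]
  split_ifs
  · rw [coeff_map]
  · rw [map_zero]

theorem pr_RankLow : S_RankLow := by
  intro Y Z _ _ _ _ k _ P R p q p' q' I _ _ r c h
  classical
  set A : Matrix I I (PowerSeries k) :=
    (mat (P + C PowerSeries.X * R) p q p' q').submatrix r c with hA
  have hA1 : A = 1 + (PowerSeries.X : PowerSeries k) • (mat R p q p' q').submatrix r c := by
    rw [hA, RankLow_add, RankLow_C, Matrix.submatrix_add, Pi.add_apply, Pi.add_apply, h,
      Matrix.submatrix_smul, Pi.smul_apply, Pi.smul_apply]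
  have h1 : (PowerSeries.constantCoeff (R := k)) A.det = 1 := by
    rw [RingHom.map_det]
    have h2 : (PowerSeries.constantCoeff (R := k)).mapMatrix A = 1 := by
      rw [hA1, map_add, map_one]
      have h3 : (PowerSeries.constantCoeff (R := k)).mapMatrix
          ((PowerSeries.X : PowerSeries k) • (mat R p q p' q').submatrix r c) = 0 := by
        ext i j
        simp
      rw [h3, add_zero]
    rw [h2, Matrix.det_one]
  have h2 : A.det ≠ 0 := by
    intro h3
    rw [h3, map_zero] at h1
    exact zero_ne_one h1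
  set φ : PowerSeries k →+* LaurentSeries k := algebraMap (PowerSeries k) (LaurentSeries k) with hφ
  have hφi : Function.Injective φ := by
    rw [hφ]
    exact FaithfulSMul.algebraMap_injective _ _
  have h3 : (φ.mapMatrix A).det ≠ 0 := by
    rw [← RingHom.map_det]
    exact (map_ne_zero_iff _ hφi).2 h2
  have h4 := Matrix.rank_of_det_ne_zero h3
  rw [← h4]
  have h5 : φ.mapMatrix A =
      (mat (MvPolynomial.map φ (P + C PowerSeries.X * R)) p q p' q').submatrix r c := by
    rw [RankLow_map]
    rfl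
  rw [h5]
  exact Matrix.rank_submatrix_le _ _ _

end Pool.Agent.Work.MP_499dc6_lc.CD

end

section

/-!
# Item TransTop: translation does not change the top homogeneous component
-/

namespace Pool.Agent.Work.MP_499dc6_lc.CD

open MvPolynomial

namespace TransTop

variable {σ : Type} {R : Type} [CommRing R]

/-- All monomials of `f` have degree smaller than `k`. -/
def LT (k : ℕ) (f : MvPolynomial σ R) : Prop := ∀ d : σ →₀ ℕ, k ≤ d.degree → coeff d f = 0

lemma lt_mul {k l : ℕ} {f g : MvPolynomial σ R} (hf : LT k f) (hg : LT (l + 1) g) :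
    LT (k + l) (f * g) := by
  classical
  intro d hd
  rw [coeff_mul]
  refine Finset.sum_eq_zero fun p hp => ?_
  rw [Finset.HasAntidiagonal.mem_antidiagonal] at hp
  have h1 : p.1.degree + p.2.degree = d.degree := by
    rw [← hp, map_add]
  by_cases h : k ≤ p.1.degree
  · rw [hf _ h, zero_mul]
  · rw [hg _ (by omega), mul_zero]

lemma lt_add {k : ℕ} {f g : MvPolynomial σ R} (hf : LT k f) (hg : LT k g) : LT k (f + g) := by
  intro d hd
  rw [coeff_add, hf d hd, hg d hd, add_zero]

lemma lt_mono {k l : ℕ} {f : MvPolynomial σ R} (hf : LT k f) (h : k ≤ l) : LT l f :=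
  fun d hd => hf d (h.trans hd)

/-- `f` and `g` agree in degrees at least `k`, and `g` has degree at most `k`. -/
def SS (k : ℕ) (f g : MvPolynomial σ R) : Prop := LT k (f - g) ∧ LT (k + 1) g

lemma ss_mul {k l : ℕ} {f g f' g' : MvPolynomial σ R} (h : SS k f g) (h' : SS l f' g') :
    SS (k + l) (f * f') (g * g') := by
  have h1 : LT (k + 1) f := by
    have := lt_add (lt_mono h.1 (Nat.le_succ k)) h.2
    rwa [sub_add_cancel] at this
  refine ⟨?_, ?_⟩
  · have e : f * f' - g * g' = f * (f' - g') + (f - g) * g' := by ring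
    rw [e]
    refine lt_add ?_ (lt_mul h.1 h'.2)
    have := lt_mul h'.1 h1
    rw [mul_comm f, add_comm k]
    exact this
  · have := lt_mul (l := l) h.2 h'.2
    rwa [show k + 1 + l = k + l + 1 by ring] at this

lemma ss_one : SS 0 (1 : MvPolynomial σ R) 1 := by
  classical
  refine ⟨?_, ?_⟩
  · intro d _
    simp
  · intro d hd
    rw [coeff_one, if_neg]
    rintro rfl
    simp at hd

lemma ss_C (a : R) : SS 0 (C a : MvPolynomial σ R) (C a) := by
  classical
  refine ⟨?_, ?_⟩
  · intro d _
    simp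
  · intro d hd
    rw [coeff_C, if_neg]
    rintro rfl
    simp at hd

lemma ss_X (j : σ) (x : R) : SS 1 (X j + C x : MvPolynomial σ R) (X j) := by
  classical
  refine ⟨?_, ?_⟩
  · rw [add_sub_cancel_left]
    exact (ss_C x).2
  · intro d hd
    rw [coeff_X, if_neg]
    rintro rfl
    rw [Finsupp.degree_single] at hd
    omega

lemma ss_pow {k : ℕ} {f g : MvPolynomial σ R} (h : SS k f g) (n : ℕ) :
    SS (n * k) (f ^ n) (g ^ n) := by
  induction n with
  | zero => simpa using ss_one
  | succ n ih =>
    rw [pow_succ, pow_succ, Nat.succ_mul]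
    exact ss_mul ih h

lemma ss_prod (s : Finset σ) (m : σ → ℕ) (x : σ → R) :
    SS (∑ j ∈ s, m j) (∏ j ∈ s, (X j + C (x j) : MvPolynomial σ R) ^ m j)
      (∏ j ∈ s, (X j : MvPolynomial σ R) ^ m j) := by
  classical
  induction s using Finset.induction_on with
  | empty => simpa using ss_one
  | insert j s hj ih =>
    rw [Finset.sum_insert hj, Finset.prod_insert hj, Finset.prod_insert hj]
    refine ss_mul ?_ ih
    have := ss_pow (ss_X j (x j)) (m j)
    rwa [mul_one] at this

lemma ss_monomial (m : σ →₀ ℕ) (a : R) (x : σ → R) :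
    LT m.degree (aeval (fun j => (X j + C (x j) : MvPolynomial σ R)) (monomial m a) -
      monomial m a) := by
  have h := (ss_mul (ss_C a) (ss_prod m.support m x)).1
  rw [aeval_monomial, monomial_eq (s := m) (a := a)]
  rw [zero_add] at h
  exact h

end TransTop

open TransTop in
theorem pr_TransTop : S_TransTop := by
  classical
  intro σ R _ P k x hP
  set θ : σ → MvPolynomial σ R := fun j => X j + C (x j) with hθ
  have key : LT k (aeval θ P - P) := by
    have e : aeval θ P - P = ∑ m ∈ P.support,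
        (aeval θ (monomial m (coeff m P)) - monomial m (coeff m P)) := by
      rw [Finset.sum_sub_distrib, ← map_sum, ← P.as_sum]
    rw [e]
    intro d hd
    rw [coeff_sum]
    refine Finset.sum_eq_zero fun m hm => ?_
    have hm' : m.degree = k := by
      have := hP (mem_support_iff.1 hm)
      rw [← this, Finsupp.degree_eq_weight_one]
      rfl
    exact ss_monomial m (coeff m P) x d (by rw [hm']; exact hd)
  ext d
  rw [coeff_homogeneousComponent]
  split_ifs with h
  · have := key d h.ge
    rw [coeff_sub, sub_eq_zero] at this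
    exact this
  · by_contra hne
    have := hP (Ne.symm hne)
    rw [Finsupp.degree_eq_weight_one] at h
    exact h this

end Pool.Agent.Work.MP_499dc6_lc.CD

end

section

set_option autoImplicit false

namespace Pool.Agent.Work.MP_499dc6_lc.CD

open MvPolynomial

theorem pr_Transl : S_Transl := by
  classical
  intro σ _ k _ _ s F
  let ι : k →+* LaurentSeries k :=
    (algebraMap (PowerSeries k) (LaurentSeries k)).comp PowerSeries.C
  have hι : Function.Injective ι := ι.injective
  let G : MvPolynomial σ (LaurentSeries k) :=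
    ∏ i ∈ Finset.univ.filter (fun i => F i ≠ 0), F i
  have hG : G ≠ 0 := by
    refine Finset.prod_ne_zero_iff.mpr ?_
    intro i hi
    exact (Finset.mem_filter.mp hi).2
  have hinf : (Set.range ι).Infinite := Set.infinite_range_of_injective hι
  have hex : ∃ x : σ → k, eval (fun j => ι (x j)) G ≠ 0 := by
    by_contra hcon
    push Not at hcon
    apply hG
    refine MvPolynomial.funext_set (fun _ => Set.range ι) (fun _ => hinf) ?_
    intro y hy
    have hy' : ∀ j, ∃ a, ι a = y j := fun j => hy j (Set.mem_univ j)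
    choose x hx using hy'
    have : y = fun j => ι (x j) := by
      funext j; rw [hx]
    simp only [this, hcon x, map_zero]
  obtain ⟨x, hx⟩ := hex
  refine ⟨x, fun i hi => ?_⟩
  have hval : constantCoeff (aeval (fun j => (X j + C (algebraMap (PowerSeries k) (LaurentSeries k)
      (PowerSeries.C (x j))) : MvPolynomial σ (LaurentSeries k))) (F i)) =
      eval (fun j => ι (x j)) (F i) := by
    have h := DFunLike.congr_fun (f := ((constantCoeff : MvPolynomial σ (LaurentSeries k) →+* _).comp
      (aeval (fun j => (X j + C (algebraMap (PowerSeries k) (LaurentSeries k)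
      (PowerSeries.C (x j))) : MvPolynomial σ (LaurentSeries k)))
        : MvPolynomial σ (LaurentSeries k) →ₐ[LaurentSeries k] _).toRingHom))
      (g := (eval (fun j => ι (x j)) : MvPolynomial σ (LaurentSeries k) →+* _)) ?_ (F i)
    · exact h
    · refine MvPolynomial.ringHom_ext ?_ ?_
      · intro a; simp
      · intro j; simp [ι]
  rw [hval]
  intro h0
  apply hx
  rw [map_prod]
  exact Finset.prod_eq_zero (Finset.mem_filter.mpr ⟨Finset.mem_univ i, hi⟩) h0

end Pool.Agent.Work.MP_499dc6_lc.CD

end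

section

/-!
# Item LocalBB: local gates
-/

namespace Pool.Agent.Work.MP_499dc6_lc.CD

open MvPolynomial

/-- `1 / (1 - exp (-y)) ≤ exp (2 / y ^ 2)` in the form of a bound for partial geometric sums. -/
theorem LB_geom (y : ℝ) (hy : 0 < y) (n : ℕ) :
    ∑ t ∈ Finset.range n, Real.exp (-y) ^ t ≤ Real.exp (2 / y ^ 2) := by
  have hq0 : 0 < Real.exp (-y) := Real.exp_pos _
  have hq1 : Real.exp (-y) < 1 := by
    rw [← Real.exp_zero]
    exact Real.exp_lt_exp.2 (by linarith)
  have h1 : (1 - Real.exp (-y)) * ∑ t ∈ Finset.range n, Real.exp (-y) ^ t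
      = 1 - Real.exp (-y) ^ n := mul_neg_geom_sum _ n
  have h2 : 0 ≤ Real.exp (-y) ^ n := pow_nonneg hq0.le n
  have hpos : 0 < 1 - Real.exp (-y) := by linarith
  have hey : 1 + y + y ^ 2 / 2 ≤ Real.exp y := Real.quadratic_le_exp_of_nonneg hy.le
  have hy2 : 0 < y ^ 2 := by positivity
  have hE : 0 < Real.exp y := Real.exp_pos y
  have hEE : Real.exp (-y) * Real.exp y = 1 := by
    rw [← Real.exp_add, neg_add_cancel, Real.exp_zero]
  have h3 : 1 ≤ (1 - Real.exp (-y)) * Real.exp (2 / y ^ 2) := by
    have h4 : 2 / y ^ 2 + 1 ≤ Real.exp (2 / y ^ 2) := Real.add_one_le_exp _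
    have h5 : 1 ≤ (1 - Real.exp (-y)) * (2 / y ^ 2 + 1) := by
      have h6 : (1 - Real.exp (-y)) * (2 / y ^ 2 + 1) * (Real.exp y * y ^ 2)
          = (Real.exp y - 1) * (2 + y ^ 2) := by
        have h7 : (2 / y ^ 2 + 1) * y ^ 2 = 2 + y ^ 2 := by
          field_simp
        calc (1 - Real.exp (-y)) * (2 / y ^ 2 + 1) * (Real.exp y * y ^ 2)
            = (Real.exp y - Real.exp (-y) * Real.exp y) * ((2 / y ^ 2 + 1) * y ^ 2) := by ring
          _ = (Real.exp y - 1) * (2 + y ^ 2) := by rw [hEE, h7]
      have h8 : Real.exp y * y ^ 2 ≤ (Real.exp y - 1) * (2 + y ^ 2) := by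
        nlinarith
      have h9 : 0 < Real.exp y * y ^ 2 := by positivity
      by_contra hcon
      rw [not_le] at hcon
      have h10 := mul_lt_mul_of_pos_right hcon h9
      rw [h6, one_mul] at h10
      linarith
    calc (1 : ℝ) ≤ (1 - Real.exp (-y)) * (2 / y ^ 2 + 1) := h5
      _ ≤ (1 - Real.exp (-y)) * Real.exp (2 / y ^ 2) := mul_le_mul_of_nonneg_left h4 hpos.le
  have h11 : (1 - Real.exp (-y)) * ∑ t ∈ Finset.range n, Real.exp (-y) ^ t ≤
      (1 - Real.exp (-y)) * Real.exp (2 / y ^ 2) := by
    rw [h1]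
    linarith
  exact le_of_mul_le_mul_left h11 hpos

/-- `∑ 1 / (i + 1) ^ 2 ≤ 2`. -/
theorem LB_sq (D : ℕ) : ∑ i : Fin D, 1 / (((i : ℕ) : ℝ) + 1) ^ 2 ≤ 2 := by
  have h : ∀ n : ℕ, ∑ i ∈ Finset.range n, 1 / ((i : ℝ) + 1) ^ 2 ≤ 2 - 2 / ((n : ℝ) + 1) := by
    intro n
    induction n with
    | zero => simp
    | succ n ih =>
      rw [Finset.sum_range_succ]
      have h0 : (0 : ℝ) ≤ n := Nat.cast_nonneg n
      have h1 : 1 / ((n : ℝ) + 1) ^ 2 ≤ 2 / ((n : ℝ) + 1) - 2 / ((n : ℝ) + 1 + 1) := by
        rw [div_sub_div _ _ (by positivity) (by positivity),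
          div_le_div_iff₀ (by positivity) (by positivity)]
        nlinarith
      push_cast
      linarith
  have h2 := h D
  rw [Finset.sum_range] at h2
  refine h2.trans ?_
  have : (0 : ℝ) ≤ 2 / ((D : ℝ) + 1) := by positivity
  linarith

/-- Counting finitely supported functions of given weight. -/
theorem LB_count {ι : Type} [Fintype ι] [DecidableEq ι] (w : ι → ℕ) (hw : ∀ a, 1 ≤ w a)
    (k : ℕ) (x : ℝ) (hx : 0 < x) (S : Finset (ι →₀ ℕ)) (hS : ∀ m ∈ S, ∑ a, w a * m a = k) :
    (S.card : ℝ) ≤ Real.exp (x * k) * Real.exp (∑ a, 2 / (x * w a) ^ 2) := by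
  have hle : ∀ m ∈ S, ∀ a, m a < k + 1 := by
    intro m hm a
    have h1 := hS m hm
    have h2 : w a * m a ≤ ∑ b, w b * m b :=
      Finset.single_le_sum (f := fun b => w b * m b) (fun b _ => Nat.zero_le _)
        (Finset.mem_univ a)
    have h3 : m a ≤ w a * m a := Nat.le_mul_of_pos_left _ (hw a)
    omega
  have hexp : ∀ m ∈ S, (1 : ℝ) = Real.exp (x * k) * ∏ a, Real.exp (-(x * w a)) ^ (m a) := by
    intro m hm
    have h1 : ∏ a, Real.exp (-(x * w a)) ^ (m a) = Real.exp (-(x * k)) := by
      rw [← hS m hm, Nat.cast_sum, Finset.mul_sum, ← Finset.sum_neg_distrib, Real.exp_sum]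
      refine Finset.prod_congr rfl fun a _ => ?_
      rw [← Real.exp_nat_mul]
      congr 1
      push_cast
      ring
    rw [h1, ← Real.exp_add, add_neg_cancel, Real.exp_zero]
  calc (S.card : ℝ) = ∑ m ∈ S, (1 : ℝ) := by simp
    _ = ∑ m ∈ S, Real.exp (x * k) * ∏ a, Real.exp (-(x * w a)) ^ (m a) :=
        Finset.sum_congr rfl hexp
    _ = Real.exp (x * k) * ∑ m ∈ S, ∏ a, Real.exp (-(x * w a)) ^ (m a) := by
        rw [Finset.mul_sum]
    _ ≤ Real.exp (x * k) * Real.exp (∑ a, 2 / (x * w a) ^ 2) := by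
        refine mul_le_mul_of_nonneg_left ?_ (Real.exp_pos _).le
        have hinj : Set.InjOn (fun m : ι →₀ ℕ => (m : ι → ℕ)) (S : Set (ι →₀ ℕ)) :=
          fun m _ m' _ h => DFunLike.coe_injective h
        have h1 : ∑ m ∈ S, ∏ a, Real.exp (-(x * w a)) ^ (m a) =
            ∑ p ∈ S.image (fun m : ι →₀ ℕ => (m : ι → ℕ)),
              ∏ a, Real.exp (-(x * w a)) ^ (p a) := by
          rw [Finset.sum_image hinj]
        rw [h1]
        have h2 : S.image (fun m : ι →₀ ℕ => (m : ι → ℕ)) ⊆
            Fintype.piFinset (fun _ : ι => Finset.range (k + 1)) := by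
          intro p hp
          obtain ⟨m, hm, rfl⟩ := Finset.mem_image.1 hp
          rw [Fintype.mem_piFinset]
          intro a
          exact Finset.mem_range.2 (hle m hm a)
        calc ∑ p ∈ S.image (fun m : ι →₀ ℕ => (m : ι → ℕ)), ∏ a, Real.exp (-(x * w a)) ^ (p a)
            ≤ ∑ p ∈ Fintype.piFinset (fun _ : ι => Finset.range (k + 1)),
                ∏ a, Real.exp (-(x * w a)) ^ (p a) :=
              Finset.sum_le_sum_of_subset_of_nonneg h2 fun p _ _ =>
                Finset.prod_nonneg fun a _ => pow_nonneg (Real.exp_pos _).le _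
          _ = ∏ a, ∑ t ∈ Finset.range (k + 1), Real.exp (-(x * w a)) ^ t := by
              rw [Finset.prod_univ_sum]
          _ ≤ ∏ a, Real.exp (2 / (x * w a) ^ 2) := by
              refine Finset.prod_le_prod (fun a _ => Finset.sum_nonneg fun t _ =>
                pow_nonneg (Real.exp_pos _).le _) fun a _ => ?_
              have hwa : (0 : ℝ) < w a := by exact_mod_cast hw a
              exact LB_geom (x * w a) (mul_pos hx hwa) (k + 1)
          _ = Real.exp (∑ a, 2 / (x * w a) ^ 2) := by rw [Real.exp_sum]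

/-- `BB` of finite products of powers. -/
theorem LB_prod (Hm : S_BBmul) (H1 : S_BBone) {Y Z : Type} [Fintype Y] [Fintype Z] {K : Type}
    [Field K] (al be : ℝ) {ι : Type} (T : Finset ι) (u : ι → MvPolynomial (Y ⊕ Z) K)
    (e : ι → ℝ) (m : ι → ℕ) (h : ∀ a, BB al be (u a) (Real.exp (-(e a)))) :
    BB al be (∏ a ∈ T, u a ^ m a) (Real.exp (-(∑ a ∈ T, e a * m a))) := by
  classical
  have hpow : ∀ (a : ι) (n : ℕ), BB al be (u a ^ n) (Real.exp (-(e a * n))) := by
    intro a n
    induction n with
    | zero =>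
      rw [pow_zero, Nat.cast_zero, mul_zero, neg_zero, Real.exp_zero]
      exact H1 Y Z K al be
    | succ n ih =>
      have h1 := Hm Y Z K al be _ _ _ _ ih (h a)
      rw [← pow_succ, ← Real.exp_add] at h1
      refine BB.mono h1 (le_of_eq ?_)
      congr 1
      push_cast
      ring
  induction T using Finset.induction_on with
  | empty =>
    rw [Finset.prod_empty, Finset.sum_empty, neg_zero, Real.exp_zero]
    exact H1 Y Z K al be
  | insert a T ha ih =>
    rw [Finset.prod_insert ha, Finset.sum_insert ha]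
    have h1 := Hm Y Z K al be _ _ _ _ (hpow a (m a)) ih
    rw [← Real.exp_add] at h1
    refine BB.mono h1 (le_of_eq ?_)
    congr 1
    ring

/-- `BB` of finite sums. -/
theorem LB_sum {Y Z : Type} [Fintype Y] [Fintype Z] {K : Type} [Field K] (al be : ℝ) {ι : Type}
    (T : Finset ι) (u : ι → MvPolynomial (Y ⊕ Z) K) (c : ℝ) (h : ∀ a ∈ T, BB al be (u a) c) :
    BB al be (∑ a ∈ T, u a) ((T.card : ℝ) * c) := by
  classical
  induction T using Finset.induction_on with
  | empty =>
    rw [Finset.sum_empty, Finset.card_empty, Nat.cast_zero, zero_mul]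
    exact BB.zero
  | insert a T ha ih =>
    rw [Finset.sum_insert ha, Finset.card_insert_of_notMem ha]
    have h1 := BB.add (h a (Finset.mem_insert_self a T))
      (ih fun b hb => h b (Finset.mem_insert_of_mem hb))
    refine BB.mono h1 (le_of_eq ?_)
    push_cast
    ring

/-- Homogeneous components of a substitution of homogeneous polynomials. -/
theorem LB_hc {σ : Type} {K : Type} [Field K] {ι : Type} [Fintype ι]
    (u : ι → MvPolynomial σ K) (w : ι → ℕ) (hu : ∀ a, (u a).IsHomogeneous (w a))
    (Q : MvPolynomial ι K) (k : ℕ) :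
    homogeneousComponent k (aeval u Q) =
      ∑ m ∈ Q.support.filter (fun m => ∑ a, w a * m a = k), C (coeff m Q) * ∏ a, u a ^ m a := by
  classical
  have h1 : aeval u Q = ∑ m ∈ Q.support, C (coeff m Q) * ∏ a, u a ^ m a := by
    conv_lhs => rw [← support_sum_monomial_coeff Q]
    rw [map_sum]
    refine Finset.sum_congr rfl fun m _ => ?_
    rw [aeval_monomial, Finsupp.prod_fintype _ _ (fun a => pow_zero _), algebraMap_eq]
  rw [h1, map_sum, Finset.sum_filter]
  refine Finset.sum_congr rfl fun m _ => ?_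
  have h2 : (C (coeff m Q) * ∏ a, u a ^ m a).IsHomogeneous (∑ a, w a * m a) := by
    have h3 := (isHomogeneous_C σ (coeff m Q)).mul
      (IsHomogeneous.prod Finset.univ (fun a => u a ^ m a) (fun a => w a * m a)
        (fun a _ => (hu a).pow (m a)))
    rwa [zero_add] at h3
  rw [homogeneousComponent_of_mem (n := ∑ a, w a * m a) h2]
  by_cases h : k = ∑ a, w a * m a
  · rw [if_pos h, if_pos h.symm]
  · rw [if_neg h, if_neg (fun h' => h h'.symm)]

theorem LB_split {σ K : Type} [Field K] (f : MvPolynomial σ K) (D : ℕ) (hD : f.totalDegree ≤ D) :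
    f = C (coeff 0 f) + ∑ i : Fin D, homogeneousComponent ((i : ℕ) + 1) f := by
  have h1 : ∑ i ∈ Finset.range (D + 1), homogeneousComponent i f = f := by
    conv_rhs => rw [← sum_homogeneousComponent f]
    symm
    refine Finset.sum_subset (Finset.range_mono (by omega)) fun i _ hi => ?_
    rw [Finset.mem_range] at hi
    exact homogeneousComponent_eq_zero i f (by omega)
  rw [Finset.sum_range_succ', homogeneousComponent_zero, Finset.sum_range, add_comm] at h1
  exact h1.symm

theorem pr_LocalBB (Hs : S_BBsmul) (Hm : S_BBmul) (H1 : S_BBone) : S_LocalBB := by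
  intro Y Z _ _ K _ al be r v Q lam k hlam hv
  classical
  -- a common bound for the degrees
  set D : ℕ := Finset.univ.sup (fun j => (v j).totalDegree) with hD
  have hDj : ∀ j, (v j).totalDegree ≤ D := fun j =>
    Finset.le_sup (f := fun j => (v j).totalDegree) (Finset.mem_univ j)
  let u : Fin r × Fin D → MvPolynomial (Y ⊕ Z) K :=
    fun a => homogeneousComponent ((a.2 : ℕ) + 1) (v a.1)
  let w : Fin r × Fin D → ℕ := fun a => (a.2 : ℕ) + 1
  have hu : ∀ a, (u a).IsHomogeneous (w a) := fun a => homogeneousComponent_isHomogeneous _ _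
  let Q' : MvPolynomial (Fin r × Fin D) K :=
    aeval (fun j => C (coeff 0 (v j)) + ∑ i : Fin D, X (j, i)) Q
  have hQ : aeval v Q = aeval u Q' := by
    have h1 : aeval u Q' = ((aeval u).comp
        (aeval (fun j => (C (coeff 0 (v j)) + ∑ i : Fin D, X (j, i) :
          MvPolynomial (Fin r × Fin D) K)))) Q := rfl
    rw [h1, comp_aeval]
    congr 2
    funext j
    rw [map_add, map_sum, ← algebraMap_eq, AlgHom.commutes, algebraMap_eq]
    conv_lhs => rw [LB_split (v j) D (hDj j)]
    congr 1
    refine Finset.sum_congr rfl fun i _ => ?_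
    rw [aeval_X]
  rw [hQ, LB_hc u w hu Q' k]
  set S := Q'.support.filter (fun m => ∑ a, w a * m a = k) with hS
  have hterm : ∀ m ∈ S, BB al be (C (coeff m Q') * ∏ a, u a ^ m a)
      (Real.exp (-(lam * k))) := by
    intro m hm
    have hmk : ∑ a, w a * m a = k := (Finset.mem_filter.1 hm).2
    have h1 := LB_prod Hm H1 al be Finset.univ u (fun a => lam * ((w a : ℕ) : ℝ)) (fun a => m a)
      (fun a => hv a.1 ((a.2 : ℕ) + 1) (by omega))
    have h2 := Hs Y Z K al be _ _ (coeff m Q') h1
    refine BB.mono h2 (le_of_eq ?_)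
    congr 2
    rw [← hmk, Nat.cast_sum, Finset.mul_sum]
    refine Finset.sum_congr rfl fun a _ => ?_
    push_cast
    ring
  have hsum := LB_sum al be S (fun m => C (coeff m Q') * ∏ a, u a ^ m a) _ hterm
  refine BB.mono hsum ?_
  have hcount := LB_count w (fun a => by show 1 ≤ (a.2 : ℕ) + 1; omega) k (lam / 2)
    (by positivity) S (fun m hm => (Finset.mem_filter.1 hm).2)
  have hw2 : ∑ a : Fin r × Fin D, 2 / (lam / 2 * ((w a : ℕ) : ℝ)) ^ 2 ≤ 96 * r / lam ^ 2 := by
    rw [Fintype.sum_prod_type]
    have h1 : ∀ j : Fin r, ∑ i : Fin D, 2 / (lam / 2 * ((w (j, i) : ℕ) : ℝ)) ^ 2 ≤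
        16 / lam ^ 2 := by
      intro j
      have h2 : ∀ i : Fin D, 2 / (lam / 2 * ((w (j, i) : ℕ) : ℝ)) ^ 2 =
          8 / lam ^ 2 * (1 / (((i : ℕ) : ℝ) + 1) ^ 2) := by
        intro i
        have h3 : ((w (j, i) : ℕ) : ℝ) = ((i : ℕ) : ℝ) + 1 := by
          show (((i : ℕ) + 1 : ℕ) : ℝ) = _
          push_cast
          ring
        rw [h3]
        have h4 : (0 : ℝ) < ((i : ℕ) : ℝ) + 1 := by positivity
        field_simp
        ring
      rw [Finset.sum_congr rfl fun i _ => h2 i, ← Finset.mul_sum]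
      have h5 := LB_sq D
      have h6 : (0 : ℝ) ≤ 8 / lam ^ 2 := by positivity
      calc 8 / lam ^ 2 * ∑ i : Fin D, 1 / (((i : ℕ) : ℝ) + 1) ^ 2 ≤ 8 / lam ^ 2 * 2 :=
            mul_le_mul_of_nonneg_left h5 h6
        _ = 16 / lam ^ 2 := by ring
    calc ∑ j : Fin r, ∑ i : Fin D, 2 / (lam / 2 * ((w (j, i) : ℕ) : ℝ)) ^ 2
        ≤ ∑ _j : Fin r, 16 / lam ^ 2 := Finset.sum_le_sum fun j _ => h1 j
      _ = r * (16 / lam ^ 2) := by simp
      _ ≤ 96 * r / lam ^ 2 := by
          have h7 : (0 : ℝ) ≤ r / lam ^ 2 := by positivity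
          have h8 : (r : ℝ) * (16 / lam ^ 2) = 16 * (r / lam ^ 2) := by ring
          have h9 : 96 * (r : ℝ) / lam ^ 2 = 96 * (r / lam ^ 2) := by ring
          rw [h8, h9]
          linarith
  calc (S.card : ℝ) * Real.exp (-(lam * k))
      ≤ Real.exp (lam / 2 * k) * Real.exp (∑ a, 2 / (lam / 2 * ((w a : ℕ) : ℝ)) ^ 2) *
          Real.exp (-(lam * k)) := mul_le_mul_of_nonneg_right hcount (Real.exp_pos _).le
    _ = Real.exp (∑ a, 2 / (lam / 2 * ((w a : ℕ) : ℝ)) ^ 2 - lam / 2 * k) := by
        rw [← Real.exp_add, ← Real.exp_add]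
        congr 1
        ring
    _ ≤ Real.exp (96 * r / lam ^ 2 - lam / 2 * k) := Real.exp_le_exp.2 (by linarith)

end Pool.Agent.Work.MP_499dc6_lc.CD

end

section

/-!
# Constant depth circuits for the permanent: numerical contradiction
-/

namespace Pool.Agent.Work.MP_499dc6_lc.CD

open MvPolynomial

theorem TT_pos {N p : ℕ} (hN : 1 ≤ N) : 0 < (TT N p : ℝ) := by
  unfold TT
  exact_mod_cast Nat.choose_pos (by omega)

theorem num_contra (hG : S_Grow2) (m n : ℕ) (hm : 30000 ≤ m) (hn : n = m ^ 10) (B sg lm : ℝ)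
    (hB1 : 1 ≤ B) (hBm : B ^ 3 ≤ m) (hsg : sg ≤ B) (hlm : 0 < lm) (hlmB : 1 / lm ≤ B)
    (hmain : (1 / 2 : ℝ) * ((n : ℝ) ^ (m - 1) * TT (aa m * n * n) (LL m n) *
        TT (m * n * n) (m * n)) ≤
      (TT (aa m * n * n) (LL m n + aa m) : ℝ) * TT (m * n * n) (m * n) *
        Real.exp (-((aa m : ℝ) * alp n - m * (√2 * alp n)) / 2) *
        Real.exp (sg - lm * ((aa m : ℝ) + m))) : False := by
  have hm1 : 1 ≤ m := by omega
  have hm2 : 2 ≤ m := by omega
  have hmR : (30000 : ℝ) ≤ m := by exact_mod_cast hm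
  have hnm : 10 * m ≤ n := by
    rw [hn]
    calc 10 * m ≤ m ^ 9 * m := by
          apply Nat.mul_le_mul_right
          calc 10 ≤ m ^ 1 := by rw [pow_one]; omega
            _ ≤ m ^ 9 := Nat.pow_le_pow_right (by omega) (by norm_num)
      _ = m ^ 10 := by ring
  have hn1 : 1 ≤ n := by omega
  have hnR : (1 : ℝ) ≤ n := by exact_mod_cast hn1
  have haa1 : m + 1 ≤ aa m := aa_pos hm1
  set a : ℝ := (aa m : ℝ) with ha
  have haR : (m : ℝ) + 1 ≤ a := by rw [ha]; exact_mod_cast haa1
  set L := LL m n with hL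
  have hN1 : 1 ≤ aa m * n * n := Nat.mul_pos (Nat.mul_pos (by omega) (by omega)) (by omega)
  have hN2 : 1 ≤ m * n * n := Nat.mul_pos (Nat.mul_pos (by omega) (by omega)) (by omega)
  have hT2 : 0 < (TT (m * n * n) (m * n) : ℝ) := TT_pos hN2
  have hT1 : 0 < (TT (aa m * n * n) L : ℝ) := TT_pos hN1
  have hgrow := hG (aa m * n * n) L (aa m) hN1
  have hgf := growth_fin hm2 hnm
  have hgr2 : (TT (aa m * n * n) (L + aa m) : ℝ) ≤ TT (aa m * n * n) L *
      Real.exp (a * alp n + 1) := by
    refine hgrow.trans ?_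
    apply mul_le_mul_of_nonneg_left _ hT1.le
    push_cast
    exact hgf
  -- the inequality between exponentials
  have h1 : (1 / 2 : ℝ) * (n : ℝ) ^ (m - 1) ≤ Real.exp (a * alp n + 1) *
      Real.exp (-(a * alp n - m * (√2 * alp n)) / 2) * Real.exp (sg - lm * (a + m)) := by
    have h2 : (1 / 2 : ℝ) * ((n : ℝ) ^ (m - 1) * TT (aa m * n * n) L *
        TT (m * n * n) (m * n)) ≤ (TT (aa m * n * n) L * Real.exp (a * alp n + 1)) *
        TT (m * n * n) (m * n) *
        Real.exp (-(a * alp n - m * (√2 * alp n)) / 2) *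
        Real.exp (sg - lm * (a + m)) := by
      refine hmain.trans ?_
      gcongr
    have h3 : 0 < (TT (aa m * n * n) L : ℝ) * TT (m * n * n) (m * n) := mul_pos hT1 hT2
    have h4 : (1 / 2 : ℝ) * (n : ℝ) ^ (m - 1) * ((TT (aa m * n * n) L : ℝ) *
        TT (m * n * n) (m * n)) ≤ (Real.exp (a * alp n + 1) *
      Real.exp (-(a * alp n - m * (√2 * alp n)) / 2) * Real.exp (sg - lm * (a + m))) *
        ((TT (aa m * n * n) L : ℝ) * TT (m * n * n) (m * n)) := by
      calc _ = (1 / 2 : ℝ) * ((n : ℝ) ^ (m - 1) * TT (aa m * n * n) L *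
        TT (m * n * n) (m * n)) := by ring
        _ ≤ _ := h2
        _ = _ := by ring
    exact le_of_mul_le_mul_right h4 h3
  -- take logarithms
  have hnpos : (0 : ℝ) < n := by linarith
  have h5 : ((m : ℝ) - 1) * Real.log n - Real.log 2 ≤
      (a * alp n + 1) + (-(a * alp n - m * (√2 * alp n)) / 2) + (sg - lm * (a + m)) := by
    have h6 := Real.log_le_log (by positivity) h1
    rw [← Real.exp_add, ← Real.exp_add, Real.log_exp, Real.log_mul (by norm_num) (by positivity),
      Real.log_pow, one_div, Real.log_inv] at h6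
    have h7 : ((m - 1 : ℕ) : ℝ) = (m : ℝ) - 1 := by
      rw [Nat.cast_sub hm1]; norm_num
    rw [h7] at h6
    linarith
  have hs2 := sqrt2_bounds
  have halp0 : 0 ≤ alp n := by
    unfold alp
    apply div_nonneg (Real.log_nonneg (by linarith)) (by positivity)
  have hsq : √2 * alp n = Real.log (n + 1) := sqrt2_alp n
  have hlog1 : Real.log ((n : ℝ) + 1) ≤ Real.log n + 1 / n := by
    have h8 : Real.log ((n : ℝ) + 1) = Real.log n + Real.log (1 + 1 / n) := by
      rw [← Real.log_mul (by positivity) (by positivity)]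
      congr 1
      field_simp
    rw [h8]
    have h9 : Real.log (1 + 1 / (n : ℝ)) ≤ 1 / n := by
      have := Real.log_le_sub_one_of_pos (show (0 : ℝ) < 1 + 1 / n by positivity)
      linarith
    linarith
  have haup := aa_le m
  rw [← ha] at haup
  have halp_le : alp n ≤ Real.log (n + 1) := by
    rw [← hsq]
    nlinarith [hs2.1]
  have hmn1 : (m : ℝ) * (1 / n) ≤ 1 := by
    rw [mul_one_div, div_le_one hnpos]
    have : m ≤ n := by omega
    exact_mod_cast this
  have hn11 : 1 / (n : ℝ) ≤ 1 := by
    rw [div_le_one hnpos]; exact hnR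
  have hlog2 : Real.log 2 ≤ 1 := by
    have := Real.log_two_lt_d9; linarith
  -- a al ≤ m be + al
  have h10 : a * alp n ≤ m * Real.log (n + 1) + alp n := by
    rw [← hsq]
    nlinarith
  have h11 : lm * (a + m) ≤ sg + 2 * Real.log n + 5 := by
    rw [hsq] at h5
    nlinarith
  have hlogn : Real.log n = 10 * Real.log m := by
    rw [hn]; push_cast; rw [Real.log_pow]; norm_num
  -- cube root
  have hB0 : 0 < B := by linarith
  have hlm' : 1 / B ≤ lm := by
    rw [div_le_iff₀ hB0]
    rw [div_le_iff₀ hlm] at hlmB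
    linarith
  have h12 : 2 * (m : ℝ) ≤ B * (B + 20 * Real.log m + 5) := by
    have h13 : (1 / B) * (2 * m) ≤ lm * (a + m) := by
      apply mul_le_mul hlm' (by linarith) (by positivity) hlm.le
    have h14 : (1 / B) * (2 * m) ≤ B + 20 * Real.log m + 5 := by
      rw [hlogn] at h11
      linarith
    have h15 : 2 * (m : ℝ) = B * ((1 / B) * (2 * m)) := by field_simp
    rw [h15]
    exact mul_le_mul_of_nonneg_left h14 hB0.le
  -- t = m^(1/3)
  set t : ℝ := (m : ℝ) ^ (1 / 3 : ℝ) with ht
  have ht3 : t ^ 3 = m := by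
    rw [ht, ← Real.rpow_natCast, ← Real.rpow_mul (by positivity)]
    norm_num
  have ht0 : 0 < t := by rw [ht]; positivity
  have hBt : B ≤ t := by
    by_contra hcon
    push Not at hcon
    have : t ^ 3 < B ^ 3 := by gcongr
    linarith
  have ht31 : 31 ≤ t := by
    by_contra hcon
    push Not at hcon
    have : t ^ 3 < 31 ^ 3 := by gcongr
    rw [ht3] at this
    norm_num at this
    linarith
  have hlogm : Real.log m = 3 * Real.log t := by
    rw [← ht3, Real.log_pow]; norm_num
  have hlogt : Real.log t ≤ t - 1 := Real.log_le_sub_one_of_pos ht0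
  have hlogt0 : 0 ≤ Real.log t := Real.log_nonneg (by linarith)
  have h16 : B * (B + 20 * Real.log m + 5) ≤ t * (t + 20 * Real.log m + 5) := by
    have : 0 ≤ Real.log m := by rw [hlogm]; positivity
    gcongr
  have h17 : 2 * t ^ 3 ≤ t * (t + 60 * (t - 1) + 5) := by
    rw [ht3]
    refine h12.trans (h16.trans ?_)
    apply mul_le_mul_of_nonneg_left _ ht0.le
    rw [hlogm]; linarith
  nlinarith

end Pool.Agent.Work.MP_499dc6_lc.CD

end
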