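import Mathlib
import Pool.Agent.Work.MP_499dc6_lc.CD.Stmts

/-! Bundle of small proof modules (one section per former module). -/

section

/-!
# MP_499dc6_lc, CD: substitution into circuits (helper85)
-/

namespace Pool.Agent.Work.MP_499dc6_lc.CD

open MvPolynomial

theorem CircSubst_deg {σ τ K : Type} [Field K] (e : ℕ) (θ : σ → MvPolynomial τ K)
    (hθ : ∀ i, (θ i).totalDegree ≤ e) (l : MvPolynomial σ K) (hl : l.totalDegree ≤ 1) :
    (aeval θ l).totalDegree ≤ e := by
  rw [aeval_def, eval₂_eq]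
  refine totalDegree_finsetSum_le fun m hm => ?_
  refine (totalDegree_mul _ _).trans ?_
  have h1 : (algebraMap K (MvPolynomial τ K) (coeff m l)).totalDegree = 0 := totalDegree_C _
  rw [h1, zero_add]
  refine (totalDegree_finset_prod _ _).trans ?_
  have h2 : ∀ i ∈ m.support, (θ i ^ m i).totalDegree ≤ m i * e := fun i _ =>
    (totalDegree_pow _ _).trans (Nat.mul_le_mul_left _ (hθ i))
  refine (Finset.sum_le_sum h2).trans ?_
  rw [← Finset.sum_mul]
  have h3 : ∑ i ∈ m.support, m i ≤ 1 := by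
    have := le_totalDegree hm
    exact this.trans hl
  calc (∑ i ∈ m.support, m i) * e ≤ 1 * e := Nat.mul_le_mul_right _ h3
    _ = e := one_mul e

theorem pr_CircSubst : S_CircSubst := by
  intro σ τ K _ s e F d θ hF hθ i
  rcases hF i with ⟨l, c, hl, hc, hFi⟩ | ⟨k, hk, hFi⟩
  · refine Or.inl ⟨aeval θ l, c, CircSubst_deg e θ hθ l hl, hc, ?_⟩
    change aeval θ (F i) = _
    conv_lhs => rw [hFi]
    rw [map_add, map_sum]
    congr 1
    refine Finset.sum_congr rfl fun j _ => ?_
    rw [map_mul, aeval_C]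
    rfl
  · refine Or.inr ⟨k, hk, ?_⟩
    change aeval θ (F i) = _
    conv_lhs => rw [hFi]
    rw [map_prod]
    exact Finset.prod_congr rfl fun j _ => map_pow _ _ _

end Pool.Agent.Work.MP_499dc6_lc.CD

end

section

/-!
# Depth three circuits for the permanent: definitions

The hard polynomial `PC R n k` has bidegree `(2 (n + k), 2 n)`. Its monomials are the pairs of
permutations of the columns `CY n k` and `CZ n ⊆ CY n k` which hit every common column from the
same side.
-/

namespace Pool.Agent.Work.MP_499dc6_lc.D3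

open MvPolynomial Equiv
open Pool.Agent.Work.MP_499dc6_lc.CD

/-- Rows and columns of the matrix of the variables `Z`; the rows have a side `Prod.fst`. -/
abbrev CZ (n : ℕ) : Type := Bool × Fin n

/-- Rows and columns of the matrix of the variables `Y`. -/
abbrev CY (n k : ℕ) : Type := (Bool × Fin n) ⊕ (Bool × Fin k)

/-- The side of a row of the matrix of the variables `Y`. -/
def sd {n k : ℕ} : CY n k → Bool := Sum.elim Prod.fst Prod.fst

/-- Pairs of permutations (rows to columns) such that every column in `CZ n` is hit from the same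
side by both. -/
abbrev Code (n k : ℕ) : Type :=
  {c : Perm (CY n k) × Perm (CZ n) // ∀ a : CZ n, sd (c.1.symm (Sum.inl a)) = (c.2.symm a).1}

/-- Exponents of the monomial of a permutation. -/
noncomputable def gr {α : Type} [Fintype α] [DecidableEq α] (σ : Perm α) : α × α →₀ ℕ :=
  Finsupp.equivFunOnFinite.symm fun p => if σ p.1 = p.2 then 1 else 0

/-- The hard polynomial. -/
noncomputable def PC (R : Type) [CommSemiring R] (n k : ℕ) :
    MvPolynomial ((CY n k × CY n k) ⊕ (CZ n × CZ n)) R :=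
  ∑ c : Code n k, monomial (Finsupp.sumElim (gr c.1.1) (gr c.1.2)) 1

/-- Pairs of permutations which change the pattern `s` in the same way on `α`. -/
abbrev Good {α β : Type} (s : α ⊕ β → Bool) : Type :=
  {g : Perm (α ⊕ β) × Perm α // ∀ a, s (g.1.symm (Sum.inl a)) = s (Sum.inl (g.2.symm a))}

/-- Elements of `A` which lie in `β` or in `B`. -/
def In {α β : Type} [DecidableEq α] [DecidableEq β] (A : Finset (α ⊕ β)) (B : Finset α) :
    Finset (α ⊕ β) :=
  A.filter fun x => Sum.elim (fun a => decide (a ∈ B)) (fun _ => true) x = true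

/-- Elements of `A` which lie in `α` and not in `B`. -/
def Out {α β : Type} [DecidableEq α] [DecidableEq β] (A : Finset (α ⊕ β)) (B : Finset α) :
    Finset (α ⊕ β) :=
  A.filter fun x => Sum.elim (fun a => decide (a ∉ B)) (fun _ => false) x = true

/-- Elements of `A` which lie in `β`. -/
def Ur {α β : Type} (A : Finset (α ⊕ β)) : Finset (α ⊕ β) :=
  A.filter fun x => x.isRight = true

/-- Number of elements of `A` on the side `b`. -/
def ns {γ : Type} (s : γ → Bool) (A : Finset γ) (b : Bool) : ℕ := (A.filter fun x => s x = b).card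

/-- `∏ b, |A ∩ b|! (m - |A ∩ b|)!`. -/
noncomputable def fc {γ : Type} (s : γ → Bool) (m : ℕ) (A : Finset γ) : ℝ :=
  ∏ b : Bool, (((ns s A b).factorial : ℝ) * ((m - ns s A b).factorial : ℝ))

/-- Rows of the big matrix. -/
abbrev GR (n k : ℕ) : Type := CY n k ⊕ CZ n ⊕ (CZ n × Bool) ⊕ (Bool × Fin k)

/-- Columns of the big matrix. -/
abbrev GC (n k : ℕ) : Type := (CY n k × Bool) ⊕ (CZ n × Bool)

noncomputable instance (n k : ℕ) : Fintype (GR n k ≃ GC n k) := Equiv.instFintype

/-- The big matrix: the rows of `Y` of side `b` read the columns `(j, b)` of the first kind, the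
rows of `Z` of side `b` the columns `(j, b)` of the second kind. For every `a` in `CZ n` there are
two more rows `(1, 1, 1, 1)` and `(1, 1, -1, -1)`, for every other column one row `(1, 1)`. -/
def GM {R : Type} [CommRing R] {n k : ℕ} (y : CY n k → CY n k → R) (z : CZ n → CZ n → R) :
    GR n k → GC n k → R
  | .inl r, .inl (j, b) => if sd r = b then y r j else 0
  | .inl _, .inr _ => 0
  | .inr (.inl r), .inr (j, b) => if r.1 = b then z r j else 0
  | .inr (.inl _), .inl _ => 0
  | .inr (.inr (.inl (a, e))), .inl (j, b) =>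
      if j = .inl a then (if e = true ∧ b = true then -1 else 1) else 0
  | .inr (.inr (.inl (a, e))), .inr (j, b) =>
      if j = a then (if e = true ∧ b = true then -1 else 1) else 0
  | .inr (.inr (.inr u)), .inl (j, _) => if j = .inr u then 1 else 0
  | .inr (.inr (.inr _)), .inr _ => 0

/-- The side of a column of the big matrix. -/
def gs {n k : ℕ} : GC n k → Bool := Sum.elim Prod.snd Prod.snd

section Bc

variable {Y Z : Type} [Fintype Y] [Fintype Z] {R : Type} [CommSemiring R]

open Classical in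
/-- Bihomogeneous component of bidegree `(u, v)`. -/
noncomputable def bc (u v : ℕ) (f : MvPolynomial (Y ⊕ Z) R) : MvPolynomial (Y ⊕ Z) R :=
  ∑ m ∈ f.support.filter (fun m => dY m = u ∧ dZ m = v), monomial m (coeff m f)

end Bc

/-- Span of the products of the `w u v` of total bidegree `(a, b)`. -/
noncomputable def PS2 (K : Type) [Field K] {A : Type} [CommRing A] [Algebra K A]
    (w : ℕ → ℕ → A) (a b : ℕ) : Submodule K A :=
  Submodule.span K {x | ∃ m : ℕ × ℕ →₀ ℕ, m (0, 0) = 0 ∧ m.sum (fun τ j => j * τ.1) = a ∧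
    m.sum (fun τ j => j * τ.2) = b ∧ x = m.prod fun τ j => w τ.1 τ.2 ^ j}

/-- Types `(u, v) ≠ 0` with `u ≤ a` and `v ≤ b`. -/
def Ty (a b : ℕ) : Finset (ℕ × ℕ) := (Finset.range (a + 1) ×ˢ Finset.range (b + 1)).erase (0, 0)

end Pool.Agent.Work.MP_499dc6_lc.D3

end

section

/-!
# Depth three circuits for the permanent: statements of the items
-/

namespace Pool.Agent.Work.MP_499dc6_lc.D3

open MvPolynomial Equiv Finset
open Pool.Agent.Work.MP_499dc6_lc.CD

open scoped Nat

/-! ## Linear algebra -/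

/-- The trace method. -/
def S_Trace : Prop :=
  ∀ (m n : Type) [Fintype m] [Fintype n] [DecidableEq m] [DecidableEq n] (H : Matrix m n ℝ),
    (∑ i, ∑ j, H i j ^ 2) ^ 2 ≤ (H.rank : ℝ) * ∑ i, ∑ i', (∑ j, H i j * H i' j) ^ 2

/-- Existence of an invertible submatrix. -/
def S_Minor : Prop :=
  ∀ (m n : Type) [Fintype m] [Fintype n] [DecidableEq m] [DecidableEq n] (H : Matrix m n ℝ),
    ∃ (r : Fin H.rank → m) (c : Fin H.rank → n), (H.submatrix r c).det ≠ 0

/-- Change of the field, border version. -/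
def S_RankK : Prop :=
  ∀ (Y Z : Type) [Fintype Y] [Fintype Z] [DecidableEq Y] [DecidableEq Z] (k : Type) [Field k]
    [CharZero k] (P : MvPolynomial (Y ⊕ Z) ℤ) (R : MvPolynomial (Y ⊕ Z) (PowerSeries k))
    (p q p' q' : ℕ),
    (mat (MvPolynomial.map (Int.castRingHom ℝ) P) p q p' q').rank ≤
      (mat (MvPolynomial.map (algebraMap (PowerSeries k) (LaurentSeries k))
        (MvPolynomial.map (Int.castRingHom (PowerSeries k)) P + C PowerSeries.X * R))
        p q p' q').rank

/-! ## Rectangles -/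

/-- Many ones. -/
def S_RectE : Prop :=
  ∀ (Y Z : Type) [Fintype Y] [Fintype Z] [DecidableEq Y] [DecidableEq Z] (ι : Type) [Fintype ι]
    (μ : ι → (Y →₀ ℕ)) (ν : ι → (Z →₀ ℕ)) (a b L l : ℕ),
    (∀ c, ∑ i, μ c i = a) → (∀ c, ∑ j, ν c j = b) →
    (Fintype.card ι * TT (Fintype.card Y) L * TT (Fintype.card Z) l : ℝ) ≤
      ∑ t, ∑ s, mat (∑ c : ι, monomial (Finsupp.sumElim (μ c) (ν c)) (1 : ℝ))
        (L + a) l L (l + b) t s ^ 2

/-- Counting rectangles. -/
def S_Rect : Prop :=
  ∀ (Y Z : Type) [Fintype Y] [Fintype Z] [DecidableEq Y] [DecidableEq Z] [Nonempty Y]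
    [Nonempty Z] (ι : Type) [Fintype ι] (μ : ι → (Y →₀ ℕ)) (ν : ι → (Z →₀ ℕ)) (a b L l : ℕ)
    (H : Matrix (Mon Y L × Mon Z (l + b)) (Mon Y (L + a) × Mon Z l) ℝ),
    (∀ c, ∑ i, μ c i = a) → (∀ c, ∑ j, ν c j = b) →
    H = mat (∑ c : ι, monomial (Finsupp.sumElim (μ c) (ν c)) (1 : ℝ)) (L + a) l L (l + b) →
    ∑ t, ∑ t', (∑ s, H t s * H t' s) ^ 2 ≤
      ∑ c₁ : ι, ∑ c₂ : ι, ∑ d₁ : ι, ∑ d₂ : ι,
        if μ c₁ + μ d₂ = μ c₂ + μ d₁ ∧ ν c₁ + ν d₂ = ν c₂ + ν d₁ then
          (TT (Fintype.card Y) L * ((L : ℝ) / (Fintype.card Y + L - 1)) ^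
            (∑ i, (μ c₂ i - μ c₁ i))) *
          (TT (Fintype.card Z) l * ((l : ℝ) / (Fintype.card Z + l - 1)) ^
            (∑ j, (ν d₁ j - ν c₁ j))) else 0

/-- Rectangles of the code. -/
def S_Struct : Prop :=
  ∀ (n k : ℕ) (c₁ : Code n k) (p q : ℝ), 0 ≤ p → 0 ≤ q →
    (∑ c₂ : Code n k, ∑ d₁ : Code n k, ∑ d₂ : Code n k,
      if gr c₁.1.1 + gr d₂.1.1 = gr c₂.1.1 + gr d₁.1.1 ∧
          gr c₁.1.2 + gr d₂.1.2 = gr c₂.1.2 + gr d₁.1.2 then
        p ^ (∑ i, (gr c₂.1.1 i - gr c₁.1.1 i)) * q ^ (∑ j, (gr d₁.1.2 j - gr c₁.1.2 j))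
      else 0) ≤
    ∑ c₂ : Code n k, ∑ d₁ : Code n k,
      if (∀ i, c₂.1.1 i = c₁.1.1 i ∨ d₁.1.1 i = c₁.1.1 i) ∧
          (∀ j, c₂.1.2 j = c₁.1.2 j ∨ d₁.1.2 j = c₁.1.2 j) then
        p ^ (univ.filter fun i => c₂.1.1 i ≠ c₁.1.1 i).card *
          q ^ (univ.filter fun j => d₁.1.2 j ≠ c₁.1.2 j).card
      else 0

/-- Translation to pairs of permutations of the columns. -/
def S_Shift : Prop :=
  ∀ (n k : ℕ) (c₁ : Code n k) (p q : ℝ) (s : CY n k → Bool),
    (∀ x, s x = sd (c₁.1.1.symm x)) →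
    (∑ c₂ : Code n k, ∑ d₁ : Code n k,
      if (∀ i, c₂.1.1 i = c₁.1.1 i ∨ d₁.1.1 i = c₁.1.1 i) ∧
          (∀ j, c₂.1.2 j = c₁.1.2 j ∨ d₁.1.2 j = c₁.1.2 j) then
        p ^ (univ.filter fun i => c₂.1.1 i ≠ c₁.1.1 i).card *
          q ^ (univ.filter fun j => d₁.1.2 j ≠ c₁.1.2 j).card
      else 0) =
    ∑ g : Good s, ∑ h : Good s,
      if Disjoint g.1.1.support h.1.1.support ∧ Disjoint g.1.2.support h.1.2.support then
        p ^ g.1.1.support.card * q ^ h.1.2.support.card
      else 0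

/-- The pattern of a codeword is balanced. -/
def S_Pattern : Prop :=
  ∀ (n k : ℕ) (c₁ : Code n k) (b : Bool),
    (univ.filter fun a : CZ n => sd (c₁.1.1.symm (Sum.inl a)) = b).card = n ∧
    (univ.filter fun u : Bool × Fin k => sd (c₁.1.1.symm (Sum.inr u)) = b).card = k

/-! ## Counting -/

/-- Number of good pairs with given supports. -/
def S_Cnt : Prop :=
  ∀ (α β : Type) [Fintype α] [Fintype β] [DecidableEq α] [DecidableEq β] (s : α ⊕ β → Bool)
    (A : Finset (α ⊕ β)) (B : Finset α),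
    (univ.filter fun g : Good s => g.1.1.support = A ∧ g.1.2.support = B).card ≤
      2 ^ (In A B).card * (∏ b : Bool, (ns s A b)!) * ∏ b : Bool, (ns (fun a => s (Sum.inl a)) B b)!

/-- The integrand. -/
def S_Int : Prop :=
  ∀ (α β : Type) [Fintype α] [Fintype β] [DecidableEq α] [DecidableEq β]
    (AY BY : Finset (α ⊕ β)) (AZ BZ : Finset α) (q : ℝ), 0 < q → Disjoint AY BY →
    Disjoint AZ BZ →
    (2 : ℝ) ^ (In BY BZ).card * 2 ^ (In AY AZ).card * (3 / 2) ^ (Fintype.card α + Fintype.card β) *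
      (2 / 3) ^ BY.card * q ^ AZ.card ≤
    2 ^ (Fintype.card α + Fintype.card β) *
      ((3 / 2) ^ (Ur AY).card * (q * (3 / 2)) ^ AZ.card * (3 / 4) ^ (Out AY AZ).card)

/-- Sum over `B`. -/
def S_BSum : Prop :=
  ∀ (γ : Type) [Fintype γ] [DecidableEq γ] (s : γ → Bool) (m : ℕ),
    (∀ b, (univ.filter fun x => s x = b).card = m) → ∀ A : Finset γ,
    (∑ B ∈ univ.filter (fun B : Finset γ => Disjoint A B), ∏ b : Bool, ((ns s B b)! : ℝ)) ≤
      8 * ∏ b : Bool, ((m - ns s A b)! : ℝ)

/-- Total mass. -/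
def S_Mass : Prop :=
  ∀ (γ : Type) [Fintype γ] [DecidableEq γ] (s : γ → Bool) (m : ℕ),
    (∀ b, (univ.filter fun x => s x = b).card = m) →
    (∑ A : Finset γ, fc s m A) = ((m + 1 : ℝ) * m !) ^ 2

/-- Hypergeometric tilt. -/
def S_Hyp : Prop :=
  ∀ (γ : Type) [DecidableEq γ] (X V : Finset γ) (k x : ℕ), (X ∩ V).card ≤ k → 2 * x ≤ X.card →
    (∑ A ∈ X.powersetCard x, (3 / 2 : ℝ) ^ (A ∩ V).card) ≤ (X.card.choose x : ℝ) * (5 / 4) ^ k

/-- Tilted mass of the small sets. -/
def S_HypSum : Prop :=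
  ∀ (α β : Type) [Fintype α] [Fintype β] [DecidableEq α] [DecidableEq β] (s : α ⊕ β → Bool)
    (m k : ℕ), (∀ b, (univ.filter fun x => s x = b).card = m) →
    (∀ b, (univ.filter fun u : β => s (Sum.inr u) = b).card = k) →
    (∑ A : Finset (α ⊕ β), if 2 * A.card ≤ m then (3 / 2 : ℝ) ^ (Ur A).card * fc s m A else 0) ≤
      ((m + 1 : ℝ) * m !) ^ 2 * (5 / 4) ^ (2 * k)

/-- Pointwise bound of the integrand in the three cases. -/
def S_FBound : Prop :=
  ∀ (w k : ℕ) (AY : Finset (CY (w * k) k)) (AZ : Finset (CZ (w * k))) (q : ℝ),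
    32 ≤ w → 1 ≤ k → 0 < q → q * (3 / 2) = Real.exp (-(Real.log (3 / 2) / w)) →
    (3 / 2 : ℝ) ^ (Ur AY).card * (q * (3 / 2)) ^ AZ.card * (3 / 4) ^ (Out AY AZ).card ≤
      Real.exp (7 / 4 * Real.log (3 / 2) * k) +
        if 2 * AY.card ≤ w * k + k then (3 / 2 : ℝ) ^ (Ur AY).card else 0

/-- Sum over `A`. -/
def S_ASum : Prop :=
  ∀ (w k : ℕ) (s : CY (w * k) k → Bool) (q : ℝ), 32 ≤ w → 1 ≤ k → 0 < q →
    q * (3 / 2) = Real.exp (-(Real.log (3 / 2) / w)) →
    (∀ b, (univ.filter fun a : CZ (w * k) => s (Sum.inl a) = b).card = w * k) →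
    (∀ b, (univ.filter fun u : Bool × Fin k => s (Sum.inr u) = b).card = k) →
    (∑ AY : Finset (CY (w * k) k), ∑ AZ : Finset (CZ (w * k)),
      ((3 / 2 : ℝ) ^ (Ur AY).card * (q * (3 / 2)) ^ AZ.card * (3 / 4) ^ (Out AY AZ).card) *
        (fc s (w * k + k) AY * fc (fun a => s (Sum.inl a)) (w * k) AZ)) ≤
      2 * Real.exp (7 / 4 * Real.log (3 / 2) * k) *
        ((((w * k + k : ℕ) : ℝ) + 1) * (w * k + k)!) ^ 2 *
        ((((w * k : ℕ) : ℝ) + 1) * (w * k)!) ^ 2

/-- Sum over the good pairs. -/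
def S_GSum : Prop :=
  ∀ (w k : ℕ) (s : CY (w * k) k → Bool) (q : ℝ), 32 ≤ w → 1 ≤ k → 0 < q →
    q * (3 / 2) = Real.exp (-(Real.log (3 / 2) / w)) →
    (∀ b, (univ.filter fun a : CZ (w * k) => s (Sum.inl a) = b).card = w * k) →
    (∀ b, (univ.filter fun u : Bool × Fin k => s (Sum.inr u) = b).card = k) →
    (3 / 2 : ℝ) ^ (2 * (w * k + k)) * (∑ g : Good s, ∑ h : Good s,
      if Disjoint g.1.1.support h.1.1.support ∧ Disjoint g.1.2.support h.1.2.support then
        (2 / 3 : ℝ) ^ g.1.1.support.card * q ^ h.1.2.support.card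
      else 0) ≤
    2 ^ (2 * (w * k + k)) * 128 * Real.exp (7 / 4 * Real.log (3 / 2) * k) *
      ((((w * k + k : ℕ) : ℝ) + 1) * (w * k + k)!) ^ 2 * ((((w * k : ℕ) : ℝ) + 1) * (w * k)!) ^ 2

/-- Size of the code. -/
def S_CodeCard : Prop :=
  ∀ (n k : ℕ), 1 ≤ n → 1 ≤ k →
    4 ^ (n + k) * ((n + k)!) ^ 2 * (n !) ^ 2 ≤
      Fintype.card (Code n k) * ((2 * n + 1) * (2 * k + 1))

/-- Growth of `TT` from below. -/
def S_Grow3 : Prop :=
  ∀ (a L : ℕ), 2 ≤ a → L + a = 2 * (a ^ 2 - 1) →
    (TT (a ^ 2) (L + a) : ℝ) ≤ 3 * (3 / 2) ^ a * TT (a ^ 2) L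

/-- Lower bound for the rank of the hard polynomial. -/
def S_RankR : Prop :=
  ∀ (w k L l : ℕ), 32 ≤ w → 1 ≤ k →
    L + 2 * (w * k + k) = 2 * ((2 * (w * k + k)) ^ 2 - 1) →
    (l : ℝ) / ((2 * (w * k) : ℕ) ^ 2 + l - 1) ≤ Real.exp (-(Real.log (3 / 2) * (w + 1) / w)) →
    (TT ((2 * (w * k + k)) ^ 2) (L + 2 * (w * k + k)) : ℝ) * TT ((2 * (w * k)) ^ 2) l ≤
      ((mat (PC ℝ (w * k) k) (L + 2 * (w * k + k)) l L (l + 2 * (w * k))).rank : ℝ) *
        (1000 * ((2 * (w * k + k) + 1 : ℕ) : ℝ) ^ 6 * Real.exp (7 / 4 * Real.log (3 / 2) * k))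

/-! ## The permanent -/

/-- Cancellation. -/
def S_GadCancel : Prop :=
  ∀ (R : Type) [CommRing R] (n k : ℕ) (y : CY n k → CY n k → R) (z : CZ n → CZ n → R),
    (∑ e : GR n k ≃ GC n k, ∏ r, GM y z r (e r)) =
      ∑ e ∈ univ.filter (fun e : GR n k ≃ GC n k => ∀ a : CZ n,
        gs (e (Sum.inr (Sum.inr (Sum.inl (a, false))))) =
          gs (e (Sum.inr (Sum.inr (Sum.inl (a, true)))))), ∏ r, GM y z r (e r)

/-- The remaining terms. -/
def S_GadBij : Prop :=
  ∀ (R : Type) [CommRing R] (n k : ℕ) (y : CY n k → CY n k → R) (z : CZ n → CZ n → R),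
    (∑ e ∈ univ.filter (fun e : GR n k ≃ GC n k => ∀ a : CZ n,
        gs (e (Sum.inr (Sum.inr (Sum.inl (a, false))))) =
          gs (e (Sum.inr (Sum.inr (Sum.inl (a, true)))))), ∏ r, GM y z r (e r)) =
      (-1) ^ n * 4 ^ n * ∑ c : Code n k, (∏ i, y i (c.1.1 i)) * ∏ i, z i (c.1.2 i)

/-- The hard polynomial is a projection of the permanent. -/
def S_Proj : Prop :=
  ∀ (R : Type) [CommRing R] (n k N : ℕ) (y : CY n k → CY n k → R) (z : CZ n → CZ n → R),
    4 * (2 * n + k) ≤ N →
    ∃ A : Matrix (Fin N) (Fin N) R,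
      (∀ i j, A i j = 0 ∨ A i j = 1 ∨ A i j = -1 ∨ (∃ r c, A i j = y r c) ∨
        ∃ r c, A i j = z r c) ∧
      A.permanent =
        (-1) ^ n * 4 ^ n * ∑ c : Code n k, (∏ i, y i (c.1.1 i)) * ∏ i, z i (c.1.2 i)

/-! ## Bihomogeneous components -/

def S_BcMul : Prop :=
  ∀ (Y Z : Type) [Fintype Y] [Fintype Z] (R : Type) [CommSemiring R]
    (f g : MvPolynomial (Y ⊕ Z) R) (u v : ℕ),
    bc u v (f * g) = ∑ p ∈ HasAntidiagonal.antidiagonal u, ∑ q ∈ HasAntidiagonal.antidiagonal v,
      bc p.1 q.1 f * bc p.2 q.2 g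

/-- Substitution of linear forms respects the bidegree. -/
def S_BcAeval : Prop :=
  ∀ (Y Z Y' Z' : Type) [Fintype Y] [Fintype Z] [Fintype Y'] [Fintype Z'] (R : Type)
    [CommRing R] (y : Y' → MvPolynomial (Y ⊕ Z) R) (z : Z' → MvPolynomial (Y ⊕ Z) R)
    (f : MvPolynomial (Y' ⊕ Z') R) (u v : ℕ), (∀ i, IsBi (y i) 1 0) → (∀ i, IsBi (z i) 0 1) →
    bc u v (aeval (Sum.elim y z) f) = aeval (Sum.elim y z) (bc u v f)

/-- An affine form is the sum of a constant and two linear forms. -/
def S_Affine : Prop :=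
  ∀ (Y Z : Type) [Fintype Y] [Fintype Z] (R : Type) [CommRing R] (l : MvPolynomial (Y ⊕ Z) R),
    l.totalDegree ≤ 1 → ∃ (c : R) (y z : MvPolynomial (Y ⊕ Z) R), IsBi y 1 0 ∧ IsBi z 0 1 ∧
      l = C c + (y + z)

/-! ## Upper bound -/

/-- Bigraded logarithmic derivative of a product. -/
def S_LogBi : Prop :=
  ∀ (Y Z : Type) [Fintype Y] [Fintype Z] (K : Type) [Field K] (D r : ℕ)
    (G : Fin D → MvPolynomial (Fin r ⊕ Fin r) K)
    (y z : Fin D → Fin r → MvPolynomial (Y ⊕ Z) K) (V : MvPolynomial (Y ⊕ Z) K),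
    (∀ j, constantCoeff (G j) = 1) → (∀ j i, IsBi (y j i) 1 0) → (∀ j i, IsBi (z j i) 0 1) →
    V = ∏ j, aeval (Sum.elim (y j) (z j)) (G j) →
    ∃ g : Fin D → ℕ → ℕ → MvPolynomial (Fin r ⊕ Fin r) K,
      (∀ j, g j 0 0 = 0) ∧ (∀ j u v, IsBi (g j u v) u v) ∧
      ∀ u v : ℕ, ((u + v : ℕ) : MvPolynomial (Y ⊕ Z) K) * bc u v V =
        ∑ p ∈ HasAntidiagonal.antidiagonal u, ∑ q ∈ HasAntidiagonal.antidiagonal v,
          (∑ j, aeval (Sum.elim (y j) (z j)) (g j p.1 q.1)) * bc p.2 q.2 V

/-- The components are in the span of products. -/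
def S_Span2 : Prop :=
  ∀ (K : Type) [Field K] [CharZero K] (A : Type) [CommRing A] [Algebra K A] (V w : ℕ → ℕ → A),
    V 0 0 = 1 → w 0 0 = 0 →
    (∀ u v : ℕ, ((u + v : ℕ) : A) * V u v =
      ∑ p ∈ HasAntidiagonal.antidiagonal u, ∑ q ∈ HasAntidiagonal.antidiagonal v,
        w p.1 q.1 * V p.2 q.2) →
    ∀ a b, V a b ∈ PS2 K w a b

/-- Tilted bound for elements of the span. -/
def S_SpanBB2 : Prop :=
  ∀ (Y Z : Type) [Fintype Y] [Fintype Z] (K : Type) [Field K] (al be : ℝ)
    (w : ℕ → ℕ → MvPolynomial (Y ⊕ Z) K) (f : MvPolynomial (Y ⊕ Z) K) (a b : ℕ)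
    (x : ℕ → ℕ → ℝ) (A B : ℝ), f ∈ PS2 K w a b →
    (∀ τ ∈ Ty a b, BB al be (w τ.1 τ.2) (x τ.1 τ.2)) →
    (∀ τ ∈ Ty a b, x τ.1 τ.2 * Real.exp (-(A * τ.1 + B * τ.2)) < 1) →
    BB al be f (Real.exp (A * a + B * b) *
      ∏ τ ∈ Ty a b, (1 - x τ.1 τ.2 * Real.exp (-(A * τ.1 + B * τ.2)))⁻¹)

/-- A form of bidegree `(u, v)` in few linear forms. -/
def S_FacBB : Prop :=
  ∀ (Y Z : Type) [Fintype Y] [Fintype Z] (K : Type) [Field K] (al be : ℝ) (r u v : ℕ)
    (g : MvPolynomial (Fin r ⊕ Fin r) K) (y z : Fin r → MvPolynomial (Y ⊕ Z) K),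
    IsBi g u v → (∀ i, IsBi (y i) 1 0) → (∀ i, IsBi (z i) 0 1) →
    BB al be (aeval (Sum.elim y z) g)
      (TT r u * TT r v * Real.exp (-((u : ℝ) * al + v * be) / 2))

/-- Trivial bound for one bihomogeneous polynomial. -/
def S_BiBB : Prop :=
  ∀ (Y Z : Type) [Fintype Y] [Fintype Z] (K : Type) [Field K] (al be : ℝ) (u v : ℕ)
    (g : MvPolynomial (Y ⊕ Z) K), IsBi g u v →
    BB al be g (Real.exp (-|(u : ℝ) * al - v * be| / 2))

/-- Sum over the multisets of types. -/
def S_TypeSum : Prop :=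
  ∀ (θ s : ℝ) (a b : ℕ) (f : ℕ × ℕ → ℝ), 0 < θ → θ < 1 → 0 < s →
    (∀ τ ∈ Ty a b, 0 ≤ f τ) →
    (∀ τ ∈ Ty a b, f τ ≤ θ ^ ((τ.1 : ℤ) - τ.2).natAbs * Real.exp (-(s * (τ.1 + τ.2)))) →
    ∏ τ ∈ Ty a b, (1 - f τ)⁻¹ ≤ Real.exp (8 / ((1 - θ) * s))

/-- Large types. -/
def S_Large : Prop :=
  ∀ (D r u v : ℕ), 1 ≤ D → 1 ≤ r → 4000 * (Real.log D + r) ≤ u + v →
    (D : ℝ) * (TT r u * TT r v) ≤ Real.exp (Real.log (3 / 2) / 64 * (u + v))

/-- The tilted weight of small types. -/
def S_TypeS : Prop :=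
  ∀ (w t u v : ℕ) (s : ℝ), 1 ≤ t → 32 * t ≤ w → u + v < t →
    Real.exp (-|(u : ℝ) * Real.log (3 / 2) - v * (Real.log (3 / 2) * (w + 1) / w)| / 2) *
      Real.exp (-((Real.log (3 / 2) / 2 - 961 / 1024 * Real.log (3 / 2) + s) * u +
        (-(Real.log (3 / 2) * (w + 1) / w) / 2 + 961 / 1024 * Real.log (3 / 2) + s) * v)) ≤
      Real.exp (-(Real.log (3 / 2) / 64)) ^ ((u : ℤ) - v).natAbs * Real.exp (-(s * (u + v)))

/-- The tilted weight of large types. -/
def S_TypeL : Prop :=
  ∀ (w u v : ℕ) (s X : ℝ), 1 ≤ w → 0 ≤ X →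
    X ≤ Real.exp (Real.log (3 / 2) / 64 * (u + v)) →
    X * Real.exp (-((u : ℝ) * Real.log (3 / 2) + v * (Real.log (3 / 2) * (w + 1) / w)) / 2) *
      Real.exp (-((Real.log (3 / 2) / 2 - 961 / 1024 * Real.log (3 / 2) + s) * u +
        (-(Real.log (3 / 2) * (w + 1) / w) / 2 + 961 / 1024 * Real.log (3 / 2) + s) * v)) ≤
      Real.exp (-(Real.log (3 / 2) / 64)) ^ ((u : ℤ) - v).natAbs * Real.exp (-(s * (u + v)))

/-- Upper bound for a product. -/
def S_Up : Prop :=
  ∀ (Y Z : Type) [Fintype Y] [Fintype Z] (K : Type) [Field K] [CharZero K] (w k t D r : ℕ)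
    (G : Fin D → MvPolynomial (Fin r ⊕ Fin r) K)
    (y z : Fin D → Fin r → MvPolynomial (Y ⊕ Z) K),
    1 ≤ D → 1 ≤ r → 1 ≤ k → 32 * t ≤ w → 4000 * (Real.log D + r) ≤ t →
    (∀ j, constantCoeff (G j) ≠ 0) → (∀ j i, IsBi (y j i) 1 0) → (∀ j i, IsBi (z j i) 0 1) →
    BB (Real.log (3 / 2)) (Real.log (3 / 2) * (w + 1) / w)
      (bc (2 * (w * k + k)) (2 * (w * k)) (∏ j, aeval (Sum.elim (y j) (z j)) (G j)))
      (Real.exp (-(15 / 8 * Real.log (3 / 2) * k) +
        72 * Real.sqrt ((2 * (w * k + k) + 2 * (w * k) : ℕ) : ℝ)))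

/-- The final numbers. -/
def S_Num : Prop :=
  ∀ (N : ℕ) (S τ : ℝ) (t w k : ℕ), 1 ≤ S → 1 ≤ τ → t = ⌈4000 * τ⌉₊ → w = 32 * t →
    k = N / (4 * (2 * w + 1)) →
    (1 ≤ k → Real.log (3 / 2) / 8 * k ≤ Real.log S +
      72 * Real.sqrt ((2 * (w * k + k) + 2 * (w * k) : ℕ) : ℝ) +
      Real.log (1000 * ((2 * (w * k + k) + 1 : ℕ) : ℝ) ^ 6)) →
    (N : ℝ) / 10 ^ 10 ≤ (Real.log S + Real.sqrt N) * τ

end Pool.Agent.Work.MP_499dc6_lc.D3

end

section

/-!
# Bihomogeneous components: basic facts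
-/

namespace Pool.Agent.Work.MP_499dc6_lc.D3

open MvPolynomial
open Pool.Agent.Work.MP_499dc6_lc.CD

section

variable {Y Z : Type} [Fintype Y] [Fintype Z] {R : Type} [CommSemiring R]

open Classical in
theorem coeff_bc (u v : ℕ) (f : MvPolynomial (Y ⊕ Z) R) (m : Y ⊕ Z →₀ ℕ) :
    coeff m (bc u v f) = if dY m = u ∧ dZ m = v then coeff m f else 0 := by
  rw [bc, coeff_sum]
  simp only [coeff_monomial]
  rw [Finset.sum_ite_eq' (f.support.filter fun m => dY m = u ∧ dZ m = v) m fun m => coeff m f]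
  by_cases h : dY m = u ∧ dZ m = v
  · rw [if_pos h]
    by_cases h2 : coeff m f = 0
    · rw [h2, ite_self]
    · rw [if_pos]
      exact Finset.mem_filter.2 ⟨mem_support_iff.2 h2, h⟩
  · rw [if_neg h, if_neg]
    intro h2
    exact h (Finset.mem_filter.1 h2).2

theorem isBi_bc (u v : ℕ) (f : MvPolynomial (Y ⊕ Z) R) : IsBi (bc u v f) u v := by
  intro m hm
  rw [coeff_bc] at hm
  by_contra h
  rw [if_neg h] at hm
  exact hm rfl

theorem bc_add (u v : ℕ) (f g : MvPolynomial (Y ⊕ Z) R) : bc u v (f + g) = bc u v f + bc u v g := by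
  ext m
  rw [coeff_add, coeff_bc, coeff_bc, coeff_bc, coeff_add]
  split_ifs
  · rfl
  · rw [add_zero]

theorem bc_zero (u v : ℕ) : bc u v (0 : MvPolynomial (Y ⊕ Z) R) = 0 := by
  ext m
  rw [coeff_bc, coeff_zero, ite_self]

theorem bc_sum {ι : Type*} (s : Finset ι) (u v : ℕ) (f : ι → MvPolynomial (Y ⊕ Z) R) :
    bc u v (∑ i ∈ s, f i) = ∑ i ∈ s, bc u v (f i) := by
  classical
  induction s using Finset.induction_on with
  | empty => rw [Finset.sum_empty, Finset.sum_empty, bc_zero]
  | insert i s hi ih => rw [Finset.sum_insert hi, Finset.sum_insert hi, bc_add, ih]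

theorem bc_C_mul (u v : ℕ) (a : R) (f : MvPolynomial (Y ⊕ Z) R) :
    bc u v (C a * f) = C a * bc u v f := by
  ext m
  rw [coeff_C_mul, coeff_bc, coeff_bc, coeff_C_mul]
  split_ifs
  · rfl
  · rw [mul_zero]

/-- The component of a bihomogeneous polynomial. -/
theorem bc_of_isBi {u v : ℕ} {f : MvPolynomial (Y ⊕ Z) R} (h : IsBi f u v) (u' v' : ℕ) :
    bc u' v' f = if u' = u ∧ v' = v then f else 0 := by
  ext m
  rw [coeff_bc]
  by_cases h0 : coeff m f = 0
  · rw [h0, ite_self]
    split_ifs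
    · exact h0.symm
    · rfl
  · obtain ⟨h1, h2⟩ := h m h0
    rw [h1, h2]
    by_cases h3 : u' = u ∧ v' = v
    · rw [if_pos h3, if_pos ⟨h3.1.symm, h3.2.symm⟩]
    · rw [if_neg h3, if_neg fun h4 => h3 ⟨h4.1.symm, h4.2.symm⟩, coeff_zero]

theorem bc_self {u v : ℕ} {f : MvPolynomial (Y ⊕ Z) R} (h : IsBi f u v) : bc u v f = f := by
  rw [bc_of_isBi h, if_pos ⟨rfl, rfl⟩]

theorem isBi_zero (u v : ℕ) : IsBi (0 : MvPolynomial (Y ⊕ Z) R) u v := by
  intro m hm
  rw [coeff_zero] at hm
  exact absurd rfl hm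

theorem isBi_add {u v : ℕ} {f g : MvPolynomial (Y ⊕ Z) R} (hf : IsBi f u v) (hg : IsBi g u v) :
    IsBi (f + g) u v := by
  rw [← bc_self hf, ← bc_self hg, ← bc_add]
  exact isBi_bc u v _

theorem isBi_sum {ι : Type*} (s : Finset ι) {u v : ℕ} (f : ι → MvPolynomial (Y ⊕ Z) R)
    (h : ∀ i ∈ s, IsBi (f i) u v) : IsBi (∑ i ∈ s, f i) u v := by
  have h1 : ∑ i ∈ s, f i = ∑ i ∈ s, bc u v (f i) :=
    Finset.sum_congr rfl fun i hi => (bc_self (h i hi)).symm
  rw [h1, ← bc_sum]
  exact isBi_bc u v _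

theorem isBi_C_mul {u v : ℕ} {f : MvPolynomial (Y ⊕ Z) R} (a : R) (hf : IsBi f u v) :
    IsBi (C a * f) u v := by
  rw [← bc_self hf, ← bc_C_mul]
  exact isBi_bc u v _

theorem isBi_one : IsBi (1 : MvPolynomial (Y ⊕ Z) R) 0 0 := by
  classical
  intro m hm
  rw [coeff_one] at hm
  have h : (0 : Y ⊕ Z →₀ ℕ) = m := by
    by_contra h
    exact hm (if_neg h)
  subst h
  simp [dY, dZ]

theorem isBi_monomial (m : Y ⊕ Z →₀ ℕ) (a : R) : IsBi (monomial m a) (dY m) (dZ m) := by
  classical
  intro m' hm'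
  rw [coeff_monomial] at hm'
  have h : m = m' := by
    by_contra h
    exact hm' (if_neg h)
  subst h
  exact ⟨rfl, rfl⟩

theorem deg_eq (m : Y ⊕ Z →₀ ℕ) : m.degree = dY m + dZ m := by
  rw [Finsupp.degree_eq_sum, Fintype.sum_sum_type]
  rfl

/-- Only the homogeneous component of degree `u + v` matters. -/
theorem bc_hc (u v i : ℕ) (f : MvPolynomial (Y ⊕ Z) R) :
    bc u v (homogeneousComponent i f) = if u + v = i then bc u v f else 0 := by
  ext m
  rw [coeff_bc, coeff_homogeneousComponent, deg_eq]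
  by_cases h : dY m = u ∧ dZ m = v
  · obtain ⟨rfl, rfl⟩ := h
    rw [if_pos ⟨rfl, rfl⟩]
    by_cases h2 : dY m + dZ m = i
    · rw [if_pos h2, if_pos h2, coeff_bc, if_pos ⟨rfl, rfl⟩]
    · rw [if_neg h2, if_neg h2, coeff_zero]
  · rw [if_neg h]
    split_ifs
    · rw [coeff_bc, if_neg h]
    · rw [coeff_zero]

theorem bc_map {S : Type} [CommSemiring S] (φ : R →+* S) (u v : ℕ) (f : MvPolynomial (Y ⊕ Z) R) :
    bc u v (MvPolynomial.map φ f) = MvPolynomial.map φ (bc u v f) := by
  ext m
  rw [coeff_bc, coeff_map, coeff_map, coeff_bc]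
  split_ifs
  · rfl
  · rw [map_zero]

end

end Pool.Agent.Work.MP_499dc6_lc.D3

end

section

/-!
# Sum over `A`
-/

namespace Pool.Agent.Work.MP_499dc6_lc.D3

open Finset

open scoped Nat

theorem ASum_fc {γ : Type} (s : γ → Bool) (m : ℕ) (A : Finset γ) : 0 ≤ fc s m A :=
  Finset.prod_nonneg fun _ _ => mul_nonneg (Nat.cast_nonneg _) (Nat.cast_nonneg _)

theorem ASum_num (k : ℕ) : (5 / 4 : ℝ) ^ (2 * k) ≤ Real.exp (7 / 4 * Real.log (3 / 2) * k) := by
  have h1 : Real.exp (7 / 4 * Real.log (3 / 2) * k) = Real.exp (7 / 4 * Real.log (3 / 2)) ^ k := by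
    rw [← Real.exp_nat_mul]
    ring_nf
  have h2 : Real.exp (7 / 4 * Real.log (3 / 2)) ^ 4 = (3 / 2 : ℝ) ^ 7 := by
    rw [← Real.exp_nat_mul]
    have h3 : ((4 : ℕ) : ℝ) * (7 / 4 * Real.log (3 / 2)) = ((7 : ℕ) : ℝ) * Real.log (3 / 2) := by
      push_cast
      ring
    rw [h3, Real.exp_nat_mul, Real.exp_log (by norm_num)]
  have h3 : (25 / 16 : ℝ) ≤ Real.exp (7 / 4 * Real.log (3 / 2)) := by
    have h4 : (25 / 16 : ℝ) ^ 4 ≤ Real.exp (7 / 4 * Real.log (3 / 2)) ^ 4 := by
      rw [h2]
      norm_num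
    exact (pow_le_pow_iff_left₀ (by norm_num) (Real.exp_pos _).le (by norm_num)).1 h4
  rw [h1, pow_mul]
  have h5 : (5 / 4 : ℝ) ^ 2 = 25 / 16 := by norm_num
  rw [h5]
  exact pow_le_pow_left₀ (by norm_num) h3 k

theorem ASum_card {α β : Type} [Fintype α] [Fintype β] [DecidableEq α] [DecidableEq β]
    (s : α ⊕ β → Bool) (b : Bool) :
    (univ.filter fun x => s x = b).card = (univ.filter fun a => s (Sum.inl a) = b).card +
      (univ.filter fun u => s (Sum.inr u) = b).card := by
  rw [Finset.card_filter, Finset.card_filter, Finset.card_filter, Fintype.sum_sum_type]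

theorem pr_ASum (hM : S_Mass) (hH : S_HypSum) (hF : S_FBound) : S_ASum := by
  intro w k s q hw hk hq hqe hZ hU
  have hY : ∀ b, (univ.filter fun x : CY (w * k) k => s x = b).card = w * k + k := by
    intro b
    rw [ASum_card, hZ, hU]
  have m1 := hM _ s (w * k + k) hY
  have m2 := hM _ (fun a : CZ (w * k) => s (Sum.inl a)) (w * k) hZ
  have m3 := hH _ _ s (w * k + k) k hY hU
  set E := Real.exp (7 / 4 * Real.log (3 / 2) * k) with hE
  have hEpos : 0 < E := Real.exp_pos _
  set F : Finset (CY (w * k) k) → ℝ := fun AY =>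
    if 2 * AY.card ≤ w * k + k then (3 / 2 : ℝ) ^ (Ur AY).card else 0 with hFdef
  have h1 : (∑ AY : Finset (CY (w * k) k), ∑ AZ : Finset (CZ (w * k)),
      ((3 / 2 : ℝ) ^ (Ur AY).card * (q * (3 / 2)) ^ AZ.card * (3 / 4) ^ (Out AY AZ).card) *
        (fc s (w * k + k) AY * fc (fun a => s (Sum.inl a)) (w * k) AZ)) ≤
      ∑ AY : Finset (CY (w * k) k), ∑ AZ : Finset (CZ (w * k)), (E + F AY) *
        (fc s (w * k + k) AY * fc (fun a => s (Sum.inl a)) (w * k) AZ) := by
    refine Finset.sum_le_sum fun AY _ => Finset.sum_le_sum fun AZ _ => ?_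
    exact mul_le_mul_of_nonneg_right (hF w k AY AZ q hw hk hq hqe)
      (mul_nonneg (ASum_fc _ _ _) (ASum_fc _ _ _))
  refine h1.trans ?_
  have h2 : (∑ AY : Finset (CY (w * k) k), ∑ AZ : Finset (CZ (w * k)), (E + F AY) *
        (fc s (w * k + k) AY * fc (fun a => s (Sum.inl a)) (w * k) AZ)) =
      (E * ∑ AY : Finset (CY (w * k) k), fc s (w * k + k) AY +
        ∑ AY : Finset (CY (w * k) k), F AY * fc s (w * k + k) AY) *
        ∑ AZ : Finset (CZ (w * k)), fc (fun a => s (Sum.inl a)) (w * k) AZ := by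
    have h3 : E * ∑ AY : Finset (CY (w * k) k), fc s (w * k + k) AY +
        ∑ AY : Finset (CY (w * k) k), F AY * fc s (w * k + k) AY =
        ∑ AY : Finset (CY (w * k) k), (E + F AY) * fc s (w * k + k) AY := by
      rw [Finset.mul_sum, ← Finset.sum_add_distrib]
      refine Finset.sum_congr rfl fun AY _ => ?_
      ring
    rw [h3, Finset.sum_mul]
    refine Finset.sum_congr rfl fun AY _ => ?_
    rw [Finset.mul_sum]
    refine Finset.sum_congr rfl fun AZ _ => ?_
    ring
  rw [h2, m2, m1]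
  have h3 : ∑ AY : Finset (CY (w * k) k), F AY * fc s (w * k + k) AY ≤
      E * ((((w * k + k : ℕ) : ℝ) + 1) * (w * k + k)!) ^ 2 := by
    have h4 : ∑ AY : Finset (CY (w * k) k), F AY * fc s (w * k + k) AY =
        ∑ A : Finset (CY (w * k) k),
          if 2 * A.card ≤ w * k + k then (3 / 2 : ℝ) ^ (Ur A).card * fc s (w * k + k) A else 0 := by
      refine Finset.sum_congr rfl fun A _ => ?_
      rw [hFdef]
      simp only
      split_ifs
      · rfl
      · rw [zero_mul]
    rw [h4]
    refine m3.trans ?_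
    rw [mul_comm]
    exact mul_le_mul_of_nonneg_right (ASum_num k) (sq_nonneg _)
  have h5 : 0 ≤ ((((w * k : ℕ) : ℝ) + 1) * (w * k)!) ^ 2 := sq_nonneg _
  have h6 := mul_le_mul_of_nonneg_right
    (add_le_add_right h3 (E * ((((w * k + k : ℕ) : ℝ) + 1) * (w * k + k)!) ^ 2)) h5
  refine h6.trans (le_of_eq ?_)
  ring

end Pool.Agent.Work.MP_499dc6_lc.D3

end

section

/-!
# D3, item BSum: the sum over `B`
-/

namespace Pool.Agent.Work.MP_499dc6_lc.D3

open Finset Nat

theorem BSum_one (N : ℕ) :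
    (∑ j ∈ range (N + 1), (N.choose j : ℝ) * (j ! : ℝ)) ≤ Real.exp 1 * (N ! : ℝ) := by
  have h1 : (∑ j ∈ range (N + 1), (N.choose j : ℝ) * (j ! : ℝ)) =
      (N ! : ℝ) * ∑ j ∈ range (N + 1), (1 : ℝ) ^ j / (j ! : ℝ) := by
    rw [← Finset.sum_range_reflect (fun j => (1 : ℝ) ^ j / (j ! : ℝ)), Finset.mul_sum]
    refine Finset.sum_congr rfl fun j hj => ?_
    have hj' : j ≤ N := by
      have := Finset.mem_range.1 hj
      omega
    have e : N + 1 - 1 - j = N - j := by omega
    rw [e, one_pow]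
    have h2 : (N.choose j : ℝ) * (j ! : ℝ) * ((N - j)! : ℝ) = (N ! : ℝ) := by
      exact_mod_cast Nat.choose_mul_factorial_mul_factorial hj'
    have h3 : ((N - j)! : ℝ) ≠ 0 := by
      exact_mod_cast Nat.factorial_ne_zero _
    field_simp
    linarith
  rw [h1, mul_comm (Real.exp 1)]
  refine mul_le_mul_of_nonneg_left ?_ (by positivity)
  exact Real.sum_le_exp_of_nonneg zero_le_one _

theorem BSum_pow {γ : Type} (X : Finset γ) :
    (∑ B ∈ X.powerset, ((B.card)! : ℝ)) ≤ Real.exp 1 * ((X.card)! : ℝ) := by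
  rw [Finset.sum_powerset_apply_card (fun n => ((n)! : ℝ))]
  simp only [nsmul_eq_mul]
  exact BSum_one _

theorem pr_BSum : S_BSum := by
  classical
  intro γ _ _ s m hm A
  have hX : ∀ b, ((univ.filter fun x => s x = b) \ A).card = m - ns s A b := by
    intro b
    rw [Finset.card_sdiff, hm b]
    congr 1
    unfold ns
    congr 1
    ext x
    simp only [mem_inter, mem_filter, mem_univ, true_and]
  have hsum : (∑ B ∈ univ.filter (fun B : Finset γ => Disjoint A B),
      ∏ b : Bool, ((ns s B b)! : ℝ)) =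
      ∑ p ∈ ((univ.filter fun x => s x = true) \ A).powerset ×ˢ
        ((univ.filter fun x => s x = false) \ A).powerset,
        ((p.1.card)! : ℝ) * ((p.2.card)! : ℝ) := by
    refine Finset.sum_nbij' (fun B => (B.filter fun x => s x = true, B.filter fun x => s x = false))
      (fun p => p.1 ∪ p.2) ?_ ?_ ?_ ?_ ?_
    · intro B hB
      rw [mem_filter] at hB
      rw [mem_product, mem_powerset, mem_powerset]
      constructor <;>
      · intro x hx
        rw [mem_filter] at hx
        rw [mem_sdiff, mem_filter]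
        exact ⟨⟨mem_univ _, hx.2⟩, fun hA => (Finset.disjoint_left.1 hB.2 hA) hx.1⟩
    · intro p hp
      rw [mem_product, mem_powerset, mem_powerset] at hp
      rw [mem_filter]
      refine ⟨mem_univ _, Finset.disjoint_left.2 fun x hA hx => ?_⟩
      rw [mem_union] at hx
      rcases hx with hx | hx
      · exact (mem_sdiff.1 (hp.1 hx)).2 hA
      · exact (mem_sdiff.1 (hp.2 hx)).2 hA
    · intro B _
      ext x
      simp only [mem_union, mem_filter]
      cases hs : s x <;> simp
    · intro p hp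
      rw [mem_product, mem_powerset, mem_powerset] at hp
      have h1 : ∀ x ∈ p.1, s x = true := fun x hx =>
        (mem_filter.1 (mem_sdiff.1 (hp.1 hx)).1).2
      have h2 : ∀ x ∈ p.2, s x = false := fun x hx =>
        (mem_filter.1 (mem_sdiff.1 (hp.2 hx)).1).2
      refine Prod.ext ?_ ?_
      · ext x
        simp only [mem_union, mem_filter]
        constructor
        · rintro ⟨h | h, hs⟩
          · exact h
          · rw [h2 x h] at hs; exact absurd hs (by decide)
        · intro h; exact ⟨Or.inl h, h1 x h⟩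
      · ext x
        simp only [mem_union, mem_filter]
        constructor
        · rintro ⟨h | h, hs⟩
          · rw [h1 x h] at hs; exact absurd hs (by decide)
          · exact h
        · intro h; exact ⟨Or.inr h, h2 x h⟩
    · intro B _
      rw [Fintype.prod_bool]
      rfl
  rw [hsum, Finset.sum_product, Fintype.prod_bool]
  have h1 := BSum_pow ((univ.filter fun x => s x = true) \ A)
  have h2 := BSum_pow ((univ.filter fun x => s x = false) \ A)
  rw [hX] at h1 h2
  have h3 : (∑ x ∈ ((univ.filter fun x => s x = true) \ A).powerset,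
      ∑ y ∈ ((univ.filter fun x => s x = false) \ A).powerset,
        ((x.card)! : ℝ) * ((y.card)! : ℝ)) =
      (∑ x ∈ ((univ.filter fun x => s x = true) \ A).powerset, ((x.card)! : ℝ)) *
      (∑ y ∈ ((univ.filter fun x => s x = false) \ A).powerset, ((y.card)! : ℝ)) := by
    rw [Finset.sum_mul_sum]
  rw [h3]
  have he : Real.exp 1 * Real.exp 1 ≤ 8 := by
    have := Real.exp_one_lt_d9
    have h0 := Real.exp_pos 1
    nlinarith
  calc _ ≤ (Real.exp 1 * ((m - ns s A true)! : ℝ)) * (Real.exp 1 * ((m - ns s A false)! : ℝ)) := by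
        refine mul_le_mul h1 h2 (by positivity) (by positivity)
    _ = (Real.exp 1 * Real.exp 1) * (((m - ns s A true)! : ℝ) * ((m - ns s A false)! : ℝ)) := by
        ring
    _ ≤ 8 * (((m - ns s A true)! : ℝ) * ((m - ns s A false)! : ℝ)) := by
        refine mul_le_mul_of_nonneg_right he (by positivity)

end Pool.Agent.Work.MP_499dc6_lc.D3

end

section

/-!
# Depth three circuits: trivial bound for one bihomogeneous polynomial
-/

namespace Pool.Agent.Work.MP_499dc6_lc.D3

open MvPolynomial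
open Pool.Agent.Work.MP_499dc6_lc.CD

theorem BiBB_one {Y Z : Type} [Fintype Y] [Fintype Z] {K : Type} [Field K] :
    IsBi (1 : MvPolynomial (Y ⊕ Z) K) 0 0 := by
  classical
  intro m hm
  rw [coeff_one] at hm
  have h0 : (0 : Y ⊕ Z →₀ ℕ) = m := by
    by_contra h
    exact hm (if_neg h)
  subst h0
  simp [dY, dZ]

theorem pr_BiBB : S_BiBB := by
  intro Y Z _ _ K _ al be u v g hg
  rcases le_or_gt 0 ((u : ℝ) * al - v * be) with h | h
  · have h1 := BB.term (al := al) (be := be) hg (BiBB_one (Y := Y) (Z := Z) (K := K))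
    rw [mul_one] at h1
    refine h1.mono (le_of_eq ?_)
    rw [abs_of_nonneg h]
    congr 1
    push_cast
    ring
  · have h1 := BB.term (al := al) (be := be) (BiBB_one (Y := Y) (Z := Z) (K := K)) hg
    rw [one_mul] at h1
    refine h1.mono (le_of_eq ?_)
    rw [abs_of_neg h]
    congr 1
    push_cast
    ring

end Pool.Agent.Work.MP_499dc6_lc.D3

end

section

/-!
# The number of good pairs of permutations with given supports
-/

namespace Pool.Agent.Work.MP_499dc6_lc.D3

open Equiv Finset Nat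

/-- Number of permutations with support in `A` which preserve `f`. -/
theorem Cnt_stab {γ : Type} [Fintype γ] [DecidableEq γ] (f : γ → Bool) (A : Finset γ) :
    (univ.filter fun h : Perm γ => (∀ x, x ∉ A → h x = x) ∧ ∀ x, f (h x) = f x).card ≤
      ∏ b : Bool, (ns f A b)! := by
  classical
  let F : γ → Bool ⊕ γ := fun x => if x ∈ A then Sum.inl (f x) else Sum.inr x
  have hF : ∀ x, F x = if x ∈ A then Sum.inl (f x) else Sum.inr x := fun x => rfl
  have h1 : (univ.filter fun h : Perm γ => (∀ x, x ∉ A → h x = x) ∧ ∀ x, f (h x) = f x).card ≤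
      (univ.filter fun h : Perm γ => F ∘ h = F).card := by
    apply Finset.card_le_card
    intro h hh
    rw [Finset.mem_filter] at hh ⊢
    refine ⟨hh.1, funext fun x => ?_⟩
    rw [Function.comp_apply, hF, hF]
    by_cases hx : x ∈ A
    · have hx' : h x ∈ A := by
        by_contra hn
        have h2 := hh.2.1 _ hn
        rw [h.injective h2] at hn
        exact hn hx
      rw [if_pos hx, if_pos hx', hh.2.2 x]
    · rw [hh.2.1 x hx]
  refine h1.trans ?_
  rw [← Fintype.card_subtype, DomMulAct.stabilizer_card F, Fintype.prod_sum_type]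
  have h2 : ∀ b : Bool, Fintype.card {a // F a = Sum.inl b} = ns f A b := by
    intro b
    rw [Fintype.card_subtype, ns]
    congr 1
    ext x
    rw [Finset.mem_filter, Finset.mem_filter, hF]
    by_cases hx : x ∈ A
    · simp [hx]
    · simp [hx]
  have h3 : ∀ y : γ, (Fintype.card {a // F a = Sum.inr y})! = 1 := by
    intro y
    rw [Nat.factorial_eq_one, Fintype.card_le_one_iff]
    rintro ⟨a, ha⟩ ⟨b, hb⟩
    apply Subtype.ext
    rw [hF] at ha hb
    split_ifs at ha hb
    exact (Sum.inr.inj ha).trans (Sum.inr.inj hb).symm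
  simp only [h2, h3, Finset.prod_const_one, mul_one, le_refl]

/-- Number of permutations with support `A` which move the pattern `f` to `f'`. -/
theorem Cnt_one {γ : Type} [Fintype γ] [DecidableEq γ] (f f' : γ → Bool) (A : Finset γ) :
    (univ.filter fun π : Perm γ => π.support = A ∧ ∀ x, f (π.symm x) = f' x).card ≤
      ∏ b : Bool, (ns f A b)! := by
  classical
  rcases (univ.filter fun π : Perm γ => π.support = A ∧
    ∀ x, f (π.symm x) = f' x).eq_empty_or_nonempty with he | ⟨π0, h0⟩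
  · rw [he, Finset.card_empty]
    exact Nat.zero_le _
  · rw [Finset.mem_filter] at h0
    refine le_trans ?_ (Cnt_stab f A)
    apply Finset.card_le_card_of_injOn (fun π => π⁻¹ * π0)
    · intro π hπ
      rw [Finset.mem_coe, Finset.mem_filter] at hπ
      rw [Finset.mem_coe, Finset.mem_filter]
      refine ⟨Finset.mem_univ _, fun x hx => ?_, fun x => ?_⟩
      · have h1 : π0 x = x := by
          rw [← h0.2.1] at hx
          exact Equiv.Perm.notMem_support.1 hx
        have h2 : π x = x := by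
          rw [← hπ.2.1] at hx
          exact Equiv.Perm.notMem_support.1 hx
        rw [Equiv.Perm.mul_apply, h1, Equiv.Perm.inv_eq_iff_eq, h2]
      · rw [Equiv.Perm.mul_apply]
        have h1 := hπ.2.2 (π0 x)
        have h2 := h0.2.2 (π0 x)
        rw [Equiv.symm_apply_apply] at h2
        rw [h2, ← h1]
        rfl
    · intro π _ π' _ h
      simp only at h
      exact inv_injective (mul_right_cancel h)

theorem Cnt_pat {γ : Type} [Fintype γ] [DecidableEq γ] (s : γ → Bool) (I : Finset γ) :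
    (univ.filter fun p : γ → Bool => ∀ x, x ∉ I → p x = s x).card ≤ 2 ^ I.card := by
  classical
  have h1 : (univ.filter fun p : γ → Bool => ∀ x, x ∉ I → p x = s x) ⊆
      Fintype.piFinset (fun x => if x ∈ I then (univ : Finset Bool) else {s x}) := by
    intro p hp
    rw [Finset.mem_filter] at hp
    rw [Fintype.mem_piFinset]
    intro x
    by_cases hx : x ∈ I
    · rw [if_pos hx]
      exact Finset.mem_univ _
    · rw [if_neg hx, Finset.mem_singleton]
      exact hp.2 x hx
  refine (Finset.card_le_card h1).trans ?_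
  rw [Fintype.card_piFinset]
  have h2 : ∀ x : γ, (if x ∈ I then (univ : Finset Bool) else {s x}).card =
      if x ∈ I then 2 else 1 := by
    intro x
    by_cases hx : x ∈ I
    · rw [if_pos hx, if_pos hx]
      rfl
    · rw [if_neg hx, if_neg hx, Finset.card_singleton]
  rw [Fintype.prod_congr _ _ h2, Finset.prod_ite_mem, Finset.univ_inter, Finset.prod_const]

theorem pr_Cnt : S_Cnt := by
  classical
  intro α β _ _ _ _ s A B
  let F : Good s → (α ⊕ β → Bool) := fun g x => s (g.1.1.symm x)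
  set S := univ.filter fun g : Good s => g.1.1.support = A ∧ g.1.2.support = B with hS
  have h1 : S.card ≤ ((∏ b : Bool, (ns s A b)!) *
      ∏ b : Bool, (ns (fun a => s (Sum.inl a)) B b)!) * (S.image F).card := by
    apply Finset.card_le_mul_card_image
    intro p hp
    have h2 : (S.filter fun g => F g = p).card ≤
        ((univ.filter fun π : Perm (α ⊕ β) => π.support = A ∧ ∀ x, s (π.symm x) = p x) ×ˢ
        (univ.filter fun ρ : Perm α => ρ.support = B ∧
          ∀ x, s (Sum.inl (ρ.symm x)) = p (Sum.inl x))).card := by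
      apply Finset.card_le_card_of_injOn (fun g => g.1)
      · intro g hg
        rw [Finset.mem_coe, Finset.mem_filter, hS, Finset.mem_filter] at hg
        rw [Finset.mem_coe, Finset.mem_product, Finset.mem_filter, Finset.mem_filter]
        refine ⟨⟨Finset.mem_univ _, hg.1.2.1, fun x => congrFun hg.2 x⟩,
          Finset.mem_univ _, hg.1.2.2, fun x => ?_⟩
        rw [← g.2 x]
        exact congrFun hg.2 (Sum.inl x)
      · intro g _ g' _ h
        exact Subtype.ext h
    refine h2.trans ?_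
    rw [Finset.card_product]
    exact Nat.mul_le_mul (Cnt_one _ _ _) (Cnt_one (fun a => s (Sum.inl a)) _ _)
  have h3 : (S.image F).card ≤ 2 ^ (In A B).card := by
    refine (Finset.card_le_card ?_).trans (Cnt_pat s (In A B))
    intro p hp
    rw [Finset.mem_image] at hp
    obtain ⟨g, hg, rfl⟩ := hp
    rw [hS, Finset.mem_filter] at hg
    rw [Finset.mem_filter]
    refine ⟨Finset.mem_univ _, fun x hx => ?_⟩
    change s (g.1.1.symm x) = s x
    by_cases hxA : x ∈ A
    · rcases x with a | b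
      · have hB : a ∉ B := by
          intro hB
          apply hx
          simp [In, hxA, hB]
        rw [← hg.2.2] at hB
        have h4 := Equiv.Perm.notMem_support.1 hB
        rw [g.2 a, Equiv.symm_apply_eq _ |>.2 h4.symm]
      · exact absurd (by simp [In, hxA]) hx
    · rw [← hg.2.1] at hxA
      have h4 := Equiv.Perm.notMem_support.1 hxA
      rw [Equiv.symm_apply_eq _ |>.2 h4.symm]
  refine h1.trans ((Nat.mul_le_mul_left _ h3).trans (le_of_eq ?_))
  ring

end Pool.Agent.Work.MP_499dc6_lc.D3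

end

section

namespace Pool.Agent.Work.MP_499dc6_lc.D3

open MvPolynomial Equiv Finset
open Pool.Agent.Work.MP_499dc6_lc.CD

open scoped Nat

/-- Pattern of two sets. -/
def CodeCard_pat {α β : Type} [DecidableEq α] [DecidableEq β] (s : Finset α) (t : Finset β) :
    α ⊕ β → Bool := Sum.elim (fun a => decide (a ∈ s)) (fun u => decide (u ∈ t))

theorem CodeCard_sd (n k : ℕ) (c : Bool) : Fintype.card {x : CY n k // sd x = c} = n + k := by
  rw [Fintype.card_subtype, Finset.card_filter, Fintype.sum_sum_type, Fintype.sum_prod_type,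
    Fintype.sum_prod_type]
  simp only [sd, Sum.elim_inl, Sum.elim_inr, Finset.sum_const, Finset.card_univ, Fintype.card_fin,
    smul_eq_mul, Fintype.sum_bool]
  cases c <;> simp

theorem CodeCard_fst (n : ℕ) (c : Bool) : Fintype.card {x : CZ n // x.1 = c} = n := by
  rw [Fintype.card_subtype, Finset.card_filter, Fintype.sum_prod_type]
  simp only [Finset.sum_const, Finset.card_univ, Fintype.card_fin,
    smul_eq_mul, Fintype.sum_bool]
  cases c <;> simp

theorem CodeCard_mem {α : Type} [Fintype α] [DecidableEq α] (s : Finset α) (c : Bool) :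
    Fintype.card {x : α // decide (x ∈ s) = c} =
      if c = true then s.card else Fintype.card α - s.card := by
  rw [Fintype.card_subtype]
  cases c
  · simp only [decide_eq_false_iff_not, Bool.false_eq_true, if_false]
    rw [← Finset.card_compl]
    congr 1
    ext x
    simp
  · simp

theorem CodeCard_patc {α β : Type} [Fintype α] [Fintype β] [DecidableEq α] [DecidableEq β]
    (s : Finset α) (t : Finset β) (c : Bool) :
    Fintype.card {x : α ⊕ β // CodeCard_pat s t x = c} =
      (if c = true then s.card else Fintype.card α - s.card) +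
        (if c = true then t.card else Fintype.card β - t.card) := by
  rw [← CodeCard_mem s c, ← CodeCard_mem t c, Fintype.card_subtype, Fintype.card_subtype,
    Fintype.card_subtype, Finset.card_filter, Fintype.sum_sum_type, Finset.card_filter,
    Finset.card_filter]
  rfl

theorem CodeCard_ex {α : Type} [Fintype α] [DecidableEq α] (f g : α → Bool)
    (h : ∀ c, Fintype.card {x // f x = c} = Fintype.card {x // g x = c}) :
    ∃ e : Perm α, ∀ x, g (e.symm x) = f x := by
  refine ⟨(Equiv.ofFiberEquiv (f := f) (g := g) fun c => Fintype.equivOfCardEq (h c)).symm, ?_⟩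
  intro x
  rw [Equiv.symm_symm]
  exact Equiv.ofFiberEquiv_map _ x

theorem CodeCard_stab {α : Type} [Fintype α] [DecidableEq α] (f : α → Bool) (N : ℕ)
    (h : ∀ c, Fintype.card {x // f x = c} = N) :
    Fintype.card {g : Perm α // f ∘ ⇑g = f} = (N !) ^ 2 := by
  rw [DomMulAct.stabilizer_card]
  simp only [h, Finset.prod_const, Finset.card_univ, Fintype.card_bool]

theorem CodeCard_inj (n k : ℕ) :
    Fintype.card (({s : Finset (CZ n) // s.card = n} × {t : Finset (Bool × Fin k) // t.card = k}) ×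
      ({g : Perm (CY n k) // sd ∘ ⇑g = sd} × {g : Perm (CZ n) // Prod.fst ∘ ⇑g = Prod.fst})) ≤
      Fintype.card (Code n k) := by
  have h1 : ∀ (s : {s : Finset (CZ n) // s.card = n})
      (t : {t : Finset (Bool × Fin k) // t.card = k}),
      ∃ e : Perm (CY n k), ∀ x, sd (e.symm x) = CodeCard_pat s.1 t.1 x := by
    intro s t
    apply CodeCard_ex
    intro c
    rw [CodeCard_sd, CodeCard_patc, s.2, t.2]
    simp only [Fintype.card_prod, Fintype.card_bool, Fintype.card_fin]
    split_ifs <;> omega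
  have h2 : ∀ (s : {s : Finset (CZ n) // s.card = n}),
      ∃ e : Perm (CZ n), ∀ x, (e.symm x).1 = decide (x ∈ s.1) := by
    intro s
    apply CodeCard_ex (fun x => decide (x ∈ s.1)) Prod.fst
    intro c
    rw [CodeCard_fst, CodeCard_mem, s.2]
    simp only [Fintype.card_prod, Fintype.card_bool, Fintype.card_fin]
    split_ifs <;> omega
  choose E hE using h1
  choose F hF using h2
  apply Fintype.card_le_of_injective (fun (q :
    ({s : Finset (CZ n) // s.card = n} × {t : Finset (Bool × Fin k) // t.card = k}) ×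
      ({g : Perm (CY n k) // sd ∘ ⇑g = sd} × {g : Perm (CZ n) // Prod.fst ∘ ⇑g = Prod.fst})) =>
    (⟨(E q.1.1 q.1.2 * (q.2.1.1)⁻¹, F q.1.1 * (q.2.2.1)⁻¹), by
      intro a
      have e1 : (E q.1.1 q.1.2 * (q.2.1.1)⁻¹).symm (Sum.inl a) =
          q.2.1.1 ((E q.1.1 q.1.2).symm (Sum.inl a)) := rfl
      have e2 : (F q.1.1 * (q.2.2.1)⁻¹).symm a = q.2.2.1 ((F q.1.1).symm a) := rfl
      rw [e1, e2]
      have e3 : sd (q.2.1.1 ((E q.1.1 q.1.2).symm (Sum.inl a))) =
          sd ((E q.1.1 q.1.2).symm (Sum.inl a)) := congrFun q.2.1.2 _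
      have e4 : (q.2.2.1 ((F q.1.1).symm a)).1 = ((F q.1.1).symm a).1 := congrFun q.2.2.2 _
      rw [e3, e4, hE, hF]
      rfl⟩ : Code n k))
  rintro ⟨⟨s, t⟩, g, h⟩ ⟨⟨s', t'⟩, g', h'⟩ heq
  have hp := congrArg Subtype.val heq
  have hp1 : E s t * g.1⁻¹ = E s' t' * g'.1⁻¹ := congrArg Prod.fst hp
  have hp2 : F s * h.1⁻¹ = F s' * h'.1⁻¹ := congrArg Prod.snd hp
  have key : ∀ x, CodeCard_pat s.1 t.1 x = CodeCard_pat s'.1 t'.1 x := by
    intro x
    have e1 : sd ((E s t * g.1⁻¹).symm x) = CodeCard_pat s.1 t.1 x := by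
      rw [← hE]
      exact congrFun g.2 _
    have e2 : sd ((E s' t' * g'.1⁻¹).symm x) = CodeCard_pat s'.1 t'.1 x := by
      rw [← hE]
      exact congrFun g'.2 _
    rw [← e1, ← e2, hp1]
  have hs : s = s' := by
    apply Subtype.ext
    ext a
    have := key (Sum.inl a)
    simp only [CodeCard_pat, Sum.elim_inl, decide_eq_decide] at this
    exact this
  have ht : t = t' := by
    apply Subtype.ext
    ext a
    have := key (Sum.inr a)
    simp only [CodeCard_pat, Sum.elim_inr, decide_eq_decide] at this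
    exact this
  subst hs
  subst ht
  have hg : g = g' := by
    apply Subtype.ext
    exact inv_injective (mul_left_cancel hp1)
  have hh : h = h' := by
    apply Subtype.ext
    exact inv_injective (mul_left_cancel hp2)
  rw [hg, hh]

theorem pr_CodeCard : S_CodeCard := by
  intro n k hn hk
  have h := CodeCard_inj n k
  rw [Fintype.card_prod, Fintype.card_prod, Fintype.card_prod, Fintype.card_finset_len,
    Fintype.card_finset_len, CodeCard_stab sd (n + k) (CodeCard_sd n k),
    CodeCard_stab Prod.fst n (CodeCard_fst n)] at h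
  simp only [Fintype.card_prod, Fintype.card_bool, Fintype.card_fin] at h
  have hn4 := Nat.four_pow_le_two_mul_self_mul_centralBinom n hn
  have hk4 := Nat.four_pow_le_two_mul_self_mul_centralBinom k hk
  rw [Nat.centralBinom] at hn4 hk4
  calc 4 ^ (n + k) * ((n + k)!) ^ 2 * (n !) ^ 2
      = (4 ^ n * 4 ^ k) * (((n + k)!) ^ 2 * (n !) ^ 2) := by ring
    _ ≤ ((2 * n * (2 * n).choose n) * (2 * k * (2 * k).choose k)) *
        (((n + k)!) ^ 2 * (n !) ^ 2) := Nat.mul_le_mul_right _ (Nat.mul_le_mul hn4 hk4)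
    _ = ((2 * n).choose n * (2 * k).choose k * (((n + k)!) ^ 2 * (n !) ^ 2)) *
        ((2 * n) * (2 * k)) := by ring
    _ ≤ Fintype.card (Code n k) * ((2 * n + 1) * (2 * k + 1)) :=
        Nat.mul_le_mul h (Nat.mul_le_mul (Nat.le_succ _) (Nat.le_succ _))

end Pool.Agent.Work.MP_499dc6_lc.D3

end

section

/-!
# FBound: pointwise bound in three cases (helper19)
-/

namespace Pool.Agent.Work.MP_499dc6_lc.D3

open Finset
open Pool.Agent.Work.MP_499dc6_lc.CD

theorem FBound_Ur {w k : ℕ} (AY : Finset (CY (w * k) k)) : (Ur AY).card ≤ 2 * k := by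
  have h : Ur AY ⊆ (univ : Finset (Bool × Fin k)).image Sum.inr := by
    intro x hx
    unfold Ur at hx
    rw [mem_filter] at hx
    rcases x with x | x
    · simp at hx
    · exact mem_image_of_mem _ (mem_univ _)
  refine (card_le_card h).trans (card_image_le.trans ?_)
  simp

theorem FBound_Out {w k : ℕ} (AY : Finset (CY (w * k) k)) (AZ : Finset (CZ (w * k))) :
    AY.card ≤ (Ur AY).card + AZ.card + (Out AY AZ).card := by
  have h : AY ⊆ (Ur AY ∪ AZ.image Sum.inl) ∪ Out AY AZ := by
    intro x hx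
    rcases x with x | x
    · by_cases hz : x ∈ AZ
      · exact mem_union_left _ (mem_union_right _ (mem_image_of_mem _ hz))
      · refine mem_union_right _ ?_
        unfold Out
        rw [mem_filter]
        exact ⟨hx, by simpa using hz⟩
    · refine mem_union_left _ (mem_union_left _ ?_)
      unfold Ur
      rw [mem_filter]
      exact ⟨hx, rfl⟩
  refine (card_le_card h).trans ((card_union_le _ _).trans (Nat.add_le_add_right
    ((card_union_le _ _).trans (Nat.add_le_add_left card_image_le _)) _))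

theorem pr_FBound : S_FBound := by
  intro w k AY AZ q hw hk hq hqe
  have hu := FBound_Ur AY
  have ho := FBound_Out AY AZ
  set u := (Ur AY).card
  set z := AZ.card
  set o := (Out AY AZ).card
  set a := AY.card
  set L := Real.log (3 / 2) with hL
  have hL0 : 0 < L := Real.log_pos (by norm_num)
  have hexp : Real.exp L = 3 / 2 := Real.exp_log (by norm_num)
  have hw0 : (0 : ℝ) < w := by exact_mod_cast (by omega : 0 < w)
  have hk0 : (0 : ℝ) < k := by exact_mod_cast hk
  have h1 : (q * (3 / 2)) ^ z = Real.exp (-(L * z / w)) := by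
    rw [hqe, ← Real.exp_nat_mul]
    congr 1
    ring
  have h1' : (q * (3 / 2)) ^ z ≤ 1 := by
    rw [h1]
    exact Real.exp_le_one_iff.2 (neg_nonpos.2 (by positivity))
  have h1n : 0 ≤ (q * (3 / 2)) ^ z := by positivity
  have h2 : (3 / 4 : ℝ) ^ o ≤ 1 := pow_le_one₀ (by norm_num) (by norm_num)
  have h3 : (3 / 2 : ℝ) ^ u ≤ (3 / 2) ^ (2 * k) := pow_le_pow_right₀ (by norm_num) hu
  have h4 : (3 / 2 : ℝ) ^ (2 * k) = Real.exp (2 * L * k) := by
    rw [← hexp, ← Real.exp_nat_mul]
    congr 1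
    push_cast
    ring
  have hif : (0 : ℝ) ≤ if 2 * a ≤ w * k + k then (3 / 2 : ℝ) ^ u else 0 := by
    split_ifs <;> positivity
  by_cases hA : w * k ≤ 4 * z
  · have h5 : (q * (3 / 2)) ^ z ≤ Real.exp (-(L * k / 4)) := by
      rw [h1]
      refine Real.exp_le_exp.2 (neg_le_neg ?_)
      rw [div_le_div_iff₀ (by norm_num) hw0]
      have : (w : ℝ) * k ≤ 4 * z := by exact_mod_cast hA
      nlinarith
    have h6 : (3 / 2 : ℝ) ^ u * (q * (3 / 2)) ^ z * (3 / 4) ^ o ≤
        Real.exp (2 * L * k) * Real.exp (-(L * k / 4)) * 1 := by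
      refine mul_le_mul (mul_le_mul (h3.trans h4.le) h5 h1n (Real.exp_pos _).le) h2
        (by positivity) (by positivity)
    rw [mul_one, ← Real.exp_add] at h6
    have h7 : 2 * L * k + -(L * k / 4) = 7 / 4 * L * k := by ring
    rw [h7] at h6
    linarith
  · by_cases hC : 2 * a ≤ w * k + k
    · rw [if_pos hC]
      have h6 : (3 / 2 : ℝ) ^ u * (q * (3 / 2)) ^ z * (3 / 4) ^ o ≤ (3 / 2) ^ u * 1 * 1 := by
        refine mul_le_mul (mul_le_mul_of_nonneg_left h1' (by positivity)) h2
          (by positivity) (by positivity)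
      rw [mul_one, mul_one] at h6
      linarith [Real.exp_pos (7 / 4 * L * k)]
    · have hwk : 32 * k ≤ w * k := Nat.mul_le_mul_right _ hw
      have h5 : 13 * k ≤ 2 * o := by omega
      have h6 : ((3 / 2 : ℝ) ^ u * (3 / 4) ^ o) ^ 2 ≤ 1 := by
        calc ((3 / 2 : ℝ) ^ u * (3 / 4) ^ o) ^ 2 = ((3 / 2 : ℝ) ^ u) ^ 2 * (3 / 4) ^ (2 * o) := by
              rw [mul_pow, ← pow_mul (3 / 4 : ℝ) o 2, mul_comm o 2]
          _ ≤ ((3 / 2 : ℝ) ^ (2 * k)) ^ 2 * (3 / 4) ^ (13 * k) := by
              refine mul_le_mul (pow_le_pow_left₀ (by positivity) h3 2)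
                (pow_le_pow_of_le_one (by norm_num) (by norm_num) h5) (by positivity)
                (by positivity)
          _ = ((3 / 2 : ℝ) ^ 4 * (3 / 4) ^ 13) ^ k := by
              rw [mul_pow, ← pow_mul, ← pow_mul, ← pow_mul]
              congr 2
              ring
          _ ≤ 1 := pow_le_one₀ (by norm_num) (by norm_num)
      have h7 : (3 / 2 : ℝ) ^ u * (3 / 4) ^ o ≤ 1 := by
        have h0 : (0 : ℝ) ≤ (3 / 2 : ℝ) ^ u * (3 / 4) ^ o := by positivity
        nlinarith
      have h8 : (3 / 2 : ℝ) ^ u * (q * (3 / 2)) ^ z * (3 / 4) ^ o ≤ 1 := by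
        calc (3 / 2 : ℝ) ^ u * (q * (3 / 2)) ^ z * (3 / 4) ^ o
            = ((3 / 2 : ℝ) ^ u * (3 / 4) ^ o) * (q * (3 / 2)) ^ z := by ring
          _ ≤ 1 * 1 := mul_le_mul h7 h1' h1n zero_le_one
          _ = 1 := one_mul 1
      have h9 : 1 ≤ Real.exp (7 / 4 * L * k) := Real.one_le_exp (by positivity)
      linarith

end Pool.Agent.Work.MP_499dc6_lc.D3

end

section

/-!
# Sum over the good pairs
-/

namespace Pool.Agent.Work.MP_499dc6_lc.D3

open MvPolynomial Equiv Finset
open Pool.Agent.Work.MP_499dc6_lc.CD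

open scoped Nat

theorem GSum_fiber {α β : Type} [Fintype α] [Fintype β] [DecidableEq α] [DecidableEq β]
    (s : α ⊕ β → Bool) (F : Finset (α ⊕ β) → Finset α → ℝ) :
    ∑ g : Good s, F g.1.1.support g.1.2.support =
      ∑ A : Finset (α ⊕ β), ∑ B : Finset α,
        ((univ.filter fun g : Good s => g.1.1.support = A ∧ g.1.2.support = B).card : ℝ) *
          F A B := by
  have h1 : ∀ g : Good s, F g.1.1.support g.1.2.support =
      ∑ A : Finset (α ⊕ β), ∑ B : Finset α,
        if g.1.1.support = A ∧ g.1.2.support = B then F A B else 0 := by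
    intro g
    rw [Finset.sum_eq_single g.1.1.support, Finset.sum_eq_single g.1.2.support]
    · simp
    · intro b _ hb
      rw [if_neg]
      rintro ⟨-, h⟩
      exact hb h.symm
    · intro h; exact absurd (Finset.mem_univ _) h
    · intro A _ hA
      apply Finset.sum_eq_zero
      intro B _
      rw [if_neg]
      rintro ⟨h, -⟩
      exact hA h.symm
    · intro h; exact absurd (Finset.mem_univ _) h
  rw [Finset.sum_congr rfl fun g _ => h1 g, Finset.sum_comm]
  refine Finset.sum_congr rfl fun A _ => ?_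
  rw [Finset.sum_comm]
  refine Finset.sum_congr rfl fun B _ => ?_
  rw [← Finset.sum_filter, Finset.sum_const, nsmul_eq_mul]

theorem GSum_le {α β : Type} [Fintype α] [Fintype β] [DecidableEq α] [DecidableEq β]
    (hC : S_Cnt) (s : α ⊕ β → Bool) (F : Finset (α ⊕ β) → Finset α → ℝ)
    (hF : ∀ A B, 0 ≤ F A B) :
    ∑ g : Good s, F g.1.1.support g.1.2.support ≤
      ∑ A : Finset (α ⊕ β), ∑ B : Finset α,
        (2 ^ (In A B).card * (∏ b : Bool, ((ns s A b)! : ℝ)) *
          ∏ b : Bool, ((ns (fun a => s (Sum.inl a)) B b)! : ℝ)) * F A B := by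
  rw [GSum_fiber]
  refine Finset.sum_le_sum fun A _ => Finset.sum_le_sum fun B _ => ?_
  refine mul_le_mul_of_nonneg_right ?_ (hF A B)
  have h := hC α β s A B
  have h2 : ((univ.filter fun g : Good s => g.1.1.support = A ∧ g.1.2.support = B).card : ℝ) ≤
      ((2 ^ (In A B).card * (∏ b : Bool, (ns s A b)!) *
        ∏ b : Bool, (ns (fun a => s (Sum.inl a)) B b)! : ℕ) : ℝ) := by exact_mod_cast h
  push_cast at h2
  exact h2

theorem GSum_main (hC : S_Cnt) (hI : S_Int) (hB : S_BSum) (n k m : ℕ) (hm : m = n + k)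
    (s : CY n k → Bool) (q : ℝ) (hq : 0 < q)
    (hs1 : ∀ b, (univ.filter fun a : CZ n => s (Sum.inl a) = b).card = n)
    (hs2 : ∀ b, (univ.filter fun u : Bool × Fin k => s (Sum.inr u) = b).card = k) (X : ℝ)
    (hA : (∑ AY : Finset (CY n k), ∑ AZ : Finset (CZ n),
      ((3 / 2 : ℝ) ^ (Ur AY).card * (q * (3 / 2)) ^ AZ.card * (3 / 4) ^ (Out AY AZ).card) *
        (fc s m AY * fc (fun a => s (Sum.inl a)) n AZ)) ≤ X) :
    (3 / 2 : ℝ) ^ (2 * m) * (∑ g : Good s, ∑ h : Good s,
      if Disjoint g.1.1.support h.1.1.support ∧ Disjoint g.1.2.support h.1.2.support then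
        (2 / 3 : ℝ) ^ g.1.1.support.card * q ^ h.1.2.support.card
      else 0) ≤ 2 ^ (2 * m) * 64 * X := by
  set s' : CZ n → Bool := fun a => s (Sum.inl a) with hs'
  -- cardinalities of the sides
  have hsm : ∀ b, (univ.filter fun x : CY n k => s x = b).card = m := by
    intro b
    have h1 : (univ.filter fun x : CY n k => s x = b).card =
        (univ.filter fun a : CZ n => s (Sum.inl a) = b).card +
        (univ.filter fun u : Bool × Fin k => s (Sum.inr u) = b).card := by
      rw [Finset.card_filter, Finset.card_filter, Finset.card_filter, Fintype.sum_sum_type]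
    rw [h1, hs1, hs2, hm]
  have hcard : Fintype.card (CZ n) + Fintype.card (Bool × Fin k) = 2 * m := by
    simp only [Fintype.card_prod, Fintype.card_bool, Fintype.card_fin]
    omega
  -- abbreviations
  set PY : Finset (CY n k) → ℝ := fun A => ∏ b : Bool, ((ns s A b)! : ℝ) with hPY
  set PZ : Finset (CZ n) → ℝ := fun A => ∏ b : Bool, ((ns s' A b)! : ℝ) with hPZ
  have hPY0 : ∀ A, 0 ≤ PY A := fun A => Finset.prod_nonneg fun _ _ => Nat.cast_nonneg _
  have hPZ0 : ∀ A, 0 ≤ PZ A := fun A => Finset.prod_nonneg fun _ _ => Nat.cast_nonneg _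
  set Fu : Finset (CY n k) → Finset (CZ n) → ℝ := fun AY AZ =>
    (3 / 2 : ℝ) ^ (Ur AY).card * (q * (3 / 2)) ^ AZ.card * (3 / 4) ^ (Out AY AZ).card with hFu
  have hFu0 : ∀ A B, 0 ≤ Fu A B := fun A B => by
    rw [hFu]; positivity
  -- step 1
  have step1 : (∑ g : Good s, ∑ h : Good s,
      if Disjoint g.1.1.support h.1.1.support ∧ Disjoint g.1.2.support h.1.2.support then
        (2 / 3 : ℝ) ^ g.1.1.support.card * q ^ h.1.2.support.card else 0) ≤
      ∑ BY : Finset (CY n k), ∑ BZ : Finset (CZ n), (2 ^ (In BY BZ).card * PY BY * PZ BZ) *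
        ∑ AY : Finset (CY n k), ∑ AZ : Finset (CZ n), (2 ^ (In AY AZ).card * PY AY * PZ AZ) *
          (if Disjoint BY AY ∧ Disjoint BZ AZ then (2 / 3 : ℝ) ^ BY.card * q ^ AZ.card else 0) := by
    refine (GSum_le hC s (fun BY BZ => ∑ h : Good s,
      if Disjoint BY h.1.1.support ∧ Disjoint BZ h.1.2.support then
        (2 / 3 : ℝ) ^ BY.card * q ^ h.1.2.support.card else 0) ?_).trans ?_
    · intro A B
      refine Finset.sum_nonneg fun h _ => ?_
      split_ifs
      · positivity
      · exact le_rfl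
    · refine Finset.sum_le_sum fun BY _ => Finset.sum_le_sum fun BZ _ => ?_
      refine mul_le_mul_of_nonneg_left ?_
        (mul_nonneg (mul_nonneg (by positivity) (hPY0 BY)) (hPZ0 BZ))
      refine GSum_le hC s (fun AY AZ =>
        if Disjoint BY AY ∧ Disjoint BZ AZ then (2 / 3 : ℝ) ^ BY.card * q ^ AZ.card else 0) ?_
      intro A B
      split_ifs
      · positivity
      · exact le_rfl
  -- step 2
  have step2 : ∀ (BY AY : Finset (CY n k)) (BZ AZ : Finset (CZ n)),
      (3 / 2 : ℝ) ^ (2 * m) * ((2 ^ (In BY BZ).card * PY BY * PZ BZ) *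
        ((2 ^ (In AY AZ).card * PY AY * PZ AZ) *
          (if Disjoint BY AY ∧ Disjoint BZ AZ then (2 / 3 : ℝ) ^ BY.card * q ^ AZ.card else 0))) ≤
      2 ^ (2 * m) * (Fu AY AZ * (PY AY * PZ AZ) *
        ((if Disjoint AY BY then PY BY else 0) * (if Disjoint AZ BZ then PZ BZ else 0))) := by
    intro BY AY BZ AZ
    by_cases hd : Disjoint BY AY ∧ Disjoint BZ AZ
    · rw [if_pos hd, if_pos hd.1.symm, if_pos hd.2.symm]
      have h1 := hI (CZ n) (Bool × Fin k) AY BY AZ BZ q hq hd.1.symm hd.2.symm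
      rw [hcard] at h1
      have h2 : (0 : ℝ) ≤ PY BY * PZ BZ * (PY AY * PZ AZ) :=
        mul_nonneg (mul_nonneg (hPY0 _) (hPZ0 _)) (mul_nonneg (hPY0 _) (hPZ0 _))
      have h3 := mul_le_mul_of_nonneg_right h1 h2
      calc _ = (2 : ℝ) ^ (In BY BZ).card * 2 ^ (In AY AZ).card * (3 / 2) ^ (2 * m) *
            (2 / 3) ^ BY.card * q ^ AZ.card * (PY BY * PZ BZ * (PY AY * PZ AZ)) := by ring
        _ ≤ _ := h3
        _ = _ := by rw [hFu]; ring
    · rw [if_neg hd, mul_zero, mul_zero, mul_zero]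
      refine mul_nonneg (by positivity) (mul_nonneg (mul_nonneg (hFu0 _ _)
        (mul_nonneg (hPY0 _) (hPZ0 _))) (mul_nonneg ?_ ?_))
      · split_ifs
        · exact hPY0 _
        · exact le_rfl
      · split_ifs
        · exact hPZ0 _
        · exact le_rfl
  -- step 3: the sums over `BY` and `BZ`
  have hBY : ∀ AY : Finset (CY n k), (∑ BY : Finset (CY n k), if Disjoint AY BY then PY BY else 0) ≤
      8 * ∏ b : Bool, ((m - ns s AY b)! : ℝ) := by
    intro AY
    rw [← Finset.sum_filter]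
    exact hB (CY n k) s m hsm AY
  have hBZ : ∀ AZ : Finset (CZ n), (∑ BZ : Finset (CZ n), if Disjoint AZ BZ then PZ BZ else 0) ≤
      8 * ∏ b : Bool, ((n - ns s' AZ b)! : ℝ) := by
    intro AZ
    rw [← Finset.sum_filter]
    exact hB (CZ n) s' n hs1 AZ
  have hfcY : ∀ AY, PY AY * ∏ b : Bool, ((m - ns s AY b)! : ℝ) = fc s m AY := by
    intro AY
    rw [hPY, fc, Finset.prod_mul_distrib]
  have hfcZ : ∀ AZ, PZ AZ * ∏ b : Bool, ((n - ns s' AZ b)! : ℝ) = fc s' n AZ := by
    intro AZ
    rw [hPZ, fc, Finset.prod_mul_distrib]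
  calc (3 / 2 : ℝ) ^ (2 * m) * (∑ g : Good s, ∑ h : Good s,
      if Disjoint g.1.1.support h.1.1.support ∧ Disjoint g.1.2.support h.1.2.support then
        (2 / 3 : ℝ) ^ g.1.1.support.card * q ^ h.1.2.support.card else 0)
      ≤ (3 / 2 : ℝ) ^ (2 * m) *
      ∑ BY : Finset (CY n k), ∑ BZ : Finset (CZ n), (2 ^ (In BY BZ).card * PY BY * PZ BZ) *
        ∑ AY : Finset (CY n k), ∑ AZ : Finset (CZ n), (2 ^ (In AY AZ).card * PY AY * PZ AZ) *
          (if Disjoint BY AY ∧ Disjoint BZ AZ then (2 / 3 : ℝ) ^ BY.card * q ^ AZ.card else 0) :=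
        mul_le_mul_of_nonneg_left step1 (by positivity)
    _ = ∑ BY : Finset (CY n k), ∑ BZ : Finset (CZ n), ∑ AY : Finset (CY n k),
        ∑ AZ : Finset (CZ n), (3 / 2 : ℝ) ^ (2 * m) * ((2 ^ (In BY BZ).card * PY BY * PZ BZ) *
        ((2 ^ (In AY AZ).card * PY AY * PZ AZ) *
          (if Disjoint BY AY ∧ Disjoint BZ AZ then (2 / 3 : ℝ) ^ BY.card * q ^ AZ.card
            else 0))) := by
        simp only [Finset.mul_sum]
    _ ≤ ∑ BY : Finset (CY n k), ∑ BZ : Finset (CZ n), ∑ AY : Finset (CY n k),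
        ∑ AZ : Finset (CZ n), 2 ^ (2 * m) * (Fu AY AZ * (PY AY * PZ AZ) *
        ((if Disjoint AY BY then PY BY else 0) * (if Disjoint AZ BZ then PZ BZ else 0))) :=
        Finset.sum_le_sum fun BY _ => Finset.sum_le_sum fun BZ _ => Finset.sum_le_sum fun AY _ =>
          Finset.sum_le_sum fun AZ _ => step2 BY AY BZ AZ
    _ = 2 ^ (2 * m) * ∑ AY : Finset (CY n k), ∑ AZ : Finset (CZ n), Fu AY AZ * (PY AY * PZ AZ) *
        ((∑ BY : Finset (CY n k), if Disjoint AY BY then PY BY else 0) *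
          (∑ BZ : Finset (CZ n), if Disjoint AZ BZ then PZ BZ else 0)) := by
        have e1 : ∀ (AY : Finset (CY n k)) (AZ : Finset (CZ n)), Fu AY AZ * (PY AY * PZ AZ) *
            ((∑ BY : Finset (CY n k), if Disjoint AY BY then PY BY else 0) *
            (∑ BZ : Finset (CZ n), if Disjoint AZ BZ then PZ BZ else 0)) =
            ∑ BY : Finset (CY n k), ∑ BZ : Finset (CZ n), Fu AY AZ * (PY AY * PZ AZ) *
            ((if Disjoint AY BY then PY BY else 0) * (if Disjoint AZ BZ then PZ BZ else 0)) := by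
          intro AY AZ
          rw [Finset.sum_mul_sum]
          simp only [Finset.mul_sum]
        simp only [e1]
        simp only [Finset.mul_sum]
        have e2 : ∀ f : Finset (CY n k) → Finset (CZ n) → Finset (CY n k) → Finset (CZ n) → ℝ,
            ∑ BY, ∑ BZ, ∑ AY, ∑ AZ, f BY BZ AY AZ = ∑ AY, ∑ AZ, ∑ BY, ∑ BZ, f BY BZ AY AZ := by
          intro f
          calc ∑ BY, ∑ BZ, ∑ AY, ∑ AZ, f BY BZ AY AZ
              = ∑ BY, ∑ AY, ∑ BZ, ∑ AZ, f BY BZ AY AZ :=
                Finset.sum_congr rfl fun _ _ => Finset.sum_comm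
            _ = ∑ AY, ∑ BY, ∑ BZ, ∑ AZ, f BY BZ AY AZ := Finset.sum_comm
            _ = ∑ AY, ∑ BY, ∑ AZ, ∑ BZ, f BY BZ AY AZ :=
                Finset.sum_congr rfl fun _ _ => Finset.sum_congr rfl fun _ _ => Finset.sum_comm
            _ = ∑ AY, ∑ AZ, ∑ BY, ∑ BZ, f BY BZ AY AZ :=
                Finset.sum_congr rfl fun _ _ => Finset.sum_comm
        exact e2 _
    _ ≤ 2 ^ (2 * m) * ∑ AY : Finset (CY n k), ∑ AZ : Finset (CZ n), Fu AY AZ * (PY AY * PZ AZ) *
        ((8 * ∏ b : Bool, ((m - ns s AY b)! : ℝ)) * (8 * ∏ b : Bool, ((n - ns s' AZ b)! : ℝ))) := by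
        refine mul_le_mul_of_nonneg_left ?_ (by positivity)
        refine Finset.sum_le_sum fun AY _ => Finset.sum_le_sum fun AZ _ => ?_
        refine mul_le_mul_of_nonneg_left ?_ (mul_nonneg (hFu0 _ _)
          (mul_nonneg (hPY0 _) (hPZ0 _)))
        refine mul_le_mul (hBY AY) (hBZ AZ) ?_ ?_
        · refine Finset.sum_nonneg fun B _ => ?_
          split_ifs
          · exact hPZ0 _
          · exact le_rfl
        · exact mul_nonneg (by norm_num) (Finset.prod_nonneg fun _ _ => Nat.cast_nonneg _)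
    _ = 2 ^ (2 * m) * 64 * ∑ AY : Finset (CY n k), ∑ AZ : Finset (CZ n), Fu AY AZ *
        (fc s m AY * fc s' n AZ) := by
        have e3 : ∀ (AY : Finset (CY n k)) (AZ : Finset (CZ n)), Fu AY AZ * (PY AY * PZ AZ) *
            ((8 * ∏ b : Bool, ((m - ns s AY b)! : ℝ)) *
              (8 * ∏ b : Bool, ((n - ns s' AZ b)! : ℝ))) =
            64 * (Fu AY AZ * (fc s m AY * fc s' n AZ)) := by
          intro AY AZ
          rw [← hfcY, ← hfcZ]
          ring
        simp only [e3, ← Finset.mul_sum]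
        ring
    _ ≤ 2 ^ (2 * m) * 64 * X := mul_le_mul_of_nonneg_left hA (by positivity)

theorem pr_GSum (hC : S_Cnt) (hI : S_Int) (hB : S_BSum) (hA : S_ASum) : S_GSum := by
  intro w k s q hw hk hq hq1 hs1 hs2
  refine (GSum_main hC hI hB (w * k) k (w * k + k) rfl s q hq hs1 hs2 _
    (hA w k s q hw hk hq hq1 hs1 hs2)).trans (le_of_eq ?_)
  ring

end Pool.Agent.Work.MP_499dc6_lc.D3

end

section

/-!
# The permanent gadget: the remaining terms
-/

namespace Pool.Agent.Work.MP_499dc6_lc.D3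

open MvPolynomial Equiv Finset

variable {n k : ℕ}

/-- The row-to-column map of a codeword and a choice of the gadget rows. -/
def GadBij_J (c : Code n k) (o : CZ n → Bool) : GR n k → GC n k
  | .inl r => .inl (c.1.1 r, sd r)
  | .inr (.inl r) => .inr (c.1.2 r, r.1)
  | .inr (.inr (.inl (a, x))) =>
      if x = o a then .inl (.inl a, !(sd (c.1.1.symm (.inl a))))
      else .inr (a, !(sd (c.1.1.symm (.inl a))))
  | .inr (.inr (.inr u)) => .inl (.inr u, !(sd (c.1.1.symm (.inr u))))

theorem GadBij_b1 : ∀ a b : Bool, ¬ (a = !b) → a = b := by decide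

theorem GadBij_b2 : ∀ a b : Bool, ¬ (a = b) → a = !b := by decide

theorem GadBij_J_inj (c : Code n k) (o : CZ n → Bool) : Function.Injective (GadBij_J c o) := by
  have hY : ∀ (r : CY n k) (j : CY n k), (c.1.1 r, sd r) ≠ (j, !(sd (c.1.1.symm j))) := by
    intro r j h
    have h1 := congrArg Prod.fst h
    have h2 := congrArg Prod.snd h
    simp only at h1 h2
    have h3 : c.1.1.symm j = r := by rw [← h1, Equiv.symm_apply_apply]
    rw [h3] at h2
    cases hs : sd r <;> rw [hs] at h2 <;> exact absurd h2 (by decide)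
  have hZ : ∀ (r : CZ n) (a : CZ n), (c.1.2 r, r.1) ≠ (a, !(sd (c.1.1.symm (Sum.inl a)))) := by
    intro r a h
    have h1 := congrArg Prod.fst h
    have h2 := congrArg Prod.snd h
    simp only at h1 h2
    have h3 : c.1.2.symm a = r := by rw [← h1, Equiv.symm_apply_apply]
    rw [c.2 a, h3] at h2
    cases hs : r.1 <;> rw [hs] at h2 <;> exact absurd h2 (by decide)
  rintro (r | r | ⟨a, x⟩ | u) (r' | r' | ⟨a', x'⟩ | u') h
  · simp only [GadBij_J, Sum.inl.injEq, Prod.mk.injEq] at h
    rw [c.1.1.injective h.1]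
  · simp only [GadBij_J, reduceCtorEq] at h
  · simp only [GadBij_J] at h
    split_ifs at h with hx
    exact absurd (Sum.inl.inj h) (hY r _)
  · simp only [GadBij_J] at h
    exact absurd (Sum.inl.inj h) (hY r _)
  · simp only [GadBij_J, reduceCtorEq] at h
  · simp only [GadBij_J, Sum.inr.injEq, Prod.mk.injEq] at h
    rw [c.1.2.injective h.1]
  · simp only [GadBij_J] at h
    split_ifs at h with hx
    exact absurd (Sum.inr.inj h) (hZ r _)
  · simp only [GadBij_J, reduceCtorEq] at h
  · simp only [GadBij_J] at h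
    split_ifs at h with hx
    exact absurd (Sum.inl.inj h).symm (hY r' _)
  · simp only [GadBij_J] at h
    split_ifs at h with hx
    exact absurd (Sum.inr.inj h).symm (hZ r' _)
  · simp only [GadBij_J] at h
    split_ifs at h with hx hx' hx'
    · have h1 : a = a' := by
        have := congrArg Prod.fst (Sum.inl.inj h)
        exact Sum.inl.inj this
      subst h1
      rw [hx, hx']
    · have h1 : a = a' := congrArg Prod.fst (Sum.inr.inj h)
      subst h1
      have : x = x' := by
        cases hx1 : x <;> cases hx2 : x' <;> cases ho : o a <;> simp_all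
      rw [this]
  · simp only [GadBij_J] at h
    split_ifs at h with hx
    simp only [Sum.inl.injEq, Prod.mk.injEq, reduceCtorEq, false_and] at h
  · simp only [GadBij_J] at h
    exact absurd (Sum.inl.inj h).symm (hY r' _)
  · simp only [GadBij_J, reduceCtorEq] at h
  · simp only [GadBij_J] at h
    split_ifs at h with hx
    simp only [Sum.inl.injEq, Prod.mk.injEq, reduceCtorEq, false_and] at h
  · simp only [GadBij_J, Sum.inl.injEq, Prod.mk.injEq, Sum.inr.injEq] at h
    rw [h.1]

theorem GadBij_card : Fintype.card (GR n k) = Fintype.card (GC n k) := by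
  simp only [Fintype.card_sum, Fintype.card_prod, Fintype.card_bool, Fintype.card_fin]
  ring

/-- The same map as an equivalence. -/
noncomputable def GadBij_E (c : Code n k) (o : CZ n → Bool) : GR n k ≃ GC n k :=
  Equiv.ofBijective (GadBij_J c o)
    ((Fintype.bijective_iff_injective_and_card _).2 ⟨GadBij_J_inj c o, GadBij_card⟩)

theorem GadBij_E_apply (c : Code n k) (o : CZ n → Bool) (r : GR n k) :
    GadBij_E c o r = GadBij_J c o r := rfl

/-- Structural support of the big matrix. -/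
def GadBij_P : GR n k → GC n k → Prop
  | .inl r, .inl (_, b) => sd r = b
  | .inl _, .inr _ => False
  | .inr (.inl r), .inr (_, b) => r.1 = b
  | .inr (.inl _), .inl _ => False
  | .inr (.inr (.inl (a, _))), .inl (j, _) => j = .inl a
  | .inr (.inr (.inl (a, _))), .inr (j, _) => j = a
  | .inr (.inr (.inr u)), .inl (j, _) => j = .inr u
  | .inr (.inr (.inr _)), .inr _ => False

theorem GadBij_zero {R : Type} [CommRing R] (y : CY n k → CY n k → R) (z : CZ n → CZ n → R)
    (r : GR n k) (c : GC n k) (h : ¬ GadBij_P r c) : GM y z r c = 0 := by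
  rcases r with r | r | ⟨a, x⟩ | u <;> rcases c with ⟨j, b⟩ | ⟨j, b⟩ <;>
    simp only [GadBij_P, not_false_eq_true] at h <;> simp [GM, h]

theorem GadBij_sgn {R : Type} [CommRing R] (n : ℕ) :
    ∏ r : CZ n, (if r.1 = false then (-1 : R) else 1) = (-1) ^ n := by
  rw [Fintype.prod_prod_type]
  simp

theorem GadBij_val {R : Type} [CommRing R] (y : CY n k → CY n k → R) (z : CZ n → CZ n → R)
    (c : Code n k) (o : CZ n → Bool) :
    ∏ r, GM y z r (GadBij_E c o r) =
      (-1) ^ n * ((∏ i, y i (c.1.1 i)) * ∏ i, z i (c.1.2 i)) := by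
  simp only [GadBij_E_apply]
  have h1 : ∀ r : CY n k, GM y z (Sum.inl r) (GadBij_J c o (Sum.inl r)) = y r (c.1.1 r) := by
    intro r
    simp [GM, GadBij_J]
  have h2 : ∀ r : CZ n, GM y z (Sum.inr (Sum.inl r)) (GadBij_J c o (Sum.inr (Sum.inl r))) =
      z r (c.1.2 r) := by
    intro r
    simp [GM, GadBij_J]
  have h4 : ∀ u : Bool × Fin k, GM y z (Sum.inr (Sum.inr (Sum.inr u)))
      (GadBij_J c o (Sum.inr (Sum.inr (Sum.inr u)))) = 1 := by
    intro u
    simp [GM, GadBij_J]
  have h3 : ∀ (a : CZ n), ∏ x : Bool, GM y z (Sum.inr (Sum.inr (Sum.inl (a, x))))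
      (GadBij_J c o (Sum.inr (Sum.inr (Sum.inl (a, x))))) =
      if (c.1.2.symm a).1 = false then -1 else 1 := by
    intro a
    rw [Fintype.prod_bool, ← c.2 a]
    cases hs : sd (c.1.1.symm (Sum.inl a)) <;> cases ho : o a <;>
      simp [GM, GadBij_J, hs, ho]
  rw [Fintype.prod_sum_type, Fintype.prod_congr _ _ h1,
    Fintype.prod_sum_type (f := fun w => GM y z (Sum.inr w) (GadBij_J c o (Sum.inr w))),
    Fintype.prod_congr _ _ h2,
    Fintype.prod_sum_type (f := fun w => GM y z (Sum.inr (Sum.inr w))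
      (GadBij_J c o (Sum.inr (Sum.inr w)))),
    Fintype.prod_congr _ _ h4,
    Fintype.prod_prod_type (f := fun w => GM y z (Sum.inr (Sum.inr (Sum.inl w)))
      (GadBij_J c o (Sum.inr (Sum.inr (Sum.inl w))))), Fintype.prod_congr _ _ h3]
  rw [Equiv.prod_comp c.1.2.symm (fun r : CZ n => if r.1 = false then (-1 : R) else 1)]
  rw [GadBij_sgn, Finset.prod_const_one]
  ring

theorem GadBij_aligned (c : Code n k) (o : CZ n → Bool) (a : CZ n) :
    gs (GadBij_E c o (Sum.inr (Sum.inr (Sum.inl (a, false))))) =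
      gs (GadBij_E c o (Sum.inr (Sum.inr (Sum.inl (a, true))))) := by
  simp only [GadBij_E_apply, GadBij_J]
  cases ho : o a <;> simp [gs]

theorem GadBij_inj : Function.Injective
    (fun p : Code n k × (CZ n → Bool) => GadBij_E p.1 p.2) := by
  rintro ⟨c, o⟩ ⟨c', o'⟩ h
  have h' : ∀ r, GadBij_J c o r = GadBij_J c' o' r := fun r => by
    rw [← GadBij_E_apply, ← GadBij_E_apply]
    exact congrArg (fun e : GR n k ≃ GC n k => e r) h
  have hc : c = c' := by
    apply Subtype.ext
    apply Prod.ext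
    · apply Equiv.ext
      intro r
      have := h' (.inl r)
      simp only [GadBij_J, Sum.inl.injEq, Prod.mk.injEq] at this
      exact this.1
    · apply Equiv.ext
      intro r
      have := h' (.inr (.inl r))
      simp only [GadBij_J, Sum.inr.injEq, Prod.mk.injEq] at this
      exact this.1
  have ho : o = o' := by
    funext a
    have := h' (.inr (.inr (.inl (a, o a))))
    simp only [GadBij_J, if_true] at this
    by_contra hne
    rw [if_neg hne] at this
    simp only [reduceCtorEq] at this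
  rw [hc, ho]

theorem GadBij_surj (e : GR n k ≃ GC n k)
    (hal : ∀ a : CZ n, gs (e (Sum.inr (Sum.inr (Sum.inl (a, false))))) =
      gs (e (Sum.inr (Sum.inr (Sum.inl (a, true))))))
    (hP : ∀ r, GadBij_P r (e r)) : ∃ p : Code n k × (CZ n → Bool), GadBij_E p.1 p.2 = e := by
  -- the images of the rows of the four kinds
  have hY : ∀ r : CY n k, ∃ j : CY n k, e (.inl r) = .inl (j, sd r) := by
    intro r
    have h := hP (.inl r)
    rcases he : e (.inl r) with ⟨j, b⟩ | ⟨j, b⟩ <;> rw [he] at h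
    · simp only [GadBij_P] at h
      exact ⟨j, by rw [h]⟩
    · exact absurd h (by simp [GadBij_P])
  have hZ : ∀ r : CZ n, ∃ j : CZ n, e (.inr (.inl r)) = .inr (j, r.1) := by
    intro r
    have h := hP (.inr (.inl r))
    rcases he : e (.inr (.inl r)) with ⟨j, b⟩ | ⟨j, b⟩ <;> rw [he] at h
    · exact absurd h (by simp [GadBij_P])
    · simp only [GadBij_P] at h
      exact ⟨j, by rw [h]⟩
  have hU : ∀ u : Bool × Fin k, ∃ b, e (.inr (.inr (.inr u))) = .inl (.inr u, b) := by
    intro u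
    have h := hP (.inr (.inr (.inr u)))
    rcases he : e (.inr (.inr (.inr u))) with ⟨j, b⟩ | ⟨j, b⟩ <;> rw [he] at h
    · simp only [GadBij_P] at h
      exact ⟨b, by rw [h]⟩
    · exact absurd h (by simp [GadBij_P])
  have hG : ∀ a : CZ n, ∃ (b : Bool) (x : Bool),
      e (.inr (.inr (.inl (a, x)))) = .inl (.inl a, b) ∧
      e (.inr (.inr (.inl (a, !x)))) = .inr (a, b) := by
    intro a
    have h0 := hP (.inr (.inr (.inl (a, false))))
    have h1 := hP (.inr (.inr (.inl (a, true))))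
    have ha := hal a
    have hne : e (.inr (.inr (.inl (a, false)))) ≠ e (.inr (.inr (.inl (a, true)))) := by
      intro h
      have := e.injective h
      simp at this
    rcases he0 : e (.inr (.inr (.inl (a, false)))) with ⟨j, b⟩ | ⟨j, b⟩ <;>
      rcases he1 : e (.inr (.inr (.inl (a, true)))) with ⟨j', b'⟩ | ⟨j', b'⟩ <;>
      rw [he0] at h0 hne ha <;> rw [he1] at h1 hne ha <;> simp only [GadBij_P] at h0 h1 <;>
      simp only [gs, Sum.elim_inl, Sum.elim_inr] at ha
    · exact absurd (by rw [h0, h1, ha]) hne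
    · exact ⟨b, false, by rw [he0, h0], by rw [Bool.not_false, he1, h1, ha]⟩
    · exact ⟨b, true, by rw [he1, h1, ha], by rw [Bool.not_true, he0, h0]⟩
    · exact absurd (by rw [h0, h1, ha]) hne
  choose σ hσ using hY
  choose ζ hζ using hZ
  choose ub hub using hU
  choose gb gx hgl hgr using hG
  -- columns of the gadget rows are not hit by the other rows
  have hYg : ∀ (r : CY n k) (a : CZ n), σ r = .inl a → sd r = !(gb a) := by
    intro r a h
    by_contra hne
    have h1 : sd r = gb a := GadBij_b1 _ _ hne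
    have h4 := hσ r
    rw [h, h1, ← hgl a] at h4
    have := e.injective h4
    simp at this
  have hYu : ∀ (r : CY n k) (u : Bool × Fin k), σ r = .inr u → sd r = !(ub u) := by
    intro r u h
    by_contra hne
    have h1 : sd r = ub u := GadBij_b1 _ _ hne
    have h4 := hσ r
    rw [h, h1, ← hub u] at h4
    have := e.injective h4
    simp at this
  have hZg : ∀ (r : CZ n) (a : CZ n), ζ r = a → r.1 = !(gb a) := by
    intro r a h
    by_contra hne
    have h1 : r.1 = gb a := GadBij_b1 _ _ hne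
    have h4 := hζ r
    rw [h, h1, ← hgr a] at h4
    have := e.injective h4
    simp at this
  have hσi : Function.Injective σ := by
    intro r r' h
    have hs : sd r = sd r' := by
      rcases hj : σ r' with a | u
      · rw [hYg r a (h.trans hj), hYg r' a hj]
      · rw [hYu r u (h.trans hj), hYu r' u hj]
    have h1 := hσ r
    rw [h, hs, ← hσ r'] at h1
    exact Sum.inl.inj (e.injective h1)
  have hζi : Function.Injective ζ := by
    intro r r' h
    have hs : r.1 = r'.1 := by
      rw [hZg r _ h, hZg r' _ rfl]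
    have h1 := hζ r
    rw [h, hs, ← hζ r'] at h1
    exact Sum.inl.inj (Sum.inr.inj (e.injective h1))
  let σe : Perm (CY n k) := Equiv.ofBijective σ (Finite.injective_iff_bijective.1 hσi)
  let ζe : Perm (CZ n) := Equiv.ofBijective ζ (Finite.injective_iff_bijective.1 hζi)
  have hσe : ∀ r, σe r = σ r := fun r => rfl
  have hζe : ∀ r, ζe r = ζ r := fun r => rfl
  have hsl : ∀ a : CZ n, sd (σe.symm (.inl a)) = !(gb a) := fun a =>
    hYg _ a (by rw [← hσe, Equiv.apply_symm_apply])
  have hsr : ∀ u : Bool × Fin k, sd (σe.symm (.inr u)) = !(ub u) := fun u =>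
    hYu _ u (by rw [← hσe, Equiv.apply_symm_apply])
  have hsz : ∀ a : CZ n, (ζe.symm a).1 = !(gb a) := fun a =>
    hZg _ a (by rw [← hζe, Equiv.apply_symm_apply])
  refine ⟨(⟨(σe, ζe), fun a => by rw [hsl, hsz]⟩, gx), ?_⟩
  apply Equiv.ext
  intro r
  rw [GadBij_E_apply]
  rcases r with r | r | ⟨a, x⟩ | u
  · rw [hσ r]
    rfl
  · rw [hζ r]
    rfl
  · simp only [GadBij_J, hsl, Bool.not_not]
    by_cases hx : x = gx a
    · rw [if_pos hx, hx, hgl a]
    · rw [if_neg hx]
      have : x = !(gx a) := GadBij_b2 _ _ hx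
      rw [this, hgr a]
  · simp only [GadBij_J, hsr, Bool.not_not]
    rw [hub u]

theorem pr_GadBij : S_GadBij := by
  classical
  intro R _ n k y z
  have hsum : (∑ e ∈ univ.filter (fun e : GR n k ≃ GC n k => ∀ a : CZ n,
        gs (e (Sum.inr (Sum.inr (Sum.inl (a, false))))) =
          gs (e (Sum.inr (Sum.inr (Sum.inl (a, true)))))), ∏ r, GM y z r (e r)) =
      ∑ p : Code n k × (CZ n → Bool), ∏ r, GM y z r (GadBij_E p.1 p.2 r) := by
    symm
    rw [← Finset.sum_image (f := fun e : GR n k ≃ GC n k => ∏ r, GM y z r (e r))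
      (g := fun p : Code n k × (CZ n → Bool) => GadBij_E p.1 p.2)
      (fun p _ q _ h => GadBij_inj h)]
    apply Finset.sum_subset
    · intro e he
      rw [Finset.mem_image] at he
      obtain ⟨p, _, rfl⟩ := he
      rw [Finset.mem_filter]
      exact ⟨Finset.mem_univ _, fun a => GadBij_aligned _ _ a⟩
    · intro e he hne
      rw [Finset.mem_filter] at he
      by_contra h0
      have hP : ∀ r, GadBij_P r (e r) := by
        intro r
        by_contra hr
        exact h0 (Finset.prod_eq_zero (Finset.mem_univ r) (GadBij_zero y z r _ hr))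
      obtain ⟨p, hp⟩ := GadBij_surj e he.2 hP
      exact hne (Finset.mem_image.2 ⟨p, Finset.mem_univ _, hp⟩)
  rw [hsum, Fintype.sum_prod_type]
  simp only [GadBij_val]
  simp only [Finset.sum_const, Finset.card_univ, Fintype.card_fun, Fintype.card_bool,
    Fintype.card_prod, Fintype.card_fin, nsmul_eq_mul]
  rw [← Finset.mul_sum, ← Finset.mul_sum]
  have : ((2 ^ (2 * n) : ℕ) : R) = 4 ^ n := by
    push_cast
    rw [pow_mul]
    norm_num
  rw [this]
  ring

end Pool.Agent.Work.MP_499dc6_lc.D3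

end

section

/-!
# Permanent gadget: cancellation
-/

namespace Pool.Agent.Work.MP_499dc6_lc.D3

open Finset

/-- The two gadget rows cancel on columns of different sides. -/
theorem GadCancel_two {R : Type} [CommRing R] {n k : ℕ} (y : CY n k → CY n k → R)
    (z : CZ n → CZ n → R) (a : CZ n) (p p' : GC n k) (h : gs p ≠ gs p') :
    GM y z (.inr (.inr (.inl (a, false)))) p * GM y z (.inr (.inr (.inl (a, true)))) p' +
      GM y z (.inr (.inr (.inl (a, false)))) p' * GM y z (.inr (.inr (.inl (a, true)))) p = 0 := by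
  rcases p with ⟨j, b⟩ | ⟨j, b⟩ <;> rcases p' with ⟨j', b'⟩ | ⟨j', b'⟩ <;>
    cases b <;> cases b' <;> simp [gs] at h <;> simp only [GM] <;> split_ifs <;> simp_all

theorem GadCancel_step {R : Type} [CommRing R] {n k : ℕ} (y : CY n k → CY n k → R)
    (z : CZ n → CZ n → R) (T : Finset (CZ n)) (a : CZ n) (ha : a ∉ T) :
    (∑ e ∈ univ.filter (fun e : GR n k ≃ GC n k => ∀ b ∈ T,
        gs (e (Sum.inr (Sum.inr (Sum.inl (b, false))))) =
          gs (e (Sum.inr (Sum.inr (Sum.inl (b, true)))))), ∏ r, GM y z r (e r)) =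
      ∑ e ∈ univ.filter (fun e : GR n k ≃ GC n k => ∀ b ∈ insert a T,
        gs (e (Sum.inr (Sum.inr (Sum.inl (b, false))))) =
          gs (e (Sum.inr (Sum.inr (Sum.inl (b, true)))))), ∏ r, GM y z r (e r) := by
  set g0 : GR n k := Sum.inr (Sum.inr (Sum.inl (a, false))) with hg0
  set g1 : GR n k := Sum.inr (Sum.inr (Sum.inl (a, true))) with hg1
  have h01 : g1 ≠ g0 := by simp [hg0, hg1]
  have key : ∀ f : GR n k → R, ∏ r, f r = f g0 * (f g1 * ∏ r ∈ (univ.erase g0).erase g1, f r) := by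
    intro f
    rw [← Finset.mul_prod_erase univ f (mem_univ g0),
      ← Finset.mul_prod_erase (univ.erase g0) f (mem_erase.2 ⟨h01, mem_univ g1⟩)]
  rw [← Finset.sum_filter_add_sum_filter_not (univ.filter (fun e : GR n k ≃ GC n k => ∀ b ∈ T,
        gs (e (Sum.inr (Sum.inr (Sum.inl (b, false))))) =
          gs (e (Sum.inr (Sum.inr (Sum.inl (b, true)))))))
        (fun e : GR n k ≃ GC n k => gs (e g0) = gs (e g1))]
  have hz : (∑ e ∈ (univ.filter (fun e : GR n k ≃ GC n k => ∀ b ∈ T,
        gs (e (Sum.inr (Sum.inr (Sum.inl (b, false))))) =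
          gs (e (Sum.inr (Sum.inr (Sum.inl (b, true))))))).filter
        (fun e : GR n k ≃ GC n k => ¬ gs (e g0) = gs (e g1)), ∏ r, GM y z r (e r)) = 0 := by
    refine Finset.sum_involution (fun e _ => (Equiv.swap g0 g1).trans e) ?_ ?_ ?_ ?_
    · intro e he
      rw [mem_filter] at he
      have hne := he.2
      rw [key (fun r => GM y z r (e r)),
        key (fun r => GM y z r (((Equiv.swap g0 g1).trans e) r))]
      have hrest : ∏ r ∈ (univ.erase g0).erase g1, GM y z r (((Equiv.swap g0 g1).trans e) r) =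
          ∏ r ∈ (univ.erase g0).erase g1, GM y z r (e r) := by
        refine Finset.prod_congr rfl fun r hr => ?_
        rw [mem_erase, mem_erase] at hr
        rw [Equiv.trans_apply, Equiv.swap_apply_of_ne_of_ne hr.2.1 hr.1]
      rw [hrest]
      simp only [Equiv.trans_apply, Equiv.swap_apply_left, Equiv.swap_apply_right]
      have h2 := GadCancel_two y z a (e g0) (e g1) hne
      rw [← hg0, ← hg1] at h2
      linear_combination (∏ r ∈ (univ.erase g0).erase g1, GM y z r (e r)) * h2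
    · intro e he _ h
      have h3 := congrArg (fun f : GR n k ≃ GC n k => f g0) h
      simp only [Equiv.trans_apply, Equiv.swap_apply_left] at h3
      exact h01 (e.injective h3)
    · intro e he
      rw [mem_filter, mem_filter] at he ⊢
      refine ⟨⟨mem_univ _, ?_⟩, ?_⟩
      · intro b hb
        have hba : b ≠ a := fun h => ha (h ▸ hb)
        have hr : ∀ ε : Bool, (Equiv.swap g0 g1) (Sum.inr (Sum.inr (Sum.inl (b, ε)))) =
            (Sum.inr (Sum.inr (Sum.inl (b, ε))) : GR n k) := by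
          intro ε
          refine Equiv.swap_apply_of_ne_of_ne ?_ ?_ <;> simp [hg0, hg1, hba]
        rw [Equiv.trans_apply, Equiv.trans_apply, hr, hr]
        exact he.1.2 b hb
      · simp only [Equiv.trans_apply, Equiv.swap_apply_left, Equiv.swap_apply_right]
        exact fun h => he.2 h.symm
    · intro e he
      ext r
      simp
  rw [hz, add_zero, filter_filter]
  refine Finset.sum_congr ?_ fun _ _ => rfl
  ext e
  simp only [mem_filter, mem_univ, true_and, Finset.mem_insert, forall_eq_or_imp]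
  exact and_comm

theorem pr_GadCancel : S_GadCancel := by
  intro R _ n k y z
  have h : ∀ T : Finset (CZ n), (∑ e : GR n k ≃ GC n k, ∏ r, GM y z r (e r)) =
      ∑ e ∈ univ.filter (fun e : GR n k ≃ GC n k => ∀ b ∈ T,
        gs (e (Sum.inr (Sum.inr (Sum.inl (b, false))))) =
          gs (e (Sum.inr (Sum.inr (Sum.inl (b, true)))))), ∏ r, GM y z r (e r) := by
    intro T
    induction T using Finset.induction_on with
    | empty => simp
    | insert a T ha ih => rw [ih, GadCancel_step y z T a ha]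
  rw [h univ]
  refine Finset.sum_congr ?_ fun _ _ => rfl
  ext e
  simp

end Pool.Agent.Work.MP_499dc6_lc.D3

end

section

namespace Pool.Agent.Work.MP_499dc6_lc.D3

open Pool.Agent.Work.MP_499dc6_lc.CD

lemma Grow3_rec (N p : ℕ) (hN : 1 ≤ N) :
    (TT N (p + 1) : ℝ) * ((p : ℝ) + 1) = TT N p * ((N : ℝ) + p) := by
  have h := Nat.add_one_mul_choose_eq (N + p - 1) p
  have h1 : (N + p - 1) + 1 = N + (p + 1) - 1 := by omega
  have h2 : (N + p - 1) + 1 = N + p := by omega
  have h3 : (N + p) * (N + p - 1).choose p = (N + (p + 1) - 1).choose (p + 1) * (p + 1) := by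
    rw [← h1, ← h, h2]
  have h4 := congrArg (Nat.cast : ℕ → ℝ) h3
  push_cast at h4
  unfold TT
  linarith

lemma Grow3_step (a L i : ℕ) (ha : 2 ≤ a) (hL : L + a = 2 * (a ^ 2 - 1)) (hi : i < a) :
    ((a ^ 2 : ℕ) : ℝ) + ((L + i : ℕ) : ℝ) ≤
      3 / 2 * (1 + a / (3 * ((a : ℝ) ^ 2 - 1))) * (((L + i : ℕ) : ℝ) + 1) := by
  have haR : (2 : ℝ) ≤ a := by exact_mod_cast ha
  have h1 : 1 ≤ a ^ 2 := Nat.one_le_pow _ _ (by omega)
  have hLR : (L : ℝ) + a = 2 * ((a : ℝ) ^ 2 - 1) := by
    have := congrArg (Nat.cast : ℕ → ℝ) hL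
    push_cast [Nat.cast_sub h1] at this
    exact this
  have hiR : (i : ℝ) + 1 ≤ a := by exact_mod_cast hi
  have hi0 : (0 : ℝ) ≤ i := Nat.cast_nonneg i
  set X : ℝ := (a : ℝ) ^ 2 - 1 with hX
  have hXpos : 0 < X := by nlinarith
  have hXa : (a : ℝ) ≤ X := by nlinarith
  have hLe : (L : ℝ) = 2 * X - a := by linarith
  have haX : (a : ℝ) ^ 2 = X + 1 := by rw [hX]; ring
  push_cast
  rw [hLe, haX]
  have e1 : 3 / 2 * (1 + (a : ℝ) / (3 * X)) * (2 * X - a + i + 1) =
      (3 * X + a) * (2 * X - a + i + 1) / (2 * X) := by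
    field_simp
  rw [e1, le_div_iff₀ (by positivity)]
  nlinarith [mul_nonneg (by linarith : (0 : ℝ) ≤ a - i - 1) (by linarith : (0 : ℝ) ≤ X - a),
    mul_nonneg hi0 hXpos.le, mul_nonneg (by linarith : (0 : ℝ) ≤ (a : ℝ)) hi0]

theorem pr_Grow3 : S_Grow3 := by
  intro a L ha hL
  have haR : (2 : ℝ) ≤ a := by exact_mod_cast ha
  have h1 : 1 ≤ a ^ 2 := Nat.one_le_pow _ _ (by omega)
  set q : ℝ := 3 / 2 * (1 + a / (3 * ((a : ℝ) ^ 2 - 1))) with hq
  have hXpos : 0 < (a : ℝ) ^ 2 - 1 := by nlinarith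
  have hq0 : 0 ≤ q := by positivity
  have key : ∀ i : ℕ, i ≤ a → (TT (a ^ 2) (L + i) : ℝ) ≤ q ^ i * TT (a ^ 2) L := by
    intro i
    induction i with
    | zero => intro _; simp
    | succ i ih =>
      intro hi
      have h2 := ih (by omega)
      have h3 := Grow3_rec (a ^ 2) (L + i) h1
      have h4 := Grow3_step a L i ha hL (by omega)
      have h5 : (0 : ℝ) < ((L + i : ℕ) : ℝ) + 1 := by positivity
      have h6 : (TT (a ^ 2) (L + i + 1) : ℝ) * (((L + i : ℕ) : ℝ) + 1) ≤
          (q * TT (a ^ 2) (L + i)) * (((L + i : ℕ) : ℝ) + 1) := by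
        rw [h3]
        have h7 : (0 : ℝ) ≤ (TT (a ^ 2) (L + i) : ℝ) := Nat.cast_nonneg _
        calc (TT (a ^ 2) (L + i) : ℝ) * (((a ^ 2 : ℕ) : ℝ) + ((L + i : ℕ) : ℝ)) ≤
            (TT (a ^ 2) (L + i) : ℝ) * (q * (((L + i : ℕ) : ℝ) + 1)) :=
              mul_le_mul_of_nonneg_left h4 h7
          _ = _ := by ring
      have h8 := le_of_mul_le_mul_right h6 h5
      calc (TT (a ^ 2) (L + (i + 1)) : ℝ) = TT (a ^ 2) (L + i + 1) := by rw [add_assoc]
        _ ≤ q * TT (a ^ 2) (L + i) := h8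
        _ ≤ q * (q ^ i * TT (a ^ 2) L) := mul_le_mul_of_nonneg_left h2 hq0
        _ = q ^ (i + 1) * TT (a ^ 2) L := by ring
  have hk := key a le_rfl
  refine hk.trans ?_
  have h9 : (0 : ℝ) ≤ (TT (a ^ 2) L : ℝ) := Nat.cast_nonneg _
  refine mul_le_mul_of_nonneg_right ?_ h9
  have e1 : q ^ a = (3 / 2) ^ a * (1 + a / (3 * ((a : ℝ) ^ 2 - 1))) ^ a := by
    rw [hq, mul_pow]
  rw [e1]
  have h10 : (1 + (a : ℝ) / (3 * ((a : ℝ) ^ 2 - 1))) ^ a ≤ 3 := by
    calc (1 + (a : ℝ) / (3 * ((a : ℝ) ^ 2 - 1))) ^ a ≤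
        (Real.exp ((a : ℝ) / (3 * ((a : ℝ) ^ 2 - 1)))) ^ a := by
          apply pow_le_pow_left₀ (by positivity)
          have := Real.add_one_le_exp ((a : ℝ) / (3 * ((a : ℝ) ^ 2 - 1)))
          linarith
      _ = Real.exp (a * ((a : ℝ) / (3 * ((a : ℝ) ^ 2 - 1)))) := by rw [Real.exp_nat_mul]
      _ ≤ Real.exp 1 := by
          apply Real.exp_le_exp.2
          rw [← mul_div_assoc, div_le_one (by positivity)]
          nlinarith
      _ ≤ 3 := by
          have := Real.exp_one_lt_d9
          linarith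
  calc (3 / 2 : ℝ) ^ a * (1 + a / (3 * ((a : ℝ) ^ 2 - 1))) ^ a ≤ (3 / 2 : ℝ) ^ a * 3 :=
        mul_le_mul_of_nonneg_left h10 (by positivity)
    _ = 3 * (3 / 2) ^ a := by ring

end Pool.Agent.Work.MP_499dc6_lc.D3

end

section

/-!
# Hypergeometric tilt
-/

namespace Pool.Agent.Work.MP_499dc6_lc.D3

open Finset

/-- Number of the sets of size `x` containing a given set. -/
theorem Hyp_N {γ : Type} [DecidableEq γ] (T : Finset γ) : ∀ (X : Finset γ) (x : ℕ), T ⊆ X →
    2 * x ≤ X.card →
    2 ^ T.card * ((X.powersetCard x).filter fun A => T ⊆ A).card ≤ X.card.choose x := by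
  induction T using Finset.induction_on with
  | empty =>
    intro X x _ _
    rw [Finset.card_empty, pow_zero, one_mul, ← Finset.card_powersetCard]
    exact Finset.card_filter_le _ _
  | insert a T ha ih =>
    intro X x hT hx
    have haX : a ∈ X := hT (Finset.mem_insert_self a T)
    have hTX : T ⊆ X.erase a := by
      intro y hy
      rw [Finset.mem_erase]
      refine ⟨fun h => ha (h ▸ hy), hT (Finset.mem_insert_of_mem hy)⟩
    rcases x with _ | x
    · have h0 : ((X.powersetCard 0).filter fun A => insert a T ⊆ A) = ∅ := by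
        apply Finset.filter_eq_empty_iff.2
        intro A hA h
        rw [Finset.mem_powersetCard, Finset.card_eq_zero] at hA
        have := h (Finset.mem_insert_self a T)
        rw [hA.2] at this
        exact Finset.notMem_empty _ this
      rw [h0]
      simp
    · have hm : (X.erase a).card + 1 = X.card := Finset.card_erase_add_one haX
      have h1 : ((X.powersetCard (x + 1)).filter fun A => insert a T ⊆ A).card ≤
          (((X.erase a).powersetCard x).filter fun A => T ⊆ A).card := by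
        refine Finset.card_le_card_of_injOn (fun A => A.erase a) ?_ ?_
        · intro A hA
          rw [Finset.mem_coe, Finset.mem_filter, Finset.mem_powersetCard] at hA
          obtain ⟨⟨hAX, hAc⟩, hTA⟩ := hA
          have haA : a ∈ A := hTA (Finset.mem_insert_self a T)
          rw [Finset.mem_coe, Finset.mem_filter, Finset.mem_powersetCard]
          refine ⟨⟨Finset.erase_subset_erase a hAX, ?_⟩, ?_⟩
          · have := Finset.card_erase_add_one haA
            change (A.erase a).card = x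
            omega
          · intro y hy
            change y ∈ A.erase a
            rw [Finset.mem_erase]
            exact ⟨fun h => ha (h ▸ hy), hTA (Finset.mem_insert_of_mem hy)⟩
        · intro A hA B hB h
          rw [Finset.mem_coe, Finset.mem_filter] at hA hB
          have haA : a ∈ A := hA.2 (Finset.mem_insert_self a T)
          have haB : a ∈ B := hB.2 (Finset.mem_insert_self a T)
          rw [← Finset.insert_erase haA, ← Finset.insert_erase haB]
          change A.erase a = B.erase a at h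
          rw [h]
      have h2 := ih (X.erase a) x hTX (by omega)
      rw [Finset.card_insert_of_notMem ha, pow_succ]
      have h3 : 2 ^ T.card * ((X.powersetCard (x + 1)).filter fun A => insert a T ⊆ A).card ≤
          (X.erase a).card.choose x := le_trans (Nat.mul_le_mul_left _ h1) h2
      have h4 := Nat.add_one_mul_choose_eq (X.erase a).card x
      have h5 : 2 * (X.erase a).card.choose x ≤ X.card.choose (x + 1) := by
        rw [← hm]
        rw [← hm] at hx
        have h6 : 2 * (x + 1) * (X.erase a).card.choose x ≤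
            ((X.erase a).card + 1) * (X.erase a).card.choose x := Nat.mul_le_mul_right _ hx
        rw [h4] at h6
        have h7 : (x + 1) * (2 * (X.erase a).card.choose x) ≤
            (x + 1) * ((X.erase a).card + 1).choose (x + 1) := by
          calc (x + 1) * (2 * (X.erase a).card.choose x) =
              2 * (x + 1) * (X.erase a).card.choose x := by ring
            _ ≤ _ := h6
            _ = _ := by ring
        exact Nat.le_of_mul_le_mul_left h7 (Nat.succ_pos x)
      calc 2 ^ T.card * 2 * ((X.powersetCard (x + 1)).filter fun A => insert a T ⊆ A).card =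
          2 * (2 ^ T.card * ((X.powersetCard (x + 1)).filter fun A => insert a T ⊆ A).card) := by
            ring
        _ ≤ 2 * (X.erase a).card.choose x := Nat.mul_le_mul_left _ h3
        _ ≤ _ := h5

theorem pr_Hyp : S_Hyp := by
  intro γ _ X V k x hk hx
  have h1 : ∀ S : Finset γ, (3 / 2 : ℝ) ^ S.card = ∑ T ∈ S.powerset, (1 / 2 : ℝ) ^ T.card := by
    intro S
    have := Finset.sum_pow_mul_eq_add_pow (1 / 2 : ℝ) 1 S
    simp only [one_pow, mul_one] at this
    rw [this]
    norm_num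
  have h2 : ∀ S : Finset γ, (5 / 4 : ℝ) ^ S.card = ∑ T ∈ S.powerset, (1 / 4 : ℝ) ^ T.card := by
    intro S
    have := Finset.sum_pow_mul_eq_add_pow (1 / 4 : ℝ) 1 S
    simp only [one_pow, mul_one] at this
    rw [this]
    norm_num
  have h3 : (∑ A ∈ X.powersetCard x, (3 / 2 : ℝ) ^ (A ∩ V).card) =
      ∑ T ∈ (X ∩ V).powerset, (1 / 2 : ℝ) ^ T.card *
        (((X.powersetCard x).filter fun A => T ⊆ A).card : ℝ) := by
    have h4 : ∀ A ∈ X.powersetCard x, (3 / 2 : ℝ) ^ (A ∩ V).card =
        ∑ T ∈ (X ∩ V).powerset, if T ⊆ A then (1 / 2 : ℝ) ^ T.card else 0 := by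
      intro A hA
      rw [h1, ← Finset.sum_filter]
      apply Finset.sum_congr _ fun _ _ => rfl
      ext T
      rw [Finset.mem_powersetCard] at hA
      simp only [Finset.mem_powerset, Finset.mem_filter, Finset.subset_inter_iff]
      constructor
      · rintro ⟨h5, h6⟩
        exact ⟨⟨h5.trans hA.1, h6⟩, h5⟩
      · rintro ⟨⟨_, h6⟩, h5⟩
        exact ⟨h5, h6⟩
    rw [Finset.sum_congr rfl h4, Finset.sum_comm]
    refine Finset.sum_congr rfl fun T _ => ?_
    rw [← Finset.sum_filter, Finset.sum_const, nsmul_eq_mul, mul_comm]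
  rw [h3]
  calc ∑ T ∈ (X ∩ V).powerset, (1 / 2 : ℝ) ^ T.card *
        (((X.powersetCard x).filter fun A => T ⊆ A).card : ℝ)
      ≤ ∑ T ∈ (X ∩ V).powerset, (X.card.choose x : ℝ) * (1 / 4 : ℝ) ^ T.card := by
        refine Finset.sum_le_sum fun T hT => ?_
        have h5 := Hyp_N T X x ((Finset.mem_powerset.1 hT).trans Finset.inter_subset_left) hx
        have h6 : (2 : ℝ) ^ T.card * (((X.powersetCard x).filter fun A => T ⊆ A).card : ℝ) ≤
            (X.card.choose x : ℝ) := by exact_mod_cast h5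
        have h7 : (1 / 2 : ℝ) ^ T.card = (1 / 4 : ℝ) ^ T.card * 2 ^ T.card := by
          rw [← mul_pow]
          norm_num
        rw [h7, mul_assoc, mul_comm ((X.card.choose x : ℝ))]
        exact mul_le_mul_of_nonneg_left h6 (by positivity)
    _ = (X.card.choose x : ℝ) * (5 / 4) ^ (X ∩ V).card := by
        rw [← Finset.mul_sum, h2]
    _ ≤ _ := by
        apply mul_le_mul_of_nonneg_left _ (Nat.cast_nonneg _)
        exact pow_le_pow_right₀ (by norm_num) hk

end Pool.Agent.Work.MP_499dc6_lc.D3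

end

section

/-!
# Tilted mass of the small sets
-/

set_option autoImplicit false

namespace Pool.Agent.Work.MP_499dc6_lc.D3

open Finset
open scoped Nat

/-- one fibre -/
noncomputable def HypSum_h {γ : Type} [DecidableEq γ] (V : Finset γ) (m : ℕ) (B : Finset γ) : ℝ :=
  if 2 * B.card ≤ m then (3 / 2 : ℝ) ^ (B ∩ V).card * ((B.card ! : ℝ) * ((m - B.card) ! : ℝ)) else 0

theorem HypSum_h_nonneg {γ : Type} [DecidableEq γ] (V : Finset γ) (m : ℕ) (B : Finset γ) :
    0 ≤ HypSum_h V m B := by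
  unfold HypSum_h; split_ifs <;> positivity

theorem HypSum_one (hH : S_Hyp) {γ : Type} [DecidableEq γ] (X V : Finset γ) (m k : ℕ)
    (hX : X.card = m) (hk : (X ∩ V).card ≤ k) :
    ∑ B ∈ X.powerset, HypSum_h V m B ≤ (m + 1 : ℝ) * m ! * (5 / 4) ^ k := by
  rw [Finset.sum_powerset]
  calc ∑ j ∈ range (X.card + 1), ∑ B ∈ powersetCard j X, HypSum_h V m B
      ≤ ∑ j ∈ range (X.card + 1), (m ! : ℝ) * (5 / 4) ^ k := by
        refine Finset.sum_le_sum fun j hj => ?_
        have hjm : j ≤ m := by rw [mem_range] at hj; omega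
        by_cases h2 : 2 * j ≤ m
        · calc ∑ B ∈ powersetCard j X, HypSum_h V m B
              = ((j ! : ℝ) * ((m - j) ! : ℝ)) *
                  ∑ B ∈ powersetCard j X, (3 / 2 : ℝ) ^ (B ∩ V).card := by
                rw [Finset.mul_sum]
                refine Finset.sum_congr rfl fun B hB => ?_
                rw [mem_powersetCard] at hB
                unfold HypSum_h
                rw [hB.2, if_pos h2]; ring
            _ ≤ ((j ! : ℝ) * ((m - j) ! : ℝ)) * ((X.card.choose j : ℝ) * (5 / 4) ^ k) := by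
                refine mul_le_mul_of_nonneg_left (hH γ X V k j hk (by omega)) (by positivity)
            _ = (m ! : ℝ) * (5 / 4) ^ k := by
                have h := Nat.choose_mul_factorial_mul_factorial hjm
                have h' : ((m.choose j : ℝ)) * (j ! : ℝ) * ((m - j) ! : ℝ) = (m ! : ℝ) := by
                  exact_mod_cast h
                rw [hX, ← h']; ring
        · have : ∑ B ∈ powersetCard j X, HypSum_h V m B = 0 := by
            refine Finset.sum_eq_zero fun B hB => ?_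
            rw [mem_powersetCard] at hB
            unfold HypSum_h
            rw [hB.2, if_neg h2]
          rw [this]; positivity
    _ = (m + 1 : ℝ) * m ! * (5 / 4) ^ k := by
        rw [Finset.sum_const, card_range, hX, nsmul_eq_mul]; push_cast; ring

theorem pr_HypSum (hH : S_Hyp) : S_HypSum := by
  intro α β _ _ _ _ s m k hm hk
  classical
  set V : Finset (α ⊕ β) := univ.filter fun x => x.isRight = true with hV
  set X : Bool → Finset (α ⊕ β) := fun b => univ.filter fun x => s x = b with hX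
  have hXk : ∀ b, (X b ∩ V).card ≤ k := by
    intro b
    rw [← hk b]
    refine Finset.card_le_card_of_surjOn (fun u : β => (Sum.inr u : α ⊕ β)) ?_
    intro x hx
    simp only [hX, hV, coe_inter, coe_filter, Set.mem_inter_iff, mem_univ, true_and,
      Set.mem_ofPred_eq] at hx
    rcases x with a | u
    · simp at hx
    · exact ⟨u, by simpa using hx.1, rfl⟩
  have hb : ∀ b, ∑ B ∈ (X b).powerset, HypSum_h V m B ≤ (m + 1 : ℝ) * m ! * (5 / 4) ^ k :=
    fun b => HypSum_one hH (X b) V m k (hm b) (hXk b)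
  have hterm : ∀ A : Finset (α ⊕ β),
      (if 2 * A.card ≤ m then (3 / 2 : ℝ) ^ (Ur A).card * fc s m A else 0) ≤
      HypSum_h V m (A.filter fun x => s x = true) * HypSum_h V m (A.filter fun x => s x = false) := by
    intro A
    split_ifs with h
    · have c1 : (A.filter fun x => s x = true).card ≤ A.card := card_filter_le _ _
      have c2 : (A.filter fun x => s x = false).card ≤ A.card := card_filter_le _ _
      unfold HypSum_h
      rw [if_pos (by omega), if_pos (by omega)]
      have hU : (Ur A).card = ((A.filter fun x => s x = true) ∩ V).card +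
          ((A.filter fun x => s x = false) ∩ V).card := by
        rw [← card_union_of_disjoint]
        · congr 1
          ext x
          simp only [Ur, hV, mem_filter, mem_union, mem_inter, mem_univ, true_and]
          cases s x <;> simp
        · rw [disjoint_left]
          intro x hx hx'
          simp only [mem_inter, mem_filter] at hx hx'
          rw [hx.1.2] at hx'
          exact absurd hx'.1.2 (by simp)
      apply le_of_eq
      unfold fc ns
      rw [Fintype.prod_bool, hU, pow_add]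
      ring
    · exact mul_nonneg (HypSum_h_nonneg _ _ _) (HypSum_h_nonneg _ _ _)
  calc (∑ A : Finset (α ⊕ β), if 2 * A.card ≤ m then (3 / 2 : ℝ) ^ (Ur A).card * fc s m A else 0)
      ≤ ∑ A : Finset (α ⊕ β), HypSum_h V m (A.filter fun x => s x = true) *
          HypSum_h V m (A.filter fun x => s x = false) := Finset.sum_le_sum fun A _ => hterm A
    _ = ∑ c ∈ (univ : Finset (Finset (α ⊕ β))).image
          (fun A => (A.filter fun x => s x = true, A.filter fun x => s x = false)),
          HypSum_h V m c.1 * HypSum_h V m c.2 := by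
        rw [Finset.sum_image]
        intro A _ A' _ h
        simp only [Prod.mk.injEq] at h
        ext x
        have h1 := Finset.ext_iff.1 h.1 x
        have h2 := Finset.ext_iff.1 h.2 x
        simp only [mem_filter] at h1 h2
        cases hs : s x
        · simpa [hs] using h2
        · simpa [hs] using h1
    _ ≤ ∑ c ∈ (X true).powerset ×ˢ (X false).powerset, HypSum_h V m c.1 * HypSum_h V m c.2 := by
        refine Finset.sum_le_sum_of_subset_of_nonneg ?_ fun c _ _ =>
          mul_nonneg (HypSum_h_nonneg _ _ _) (HypSum_h_nonneg _ _ _)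
        intro c hc
        rw [mem_image] at hc
        obtain ⟨A, _, rfl⟩ := hc
        rw [mem_product, mem_powerset, mem_powerset]
        constructor
        · intro x hx
          rw [mem_filter] at hx
          simp only [hX, mem_filter, mem_univ, true_and]; exact hx.2
        · intro x hx
          rw [mem_filter] at hx
          simp only [hX, mem_filter, mem_univ, true_and]; exact hx.2
    _ = (∑ B ∈ (X true).powerset, HypSum_h V m B) * ∑ B ∈ (X false).powerset, HypSum_h V m B := by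
        rw [Finset.sum_mul_sum, Finset.sum_product]
    _ ≤ ((m + 1 : ℝ) * m ! * (5 / 4) ^ k) * ((m + 1 : ℝ) * m ! * (5 / 4) ^ k) :=
        mul_le_mul (hb true) (hb false)
          (Finset.sum_nonneg fun B _ => HypSum_h_nonneg _ _ _) (by positivity)
    _ = ((m + 1 : ℝ) * m !) ^ 2 * (5 / 4) ^ (2 * k) := by ring

end Pool.Agent.Work.MP_499dc6_lc.D3

end
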