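import Mathlib
import Pool.Agent.Work.MP_499dc6_lc.Bd.B04
import Pool.Agent.Work.MP_499dc6_lc.Bd.B03

/-! Bundle of small proof modules (one section per former module). -/

section

/-!
# The integrand, column by column
-/

namespace Pool.Agent.Work.MP_499dc6_lc.D3

open Finset

theorem Int_prod {γ : Type} [Fintype γ] [DecidableEq γ] (S : Finset γ) (c : ℝ) :
    ∏ x : γ, (if x ∈ S then c else 1) = c ^ S.card := by
  rw [Finset.prod_ite_mem, Finset.univ_inter, Finset.prod_const]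

theorem Int_sum {α β : Type} [Fintype α] [Fintype β] (f : α → ℝ) :
    ∏ x : α ⊕ β, Sum.elim f (fun _ => (1 : ℝ)) x = ∏ a, f a := by
  rw [Fintype.prod_sum_type]
  simp

theorem Int_memIn {α β : Type} [DecidableEq α] [DecidableEq β] (A : Finset (α ⊕ β))
    (B : Finset α) (a : α) : (Sum.inl a ∈ In A B) ↔ Sum.inl a ∈ A ∧ a ∈ B := by
  simp [In]

theorem Int_memIn' {α β : Type} [DecidableEq α] [DecidableEq β] (A : Finset (α ⊕ β))
    (B : Finset α) (u : β) : (Sum.inr u ∈ In A B) ↔ Sum.inr u ∈ A := by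
  simp [In]

theorem Int_memOut {α β : Type} [DecidableEq α] [DecidableEq β] (A : Finset (α ⊕ β))
    (B : Finset α) (a : α) : (Sum.inl a ∈ Out A B) ↔ Sum.inl a ∈ A ∧ a ∉ B := by
  simp [Out]

theorem Int_memOut' {α β : Type} [DecidableEq α] [DecidableEq β] (A : Finset (α ⊕ β))
    (B : Finset α) (u : β) : ¬ (Sum.inr u ∈ Out A B) := by
  simp [Out]

theorem Int_memUr {α β : Type} (A : Finset (α ⊕ β)) (a : α) : ¬ (Sum.inl a ∈ Ur A) := by
  simp [Ur]

theorem Int_memUr' {α β : Type} (A : Finset (α ⊕ β)) (u : β) :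
    (Sum.inr u ∈ Ur A) ↔ Sum.inr u ∈ A := by
  simp [Ur]

theorem pr_Int : S_Int := by
  intro α β _ _ _ _ AY BY AZ BZ q hq hY hZ
  have hL : (2 : ℝ) ^ (In BY BZ).card * 2 ^ (In AY AZ).card *
      (3 / 2) ^ (Fintype.card α + Fintype.card β) * (2 / 3) ^ BY.card * q ^ AZ.card =
      ∏ x : α ⊕ β, ((if x ∈ In BY BZ then (2 : ℝ) else 1) * (if x ∈ In AY AZ then (2 : ℝ) else 1) *
        (3 / 2) * (if x ∈ BY then (2 / 3 : ℝ) else 1) *
        Sum.elim (fun a => if a ∈ AZ then q else 1) (fun _ => (1 : ℝ)) x) := by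
    rw [Finset.prod_mul_distrib, Finset.prod_mul_distrib, Finset.prod_mul_distrib,
      Finset.prod_mul_distrib, Int_prod, Int_prod, Int_prod, Int_sum, Int_prod, Finset.prod_const,
      Finset.card_univ, Fintype.card_sum]
  have hR : (2 : ℝ) ^ (Fintype.card α + Fintype.card β) *
      ((3 / 2) ^ (Ur AY).card * (q * (3 / 2)) ^ AZ.card * (3 / 4) ^ (Out AY AZ).card) =
      ∏ x : α ⊕ β, ((2 : ℝ) * ((if x ∈ Ur AY then (3 / 2 : ℝ) else 1) *
        Sum.elim (fun a => if a ∈ AZ then q * (3 / 2) else 1) (fun _ => (1 : ℝ)) x *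
        (if x ∈ Out AY AZ then (3 / 4 : ℝ) else 1))) := by
    rw [Finset.prod_mul_distrib, Finset.prod_mul_distrib, Finset.prod_mul_distrib,
      Int_prod, Int_prod, Int_sum, Int_prod, Finset.prod_const,
      Finset.card_univ, Fintype.card_sum]
  rw [hL, hR]
  apply Finset.prod_le_prod
  · intro x _
    have h1 : 0 ≤ Sum.elim (fun a => if a ∈ AZ then q else 1) (fun _ : β => (1 : ℝ)) x := by
      rcases x with a | u
      · simp only [Sum.elim_inl]
        split_ifs
        · exact hq.le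
        · exact zero_le_one
      · simp only [Sum.elim_inr]
        exact zero_le_one
    refine mul_nonneg (mul_nonneg (mul_nonneg (mul_nonneg ?_ ?_) (by norm_num)) ?_) h1 <;>
    · split_ifs <;> norm_num
  · intro x _
    rcases x with a | u
    · simp only [Int_memIn, Int_memOut, Int_memUr, Sum.elim_inl, if_false]
      have hd1 : Sum.inl a ∈ AY → Sum.inl a ∉ BY := fun h h' => Finset.disjoint_left.1 hY h h'
      have hd2 : a ∈ AZ → a ∉ BZ := fun h h' => Finset.disjoint_left.1 hZ h h'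
      by_cases hA : Sum.inl a ∈ AY
      · have hB := hd1 hA
        by_cases hz : a ∈ AZ
        · simp only [hA, hB, hz, not_true, and_true, and_false, false_and, if_true, if_false]
          linarith
        · simp only [hA, hB, hz, not_false_eq_true, and_true, and_false, false_and, if_true,
            if_false]
          linarith
      · by_cases hB : Sum.inl a ∈ BY
        · by_cases hz : a ∈ AZ
          · have hz' := hd2 hz
            simp only [hA, hB, hz, hz', not_true, and_true, and_false, false_and, if_true,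
              if_false]
            linarith
          · by_cases hz' : a ∈ BZ
            · simp only [hA, hB, hz, hz', not_false_eq_true, and_true, and_false, false_and,
                if_true, if_false]
              linarith
            · simp only [hA, hB, hz, hz', not_false_eq_true, and_true, and_false, false_and,
                if_true, if_false]
              linarith
        · by_cases hz : a ∈ AZ
          · simp only [hA, hB, hz, not_true, and_true, and_false, false_and, if_true,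
              if_false]
            linarith
          · simp only [hA, hB, hz, not_false_eq_true, and_true, and_false, false_and,
              if_true, if_false]
            linarith
    · simp only [Int_memIn', Int_memOut', Int_memUr', Sum.elim_inr, if_false]
      have hd1 : Sum.inr u ∈ AY → Sum.inr u ∉ BY := fun h h' => Finset.disjoint_left.1 hY h h'
      by_cases hA : Sum.inr u ∈ AY
      · have hB := hd1 hA
        simp only [hA, hB, if_true, if_false]
        norm_num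
      · by_cases hB : Sum.inr u ∈ BY
        · simp only [hA, hB, if_true, if_false]
          norm_num
        · simp only [hA, hB, if_false]
          norm_num

end Pool.Agent.Work.MP_499dc6_lc.D3

end

section

/-!
# Depth three circuits: large types
-/

namespace Pool.Agent.Work.MP_499dc6_lc.D3

open Pool.Agent.Work.MP_499dc6_lc.CD

theorem Large_rec (r u : ℕ) : TT (r + 1) (u + 1) = TT (r + 1) u + TT r (u + 1) := by
  unfold TT
  have h1 : r + 1 + (u + 1) - 1 = (r + u) + 1 := by omega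
  have h2 : r + 1 + u - 1 = r + u := by omega
  have h3 : r + (u + 1) - 1 = r + u := by omega
  rw [h1, h2, h3]
  exact Nat.choose_succ_succ (r + u) u

theorem Large_bound (x : ℝ) (h0 : 0 < x) (h1 : x < 1) :
    ∀ r u : ℕ, (TT r u : ℝ) * x ^ u ≤ ((1 - x)⁻¹) ^ r := by
  have hy : 1 ≤ (1 - x)⁻¹ := by
    rw [one_le_inv₀ (by linarith)]
    linarith
  intro r
  induction r with
  | zero =>
    intro u
    rcases u with _ | u
    · simp [TT]
    · have : TT 0 (u + 1) = 0 := by
        unfold TT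
        exact Nat.choose_eq_zero_of_lt (by omega)
      rw [this]
      simp
  | succ r ihr =>
    intro u
    induction u with
    | zero =>
      have : TT (r + 1) 0 = 1 := by simp [TT]
      rw [this]
      simpa using one_le_pow₀ hy
    | succ u ihu =>
      rw [Large_rec]
      have e1 : (((TT (r + 1) u + TT r (u + 1) : ℕ) : ℝ)) * x ^ (u + 1) =
          x * ((TT (r + 1) u : ℝ) * x ^ u) + (TT r (u + 1) : ℝ) * x ^ (u + 1) := by
        push_cast
        ring
      rw [e1]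
      have e2 : ((1 - x)⁻¹) ^ (r + 1) = x * ((1 - x)⁻¹) ^ (r + 1) + ((1 - x)⁻¹) ^ r := by
        have h3 : (1 - x)⁻¹ * (1 - x) = 1 := inv_mul_cancel₀ (by linarith)
        have h4 : ((1 - x)⁻¹) ^ (r + 1) * (1 - x) = ((1 - x)⁻¹) ^ r := by
          rw [pow_succ, mul_assoc, h3, mul_one]
        linarith [h4]
      rw [e2]
      exact add_le_add (mul_le_mul_of_nonneg_left ihu h0.le) (ihr (u + 1))

theorem Large_one (r u : ℕ) : (TT r u : ℝ) ≤ Real.exp (7 * r + u / 600) := by
  have hx0 : 0 < Real.exp (-(1 / 600 : ℝ)) := Real.exp_pos _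
  have hx1 : Real.exp (-(1 / 600 : ℝ)) ≤ 600 / 601 := by
    rw [Real.exp_neg]
    have : (601 / 600 : ℝ) ≤ Real.exp (1 / 600) := by
      have := Real.add_one_le_exp (1 / 600 : ℝ)
      linarith
    calc (Real.exp (1 / 600))⁻¹ ≤ (601 / 600 : ℝ)⁻¹ := inv_anti₀ (by norm_num) this
      _ = 600 / 601 := by norm_num
  have hb := Large_bound _ hx0 (lt_of_le_of_lt hx1 (by norm_num)) r u
  have hy : (1 - Real.exp (-(1 / 600 : ℝ)))⁻¹ ≤ Real.exp 7 := by
    have h601 : (601 : ℝ) ≤ Real.exp 7 := by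
      have he : (2.7 : ℝ) ≤ Real.exp 1 := by
        have := Real.exp_one_gt_d9
        linarith
      have : Real.exp 7 = Real.exp 1 ^ 7 := by
        rw [← Real.exp_nat_mul]
        norm_num
      rw [this]
      calc (601 : ℝ) ≤ 2.7 ^ 7 := by norm_num
        _ ≤ Real.exp 1 ^ 7 := pow_le_pow_left₀ (by norm_num) he 7
    refine le_trans ?_ h601
    rw [inv_le_comm₀ (by linarith) (by norm_num)]
    linarith
  have hnn : 0 ≤ (1 - Real.exp (-(1 / 600 : ℝ)))⁻¹ := by
    apply inv_nonneg.mpr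
    linarith
  have h2 : (TT r u : ℝ) * Real.exp (-(1 / 600 : ℝ)) ^ u ≤ Real.exp 7 ^ r :=
    hb.trans (pow_le_pow_left₀ hnn hy r)
  have h3 : Real.exp (7 * r + u / 600) = Real.exp 7 ^ r * Real.exp (1 / 600 : ℝ) ^ u := by
    rw [← Real.exp_nat_mul, ← Real.exp_nat_mul, ← Real.exp_add]
    congr 1
    ring
  have h4 : Real.exp (-(1 / 600 : ℝ)) ^ u * Real.exp (1 / 600 : ℝ) ^ u = 1 := by
    rw [← mul_pow, ← Real.exp_add]
    simp
  rw [h3]
  calc (TT r u : ℝ) = (TT r u : ℝ) * (Real.exp (-(1 / 600 : ℝ)) ^ u * Real.exp (1 / 600 : ℝ) ^ u) := by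
        rw [h4, mul_one]
    _ = ((TT r u : ℝ) * Real.exp (-(1 / 600 : ℝ)) ^ u) * Real.exp (1 / 600 : ℝ) ^ u := by ring
    _ ≤ Real.exp 7 ^ r * Real.exp (1 / 600 : ℝ) ^ u :=
        mul_le_mul_of_nonneg_right h2 (by positivity)

theorem Large_log : (2 / 5 : ℝ) ≤ Real.log (3 / 2) := by
  rw [Real.le_log_iff_exp_le (by norm_num)]
  have h5 : Real.exp (2 / 5) ^ 5 = Real.exp 1 ^ 2 := by
    rw [← Real.exp_nat_mul, ← Real.exp_nat_mul]
    norm_num
  have he : Real.exp 1 ≤ 2.72 := by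
    have := Real.exp_one_lt_d9
    linarith
  have h6 : Real.exp (2 / 5) ^ 5 ≤ (3 / 2 : ℝ) ^ 5 := by
    rw [h5]
    calc Real.exp 1 ^ 2 ≤ 2.72 ^ 2 := pow_le_pow_left₀ (Real.exp_pos 1).le he 2
      _ ≤ (3 / 2 : ℝ) ^ 5 := by norm_num
  exact le_of_pow_le_pow_left₀ (by norm_num) (by norm_num) h6

theorem pr_Large : S_Large := by
  intro D r u v hD hr h
  have hD0 : (0 : ℝ) < D := by exact_mod_cast hD
  have h1 := Large_one r u
  have h2 := Large_one r v
  have hl : 0 ≤ Real.log D := Real.log_natCast_nonneg D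
  have h3 := Large_log
  calc (D : ℝ) * (TT r u * TT r v)
      ≤ Real.exp (Real.log D) * (Real.exp (7 * r + u / 600) * Real.exp (7 * r + v / 600)) := by
        rw [Real.exp_log hD0]
        gcongr
    _ = Real.exp (Real.log D + ((7 * r + u / 600) + (7 * r + v / 600))) := by
        rw [← Real.exp_add, ← Real.exp_add]
    _ ≤ Real.exp (Real.log (3 / 2) / 64 * (u + v)) := by
        apply Real.exp_le_exp.mpr
        have hr0 : (0 : ℝ) ≤ r := Nat.cast_nonneg r
        have hn : (0 : ℝ) ≤ (u : ℝ) + v := by positivity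
        have h5 : (2 / 5 : ℝ) / 64 * ((u : ℝ) + v) ≤ Real.log (3 / 2) / 64 * (u + v) := by
          apply mul_le_mul_of_nonneg_right _ hn
          linarith
        nlinarith

end Pool.Agent.Work.MP_499dc6_lc.D3

end

section

/-!
# Total mass
-/

namespace Pool.Agent.Work.MP_499dc6_lc.D3

open Finset
open scoped Nat

theorem Mass_one {γ : Type} [DecidableEq γ] (X : Finset γ) (m : ℕ) (hX : X.card = m) :
    (∑ A ∈ X.powerset, ((A.card ! : ℝ) * ((m - A.card)! : ℝ))) = (m + 1 : ℝ) * m ! := by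
  rw [Finset.sum_powerset_apply_card (fun x => ((x ! : ℝ) * ((m - x)! : ℝ))) , hX]
  have h : ∀ x ∈ range (m + 1), m.choose x • ((x ! : ℝ) * ((m - x)! : ℝ)) = (m ! : ℝ) := by
    intro x hx
    have hx' : x ≤ m := Nat.lt_succ_iff.1 (Finset.mem_range.1 hx)
    have h1 := Nat.choose_mul_factorial_mul_factorial hx'
    rw [nsmul_eq_mul, ← h1]
    push_cast
    ring
  rw [Finset.sum_congr rfl h, Finset.sum_const, Finset.card_range, nsmul_eq_mul]
  push_cast
  ring

theorem pr_Mass : S_Mass := by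
  intro γ _ _ s m hm
  have key : (∑ A : Finset γ, fc s m A) =
      ∑ p ∈ (univ.filter fun x => s x = false).powerset ×ˢ (univ.filter fun x => s x = true).powerset,
        (((p.1.card ! : ℝ) * ((m - p.1.card)! : ℝ)) *
          ((p.2.card ! : ℝ) * ((m - p.2.card)! : ℝ))) := by
    refine Finset.sum_bij' (fun A _ => (A.filter fun x => s x = false, A.filter fun x => s x = true))
      (fun p _ => p.1 ∪ p.2) ?_ ?_ ?_ ?_ ?_
    · intro A _
      rw [Finset.mem_product, Finset.mem_powerset, Finset.mem_powerset]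
      exact ⟨Finset.filter_subset_filter _ (Finset.subset_univ _),
        Finset.filter_subset_filter _ (Finset.subset_univ _)⟩
    · intro p _
      exact Finset.mem_univ _
    · intro A _
      ext x
      simp only [Finset.mem_union, Finset.mem_filter]
      rcases s x <;> simp
    · intro p hp
      rw [Finset.mem_product, Finset.mem_powerset, Finset.mem_powerset] at hp
      obtain ⟨h1, h2⟩ := hp
      have h3 : ∀ x ∈ p.1, s x = false := fun x hx => (Finset.mem_filter.1 (h1 hx)).2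
      have h4 : ∀ x ∈ p.2, s x = true := fun x hx => (Finset.mem_filter.1 (h2 hx)).2
      refine Prod.ext ?_ ?_
      · ext x
        simp only [Finset.mem_union, Finset.mem_filter]
        constructor
        · rintro ⟨h | h, h'⟩
          · exact h
          · rw [h4 x h] at h'; exact absurd h' (by decide)
        · intro h
          exact ⟨Or.inl h, h3 x h⟩
      · ext x
        simp only [Finset.mem_union, Finset.mem_filter]
        constructor
        · rintro ⟨h | h, h'⟩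
          · rw [h3 x h] at h'; exact absurd h' (by decide)
          · exact h
        · intro h
          exact ⟨Or.inr h, h4 x h⟩
    · intro A _
      unfold fc ns
      rw [Fintype.prod_bool, mul_comm]
  rw [key, Finset.sum_product]
  simp only
  rw [← Finset.sum_mul_sum, Mass_one _ m (hm false), Mass_one _ m (hm true)]
  ring

end Pool.Agent.Work.MP_499dc6_lc.D3

end

section

/-!
# MP_499dc6_lc, D3, item Minor (helper70): an invertible submatrix of the size of the rank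
-/

namespace Pool.Agent.Work.MP_499dc6_lc.D3

open Finset

theorem Minor_rows {m n : Type} [Fintype m] [Fintype n] (H : Matrix m n ℝ) (k : ℕ)
    (hk : H.rank = k) : ∃ r : Fin k → m, LinearIndependent ℝ (fun i => H (r i)) := by
  obtain ⟨κ, a, ha, hs, hl⟩ := exists_linearIndependent' (K := ℝ) (fun i => H i)
  have hfin : Finite κ := Finite.of_injective a ha
  cases nonempty_fintype κ
  have hc : Fintype.card κ = k := by
    rw [← hk, Matrix.rank_eq_finrank_span_row]
    have h1 : Set.range H.row = Set.range (fun i => H i) := rfl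
    rw [h1, ← hs, finrank_span_eq_card hl]
  let e : Fin k ≃ κ := (Fintype.equivFinOfCardEq hc).symm
  exact ⟨a ∘ e, hl.comp e e.injective⟩

theorem pr_Minor : S_Minor := by
  intro m n _ _ _ _ H
  obtain ⟨r, hr⟩ := Minor_rows H H.rank rfl
  have hB : (H.submatrix r id).rank = H.rank := by
    have h1 : LinearIndependent ℝ (H.submatrix r id).row := hr
    have h2 := h1.rank_matrix
    rwa [Fintype.card_fin] at h2
  have hBt : (H.submatrix r id).transpose.rank = H.rank := by rw [Matrix.rank_transpose, hB]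
  obtain ⟨c, hc⟩ := Minor_rows (H.submatrix r id).transpose H.rank hBt
  refine ⟨r, c, ?_⟩
  have h3 : LinearIndependent ℝ (H.submatrix r c).col := hc
  have h4 := Matrix.linearIndependent_cols_iff_isUnit.1 h3
  rw [Matrix.isUnit_iff_isUnit_det] at h4
  exact h4.ne_zero

end Pool.Agent.Work.MP_499dc6_lc.D3

end

section

/-!
# The final numbers
-/

set_option autoImplicit false

namespace Pool.Agent.Work.MP_499dc6_lc.D3

theorem Num_log : (0.405 : ℝ) ≤ Real.log (3 / 2) := by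
  rw [Real.le_log_iff_exp_le (by norm_num)]
  have h := Real.exp_bound' (x := 0.405) (by norm_num) (by norm_num) (n := 6) (by norm_num)
  refine h.trans ?_
  simp [Finset.sum_range_succ, Nat.factorial]
  norm_num

theorem Num_log1000 : Real.log 1000 ≤ 7 := by
  rw [Real.log_le_iff_le_exp (by norm_num)]
  have h := Real.exp_one_gt_d9
  have h2 : Real.exp 7 = Real.exp 1 ^ 7 := by rw [← Real.exp_nat_mul]; norm_num
  rw [h2]
  calc (1000 : ℝ) ≤ 2.7182818283 ^ 7 := by norm_num
    _ ≤ Real.exp 1 ^ 7 := by gcongr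

/-- `log N ≤ 4 N ^ (1/4)` in the form with `y ^ 4 = N` -/
theorem Num_logN (N : ℝ) (hN : 10 ^ 6 ≤ N) :
    Real.log (1000 * N ^ 6) ≤ Real.sqrt N := by
  set y := Real.sqrt (Real.sqrt N) with hy
  have hN0 : 0 < N := lt_of_lt_of_le (by norm_num) hN
  have hsN : Real.sqrt N = y ^ 2 := by rw [hy, Real.sq_sqrt (Real.sqrt_nonneg _)]
  have hNy : N = y ^ 4 := by
    calc N = Real.sqrt N ^ 2 := (Real.sq_sqrt hN0.le).symm
      _ = y ^ 4 := by rw [hsN]; ring
  have hy31 : 31 ≤ y := by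
    rw [hy]
    apply Real.le_sqrt_of_sq_le
    apply Real.le_sqrt_of_sq_le
    norm_num
    linarith
  have hy0 : 0 < y := by linarith
  have hlog : Real.log N ≤ 4 * (y - 1) := by
    rw [hNy, Real.log_pow]
    have := Real.log_le_sub_one_of_pos hy0
    push_cast
    linarith
  rw [Real.log_mul (by norm_num) (by positivity), Real.log_pow, hsN]
  push_cast
  have := Num_log1000
  nlinarith

theorem pr_Num : S_Num := by
  intro N S τ t w k hS hτ ht hw hk hmain
  have hlogS : 0 ≤ Real.log S := Real.log_nonneg hS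
  rcases Nat.eq_zero_or_pos N with hN | hN
  · subst hN
    simp
    positivity
  have hN1 : (1 : ℝ) ≤ N := by exact_mod_cast hN
  have hsq1 : 1 ≤ Real.sqrt N := by
    rw [Real.one_le_sqrt]; exact hN1
  have ht1 : (t : ℝ) ≤ 4001 * τ := by
    have := Nat.ceil_lt_add_one (R := ℝ) (a := 4000 * τ) (by positivity)
    rw [ht]; linarith
  have ht0 : (4000 : ℝ) ≤ t := by
    have := Nat.le_ceil (4000 * τ)
    rw [ht]; linarith
  have hwR : (w : ℝ) = 32 * t := by rw [hw]; push_cast; ring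
  have h2w : (2 * w + 1 : ℝ) ≤ 65 * t := by rw [hwR]; linarith
  rcases Nat.eq_zero_or_pos k with hk0 | hk1
  · -- `N < 4 (2 w + 1)`
    have hlt : N < 4 * (2 * w + 1) := by
      rw [hk0] at hk
      have hpos : 0 < 4 * (2 * w + 1) := by positivity
      exact (Nat.div_eq_zero_iff_lt hpos).mp hk.symm
    have hltR : (N : ℝ) < 4 * (2 * w + 1) := by exact_mod_cast hlt
    have h1 : (N : ℝ) ≤ 260 * (4001 * τ) := by
      calc (N : ℝ) ≤ 4 * (2 * w + 1) := hltR.le
        _ ≤ 4 * (65 * t) := by linarith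
        _ ≤ 260 * (4001 * τ) := by linarith
    have h2 : τ ≤ (Real.log S + Real.sqrt N) * τ := by nlinarith
    rw [div_le_iff₀ (by positivity)]
    nlinarith
  · have hm := hmain hk1
    have hk1R : (1 : ℝ) ≤ k := by exact_mod_cast hk1
    have hle : k * (4 * (2 * w + 1)) ≤ N := by rw [hk]; exact Nat.div_mul_le_self _ _
    have hleR : (k : ℝ) * (4 * (2 * w + 1)) ≤ N := by exact_mod_cast hle
    have hlt : N < (k + 1) * (4 * (2 * w + 1)) := by
      rw [hk]
      have hpos : 0 < 4 * (2 * w + 1) := by positivity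
      have := Nat.lt_div_mul_add (a := N) hpos
      linarith [Nat.div_mul_le_self N (4 * (2 * w + 1))]
    have hltR : (N : ℝ) < (k + 1) * (4 * (2 * w + 1)) := by exact_mod_cast hlt
    have hN6 : (10 : ℝ) ^ 6 ≤ N := by
      have h3 : (4 * (2 * (w : ℝ) + 1)) ≤ k * (4 * (2 * w + 1)) := by nlinarith
      nlinarith
    have hd : ((2 * (w * k + k) + 2 * (w * k) : ℕ) : ℝ) ≤ N / 2 := by
      push_cast
      nlinarith
    have hd1 : ((2 * (w * k + k) + 1 : ℕ) : ℝ) ≤ N := by
      push_cast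
      nlinarith
    have hsqd : 72 * Real.sqrt ((2 * (w * k + k) + 2 * (w * k) : ℕ) : ℝ) ≤ 51 * Real.sqrt N := by
      have h4 : Real.sqrt ((2 * (w * k + k) + 2 * (w * k) : ℕ) : ℝ) ≤ 51 / 72 * Real.sqrt N := by
        apply Real.sqrt_le_iff.mpr
        refine ⟨by positivity, ?_⟩
        rw [mul_pow, Real.sq_sqrt (by linarith)]
        refine hd.trans ?_
        nlinarith
      linarith
    have hlog : Real.log (1000 * ((2 * (w * k + k) + 1 : ℕ) : ℝ) ^ 6) ≤ Real.sqrt N := by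
      refine le_trans ?_ (Num_logN N hN6)
      apply Real.log_le_log (by positivity)
      gcongr
    have hal := Num_log
    have hkl : (N : ℝ) ≤ 8 * (65 * (4001 * τ)) * k := by
      calc (N : ℝ) ≤ (k + 1) * (4 * (2 * w + 1)) := hltR.le
        _ ≤ (2 * k) * (4 * (65 * (4001 * τ))) := by
            apply mul_le_mul <;> linarith
        _ = 8 * (65 * (4001 * τ)) * k := by ring
    have h5 : 0.405 / 8 * (k : ℝ) ≤ Real.log S + 52 * Real.sqrt N := by
      have h6 : 0.405 / 8 * (k : ℝ) ≤ Real.log (3 / 2) / 8 * k := by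
        apply mul_le_mul_of_nonneg_right _ (by linarith)
        linarith
      linarith
    rw [div_le_iff₀ (by positivity)]
    have h7 : 0.405 / 8 * (k : ℝ) ≤ 52 * (Real.log S + Real.sqrt N) := by linarith
    have h8 : (k : ℝ) * τ ≤ 52 * 8 / 0.405 * ((Real.log S + Real.sqrt N) * τ) := by
      have : 0.405 / 8 * (k : ℝ) * τ ≤ 52 * (Real.log S + Real.sqrt N) * τ :=
        mul_le_mul_of_nonneg_right h7 (by linarith)
      rw [div_mul_eq_mul_div, le_div_iff₀ (by norm_num)]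
      nlinarith
    have h9 : 0 ≤ (Real.log S + Real.sqrt N) * τ := by positivity
    nlinarith

end Pool.Agent.Work.MP_499dc6_lc.D3

end

section

/-!
# Item Pattern: the pattern of a codeword is balanced
-/

namespace Pool.Agent.Work.MP_499dc6_lc.D3

open Equiv Finset

private theorem Pattern_fst (m : ℕ) (b : Bool) :
    (univ.filter fun a : Bool × Fin m => a.1 = b).card = m := by
  have h : (univ.filter fun a : Bool × Fin m => a.1 = b) = ({b} : Finset Bool) ×ˢ univ := by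
    ext ⟨x, y⟩
    simp [eq_comm]
  rw [h, Finset.card_product, Finset.card_singleton, Finset.card_univ, Fintype.card_fin, one_mul]

private theorem Pattern_perm {α : Type} [Fintype α] [DecidableEq α] (s : α → Bool) (σ : Perm α)
    (b : Bool) : (univ.filter fun a => s (σ.symm a) = b).card = (univ.filter fun a => s a = b).card := by
  refine Finset.card_bij (fun a _ => σ.symm a) ?_ ?_ ?_
  · intro a ha
    simpa using ha
  · intro a _ a' _ h
    exact σ.symm.injective h
  · intro a ha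
    exact ⟨σ a, by simpa using ha, by simp⟩

private theorem Pattern_sum {α β : Type} [Fintype α] [Fintype β] (p : α ⊕ β → Prop)
    [DecidablePred p] : (univ.filter p).card =
      (univ.filter fun a => p (Sum.inl a)).card + (univ.filter fun a => p (Sum.inr a)).card := by
  simp only [Finset.card_filter]
  rw [Fintype.sum_sum_type]

theorem pr_Pattern : S_Pattern := by
  intro n k c b
  have h1 : (univ.filter fun a : CZ n => sd (c.1.1.symm (Sum.inl a)) = b).card = n := by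
    have h : (univ.filter fun a : CZ n => sd (c.1.1.symm (Sum.inl a)) = b) =
        (univ.filter fun a : CZ n => (c.1.2.symm a).1 = b) := by
      ext a
      simp only [Finset.mem_filter, Finset.mem_univ, true_and]
      rw [c.2 a]
    rw [h, Pattern_perm (fun a : CZ n => a.1) c.1.2 b]
    exact Pattern_fst n b
  refine ⟨h1, ?_⟩
  have h2 : (univ.filter fun x : CY n k => sd (c.1.1.symm x) = b).card = n + k := by
    rw [Pattern_perm sd c.1.1 b, Pattern_sum]
    have e1 : (univ.filter fun a : Bool × Fin n => sd (k := k) (Sum.inl a) = b).card = n :=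
      Pattern_fst n b
    have e2 : (univ.filter fun a : Bool × Fin k => sd (n := n) (Sum.inr a) = b).card = k :=
      Pattern_fst k b
    rw [e1, e2]
  rw [Pattern_sum, h1] at h2
  omega

end Pool.Agent.Work.MP_499dc6_lc.D3

end

section

/-!
# The hard polynomial is a projection of the permanent
-/

namespace Pool.Agent.Work.MP_499dc6_lc.D3

open Finset

/-- Block diagonal matrix with an identity block. -/
def Proj_M {R : Type} [CommRing R] {α β : Type} (m : ℕ) (G : α → β → R) :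
    α ⊕ Fin m → β ⊕ Fin m → R
  | .inl r, .inl c => G r c
  | .inl _, .inr _ => 0
  | .inr _, .inl _ => 0
  | .inr i, .inr j => if i = j then 1 else 0

theorem Proj_block {R : Type} [CommRing R] {α β : Type} [Fintype α] (m : ℕ) (G : α → β → R)
    [Fintype (α ≃ β)] [Fintype ((α ⊕ Fin m) ≃ (β ⊕ Fin m))] :
    (∑ e : (α ⊕ Fin m) ≃ (β ⊕ Fin m), ∏ r, Proj_M m G r (e r)) =
      ∑ e : α ≃ β, ∏ r, G r (e r) := by
  symm
  refine Fintype.sum_of_injective
    (fun e : α ≃ β => (Equiv.sumCongr e (Equiv.refl (Fin m)))) ?_ _ _ ?_ ?_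
  · intro e e' h
    ext r
    have h2 := congrArg (fun f : (α ⊕ Fin m) ≃ (β ⊕ Fin m) => f (Sum.inl r)) h
    simpa using h2
  · intro e he
    by_contra h0
    apply he
    have h1 : ∀ r, Proj_M m G r (e r) ≠ 0 := by
      intro r hr
      exact h0 (Finset.prod_eq_zero (mem_univ r) hr)
    have h2 : ∀ i : Fin m, e (Sum.inr i) = Sum.inr i := by
      intro i
      have h3 := h1 (Sum.inr i)
      rcases hq : e (Sum.inr i) with c | j
      · rw [hq] at h3
        exact absurd rfl h3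
      · rw [hq] at h3
        by_cases hij : i = j
        · rw [hij]
        · exfalso
          apply h3
          simp [Proj_M, hij]
    have h4 : ∀ r : α, ∃ c : β, e (Sum.inl r) = Sum.inl c := by
      intro r
      have h3 := h1 (Sum.inl r)
      rcases hq : e (Sum.inl r) with c | j
      · exact ⟨c, rfl⟩
      · rw [hq] at h3
        exact absurd rfl h3
    choose f hf using h4
    have hfb : Function.Bijective f := by
      constructor
      · intro a b hab
        have h5 : e (Sum.inl a) = e (Sum.inl b) := by rw [hf, hf, hab]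
        exact Sum.inl_injective (e.injective h5)
      · intro c
        rcases hq : e.symm (Sum.inl c) with r | i
        · refine ⟨r, ?_⟩
          have h5 : e (Sum.inl r) = Sum.inl c := by rw [← hq, Equiv.apply_symm_apply]
          rw [hf] at h5
          exact Sum.inl_injective h5
        · exfalso
          have h5 : e (Sum.inr i) = Sum.inl c := by rw [← hq, Equiv.apply_symm_apply]
          rw [h2] at h5
          exact absurd h5 (by simp)
    refine ⟨Equiv.ofBijective f hfb, ?_⟩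
    ext r
    rcases r with r | i
    · simp [hf]
    · simp [h2]
  · intro e
    rw [Fintype.prod_sum_type]
    simp [Proj_M]

theorem Proj_perm {R : Type} [CommRing R] {α β : Type} [Fintype α] (N : ℕ)
    (er : α ≃ Fin N) (ec : β ≃ Fin N) (M : α → β → R) [Fintype (α ≃ β)] :
    (Matrix.of fun i j : Fin N => M (er.symm j) (ec.symm i)).permanent =
      ∑ e : α ≃ β, ∏ r, M r (e r) := by
  rw [Matrix.permanent]
  refine Fintype.sum_equiv ((Equiv.equivCongr er ec).symm) _ _ fun σ => ?_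
  refine Fintype.prod_equiv er.symm _ _ fun i => ?_
  simp [Equiv.equivCongr]

theorem pr_Proj (h1 : S_GadCancel) (h2 : S_GadBij) : S_Proj := by
  intro R _ n k N y z hN
  have hR : Fintype.card (GR n k ⊕ Fin (N - 4 * (2 * n + k))) = N := by
    simp only [Fintype.card_sum, Fintype.card_prod, Fintype.card_bool, Fintype.card_fin]
    omega
  have hC : Fintype.card (GC n k ⊕ Fin (N - 4 * (2 * n + k))) = N := by
    simp only [Fintype.card_sum, Fintype.card_prod, Fintype.card_bool, Fintype.card_fin]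
    omega
  let er := Fintype.equivFinOfCardEq hR
  let ec := Fintype.equivFinOfCardEq hC
  refine ⟨Matrix.of fun i j : Fin N =>
    Proj_M (N - 4 * (2 * n + k)) (GM y z) (er.symm j) (ec.symm i), ?_, ?_⟩
  · intro i j
    rw [Matrix.of_apply]
    have hG : ∀ (r : GR n k) (c : GC n k), GM y z r c = 0 ∨ GM y z r c = 1 ∨
        GM y z r c = -1 ∨ (∃ r' c', GM y z r c = y r' c') ∨ ∃ r' c', GM y z r c = z r' c' := by
      intro r c
      rcases r with r | r | ⟨a, e⟩ | u <;> rcases c with ⟨j, b⟩ | ⟨j, b⟩ <;> simp only [GM]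
      · by_cases h : sd r = b
        · rw [if_pos h]
          exact Or.inr (Or.inr (Or.inr (Or.inl ⟨_, _, rfl⟩)))
        · rw [if_neg h]
          exact Or.inl rfl
      · exact Or.inl trivial
      · exact Or.inl trivial
      · by_cases h : r.1 = b
        · rw [if_pos h]
          exact Or.inr (Or.inr (Or.inr (Or.inr ⟨_, _, rfl⟩)))
        · rw [if_neg h]
          exact Or.inl rfl
      · split_ifs
        · exact Or.inr (Or.inr (Or.inl rfl))
        · exact Or.inr (Or.inl rfl)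
        · exact Or.inl rfl
      · split_ifs
        · exact Or.inr (Or.inr (Or.inl rfl))
        · exact Or.inr (Or.inl rfl)
        · exact Or.inl rfl
      · split_ifs
        · exact Or.inr (Or.inl rfl)
        · exact Or.inl rfl
      · exact Or.inl trivial
    rcases er.symm j with r | i' <;> rcases ec.symm i with c | j'
    · exact hG r c
    · exact Or.inl rfl
    · exact Or.inl rfl
    · simp only [Proj_M]
      split_ifs
      · exact Or.inr (Or.inl rfl)
      · exact Or.inl rfl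
  · classical
    have : Fintype (GR n k ⊕ Fin (N - 4 * (2 * n + k)) ≃
        GC n k ⊕ Fin (N - 4 * (2 * n + k))) := Equiv.instFintype
    rw [Proj_perm N er ec, Proj_block, h1 R n k y z, h2 R n k y z]

end Pool.Agent.Work.MP_499dc6_lc.D3

end

section

/-!
# Change of the field, border version
-/

namespace Pool.Agent.Work.MP_499dc6_lc.D3

open MvPolynomial
open Pool.Agent.Work.MP_499dc6_lc.CD

theorem pr_RankK (hM : S_Minor) : S_RankK := by
  intro Y Z _ _ _ _ k _ _ P R p q p' q'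
  classical
  obtain ⟨r, c, hdet⟩ := hM _ _ (mat (MvPolynomial.map (Int.castRingHom ℝ) P) p q p' q')
  generalize (mat (MvPolynomial.map (Int.castRingHom ℝ) P) p q p' q').rank = d at r c hdet ⊢
  set A0 : Matrix (Fin d) (Fin d) ℤ := (mat P p q p' q').submatrix r c with hA0
  have h0 : A0.det ≠ 0 := by
    intro h
    apply hdet
    have h1 : (mat (MvPolynomial.map (Int.castRingHom ℝ) P) p q p' q').submatrix r c =
        (Int.castRingHom ℝ).mapMatrix A0 := by
      rw [RankLow_map]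
      rfl
    rw [h1, ← RingHom.map_det, h, map_zero]
  set A : Matrix (Fin d) (Fin d) (PowerSeries k) :=
    (mat (MvPolynomial.map (Int.castRingHom (PowerSeries k)) P + C PowerSeries.X * R)
      p q p' q').submatrix r c with hA
  have hA1 : A = (Int.castRingHom (PowerSeries k)).mapMatrix A0 +
      (PowerSeries.X : PowerSeries k) • (mat R p q p' q').submatrix r c := by
    rw [hA, RankLow_add, RankLow_C, RankLow_map]
    rfl
  have h1 : (PowerSeries.constantCoeff (R := k)) A.det = ((A0.det : ℤ) : k) := by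
    rw [RingHom.map_det]
    have h2 : (PowerSeries.constantCoeff (R := k)).mapMatrix A =
        (Int.castRingHom k).mapMatrix A0 := by
      rw [hA1, map_add]
      have h3 : (PowerSeries.constantCoeff (R := k)).mapMatrix
          ((PowerSeries.X : PowerSeries k) • (mat R p q p' q').submatrix r c) = 0 := by
        ext i j
        simp
      rw [h3, add_zero]
      ext i j
      simp
    rw [h2, ← RingHom.map_det]
    rfl
  have h2 : A.det ≠ 0 := by
    intro h3
    rw [h3, map_zero] at h1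
    exact h0 (Int.cast_eq_zero.1 h1.symm)
  set φ : PowerSeries k →+* LaurentSeries k := algebraMap (PowerSeries k) (LaurentSeries k) with hφ
  have hφi : Function.Injective φ := by
    rw [hφ]
    exact FaithfulSMul.algebraMap_injective _ _
  have h3 : (φ.mapMatrix A).det ≠ 0 := by
    rw [← RingHom.map_det]
    exact (map_ne_zero_iff _ hφi).2 h2
  have h4 := Matrix.rank_of_det_ne_zero h3
  rw [Fintype.card_fin] at h4
  rw [← h4]
  have h5 : φ.mapMatrix A =
      (mat (MvPolynomial.map φ (MvPolynomial.map (Int.castRingHom (PowerSeries k)) P +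
        C PowerSeries.X * R)) p q p' q').submatrix r c := by
    rw [RankLow_map]
    rfl
  rw [h5]
  exact Matrix.rank_submatrix_le _ _ _

end Pool.Agent.Work.MP_499dc6_lc.D3

end

section

/-!
# Lower bound for the rank of the hard polynomial
-/

namespace Pool.Agent.Work.MP_499dc6_lc.D3

open MvPolynomial Equiv Finset
open Pool.Agent.Work.MP_499dc6_lc.CD

open scoped Nat

theorem RankR_gr {α : Type} [Fintype α] [DecidableEq α] (σ : Perm α) :
    ∑ i, gr σ i = Fintype.card α := by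
  have h : ∀ i : α × α, gr σ i = if σ i.1 = i.2 then 1 else 0 := fun i => rfl
  simp only [h]
  rw [Fintype.sum_prod_type]
  have h2 : ∀ x : α, (∑ y : α, if σ x = y then 1 else 0) = 1 := by
    intro x
    rw [Finset.sum_ite_eq]
    simp
  simp only [h2, Finset.sum_const, Finset.card_univ, smul_eq_mul, mul_one]

theorem RankR_cardY (n k : ℕ) : Fintype.card (CY n k) = 2 * (n + k) := by
  simp only [Fintype.card_sum, Fintype.card_prod, Fintype.card_bool, Fintype.card_fin]
  ring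

theorem RankR_cardZ (n : ℕ) : Fintype.card (CZ n) = 2 * n := by
  simp only [Fintype.card_prod, Fintype.card_bool, Fintype.card_fin]

theorem RankR_cardYY (n k : ℕ) : Fintype.card (CY n k × CY n k) = (2 * (n + k)) ^ 2 := by
  rw [Fintype.card_prod, RankR_cardY]
  ring

theorem RankR_cardZZ (n : ℕ) : Fintype.card (CZ n × CZ n) = (2 * n) ^ 2 := by
  rw [Fintype.card_prod, RankR_cardZ]
  ring

theorem RankR_TTpos (N p : ℕ) (hN : 1 ≤ N) : 0 < TT N p :=
  Nat.choose_pos (by omega)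

/-- Algebra at the end. -/
theorem RankR_alg (x C T E tr rk G P Q : ℝ) (hx : 0 < x) (hC : 0 < C) (hT : 0 < T) (hrk : 0 ≤ rk)
    (hG : 0 ≤ G) (hE : C * T ≤ E) (hTr : E ^ 2 ≤ rk * tr) (htr : x * tr ≤ C * T * (P * G))
    (hP : P ≤ C * Q) : x * T ≤ rk * (G * Q) := by
  have h1 : (C * T) ^ 2 ≤ E ^ 2 := pow_le_pow_left₀ (by positivity) hE 2
  have h2 : x * (C * T) ^ 2 ≤ rk * (C * T * (P * G)) := by
    calc x * (C * T) ^ 2 ≤ x * (rk * tr) := mul_le_mul_of_nonneg_left (h1.trans hTr) hx.le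
      _ = rk * (x * tr) := by ring
      _ ≤ _ := mul_le_mul_of_nonneg_left htr hrk
  have h3 : rk * (C * T * (P * G)) ≤ rk * (C * T * (C * Q * G)) := by
    refine mul_le_mul_of_nonneg_left ?_ hrk
    refine mul_le_mul_of_nonneg_left ?_ (by positivity)
    exact mul_le_mul_of_nonneg_right hP hG
  have h4 : (x * T) * (C ^ 2 * T) ≤ (rk * (G * Q)) * (C ^ 2 * T) := by
    calc (x * T) * (C ^ 2 * T) = x * (C * T) ^ 2 := by ring
      _ ≤ _ := h2.trans h3
      _ = _ := by ring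
  exact le_of_mul_le_mul_right h4 (by positivity)

theorem RankR_main (hT : S_Trace) (hE : S_RectE) (hR : S_Rect) (hS : S_Struct) (hSh : S_Shift)
    (hP : S_Pattern) (hC : S_CodeCard) (n k L l : ℕ) (hn : 1 ≤ n) (hk : 1 ≤ k) (q G : ℝ)
    (hq : 0 < q) (hG0 : 0 ≤ G)
    (hp : (L : ℝ) / (((2 * (n + k)) ^ 2 : ℕ) + L - 1) ≤ 2 / 3)
    (hq' : (l : ℝ) / (((2 * n) ^ 2 : ℕ) + l - 1) ≤ q)
    (hG : ∀ s : CY n k → Bool,
      (∀ b, (univ.filter fun a : CZ n => s (Sum.inl a) = b).card = n) →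
      (∀ b, (univ.filter fun u : Bool × Fin k => s (Sum.inr u) = b).card = k) →
      (3 / 2 : ℝ) ^ (2 * (n + k)) * (∑ g : Good s, ∑ h : Good s,
        if Disjoint g.1.1.support h.1.1.support ∧ Disjoint g.1.2.support h.1.2.support then
          (2 / 3 : ℝ) ^ g.1.1.support.card * q ^ h.1.2.support.card
        else 0) ≤ (4 ^ (n + k) * ((n + k)! : ℝ) ^ 2 * (n ! : ℝ) ^ 2) * G) :
    (3 / 2 : ℝ) ^ (2 * (n + k)) * (TT ((2 * (n + k)) ^ 2) L * TT ((2 * n) ^ 2) l) ≤
      ((mat (PC ℝ n k) (L + 2 * (n + k)) l L (l + 2 * n)).rank : ℝ) *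
        (G * ((2 * n + 1) * (2 * k + 1))) := by
  have : Nonempty (CZ n × CZ n) := ⟨((true, ⟨0, hn⟩), (true, ⟨0, hn⟩))⟩
  have : Nonempty (CY n k × CY n k) := ⟨(Sum.inl (true, ⟨0, hn⟩), Sum.inl (true, ⟨0, hn⟩))⟩
  have ha : ∀ c : Code n k, ∑ i, gr c.1.1 i = 2 * (n + k) := fun c => by
    rw [RankR_gr, RankR_cardY]
  have hb : ∀ c : Code n k, ∑ i, gr c.1.2 i = 2 * n := fun c => by
    rw [RankR_gr, RankR_cardZ]
  have hE' := hE (CY n k × CY n k) (CZ n × CZ n) (Code n k) (fun c => gr c.1.1)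
    (fun c => gr c.1.2) (2 * (n + k)) (2 * n) L l ha hb
  have hR' := hR (CY n k × CY n k) (CZ n × CZ n) (Code n k) (fun c => gr c.1.1)
    (fun c => gr c.1.2) (2 * (n + k)) (2 * n) L l _ ha hb rfl
  have hT' : (∑ i, ∑ j, mat (PC ℝ n k) (L + 2 * (n + k)) l L (l + 2 * n) i j ^ 2) ^ 2 ≤
      ((mat (PC ℝ n k) (L + 2 * (n + k)) l L (l + 2 * n)).rank : ℝ) *
        ∑ i, ∑ i', (∑ j, mat (PC ℝ n k) (L + 2 * (n + k)) l L (l + 2 * n) i j *
          mat (PC ℝ n k) (L + 2 * (n + k)) l L (l + 2 * n) i' j) ^ 2 := by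
    classical
    exact hT _ _ (mat (PC ℝ n k) (L + 2 * (n + k)) l L (l + 2 * n))
  rw [RankR_cardYY, RankR_cardZZ] at hE' hR'
  have hCn := hC n k hn hk
  have hCR : (4 : ℝ) ^ (n + k) * ((n + k)! : ℝ) ^ 2 * (n ! : ℝ) ^ 2 ≤
      (Fintype.card (Code n k) : ℝ) * ((2 * n + 1) * (2 * k + 1)) := by exact_mod_cast hCn
  have hCpos : (0 : ℝ) < Fintype.card (Code n k) := by
    have h1 : 0 < 4 ^ (n + k) * ((n + k)!) ^ 2 * (n !) ^ 2 := by positivity
    have h2 : 0 < Fintype.card (Code n k) * ((2 * n + 1) * (2 * k + 1)) := h1.trans_le hCn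
    exact_mod_cast Nat.pos_of_mul_pos_right h2
  have hN1 : 1 ≤ (2 * (n + k)) ^ 2 := Nat.one_le_pow _ _ (by omega)
  have hN2 : 1 ≤ (2 * n) ^ 2 := Nat.one_le_pow _ _ (by omega)
  have hT1 : (0 : ℝ) < TT ((2 * (n + k)) ^ 2) L := by exact_mod_cast RankR_TTpos _ _ hN1
  have hT2 : (0 : ℝ) < TT ((2 * n) ^ 2) l := by exact_mod_cast RankR_TTpos _ _ hN2
  have hp0 : (0 : ℝ) ≤ (L : ℝ) / (((2 * (n + k)) ^ 2 : ℕ) + L - 1) := by
    apply div_nonneg (Nat.cast_nonneg _)
    have : (1 : ℝ) ≤ ((2 * (n + k)) ^ 2 : ℕ) := by exact_mod_cast hN1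
    have h2 : (0 : ℝ) ≤ L := Nat.cast_nonneg _
    linarith
  have hq0 : (0 : ℝ) ≤ (l : ℝ) / (((2 * n) ^ 2 : ℕ) + l - 1) := by
    apply div_nonneg (Nat.cast_nonneg _)
    have : (1 : ℝ) ≤ ((2 * n) ^ 2 : ℕ) := by exact_mod_cast hN2
    have h2 : (0 : ℝ) ≤ l := Nat.cast_nonneg _
    linarith
  refine RankR_alg _ (Fintype.card (Code n k)) _ _ _ _ G
    ((4 : ℝ) ^ (n + k) * ((n + k)! : ℝ) ^ 2 * (n ! : ℝ) ^ 2) _ (by positivity) hCpos
    (mul_pos hT1 hT2) (Nat.cast_nonneg _) hG0 ?_ hT' ?_ hCR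
  · rw [← mul_assoc]
    exact hE'
  · -- the trace
    refine (mul_le_mul_of_nonneg_left hR' (by positivity)).trans ?_
    have hstep : ∀ c₁ : Code n k, (3 / 2 : ℝ) ^ (2 * (n + k)) *
        (∑ c₂ : Code n k, ∑ d₁ : Code n k, ∑ d₂ : Code n k,
        if gr c₁.1.1 + gr d₂.1.1 = gr c₂.1.1 + gr d₁.1.1 ∧
          gr c₁.1.2 + gr d₂.1.2 = gr c₂.1.2 + gr d₁.1.2 then
          (TT ((2 * (n + k)) ^ 2) L * ((L : ℝ) / (((2 * (n + k)) ^ 2 : ℕ) + L - 1)) ^
            (∑ i, (gr c₂.1.1 i - gr c₁.1.1 i))) *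
          (TT ((2 * n) ^ 2) l * ((l : ℝ) / (((2 * n) ^ 2 : ℕ) + l - 1)) ^
            (∑ j, (gr d₁.1.2 j - gr c₁.1.2 j))) else 0) ≤
        TT ((2 * (n + k)) ^ 2) L * TT ((2 * n) ^ 2) l *
          ((4 : ℝ) ^ (n + k) * ((n + k)! : ℝ) ^ 2 * (n ! : ℝ) ^ 2 * G) := by
      intro c₁
      have h1 : (∑ c₂ : Code n k, ∑ d₁ : Code n k, ∑ d₂ : Code n k,
        if gr c₁.1.1 + gr d₂.1.1 = gr c₂.1.1 + gr d₁.1.1 ∧
          gr c₁.1.2 + gr d₂.1.2 = gr c₂.1.2 + gr d₁.1.2 then
          (TT ((2 * (n + k)) ^ 2) L * ((L : ℝ) / (((2 * (n + k)) ^ 2 : ℕ) + L - 1)) ^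
            (∑ i, (gr c₂.1.1 i - gr c₁.1.1 i))) *
          (TT ((2 * n) ^ 2) l * ((l : ℝ) / (((2 * n) ^ 2 : ℕ) + l - 1)) ^
            (∑ j, (gr d₁.1.2 j - gr c₁.1.2 j))) else 0) ≤
          TT ((2 * (n + k)) ^ 2) L * TT ((2 * n) ^ 2) l *
          ∑ c₂ : Code n k, ∑ d₁ : Code n k, ∑ d₂ : Code n k,
          if gr c₁.1.1 + gr d₂.1.1 = gr c₂.1.1 + gr d₁.1.1 ∧
            gr c₁.1.2 + gr d₂.1.2 = gr c₂.1.2 + gr d₁.1.2 then
            (2 / 3 : ℝ) ^ (∑ i, (gr c₂.1.1 i - gr c₁.1.1 i)) *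
              q ^ (∑ j, (gr d₁.1.2 j - gr c₁.1.2 j)) else 0 := by
        simp only [Finset.mul_sum]
        refine Finset.sum_le_sum fun c₂ _ => Finset.sum_le_sum fun d₁ _ =>
          Finset.sum_le_sum fun d₂ _ => ?_
        split_ifs
        · have e1 := pow_le_pow_left₀ hp0 hp (∑ i, (gr c₂.1.1 i - gr c₁.1.1 i))
          have e2 := pow_le_pow_left₀ hq0 hq' (∑ j, (gr d₁.1.2 j - gr c₁.1.2 j))
          calc _ ≤ (TT ((2 * (n + k)) ^ 2) L * (2 / 3 : ℝ) ^
                (∑ i, (gr c₂.1.1 i - gr c₁.1.1 i))) *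
              (TT ((2 * n) ^ 2) l * q ^ (∑ j, (gr d₁.1.2 j - gr c₁.1.2 j))) := by
                refine mul_le_mul (mul_le_mul_of_nonneg_left e1 hT1.le)
                  (mul_le_mul_of_nonneg_left e2 hT2.le)
                  (mul_nonneg hT2.le (pow_nonneg hq0 _)) ?_
                exact mul_nonneg hT1.le (by positivity)
            _ = _ := by ring
        · simp
      have h2 := hS n k c₁ (2 / 3) q (by norm_num) hq.le
      have h3 := hSh n k c₁ (2 / 3) q (fun x => sd (c₁.1.1.symm x)) (fun x => rfl)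
      have h4 := hG (fun x => sd (c₁.1.1.symm x)) (fun b => (hP n k c₁ b).1)
        (fun b => (hP n k c₁ b).2)
      rw [h3] at h2
      calc _ ≤ (3 / 2 : ℝ) ^ (2 * (n + k)) * (TT ((2 * (n + k)) ^ 2) L * TT ((2 * n) ^ 2) l *
          ∑ c₂ : Code n k, ∑ d₁ : Code n k, ∑ d₂ : Code n k,
          if gr c₁.1.1 + gr d₂.1.1 = gr c₂.1.1 + gr d₁.1.1 ∧
            gr c₁.1.2 + gr d₂.1.2 = gr c₂.1.2 + gr d₁.1.2 then
            (2 / 3 : ℝ) ^ (∑ i, (gr c₂.1.1 i - gr c₁.1.1 i)) *
              q ^ (∑ j, (gr d₁.1.2 j - gr c₁.1.2 j)) else 0) :=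
            mul_le_mul_of_nonneg_left h1 (by positivity)
        _ ≤ (3 / 2 : ℝ) ^ (2 * (n + k)) * (TT ((2 * (n + k)) ^ 2) L * TT ((2 * n) ^ 2) l * _) :=
            mul_le_mul_of_nonneg_left (mul_le_mul_of_nonneg_left h2 (mul_pos hT1 hT2).le)
              (by positivity)
        _ = TT ((2 * (n + k)) ^ 2) L * TT ((2 * n) ^ 2) l *
            ((3 / 2 : ℝ) ^ (2 * (n + k)) * _) := by ring
        _ ≤ _ := mul_le_mul_of_nonneg_left h4 (mul_pos hT1 hT2).le
    rw [Finset.mul_sum]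
    refine (Finset.sum_le_sum fun c₁ _ => hstep c₁).trans (le_of_eq ?_)
    rw [Finset.sum_const, Finset.card_univ, nsmul_eq_mul]
    ring

theorem pr_RankR (hT : S_Trace) (hE : S_RectE) (hR : S_Rect) (hS : S_Struct) (hSh : S_Shift)
    (hP : S_Pattern) (hG : S_GSum) (hC : S_CodeCard) (hGr : S_Grow3) : S_RankR := by
  intro w k L l hw hk hL hl
  have hn : 1 ≤ w * k := Nat.mul_pos (by omega) hk
  have hw0 : (w : ℝ) ≠ 0 := by
    have : 0 < w := by omega
    positivity
  set q : ℝ := Real.exp (-(Real.log (3 / 2) * (w + 1) / w)) with hqdef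
  have hq : 0 < q := Real.exp_pos _
  have hq32 : q * (3 / 2) = Real.exp (-(Real.log (3 / 2) / w)) := by
    have e1 : -(Real.log (3 / 2) * ((w : ℝ) + 1) / w) =
        -(Real.log (3 / 2) / w) - Real.log (3 / 2) := by
      field_simp
      ring
    rw [hqdef, e1, Real.exp_sub, Real.exp_log (by norm_num : (0 : ℝ) < 3 / 2)]
    ring
  set Φ : ℝ := Real.exp (7 / 4 * Real.log (3 / 2) * k) with hΦ
  have hΦ0 : 0 < Φ := Real.exp_pos _
  have hN1 : 1 ≤ (2 * (w * k + k)) ^ 2 := Nat.one_le_pow _ _ (by omega)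
  have hN2 : 1 ≤ (2 * (w * k)) ^ 2 := Nat.one_le_pow _ _ (by omega)
  have hp : (L : ℝ) / (((2 * (w * k + k)) ^ 2 : ℕ) + L - 1) ≤ 2 / 3 := by
    have h1 : (1 : ℝ) ≤ ((2 * (w * k + k)) ^ 2 : ℕ) := by exact_mod_cast hN1
    have h2 : (0 : ℝ) ≤ L := Nat.cast_nonneg _
    have h3 : L + 2 ≤ 2 * (2 * (w * k + k)) ^ 2 := by omega
    have h4 : (L : ℝ) + 2 ≤ 2 * ((2 * (w * k + k)) ^ 2 : ℕ) := by exact_mod_cast h3
    by_cases h5 : (0 : ℝ) < (((2 * (w * k + k)) ^ 2 : ℕ) : ℝ) + L - 1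
    · rw [div_le_iff₀ h5]
      linarith
    · have h6 : (((2 * (w * k + k)) ^ 2 : ℕ) : ℝ) + L - 1 = 0 := by linarith
      rw [h6]
      norm_num
  have hq' : (l : ℝ) / (((2 * (w * k)) ^ 2 : ℕ) + l - 1) ≤ q := by
    have e : (((2 * (w * k)) ^ 2 : ℕ) : ℝ) = ((2 * (w * k) : ℕ) : ℝ) ^ 2 := by push_cast; ring
    rw [e]
    exact hl
  have hmain := RankR_main hT hE hR hS hSh hP hC (w * k) k L l hn hk q
    (128 * Φ * ((((w * k + k : ℕ) : ℝ) + 1)) ^ 2 * ((((w * k : ℕ) : ℝ) + 1)) ^ 2) hq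
    (by positivity) hp hq' (by
      intro s hs1 hs2
      refine (hG w k s q hw hk hq hq32 hs1 hs2).trans (le_of_eq ?_)
      have e4 : (2 : ℝ) ^ (2 * (w * k + k)) = 4 ^ (w * k + k) := by
        rw [pow_mul]
        norm_num
      rw [e4]
      ring)
  have hgrow := hGr (2 * (w * k + k)) L (by omega) hL
  have hrk : (0 : ℝ) ≤
      ((mat (PC ℝ (w * k) k) (L + 2 * (w * k + k)) l L (l + 2 * (w * k))).rank : ℝ) :=
    Nat.cast_nonneg _
  have hT2 : (0 : ℝ) ≤ TT ((2 * (w * k)) ^ 2) l := Nat.cast_nonneg _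
  calc (TT ((2 * (w * k + k)) ^ 2) (L + 2 * (w * k + k)) : ℝ) * TT ((2 * (w * k)) ^ 2) l
      ≤ (3 * (3 / 2) ^ (2 * (w * k + k)) * TT ((2 * (w * k + k)) ^ 2) L) *
        TT ((2 * (w * k)) ^ 2) l := mul_le_mul_of_nonneg_right hgrow hT2
    _ = 3 * ((3 / 2 : ℝ) ^ (2 * (w * k + k)) *
        (TT ((2 * (w * k + k)) ^ 2) L * TT ((2 * (w * k)) ^ 2) l)) := by ring
    _ ≤ 3 * (((mat (PC ℝ (w * k) k) (L + 2 * (w * k + k)) l L (l + 2 * (w * k))).rank : ℝ) *
        (128 * Φ * ((((w * k + k : ℕ) : ℝ) + 1)) ^ 2 * ((((w * k : ℕ) : ℝ) + 1)) ^ 2 *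
          ((2 * ((w * k : ℕ) : ℝ) + 1) * (2 * k + 1)))) :=
        mul_le_mul_of_nonneg_left hmain (by norm_num)
    _ = ((mat (PC ℝ (w * k) k) (L + 2 * (w * k + k)) l L (l + 2 * (w * k))).rank : ℝ) *
        ((384 * ((((w * k + k : ℕ) : ℝ) + 1) ^ 2 * (((w * k : ℕ) : ℝ) + 1) ^ 2 *
          (2 * ((w * k : ℕ) : ℝ) + 1) * (2 * k + 1))) * Φ) := by ring
    _ ≤ _ := by
        refine mul_le_mul_of_nonneg_left ?_ hrk
        refine mul_le_mul_of_nonneg_right ?_ hΦ0.le
        have hM : ∀ a b c d M : ℝ, 0 ≤ a → 0 ≤ b → 0 ≤ c → 0 ≤ d → a ≤ M → b ≤ M → c ≤ M →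
            d ≤ M → 384 * (a ^ 2 * b ^ 2 * c * d) ≤ 1000 * M ^ 6 := by
          intro a b c d M ha hb hc hd haM hbM hcM hdM
          have hM0 : 0 ≤ M := ha.trans haM
          have h1 : a ^ 2 * b ^ 2 * c * d ≤ M ^ 2 * M ^ 2 * M * M := by gcongr
          nlinarith [pow_nonneg hM0 6]
        have c1 : (0 : ℝ) ≤ (w * k : ℕ) := Nat.cast_nonneg _
        have c2 : (0 : ℝ) ≤ (k : ℝ) := Nat.cast_nonneg _
        have c3 : ((w * k + k : ℕ) : ℝ) = (w * k : ℕ) + k := by push_cast; ring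
        have c4 : ((2 * (w * k + k) + 1 : ℕ) : ℝ) = 2 * ((w * k : ℕ) + k) + 1 := by
          push_cast; ring
        rw [c3, c4]
        exact hM _ _ _ _ _ (by linarith) (by linarith) (by linarith) (by linarith)
          (by linarith) (by linarith) (by linarith) (by linarith)

end Pool.Agent.Work.MP_499dc6_lc.D3

end

section

/-!
# Counting rectangles
-/

namespace Pool.Agent.Work.MP_499dc6_lc.D3

open MvPolynomial Equiv Finset
open Pool.Agent.Work.MP_499dc6_lc.CD

open Classical in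
/-- Entries of the matrix of a sum of monomials. -/
theorem Rect_entry (Y Z : Type) [Fintype Y] [Fintype Z] [DecidableEq Y] [DecidableEq Z]
    (ι : Type) [Fintype ι] (μ : ι → (Y →₀ ℕ)) (ν : ι → (Z →₀ ℕ)) (p q p' q' : ℕ)
    (t : Mon Y p' × Mon Z q') (s : Mon Y p × Mon Z q) :
    mat (∑ c : ι, monomial (Finsupp.sumElim (μ c) (ν c)) (1 : ℝ)) p q p' q' t s =
      ∑ c : ι, if t.1.1 + μ c = s.1.1 ∧ s.2.1 + ν c = t.2.1 then (1 : ℝ) else 0 := by
  rw [mat]
  by_cases hle : t.1.1 ≤ s.1.1 ∧ s.2.1 ≤ t.2.1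
  · rw [if_pos hle, coeff_sum]
    refine Finset.sum_congr rfl fun c _ => ?_
    rw [coeff_monomial]
    have hiff : Finsupp.sumElim (μ c) (ν c) =
        Finsupp.sumElim (s.1.1 - t.1.1) (t.2.1 - s.2.1) ↔
        (t.1.1 + μ c = s.1.1 ∧ s.2.1 + ν c = t.2.1) := by
      constructor
      · intro h
        constructor
        · have : μ c = s.1.1 - t.1.1 := by
            ext i
            have := DFunLike.congr_fun h (Sum.inl i)
            simpa using this
          rw [this, add_tsub_cancel_of_le hle.1]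
        · have : ν c = t.2.1 - s.2.1 := by
            ext i
            have := DFunLike.congr_fun h (Sum.inr i)
            simpa using this
          rw [this, add_tsub_cancel_of_le hle.2]
      · rintro ⟨h1, h2⟩
        rw [← h1, ← h2, add_tsub_cancel_left, add_tsub_cancel_left]
    by_cases h : Finsupp.sumElim (μ c) (ν c) =
        Finsupp.sumElim (s.1.1 - t.1.1) (t.2.1 - s.2.1)
    · rw [if_pos h, if_pos (hiff.1 h)]
    · rw [if_neg h, if_neg (fun h' => h (hiff.2 h'))]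
  · rw [if_neg hle]
    symm
    refine Finset.sum_eq_zero fun c _ => ?_
    rw [if_neg]
    rintro ⟨h1, h2⟩
    apply hle
    rw [← h1, ← h2]
    exact ⟨le_self_add, le_self_add⟩

theorem Rect_swap {T S ι : Type} [Fintype T] [Fintype S] [Fintype ι]
    (F : T → T → S → S → ι → ι → ι → ι → ℝ) :
    ∑ t, ∑ t', ∑ s, ∑ s', ∑ c₁, ∑ c₂, ∑ d₁, ∑ d₂, F t t' s s' c₁ c₂ d₁ d₂ =
      ∑ c₁, ∑ c₂, ∑ d₁, ∑ d₂, ∑ x : T × T × S × S,
        F x.1 x.2.1 x.2.2.1 x.2.2.2 c₁ c₂ d₁ d₂ := by
  have h1 : ∑ t, ∑ t', ∑ s, ∑ s', ∑ c₁, ∑ c₂, ∑ d₁, ∑ d₂, F t t' s s' c₁ c₂ d₁ d₂ =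
      ∑ x : T × T × S × S, ∑ y : ι × ι × ι × ι,
        F x.1 x.2.1 x.2.2.1 x.2.2.2 y.1 y.2.1 y.2.2.1 y.2.2.2 := by
    simp only [Fintype.sum_prod_type]
  have h2 : ∑ c₁, ∑ c₂, ∑ d₁, ∑ d₂, ∑ x : T × T × S × S,
      F x.1 x.2.1 x.2.2.1 x.2.2.2 c₁ c₂ d₁ d₂ =
      ∑ y : ι × ι × ι × ι, ∑ x : T × T × S × S,
        F x.1 x.2.1 x.2.2.1 x.2.2.2 y.1 y.2.1 y.2.2.1 y.2.2.2 := by
    rw [Fintype.sum_prod_type]
    refine Finset.sum_congr rfl fun c₁ _ => ?_
    rw [Fintype.sum_prod_type]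
    refine Finset.sum_congr rfl fun c₂ _ => ?_
    rw [Fintype.sum_prod_type]
  rw [h1, h2, Finset.sum_comm]

theorem Rect_expand {T S ι : Type} [Fintype T] [Fintype S] [Fintype ι]
    (e : ι → T → S → ℝ) :
    ∑ t, ∑ t', (∑ s, (∑ c, e c t s) * (∑ c, e c t' s)) ^ 2 =
      ∑ c₁, ∑ c₂, ∑ d₁, ∑ d₂, ∑ x : T × T × S × S,
        (e c₁ x.1 x.2.2.1 * e c₂ x.2.1 x.2.2.1) * (e d₁ x.1 x.2.2.2 * e d₂ x.2.1 x.2.2.2) := by
  rw [← Rect_swap (fun t t' s s' c₁ c₂ d₁ d₂ =>
    (e c₁ t s * e c₂ t' s) * (e d₁ t s' * e d₂ t' s'))]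
  refine Finset.sum_congr rfl fun t _ => Finset.sum_congr rfl fun t' _ => ?_
  rw [sq, Finset.sum_mul_sum]
  refine Finset.sum_congr rfl fun s _ => Finset.sum_congr rfl fun s' _ => ?_
  rw [Finset.sum_mul_sum, Finset.sum_mul_sum, Finset.sum_mul]
  refine Finset.sum_congr rfl fun c₁ _ => ?_
  rw [Finset.sum_mul]
  refine Finset.sum_congr rfl fun c₂ _ => ?_
  rw [Finset.mul_sum]
  refine Finset.sum_congr rfl fun d₁ _ => ?_
  rw [Finset.mul_sum]

theorem Rect_count (hG : S_Grow1) (Y Z : Type) [Fintype Y] [Fintype Z] [DecidableEq Y]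
    [DecidableEq Z] [Nonempty Y] [Nonempty Z] (a b L l : ℕ)
    (μ₁ μ₂ κ₁ κ₂ : Y →₀ ℕ) (ν₁ ν₂ τ₁ τ₂ : Z →₀ ℕ)
    (Q : Finset ((Mon Y L × Mon Z (l + b)) × (Mon Y L × Mon Z (l + b)) ×
      (Mon Y (L + a) × Mon Z l) × (Mon Y (L + a) × Mon Z l)))
    (hQ : ∀ x ∈ Q, (x.1.1.1 + μ₁ = x.2.2.1.1.1 ∧ x.2.2.1.2.1 + ν₁ = x.1.2.1) ∧
      (x.2.1.1.1 + μ₂ = x.2.2.1.1.1 ∧ x.2.2.1.2.1 + ν₂ = x.2.1.2.1) ∧
      (x.1.1.1 + κ₁ = x.2.2.2.1.1 ∧ x.2.2.2.2.1 + τ₁ = x.1.2.1) ∧
      (x.2.1.1.1 + κ₂ = x.2.2.2.1.1 ∧ x.2.2.2.2.1 + τ₂ = x.2.1.2.1)) :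
    (Q.card : ℝ) ≤ (TT (Fintype.card Y) L * ((L : ℝ) / (Fintype.card Y + L - 1)) ^
        (∑ i, (μ₂ i - μ₁ i))) *
      (TT (Fintype.card Z) l * ((l : ℝ) / (Fintype.card Z + l - 1)) ^
        (∑ j, (τ₁ j - ν₁ j))) := by
  classical
  have h1 : Q.card ≤ ((Finset.univ.filter (fun x : Mon Y L => μ₂ - μ₁ ≤ x.1)) ×ˢ
      (Finset.univ.filter (fun x : Mon Z l => τ₁ - ν₁ ≤ x.1))).card := by
    refine Finset.card_le_card_of_injOn (fun x => (x.1.1, x.2.2.1.2)) ?_ ?_
    · intro x hx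
      obtain ⟨⟨h1, h2⟩, ⟨h3, h4⟩, ⟨h5, h6⟩, ⟨h7, h8⟩⟩ := hQ x (Finset.mem_coe.1 hx)
      refine Finset.mem_coe.2 (Finset.mem_product.2 ⟨?_, ?_⟩)
      · refine Finset.mem_filter.2 ⟨Finset.mem_univ _, fun i => ?_⟩
        have h9 := DFunLike.congr_fun (h1.trans h3.symm) i
        rw [Finsupp.add_apply, Finsupp.add_apply] at h9
        rw [Finsupp.tsub_apply]
        show μ₂ i - μ₁ i ≤ x.1.1.1 i
        omega
      · refine Finset.mem_filter.2 ⟨Finset.mem_univ _, fun j => ?_⟩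
        have h9 := DFunLike.congr_fun (h2.trans h6.symm) j
        rw [Finsupp.add_apply, Finsupp.add_apply] at h9
        rw [Finsupp.tsub_apply]
        show τ₁ j - ν₁ j ≤ x.2.2.1.2.1 j
        omega
    · intro x hx y hy hxy
      obtain ⟨⟨h1, h2⟩, ⟨h3, h4⟩, ⟨h5, h6⟩, ⟨h7, h8⟩⟩ := hQ x (Finset.mem_coe.1 hx)
      obtain ⟨⟨g1, g2⟩, ⟨g3, g4⟩, ⟨g5, g6⟩, ⟨g7, g8⟩⟩ := hQ y (Finset.mem_coe.1 hy)
      have hY : x.1.1 = y.1.1 := (Prod.ext_iff.1 hxy).1
      have hZ : x.2.2.1.2 = y.2.2.1.2 := (Prod.ext_iff.1 hxy).2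
      have e1 : x.2.2.1.1 = y.2.2.1.1 := by
        apply Subtype.ext
        rw [← h1, ← g1, hY]
      have e2 : x.2.2.2.1 = y.2.2.2.1 := by
        apply Subtype.ext
        rw [← h5, ← g5, hY]
      have e3 : x.2.1.1 = y.2.1.1 := by
        apply Subtype.ext
        rw [e1, ← g3] at h3
        exact add_right_cancel h3
      have e4 : x.1.2 = y.1.2 := by
        apply Subtype.ext
        rw [← h2, ← g2, hZ]
      have e5 : x.2.1.2 = y.2.1.2 := by
        apply Subtype.ext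
        rw [← h4, ← g4, hZ]
      have e6 : x.2.2.2.2 = y.2.2.2.2 := by
        apply Subtype.ext
        rw [e4, ← g6] at h6
        exact add_right_cancel h6
      exact Prod.ext (Prod.ext hY e4) (Prod.ext (Prod.ext e3 e5)
        (Prod.ext (Prod.ext e1 hZ) (Prod.ext e2 e6)))
  have h2 := Conf_card_ge hG Y L (μ₂ - μ₁)
  have h3 := Conf_card_ge hG Z l (τ₁ - ν₁)
  rw [Finset.card_product] at h1
  have h4 : (Q.card : ℝ) ≤ ((Finset.univ.filter (fun x : Mon Y L => μ₂ - μ₁ ≤ x.1)).card : ℝ) *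
      ((Finset.univ.filter (fun x : Mon Z l => τ₁ - ν₁ ≤ x.1)).card : ℝ) := by
    exact_mod_cast h1
  refine h4.trans ?_
  exact mul_le_mul h2 h3 (Nat.cast_nonneg _) ((Nat.cast_nonneg _).trans h2)

theorem pr_Rect (hG : S_Grow1) : S_Rect := by
  intro Y Z _ _ _ _ _ _ ι _ μ ν a b L l H _ _ hH
  classical
  let e : ι → (Mon Y L × Mon Z (l + b)) → (Mon Y (L + a) × Mon Z l) → ℝ := fun c t s =>
    if t.1.1 + μ c = s.1.1 ∧ s.2.1 + ν c = t.2.1 then (1 : ℝ) else 0
  have hent : ∀ t s, H t s = ∑ c, e c t s := by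
    intro t s
    rw [hH, Rect_entry]
  have h1 : ∑ t, ∑ t', (∑ s, H t s * H t' s) ^ 2 =
      ∑ t, ∑ t', (∑ s, (∑ c, e c t s) * (∑ c, e c t' s)) ^ 2 := by
    refine Finset.sum_congr rfl fun t _ => Finset.sum_congr rfl fun t' _ => ?_
    congr 1
    refine Finset.sum_congr rfl fun s _ => ?_
    rw [hent, hent]
  rw [h1, Rect_expand]
  refine Finset.sum_le_sum fun c₁ _ => Finset.sum_le_sum fun c₂ _ =>
    Finset.sum_le_sum fun d₁ _ => Finset.sum_le_sum fun d₂ _ => ?_
  let Q : Finset ((Mon Y L × Mon Z (l + b)) × (Mon Y L × Mon Z (l + b)) ×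
      (Mon Y (L + a) × Mon Z l) × (Mon Y (L + a) × Mon Z l)) :=
    Finset.univ.filter fun x =>
      (x.1.1.1 + μ c₁ = x.2.2.1.1.1 ∧ x.2.2.1.2.1 + ν c₁ = x.1.2.1) ∧
      (x.2.1.1.1 + μ c₂ = x.2.2.1.1.1 ∧ x.2.2.1.2.1 + ν c₂ = x.2.1.2.1) ∧
      (x.1.1.1 + μ d₁ = x.2.2.2.1.1 ∧ x.2.2.2.2.1 + ν d₁ = x.1.2.1) ∧
      (x.2.1.1.1 + μ d₂ = x.2.2.2.1.1 ∧ x.2.2.2.2.1 + ν d₂ = x.2.1.2.1)
  have hQ : ∀ x ∈ Q, (x.1.1.1 + μ c₁ = x.2.2.1.1.1 ∧ x.2.2.1.2.1 + ν c₁ = x.1.2.1) ∧
      (x.2.1.1.1 + μ c₂ = x.2.2.1.1.1 ∧ x.2.2.1.2.1 + ν c₂ = x.2.1.2.1) ∧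
      (x.1.1.1 + μ d₁ = x.2.2.2.1.1 ∧ x.2.2.2.2.1 + ν d₁ = x.1.2.1) ∧
      (x.2.1.1.1 + μ d₂ = x.2.2.2.1.1 ∧ x.2.2.2.2.1 + ν d₂ = x.2.1.2.1) :=
    fun x hx => (Finset.mem_filter.1 hx).2
  have h2 : ∑ x : (Mon Y L × Mon Z (l + b)) × (Mon Y L × Mon Z (l + b)) ×
      (Mon Y (L + a) × Mon Z l) × (Mon Y (L + a) × Mon Z l),
      (e c₁ x.1 x.2.2.1 * e c₂ x.2.1 x.2.2.1) * (e d₁ x.1 x.2.2.2 * e d₂ x.2.1 x.2.2.2) =
      (Q.card : ℝ) := by
    rw [Finset.card_filter, Nat.cast_sum]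
    refine Finset.sum_congr rfl fun x _ => ?_
    simp only [e]
    rw [Nat.cast_ite, Nat.cast_one, Nat.cast_zero]
    by_cases g1 : x.1.1.1 + μ c₁ = x.2.2.1.1.1 ∧ x.2.2.1.2.1 + ν c₁ = x.1.2.1
    · by_cases g2 : x.2.1.1.1 + μ c₂ = x.2.2.1.1.1 ∧ x.2.2.1.2.1 + ν c₂ = x.2.1.2.1
      · by_cases g3 : x.1.1.1 + μ d₁ = x.2.2.2.1.1 ∧ x.2.2.2.2.1 + ν d₁ = x.1.2.1
        · by_cases g4 : x.2.1.1.1 + μ d₂ = x.2.2.2.1.1 ∧ x.2.2.2.2.1 + ν d₂ = x.2.1.2.1
          · rw [if_pos g1, if_pos g2, if_pos g3, if_pos g4, if_pos ⟨g1, g2, g3, g4⟩]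
            norm_num
          · rw [if_neg g4, mul_zero, mul_zero, if_neg fun h => g4 h.2.2.2]
        · rw [if_neg g3, zero_mul, mul_zero, if_neg fun h => g3 h.2.2.1]
      · rw [if_neg g2, mul_zero, zero_mul, if_neg fun h => g2 h.2.1]
    · rw [if_neg g1, zero_mul, zero_mul, if_neg fun h => g1 h.1]
  rw [h2]
  by_cases hne : Q.Nonempty
  · obtain ⟨x, hx⟩ := hne
    obtain ⟨⟨h1, h2⟩, ⟨h3, h4⟩, ⟨h5, h6⟩, ⟨h7, h8⟩⟩ := hQ x hx
    have c1 : μ c₁ + μ d₂ = μ c₂ + μ d₁ := by
      ext i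
      have g1 := DFunLike.congr_fun (h1.trans h3.symm) i
      have g2 := DFunLike.congr_fun (h5.trans h7.symm) i
      rw [Finsupp.add_apply, Finsupp.add_apply] at g1 g2 ⊢
      omega
    have c2 : ν c₁ + ν d₂ = ν c₂ + ν d₁ := by
      ext j
      have g1 := DFunLike.congr_fun (h2.trans h6.symm) j
      have g2 := DFunLike.congr_fun (h4.trans h8.symm) j
      rw [Finsupp.add_apply, Finsupp.add_apply] at g1 g2 ⊢
      omega
    rw [if_pos ⟨c1, c2⟩]
    exact Rect_count hG Y Z a b L l _ _ _ _ _ _ _ _ Q hQ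
  · rw [Finset.not_nonempty_iff_eq_empty.1 hne, Finset.card_empty, Nat.cast_zero]
    split_ifs
    · have g := Rect_count hG Y Z a b L l (μ c₁) (μ c₂) 0 0 (ν c₁) 0 (ν d₁) 0 ∅
        (fun x hx => absurd hx (Finset.notMem_empty _))
      rw [Finset.card_empty, Nat.cast_zero] at g
      exact g
    · exact le_rfl

end Pool.Agent.Work.MP_499dc6_lc.D3

end

section

/-!
# The number of ones of the matrix of a sum of monomials
-/

namespace Pool.Agent.Work.MP_499dc6_lc.D3

open MvPolynomial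
open Pool.Agent.Work.MP_499dc6_lc.CD

/-- Entries of the matrix of a sum of monomials. -/
theorem RectE_entry (Y Z : Type) [Fintype Y] [Fintype Z] [DecidableEq Y] [DecidableEq Z]
    (ι : Type) [Fintype ι] (μ : ι → (Y →₀ ℕ)) (ν : ι → (Z →₀ ℕ)) (p q p' q' : ℕ)
    (t : Mon Y p' × Mon Z q') (s : Mon Y p × Mon Z q)
    [∀ c, Decidable (t.1.1 + μ c = s.1.1 ∧ s.2.1 + ν c = t.2.1)] :
    mat (∑ c : ι, monomial (Finsupp.sumElim (μ c) (ν c)) (1 : ℝ)) p q p' q' t s =
      ((Finset.univ.filter fun c : ι => t.1.1 + μ c = s.1.1 ∧ s.2.1 + ν c = t.2.1).card : ℝ) := by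
  classical
  have hkey : ∀ c : ι, (Finsupp.sumElim (μ c) (ν c) =
      Finsupp.sumElim (s.1.1 - t.1.1) (t.2.1 - s.2.1) ∧ t.1.1 ≤ s.1.1 ∧ s.2.1 ≤ t.2.1) ↔
      (t.1.1 + μ c = s.1.1 ∧ s.2.1 + ν c = t.2.1) := by
    intro c
    constructor
    · rintro ⟨h, h1, h2⟩
      constructor
      · have : μ c = s.1.1 - t.1.1 := by
          ext i
          have := DFunLike.congr_fun h (Sum.inl i)
          simpa using this
        rw [this, add_tsub_cancel_of_le h1]
      · have : ν c = t.2.1 - s.2.1 := by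
          ext i
          have := DFunLike.congr_fun h (Sum.inr i)
          simpa using this
        rw [this, add_tsub_cancel_of_le h2]
    · rintro ⟨h1, h2⟩
      rw [← h1, ← h2]
      refine ⟨?_, le_self_add, le_self_add⟩
      rw [add_tsub_cancel_left, add_tsub_cancel_left]
  rw [Finset.card_filter]
  push_cast
  rw [mat]
  by_cases hle : t.1.1 ≤ s.1.1 ∧ s.2.1 ≤ t.2.1
  · rw [if_pos hle, coeff_sum]
    refine Finset.sum_congr rfl fun c _ => ?_
    rw [coeff_monomial]
    by_cases h : Finsupp.sumElim (μ c) (ν c) =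
      Finsupp.sumElim (s.1.1 - t.1.1) (t.2.1 - s.2.1)
    · rw [if_pos h, if_pos ((hkey c).1 ⟨h, hle⟩)]
    · rw [if_neg h, if_neg fun h' => h ((hkey c).2 h').1]
  · rw [if_neg hle]
    symm
    apply Finset.sum_eq_zero
    intro c _
    rw [if_neg fun h' => hle ((hkey c).2 h').2]

theorem pr_RectE : S_RectE := by
  intro Y Z _ _ _ _ ι _ μ ν a b L l hμa hνb
  classical
  have h1 : ∀ (t : Mon Y L × Mon Z (l + b)) (s : Mon Y (L + a) × Mon Z l),
      ((Finset.univ.filter fun c : ι =>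
        t.1.1 + μ c = s.1.1 ∧ s.2.1 + ν c = t.2.1).card : ℝ) ≤
      mat (∑ c : ι, monomial (Finsupp.sumElim (μ c) (ν c)) (1 : ℝ))
        (L + a) l L (l + b) t s ^ 2 := by
    intro t s
    rw [RectE_entry]
    generalize (Finset.univ.filter fun c : ι =>
        t.1.1 + μ c = s.1.1 ∧ s.2.1 + ν c = t.2.1).card = x
    exact_mod_cast Nat.le_self_pow (by norm_num) x
  refine le_trans ?_ (Finset.sum_le_sum fun t _ => Finset.sum_le_sum fun s _ => h1 t s)
  have h2 : (∑ t : Mon Y L × Mon Z (l + b), ∑ s : Mon Y (L + a) × Mon Z l,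
      ((Finset.univ.filter fun c : ι =>
        t.1.1 + μ c = s.1.1 ∧ s.2.1 + ν c = t.2.1).card : ℝ)) =
      (((Finset.univ.filter fun p : (Mon Y L × Mon Z (l + b)) × (Mon Y (L + a) × Mon Z l) × ι =>
        p.1.1.1 + μ p.2.2 = p.2.1.1.1 ∧ p.2.1.2.1 + ν p.2.2 = p.1.2.1).card : ℕ) : ℝ) := by
    rw [Finset.card_filter]
    have h3 : ∀ F : (Mon Y L × Mon Z (l + b)) × (Mon Y (L + a) × Mon Z l) × ι → ℕ,
        ∑ p, F p = ∑ t, ∑ s, ∑ c, F (t, s, c) := by
      intro F
      rw [Fintype.sum_prod_type]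
      refine Finset.sum_congr rfl fun t _ => ?_
      rw [Fintype.sum_prod_type]
    rw [h3, Nat.cast_sum]
    refine Finset.sum_congr rfl fun t _ => ?_
    rw [Nat.cast_sum]
    refine Finset.sum_congr rfl fun s _ => ?_
    rw [Finset.card_filter]
  rw [h2]
  have hE : (Fintype.card ι * TT (Fintype.card Y) L * TT (Fintype.card Z) l : ℝ) =
      ((Fintype.card (ι × Mon Y L × Mon Z l) : ℕ) : ℝ) := by
    rw [Fintype.card_prod, Fintype.card_prod, Conf_card_Mon, Conf_card_Mon]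
    push_cast
    ring
  rw [hE, Nat.cast_le, ← Finset.card_univ]
  refine Finset.card_le_card_of_injOn (fun e : ι × Mon Y L × Mon Z l =>
    (((e.2.1, (⟨e.2.2.1 + ν e.1, by
        rw [Conf_mem]
        have h1 := (Conf_mem Z l e.2.2.1).1 e.2.2.2
        have h2 := hνb e.1
        simp only [Finsupp.add_apply]
        rw [Finset.sum_add_distrib, h1, h2]⟩ : Mon Z (l + b))),
      ((⟨e.2.1.1 + μ e.1, by
        rw [Conf_mem]
        have h1 := (Conf_mem Y L e.2.1.1).1 e.2.1.2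
        have h2 := hμa e.1
        simp only [Finsupp.add_apply]
        rw [Finset.sum_add_distrib, h1, h2]⟩ : Mon Y (L + a)), e.2.2), e.1) :
      (Mon Y L × Mon Z (l + b)) × (Mon Y (L + a) × Mon Z l) × ι)) ?_ ?_
  · intro e _
    exact Finset.mem_coe.2 (Finset.mem_filter.2 ⟨Finset.mem_univ _, rfl, rfl⟩)
  · intro e _ e' _ h
    have h3 : e.1 = e'.1 := congrArg (fun x => x.2.2) h
    have h4 : e.2.1 = e'.2.1 := congrArg (fun x => x.1.1) h
    have h5 : e.2.2 = e'.2.2 := congrArg (fun x => x.2.1.2) h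
    exact Prod.ext h3 (Prod.ext h4 h5)

end Pool.Agent.Work.MP_499dc6_lc.D3

end

section

/-!
# Shift: from codewords to pairs of permutations of the columns
-/

namespace Pool.Agent.Work.MP_499dc6_lc.D3

open MvPolynomial Equiv Finset
open Pool.Agent.Work.MP_499dc6_lc.CD

theorem Shift_card {γ : Type} [Fintype γ] [DecidableEq γ] (c d : Perm γ) :
    (Perm.support (c.symm.trans d)).card = (univ.filter fun i => d i ≠ c i).card := by
  refine (Finset.card_bij (fun i _ => c i) ?_ ?_ ?_).symm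
  · intro i hi
    rw [Finset.mem_filter] at hi
    rw [Perm.mem_support]
    simpa using hi.2
  · intro i _ j _ h
    exact c.injective h
  · intro x hx
    rw [Perm.mem_support] at hx
    refine ⟨c.symm x, ?_, by simp⟩
    rw [Finset.mem_filter]
    refine ⟨mem_univ _, ?_⟩
    simpa using hx

theorem Shift_disj {γ : Type} [Fintype γ] [DecidableEq γ] (c d e : Perm γ) :
    _root_.Disjoint (Perm.support (c.symm.trans d)) (Perm.support (c.symm.trans e)) ↔
      ∀ i, d i = c i ∨ e i = c i := by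
  rw [Finset.disjoint_left]
  constructor
  · intro h i
    by_contra hi
    push Not at hi
    have h1 : c i ∈ (Perm.support (c.symm.trans d)) := by
      rw [Perm.mem_support]; simpa using hi.1
    have h2 : c i ∈ (Perm.support (c.symm.trans e)) := by
      rw [Perm.mem_support]; simpa using hi.2
    exact h h1 h2
  · intro h x hx hx2
    rw [Perm.mem_support] at hx hx2
    have hx' : d (c.symm x) ≠ x := by simpa using hx
    have hx2' : e (c.symm x) ≠ x := by simpa using hx2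
    rcases h (c.symm x) with h | h
    · exact hx' (by rw [h]; simp)
    · exact hx2' (by rw [h]; simp)

/-- the bijection -/
def Shift_E {n k : ℕ} (c₁ : Code n k) (s : CY n k → Bool)
    (hs : ∀ x, s x = sd (c₁.1.1.symm x)) : Code n k ≃ Good s where
  toFun c := ⟨(c₁.1.1.symm.trans c.1.1, c₁.1.2.symm.trans c.1.2), by
    intro a
    have h1 := c₁.2 (c₁.1.2 (c.1.2.symm a))
    rw [hs, hs]
    simp only [Equiv.symm_trans_apply, Equiv.symm_symm, Equiv.symm_apply_apply]
    rw [h1, c.2 a, Equiv.symm_apply_apply]⟩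
  invFun g := ⟨(c₁.1.1.trans g.1.1, c₁.1.2.trans g.1.2), by
    intro a
    have h1 := c₁.2 (g.1.2.symm a)
    have h2 := g.2 a
    rw [hs, hs, h1] at h2
    simpa only [Equiv.symm_trans_apply] using h2⟩
  left_inv c := by
    apply Subtype.ext
    refine Prod.ext ?_ ?_
    · ext x; simp
    · ext x <;> simp
  right_inv g := by
    apply Subtype.ext
    refine Prod.ext ?_ ?_
    · ext x; simp
    · ext x <;> simp

theorem pr_Shift : S_Shift := by
  intro n k c₁ p q s hs
  refine Fintype.sum_equiv (Shift_E c₁ s hs) _ _ (fun c₂ => ?_)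
  refine Fintype.sum_equiv (Shift_E c₁ s hs) _ _ (fun d₁ => ?_)
  have e1 : (∀ i, c₂.1.1 i = c₁.1.1 i ∨ d₁.1.1 i = c₁.1.1 i) ↔
      _root_.Disjoint ((Shift_E c₁ s hs) c₂).1.1.support ((Shift_E c₁ s hs) d₁).1.1.support :=
    (Shift_disj _ _ _).symm
  have e2 : (∀ i, c₂.1.2 i = c₁.1.2 i ∨ d₁.1.2 i = c₁.1.2 i) ↔
      _root_.Disjoint ((Shift_E c₁ s hs) c₂).1.2.support ((Shift_E c₁ s hs) d₁).1.2.support :=
    (Shift_disj _ _ _).symm
  have e3 : ((Shift_E c₁ s hs) c₂).1.1.support.card =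
      (univ.filter fun i => c₂.1.1 i ≠ c₁.1.1 i).card := Shift_card _ _
  have e4 : ((Shift_E c₁ s hs) d₁).1.2.support.card =
      (univ.filter fun j => d₁.1.2 j ≠ c₁.1.2 j).card := Shift_card _ _
  rw [e3, e4]
  by_cases h : (∀ i, c₂.1.1 i = c₁.1.1 i ∨ d₁.1.1 i = c₁.1.1 i) ∧
      (∀ j, c₂.1.2 j = c₁.1.2 j ∨ d₁.1.2 j = c₁.1.2 j)
  · rw [if_pos h, if_pos ⟨e1.mp h.1, e2.mp h.2⟩]
  · rw [if_neg h, if_neg (fun h' => h ⟨e1.mpr h'.1, e2.mpr h'.2⟩)]

end Pool.Agent.Work.MP_499dc6_lc.D3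

end

section

namespace Pool.Agent.Work.MP_499dc6_lc.D3

open MvPolynomial

section Span2basic

variable {K : Type} [Field K] {A : Type} [CommRing A] [Algebra K A]

theorem Span2_one (w : ℕ → ℕ → A) : (1 : A) ∈ PS2 K w 0 0 := by
  apply Submodule.subset_span
  exact ⟨0, by simp, by simp, by simp, by simp⟩

theorem Span2_step (w : ℕ → ℕ → A) {u v a b : ℕ} (h : (u, v) ≠ (0, 0)) {x : A}
    (hx : x ∈ PS2 K w a b) : w u v * x ∈ PS2 K w (u + a) (v + b) := by
  unfold PS2 at hx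
  induction hx using Submodule.span_induction with
  | mem x hx =>
    obtain ⟨m, h0, h1, h2, rfl⟩ := hx
    apply Submodule.subset_span
    refine ⟨Finsupp.single (u, v) 1 + m, ?_, ?_, ?_, ?_⟩
    · rw [Finsupp.add_apply, h0, Finsupp.single_eq_of_ne (by exact h.symm)]
    · rw [Finsupp.sum_add_index' (by intro; simp) (by intros; ring), h1,
        Finsupp.sum_single_index (by simp)]
      ring
    · rw [Finsupp.sum_add_index' (by intro; simp) (by intros; ring), h2,
        Finsupp.sum_single_index (by simp)]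
      ring
    · rw [Finsupp.prod_add_index' (by intro; simp) (by intros; rw [pow_add]),
        Finsupp.prod_single_index (by simp)]
      simp
  | zero => rw [mul_zero]; exact Submodule.zero_mem _
  | add x y _ _ hx hy => rw [mul_add]; exact Submodule.add_mem _ hx hy
  | smul c x _ hx => rw [mul_smul_comm]; exact Submodule.smul_mem _ _ hx

end Span2basic

theorem pr_Span2 : S_Span2 := by
  intro K _ _ A _ _ V w hV hw hrec
  have main : ∀ s a b : ℕ, a + b = s → V a b ∈ PS2 K w a b := by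
    intro s
    induction s using Nat.strong_induction_on with
    | _ s ih =>
      intro a b hab
      rcases Nat.eq_zero_or_pos s with hs | hs
      · have ha : a = 0 := by omega
        have hb : b = 0 := by omega
        subst ha; subst hb
        rw [hV]
        exact Span2_one w
      · have hs0 : ((a + b : ℕ) : K) ≠ 0 := Nat.cast_ne_zero.2 (by omega)
        have hkk : ((a + b : ℕ) : A) * V a b = ((a + b : ℕ) : K) • V a b := by
          rw [Algebra.smul_def, map_natCast]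
        have hv : V a b = (((a + b : ℕ) : K)⁻¹) •
            ∑ p ∈ Finset.HasAntidiagonal.antidiagonal a,
              ∑ q ∈ Finset.HasAntidiagonal.antidiagonal b, w p.1 q.1 * V p.2 q.2 := by
          rw [← hrec a b, hkk, smul_smul, inv_mul_cancel₀ hs0, one_smul]
        rw [hv]
        refine Submodule.smul_mem _ _ (Submodule.sum_mem _ fun p hp =>
          Submodule.sum_mem _ fun q hq => ?_)
        rw [Finset.HasAntidiagonal.mem_antidiagonal] at hp hq
        by_cases h0 : (p.1, q.1) = (0, 0)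
        · rw [Prod.mk.injEq] at h0
          rw [h0.1, h0.2, hw, zero_mul]
          exact Submodule.zero_mem _
        · have h1 : p.1 ≠ 0 ∨ q.1 ≠ 0 := by
            by_contra hcon
            push Not at hcon
            exact h0 (by rw [hcon.1, hcon.2])
          have h2 := Span2_step w h0 (ih (p.2 + q.2) (by omega) p.2 q.2 rfl)
          rwa [hp, hq] at h2
  intro a b
  exact main _ a b rfl

end Pool.Agent.Work.MP_499dc6_lc.D3

end

section

namespace Pool.Agent.Work.MP_499dc6_lc.D3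

open MvPolynomial
open Pool.Agent.Work.MP_499dc6_lc.CD

theorem SpanBB2_pow {Y Z : Type} [Fintype Y] [Fintype Z] {K : Type} [Field K] {al be : ℝ}
    {g : MvPolynomial (Y ⊕ Z) K} {x : ℝ} (h : BB al be g x) (j : ℕ) :
    BB al be (g ^ j) (x ^ j) := by
  induction j with
  | zero =>
    rw [pow_zero, pow_zero]
    exact pr_BBone Y Z K al be
  | succ j ih =>
    rw [pow_succ, pow_succ]
    exact pr_BBmul pr_BiMul Y Z K al be _ _ _ _ ih h

theorem SpanBB2_prod {Y Z : Type} [Fintype Y] [Fintype Z] {K : Type} [Field K] {al be : ℝ}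
    {ι : Type} (S : Finset ι) (g : ι → MvPolynomial (Y ⊕ Z) K) (x : ι → ℝ)
    (h : ∀ i ∈ S, BB al be (g i) (x i)) :
    BB al be (∏ i ∈ S, g i) (∏ i ∈ S, x i) := by
  classical
  induction S using Finset.induction_on with
  | empty =>
    rw [Finset.prod_empty, Finset.prod_empty]
    exact pr_BBone Y Z K al be
  | insert i S hi ih =>
    rw [Finset.prod_insert hi, Finset.prod_insert hi]
    exact pr_BBmul pr_BiMul Y Z K al be _ _ _ _ (h i (Finset.mem_insert_self i S))
      (ih fun k hk => h k (Finset.mem_insert_of_mem hk))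

theorem SpanBB2_sum {Y Z : Type} [Fintype Y] [Fintype Z] {K : Type} [Field K] {al be : ℝ}
    {ι : Type} (S : Finset ι) (g : ι → MvPolynomial (Y ⊕ Z) K) (x : ι → ℝ) (c : ι → K)
    (h : ∀ i ∈ S, BB al be (g i) (x i)) :
    BB al be (∑ i ∈ S, c i • g i) (∑ i ∈ S, x i) := by
  classical
  induction S using Finset.induction_on with
  | empty =>
    rw [Finset.sum_empty, Finset.sum_empty]
    exact BB.zero
  | insert i S hi ih =>
    rw [Finset.sum_insert hi, Finset.sum_insert hi, MvPolynomial.smul_eq_C_mul]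
    exact BB.add (pr_BBsmul Y Z K al be _ _ _ (h i (Finset.mem_insert_self i S)))
      (ih fun k hk => h k (Finset.mem_insert_of_mem hk))

theorem SpanBB2_geom (y : ℝ) (h0 : 0 ≤ y) (h1 : y < 1) (n : ℕ) :
    ∑ j ∈ Finset.range n, y ^ j ≤ (1 - y)⁻¹ := by
  have hpos : 0 < 1 - y := by linarith
  rw [← one_div, le_div_iff₀ hpos, mul_comm, mul_neg_geom_sum]
  have := pow_nonneg h0 n
  linarith

theorem SpanBB2_finsupp {ι : Type} (S : Finset ι) (y : ι → ℝ) (N : ℕ) :
    ∑ m ∈ S.finsupp (fun _ => Finset.range N), ∏ i ∈ S, y i ^ m i =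
      ∏ i ∈ S, ∑ j ∈ Finset.range N, y i ^ j := by
  classical
  rw [Finset.prod_sum]
  unfold Finset.finsupp
  rw [Finset.sum_map]
  refine Finset.sum_congr rfl fun p _ => ?_
  rw [← Finset.prod_attach]
  refine Finset.prod_congr rfl fun i _ => ?_
  simp [Finsupp.indicator_apply]

theorem SpanBB2_mem {a b : ℕ} {m : ℕ × ℕ →₀ ℕ} (h0 : m (0, 0) = 0)
    (ha : m.sum (fun τ j => j * τ.1) = a) (hb : m.sum (fun τ j => j * τ.2) = b) :
    m ∈ (Ty a b).finsupp (fun _ => Finset.range (a + b + 1)) := by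
  have hle : ∀ τ ∈ m.support, m τ * τ.1 ≤ a ∧ m τ * τ.2 ≤ b := by
    intro τ hτ
    constructor
    · rw [← ha]
      exact Finset.single_le_sum (f := fun τ => m τ * τ.1) (fun _ _ => Nat.zero_le _) hτ
    · rw [← hb]
      exact Finset.single_le_sum (f := fun τ => m τ * τ.2) (fun _ _ => Nat.zero_le _) hτ
  rw [Finset.mem_finsupp_iff]
  constructor
  · intro τ hτ
    have h1 : 1 ≤ m τ := Nat.one_le_iff_ne_zero.2 (Finsupp.mem_support_iff.1 hτ)
    obtain ⟨h2, h3⟩ := hle τ hτ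
    have h4 : τ.1 ≤ m τ * τ.1 := Nat.le_mul_of_pos_left _ h1
    have h5 : τ.2 ≤ m τ * τ.2 := Nat.le_mul_of_pos_left _ h1
    unfold Ty
    rw [Finset.mem_erase, Finset.mem_product, Finset.mem_range, Finset.mem_range]
    refine ⟨?_, by omega, by omega⟩
    rintro rfl
    omega
  · intro τ hτ
    rw [Finset.mem_range]
    by_cases hs : τ ∈ m.support
    · obtain ⟨h2, h3⟩ := hle τ hs
      have h6 : 1 ≤ τ.1 + τ.2 := by
        by_contra hcon
        have h7 : τ = (0, 0) := Prod.ext (by simp; omega) (by simp; omega)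
        rw [h7] at hs
        exact (Finsupp.mem_support_iff.1 hs) h0
      have h8 : m τ ≤ m τ * (τ.1 + τ.2) := Nat.le_mul_of_pos_right _ h6
      rw [Nat.mul_add] at h8
      omega
    · rw [Finsupp.notMem_support_iff.1 hs]
      omega

theorem pr_SpanBB2 : S_SpanBB2 := by
  classical
  intro Y Z _ _ K _ al be w f a b x A B hf hw hlt
  have hx : ∀ τ ∈ Ty a b, 0 ≤ x τ.1 τ.2 := fun τ hτ => pr_BBnn Y Z K al be _ _ (hw τ hτ)
  obtain ⟨MS, hMS⟩ : ∃ MS : Finset (ℕ × ℕ →₀ ℕ), MS =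
      ((Ty a b).finsupp (fun _ => Finset.range (a + b + 1))).filter
        (fun m => m (0, 0) = 0 ∧ m.sum (fun τ j => j * τ.1) = a ∧
          m.sum (fun τ j => j * τ.2) = b) := ⟨_, rfl⟩
  have hsub : f ∈ Submodule.span K (Set.range fun m : MS =>
      (m.1.prod fun τ j => w τ.1 τ.2 ^ j : MvPolynomial (Y ⊕ Z) K)) := by
    unfold PS2 at hf
    refine Submodule.span_mono ?_ hf
    rintro _ ⟨m, h0, ha, hb, rfl⟩
    refine ⟨⟨m, ?_⟩, rfl⟩
    rw [hMS, Finset.mem_filter]
    exact ⟨SpanBB2_mem h0 ha hb, h0, ha, hb⟩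
  rw [Submodule.mem_span_range_iff_exists_fun] at hsub
  obtain ⟨c, rfl⟩ := hsub
  have hsupp : ∀ m ∈ MS, m.support ⊆ Ty a b := by
    intro m hm
    rw [hMS, Finset.mem_filter, Finset.mem_finsupp_iff] at hm
    exact hm.1.1
  have hprodw : ∀ m ∈ MS, BB al be (m.prod fun τ j => w τ.1 τ.2 ^ j)
      (∏ τ ∈ Ty a b, x τ.1 τ.2 ^ m τ) := by
    intro m hm
    rw [Finsupp.prod_of_support_subset m (hsupp m hm) _ (fun _ _ => pow_zero _)]
    exact SpanBB2_prod _ _ _ fun τ hτ => SpanBB2_pow (hw τ hτ) _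
  have hB := SpanBB2_sum (al := al) (be := be) (Finset.univ : Finset MS)
    (fun m : MS => (m.1.prod fun τ j => w τ.1 τ.2 ^ j : MvPolynomial (Y ⊕ Z) K))
    (fun m : MS => ∏ τ ∈ Ty a b, x τ.1 τ.2 ^ m.1 τ) c (fun m _ => hprodw m.1 m.2)
  refine BB.mono hB ?_
  -- the numerical part
  rw [Finset.sum_coe_sort MS (fun m => ∏ τ ∈ Ty a b, x τ.1 τ.2 ^ m τ)]
  have hterm : ∀ m ∈ MS, ∏ τ ∈ Ty a b, x τ.1 τ.2 ^ m τ = Real.exp (A * a + B * b) *
      ∏ τ ∈ Ty a b, (x τ.1 τ.2 * Real.exp (-(A * τ.1 + B * τ.2))) ^ m τ := by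
    intro m hm
    have hm' := hm
    rw [hMS, Finset.mem_filter] at hm'
    obtain ⟨-, -, ha, hb⟩ := hm'
    rw [Finsupp.sum_of_support_subset m (hsupp m hm) (fun τ j => j * τ.1)
      (fun _ _ => zero_mul _)] at ha
    rw [Finsupp.sum_of_support_subset m (hsupp m hm) (fun τ j => j * τ.2)
      (fun _ _ => zero_mul _)] at hb
    have h1 : ∏ τ ∈ Ty a b, (x τ.1 τ.2 * Real.exp (-(A * τ.1 + B * τ.2))) ^ m τ =
        (∏ τ ∈ Ty a b, x τ.1 τ.2 ^ m τ) * Real.exp (-(A * a + B * b)) := by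
      have haR : (a : ℝ) = ∑ τ ∈ Ty a b, (m τ : ℝ) * τ.1 := by
        exact_mod_cast ha.symm
      have hbR : (b : ℝ) = ∑ τ ∈ Ty a b, (m τ : ℝ) * τ.2 := by
        exact_mod_cast hb.symm
      have h2 : ∀ τ : ℕ × ℕ, (x τ.1 τ.2 * Real.exp (-(A * τ.1 + B * τ.2))) ^ m τ =
          x τ.1 τ.2 ^ m τ * Real.exp ((m τ : ℝ) * (-(A * τ.1 + B * τ.2))) := by
        intro τ
        rw [mul_pow, ← Real.exp_nat_mul]
      rw [Finset.prod_congr rfl fun τ _ => h2 τ, Finset.prod_mul_distrib, ← Real.exp_sum]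
      congr 2
      rw [haR, hbR]
      generalize Ty _ _ = T
      rw [Finset.mul_sum, Finset.mul_sum, ← Finset.sum_add_distrib, ← Finset.sum_neg_distrib]
      refine Finset.sum_congr rfl fun τ _ => ?_
      ring
    rw [h1, mul_comm, mul_assoc, ← Real.exp_add]
    simp
  rw [Finset.sum_congr rfl hterm, ← Finset.mul_sum]
  refine mul_le_mul_of_nonneg_left ?_ (Real.exp_pos _).le
  have hy : ∀ τ ∈ Ty a b, 0 ≤ x τ.1 τ.2 * Real.exp (-(A * τ.1 + B * τ.2)) :=
    fun τ hτ => mul_nonneg (hx τ hτ) (Real.exp_pos _).le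
  calc ∑ m ∈ MS, ∏ τ ∈ Ty a b, (x τ.1 τ.2 * Real.exp (-(A * τ.1 + B * τ.2))) ^ m τ
      ≤ ∑ m ∈ (Ty a b).finsupp (fun _ => Finset.range (a + b + 1)),
          ∏ τ ∈ Ty a b, (x τ.1 τ.2 * Real.exp (-(A * τ.1 + B * τ.2))) ^ m τ := by
        refine Finset.sum_le_sum_of_subset_of_nonneg ?_ fun m _ _ =>
          Finset.prod_nonneg fun τ hτ => pow_nonneg (hy τ hτ) _
        rw [hMS]
        exact Finset.filter_subset _ _
    _ = ∏ τ ∈ Ty a b, ∑ j ∈ Finset.range (a + b + 1),
          (x τ.1 τ.2 * Real.exp (-(A * τ.1 + B * τ.2))) ^ j :=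
        SpanBB2_finsupp (Ty a b) (fun τ => x τ.1 τ.2 * Real.exp (-(A * τ.1 + B * τ.2))) _
    _ ≤ ∏ τ ∈ Ty a b, (1 - x τ.1 τ.2 * Real.exp (-(A * τ.1 + B * τ.2)))⁻¹ := by
        refine Finset.prod_le_prod (fun τ hτ => Finset.sum_nonneg fun j _ =>
          pow_nonneg (hy τ hτ) _) fun τ hτ => ?_
        exact SpanBB2_geom _ (hy τ hτ) (hlt τ hτ) _

end Pool.Agent.Work.MP_499dc6_lc.D3

end

section

/-!
# Item Struct: rectangles of the code
-/

namespace Pool.Agent.Work.MP_499dc6_lc.D3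

open MvPolynomial Equiv Finset
open Pool.Agent.Work.MP_499dc6_lc.CD

section

variable {α : Type} [Fintype α] [DecidableEq α]

theorem Struct_gr (σ : Perm α) (p : α × α) : gr σ p = if σ p.1 = p.2 then 1 else 0 := rfl

theorem Struct_a {c₁ c₂ d₁ d₂ : Perm α} (h : gr c₁ + gr d₂ = gr c₂ + gr d₁) (i : α) :
    c₂ i = c₁ i ∨ d₁ i = c₁ i := by
  have h1 := DFunLike.congr_fun h (i, c₁ i)
  rw [Finsupp.add_apply, Finsupp.add_apply, Struct_gr, Struct_gr, Struct_gr, Struct_gr] at h1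
  simp only [if_true] at h1
  by_contra h2
  rw [not_or] at h2
  rw [if_neg h2.1, if_neg h2.2] at h1
  split_ifs at h1 <;> omega

theorem Struct_b {c₁ c₂ d₁ d₂ : Perm α} (h : gr c₁ + gr d₂ = gr c₂ + gr d₁) (i : α) :
    d₂ i = if c₂ i = c₁ i then d₁ i else c₂ i := by
  have ha := Struct_a h i
  split_ifs with h0
  · have h1 := DFunLike.congr_fun h (i, d₁ i)
    rw [Finsupp.add_apply, Finsupp.add_apply, Struct_gr, Struct_gr, Struct_gr, Struct_gr] at h1
    simp only [if_true, h0] at h1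
    by_contra h2
    rw [if_neg h2] at h1
    omega
  · have h3 : d₁ i = c₁ i := by
      rcases ha with h4 | h4
      · exact absurd h4 h0
      · exact h4
    have h1 := DFunLike.congr_fun h (i, c₂ i)
    rw [Finsupp.add_apply, Finsupp.add_apply, Struct_gr, Struct_gr, Struct_gr, Struct_gr] at h1
    simp only [if_true, h3] at h1
    by_contra h2
    rw [if_neg h2] at h1
    omega

theorem Struct_c (c₁ c₂ : Perm α) : (∑ i, (gr c₂ i - gr c₁ i)) =
    (univ.filter fun i => c₂ i ≠ c₁ i).card := by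
  rw [Fintype.sum_prod_type, Finset.card_filter]
  refine Finset.sum_congr rfl fun i _ => ?_
  rw [Finset.sum_eq_single (c₂ i)]
  · rw [Struct_gr, Struct_gr]
    simp only [if_true]
    by_cases h : c₁ i = c₂ i
    · rw [if_pos h, if_neg (by simpa using h.symm)]
    · rw [if_neg h, if_pos (fun h' => h h'.symm)]
  · intro j _ hj
    rw [Struct_gr, Struct_gr]
    simp only
    rw [if_neg (fun h => hj h.symm), Nat.zero_sub]
  · intro h
    exact absurd (mem_univ _) h

end

theorem Struct_key (n k : ℕ) (c₁ c₂ d₁ : Code n k) (V : ℝ) (hV : 0 ≤ V) (F : Finset (Code n k))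
    (hF : ∀ d₂ ∈ F, gr c₁.1.1 + gr d₂.1.1 = gr c₂.1.1 + gr d₁.1.1 ∧
          gr c₁.1.2 + gr d₂.1.2 = gr c₂.1.2 + gr d₁.1.2) :
    (F.card : ℝ) * V ≤ if (∀ i, c₂.1.1 i = c₁.1.1 i ∨ d₁.1.1 i = c₁.1.1 i) ∧
          (∀ j, c₂.1.2 j = c₁.1.2 j ∨ d₁.1.2 j = c₁.1.2 j) then V else 0 := by
  split_ifs with hc
  · have hcard : F.card ≤ 1 := by
      rw [Finset.card_le_one]
      intro a ha b hb
      have ha' := hF a ha
      have hb' := hF b hb
      have h1 : a.1.1 = b.1.1 := by
        ext1 i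
        rw [Struct_b ha'.1 i, Struct_b hb'.1 i]
      have h2 : a.1.2 = b.1.2 := by
        ext1 i
        rw [Struct_b ha'.2 i, Struct_b hb'.2 i]
      exact Subtype.ext (Prod.ext h1 h2)
    have hcard' : (F.card : ℝ) ≤ 1 := by exact_mod_cast hcard
    nlinarith
  · have hF0 : F = ∅ := by
      rw [Finset.eq_empty_iff_forall_notMem]
      intro d₂ h'
      have h := hF d₂ h'
      exact hc ⟨fun i => Struct_a h.1 i, fun i => Struct_a h.2 i⟩
    rw [hF0, Finset.card_empty, Nat.cast_zero, zero_mul]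

theorem Struct_sum {β : Type} [Fintype β] (P : β → Prop) (inst : ∀ b, Decidable (P b)) (V W : ℝ)
    (h : ∀ F : Finset β, (∀ b ∈ F, P b) → (F.card : ℝ) * V ≤ W) :
    (∑ b, @ite ℝ (P b) (inst b) V 0) ≤ W := by
  rw [← Finset.sum_filter, Finset.sum_const, nsmul_eq_mul]
  exact h _ (fun b hb => (Finset.mem_filter.1 hb).2)

theorem pr_Struct : S_Struct := by
  intro n k c₁ p q hp hq
  refine Finset.sum_le_sum fun c₂ _ => Finset.sum_le_sum fun d₁ _ => ?_
  rw [Struct_c, Struct_c]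
  exact Struct_sum _ _ _ _ fun F hF => Struct_key n k c₁ c₂ d₁ _
    (mul_nonneg (pow_nonneg hp _) (pow_nonneg hq _)) F hF

end Pool.Agent.Work.MP_499dc6_lc.D3

end

section

/-!
# Item Trace: the trace method
-/

namespace Pool.Agent.Work.MP_499dc6_lc.D3

open Matrix Finset

private theorem Trace_sq {m : Type} [Fintype m] [DecidableEq m] (A : Matrix m m ℝ)
    (hA : A.IsHermitian) : (A * A).trace = ∑ i, (hA.eigenvalues i) ^ 2 := by
  set U : Matrix m m ℝ := (hA.eigenvectorUnitary : Matrix m m ℝ) with hU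
  set D : Matrix m m ℝ := diagonal hA.eigenvalues with hD
  have hUU : star U * U = 1 := Unitary.coe_star_mul_self _
  have hs : A = U * D * star U := by
    have h := hA.spectral_theorem
    rw [Unitary.conjStarAlgAut_apply] at h
    exact h
  have h1 : A * A = U * (D * D) * star U := by
    calc A * A = (U * D * star U) * (U * D * star U) := by rw [← hs]
      _ = U * D * (star U * U) * D * star U := by simp only [Matrix.mul_assoc]
      _ = U * (D * D) * star U := by rw [hUU]; simp only [Matrix.mul_assoc, Matrix.one_mul]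
  rw [h1, Matrix.trace_mul_comm, ← Matrix.mul_assoc, hUU, Matrix.one_mul, hD,
    Matrix.diagonal_mul_diagonal, Matrix.trace_diagonal]
  exact Finset.sum_congr rfl fun i _ => by ring

theorem pr_Trace : S_Trace := by
  intro m n _ _ _ _ H
  have hA : (H * Hᵀ).IsHermitian := by
    have := Matrix.isHermitian_mul_conjTranspose_self H
    rwa [Matrix.conjTranspose_eq_transpose_of_trivial] at this
  have h1 : ∑ i, ∑ j, H i j ^ 2 = ∑ i, hA.eigenvalues i := by
    have h := hA.trace_eq_sum_eigenvalues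
    simp only [RCLike.ofReal_real_eq_id, id_eq] at h
    rw [← h]
    simp only [Matrix.trace, Matrix.diag_apply, Matrix.mul_apply, Matrix.transpose_apply]
    exact Finset.sum_congr rfl fun i _ => Finset.sum_congr rfl fun j _ => by ring
  have h2 : ∑ i, ∑ i', (∑ j, H i j * H i' j) ^ 2 = ∑ i, (hA.eigenvalues i) ^ 2 := by
    rw [← Trace_sq _ hA]
    simp only [Matrix.trace, Matrix.diag_apply, Matrix.mul_apply, Matrix.transpose_apply]
    refine Finset.sum_congr rfl fun i _ => Finset.sum_congr rfl fun i' _ => ?_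
    rw [sq]
    congr 1
    exact Finset.sum_congr rfl fun j _ => mul_comm _ _
  have h3 : H.rank = ((Finset.univ : Finset m).filter (fun i => hA.eigenvalues i ≠ 0)).card := by
    rw [← Matrix.rank_self_mul_transpose H, hA.rank_eq_card_non_zero_eigs, Fintype.card_subtype]
  rw [h1, h2, h3]
  have h4 : ∑ i, hA.eigenvalues i =
      ∑ i ∈ (Finset.univ : Finset m).filter (fun i => hA.eigenvalues i ≠ 0),
        hA.eigenvalues i := (Finset.sum_filter_ne_zero _).symm
  rw [h4]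
  refine (sq_sum_le_card_mul_sum_sq).trans ?_
  refine mul_le_mul_of_nonneg_left ?_ (Nat.cast_nonneg _)
  exact Finset.sum_le_sum_of_subset_of_nonneg (Finset.filter_subset _ _)
    (fun i _ _ => sq_nonneg _)

end Pool.Agent.Work.MP_499dc6_lc.D3

end
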