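import Pool.Agent.Work.MP_499dc6_lc.H29Sub

/-! Bundle of small proof modules (one section per former module). -/

section

/-!
# The coefficient of the permanent
-/

namespace Pool.Agent.LocalArith

open MvPolynomial Finset Pool.Agent.LocalSym

variable {N : ℕ} {W K : Type} [CommRing K]

/-- the factors of the expanded product -/
def cf (ω : K) (π : Equiv.Perm (Fin (N / 2) × Fin 3)) (σ : Equiv.Perm (Idx N W)) :
    Option (Fin (N / 2) × Fin 3) → Idx N W → K
  | none, _ => 1
  | some e, i => vec ω (lo e.1) i * vec ω (hi (π e).1) (σ i)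

/-- the exponents of the expanded product -/
noncomputable def md : Option (Fin (N / 2) × Fin 3) → (Fin (N / 2) × Fin 3 →₀ ℕ)
  | none => 0
  | some e => Finsupp.single e 1

lemma entry_eq_sum (ω : K) (π : Equiv.Perm (Fin (N / 2) × Fin 3)) (σ : Equiv.Perm (Idx N W))
    (i : Idx N W) : entry ω π (i, σ i) = ∑ o, monomial (md o) (cf ω π σ o i) := by
  rw [Fintype.sum_option]
  simp only [md, cf, entry]
  congr 1
  refine Finset.sum_congr rfl fun e _ => ?_
  rw [← C_mul_X_eq_monomial]

lemma prod_vec_block {ω : K} (h3 : ω ^ 3 = 1) (b : Fin N) {f : Fin 3 → Idx N W}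
    (hf : Function.Injective f) :
    ∏ i, vec ω b (f i) = 0 ∨ ∏ i, vec ω b (f i) = 1 := by
  by_cases h : ∀ i, ∃ u, f i = Sum.inl (b, u)
  · right
    choose u hu using h
    have huinj : Function.Injective u := by
      intro i j hij
      apply hf
      rw [hu, hu, hij]
    have hbij : Function.Bijective u := Finite.injective_iff_bijective.1 huinj
    calc ∏ i, vec ω b (f i) = ∏ i, ω ^ ((u i : Fin 3) : ℕ) := by
          refine Finset.prod_congr rfl fun i _ => ?_
          rw [hu]; simp [vec]
      _ = ∏ v : Fin 3, ω ^ (v : ℕ) := hbij.prod_comp (fun v : Fin 3 => ω ^ (v : ℕ))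
      _ = ω ^ 3 := by
          rw [Fin.prod_univ_three]
          simp only [Fin.val_zero, Fin.val_one, Fin.val_two, pow_zero, pow_one, one_mul]
          ring
      _ = 1 := h3
  · left
    push Not at h
    obtain ⟨i, hi⟩ := h
    refine Finset.prod_eq_zero (mem_univ i) ?_
    rcases hfi : f i with ⟨b', u⟩ | w
    · have : b' ≠ b := by
        rintro rfl
        exact hi u hfi
      simp [vec, this]
    · rfl

lemma prod_vec {ω : K} (h3 : ω ^ 3 = 1) {M : ℕ} (φ : Fin M → Fin N)
    {f : Fin M × Fin 3 → Idx N W} (hf : Function.Injective f) :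
    ∏ e, vec ω (φ e.1) (f e) = 0 ∨ ∏ e, vec ω (φ e.1) (f e) = 1 := by
  rw [Fintype.prod_prod_type]
  by_cases h : ∀ a, ∏ i, vec ω (φ a) (f (a, i)) = 1
  · right
    exact Finset.prod_eq_one fun a _ => h a
  · left
    push Not at h
    obtain ⟨a, ha⟩ := h
    refine Finset.prod_eq_zero (mem_univ a) ?_
    have hinj : Function.Injective fun i : Fin 3 => f (a, i) := by
      intro i j hij
      have := hf hij
      simpa using this
    rcases prod_vec_block h3 (φ a) hinj with h' | h'
    · exact h'
    · exact absurd h' ha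

variable [Fintype W] [DecidableEq W]

open Classical in
/-- the contribution of a permutation and a choice function -/
noncomputable def contrib (ω : K) (π : Equiv.Perm (Fin (N / 2) × Fin 3))
    (P : Equiv.Perm (Idx N W) × (Idx N W → Option (Fin (N / 2) × Fin 3))) : K :=
  if ∑ i, md (P.2 i) = ind univ then ∏ i, cf ω π P.1 (P.2 i) i else 0

lemma coeff_sub_perm (ω : K) (π : Equiv.Perm (Fin (N / 2) × Fin 3)) :
    coeff (ind univ) (sub ω π (permPoly (Idx N W) K)) =
      ∑ P : Equiv.Perm (Idx N W) × (Idx N W → Option (Fin (N / 2) × Fin 3)), contrib ω π P := by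
  classical
  unfold permPoly sub
  simp only [map_sum, map_prod, aeval_X, entry_eq_sum]
  have h1 : ∀ σ : Equiv.Perm (Idx N W), ∏ i, ∑ o, monomial (md o) (cf ω π σ o i) =
      ∑ h : Idx N W → Option (Fin (N / 2) × Fin 3),
        monomial (∑ i, md (h i)) (∏ i, cf ω π σ (h i) i) := by
    intro σ
    have := Finset.prod_univ_sum
      (t := fun _ : Idx N W => (univ : Finset (Option (Fin (N / 2) × Fin 3))))
      (f := fun i o => monomial (md o) (cf ω π σ o i))
    rw [this, Fintype.piFinset_univ]
    refine Finset.sum_congr rfl fun h _ => ?_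
    rw [monomial_sum_prod]
  simp only [h1, coeff_sum, coeff_monomial]
  rw [Fintype.sum_prod_type]
  rfl

lemma sum_md_apply (h : Idx N W → Option (Fin (N / 2) × Fin 3)) (e : Fin (N / 2) × Fin 3) :
    (∑ i, md (h i)) e = #(univ.filter fun i => h i = some e) := by
  classical
  rw [Finsupp.finsetSum_apply, Finset.card_filter]
  refine Finset.sum_congr rfl fun i _ => ?_
  rcases hi : h i with _ | e'
  · simp [md]
  · simp [md, Finsupp.single_apply]

lemma contrib_eq {ω : K} (h3 : ω ^ 3 = 1) (π : Equiv.Perm (Fin (N / 2) × Fin 3))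
    (P : Equiv.Perm (Idx N W) × (Idx N W → Option (Fin (N / 2) × Fin 3))) :
    contrib ω π P = 0 ∨ contrib ω π P = 1 := by
  classical
  obtain ⟨σ, h⟩ := P
  unfold contrib
  simp only
  split_ifs with hsum
  · -- each edge is chosen exactly once
    have h1 : ∀ e, ∃ i, h i = some e := by
      intro e
      have := DFunLike.congr_fun hsum e
      rw [sum_md_apply, ind_apply, if_pos (mem_univ _)] at this
      obtain ⟨i, hi⟩ := Finset.card_pos.1 (by omega : 0 < #(univ.filter fun i => h i = some e))
      exact ⟨i, (mem_filter.1 hi).2⟩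
    choose f hf using h1
    have hfinj : Function.Injective f := by
      intro e e' hee
      have := hf e
      rw [hee, hf e'] at this
      exact (Option.some_injective _ this).symm
    have huniq : ∀ i e, h i = some e → i = f e := by
      intro i e hi
      have := DFunLike.congr_fun hsum e
      rw [sum_md_apply, ind_apply, if_pos (mem_univ _)] at this
      obtain ⟨j, hj⟩ := Finset.card_eq_one.1 this
      have h1 : i ∈ univ.filter fun i => h i = some e := by simp [hi]
      have h2 : f e ∈ univ.filter fun i => h i = some e := by simp [hf e]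
      rw [hj, Finset.mem_singleton] at h1 h2
      rw [h1, h2]
    have hprod : ∏ i, cf ω π σ (h i) i = ∏ e, cf ω π σ (some e) (f e) := by
      rw [← Finset.prod_subset (Finset.subset_univ (univ.image f)), Finset.prod_image]
      · exact Finset.prod_congr rfl fun e _ => by rw [hf e]
      · intro a _ b _ hab
        exact hfinj hab
      · intro i _ hi
        have hn : h i = none := by
          rcases hh : h i with _ | e
          · rfl
          · exact absurd (Finset.mem_image.2 ⟨e, mem_univ _, (huniq i e hh).symm⟩) hi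
        rw [hn]
        rfl
    rw [hprod]
    simp only [cf, Finset.prod_mul_distrib]
    have h4 := prod_vec h3 (M := N / 2) lo hfinj
    have h5 : ∏ e, vec ω (hi (π e).1) (σ (f e)) =
        ∏ e, vec ω (hi (e : Fin (N / 2) × Fin 3).1) (σ (f (π.symm e))) := by
      rw [← Equiv.prod_comp π (fun e => vec ω (hi e.1) (σ (f (π.symm e))))]
      simp only [Equiv.symm_apply_apply]
    have hinj : Function.Injective fun e => σ (f (π.symm e)) :=
      σ.injective.comp (hfinj.comp π.symm.injective)
    have h6 := prod_vec h3 (M := N / 2) hi hinj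
    rw [h5]
    rcases h4 with h4 | h4 <;> rcases h6 with h6 | h6 <;> simp [h4, h6]
  · exact Or.inl rfl

lemma exists_contrib {ω : K} (h3 : ω ^ 3 = 1) (π : Equiv.Perm (Fin (N / 2) × Fin 3)) :
    ∃ P : Equiv.Perm (Idx N W) × (Idx N W → Option (Fin (N / 2) × Fin 3)),
      contrib ω π P = 1 := by
  classical
  set f : Fin (N / 2) × Fin 3 → Idx N W := fun e => Sum.inl (lo e.1, e.2) with hf
  set g : Fin (N / 2) × Fin 3 → Idx N W := fun e => Sum.inl (hi (π e).1, (π e).2) with hg
  have hfinj : Function.Injective f := by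
    intro e e' h
    simp only [hf, Sum.inl.injEq, Prod.mk.injEq, lo_injective.eq_iff] at h
    exact Prod.ext h.1 h.2
  have hginj : Function.Injective g := by
    intro e e' h
    simp only [hg, Sum.inl.injEq, Prod.mk.injEq, hi_injective.eq_iff] at h
    exact π.injective (Prod.ext h.1 h.2)
  obtain ⟨σ, hσ⟩ : ∃ σ : Equiv.Perm (Idx N W), ∀ e, σ (f e) = g e := by
    let E1 : Set.range f ≃ Set.range g :=
      (Equiv.ofInjective f hfinj).symm.trans (Equiv.ofInjective g hginj)
    refine ⟨E1.extendSubtype, fun e => ?_⟩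
    rw [Equiv.extendSubtype_apply_of_mem E1 (f e) ⟨e, rfl⟩]
    have : (Equiv.ofInjective f hfinj).symm ⟨f e, e, rfl⟩ = e :=
      Equiv.ofInjective_symm_apply hfinj e
    simp only [E1, Equiv.trans_apply, this, Equiv.ofInjective_apply]
  refine ⟨(σ, fun i => if h : ∃ e, f e = i then some h.choose else none), ?_⟩
  have hsome : ∀ e, (if h : ∃ e', f e' = f e then some h.choose else none) = some e := by
    intro e
    have hex : ∃ e', f e' = f e := ⟨e, rfl⟩
    rw [dif_pos hex]
    congr 1
    exact hfinj hex.choose_spec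
  unfold contrib
  simp only
  rw [if_pos]
  · rw [← Finset.prod_subset (Finset.subset_univ (univ.image f)), Finset.prod_image]
    · have : ∀ e, cf ω π σ (if h : ∃ e', f e' = f e then some h.choose else none) (f e) =
          ω ^ ((e.2 : Fin 3) : ℕ) * ω ^ (((π e).2 : Fin 3) : ℕ) := by
        intro e
        rw [hsome]
        simp only [cf, hσ]
        simp [hf, hg, vec]
      simp only [this, Finset.prod_mul_distrib]
      have hone : ∏ e : Fin (N / 2) × Fin 3, ω ^ ((e.2 : Fin 3) : ℕ) = 1 := by
        rw [Fintype.prod_prod_type]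
        refine Finset.prod_eq_one fun a _ => ?_
        rw [Fin.prod_univ_three]
        simp only [Fin.val_zero, Fin.val_one, Fin.val_two, pow_zero, pow_one, one_mul]
        rw [← h3]; ring
      rw [hone, Equiv.prod_comp π (fun e => ω ^ ((e.2 : Fin 3) : ℕ)), hone, one_mul]
    · intro a _ b _ hab
      exact hfinj hab
    · intro i _ hi'
      have : ¬ ∃ e, f e = i := by
        rintro ⟨e, rfl⟩
        exact hi' (Finset.mem_image_of_mem f (mem_univ e))
      rw [dif_neg this]
      rfl
  · ext e
    rw [sum_md_apply, ind_apply, if_pos (mem_univ _), Finset.card_eq_one]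
    refine ⟨f e, ?_⟩
    ext i
    simp only [mem_filter, mem_univ, true_and, mem_singleton]
    constructor
    · intro hi'
      by_cases hex : ∃ e', f e' = i
      · obtain ⟨e', rfl⟩ := hex
        rw [hsome e'] at hi'
        rw [Option.some_injective _ hi']
      · rw [dif_neg hex] at hi'
        simp at hi'
    · rintro rfl
      exact hsome e

theorem coeff_sub_perm_ne [CharZero K] {ω : K} (h3 : ω ^ 3 = 1)
    (π : Equiv.Perm (Fin (N / 2) × Fin 3)) :
    coeff (ind univ) (sub ω π (permPoly (Idx N W) K)) ≠ 0 := by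
  classical
  rw [coeff_sub_perm]
  have : ∀ P : Equiv.Perm (Idx N W) × (Idx N W → Option (Fin (N / 2) × Fin 3)),
      contrib ω π P = if contrib ω π P = 1 then 1 else 0 := by
    intro P
    rcases contrib_eq h3 π P with h | h
    · rw [h, if_neg (zero_ne_one)]
    · rw [h, if_pos rfl]
  rw [Finset.sum_congr rfl fun P _ => this P, Finset.sum_boole]
  obtain ⟨P, hP⟩ := exists_contrib (W := W) h3 π
  rw [Nat.cast_ne_zero, Finset.card_ne_zero]
  exact ⟨P, mem_filter.2 ⟨mem_univ _, hP⟩⟩

end Pool.Agent.LocalArith

end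

section

/-!
# Every arithmetic circuit for the permanent has a gate with exponentially many images
-/

namespace Pool.Agent.LocalArith

open MvPolynomial Finset Pool.Agent.LocalSym

variable {N : ℕ} {W K : Type} [Field K]

/-- no large square-free monomial survives the substitution -/
def Sm (ω : K) (π : Equiv.Perm (Fin (N / 2) × Fin 3))
    (f : MvPolynomial (Idx N W × Idx N W) K) : Prop :=
  ∀ S, coeff (ind S) (sub ω π f) ≠ 0 → #S < N / 2

theorem sm_gate {ω : K} (h3 : ω ^ 3 = 1) (h1 : ω ≠ 1) {d k : ℕ}
    (hk : d * (2 * k) < N / 2 / 20) {π : Equiv.Perm (Fin (N / 2) × Fin 3)}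
    (hπ : ∀ A : Finset (Fin (N / 2) × Fin 3), N / 2 ≤ #A → #A ≤ 2 * (N / 2) →
      N / 2 / 20 ≤ bd A + bd (A.map π.toEmbedding))
    {prev : Set (MvPolynomial (Idx N W × Idx N W) K)}
    (hprev : ∀ h ∈ prev, Sm ω π h ∧ #(fsupp h) ≤ 2 * k)
    {f : MvPolynomial (Idx N W × Idx N W) K} (hg : IsGate d prev f) : Sm ω π f := by
  classical
  rcases hg with ⟨h, G, hh, rfl⟩ | ⟨m, h, c, hh, rfl⟩
  · have hT : #(univ.biUnion fun i => fsupp (h i)) < N / 2 / 20 := by
      refine lt_of_le_of_lt ?_ hk
      refine (Finset.card_biUnion_le).trans ?_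
      refine (Finset.sum_le_card_nsmul _ _ (2 * k) fun i _ => (hprev _ (hh i)).2).trans ?_
      simp
    have hmem : ∀ i, sub ω π (h i) ∈ alg K π hπ (univ.biUnion fun i => fsupp (h i)) hT := by
      intro i S hS
      refine ⟨(hprev _ (hh i)).1 S hS, (bdIn_of_coeff h3 h1 hS).mono ?_⟩
      exact Finset.subset_biUnion_of_mem (fun i => fsupp (h i)) (mem_univ i)
    have hG : sub ω π (aeval h G) ∈ alg K π hπ (univ.biUnion fun i => fsupp (h i)) hT := by
      have e : sub ω π (aeval h G) =
          (alg K π hπ (univ.biUnion fun i => fsupp (h i)) hT).val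
            (aeval (fun i => (⟨sub ω π (h i), hmem i⟩ :
              alg K π hπ (univ.biUnion fun i => fsupp (h i)) hT)) G) := by
        rw [← AlgHom.comp_apply, ← AlgHom.comp_apply, comp_aeval, comp_aeval]
        rfl
      rw [e]
      exact Subtype.property _
    intro S hS
    exact (hG S hS).1
  · intro S hS
    rw [map_sum, coeff_sum] at hS
    obtain ⟨i, -, hi⟩ := Finset.exists_ne_zero_of_sum_ne_zero hS
    rw [map_smul, coeff_smul] at hi
    exact (hprev _ (hh i)).1 S (right_ne_zero_of_mul hi)

lemma card_le_totalDegree {P : MvPolynomial (Fin (N / 2) × Fin 3) K}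
    {S : Finset (Fin (N / 2) × Fin 3)} (h : coeff (ind S) P ≠ 0) : #S ≤ P.totalDegree := by
  classical
  have h1 := le_totalDegree (mem_support_iff.2 h)
  rw [Finsupp.sum_fintype _ _ (fun _ => rfl)] at h1
  simpa [ind_apply] using h1

lemma sm_X {ω : K} {π : Equiv.Perm (Fin (N / 2) × Fin 3)} (hM : 2 ≤ N / 2)
    (v : Idx N W × Idx N W) : Sm ω π (X v) := by
  intro S hS
  have h1 := card_le_totalDegree hS
  have h2 : (sub ω π (X v : MvPolynomial (Idx N W × Idx N W) K)).totalDegree ≤ 1 := by
    unfold sub
    rw [aeval_X]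
    unfold entry
    refine (totalDegree_add _ _).trans (max_le ?_ ?_)
    · rw [totalDegree_one]; omega
    · refine totalDegree_finsetSum_le fun e _ => ?_
      refine (totalDegree_mul _ _).trans ?_
      rw [totalDegree_C, zero_add]
      exact (totalDegree_X _).le
  omega

lemma sm_C {ω : K} {π : Equiv.Perm (Fin (N / 2) × Fin 3)} (hM : 2 ≤ N / 2)
    (c : K) : Sm ω π (C c : MvPolynomial (Idx N W × Idx N W) K) := by
  intro S hS
  have h1 := card_le_totalDegree hS
  have h2 : (sub ω π (C c : MvPolynomial (Idx N W × Idx N W) K)).totalDegree = 0 := by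
    unfold sub
    rw [aeval_C, MvPolynomial.algebraMap_eq, totalDegree_C]
  omega

/-- the block of an index -/
def blockOf : Idx N W → Option (Fin N)
  | Sum.inl v => some v.1
  | Sum.inr _ => none

lemma localPerm_of_ne {j : Fin N} {i : Idx N W} (h : blockOf i ≠ some j)
    (q : Equiv.Perm (Fin 3)) : localPerm W (Pi.mulSingle j q) i = i := by
  rcases i with ⟨b, u⟩ | w
  · have hb : b ≠ j := fun hb => h (by rw [hb]; rfl)
    have e : localPerm W (Pi.mulSingle j q) (Sum.inl (b, u)) =
        Sum.inl (b, (Pi.mulSingle j q : Fin N → Equiv.Perm (Fin 3)) b u) := rfl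
    rw [e, Pi.mulSingle_eq_of_ne hb]
    rfl
  · rfl

lemma card_fsupp_X (v : Idx N W × Idx N W) :
    #(fsupp (X v : MvPolynomial (Idx N W × Idx N W) K)) ≤ 2 := by
  classical
  have hsub : (fsupp (X v : MvPolynomial (Idx N W × Idx N W) K)).image some ⊆
      {blockOf v.1, blockOf v.2} := by
    intro o ho
    obtain ⟨j, hj, rfl⟩ := Finset.mem_image.1 ho
    by_contra hne
    simp only [mem_insert, mem_singleton, not_or] at hne
    simp only [fsupp, mem_filter, mem_univ, true_and] at hj
    apply hj
    rw [mem_fstab]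
    unfold act
    rw [rename_X, localPerm_of_ne (Ne.symm hne.1), localPerm_of_ne (Ne.symm hne.2)]
  have := Finset.card_le_card hsub
  rw [Finset.card_image_of_injective _ (Option.some_injective _)] at this
  exact this.trans Finset.card_le_two

lemma card_fsupp_C (c : K) : #(fsupp (C c : MvPolynomial (Idx N W × Idx N W) K)) ≤ 2 := by
  classical
  have : fsupp (C c : MvPolynomial (Idx N W × Idx N W) K) = ∅ := by
    rw [Finset.eq_empty_iff_forall_notMem]
    intro j hj
    simp only [fsupp, mem_filter, mem_univ, true_and] at hj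
    apply hj
    rw [mem_fstab]
    unfold act
    rw [rename_C]
  rw [this]
  simp

/-- the lower bound for an output with a large monomial after the substitution -/
theorem exists_images {ω : K} (h3 : ω ^ 3 = 1) (h1 : ω ≠ 1) {d s : ℕ} (hd : 0 < d)
    {F : Fin s → MvPolynomial (Idx N W × Idx N W) K} (hF : IsCircuit d F) (out : Fin s)
    (hout : ∀ π : Equiv.Perm (Fin (N / 2) × Fin 3), coeff (ind univ) (sub ω π (F out)) ≠ 0) :
    ∃ g, 2 ^ (N / (120 * d)) ≤ (images (F g)).ncard := by
  by_contra hcon
  push Not at hcon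
  set k := N / (120 * d) with hkdef
  rcases Nat.eq_zero_or_pos k with h0 | hpos
  · have h1 := hcon out
    rw [h0, pow_zero, Nat.lt_one_iff, Set.ncard_eq_zero (images_finite _)] at h1
    exact (images_nonempty (F out)).ne_empty h1
  have hk : 3 * k * d ≤ N / 2 / 20 := by
    rw [Nat.div_div_eq_div_mul, Nat.le_div_iff_mul_le (by norm_num)]
    calc 3 * k * d * (2 * 20) = k * (120 * d) := by ring
      _ ≤ N := Nat.div_mul_le_self _ _
  have hkd : 0 < k * d := Nat.mul_pos hpos hd
  have hk' : d * (2 * k) < N / 2 / 20 := by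
    calc d * (2 * k) = 2 * (k * d) := by ring
      _ < 3 * (k * d) := by omega
      _ = 3 * k * d := by ring
      _ ≤ _ := hk
  obtain ⟨π, hπ⟩ := exists_expanding (N / 2)
  have hsm : ∀ g, Sm ω π (F g) := by
    intro g
    induction g using WellFoundedLT.induction with
    | _ g ih =>
      refine sm_gate h3 h1 hk' hπ ?_ (hF g)
      rintro f (⟨v, rfl⟩ | ⟨c, rfl⟩ | ⟨h, hlt, rfl⟩)
      · exact ⟨sm_X (by omega) v, (card_fsupp_X v).trans (by omega)⟩
      · exact ⟨sm_C (by omega) c, (card_fsupp_C c).trans (by omega)⟩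
      · exact ⟨ih h hlt, (card_fsupp_le (hcon h)).trans (by omega)⟩
  have := hsm out _ (hout π)
  rw [Finset.card_univ, Fintype.card_prod, Fintype.card_fin, Fintype.card_fin] at this
  omega

end Pool.Agent.LocalArith

end

section

/-!
# The border version
-/

namespace Pool.Agent.LocalArith

open MvPolynomial Finset Pool.Agent.LocalSym

variable {N : ℕ} {W A B : Type} [CommRing A] [CommRing B]

lemma map_vec (φ : A →+* B) (ω : A) (j : Fin N) (i : Idx N W) :
    φ (vec ω j i) = vec (φ ω) j i := by
  rcases i with ⟨b, u⟩ | w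
  · simp only [vec]
    split_ifs
    · rw [map_pow]
    · rw [map_zero]
  · simp [vec]

lemma map_entry (φ : A →+* B) (ω : A) (π : Equiv.Perm (Fin (N / 2) × Fin 3))
    (p : Idx N W × Idx N W) : map φ (entry ω π p) = entry (φ ω) π p := by
  unfold entry
  simp only [map_add, map_one, map_sum, map_mul, map_C, map_X, map_vec]

lemma map_sub' (φ : A →+* B) (ω : A) (π : Equiv.Perm (Fin (N / 2) × Fin 3))
    (f : MvPolynomial (Idx N W × Idx N W) A) :
    map φ (sub ω π f) = sub (φ ω) π (map φ f) := by
  have : (map φ).comp (sub ω π : MvPolynomial (Idx N W × Idx N W) A →ₐ[A]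
      MvPolynomial (Fin (N / 2) × Fin 3) A).toRingHom =
      (sub (φ ω) π : MvPolynomial (Idx N W × Idx N W) B →ₐ[B]
      MvPolynomial (Fin (N / 2) × Fin 3) B).toRingHom.comp (map φ) := by
    apply MvPolynomial.ringHom_ext
    · intro a
      simp [sub]
    · intro v
      simp [sub, map_entry]
  exact RingHom.congr_fun this f

lemma map_permPoly (φ : A →+* B) (n : Type) [Fintype n] [DecidableEq n] :
    map φ (permPoly n A) = permPoly n B := by
  unfold permPoly
  simp only [map_sum, map_prod, map_X]

theorem border [Fintype W] [DecidableEq W] {d s : ℕ} (hd : 0 < d)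
    {F : Fin s → MvPolynomial (Idx N W × Idx N W) (LaurentSeries ℂ)} (hF : IsCircuit d F)
    (out : Fin s) (R : MvPolynomial (Idx N W × Idx N W) (PowerSeries ℂ))
    (hout : F out = map (algebraMap (PowerSeries ℂ) (LaurentSeries ℂ))
      (permPoly (Idx N W) (PowerSeries ℂ) + C PowerSeries.X * R)) :
    ∃ g, 2 ^ (N / (120 * d)) ≤ (images (F g)).ncard := by
  set φ := algebraMap (PowerSeries ℂ) (LaurentSeries ℂ) with hφ
  have hinj : Function.Injective φ := IsFractionRing.injective _ _
  have hprim := Complex.isPrimitiveRoot_exp 3 (by norm_num)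
  set ω := Complex.exp (2 * Real.pi * Complex.I / (3 : ℕ)) with hω
  have e3 : (φ (PowerSeries.C ω)) ^ 3 = 1 := by
    rw [← map_pow, ← map_pow, hprim.pow_eq_one, map_one, map_one]
  have e1 : φ (PowerSeries.C ω) ≠ 1 := by
    intro h
    rw [← map_one φ] at h
    have h1 := hinj h
    rw [← map_one (PowerSeries.C (R := ℂ))] at h1
    have h2 := PowerSeries.C_injective h1
    exact hprim.ne_one (by norm_num) h2
  refine exists_images e3 e1 hd hF out fun π => ?_
  rw [hout, ← map_sub', coeff_map]
  intro h0
  rw [← map_zero φ] at h0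
  have h1 := hinj h0
  have h2 := congrArg (PowerSeries.constantCoeff (R := ℂ)) h1
  rw [map_zero, ← coeff_map, map_sub', map_add, map_mul, map_permPoly, map_C] at h2
  simp only [PowerSeries.constantCoeff_C, PowerSeries.constantCoeff_X, map_zero, zero_mul,
    add_zero] at h2
  exact coeff_sub_perm_ne (W := W) hprim.pow_eq_one π h2

end Pool.Agent.LocalArith

end
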