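import Mathlib
import Pool.Agent.Work.MP_499dc6_lc.CD.Stmts2
import Pool.Agent.Work.MP_499dc6_lc.CD.Final2
import Pool.Agent.Work.MP_499dc6_lc.Bd.B02
import Pool.Agent.Work.MP_499dc6_lc.Bd.B03

/-! Bundle of small proof modules (one section per former module). -/

section

/-!
# Upper bound for all gates of a circuit with local gates
-/

namespace Pool.Agent.Work.MP_499dc6_lc.CD

open MvPolynomial

/-- A product gate. -/
def Ckt_IsProd {K σ : Type} [Field K] {s : ℕ} (F : Fin s → MvPolynomial σ K)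
    (d : Fin s → ℕ) (i : Fin s) : Prop :=
  ∃ k : Fin s → ℕ, (∀ j, k j ≠ 0 → j < i ∧ d j < d i) ∧ F i = ∏ j, F j ^ k j

/-- A local gate. -/
def Ckt_IsLoc {K σ : Type} [Field K] {s : ℕ} (r : ℕ) (F : Fin s → MvPolynomial σ K)
    (d : Fin s → ℕ) (i : Fin s) : Prop :=
  ∃ (Q : MvPolynomial (Fin r) K) (g : Fin r → Fin s), (∀ t, g t < i ∧ d (g t) < d i) ∧
    F i = aeval (fun t => F (g t)) Q

/-- Normal form: every gate is a polynomial of low degree plus a linear combination of product
and local gates. -/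
theorem Ckt_normal {K σ : Type} [Field K] {s : ℕ} (e r : ℕ) (F : Fin s → MvPolynomial σ K)
    (d : Fin s → ℕ) (hF : IsCkt e r F d) (i : Fin s) :
    ∃ (l : MvPolynomial σ K) (c : Fin s → K), l.totalDegree ≤ e ∧
      (∀ j, c j ≠ 0 → d j ≤ d i ∧ (Ckt_IsProd F d j ∨ Ckt_IsLoc r F d j)) ∧
      F i = l + ∑ j, C (c j) * F j := by
  classical
  induction i using WellFoundedLT.induction with
  | ind i ih =>
  have hself : (Ckt_IsProd F d i ∨ Ckt_IsLoc r F d i) →
      ∃ (l : MvPolynomial σ K) (c : Fin s → K), l.totalDegree ≤ e ∧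
      (∀ j, c j ≠ 0 → d j ≤ d i ∧ (Ckt_IsProd F d j ∨ Ckt_IsLoc r F d j)) ∧
      F i = l + ∑ j, C (c j) * F j := by
    intro hprod
    refine ⟨0, Pi.single i 1, by simp, ?_, ?_⟩
    · intro j hj
      have hji : j = i := by
        by_contra hne
        exact hj (Pi.single_eq_of_ne hne _)
      subst hji
      exact ⟨le_rfl, hprod⟩
    · rw [zero_add, Finset.sum_eq_single i]
      · simp
      · intro j _ hji
        simp [Pi.single_eq_of_ne hji]
      · simp
  rcases hF i with ⟨l, c, hl, hc, hi⟩ | hprod | hloc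
  · have ih' : ∀ j : Fin s, ∃ (l' : MvPolynomial σ K) (c' : Fin s → K), j < i →
        (l'.totalDegree ≤ e ∧
        (∀ j', c' j' ≠ 0 → d j' ≤ d j ∧ (Ckt_IsProd F d j' ∨ Ckt_IsLoc r F d j')) ∧
        F j = l' + ∑ j', C (c' j') * F j') := by
      intro j
      by_cases hj : j < i
      · obtain ⟨l', c', h⟩ := ih j hj
        exact ⟨l', c', fun _ => h⟩
      · exact ⟨0, 0, fun h => absurd h hj⟩
    choose L' C' hLC using ih'
    refine ⟨l + ∑ j, C (c j) * L' j, fun j' => ∑ j, c j * C' j j', ?_, ?_, ?_⟩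
    · refine (totalDegree_add _ _).trans (max_le hl ?_)
      refine totalDegree_finsetSum_le fun j _ => ?_
      by_cases hcj : c j = 0
      · simp [hcj]
      · refine (totalDegree_mul _ _).trans ?_
        rw [totalDegree_C, zero_add]
        exact (hLC j (hc j hcj).1).1
    · intro j' hj'
      obtain ⟨j, _, hj⟩ := Finset.exists_ne_zero_of_sum_ne_zero hj'
      have hcj : c j ≠ 0 := left_ne_zero_of_mul hj
      have hC : C' j j' ≠ 0 := right_ne_zero_of_mul hj
      obtain ⟨h1, h2⟩ := hc j hcj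
      obtain ⟨h3, h4⟩ := (hLC j h1).2.1 j' hC
      exact ⟨h3.trans h2, h4⟩
    · have h1 : ∀ j, C (c j) * F j = C (c j) * L' j + ∑ j', C (c j * C' j j') * F j' := by
        intro j
        by_cases hcj : c j = 0
        · simp [hcj]
        · conv_lhs => rw [(hLC j (hc j hcj).1).2.2]
          rw [mul_add, Finset.mul_sum]
          congr 1
          refine Finset.sum_congr rfl fun j' _ => ?_
          rw [C_mul]; ring
      rw [hi, Finset.sum_congr rfl fun j _ => h1 j, Finset.sum_add_distrib, ← add_assoc]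
      congr 1
      rw [Finset.sum_comm]
      refine Finset.sum_congr rfl fun j' _ => ?_
      rw [map_sum, Finset.sum_mul]
  · exact hself (Or.inl hprod)
  · exact hself (Or.inr hloc)

/-- Finite sums. -/
theorem Ckt_sum {Y Z : Type} [Fintype Y] [Fintype Z] {K : Type} [Field K] {al be : ℝ}
    {ι : Type} (J : Finset ι) (f : ι → MvPolynomial (Y ⊕ Z) K) (E : ℝ)
    (h : ∀ j ∈ J, BB al be (f j) E) : BB al be (∑ j ∈ J, f j) (J.card * E) := by
  classical
  induction J using Finset.induction_on with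
  | empty => simpa using BB.zero
  | insert a J ha ih =>
    rw [Finset.sum_insert ha, Finset.card_insert_of_notMem ha]
    have h1 := h a (Finset.mem_insert_self _ _)
    have h2 := ih fun j hj => h j (Finset.mem_insert_of_mem hj)
    refine BB.mono (BB.add h1 h2) (le_of_eq ?_)
    push_cast
    ring

/-- Components of polynomials of degree at most `e`. -/
theorem Ckt_low (hBBphi : S_BBphi) (hPhi : S_Phi) {Y Z : Type} [Fintype Y] [Fintype Z]
    {K : Type} [Field K] {al : ℝ} (hal : 10 ≤ al) (e : ℕ) (he : (e : ℝ) ≤ Real.exp (al / 2))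
    (l : MvPolynomial (Y ⊕ Z) K)
    (hl : l.totalDegree ≤ e) (k : ℕ) (hk : 1 ≤ k) (E : ℝ) (hE : 0 ≤ E) (hEe : k ≤ e → 1 ≤ E) :
    BB al (√2 * al) (homogeneousComponent k l) E := by
  by_cases hke : k ≤ e
  · refine BB.mono (hBBphi Y Z K al (√2 * al) _ k (homogeneousComponent_isHomogeneous k l)) ?_
    refine le_trans (hPhi al k hal hk ?_) ?_
    · have h1 : (k : ℝ) ≤ e := by exact_mod_cast hke
      linarith
    · refine le_trans ?_ (hEe hke)
      rw [Real.exp_le_one_iff]
      have : 0 < (k : ℝ) := by exact_mod_cast hk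
      have : 0 ≤ al / (6 * k) := by positivity
      linarith
  · have h0 : homogeneousComponent k l = 0 := by
      apply homogeneousComponent_eq_zero
      omega
    rw [h0]
    exact BB.mono BB.zero hE

theorem pr_Ckt (hProd : S_Prod) (hSpanBB : S_SpanBB) (hLoc : S_LocalBB) (hStep : S_Step)
    (hRd : S_RdBound) (hBBsmul : S_BBsmul) (hBBphi : S_BBphi) (hPhi : S_Phi) : S_Ckt := by
  intro Y Z _ _ K _ _ al G s D e r F d hal hcirc hd hcc hG hbig
  classical
  have hs1 : (1 : ℝ) ≤ (s : ℝ) + 1 := by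
    have : (0 : ℝ) ≤ s := Nat.cast_nonneg s
    linarith
  have he0 : (0 : ℝ) ≤ e := Nat.cast_nonneg e
  have hr0 : (0 : ℝ) ≤ r := Nat.cast_nonneg r
  have hlog : 0 ≤ Real.log ((s : ℝ) + 1) := Real.log_nonneg hs1
  have hGe : (e : ℝ) ≤ G := by linarith
  have hGr : (r : ℝ) ≤ G := by linarith
  have hG1 : 1 ≤ G := by linarith
  have hexpG : (s : ℝ) + 1 ≤ Real.exp G := by
    have h1 : (s : ℝ) + 1 = Real.exp (Real.log ((s : ℝ) + 1)) :=
      (Real.exp_log (by linarith)).symm
    rw [h1]
    exact Real.exp_le_exp.2 (by linarith)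
  -- the bound for `e`
  have he : (e : ℝ) ≤ Real.exp (al / 2) := by
    refine le_trans ?_ hbig
    have h1 : (1601 * G) ^ 1 ≤ (1601 * G) ^ (9 ^ (2 * D)) :=
      pow_le_pow_right₀ (by linarith) (Nat.one_le_pow _ _ (by norm_num))
    rw [pow_one] at h1
    have h2 : (e : ℝ) ≤ (1601 * G) ^ (9 ^ (2 * D)) := by linarith
    have h3 : (1 : ℝ) ≤ (1601 * G) ^ (9 ^ (2 * D)) := by linarith
    nlinarith
  -- the size condition
  have hsize : ∀ j, j ≤ 2 * D → 2 * (rd G j).1 / (rd G j).2 ≤ Real.exp (al / 2) := by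
    intro j hj
    obtain ⟨h1, h2, h3, h4, h5⟩ := hRd G j hG1
    refine le_trans ?_ hbig
    have hX : (1601 * G) ^ (9 ^ j) ≤ (1601 * G) ^ (9 ^ (2 * D)) :=
      pow_le_pow_right₀ (by linarith) (Nat.pow_le_pow_right (by norm_num) hj)
    have hX0 : 0 ≤ (1601 * G) ^ (9 ^ j) := by positivity
    have h6 : (rd G j).1 * (1 / (rd G j).2) ≤
        (1601 * G) ^ (9 ^ (2 * D)) * (1601 * G) ^ (9 ^ (2 * D)) := by
      apply mul_le_mul (h4.trans hX) (h5.trans hX)
      · positivity
      · positivity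
    calc 2 * (rd G j).1 / (rd G j).2 = 2 * ((rd G j).1 * (1 / (rd G j).2)) := by ring
      _ ≤ 2 * ((1601 * G) ^ (9 ^ (2 * D)) * (1601 * G) ^ (9 ^ (2 * D))) := by linarith
      _ = _ := by ring
  -- combination of the two bounds
  have hcomb : ∀ (j : ℕ), j ≤ 2 * D → ∀ (f : MvPolynomial (Y ⊕ Z) K) (k : ℕ), 1 ≤ k →
      f.IsHomogeneous k → BB al (√2 * al) f (Real.exp ((rd G j).1 - (rd G j).2 * k)) →
      BB al (√2 * al) f (Real.exp (-((rd G j).2 ^ 2 / (4 * (rd G j).1 ^ 2) * k))) := by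
    intro j hj f k hk hf hb
    obtain ⟨h1, h2, h3, h4, h5⟩ := hRd G j hG1
    rcases hStep al (rd G j).1 (rd G j).2 k hal (hG1.trans h1) h2 h3 hk (hsize j hj) with h | h
    · exact BB.mono (hBBphi Y Z K al (√2 * al) f k hf) h
    · exact BB.mono hb h
  -- the claim
  have claim : ∀ D', D' ≤ D → ∀ i, d i ≤ D' → ∀ k, 1 ≤ k →
      BB al (√2 * al) (homogeneousComponent k (F i))
        (Real.exp ((rd G (2 * D')).1 - (rd G (2 * D')).2 * k)) := by
    intro D'
    induction D' with
    | zero =>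
      intro _ i hi k hk
      obtain ⟨l, c, hl, hc, hFi⟩ := Ckt_normal e r F d hcirc i
      have hone : ∀ j, c j ≠ 0 → (F j).totalDegree = 0 := by
        intro j hj
        obtain ⟨h1, ⟨m, hm, hFj⟩ | ⟨Q, g, hg, hFj⟩⟩ := hc j hj
        · have h2 : F j = 1 := by
            rw [hFj]
            refine Finset.prod_eq_one fun j' _ => ?_
            have : m j' = 0 := by
              by_contra hne
              have := (hm j' hne).2
              omega
            rw [this, pow_zero]
          rw [h2, totalDegree_one]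
        · have hr : IsEmpty (Fin r) := ⟨fun t => by
            have := (hg t).2
            omega⟩
          have hQ : Q = C (coeff 0 Q) := by
            ext m
            rw [Subsingleton.elim m 0, coeff_zero_C]
          rw [hFj, hQ, aeval_C]
          exact totalDegree_C _
      have hdeg : (F i).totalDegree ≤ e := by
        rw [hFi]
        refine (totalDegree_add _ _).trans (max_le hl ?_)
        refine totalDegree_finsetSum_le fun j _ => ?_
        by_cases hcj : c j = 0
        · simp [hcj]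
        · refine (totalDegree_mul _ _).trans ?_
          rw [totalDegree_C, hone j hcj]
          exact Nat.zero_le _
      apply Ckt_low hBBphi hPhi hal e he _ hdeg k hk _ (Real.exp_pos _).le
      intro hke
      apply Real.one_le_exp
      have : (k : ℝ) ≤ e := by exact_mod_cast hke
      simp only [rd]
      linarith
    | succ D' ih =>
      intro hD i hi k hk
      have ih' := ih (by omega)
      -- constants
      obtain ⟨a1, a2, a3, -, -⟩ := hRd G (2 * D') hG1
      obtain ⟨b1, b2, b3, -, -⟩ := hRd G (2 * D' + 1) hG1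
      have hrc1 : rd G (2 * D' + 1) =
          (G + 100 * G / ((rd G (2 * D')).2 ^ 2 / (4 * (rd G (2 * D')).1 ^ 2)) ^ 2,
            ((rd G (2 * D')).2 ^ 2 / (4 * (rd G (2 * D')).1 ^ 2)) / 2) := rfl
      have hrc2 : rd G (2 * (D' + 1)) =
          (G + 100 * G / ((rd G (2 * D' + 1)).2 ^ 2 / (4 * (rd G (2 * D' + 1)).1 ^ 2)) ^ 2,
            ((rd G (2 * D' + 1)).2 ^ 2 / (4 * (rd G (2 * D' + 1)).1 ^ 2)) / 2) := rfl
      set l1 := (rd G (2 * D')).2 ^ 2 / (4 * (rd G (2 * D')).1 ^ 2) with hl1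
      set l2 := (rd G (2 * D' + 1)).2 ^ 2 / (4 * (rd G (2 * D' + 1)).1 ^ 2) with hl2
      have hl1pos : 0 < l1 := by
        have : 0 < (rd G (2 * D')).1 := by linarith
        positivity
      have hl2pos : 0 < l2 := by
        have : 0 < (rd G (2 * D' + 1)).1 := by linarith
        positivity
      have hl2le : l2 ≤ 1 := by
        rw [hl2, div_le_one (by have : 0 < (rd G (2 * D' + 1)).1 := by linarith
                                positivity)]
        have h1 : (1 : ℝ) ≤ (rd G (2 * D' + 1)).1 := by linarith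
        nlinarith
      have hl1le : l1 ≤ 1 := by
        rw [hl1, div_le_one (by have : 0 < (rd G (2 * D')).1 := by linarith
                                positivity)]
        have h1 : (1 : ℝ) ≤ (rd G (2 * D')).1 := by linarith
        nlinarith
      have hl21 : l2 ≤ l1 := by
        have h0 : (1 : ℝ) ≤ (rd G (2 * D' + 1)).1 := by linarith
        have h1 : (rd G (2 * D' + 1)).2 = l1 / 2 := by rw [hrc1]
        rw [hl2, div_le_iff₀ (by positivity), h1]
        have h2 : (1 : ℝ) ≤ (rd G (2 * D' + 1)).1 ^ 2 := one_le_pow₀ h0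
        have h3 : l1 * 4 ≤ l1 * (4 * (rd G (2 * D' + 1)).1 ^ 2) := by
          apply mul_le_mul_of_nonneg_left _ hl1pos.le
          linarith
        nlinarith
      have hsq1 : 0 < l1 ^ 2 := by positivity
      have hsq2 : 0 < l2 ^ 2 := by positivity
      have hsqle : l2 ^ 2 ≤ 1 := by nlinarith
      -- product gates
      have hprod : ∀ j, d j ≤ D' + 1 → Ckt_IsProd F d j → ∀ k, 1 ≤ k →
          BB al (√2 * al) (homogeneousComponent k (F j))
            (Real.exp (96 * G / l2 ^ 2 - l2 / 2 * k)) := by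
        intro j hj ⟨m, hm, hFj⟩ k hk
        by_cases hzero : ∃ j', m j' ≠ 0 ∧ F j' = 0
        · obtain ⟨j', hmj', hFj'⟩ := hzero
          have : F j = 0 := by
            rw [hFj]
            apply Finset.prod_eq_zero (Finset.mem_univ j')
            rw [hFj', zero_pow hmj']
          rw [this, map_zero]
          exact BB.mono BB.zero (Real.exp_pos _).le
        · push Not at hzero
          obtain ⟨w, hw1, hw2, hw3⟩ := hProd Y Z K al (√2 * al) (Fin s) F m l1 hl1pos
            (fun j' hj' => hcc j' (hzero j' hj'))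
            (fun j' hj' k' hk' => by
              apply hcomb (2 * D') (by omega) _ k' hk' (homogeneousComponent_isHomogeneous k' _)
              apply ih' j' _ k' hk'
              have := (hm j' hj').2
              omega)
          have hwBB : ∀ k', 1 ≤ k' → BB al (√2 * al) (w k') (Real.exp (-(l2 * k'))) := by
            intro k' hk'
            apply hcomb (2 * D' + 1) (by omega) _ k' hk' (hw1 k')
            refine BB.mono (hw2 k' hk') ?_
            rw [hrc1, Fintype.card_fin]
            simp only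
            have h1 : Real.exp (G + 100 * G / l1 ^ 2 - l1 / 2 * k') =
                Real.exp G * Real.exp (100 * G / l1 ^ 2 - l1 / 2 * k') := by
              rw [← Real.exp_add]; congr 1; ring
            rw [h1]
            apply mul_le_mul (by linarith) _ (Real.exp_pos _).le (Real.exp_pos _).le
            apply Real.exp_le_exp.2
            have h2 : 16 / l1 ^ 2 ≤ 100 * G / l1 ^ 2 := by
              apply div_le_div_of_nonneg_right _ hsq1.le
              linarith
            linarith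
          have h2 := hw3 k hk
          rw [← hFj] at h2
          refine BB.mono (hSpanBB Y Z K al (√2 * al) w _ l2 k hl2pos hwBB h2) ?_
          apply Real.exp_le_exp.2
          have h3 : 16 / l2 ^ 2 ≤ 96 * G / l2 ^ 2 := by
            apply div_le_div_of_nonneg_right _ hsq2.le
            linarith
          linarith
      -- local gates
      have hloc : ∀ j, d j ≤ D' + 1 → Ckt_IsLoc r F d j → ∀ k, 1 ≤ k →
          BB al (√2 * al) (homogeneousComponent k (F j))
            (Real.exp (96 * G / l2 ^ 2 - l2 / 2 * k)) := by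
        intro j hj ⟨Q, g, hg, hFj⟩ k hk
        have h1 := hLoc Y Z K al (√2 * al) r (fun t => F (g t)) Q l1 k hl1pos
          (fun t k' hk' => by
            apply hcomb (2 * D') (by omega) _ k' hk' (homogeneousComponent_isHomogeneous k' _)
            apply ih' (g t) _ k' hk'
            have := (hg t).2
            omega)
        rw [← hFj] at h1
        refine BB.mono h1 ?_
        apply Real.exp_le_exp.2
        have h2 : 96 * (r : ℝ) / l1 ^ 2 ≤ 96 * G / l2 ^ 2 := by
          apply div_le_div₀ (by positivity) (by linarith) hsq2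
          exact pow_le_pow_left₀ hl2pos.le hl21 2
        have hk0 : (0 : ℝ) ≤ k := Nat.cast_nonneg k
        have h3 : l2 / 2 * k ≤ l1 / 2 * k := by
          apply mul_le_mul_of_nonneg_right _ hk0
          linarith
        linarith
      obtain ⟨l, c, hl, hc, hFi⟩ := Ckt_normal e r F d hcirc i
      set E := Real.exp (96 * G / l2 ^ 2 - l2 / 2 * k) with hE
      have hEpos : 0 < E := Real.exp_pos _
      have hEe : k ≤ e → 1 ≤ E := by
        intro hke
        apply Real.one_le_exp
        have h1 : (k : ℝ) ≤ e := by exact_mod_cast hke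
        have h2 : 96 * G ≤ 96 * G / l2 ^ 2 := by
          rw [le_div_iff₀ hsq2]
          nlinarith
        have hk0 : (0 : ℝ) ≤ k := Nat.cast_nonneg k
        have h3 : l2 / 2 * k ≤ 1 * k := by
          apply mul_le_mul_of_nonneg_right _ hk0
          linarith
        linarith
      have hcomp : homogeneousComponent k (F i) =
          homogeneousComponent k l + ∑ j, C (c j) * homogeneousComponent k (F j) := by
        conv_lhs => rw [hFi]
        rw [map_add, map_sum]
        congr 1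
        refine Finset.sum_congr rfl fun j _ => ?_
        rw [homogeneousComponent_C_mul]
      rw [hcomp]
      have hpart1 := Ckt_low hBBphi hPhi hal e he l hl k hk E hEpos.le hEe
      have hpart2 : BB al (√2 * al) (∑ j, C (c j) * homogeneousComponent k (F j))
          ((Finset.univ : Finset (Fin s)).card * E) := by
        apply Ckt_sum
        intro j _
        by_cases hcj : c j = 0
        · rw [hcj, C_0, zero_mul]
          exact BB.mono BB.zero hEpos.le
        · obtain ⟨h1, h2⟩ := hc j hcj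
          rcases h2 with h2 | h2
          · exact hBBsmul Y Z K al (√2 * al) _ _ _ (hprod j (h1.trans hi) h2 k hk)
          · exact hBBsmul Y Z K al (√2 * al) _ _ _ (hloc j (h1.trans hi) h2 k hk)
      refine BB.mono (BB.add hpart1 hpart2) ?_
      rw [Finset.card_univ, Fintype.card_fin, hrc2]
      simp only
      have h1 : Real.exp (G + 96 * G / l2 ^ 2 - l2 / 2 * k) = Real.exp G * E := by
        rw [hE, ← Real.exp_add]; congr 1; ring
      have h2 : Real.exp (G + 96 * G / l2 ^ 2 - l2 / 2 * k) ≤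
          Real.exp (G + 100 * G / l2 ^ 2 - l2 / 2 * k) := by
        apply Real.exp_le_exp.2
        have h3 : 96 * G / l2 ^ 2 ≤ 100 * G / l2 ^ 2 := by
          apply div_le_div_of_nonneg_right _ hsq2.le
          linarith
        linarith
      refine le_trans ?_ h2
      rw [h1]
      nlinarith
  intro i k hk
  exact claim D le_rfl i (hd i) k hk

end Pool.Agent.Work.MP_499dc6_lc.CD

end

section

/-!
# MP_499dc6_lc, CD: substitution into circuits with local gates (helper73)
-/

namespace Pool.Agent.Work.MP_499dc6_lc.CD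

open MvPolynomial

theorem CktSubst_deg {σ τ K : Type} [Field K] (e e' : ℕ) (θ : σ → MvPolynomial τ K)
    (hθ : ∀ i, (θ i).totalDegree ≤ e') (l : MvPolynomial σ K) (hl : l.totalDegree ≤ e) :
    (aeval θ l).totalDegree ≤ e * e' := by
  rw [aeval_def, eval₂_eq]
  refine totalDegree_finsetSum_le fun m hm => ?_
  refine (totalDegree_mul _ _).trans ?_
  have h1 : (algebraMap K (MvPolynomial τ K) (coeff m l)).totalDegree = 0 := totalDegree_C _
  rw [h1, zero_add]
  refine (totalDegree_finsetProd _ _).trans ?_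
  have h2 : ∀ i ∈ m.support, (θ i ^ m i).totalDegree ≤ m i * e' := fun i _ =>
    (totalDegree_pow _ _).trans (Nat.mul_le_mul_left _ (hθ i))
  refine (Finset.sum_le_sum h2).trans ?_
  rw [← Finset.sum_mul]
  exact Nat.mul_le_mul_right _ ((le_totalDegree hm).trans hl)

theorem pr_CktSubst : S_CktSubst := by
  intro σ τ K _ s e e' r F d θ hF hθ i
  rcases hF i with ⟨l, c, hl, hc, hFi⟩ | ⟨k, hk, hFi⟩ | ⟨Q, g, hg, hFi⟩
  · refine Or.inl ⟨aeval θ l, c, CktSubst_deg e e' θ hθ l hl, hc, ?_⟩
    change aeval θ (F i) = _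
    conv_lhs => rw [hFi]
    rw [map_add, map_sum]
    congr 1
    refine Finset.sum_congr rfl fun j _ => ?_
    rw [map_mul, aeval_C]
    rfl
  · refine Or.inr (Or.inl ⟨k, hk, ?_⟩)
    change aeval θ (F i) = _
    conv_lhs => rw [hFi]
    rw [map_prod]
    exact Finset.prod_congr rfl fun j _ => map_pow _ _ _
  · refine Or.inr (Or.inr ⟨Q, g, hg, ?_⟩)
    change aeval θ (F i) = _
    conv_lhs => rw [hFi]
    exact comp_aeval_apply (f := fun t => F (g t))
      (φ := (aeval θ : MvPolynomial σ K →ₐ[K] MvPolynomial τ K)) Q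

end Pool.Agent.Work.MP_499dc6_lc.CD

end

section

/-!
# MP_499dc6_lc, CD: the recursion `rd`
-/

set_option autoImplicit false

namespace Pool.Agent.Work.MP_499dc6_lc.CD

theorem Rd_aux (G sg lm B : ℝ) (hG : 1 ≤ G) (hGs : G ≤ sg) (hl0 : 0 < lm) (hl1 : lm ≤ 1)
    (h1 : 1601 * sg ≤ B) (h2 : 1601 / lm ≤ B) :
    G ≤ G + 100 * G / (lm ^ 2 / (4 * sg ^ 2)) ^ 2 ∧ 0 < lm ^ 2 / (4 * sg ^ 2) / 2 ∧
    lm ^ 2 / (4 * sg ^ 2) / 2 ≤ 1 ∧
    1601 * (G + 100 * G / (lm ^ 2 / (4 * sg ^ 2)) ^ 2) ≤ B ^ 9 ∧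
    1601 / (lm ^ 2 / (4 * sg ^ 2) / 2) ≤ B ^ 9 := by
  have hs1 : 1 ≤ sg := hG.trans hGs
  have hs0 : 0 < sg := by linarith
  have hG0 : 0 < G := by linarith
  obtain ⟨M, hM⟩ : ∃ M, M = B / 1601 := ⟨_, rfl⟩
  have hB : B = 1601 * M := by rw [hM]; ring
  have hM1 : sg ≤ M := by rw [hM, le_div_iff₀ (by norm_num)]; linarith
  have hM2 : 1 / lm ≤ M := by
    rw [hM, le_div_iff₀ (by norm_num)]
    calc 1 / lm * 1601 = 1601 / lm := by ring
      _ ≤ B := h2
  have hMp : 1 ≤ M := hs1.trans hM1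
  have hGM : G ≤ M := hGs.trans hM1
  have e1 : 100 * G / (lm ^ 2 / (4 * sg ^ 2)) ^ 2 = 1600 * (G * (sg ^ 4 * (1 / lm) ^ 4)) := by
    field_simp
    ring
  have e2 : 1601 / (lm ^ 2 / (4 * sg ^ 2) / 2) = 1601 * (8 * (sg ^ 2 * (1 / lm) ^ 2)) := by
    field_simp
    ring
  have q1 : G * (sg ^ 4 * (1 / lm) ^ 4) ≤ M * (M ^ 4 * M ^ 4) := by gcongr
  have q2 : sg ^ 2 * (1 / lm) ^ 2 ≤ M ^ 2 * M ^ 2 := by gcongr
  have q3 : M ^ 4 ≤ M ^ 9 := pow_le_pow_right₀ hMp (by norm_num)
  have q4 : M ≤ M ^ 9 := le_self_pow₀ hMp (by norm_num)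
  have q5 : 0 < M ^ 9 := by positivity
  refine ⟨?_, by positivity, ?_, ?_, ?_⟩
  · have : 0 ≤ 100 * G / (lm ^ 2 / (4 * sg ^ 2)) ^ 2 := by positivity
    linarith
  · have k1 : lm ^ 2 ≤ 1 := pow_le_one₀ hl0.le hl1
    have k2 : 1 ≤ sg ^ 2 := one_le_pow₀ hs1
    rw [div_div, div_le_one (by positivity)]
    linarith
  · rw [e1, hB]
    have : (1601 * M) ^ 9 = 1601 ^ 9 * M ^ 9 := by ring
    rw [this]
    have k3 : G ≤ M ^ 9 := hGM.trans q4
    have k4 : M * (M ^ 4 * M ^ 4) = M ^ 9 := by ring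
    nlinarith
  · rw [e2, hB]
    have : (1601 * M) ^ 9 = 1601 ^ 9 * M ^ 9 := by ring
    rw [this]
    have k4 : M ^ 2 * M ^ 2 = M ^ 4 := by ring
    nlinarith

theorem Rd_all (G : ℝ) (hG : 1 ≤ G) (j : ℕ) : G ≤ (rd G j).1 ∧ 0 < (rd G j).2 ∧
    (rd G j).2 ≤ 1 ∧ 1601 * (rd G j).1 ≤ (1601 * G) ^ (9 ^ j) ∧
    1601 / (rd G j).2 ≤ (1601 * G) ^ (9 ^ j) := by
  induction j with
  | zero =>
    simp only [rd, pow_zero, pow_one]
    refine ⟨le_rfl, one_pos, le_rfl, le_rfl, ?_⟩
    linarith
  | succ j ih =>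
    obtain ⟨i1, i2, i3, i4, i5⟩ := ih
    have h := Rd_aux G (rd G j).1 (rd G j).2 _ hG i1 i2 i3 i4 i5
    have e : (1601 * G) ^ (9 ^ (j + 1)) = ((1601 * G) ^ (9 ^ j)) ^ 9 := by
      rw [← pow_mul, pow_succ]
    rw [e]
    exact h

theorem pr_RdBound : S_RdBound := by
  intro G j hG
  obtain ⟨i1, i2, i3, i4, i5⟩ := Rd_all G hG j
  refine ⟨i1, i2, i3, ?_, ?_⟩
  · linarith
  · have : 1 / (rd G j).2 ≤ 1601 / (rd G j).2 := by
      gcongr
      norm_num
    exact this.trans i5

theorem Rd_step (G : ℝ) (hG : 1 ≤ G) (j : ℕ) : (rd G j).1 ≤ (rd G (j + 1)).1 ∧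
    (rd G (j + 1)).2 ≤ (rd G j).2 := by
  have key : ∀ j, (rd G (j + 1)).2 ≤ (rd G j).2 := by
    intro j
    obtain ⟨i1, i2, i3, -, -⟩ := Rd_all G hG j
    have hs1 : 1 ≤ (rd G j).1 := hG.trans i1
    change (rd G j).2 ^ 2 / (4 * (rd G j).1 ^ 2) / 2 ≤ (rd G j).2
    have k2 : 1 ≤ (rd G j).1 ^ 2 := one_le_pow₀ hs1
    rw [div_div, div_le_iff₀ (by positivity)]
    nlinarith [mul_pos i2 i2]
  refine ⟨?_, key j⟩
  induction j with
  | zero =>
    change G ≤ _
    exact (Rd_all G hG 1).1
  | succ j ih =>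
    obtain ⟨i1, i2, i3, -, -⟩ := Rd_all G hG j
    obtain ⟨p1, p2, p3, -, -⟩ := Rd_all G hG (j + 1)
    have hk := key j
    have hs1 : 1 ≤ (rd G j).1 := hG.trans i1
    have hs2 : 1 ≤ (rd G (j + 1)).1 := hG.trans p1
    have hG0 : 0 ≤ G := by linarith
    change G + 100 * G / ((rd G j).2 ^ 2 / (4 * (rd G j).1 ^ 2)) ^ 2 ≤
      G + 100 * G / ((rd G (j + 1)).2 ^ 2 / (4 * (rd G (j + 1)).1 ^ 2)) ^ 2
    have h1 : (rd G (j + 1)).2 ^ 2 / (4 * (rd G (j + 1)).1 ^ 2) ≤
        (rd G j).2 ^ 2 / (4 * (rd G j).1 ^ 2) := by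
      gcongr
    have h2 : 0 < (rd G (j + 1)).2 ^ 2 / (4 * (rd G (j + 1)).1 ^ 2) := by positivity
    gcongr

theorem pr_RdMono : S_RdMono := by
  intro G i j hG hij
  have h1 : Monotone fun j => (rd G j).1 := monotone_nat_of_le_succ fun j => (Rd_step G hG j).1
  have h2 : Antitone fun j => (rd G j).2 := antitone_nat_of_succ_le fun j => (Rd_step G hG j).2
  exact ⟨h1 hij, h2 hij⟩

end Pool.Agent.Work.MP_499dc6_lc.CD

end

section

/-!
# Constant depth circuits for the permanent: the main theorem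
-/

namespace Pool.Agent.Work.MP_499dc6_lc.CD

open MvPolynomial

theorem all_SpanBB : S_SpanBB := pr_SpanBB pr_BBsmul (pr_BBmul pr_BiMul) pr_BBone pr_Part

theorem all_Prod : S_Prod := pr_Prod (pr_LogDer pr_HcMul) pr_Span all_SpanBB pr_BBsmul

theorem all_LocalBB : S_LocalBB := pr_LocalBB pr_BBsmul (pr_BBmul pr_BiMul) pr_BBone

theorem all_Ckt : S_Ckt :=
  pr_Ckt all_Prod all_SpanBB all_LocalBB (pr_Step pr_Phi) pr_RdBound pr_BBsmul
    (pr_BBphi pr_BiDec) pr_Phi

theorem all_Hard : S_Hard :=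
  pr_Hard (pr_Conf pr_Grow1) pr_Walk pr_Tau pr_TauLt pr_CardWalk

theorem all_BBrank : S_BBrank := pr_BBrank pr_MatMul pr_MatZero pr_Grow1 pr_Grow2 pr_BiMul

/-- The lower bound for the size of constant depth circuits computing the permanent. -/
theorem main (k : Type) [Field k] [CharZero k] (M Δ s e r : ℕ) (hs : 1 ≤ s)
    (F : Fin s → MvPolynomial (Fin M × Fin M) (LaurentSeries k)) (d : Fin s → ℕ)
    (R : MvPolynomial (Fin M × Fin M) (PowerSeries k))
    (hF : IsCkt e r F d) (hd : ∀ i, d i ≤ Δ) (i0 : Fin s)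
    (hi0 : F i0 = MvPolynomial.map (algebraMap (PowerSeries k) (LaurentSeries k))
      (permP (PowerSeries k) M + C PowerSeries.X * R)) :
    (M : ℝ) ≤ (10 ^ 4 * (Real.log (s + 1) + e + r)) ^ (33 * 81 ^ Δ) :=
  main_final (pr_PermWalk pr_Hess) all_Hard (pr_PWhom pr_BiMul pr_TauLt) pr_BiHom pr_RankLow
    all_BBrank pr_Grow2 all_Ckt pr_CktSubst pr_Transl pr_TransTop pr_RdBound k M Δ s e r hs F d R
    hF hd i0 hi0

end Pool.Agent.Work.MP_499dc6_lc.CD

end
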