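import Mathlib

/-! Bundle of small proof modules (one section per former module). -/

section

set_option autoImplicit false

/-! Growth of the powers of a finite dimensional subspace of a commutative algebra when a
product of two of its elements is adjoined. -/

namespace Pool.Agent.Work.MP_499dc6_lc.Deg

open Submodule Module

variable {K A : Type*} [Field K] [CommRing A] [Algebra K A]

theorem pow_sup_eq (M : Submodule K A) (h : A) (D : ℕ) :
    (M ⊔ span K {h}) ^ (D + 1) = M ^ (D + 1) ⊔ span K {h} * (M ⊔ span K {h}) ^ D := by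
  induction D with
  | zero => simp
  | succ D ih =>
    apply le_antisymm
    · rw [pow_succ' (M ⊔ span K {h}) (D + 1), Submodule.sup_mul]
      apply sup_le
      · conv_lhs => rw [ih]
        rw [Submodule.mul_sup]
        apply sup_le
        · rw [← pow_succ']
          exact le_sup_left
        · refine le_trans ?_ le_sup_right
          rw [← mul_assoc, mul_comm M, mul_assoc]
          apply mul_le_mul' le_rfl
          rw [pow_succ']
          exact mul_le_mul' le_sup_left le_rfl
      · exact le_sup_right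
    · apply sup_le
      · exact pow_le_pow_left' le_sup_left _
      · rw [pow_succ' (M ⊔ span K {h}) (D + 1)]
        exact mul_le_mul' le_sup_right le_rfl

theorem span_singleton_mul_eq_map (h : A) (C : Submodule K A) :
    span K {h} * C = C.map (LinearMap.mulLeft K h) := by
  ext x
  rw [mem_span_singleton_mul, mem_map]
  rfl

theorem pow_mono_of_one_mem {M : Submodule K A} (h1 : (1 : A) ∈ M) {a b : ℕ} (hab : a ≤ b) :
    M ^ a ≤ M ^ b :=
  pow_le_pow_right' (Submodule.one_le.2 h1) hab

theorem mul_mem_pow_add {M : Submodule K A} {x y : A} {a b : ℕ} (hx : x ∈ M ^ a)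
    (hy : y ∈ M ^ b) : x * y ∈ M ^ (a + b) := by
  rw [pow_add]
  exact Submodule.mul_mem_mul hx hy

theorem finite_pow (M : Submodule K A) [FiniteDimensional K M] (D : ℕ) :
    FiniteDimensional K ↥(M ^ D) := by
  have h : (M ^ D).FG := ((Submodule.fg_iff_finiteDimensional M).2 inferInstance).pow D
  exact (Submodule.fg_iff_finiteDimensional _).1 h

theorem finrank_sup_le (P Q : Submodule K A) [FiniteDimensional K P] [FiniteDimensional K Q] :
    finrank K ↥(P ⊔ Q) ≤ finrank K P + finrank K Q := by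
  rw [← Submodule.finrank_sup_add_finrank_inf_eq]
  exact Nat.le_add_right _ _

/-- Adding the product of two elements of `M` to `M`. -/
theorem finrank_pow_sup_le (M : Submodule K A) (h1 : (1 : A) ∈ M) [FiniteDimensional K M]
    {u v : A} (hu : u ∈ M) (hv : v ∈ M) (D : ℕ) :
    finrank K ↥((M ⊔ span K {u * v}) ^ (D + 1)) ≤
      finrank K ↥(M ^ (D + 1)) + finrank K ↥(M ^ D) := by
  have hfin : ∀ n, FiniteDimensional K ↥(M ^ n) := finite_pow M
  have hfin' : ∀ n, FiniteDimensional K ↥((M ⊔ span K {u * v}) ^ n) := fun n => finite_pow _ n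
  induction D with
  | zero =>
    rw [pow_sup_eq, pow_zero, span_singleton_mul_eq_map]
    have : FiniteDimensional K ↥((1 : Submodule K A)) := by
      have := hfin 0
      rwa [pow_zero] at this
    refine (finrank_sup_le _ _).trans (Nat.add_le_add_left ?_ _)
    rw [pow_zero]
    exact Submodule.finrank_map_le _ _
  | succ D ih =>
    rw [pow_sup_eq M (u * v) (D + 1)]
    set T := (M ⊔ span K {u * v}) ^ (D + 1) with hT
    have hTfin : FiniteDimensional K T := hfin' _
    have hWT : M ^ D ≤ T :=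
      (pow_mono_of_one_mem h1 (Nat.le_succ D)).trans (pow_le_pow_left' le_sup_left _)
    obtain ⟨q, hq⟩ := Submodule.exists_isCompl (M ^ D)
    have hsup : M ^ D ⊔ (q ⊓ T) = T := by
      rw [← sup_inf_assoc_of_le q hWT, hq.sup_eq_top, top_inf_eq]
    have hinf : M ^ D ⊓ (q ⊓ T) = ⊥ := by
      rw [← inf_assoc, hq.inf_eq_bot, bot_inf_eq]
    have hCfin : FiniteDimensional K ↥(q ⊓ T) :=
      Submodule.finiteDimensional_of_le inf_le_right
    have hrank : finrank K ↥(M ^ D) + finrank K ↥(q ⊓ T) = finrank K T := by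
      have := Submodule.finrank_sup_add_finrank_inf_eq (M ^ D) (q ⊓ T)
      rw [hsup, hinf, finrank_bot] at this
      omega
    have hle : M ^ (D + 1 + 1) ⊔ span K {u * v} * T ≤
        M ^ (D + 1 + 1) ⊔ span K {u * v} * (q ⊓ T) := by
      apply sup_le le_sup_left
      rw [← hsup, Submodule.mul_sup]
      apply sup_le
      · refine le_trans ?_ le_sup_left
        rw [show D + 1 + 1 = 2 + D by omega, pow_add]
        apply mul_le_mul' _ le_rfl
        rw [Submodule.span_singleton_le_iff_mem, pow_two]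
        exact Submodule.mul_mem_mul hu hv
      · rw [hsup]
        exact le_sup_right
    have hfin2 : FiniteDimensional K ↥(span K {u * v} * (q ⊓ T)) := by
      rw [span_singleton_mul_eq_map]
      infer_instance
    refine (Submodule.finrank_mono hle).trans ?_
    refine (finrank_sup_le _ _).trans ?_
    have h2 : finrank K ↥(span K {u * v} * (q ⊓ T)) ≤ finrank K ↥(q ⊓ T) := by
      rw [span_singleton_mul_eq_map]
      exact Submodule.finrank_map_le _ _
    omega

theorem finrank_pow_sup_le_two_mul (M : Submodule K A) (h1 : (1 : A) ∈ M)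
    [FiniteDimensional K M] {u v : A} (hu : u ∈ M) (hv : v ∈ M) (D : ℕ) :
    finrank K ↥((M ⊔ span K {u * v}) ^ D) ≤ 2 * finrank K ↥(M ^ D) := by
  have hfin : ∀ n, FiniteDimensional K ↥(M ^ n) := finite_pow M
  cases D with
  | zero =>
    rw [pow_zero, pow_zero]
    omega
  | succ D =>
    refine (finrank_pow_sup_le M h1 hu hv D).trans ?_
    have h2 : finrank K ↥(M ^ D) ≤ finrank K ↥(M ^ (D + 1)) :=
      Submodule.finrank_mono (pow_mono_of_one_mem h1 (Nat.le_succ D))
    omega

end Pool.Agent.Work.MP_499dc6_lc.Deg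

end

section

set_option autoImplicit false

/-! Chains of products and the Baur-Strassen argument. -/

namespace Pool.Agent.Work.MP_499dc6_lc.Deg

open Submodule Module

variable {K A B : Type*} [Field K] [CommRing A] [Algebra K A] [CommRing B] [Algebra K B]

/-- `Reach M t M'`: the subspace `M'` is obtained from `M` by adjoining, one after the other, `t`
products of two elements of the space reached so far. -/
inductive Reach (M : Submodule K A) : ℕ → Submodule K A → Prop
  | refl : Reach M 0 M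
  | step {t : ℕ} {M' : Submodule K A} (h : Reach M t M') {u v : A} (hu : u ∈ M') (hv : v ∈ M') :
      Reach M (t + 1) (M' ⊔ span K {u * v})

theorem Reach.le {M M' : Submodule K A} {t : ℕ} (h : Reach M t M') : M ≤ M' := by
  induction h with
  | refl => exact le_rfl
  | step _ _ _ ih => exact ih.trans le_sup_left

theorem Reach.trans {M M' M'' : Submodule K A} {s t : ℕ} (h : Reach M s M')
    (h' : Reach M' t M'') : Reach M (s + t) M'' := by
  induction h' with
  | refl => exact h
  | step _ hu hv ih => exact ih.step hu hv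

theorem Reach.finite {M M' : Submodule K A} {t : ℕ} (h : Reach M t M')
    (hM : FiniteDimensional K M) : FiniteDimensional K M' := by
  induction h with
  | refl => exact hM
  | step _ _ _ ih => infer_instance

theorem Reach.finrank_pow_le {M M' : Submodule K A} {t : ℕ} (h : Reach M t M')
    (h1 : (1 : A) ∈ M) (hM : FiniteDimensional K M) (D : ℕ) :
    finrank K ↥(M' ^ D) ≤ 2 ^ t * finrank K ↥(M ^ D) := by
  induction h with
  | refl => simp
  | @step t M' h u v hu hv ih =>
    have := h.finite hM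
    refine (finrank_pow_sup_le_two_mul M' (h.le h1) hu hv D).trans ?_
    rw [pow_succ, mul_comm (2 ^ t) 2, mul_assoc]
    exact Nat.mul_le_mul_left 2 ih

theorem Reach.map (φ : A →ₐ[K] B) {M M' : Submodule K A} {t : ℕ} (h : Reach M t M') :
    Reach (M.map φ.toLinearMap) t (M'.map φ.toLinearMap) := by
  induction h with
  | refl => exact Reach.refl
  | @step t M' h u v hu hv ih =>
    rw [Submodule.map_sup, Submodule.map_span, Set.image_singleton]
    have : φ.toLinearMap (u * v) = φ.toLinearMap u * φ.toLinearMap v := by simp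
    rw [this]
    exact ih.step (mem_map_of_mem hu) (mem_map_of_mem hv)

section BaurStrassen

variable {ι : Type*} (d : ι → Derivation K A A)

/-- The space of families `m * d i l` with `m ∈ M` and `l ∈ L`. -/
def Dsp (M L : Submodule K A) : Submodule K (ι → A) :=
  span K {E | ∃ m ∈ M, ∃ l ∈ L, E = fun i => m * d i l}

theorem Dsp_mono {M M' L : Submodule K A} (h : M ≤ M') : Dsp d M L ≤ Dsp d M' L := by
  apply span_mono
  rintro E ⟨m, hm, l, hl, rfl⟩
  exact ⟨m, h hm, l, hl, rfl⟩

theorem mem_Dsp {M L : Submodule K A} {m l : A} (hm : m ∈ M) (hl : l ∈ L) :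
    (fun i => m * d i l) ∈ Dsp d M L :=
  subset_span ⟨m, hm, l, hl, rfl⟩

theorem Dsp_sup {M L : Submodule K A} {g : A} {E : ι → A}
    (hE : E ∈ Dsp d M (L ⊔ span K {g})) :
    ∃ m ∈ M, ∃ E0 ∈ Dsp d M L, E = E0 + fun i => m * d i g := by
  unfold Dsp at hE
  induction hE using span_induction with
  | mem E hE =>
    obtain ⟨m, hm, l', hl', rfl⟩ := hE
    obtain ⟨l, hl, y, hy, rfl⟩ := Submodule.mem_sup.1 hl'
    obtain ⟨c, rfl⟩ := mem_span_singleton.1 hy
    refine ⟨c • m, M.smul_mem c hm, _, mem_Dsp d hm hl, ?_⟩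
    funext i
    simp only [Pi.add_apply, map_add, Derivation.map_smul]
    rw [mul_add, mul_smul_comm, smul_mul_assoc]
  | zero => exact ⟨0, M.zero_mem, 0, zero_mem _, by funext i; simp⟩
  | add x y _ _ hx hy =>
    obtain ⟨m, hm, E0, hE0, rfl⟩ := hx
    obtain ⟨m', hm', E0', hE0', rfl⟩ := hy
    refine ⟨m + m', M.add_mem hm hm', E0 + E0', add_mem hE0 hE0', ?_⟩
    funext i
    simp only [Pi.add_apply]
    ring
  | smul c x _ hx =>
    obtain ⟨m, hm, E0, hE0, rfl⟩ := hx
    refine ⟨c • m, M.smul_mem c hm, c • E0, Submodule.smul_mem _ c hE0, ?_⟩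
    funext i
    simp only [Pi.add_apply, Pi.smul_apply, smul_add, smul_mul_assoc]

theorem baur_strassen_aux (L0 : Submodule K A)
    (hd : ∀ i, ∀ l ∈ L0, d i l ∈ (1 : Submodule K A)) {k : ℕ} {L : Submodule K A}
    (hL : Reach L0 k L) : ∀ (M : Submodule K A), L ≤ M → ∀ E ∈ Dsp d M L,
      ∃ M', Reach M (2 * k) M' ∧ ∀ i, E i ∈ M' := by
  induction hL with
  | refl =>
    intro M _ E hE
    refine ⟨M, Reach.refl, ?_⟩
    unfold Dsp at hE
    induction hE using span_induction with
    | mem E hE =>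
      obtain ⟨m, hm, l, hl, rfl⟩ := hE
      intro i
      obtain ⟨c, hc⟩ := Submodule.mem_one.1 (hd i l hl)
      show m * d i l ∈ M
      rw [← hc, mul_comm, ← Algebra.smul_def]
      exact M.smul_mem c hm
    | zero => intro i; exact M.zero_mem
    | add x y _ _ hx hy => intro i; exact M.add_mem (hx i) (hy i)
    | smul c x _ hx => intro i; exact M.smul_mem c (hx i)
  | @step k L hL u v hu hv ih =>
    intro M hM E hE
    have hLM : L ≤ M := le_sup_left.trans hM
    obtain ⟨m, hm, E0, hE0, rfl⟩ := Dsp_sup d hE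
    let M1 := M ⊔ span K {m * u}
    let M2 := M1 ⊔ span K {m * v}
    have hR2 : Reach M 2 M2 :=
      (Reach.refl.step hm (hLM hu)).step (le_sup_left (a := M) hm)
        (le_sup_left (a := M) (hLM hv))
    have hMM2 : M ≤ M2 := hR2.le
    have hmu : m * u ∈ M2 := le_sup_left (a := M1) (le_sup_right (a := M) (mem_span_singleton_self _))
    have hmv : m * v ∈ M2 := le_sup_right (a := M1) (mem_span_singleton_self _)
    have hE' : (E0 + fun i => m * d i (u * v)) ∈ Dsp d M2 L := by
      have : (E0 + fun i => m * d i (u * v)) =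
          E0 + ((fun i => (m * u) * d i v) + fun i => (m * v) * d i u) := by
        funext i
        simp only [Pi.add_apply, Derivation.leibniz, smul_eq_mul]
        ring
      rw [this]
      exact add_mem (Dsp_mono d hMM2 hE0) (add_mem (mem_Dsp d hmu hv) (mem_Dsp d hmv hu))
    obtain ⟨M', hM', hmem⟩ := ih M2 (hLM.trans hMM2) _ hE'
    refine ⟨M', ?_, hmem⟩
    have := hR2.trans hM'
    rwa [show 2 + 2 * k = 2 * (k + 1) by ring] at this

/-- Baur-Strassen: all derivatives of `f` are reached with three times as many products. -/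
theorem baur_strassen (L0 : Submodule K A) (h1 : (1 : A) ∈ L0)
    (hd : ∀ i, ∀ l ∈ L0, d i l ∈ (1 : Submodule K A)) {s : ℕ} {L : Submodule K A}
    (hL : Reach L0 s L) {f : A} (hf : f ∈ L) :
    ∃ M, Reach L0 (3 * s) M ∧ f ∈ M ∧ ∀ i, d i f ∈ M := by
  obtain ⟨M, hM, hmem⟩ := baur_strassen_aux d L0 hd hL L le_rfl _ (mem_Dsp d (hL.le h1) hf)
  refine ⟨M, ?_, hM.le hf, fun i => ?_⟩
  · have := hL.trans hM
    rwa [show s + 2 * s = 3 * s by ring] at this
  · have := hmem i
    rwa [one_mul] at this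

end BaurStrassen

end Pool.Agent.Work.MP_499dc6_lc.Deg

end

section

set_option autoImplicit false

/-! Counting dimensions of the images of the spaces of polynomials of bounded degree in the
quotient by a homogeneous ideal with few generators. -/

namespace Pool.Agent.Work.MP_499dc6_lc.Deg

open Submodule Module MvPolynomial

variable {K σ : Type*} [Field K]

/-- The part of degree at most `m`. -/
noncomputable def trunc (m : ℕ) : MvPolynomial σ K →ₗ[K] MvPolynomial σ K :=
  ∑ i ∈ Finset.range (m + 1), homogeneousComponent i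

theorem coeff_trunc (m : ℕ) (p : MvPolynomial σ K) (d : σ →₀ ℕ) :
    coeff d (trunc m p) = if d.degree ≤ m then coeff d p else 0 := by
  classical
  unfold trunc
  rw [LinearMap.sum_apply, coeff_sum]
  simp only [coeff_homogeneousComponent]
  rw [Finset.sum_ite_eq]
  simp only [Finset.mem_range, Nat.lt_succ_iff]

theorem mem_W_iff (m : ℕ) (p : MvPolynomial σ K) :
    p ∈ restrictTotalDegree σ K m ↔ ∀ d : σ →₀ ℕ, m < d.degree → coeff d p = 0 := by
  rw [mem_restrictTotalDegree, totalDegree, Finset.sup_le_iff]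
  constructor
  · intro h d hd
    by_contra hne
    have h1 : d.degree ≤ m := h d (mem_support_iff.2 hne)
    omega
  · intro h d hd
    by_contra hlt
    have hlt' : ¬ (d.degree ≤ m) := hlt
    exact (mem_support_iff.1 hd) (h d (by omega))

theorem trunc_mem (m : ℕ) (p : MvPolynomial σ K) : trunc m p ∈ restrictTotalDegree σ K m := by
  rw [mem_W_iff]
  intro d hd
  rw [coeff_trunc, if_neg (by omega)]

theorem trunc_of_mem {m : ℕ} {p : MvPolynomial σ K} (hp : p ∈ restrictTotalDegree σ K m) :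
    trunc m p = p := by
  ext d
  rw [coeff_trunc]
  split_ifs with h
  · rfl
  · exact ((mem_W_iff m p).1 hp d (by omega)).symm

theorem trunc_of_ord {m : ℕ} {p : MvPolynomial σ K} (hp : p ∈ idealOfVars σ K ^ (m + 1)) :
    trunc m p = 0 := by
  ext d
  rw [coeff_trunc, coeff_zero]
  split_ifs with h
  · exact (mem_pow_idealOfVars_iff' (m + 1) p).1 hp d (by omega)
  · rfl

theorem W_mono {a b : ℕ} (h : a ≤ b) : restrictTotalDegree σ K a ≤ restrictTotalDegree σ K b := by
  intro p hp
  rw [mem_restrictTotalDegree] at *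
  omega

theorem W_mul_le (a b : ℕ) :
    restrictTotalDegree σ K a * restrictTotalDegree σ K b ≤ restrictTotalDegree σ K (a + b) := by
  rw [Submodule.mul_le]
  intro p hp q hq
  rw [mem_restrictTotalDegree] at *
  exact (totalDegree_mul p q).trans (Nat.add_le_add hp hq)

theorem one_mem_W (m : ℕ) : (1 : MvPolynomial σ K) ∈ restrictTotalDegree σ K m := by
  rw [mem_restrictTotalDegree, totalDegree_one]
  exact Nat.zero_le _

theorem W_one_pow_le (n : ℕ) :
    restrictTotalDegree σ K 1 ^ n ≤ restrictTotalDegree σ K n := by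
  induction n with
  | zero =>
    rw [pow_zero, Submodule.one_le]
    exact one_mem_W 0
  | succ n ih =>
    rw [pow_succ]
    exact (mul_le_mul' ih le_rfl).trans (W_mul_le n 1)

/-- The truncation of a multiple of a homogeneous polynomial of positive degree. -/
theorem trunc_mul_homogeneous {j : MvPolynomial σ K} {d : ℕ} (hj : j.IsHomogeneous d)
    (hd : 0 < d) (m : ℕ) (q : MvPolynomial σ K) :
    ∃ q' ∈ restrictTotalDegree σ K (m - 1), trunc m (q * j) = q' * j ∧ (m = 0 → q' = 0) := by
  classical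
  by_cases hm : m < d
  · refine ⟨0, zero_mem _, ?_, fun _ => rfl⟩
    rw [zero_mul]
    ext e
    rw [coeff_trunc, coeff_zero]
    split_ifs with he
    · rw [coeff_mul]
      apply Finset.sum_eq_zero
      rintro ⟨x, y⟩ hxy
      rw [Finset.HasAntidiagonal.mem_antidiagonal] at hxy
      rw [hj.coeff_eq_zero, mul_zero]
      intro hy
      have : (x + y).degree = e.degree := by rw [← hxy]
      rw [map_add] at this
      simp only at hy
      omega
    · rfl
  · refine ⟨trunc (m - d) q, W_mono (by omega) (trunc_mem _ _), ?_, fun h0 => by omega⟩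
    ext e
    rw [coeff_trunc, coeff_mul, coeff_mul]
    split_ifs with he
    · apply Finset.sum_congr rfl
      rintro ⟨x, y⟩ hxy
      rw [Finset.HasAntidiagonal.mem_antidiagonal] at hxy
      by_cases hy : y.degree = d
      · rw [coeff_trunc, if_pos]
        have : (x + y).degree = e.degree := by rw [← hxy]
        rw [map_add] at this
        simp only at hy ⊢
        omega
      · rw [hj.coeff_eq_zero hy, mul_zero, mul_zero]
    · symm
      apply Finset.sum_eq_zero
      rintro ⟨x, y⟩ hxy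
      rw [Finset.HasAntidiagonal.mem_antidiagonal] at hxy
      by_cases hy : y.degree = d
      · rw [coeff_trunc, if_neg, zero_mul]
        have : (x + y).degree = e.degree := by rw [← hxy]
        rw [map_add] at this
        simp only at hy ⊢
        omega
      · rw [hj.coeff_eq_zero hy, mul_zero]

/-- An ideal closed under truncation. -/
def TruncClosed (I : Ideal (MvPolynomial σ K)) : Prop := ∀ p ∈ I, ∀ m, trunc m p ∈ I

theorem truncClosed_bot : TruncClosed (⊥ : Ideal (MvPolynomial σ K)) := by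
  intro p hp m
  rw [Ideal.mem_bot] at hp
  rw [hp, map_zero]
  exact Ideal.zero_mem _

theorem TruncClosed.sup_span {I : Ideal (MvPolynomial σ K)} (hI : TruncClosed I)
    {j : MvPolynomial σ K} {d : ℕ} (hj : j.IsHomogeneous d) (hd : 0 < d) :
    TruncClosed (I ⊔ Ideal.span {j}) := by
  intro p hp m
  obtain ⟨i, hi, y, hy, rfl⟩ := Submodule.mem_sup.1 hp
  obtain ⟨q, rfl⟩ := Ideal.mem_span_singleton'.1 hy
  obtain ⟨q', _, hq', _⟩ := trunc_mul_homogeneous hj hd m q
  rw [map_add, hq']
  exact add_mem (Ideal.mem_sup_left (hI i hi m))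
    (Ideal.mem_sup_right (Ideal.mem_span_singleton'.2 ⟨q', rfl⟩))

/-- The dimension of the image of the polynomials of degree at most `m`. -/
noncomputable def hdim (I : Ideal (MvPolynomial σ K)) (m : ℕ) : ℕ :=
  finrank K ↥((restrictTotalDegree σ K m).map (Ideal.Quotient.mkₐ K I).toLinearMap)

variable [Finite σ]

theorem hdim_mono (I : Ideal (MvPolynomial σ K)) {a b : ℕ} (h : a ≤ b) : hdim I a ≤ hdim I b :=
  Submodule.finrank_mono (Submodule.map_mono (W_mono h))

theorem hdim_step {I : Ideal (MvPolynomial σ K)} (hI : TruncClosed I)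
    {j : MvPolynomial σ K} {d : ℕ} (hj : j.IsHomogeneous d) (hd : 0 < d) (m : ℕ) :
    hdim I m ≤ hdim (I ⊔ Ideal.span {j}) m + (if m = 0 then 0 else hdim I (m - 1)) := by
  set I' := I ⊔ Ideal.span {j} with hI'
  set π := (Ideal.Quotient.mkₐ K I).toLinearMap with hπ
  set π' := (Ideal.Quotient.mkₐ K I').toLinearMap with hπ'
  set W := restrictTotalDegree σ K m with hW
  set N := W ⊓ I'.restrictScalars K with hN
  obtain ⟨q, hq⟩ := Submodule.exists_isCompl N
  set B := q ⊓ W with hB
  have hNW : N ≤ W := inf_le_left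
  have hsup : N ⊔ B = W := by
    rw [hB, ← sup_inf_assoc_of_le q hNW, hq.sup_eq_top, top_inf_eq]
  have hinf : N ⊓ B = ⊥ := by
    rw [hB, ← inf_assoc, hq.inf_eq_bot, bot_inf_eq]
  have hBW : B ≤ W := inf_le_right
  have hBfin : FiniteDimensional K B := Submodule.finiteDimensional_of_le hBW
  -- the dimension of `B`
  have hBdim : finrank K B ≤ finrank K ↥(W.map π') := by
    have hinj : Function.Injective ((π'.domRestrict B).codRestrict (W.map π')
        (fun b => mem_map_of_mem (hBW b.2))) := by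
      rw [← LinearMap.ker_eq_bot, LinearMap.ker_eq_bot']
      intro b hb
      have h0 : π' (b : MvPolynomial σ K) = 0 := congrArg Subtype.val hb
      have h1 : (b : MvPolynomial σ K) ∈ I' := by
        rw [← Ideal.Quotient.eq_zero_iff_mem]
        exact h0
      have h2 : (b : MvPolynomial σ K) ∈ N ⊓ B := ⟨⟨hBW b.2, h1⟩, b.2⟩
      rw [hinf, Submodule.mem_bot] at h2
      exact Subtype.ext h2
    exact LinearMap.finrank_le_finrank_of_injective hinj
  rcases Nat.eq_zero_or_pos m with hm | hm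
  · rw [if_pos hm, add_zero]
    have hle : W.map π ≤ B.map π := by
      rintro _ ⟨w, hw, rfl⟩
      rw [SetLike.mem_coe, ← hsup] at hw
      obtain ⟨n, hn, b, hb, rfl⟩ := Submodule.mem_sup.1 hw
      obtain ⟨i, hi, y, hy, hiy⟩ := Submodule.mem_sup.1 hn.2
      obtain ⟨t, rfl⟩ := Ideal.mem_span_singleton'.1 hy
      obtain ⟨t', _, ht', ht0⟩ := trunc_mul_homogeneous hj hd m t
      have hn' : n ∈ I := by
        rw [← trunc_of_mem hn.1, ← hiy, map_add, ht', ht0 hm, zero_mul, add_zero]
        exact hI i hi m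
      have hn0 : π n = 0 := Ideal.Quotient.eq_zero_iff_mem.2 hn'
      rw [map_add, hn0, zero_add]
      exact mem_map_of_mem hb
    exact ((Submodule.finrank_mono hle).trans (Submodule.finrank_map_le _ _)).trans hBdim
  · rw [if_neg (by omega)]
    have hle : W.map π ≤
        B.map π ⊔ ((restrictTotalDegree σ K (m - 1)).map π).map (LinearMap.mulLeft K (π j)) := by
      rintro _ ⟨w, hw, rfl⟩
      rw [SetLike.mem_coe, ← hsup] at hw
      obtain ⟨n, hn, b, hb, rfl⟩ := Submodule.mem_sup.1 hw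
      obtain ⟨i, hi, y, hy, hiy⟩ := Submodule.mem_sup.1 hn.2
      obtain ⟨t, rfl⟩ := Ideal.mem_span_singleton'.1 hy
      obtain ⟨t', ht'W, ht', _⟩ := trunc_mul_homogeneous hj hd m t
      have hn' : n = trunc m i + t' * j := by
        rw [← trunc_of_mem hn.1, ← hiy, map_add, ht']
      have hi0 : π (trunc m i) = 0 := Ideal.Quotient.eq_zero_iff_mem.2 (hI i hi m)
      rw [map_add, hn', map_add, hi0, zero_add, add_comm]
      refine Submodule.add_mem_sup (mem_map_of_mem hb) ?_
      refine ⟨π t', mem_map_of_mem ht'W, ?_⟩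
      rw [LinearMap.mulLeft_apply, mul_comm]
      exact (map_mul (Ideal.Quotient.mkₐ K I) t' j).symm
    refine (Submodule.finrank_mono hle).trans ?_
    refine (finrank_sup_le _ _).trans ?_
    refine Nat.add_le_add ((Submodule.finrank_map_le _ _).trans hBdim) ?_
    exact Submodule.finrank_map_le _ _

theorem hdim_le_mul {I : Ideal (MvPolynomial σ K)} (hI : TruncClosed I)
    {j : MvPolynomial σ K} {d : ℕ} (hj : j.IsHomogeneous d) (hd : 0 < d) (m : ℕ) :
    hdim I m ≤ (m + 1) * hdim (I ⊔ Ideal.span {j}) m := by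
  induction m with
  | zero =>
    have := hdim_step hI hj hd 0
    simpa using this
  | succ m ih =>
    have h1 := hdim_step hI hj hd (m + 1)
    rw [if_neg (by omega), Nat.add_sub_cancel] at h1
    have h2 : hdim (I ⊔ Ideal.span {j}) m ≤ hdim (I ⊔ Ideal.span {j}) (m + 1) :=
      hdim_mono _ (Nat.le_succ m)
    calc hdim I (m + 1) ≤ hdim (I ⊔ Ideal.span {j}) (m + 1) + hdim I m := h1
      _ ≤ hdim (I ⊔ Ideal.span {j}) (m + 1) + (m + 1) * hdim (I ⊔ Ideal.span {j}) (m + 1) :=
        Nat.add_le_add_left (ih.trans (Nat.mul_le_mul_left _ h2)) _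
      _ = (m + 1 + 1) * hdim (I ⊔ Ideal.span {j}) (m + 1) := by ring

/-- The ideal generated by a finite family of homogeneous polynomials of positive degree. -/
theorem hdim_finset {ι : Type*} (s : Finset ι) (J : ι → MvPolynomial σ K) (e : ι → ℕ)
    (hJ : ∀ i ∈ s, (J i).IsHomogeneous (e i) ∧ 0 < e i) :
    TruncClosed (Ideal.span (J '' s)) ∧
      ∀ m, hdim (⊥ : Ideal (MvPolynomial σ K)) m ≤
        (m + 1) ^ s.card * hdim (Ideal.span (J '' s)) m := by
  classical
  induction s using Finset.induction_on with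
  | empty =>
    simp only [Finset.coe_empty, Set.image_empty, Ideal.span_empty, Finset.card_empty, pow_zero,
      one_mul]
    exact ⟨truncClosed_bot, fun m => le_rfl⟩
  | insert a s ha ih =>
    obtain ⟨h1, h2⟩ := ih (fun i hi => hJ i (Finset.mem_insert_of_mem hi))
    obtain ⟨h3, h4⟩ := hJ a (Finset.mem_insert_self a s)
    have heq : Ideal.span (J '' (insert a s : Finset ι)) =
        Ideal.span (J '' s) ⊔ Ideal.span {J a} := by
      rw [Finset.coe_insert, Set.image_insert_eq, Set.insert_eq, Ideal.span_union, sup_comm]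
    rw [heq]
    refine ⟨h1.sup_span h3 h4, fun m => ?_⟩
    rw [Finset.card_insert_of_notMem ha]
    calc hdim (⊥ : Ideal (MvPolynomial σ K)) m
        ≤ (m + 1) ^ s.card * hdim (Ideal.span (J '' s)) m := h2 m
      _ ≤ (m + 1) ^ s.card * ((m + 1) * hdim (Ideal.span (J '' s) ⊔ Ideal.span {J a}) m) :=
        Nat.mul_le_mul_left _ (hdim_le_mul h1 h3 h4 m)
      _ = (m + 1) ^ (s.card + 1) * hdim (Ideal.span (J '' s) ⊔ Ideal.span {J a}) m := by ring

end Pool.Agent.Work.MP_499dc6_lc.Deg

end

section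

set_option autoImplicit false

/-! A subspace containing approximate powers of all variables has large powers. -/

namespace Pool.Agent.Work.MP_499dc6_lc.Deg

open Submodule Module MvPolynomial

variable {K σ : Type*} [Field K]

theorem pow_le_hdim_bot [Fintype σ] (q : ℕ) :
    (q + 1) ^ Fintype.card σ ≤
      hdim (⊥ : Ideal (MvPolynomial σ K)) (Fintype.card σ * q) := by
  classical
  set W := restrictTotalDegree σ K (Fintype.card σ * q) with hW
  set π := (Ideal.Quotient.mkₐ K (⊥ : Ideal (MvPolynomial σ K))).toLinearMap with hπ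
  let f : (σ → Fin (q + 1)) → (σ →₀ ℕ) := fun α => Finsupp.equivFunOnFinite.symm fun e => (α e : ℕ)
  have hf : Function.Injective f := by
    intro α β h
    funext e
    have := congrArg (fun g : σ →₀ ℕ => g e) h
    exact Fin.ext this
  have hmem : ∀ α, π (monomial (f α) 1) ∈ W.map π := by
    intro α
    apply mem_map_of_mem
    rw [hW, mem_restrictTotalDegree]
    refine (totalDegree_monomial_le _ _).trans ?_
    have h2 : (f α).degree = ∑ e, (α e : ℕ) := by
      rw [Finsupp.degree_eq_sum]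
      rfl
    change (f α).degree ≤ _
    rw [h2]
    calc ∑ e, (α e : ℕ) ≤ ∑ _e : σ, q := Finset.sum_le_sum fun e _ => by
          have := (α e).2; omega
      _ = Fintype.card σ * q := by simp
  have hinj : LinearMap.ker π = ⊥ := by
    rw [LinearMap.ker_eq_bot']
    intro p hp
    have : p ∈ (⊥ : Ideal (MvPolynomial σ K)) := Ideal.Quotient.eq_zero_iff_mem.1 hp
    simpa using this
  have hli : LinearIndependent K (fun α => (⟨π (monomial (f α) 1), hmem α⟩ : W.map π)) := by
    apply LinearIndependent.of_comp (W.map π).subtype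
    have h1 := ((basisMonomials σ K).linearIndependent.comp f hf).map' π hinj
    exact h1
  have h := hli.fintype_card_le_finrank
  rwa [Fintype.card_fun, Fintype.card_fin] at h

section Approx

variable (I : Ideal (MvPolynomial σ K))

/-- The elements of order at least `n` in the quotient. -/
noncomputable def ordIdeal (n : ℕ) : Ideal (MvPolynomial σ K ⧸ I) :=
  Ideal.map (Ideal.Quotient.mk I) (idealOfVars σ K ^ n)

theorem ordIdeal_anti {a b : ℕ} (h : a ≤ b) : ordIdeal I b ≤ ordIdeal I a :=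
  Ideal.map_mono (Ideal.pow_le_pow_right h)

theorem ordIdeal_mul {a b : ℕ} {x y : MvPolynomial σ K ⧸ I} (hx : x ∈ ordIdeal I a)
    (hy : y ∈ ordIdeal I b) : x * y ∈ ordIdeal I (a + b) := by
  unfold ordIdeal
  rw [pow_add, Ideal.map_mul]
  exact Ideal.mul_mem_mul hx hy

theorem X_mem_ordIdeal (e : σ) : Ideal.Quotient.mk I (X e) ∈ ordIdeal I 1 := by
  unfold ordIdeal
  rw [pow_one]
  exact Ideal.mem_map_of_mem _ (Ideal.subset_span ⟨e, rfl⟩)

theorem one_mem_ordIdeal : (1 : MvPolynomial σ K ⧸ I) ∈ ordIdeal I 0 := by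
  unfold ordIdeal
  rw [pow_zero, Ideal.one_eq_top, Ideal.map_top]
  exact trivial

theorem approx_mul {a b : ℕ} {x x' y y' : MvPolynomial σ K ⧸ I} (hx : x ∈ ordIdeal I a)
    (hy : y ∈ ordIdeal I b) (hxx : x - x' ∈ ordIdeal I (a + 1))
    (hyy : y - y' ∈ ordIdeal I (b + 1)) : x * y - x' * y' ∈ ordIdeal I (a + b + 1) := by
  have hy' : y' ∈ ordIdeal I b := by
    have : y' = y - (y - y') := by ring
    rw [this]
    exact sub_mem hy (ordIdeal_anti I (Nat.le_succ b) hyy)
  have : x * y - x' * y' = x * (y - y') + (x - x') * y' := by ring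
  rw [this]
  refine add_mem ?_ ?_
  · have := ordIdeal_mul I hx hyy
    rwa [← add_assoc] at this
  · have := ordIdeal_mul I hxx hy'
    rwa [show a + 1 + b = a + b + 1 by ring] at this

theorem pow_mem_ordIdeal {a : ℕ} {x : MvPolynomial σ K ⧸ I} (hx : x ∈ ordIdeal I a) (n : ℕ) :
    x ^ n ∈ ordIdeal I (a * n) := by
  induction n with
  | zero => simpa using one_mem_ordIdeal I
  | succ n ih =>
    rw [pow_succ, Nat.mul_succ]
    exact ordIdeal_mul I ih hx

theorem approx_pow {a : ℕ} {x x' : MvPolynomial σ K ⧸ I} (hx : x ∈ ordIdeal I a)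
    (hxx : x - x' ∈ ordIdeal I (a + 1)) (n : ℕ) :
    x ^ n - x' ^ n ∈ ordIdeal I (a * n + 1) := by
  induction n with
  | zero => simp
  | succ n ih =>
    rw [pow_succ, pow_succ, Nat.mul_succ]
    exact approx_mul I (pow_mem_ordIdeal I hx n) hx ih hxx

theorem approx_single {M : Submodule K (MvPolynomial σ K ⧸ I)} {e : σ}
    (hX : Ideal.Quotient.mk I (X e) ∈ M) {δ : ℕ} {F : MvPolynomial σ K ⧸ I} (hF : F ∈ M)
    (hFX : Ideal.Quotient.mk I (X e) ^ δ - F ∈ ordIdeal I (δ + 1)) (k : ℕ) :
    ∃ w ∈ M ^ (k / δ + k % δ),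
      Ideal.Quotient.mk I (X e) ^ k - w ∈ ordIdeal I (k + 1) := by
  refine ⟨F ^ (k / δ) * Ideal.Quotient.mk I (X e) ^ (k % δ), ?_, ?_⟩
  · exact mul_mem_pow_add (Submodule.pow_mem_pow M hF _) (Submodule.pow_mem_pow M hX _)
  · have h1 : Ideal.Quotient.mk I (X e) ^ δ ∈ ordIdeal I δ := by
      have := pow_mem_ordIdeal I (X_mem_ordIdeal I e) δ
      rwa [one_mul] at this
    have h2 := approx_pow I h1 hFX (k / δ)
    have h3 := pow_mem_ordIdeal I h1 (k / δ)
    have h4 : Ideal.Quotient.mk I (X e) ^ (k % δ) ∈ ordIdeal I (k % δ) := by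
      have := pow_mem_ordIdeal I (X_mem_ordIdeal I e) (k % δ)
      rwa [one_mul] at this
    have h5 := approx_mul I h3 h4 h2 (y' := Ideal.Quotient.mk I (X e) ^ (k % δ))
      (by rw [sub_self]; exact Ideal.zero_mem _)
    rwa [← pow_mul, ← pow_add, Nat.div_add_mod] at h5

theorem approx_prod {M : Submodule K (MvPolynomial σ K ⧸ I)}
    (hX : ∀ e, Ideal.Quotient.mk I (X e) ∈ M) {δ : ℕ}
    (hF : ∀ e, ∃ F ∈ M, Ideal.Quotient.mk I (X e) ^ δ - F ∈ ordIdeal I (δ + 1))
    (α : σ → ℕ) (s : Finset σ) :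
    (∏ e ∈ s, Ideal.Quotient.mk I (X e) ^ α e) ∈ ordIdeal I (∑ e ∈ s, α e) ∧
    ∃ w ∈ M ^ (∑ e ∈ s, (α e / δ + α e % δ)),
      (∏ e ∈ s, Ideal.Quotient.mk I (X e) ^ α e) - w ∈ ordIdeal I ((∑ e ∈ s, α e) + 1) := by
  classical
  induction s using Finset.induction_on with
  | empty =>
    simp only [Finset.prod_empty, Finset.sum_empty]
    refine ⟨one_mem_ordIdeal I, 1, Submodule.one_le.1 le_rfl, ?_⟩
    rw [sub_self]
    exact Ideal.zero_mem _
  | insert a s ha ih =>
    obtain ⟨h1, w, hw, hw2⟩ := ih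
    obtain ⟨F, hFM, hF2⟩ := hF a
    obtain ⟨w', hw', hw2'⟩ := approx_single I (hX a) hFM hF2 (α a)
    have h4 : Ideal.Quotient.mk I (X a) ^ α a ∈ ordIdeal I (α a) := by
      have := pow_mem_ordIdeal I (X_mem_ordIdeal I a) (α a)
      rwa [one_mul] at this
    rw [Finset.prod_insert ha, Finset.sum_insert ha, Finset.sum_insert ha]
    refine ⟨ordIdeal_mul I h4 h1, w' * w, ?_, approx_mul I h4 h1 hw2' hw2⟩
    exact mul_mem_pow_add hw' hw

theorem approx_monomial [Fintype σ] {M : Submodule K (MvPolynomial σ K ⧸ I)} (h1 : 1 ∈ M)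
    (hX : ∀ e, Ideal.Quotient.mk I (X e) ∈ M) {δ : ℕ} (hδ : 0 < δ)
    (hF : ∀ e, ∃ F ∈ M, Ideal.Quotient.mk I (X e) ^ δ - F ∈ ordIdeal I (δ + 1))
    (D : ℕ) (d : σ →₀ ℕ) (hd : d.degree ≤ δ * D) (c : K) :
    ∃ w ∈ M ^ (D + Fintype.card σ * (δ - 1)),
      Ideal.Quotient.mk I (monomial d c) - w ∈ ordIdeal I (d.degree + 1) := by
  obtain ⟨-, w, hw, hw2⟩ := approx_prod I hX hF d Finset.univ
  have hdeg : ∑ e, d e = d.degree := (Finsupp.degree_eq_sum d).symm
  rw [hdeg] at hw2
  have hmono : Ideal.Quotient.mk I (monomial d c) =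
      c • ∏ e, Ideal.Quotient.mk I (X e) ^ d e := by
    have h2 : (monomial d c : MvPolynomial σ K) = c • ∏ e, X e ^ d e := by
      rw [monomial_eq, Finsupp.prod_fintype _ _ (fun i => pow_zero _), smul_eq_C_mul]
    rw [h2]
    have h3 := (Ideal.Quotient.mkₐ K I).toLinearMap.map_smul c (∏ e, X e ^ d e)
    simp only [AlgHom.toLinearMap_apply, Ideal.Quotient.mkₐ_eq_mk] at h3
    rw [h3, map_prod]
    simp only [map_pow]
  refine ⟨c • w, Submodule.smul_mem _ c (pow_mono_of_one_mem h1 ?_ hw), ?_⟩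
  · rw [Finset.sum_add_distrib]
    apply Nat.add_le_add
    · have : δ * ∑ e, d e / δ ≤ δ * D := by
        rw [Finset.mul_sum]
        refine le_trans (Finset.sum_le_sum fun e _ => Nat.mul_div_le (d e) δ) ?_
        rw [hdeg]
        exact hd
      exact Nat.le_of_mul_le_mul_left this hδ
    · calc ∑ e, d e % δ ≤ ∑ _e : σ, (δ - 1) := Finset.sum_le_sum fun e _ => by
            have := Nat.mod_lt (d e) hδ; omega
        _ = Fintype.card σ * (δ - 1) := by simp
  · rw [hmono, ← smul_sub]
    exact Submodule.smul_of_tower_mem _ c hw2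

theorem approx_ord [Fintype σ] {M : Submodule K (MvPolynomial σ K ⧸ I)} (h1 : 1 ∈ M)
    (hX : ∀ e, Ideal.Quotient.mk I (X e) ∈ M) {δ : ℕ} (hδ : 0 < δ)
    (hF : ∀ e, ∃ F ∈ M, Ideal.Quotient.mk I (X e) ^ δ - F ∈ ordIdeal I (δ + 1))
    (D : ℕ) (n : ℕ) (hn : n ≤ δ * D) (p : MvPolynomial σ K) (hp : p ∈ idealOfVars σ K ^ n) :
    ∃ w ∈ M ^ (D + Fintype.card σ * (δ - 1)),
      Ideal.Quotient.mk I p - w ∈ ordIdeal I (n + 1) := by
  classical
  have key : ∀ s : Finset (σ →₀ ℕ), (∀ d ∈ s, n ≤ d.degree) →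
      ∃ w ∈ M ^ (D + Fintype.card σ * (δ - 1)),
        Ideal.Quotient.mk I (∑ d ∈ s, monomial d (coeff d p)) - w ∈ ordIdeal I (n + 1) := by
    intro s
    induction s using Finset.induction_on with
    | empty =>
      intro _
      refine ⟨0, zero_mem _, ?_⟩
      simp
    | insert a s ha ih =>
      intro hs
      obtain ⟨w, hw, hw2⟩ := ih (fun d hd => hs d (Finset.mem_insert_of_mem hd))
      have ha' := hs a (Finset.mem_insert_self a s)
      rw [Finset.sum_insert ha]
      rcases Nat.eq_or_lt_of_le ha' with h | h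
      · obtain ⟨w', hw', hw2'⟩ := approx_monomial I h1 hX hδ hF D a (by omega) (coeff a p)
        rw [← h] at hw2'
        refine ⟨w' + w, add_mem hw' hw, ?_⟩
        rw [map_add, add_sub_add_comm]
        exact add_mem hw2' hw2
      · refine ⟨w, hw, ?_⟩
        rw [map_add, add_sub_assoc]
        refine add_mem ?_ hw2
        apply Ideal.mem_map_of_mem
        rw [mem_pow_idealOfVars_iff']
        intro x hx
        rw [coeff_monomial, if_neg]
        rintro rfl
        omega
  obtain ⟨w, hw, hw2⟩ := key p.support ((mem_pow_idealOfVars_iff n p).1 hp)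
  refine ⟨w, hw, ?_⟩
  rwa [support_sum_monomial_coeff] at hw2

theorem approx_all [Fintype σ] {M : Submodule K (MvPolynomial σ K ⧸ I)} (h1 : 1 ∈ M)
    (hX : ∀ e, Ideal.Quotient.mk I (X e) ∈ M) {δ : ℕ} (hδ : 0 < δ)
    (hF : ∀ e, ∃ F ∈ M, Ideal.Quotient.mk I (X e) ^ δ - F ∈ ordIdeal I (δ + 1))
    (D : ℕ) : ∀ (k n : ℕ), k + n = δ * D + 1 → ∀ p ∈ idealOfVars σ K ^ n,
      ∃ w ∈ M ^ (D + Fintype.card σ * (δ - 1)),
        Ideal.Quotient.mk I p - w ∈ ordIdeal I (δ * D + 1) := by
  intro k
  induction k with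
  | zero =>
    intro n hn p hp
    refine ⟨0, zero_mem _, ?_⟩
    rw [sub_zero, ← hn, zero_add]
    exact Ideal.mem_map_of_mem _ hp
  | succ k ih =>
    intro n hn p hp
    obtain ⟨w, hw, hw2⟩ := approx_ord I h1 hX hδ hF D n (by omega) p hp
    obtain ⟨p', hp', hp2⟩ := (Ideal.mem_map_iff_of_surjective _
      Ideal.Quotient.mk_surjective).1 hw2
    obtain ⟨w', hw', hw2'⟩ := ih (n + 1) (by omega) p' hp'
    refine ⟨w + w', add_mem hw hw', ?_⟩
    rw [hp2] at hw2'
    rwa [sub_sub] at hw2'

/-- The dimension of a power of `M` is at least that of the polynomials of degree at most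
`δ * D` in the quotient. -/
theorem hdim_le_finrank [Fintype σ] (hI : TruncClosed I)
    {M : Submodule K (MvPolynomial σ K ⧸ I)} [FiniteDimensional K M] (h1 : 1 ∈ M)
    (hX : ∀ e, Ideal.Quotient.mk I (X e) ∈ M) {δ : ℕ} (hδ : 0 < δ)
    (hF : ∀ e, ∃ F ∈ M, Ideal.Quotient.mk I (X e) ^ δ - F ∈ ordIdeal I (δ + 1))
    (D : ℕ) : hdim I (δ * D) ≤ finrank K ↥(M ^ (D + Fintype.card σ * (δ - 1))) := by
  have hfin := finite_pow M (D + Fintype.card σ * (δ - 1))
  set P := M ^ (D + Fintype.card σ * (δ - 1)) with hP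
  set π := (Ideal.Quotient.mkₐ K I).toLinearMap with hπ
  set U := (restrictTotalDegree σ K (δ * D)).map π with hU
  set J : Submodule K (MvPolynomial σ K ⧸ I) := (ordIdeal I (δ * D + 1)).restrictScalars K with hJ
  have hUfin : FiniteDimensional K U := inferInstance
  have hUJ : ∀ x ∈ U, x ∈ J → x = 0 := by
    rintro _ ⟨p, hp, rfl⟩ hxJ
    obtain ⟨o, ho, ho2⟩ := (Ideal.mem_map_iff_of_surjective _
      Ideal.Quotient.mk_surjective).1 hxJ
    have h2 : p - o ∈ I := by
      rw [← Ideal.Quotient.eq_zero_iff_mem, map_sub, ho2]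
      exact sub_self _
    have h3 := hI _ h2 (δ * D)
    rw [map_sub, trunc_of_ord ho, sub_zero, trunc_of_mem hp] at h3
    exact Ideal.Quotient.eq_zero_iff_mem.2 h3
  have hle : U.map J.mkQ ≤ P.map J.mkQ := by
    rintro _ ⟨x, ⟨p, hp, rfl⟩, rfl⟩
    obtain ⟨w, hw, hw2⟩ := approx_all I h1 hX hδ hF D (δ * D + 1) 0 rfl p (by simp)
    refine ⟨w, hw, ?_⟩
    symm
    exact (Submodule.Quotient.eq J).2 hw2
  have hinj : finrank K U ≤ finrank K ↥(U.map J.mkQ) := by
    have hinj : Function.Injective ((J.mkQ.domRestrict U).codRestrict (U.map J.mkQ)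
        (fun b => mem_map_of_mem b.2)) := by
      rw [← LinearMap.ker_eq_bot, LinearMap.ker_eq_bot']
      intro b hb
      have h0 : J.mkQ (b : MvPolynomial σ K ⧸ I) = 0 := congrArg Subtype.val hb
      rw [Submodule.mkQ_apply, Submodule.Quotient.mk_eq_zero] at h0
      exact Subtype.ext (hUJ _ b.2 h0)
    exact LinearMap.finrank_le_finrank_of_injective hinj
  exact (hinj.trans (Submodule.finrank_mono hle)).trans (Submodule.finrank_map_le _ _)

end Approx

end Pool.Agent.Work.MP_499dc6_lc.Deg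

end

section

set_option autoImplicit false

/-! The degree bound. -/

namespace Pool.Agent.Work.MP_499dc6_lc.Deg

open Submodule Module MvPolynomial

theorem le_of_pow_le_mul_pow {x y C : ℕ} (h : ∀ k : ℕ, x ^ k ≤ C * y ^ k) : x ≤ y := by
  by_contra hlt
  push Not at hlt
  rcases Nat.eq_zero_or_pos y with rfl | hy
  · have := h 1
    simp at this
    omega
  · have hxy : (1 : ℝ) < (x : ℝ) / y := by
      rw [lt_div_iff₀ (by exact_mod_cast hy), one_mul]
      exact_mod_cast hlt
    obtain ⟨k, hk⟩ := ((tendsto_pow_atTop_atTop_of_one_lt hxy).eventually_gt_atTop (C : ℝ)).exists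
    have h2 : (x : ℝ) ^ k ≤ C * (y : ℝ) ^ k := by exact_mod_cast h k
    rw [div_pow, lt_div_iff₀ (by positivity)] at hk
    linarith

theorem arith_bound (a : ℕ → ℕ) (ha : Monotone a) {N r δ S E : ℕ} (hδ : 2 ≤ δ)
    (hA : ∀ D, a (δ * D) ≤ 2 ^ S * a (D + E))
    (hB : ∀ q, (q + 1) ^ N ≤ (N * q + 1) ^ r * a (N * q)) :
    δ ^ (N - r) ≤ 2 ^ S := by
  rcases Nat.eq_zero_or_pos (N - r) with h0 | hpos
  · rw [h0, pow_zero]
    exact Nat.one_le_two_pow
  have hN : 0 < N := by omega
  let m : ℕ → ℕ := fun k => δ ^ k + 2 * E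
  have hstep : ∀ k, a (m (k + 1)) ≤ 2 ^ S * a (m k) := by
    intro k
    have h1 := hA (δ ^ k + E)
    have h2 : m (k + 1) ≤ δ * (δ ^ k + E) := by
      show δ ^ (k + 1) + 2 * E ≤ δ * (δ ^ k + E)
      rw [mul_add, pow_succ, mul_comm δ (δ ^ k)]
      exact Nat.add_le_add_left (Nat.mul_le_mul_right E hδ) _
    have h3 : δ ^ k + E + E = m k := by show _ = δ ^ k + 2 * E; ring
    rw [h3] at h1
    exact (ha h2).trans h1
  have hiter : ∀ k, a (m k) ≤ (2 ^ S) ^ k * a (m 0) := by
    intro k
    induction k with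
    | zero => simp
    | succ k ih =>
      calc a (m (k + 1)) ≤ 2 ^ S * a (m k) := hstep k
        _ ≤ 2 ^ S * ((2 ^ S) ^ k * a (m 0)) := Nat.mul_le_mul_left _ ih
        _ = (2 ^ S) ^ (k + 1) * a (m 0) := by ring
  apply le_of_pow_le_mul_pow (C := N ^ N * a (m 0))
  intro k
  -- lower bound for `a (m k)`
  have h1 : (m k + 1) ^ N ≤ N ^ N * ((m k + 1) ^ r * a (m k)) := by
    have hq := hB (m k / N)
    have h2 : m k + 1 ≤ N * (m k / N + 1) := by
      have := Nat.lt_mul_div_succ (m k) hN
      exact this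
    calc (m k + 1) ^ N ≤ (N * (m k / N + 1)) ^ N := Nat.pow_le_pow_left h2 N
      _ = N ^ N * (m k / N + 1) ^ N := mul_pow _ _ _
      _ ≤ N ^ N * ((N * (m k / N) + 1) ^ r * a (N * (m k / N))) := Nat.mul_le_mul_left _ hq
      _ ≤ N ^ N * ((m k + 1) ^ r * a (m k)) := by
        apply Nat.mul_le_mul_left
        apply Nat.mul_le_mul
        · apply Nat.pow_le_pow_left
          exact Nat.add_le_add_right (Nat.mul_div_le _ _) 1
        · exact ha (Nat.mul_div_le _ _)
  have h2 : (m k + 1) ^ (N - r) ≤ N ^ N * a (m k) := by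
    have h3 : (m k + 1) ^ N = (m k + 1) ^ r * (m k + 1) ^ (N - r) := by
      rw [← pow_add]; congr 1; omega
    rw [h3] at h1
    have hpos' : 0 < (m k + 1) ^ r := by positivity
    apply Nat.le_of_mul_le_mul_left _ hpos'
    calc (m k + 1) ^ r * (m k + 1) ^ (N - r) ≤ N ^ N * ((m k + 1) ^ r * a (m k)) := h1
      _ = (m k + 1) ^ r * (N ^ N * a (m k)) := by ring
  calc (δ ^ (N - r)) ^ k = (δ ^ k) ^ (N - r) := by rw [← pow_mul, ← pow_mul, mul_comm]
    _ ≤ (m k + 1) ^ (N - r) := Nat.pow_le_pow_left (by show δ ^ k ≤ δ ^ k + 2 * E + 1; omega) _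
    _ ≤ N ^ N * a (m k) := h2
    _ ≤ N ^ N * ((2 ^ S) ^ k * a (m 0)) := Nat.mul_le_mul_left _ (hiter k)
    _ = N ^ N * a (m 0) * (2 ^ S) ^ k := by ring

variable {K σ : Type*} [Field K] [Fintype σ]

theorem degree_bound_aux (I : Ideal (MvPolynomial σ K)) (hI : TruncClosed I) {r : ℕ}
    (hcount : ∀ m, hdim (⊥ : Ideal (MvPolynomial σ K)) m ≤ (m + 1) ^ r * hdim I m)
    {δ : ℕ} (hδ : 2 ≤ δ) {S : ℕ} {M0 M : Submodule K (MvPolynomial σ K ⧸ I)} (h1 : 1 ∈ M0)
    (hX : ∀ v, Ideal.Quotient.mk I (X v) ∈ M)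
    (hM0 : M0 ≤ (restrictTotalDegree σ K 1).map (Ideal.Quotient.mkₐ K I).toLinearMap)
    (hM : Reach M0 S M)
    (hF : ∀ v, ∃ F ∈ M, Ideal.Quotient.mk I (X v) ^ δ - F ∈ ordIdeal I (δ + 1)) :
    δ ^ (Fintype.card σ - r) ≤ 2 ^ S := by
  have hfin0 : FiniteDimensional K M0 := Submodule.finiteDimensional_of_le hM0
  have hfin : FiniteDimensional K M := hM.finite hfin0
  apply arith_bound (hdim I) (fun a b h => hdim_mono I h) (N := Fintype.card σ)
    (E := Fintype.card σ * (δ - 1)) hδ
  · intro D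
    refine (hdim_le_finrank I hI (hM.le h1) hX (by omega) hF D).trans ?_
    refine (hM.finrank_pow_le h1 hfin0 _).trans ?_
    apply Nat.mul_le_mul_left
    apply Submodule.finrank_mono
    refine (pow_le_pow_left' hM0 _).trans ?_
    rw [← Submodule.map_pow]
    exact Submodule.map_mono (W_one_pow_le _)
  · intro q
    exact (pow_le_hdim_bot q).trans (hcount _)

/-- The degree bound. If a space of polynomials reached with `S` products contains, modulo the
ideal generated by `r` homogeneous polynomials of positive degree, elements which agree to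
leading order with the `δ`-th powers of all `N` variables, then `δ ^ (N - r) ≤ 2 ^ S`. -/
theorem degree_bound {ι : Type*} (s : Finset ι) (J : ι → MvPolynomial σ K) (e : ι → ℕ)
    (hJ : ∀ i ∈ s, (J i).IsHomogeneous (e i) ∧ 0 < e i) {δ : ℕ} (hδ : 2 ≤ δ) {S : ℕ}
    {M0 M : Submodule K (MvPolynomial σ K ⧸ Ideal.span (J '' s))} (h1 : 1 ∈ M0)
    (hX : ∀ v, Ideal.Quotient.mk (Ideal.span (J '' s)) (X v) ∈ M)
    (hM0 : M0 ≤ (restrictTotalDegree σ K 1).map
      (Ideal.Quotient.mkₐ K (Ideal.span (J '' s))).toLinearMap)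
    (hM : Reach M0 S M)
    (hF : ∀ v, ∃ F ∈ M, Ideal.Quotient.mk (Ideal.span (J '' s)) (X v) ^ δ - F ∈
      ordIdeal (Ideal.span (J '' s)) (δ + 1)) :
    δ ^ (Fintype.card σ - s.card) ≤ 2 ^ S := by
  obtain ⟨hI, hcount⟩ := hdim_finset s J e hJ
  exact degree_bound_aux _ hI hcount hδ h1 hX hM0 hM hF

end Pool.Agent.Work.MP_499dc6_lc.Deg

end

section

set_option autoImplicit false

/-! The degree bound for general leading forms. -/

namespace Pool.Agent.Work.MP_499dc6_lc.Deg

open Submodule Module MvPolynomial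

variable {K σ : Type*} [Field K]

theorem trunc_mul_homogeneous' {j : MvPolynomial σ K} {d : ℕ} (hj : j.IsHomogeneous d)
    {m : ℕ} (hm : d ≤ m) (q : MvPolynomial σ K) : trunc m (q * j) = trunc (m - d) q * j := by
  classical
  ext e
  rw [coeff_trunc, coeff_mul, coeff_mul]
  split_ifs with he
  · apply Finset.sum_congr rfl
    rintro ⟨x, y⟩ hxy
    rw [Finset.HasAntidiagonal.mem_antidiagonal] at hxy
    by_cases hy : y.degree = d
    · rw [coeff_trunc, if_pos]
      have : (x + y).degree = e.degree := by rw [← hxy]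
      rw [map_add] at this
      simp only at hy ⊢
      omega
    · rw [hj.coeff_eq_zero hy, mul_zero, mul_zero]
  · symm
    apply Finset.sum_eq_zero
    rintro ⟨x, y⟩ hxy
    rw [Finset.HasAntidiagonal.mem_antidiagonal] at hxy
    by_cases hy : y.degree = d
    · rw [coeff_trunc, if_neg, zero_mul]
      have : (x + y).degree = e.degree := by rw [← hxy]
      rw [map_add] at this
      simp only at hy ⊢
      omega
    · rw [hj.coeff_eq_zero hy, mul_zero]

theorem sub_trunc_mem (m : ℕ) (p : MvPolynomial σ K) :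
    p - trunc m p ∈ idealOfVars σ K ^ (m + 1) := by
  rw [mem_pow_idealOfVars_iff']
  intro d hd
  rw [coeff_sub, coeff_trunc, if_pos (by omega), sub_self]

theorem homogeneous_mem_pow {p : MvPolynomial σ K} {d : ℕ} (hp : p.IsHomogeneous d) :
    p ∈ idealOfVars σ K ^ d := by
  rw [mem_pow_idealOfVars_iff']
  intro e he
  exact hp.coeff_eq_zero (by omega)

section Approx

variable (I : Ideal (MvPolynomial σ K))

theorem monomial_mem_pow [Fintype σ] {M : Submodule K (MvPolynomial σ K ⧸ I)}
    (hX : ∀ e, Ideal.Quotient.mk I (X e) ∈ M) (d : σ →₀ ℕ) (c : K) :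
    Ideal.Quotient.mk I (monomial d c) ∈ M ^ d.degree := by
  classical
  have hmono : Ideal.Quotient.mk I (monomial d c) =
      c • ∏ e, Ideal.Quotient.mk I (X e) ^ d e := by
    have h2 : (monomial d c : MvPolynomial σ K) = c • ∏ e, X e ^ d e := by
      rw [monomial_eq, Finsupp.prod_fintype _ _ (fun i => pow_zero _), smul_eq_C_mul]
    rw [h2]
    have h3 := (Ideal.Quotient.mkₐ K I).toLinearMap.map_smul c (∏ e, X e ^ d e)
    simp only [AlgHom.toLinearMap_apply, Ideal.Quotient.mkₐ_eq_mk] at h3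
    rw [h3, map_prod]
    simp only [map_pow]
  rw [hmono]
  apply Submodule.smul_mem
  rw [Finsupp.degree_eq_sum]
  generalize (Finset.univ : Finset σ) = s
  induction s using Finset.induction_on with
  | empty =>
    simp only [Finset.prod_empty, Finset.sum_empty]
    exact Submodule.one_le.1 le_rfl
  | insert a s ha ih =>
    rw [Finset.prod_insert ha, Finset.sum_insert ha]
    exact mul_mem_pow_add (Submodule.pow_mem_pow M (hX a) _) ih

theorem W_mem_pow [Fintype σ] {M : Submodule K (MvPolynomial σ K ⧸ I)} (h1 : 1 ∈ M)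
    (hX : ∀ e, Ideal.Quotient.mk I (X e) ∈ M) {n : ℕ} {p : MvPolynomial σ K}
    (hp : p ∈ restrictTotalDegree σ K n) : Ideal.Quotient.mk I p ∈ M ^ n := by
  classical
  rw [← support_sum_monomial_coeff p, map_sum]
  apply Submodule.sum_mem
  intro d hd
  refine pow_mono_of_one_mem h1 ?_ (monomial_mem_pow I hX d _)
  by_contra hlt
  exact (mem_support_iff.1 hd) ((mem_W_iff n p).1 hp d (by omega))

theorem approx_gen [Fintype σ] (hI : TruncClosed I) {τ : Type*} [Fintype τ]
    {M : Submodule K (MvPolynomial σ K ⧸ I)} (h1 : 1 ∈ M)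
    (hX : ∀ e, Ideal.Quotient.mk I (X e) ∈ M) {δ : ℕ} (hδ : 0 < δ)
    (G : τ → MvPolynomial σ K) (hG : ∀ t, (G t).IsHomogeneous δ)
    (hF : ∀ t, ∃ F ∈ M, Ideal.Quotient.mk I (G t) - F ∈ ordIdeal I (δ + 1))
    {E : ℕ} (hδE : δ < E) (hE : idealOfVars σ K ^ E ≤ Ideal.span (Set.range G) ⊔ I) :
    ∀ n : ℕ, ∀ p ∈ idealOfVars σ K ^ n, ∃ w ∈ M ^ (n / δ + E),
      Ideal.Quotient.mk I p - w ∈ ordIdeal I (n + 1) := by
  classical
  intro n
  induction n using Nat.strong_induction_on with
  | _ n ih =>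
    intro p hp
    rcases Nat.lt_or_ge n E with hn | hn
    · refine ⟨Ideal.Quotient.mk I (trunc n p), ?_, ?_⟩
      · exact pow_mono_of_one_mem h1 (hn.le.trans (Nat.le_add_left _ _))
          (W_mem_pow I h1 hX (trunc_mem n p))
      · rw [← map_sub]
        exact Ideal.mem_map_of_mem _ (sub_trunc_mem n p)
    · have hpE : p ∈ Ideal.span (Set.range G) ⊔ I := hE (Ideal.pow_le_pow_right hn hp)
      obtain ⟨g, hg, i, hi, hgi⟩ := Submodule.mem_sup.1 hpE
      obtain ⟨h, hh⟩ := Ideal.mem_span_range_iff_exists_fun.1 hg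
      obtain ⟨m, rfl⟩ : ∃ m, n = m + 1 := ⟨n - 1, by omega⟩
      have hp0 : trunc m p = 0 := trunc_of_ord hp
      let h' : τ → MvPolynomial σ K := fun t => h t - trunc (m - δ) (h t)
      have hp' : p = ∑ t, h' t * G t + (i - trunc m i) := by
        have h3 : p = p - trunc m p := by rw [hp0, sub_zero]
        rw [h3, ← hgi, ← hh, map_add, map_sum]
        have h4 : ∀ t, trunc m (h t * G t) = trunc (m - δ) (h t) * G t := fun t =>
          trunc_mul_homogeneous' (hG t) (by omega) (h t)
        simp only [h4, h', sub_mul, Finset.sum_sub_distrib]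
        ring
      have hi' : i - trunc m i ∈ I := sub_mem hi (hI i hi m)
      have hmk : Ideal.Quotient.mk I p =
          ∑ t, Ideal.Quotient.mk I (h' t) * Ideal.Quotient.mk I (G t) := by
        conv_lhs => rw [hp']
        rw [map_add, Ideal.Quotient.eq_zero_iff_mem.2 hi', add_zero, map_sum]
        simp only [map_mul]
      have hh' : ∀ t, h' t ∈ idealOfVars σ K ^ (m + 1 - δ) := by
        intro t
        have := sub_trunc_mem (m - δ) (h t)
        rwa [show m - δ + 1 = m + 1 - δ by omega] at this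
      have key : ∀ t, ∃ w ∈ M ^ ((m + 1) / δ + E),
          Ideal.Quotient.mk I (h' t) * Ideal.Quotient.mk I (G t) - w ∈
            ordIdeal I (m + 1 + 1) := by
        intro t
        obtain ⟨w, hw, hw2⟩ := ih (m + 1 - δ) (by omega) (h' t) (hh' t)
        obtain ⟨F, hFM, hF2⟩ := hF t
        refine ⟨w * F, ?_, ?_⟩
        · have hF1 : F ∈ M ^ 1 := by
            rw [pow_one]
            exact hFM
          have h5 := mul_mem_pow_add hw hF1
          have h6 : (m + 1 - δ) / δ + E + 1 = (m + 1) / δ + E := by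
            have : (m + 1) / δ = (m + 1 - δ) / δ + 1 := Nat.div_eq_sub_div hδ (by omega)
            omega
          rwa [h6] at h5
        · have h7 := approx_mul I (Ideal.mem_map_of_mem _ (hh' t) : _ ∈ ordIdeal I (m + 1 - δ))
            (Ideal.mem_map_of_mem _ (homogeneous_mem_pow (hG t)) : _ ∈ ordIdeal I δ) hw2 hF2
          rwa [show m + 1 - δ + δ + 1 = m + 1 + 1 by omega] at h7
      choose w hw hw2 using key
      refine ⟨∑ t, w t, Submodule.sum_mem _ fun t _ => hw t, ?_⟩
      rw [hmk, ← Finset.sum_sub_distrib]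
      exact Ideal.sum_mem _ fun t _ => hw2 t

theorem approx_gen_all [Fintype σ] (hI : TruncClosed I) {τ : Type*} [Fintype τ]
    {M : Submodule K (MvPolynomial σ K ⧸ I)} (h1 : 1 ∈ M)
    (hX : ∀ e, Ideal.Quotient.mk I (X e) ∈ M) {δ : ℕ} (hδ : 0 < δ)
    (G : τ → MvPolynomial σ K) (hG : ∀ t, (G t).IsHomogeneous δ)
    (hF : ∀ t, ∃ F ∈ M, Ideal.Quotient.mk I (G t) - F ∈ ordIdeal I (δ + 1))
    {E : ℕ} (hδE : δ < E) (hE : idealOfVars σ K ^ E ≤ Ideal.span (Set.range G) ⊔ I)
    (D : ℕ) : ∀ (k n : ℕ), k + n = δ * D + 1 → ∀ p ∈ idealOfVars σ K ^ n,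
      ∃ w ∈ M ^ (D + E), Ideal.Quotient.mk I p - w ∈ ordIdeal I (δ * D + 1) := by
  intro k
  induction k with
  | zero =>
    intro n hn p hp
    refine ⟨0, zero_mem _, ?_⟩
    rw [sub_zero, ← hn, zero_add]
    exact Ideal.mem_map_of_mem _ hp
  | succ k ih =>
    intro n hn p hp
    obtain ⟨w, hw, hw2⟩ := approx_gen I hI h1 hX hδ G hG hF hδE hE n p hp
    have hnD : n / δ ≤ D := by
      apply Nat.div_le_of_le_mul
      omega
    have hw' : w ∈ M ^ (D + E) := pow_mono_of_one_mem h1 (by omega) hw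
    obtain ⟨p', hp', hp2⟩ := (Ideal.mem_map_iff_of_surjective _
      Ideal.Quotient.mk_surjective).1 hw2
    obtain ⟨w', hw', hw2'⟩ := ih (n + 1) (by omega) p' hp'
    refine ⟨w + w', add_mem ‹w ∈ M ^ (D + E)› hw', ?_⟩
    rw [hp2] at hw2'
    rwa [sub_sub] at hw2'

/-- The dimension of a power of `M` is at least that of the polynomials of degree at most
`δ * D` in the quotient. -/
theorem hdim_le_finrank_gen [Fintype σ] (hI : TruncClosed I) {τ : Type*} [Fintype τ]
    {M : Submodule K (MvPolynomial σ K ⧸ I)} [FiniteDimensional K M] (h1 : 1 ∈ M)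
    (hX : ∀ e, Ideal.Quotient.mk I (X e) ∈ M) {δ : ℕ} (hδ : 0 < δ)
    (G : τ → MvPolynomial σ K) (hG : ∀ t, (G t).IsHomogeneous δ)
    (hF : ∀ t, ∃ F ∈ M, Ideal.Quotient.mk I (G t) - F ∈ ordIdeal I (δ + 1))
    {E : ℕ} (hδE : δ < E) (hE : idealOfVars σ K ^ E ≤ Ideal.span (Set.range G) ⊔ I)
    (D : ℕ) : hdim I (δ * D) ≤ finrank K ↥(M ^ (D + E)) := by
  have hfin := finite_pow M (D + E)
  set P := M ^ (D + E) with hP
  set π := (Ideal.Quotient.mkₐ K I).toLinearMap with hπ
  set U := (restrictTotalDegree σ K (δ * D)).map π with hU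
  set J : Submodule K (MvPolynomial σ K ⧸ I) := (ordIdeal I (δ * D + 1)).restrictScalars K with hJ
  have hUfin : FiniteDimensional K U := inferInstance
  have hUJ : ∀ x ∈ U, x ∈ J → x = 0 := by
    rintro _ ⟨p, hp, rfl⟩ hxJ
    obtain ⟨o, ho, ho2⟩ := (Ideal.mem_map_iff_of_surjective _
      Ideal.Quotient.mk_surjective).1 hxJ
    have h2 : p - o ∈ I := by
      rw [← Ideal.Quotient.eq_zero_iff_mem, map_sub, ho2]
      exact sub_self _
    have h3 := hI _ h2 (δ * D)
    rw [map_sub, trunc_of_ord ho, sub_zero, trunc_of_mem hp] at h3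
    exact Ideal.Quotient.eq_zero_iff_mem.2 h3
  have hle : U.map J.mkQ ≤ P.map J.mkQ := by
    rintro _ ⟨x, ⟨p, hp, rfl⟩, rfl⟩
    obtain ⟨w, hw, hw2⟩ := approx_gen_all I hI h1 hX hδ G hG hF hδE hE D (δ * D + 1) 0 rfl p
      (by simp)
    refine ⟨w, hw, ?_⟩
    symm
    exact (Submodule.Quotient.eq J).2 hw2
  have hinj : finrank K U ≤ finrank K ↥(U.map J.mkQ) := by
    have hinj : Function.Injective ((J.mkQ.domRestrict U).codRestrict (U.map J.mkQ)
        (fun b => mem_map_of_mem b.2)) := by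
      rw [← LinearMap.ker_eq_bot, LinearMap.ker_eq_bot']
      intro b hb
      have h0 : J.mkQ (b : MvPolynomial σ K ⧸ I) = 0 := congrArg Subtype.val hb
      rw [Submodule.mkQ_apply, Submodule.Quotient.mk_eq_zero] at h0
      exact Subtype.ext (hUJ _ b.2 h0)
    exact LinearMap.finrank_le_finrank_of_injective hinj
  exact (hinj.trans (Submodule.finrank_mono hle)).trans (Submodule.finrank_map_le _ _)

end Approx

/-- The degree bound for general leading forms. A space of polynomials reached with `S` products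
contains, modulo the ideal generated by `r` homogeneous polynomials of positive degree, elements
with leading forms `G t` of degree `δ`, which together with the ideal contain a power of the
ideal of the variables. Then `δ ^ (N - r) ≤ 2 ^ S`. -/
theorem degree_bound_gen [Fintype σ] {ι : Type*} (s : Finset ι) (J : ι → MvPolynomial σ K)
    (e : ι → ℕ) (hJ : ∀ i ∈ s, (J i).IsHomogeneous (e i) ∧ 0 < e i) {δ : ℕ} (hδ : 2 ≤ δ) {S : ℕ}
    {M0 M : Submodule K (MvPolynomial σ K ⧸ Ideal.span (J '' s))} (h1 : 1 ∈ M0)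
    (hX : ∀ v, Ideal.Quotient.mk (Ideal.span (J '' s)) (X v) ∈ M)
    (hM0 : M0 ≤ (restrictTotalDegree σ K 1).map
      (Ideal.Quotient.mkₐ K (Ideal.span (J '' s))).toLinearMap)
    (hM : Reach M0 S M) {τ : Type*} [Fintype τ]
    (G : τ → MvPolynomial σ K) (hG : ∀ t, (G t).IsHomogeneous δ)
    (hF : ∀ t, ∃ F ∈ M, Ideal.Quotient.mk (Ideal.span (J '' s)) (G t) - F ∈
      ordIdeal (Ideal.span (J '' s)) (δ + 1))
    {E : ℕ} (hE : idealOfVars σ K ^ E ≤ Ideal.span (Set.range G) ⊔ Ideal.span (J '' s)) :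
    δ ^ (Fintype.card σ - s.card) ≤ 2 ^ S := by
  obtain ⟨hI, hcount⟩ := hdim_finset s J e hJ
  have hfin0 : FiniteDimensional K M0 := Submodule.finiteDimensional_of_le hM0
  have hfin : FiniteDimensional K M := hM.finite hfin0
  have hE' : idealOfVars σ K ^ (E + (δ + 1)) ≤
      Ideal.span (Set.range G) ⊔ Ideal.span (J '' s) :=
    (Ideal.pow_le_pow_right (Nat.le_add_right _ _)).trans hE
  apply arith_bound (hdim (Ideal.span (J '' s))) (fun a b h => hdim_mono _ h)
    (N := Fintype.card σ) (E := E + (δ + 1)) hδ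
  · intro D
    refine (hdim_le_finrank_gen _ hI (hM.le h1) hX (by omega) G hG hF (by omega) hE' D).trans ?_
    refine (hM.finrank_pow_le h1 hfin0 _).trans ?_
    apply Nat.mul_le_mul_left
    apply Submodule.finrank_mono
    refine (pow_le_pow_left' hM0 _).trans ?_
    rw [← Submodule.map_pow]
    exact Submodule.map_mono (W_one_pow_le _)
  · intro q
    exact (pow_le_hdim_bot q).trans (hcount _)

end Pool.Agent.Work.MP_499dc6_lc.Deg

end
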