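import Mathlib
import Pool.Agent.Work.MP_499dc6_lc.CD3.Stmts
import Pool.Agent.Work.MP_499dc6_lc.Bd.B07

/-! Bundle of small proof modules (one section per former module). -/

section

/-!
# Upper bound for all gates of a circuit with gates of bounded support
-/

namespace Pool.Agent.Work.MP_499dc6_lc.CD3

open MvPolynomial Pool.Agent.Work.MP_499dc6_lc.CD

/-- A product gate. -/
def Ckt_IsProd {K σ : Type} [Field K] {s : ℕ} (F : Fin s → MvPolynomial σ K)
    (d : Fin s → ℕ) (i : Fin s) : Prop :=
  ∃ k : Fin s → ℕ, (∀ j, k j ≠ 0 → j < i ∧ d j < d i) ∧ F i = ∏ j, F j ^ k j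

/-- A gate of bounded support. -/
def Ckt_IsLoc {K σ : Type} [Field K] {s : ℕ} (r : ℕ) (F : Fin s → MvPolynomial σ K)
    (d : Fin s → ℕ) (i : Fin s) : Prop :=
  ∃ Q : MvPolynomial (Fin s) K, (∀ m ∈ Q.support, m.support.card ≤ r ∧
      ∀ j ∈ m.support, j < i ∧ d j < d i) ∧ F i = aeval F Q

/-- Normal form: every gate is a polynomial of low degree plus a linear combination of product
and local gates. -/
theorem Ckt_normal {K σ : Type} [Field K] {s : ℕ} (e r : ℕ) (F : Fin s → MvPolynomial σ K)
    (d : Fin s → ℕ) (hF : IsCkt e r F d) (i : Fin s) :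
    ∃ (l : MvPolynomial σ K) (c : Fin s → K), l.totalDegree ≤ e ∧
      (∀ j, c j ≠ 0 → d j ≤ d i ∧ (Ckt_IsProd F d j ∨ Ckt_IsLoc r F d j)) ∧
      F i = l + ∑ j, C (c j) * F j := by
  classical
  induction i using WellFoundedLT.induction with
  | ind i ih =>
  have hself : (Ckt_IsProd F d i ∨ Ckt_IsLoc r F d i) →
      ∃ (l : MvPolynomial σ K) (c : Fin s → K), l.totalDegree ≤ e ∧
      (∀ j, c j ≠ 0 → d j ≤ d i ∧ (Ckt_IsProd F d j ∨ Ckt_IsLoc r F d j)) ∧
      F i = l + ∑ j, C (c j) * F j := by
    intro hprod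
    refine ⟨0, Pi.single i 1, by simp, ?_, ?_⟩
    · intro j hj
      have hji : j = i := by
        by_contra hne
        exact hj (Pi.single_eq_of_ne hne _)
      subst hji
      exact ⟨le_rfl, hprod⟩
    · rw [zero_add, Finset.sum_eq_single i]
      · simp
      · intro j _ hji
        simp [Pi.single_eq_of_ne hji]
      · simp
  rcases hF i with ⟨l, c, hl, hc, hi⟩ | hprod | hloc
  · have ih' : ∀ j : Fin s, ∃ (l' : MvPolynomial σ K) (c' : Fin s → K), j < i →
        (l'.totalDegree ≤ e ∧
        (∀ j', c' j' ≠ 0 → d j' ≤ d j ∧ (Ckt_IsProd F d j' ∨ Ckt_IsLoc r F d j')) ∧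
        F j = l' + ∑ j', C (c' j') * F j') := by
      intro j
      by_cases hj : j < i
      · obtain ⟨l', c', h⟩ := ih j hj
        exact ⟨l', c', fun _ => h⟩
      · exact ⟨0, 0, fun h => absurd h hj⟩
    choose L' C' hLC using ih'
    refine ⟨l + ∑ j, C (c j) * L' j, fun j' => ∑ j, c j * C' j j', ?_, ?_, ?_⟩
    · refine (totalDegree_add _ _).trans (max_le hl ?_)
      refine totalDegree_finsetSum_le fun j _ => ?_
      by_cases hcj : c j = 0
      · simp [hcj]
      · refine (totalDegree_mul _ _).trans ?_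
        rw [totalDegree_C, zero_add]
        exact (hLC j (hc j hcj).1).1
    · intro j' hj'
      obtain ⟨j, _, hj⟩ := Finset.exists_ne_zero_of_sum_ne_zero hj'
      have hcj : c j ≠ 0 := left_ne_zero_of_mul hj
      have hC : C' j j' ≠ 0 := right_ne_zero_of_mul hj
      obtain ⟨h1, h2⟩ := hc j hcj
      obtain ⟨h3, h4⟩ := (hLC j h1).2.1 j' hC
      exact ⟨h3.trans h2, h4⟩
    · have h1 : ∀ j, C (c j) * F j = C (c j) * L' j + ∑ j', C (c j * C' j j') * F j' := by
        intro j
        by_cases hcj : c j = 0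
        · simp [hcj]
        · conv_lhs => rw [(hLC j (hc j hcj).1).2.2]
          rw [mul_add, Finset.mul_sum]
          congr 1
          refine Finset.sum_congr rfl fun j' _ => ?_
          rw [C_mul]; ring
      rw [hi, Finset.sum_congr rfl fun j _ => h1 j, Finset.sum_add_distrib, ← add_assoc]
      congr 1
      rw [Finset.sum_comm]
      refine Finset.sum_congr rfl fun j' _ => ?_
      rw [map_sum, Finset.sum_mul]
  · exact hself (Or.inl hprod)
  · exact hself (Or.inr hloc)

/-- Finite sums. -/
theorem Ckt_sum {Y Z : Type} [Fintype Y] [Fintype Z] {K : Type} [Field K] {al be : ℝ}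
    {ι : Type} (J : Finset ι) (f : ι → MvPolynomial (Y ⊕ Z) K) (E : ℝ)
    (h : ∀ j ∈ J, BB al be (f j) E) : BB al be (∑ j ∈ J, f j) (J.card * E) := by
  classical
  induction J using Finset.induction_on with
  | empty => simpa using BB.zero
  | insert a J ha ih =>
    rw [Finset.sum_insert ha, Finset.card_insert_of_notMem ha]
    have h1 := h a (Finset.mem_insert_self _ _)
    have h2 := ih fun j hj => h j (Finset.mem_insert_of_mem hj)
    refine BB.mono (BB.add h1 h2) (le_of_eq ?_)
    push_cast
    ring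

/-- Components of polynomials of degree at most `e`. -/
theorem Ckt_low (hBBphi : S_BBphi) (hPhi : S_Phi) {Y Z : Type} [Fintype Y] [Fintype Z]
    {K : Type} [Field K] {al : ℝ} (hal : 10 ≤ al) (e : ℕ) (he : (e : ℝ) ≤ Real.exp (al / 2))
    (l : MvPolynomial (Y ⊕ Z) K)
    (hl : l.totalDegree ≤ e) (k : ℕ) (hk : 1 ≤ k) (E : ℝ) (hE : 0 ≤ E) (hEe : k ≤ e → 1 ≤ E) :
    BB al (√2 * al) (homogeneousComponent k l) E := by
  by_cases hke : k ≤ e
  · refine BB.mono (hBBphi Y Z K al (√2 * al) _ k (homogeneousComponent_isHomogeneous k l)) ?_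
    refine le_trans (hPhi al k hal hk ?_) ?_
    · have h1 : (k : ℝ) ≤ e := by exact_mod_cast hke
      linarith
    · refine le_trans ?_ (hEe hke)
      rw [Real.exp_le_one_iff]
      have : 0 < (k : ℝ) := by exact_mod_cast hk
      have : 0 ≤ al / (6 * k) := by positivity
      linarith
  · have h0 : homogeneousComponent k l = 0 := by
      apply homogeneousComponent_eq_zero
      omega
    rw [h0]
    exact BB.mono BB.zero hE

theorem pr_Ckt (hProd : S_Prod) (hSpanBB : S_SpanBB) (hLoc : S_JuntaBB) (hStep : S_Step)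
    (hRd : S_RdBound) (hBBsmul : S_BBsmul) (hBBphi : S_BBphi) (hPhi : S_Phi) : S_Ckt := by
  intro Y Z _ _ K _ _ al G s D e r F d hal hcirc hd hcc hG hbig
  classical
  have hs1 : (1 : ℝ) ≤ (s : ℝ) + 1 := by
    have : (0 : ℝ) ≤ s := Nat.cast_nonneg s
    linarith
  have he0 : (0 : ℝ) ≤ e := Nat.cast_nonneg e
  have hr0 : (0 : ℝ) ≤ r := Nat.cast_nonneg r
  have hlog : 0 ≤ Real.log ((s : ℝ) + 1) := Real.log_nonneg hs1
  have hGe : (e : ℝ) ≤ G := by linarith
  have hGr : (r : ℝ) ≤ G := by linarith
  have hG1 : 1 ≤ G := by linarith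
  have hexpG : (s : ℝ) + 1 ≤ Real.exp G := by
    have h1 : (s : ℝ) + 1 = Real.exp (Real.log ((s : ℝ) + 1)) :=
      (Real.exp_log (by linarith)).symm
    rw [h1]
    exact Real.exp_le_exp.2 (by linarith)
  -- the bound for `e`
  have he : (e : ℝ) ≤ Real.exp (al / 2) := by
    refine le_trans ?_ hbig
    have h1 : (1601 * G) ^ 1 ≤ (1601 * G) ^ (9 ^ (2 * D)) :=
      pow_le_pow_right₀ (by linarith) (Nat.one_le_pow _ _ (by norm_num))
    rw [pow_one] at h1
    have h2 : (e : ℝ) ≤ (1601 * G) ^ (9 ^ (2 * D)) := by linarith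
    have h3 : (1 : ℝ) ≤ (1601 * G) ^ (9 ^ (2 * D)) := by linarith
    nlinarith
  -- the size condition
  have hsize : ∀ j, j ≤ 2 * D → 2 * (rd G j).1 / (rd G j).2 ≤ Real.exp (al / 2) := by
    intro j hj
    obtain ⟨h1, h2, h3, h4, h5⟩ := hRd G j hG1
    refine le_trans ?_ hbig
    have hX : (1601 * G) ^ (9 ^ j) ≤ (1601 * G) ^ (9 ^ (2 * D)) :=
      pow_le_pow_right₀ (by linarith) (Nat.pow_le_pow_right (by norm_num) hj)
    have hX0 : 0 ≤ (1601 * G) ^ (9 ^ j) := by positivity
    have h6 : (rd G j).1 * (1 / (rd G j).2) ≤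
        (1601 * G) ^ (9 ^ (2 * D)) * (1601 * G) ^ (9 ^ (2 * D)) := by
      apply mul_le_mul (h4.trans hX) (h5.trans hX)
      · positivity
      · positivity
    calc 2 * (rd G j).1 / (rd G j).2 = 2 * ((rd G j).1 * (1 / (rd G j).2)) := by ring
      _ ≤ 2 * ((1601 * G) ^ (9 ^ (2 * D)) * (1601 * G) ^ (9 ^ (2 * D))) := by linarith
      _ = _ := by ring
  -- combination of the two bounds
  have hcomb : ∀ (j : ℕ), j ≤ 2 * D → ∀ (f : MvPolynomial (Y ⊕ Z) K) (k : ℕ), 1 ≤ k →
      f.IsHomogeneous k → BB al (√2 * al) f (Real.exp ((rd G j).1 - (rd G j).2 * k)) →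
      BB al (√2 * al) f (Real.exp (-((rd G j).2 ^ 2 / (4 * (rd G j).1 ^ 2) * k))) := by
    intro j hj f k hk hf hb
    obtain ⟨h1, h2, h3, h4, h5⟩ := hRd G j hG1
    rcases hStep al (rd G j).1 (rd G j).2 k hal (hG1.trans h1) h2 h3 hk (hsize j hj) with h | h
    · exact BB.mono (hBBphi Y Z K al (√2 * al) f k hf) h
    · exact BB.mono hb h
  -- the claim
  have claim : ∀ D', D' ≤ D → ∀ i, d i ≤ D' → ∀ k, 1 ≤ k →
      BB al (√2 * al) (homogeneousComponent k (F i))
        (Real.exp ((rd G (2 * D')).1 - (rd G (2 * D')).2 * k)) := by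
    intro D'
    induction D' with
    | zero =>
      intro _ i hi k hk
      obtain ⟨l, c, hl, hc, hFi⟩ := Ckt_normal e r F d hcirc i
      have hone : ∀ j, c j ≠ 0 → (F j).totalDegree = 0 := by
        intro j hj
        obtain ⟨h1, ⟨m, hm, hFj⟩ | ⟨Q, hQ', hFj⟩⟩ := hc j hj
        · have h2 : F j = 1 := by
            rw [hFj]
            refine Finset.prod_eq_one fun j' _ => ?_
            have : m j' = 0 := by
              by_contra hne
              have := (hm j' hne).2
              omega
            rw [this, pow_zero]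
          rw [h2, totalDegree_one]
        · have hQ : Q = C (coeff 0 Q) := by
            ext m
            by_cases hm0 : m = 0
            · rw [hm0, coeff_zero_C]
            · rw [coeff_C, if_neg (Ne.symm hm0)]
              by_contra hne
              have hmQ : m ∈ Q.support := mem_support_iff.mpr hne
              obtain ⟨j', hj'⟩ := Finsupp.support_nonempty_iff.mpr hm0
              have := ((hQ' m hmQ).2 j' hj').2
              omega
          rw [hFj, hQ, aeval_C]
          exact totalDegree_C _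
      have hdeg : (F i).totalDegree ≤ e := by
        rw [hFi]
        refine (totalDegree_add _ _).trans (max_le hl ?_)
        refine totalDegree_finsetSum_le fun j _ => ?_
        by_cases hcj : c j = 0
        · simp [hcj]
        · refine (totalDegree_mul _ _).trans ?_
          rw [totalDegree_C, hone j hcj]
          exact Nat.zero_le _
      apply Ckt_low hBBphi hPhi hal e he _ hdeg k hk _ (Real.exp_pos _).le
      intro hke
      apply Real.one_le_exp
      have : (k : ℝ) ≤ e := by exact_mod_cast hke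
      simp only [rd]
      linarith
    | succ D' ih =>
      intro hD i hi k hk
      have ih' := ih (by omega)
      -- constants
      obtain ⟨a1, a2, a3, -, -⟩ := hRd G (2 * D') hG1
      obtain ⟨b1, b2, b3, -, -⟩ := hRd G (2 * D' + 1) hG1
      have hrc1 : rd G (2 * D' + 1) =
          (G + 100 * G / ((rd G (2 * D')).2 ^ 2 / (4 * (rd G (2 * D')).1 ^ 2)) ^ 2,
            ((rd G (2 * D')).2 ^ 2 / (4 * (rd G (2 * D')).1 ^ 2)) / 2) := rfl
      have hrc2 : rd G (2 * (D' + 1)) =
          (G + 100 * G / ((rd G (2 * D' + 1)).2 ^ 2 / (4 * (rd G (2 * D' + 1)).1 ^ 2)) ^ 2,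
            ((rd G (2 * D' + 1)).2 ^ 2 / (4 * (rd G (2 * D' + 1)).1 ^ 2)) / 2) := rfl
      set l1 := (rd G (2 * D')).2 ^ 2 / (4 * (rd G (2 * D')).1 ^ 2) with hl1
      set l2 := (rd G (2 * D' + 1)).2 ^ 2 / (4 * (rd G (2 * D' + 1)).1 ^ 2) with hl2
      have hl1pos : 0 < l1 := by
        have : 0 < (rd G (2 * D')).1 := by linarith
        positivity
      have hl2pos : 0 < l2 := by
        have : 0 < (rd G (2 * D' + 1)).1 := by linarith
        positivity
      have hl2le : l2 ≤ 1 := by
        rw [hl2, div_le_one (by have : 0 < (rd G (2 * D' + 1)).1 := by linarith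
                                positivity)]
        have h1 : (1 : ℝ) ≤ (rd G (2 * D' + 1)).1 := by linarith
        nlinarith
      have hl1le : l1 ≤ 1 := by
        rw [hl1, div_le_one (by have : 0 < (rd G (2 * D')).1 := by linarith
                                positivity)]
        have h1 : (1 : ℝ) ≤ (rd G (2 * D')).1 := by linarith
        nlinarith
      have hl21 : l2 ≤ l1 := by
        have h0 : (1 : ℝ) ≤ (rd G (2 * D' + 1)).1 := by linarith
        have h1 : (rd G (2 * D' + 1)).2 = l1 / 2 := by rw [hrc1]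
        rw [hl2, div_le_iff₀ (by positivity), h1]
        have h2 : (1 : ℝ) ≤ (rd G (2 * D' + 1)).1 ^ 2 := one_le_pow₀ h0
        have h3 : l1 * 4 ≤ l1 * (4 * (rd G (2 * D' + 1)).1 ^ 2) := by
          apply mul_le_mul_of_nonneg_left _ hl1pos.le
          linarith
        nlinarith
      have hsq1 : 0 < l1 ^ 2 := by positivity
      have hsq2 : 0 < l2 ^ 2 := by positivity
      have hsqle : l2 ^ 2 ≤ 1 := by nlinarith
      -- product gates
      have hprod : ∀ j, d j ≤ D' + 1 → Ckt_IsProd F d j → ∀ k, 1 ≤ k →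
          BB al (√2 * al) (homogeneousComponent k (F j))
            (Real.exp (96 * G / l2 ^ 2 - l2 / 2 * k)) := by
        intro j hj ⟨m, hm, hFj⟩ k hk
        by_cases hzero : ∃ j', m j' ≠ 0 ∧ F j' = 0
        · obtain ⟨j', hmj', hFj'⟩ := hzero
          have : F j = 0 := by
            rw [hFj]
            apply Finset.prod_eq_zero (Finset.mem_univ j')
            rw [hFj', zero_pow hmj']
          rw [this, map_zero]
          exact BB.mono BB.zero (Real.exp_pos _).le
        · push Not at hzero
          obtain ⟨w, hw1, hw2, hw3⟩ := hProd Y Z K al (√2 * al) (Fin s) F m l1 hl1pos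
            (fun j' hj' => hcc j' (hzero j' hj'))
            (fun j' hj' k' hk' => by
              apply hcomb (2 * D') (by omega) _ k' hk' (homogeneousComponent_isHomogeneous k' _)
              apply ih' j' _ k' hk'
              have := (hm j' hj').2
              omega)
          have hwBB : ∀ k', 1 ≤ k' → BB al (√2 * al) (w k') (Real.exp (-(l2 * k'))) := by
            intro k' hk'
            apply hcomb (2 * D' + 1) (by omega) _ k' hk' (hw1 k')
            refine BB.mono (hw2 k' hk') ?_
            rw [hrc1, Fintype.card_fin]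
            simp only
            have h1 : Real.exp (G + 100 * G / l1 ^ 2 - l1 / 2 * k') =
                Real.exp G * Real.exp (100 * G / l1 ^ 2 - l1 / 2 * k') := by
              rw [← Real.exp_add]; congr 1; ring
            rw [h1]
            apply mul_le_mul (by linarith) _ (Real.exp_pos _).le (Real.exp_pos _).le
            apply Real.exp_le_exp.2
            have h2 : 16 / l1 ^ 2 ≤ 100 * G / l1 ^ 2 := by
              apply div_le_div_of_nonneg_right _ hsq1.le
              linarith
            linarith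
          have h2 := hw3 k hk
          rw [← hFj] at h2
          refine BB.mono (hSpanBB Y Z K al (√2 * al) w _ l2 k hl2pos hwBB h2) ?_
          apply Real.exp_le_exp.2
          have h3 : 16 / l2 ^ 2 ≤ 96 * G / l2 ^ 2 := by
            apply div_le_div_of_nonneg_right _ hsq2.le
            linarith
          linarith
      -- local gates
      have hloc : ∀ j, d j ≤ D' + 1 → Ckt_IsLoc r F d j → ∀ k, 1 ≤ k →
          BB al (√2 * al) (homogeneousComponent k (F j))
            (Real.exp (96 * G / l2 ^ 2 - l2 / 2 * k)) := by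
        intro j hj ⟨Q, hQ, hFj⟩ k hk
        have h1 := hLoc Y Z K al (√2 * al) s r F Q l1 k hl1pos hk
          (fun m hm => ⟨(hQ m hm).1, fun t ht k' hk' => by
            apply hcomb (2 * D') (by omega) _ k' hk' (homogeneousComponent_isHomogeneous k' _)
            apply ih' t _ k' hk'
            have := ((hQ m hm).2 t ht).2
            omega⟩)
        rw [← hFj] at h1
        refine BB.mono h1 ?_
        have hsr : (s : ℝ) ^ r ≤ Real.exp (G ^ 2) := by
          have h0 : (0 : ℝ) ≤ s := Nat.cast_nonneg s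
          calc (s : ℝ) ^ r ≤ ((s : ℝ) + 1) ^ r := pow_le_pow_left₀ h0 (by linarith) r
            _ = Real.exp (r * Real.log ((s : ℝ) + 1)) := by
                rw [mul_comm, Real.exp_mul, Real.exp_log (by linarith), Real.rpow_natCast]
            _ ≤ Real.exp (G ^ 2) := by
                apply Real.exp_le_exp.2
                rw [sq]
                exact mul_le_mul hGr (by linarith) hlog (by linarith)
        have h9 : (s : ℝ) ^ r * Real.exp (96 * r / l1 ^ 2 - l1 / 2 * k) ≤
            Real.exp (G ^ 2) * Real.exp (96 * r / l1 ^ 2 - l1 / 2 * k) :=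
          mul_le_mul_of_nonneg_right hsr (Real.exp_pos _).le
        refine h9.trans ?_
        rw [← Real.exp_add]
        apply Real.exp_le_exp.2
        -- `1 / l2 ^ 2` is large
        have hb : (rd G (2 * D' + 1)).2 = l1 / 2 := by rw [hrc1]
        have hb1 : (rd G (2 * D' + 1)).1 = G + 100 * G / l1 ^ 2 := by rw [hrc1]
        have hsq1le : l1 ^ 2 ≤ 1 := by nlinarith
        have hl2eq : l2 * (16 * (G + 100 * G / l1 ^ 2) ^ 2) = l1 ^ 2 := by
          rw [hl2, hb, hb1]
          have : 0 < G + 100 * G / l1 ^ 2 := by positivity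
          field_simp
          ring
        have hbig2 : 100 * G ≤ (G + 100 * G / l1 ^ 2) := by
          have : 100 * G ≤ 100 * G / l1 ^ 2 := by
            rw [le_div_iff₀ hsq1]
            nlinarith
          linarith
        have hl2G : l2 * (16 * (100 * G) ^ 2) ≤ l1 ^ 2 := by
          rw [← hl2eq]
          apply mul_le_mul_of_nonneg_left _ hl2pos.le
          have := pow_le_pow_left₀ (by linarith : (0 : ℝ) ≤ 100 * G) hbig2 2
          linarith
        -- `l2 ≤ l1 / 2` and `l2 * G ≤ l1 ^ 2 / 2`
        have hlG : l2 * (160000 * G ^ 2) ≤ l1 ^ 2 := by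
          calc l2 * (160000 * G ^ 2) = l2 * (16 * (100 * G) ^ 2) := by ring
            _ ≤ _ := hl2G
        have h2 : G ^ 2 + 96 * (r : ℝ) / l1 ^ 2 ≤ 96 * G / l2 ^ 2 := by
          have h21 : 96 * (r : ℝ) / l1 ^ 2 ≤ 96 * G / l1 ^ 2 := by
            apply div_le_div_of_nonneg_right _ hsq1.le
            linarith
          have h22 : G ^ 2 ≤ G ^ 2 / l1 ^ 2 := by
            rw [le_div_iff₀ hsq1]
            nlinarith [sq_nonneg G]
          have h23 : G ^ 2 + 96 * (r : ℝ) / l1 ^ 2 ≤ 97 * G ^ 2 / l1 ^ 2 := by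
            have : 97 * G ^ 2 / l1 ^ 2 = G ^ 2 / l1 ^ 2 + 96 * G ^ 2 / l1 ^ 2 := by ring
            rw [this]
            have h24 : 96 * G / l1 ^ 2 ≤ 96 * G ^ 2 / l1 ^ 2 := by
              apply div_le_div_of_nonneg_right _ hsq1.le
              nlinarith
            linarith
          refine h23.trans ?_
          rw [div_le_div_iff₀ hsq1 hsq2]
          -- 97 G^2 l2^2 ≤ 96 G l1^2
          have h25 : l2 ^ 2 ≤ l2 := by nlinarith
          have h26 : 97 * G ^ 2 * l2 ^ 2 ≤ 97 * G ^ 2 * l2 :=
            mul_le_mul_of_nonneg_left h25 (by positivity)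
          have h27 : 97 * G ^ 2 * l2 ≤ l1 ^ 2 := by
            have : 0 ≤ l2 * G ^ 2 := by positivity
            nlinarith
          have h28 : l1 ^ 2 ≤ 96 * G * l1 ^ 2 := by nlinarith
          linarith
        have hk0 : (0 : ℝ) ≤ k := Nat.cast_nonneg k
        have h3 : l2 / 2 * k ≤ l1 / 2 * k := by
          apply mul_le_mul_of_nonneg_right _ hk0
          linarith
        linarith
      obtain ⟨l, c, hl, hc, hFi⟩ := Ckt_normal e r F d hcirc i
      set E := Real.exp (96 * G / l2 ^ 2 - l2 / 2 * k) with hE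
      have hEpos : 0 < E := Real.exp_pos _
      have hEe : k ≤ e → 1 ≤ E := by
        intro hke
        apply Real.one_le_exp
        have h1 : (k : ℝ) ≤ e := by exact_mod_cast hke
        have h2 : 96 * G ≤ 96 * G / l2 ^ 2 := by
          rw [le_div_iff₀ hsq2]
          nlinarith
        have hk0 : (0 : ℝ) ≤ k := Nat.cast_nonneg k
        have h3 : l2 / 2 * k ≤ 1 * k := by
          apply mul_le_mul_of_nonneg_right _ hk0
          linarith
        linarith
      have hcomp : homogeneousComponent k (F i) =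
          homogeneousComponent k l + ∑ j, C (c j) * homogeneousComponent k (F j) := by
        conv_lhs => rw [hFi]
        rw [map_add, map_sum]
        congr 1
        refine Finset.sum_congr rfl fun j _ => ?_
        rw [homogeneousComponent_C_mul]
      rw [hcomp]
      have hpart1 := Ckt_low hBBphi hPhi hal e he l hl k hk E hEpos.le hEe
      have hpart2 : BB al (√2 * al) (∑ j, C (c j) * homogeneousComponent k (F j))
          ((Finset.univ : Finset (Fin s)).card * E) := by
        apply Ckt_sum
        intro j _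
        by_cases hcj : c j = 0
        · rw [hcj, C_0, zero_mul]
          exact BB.mono BB.zero hEpos.le
        · obtain ⟨h1, h2⟩ := hc j hcj
          rcases h2 with h2 | h2
          · exact hBBsmul Y Z K al (√2 * al) _ _ _ (hprod j (h1.trans hi) h2 k hk)
          · exact hBBsmul Y Z K al (√2 * al) _ _ _ (hloc j (h1.trans hi) h2 k hk)
      refine BB.mono (BB.add hpart1 hpart2) ?_
      rw [Finset.card_univ, Fintype.card_fin, hrc2]
      simp only
      have h1 : Real.exp (G + 96 * G / l2 ^ 2 - l2 / 2 * k) = Real.exp G * E := by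
        rw [hE, ← Real.exp_add]; congr 1; ring
      have h2 : Real.exp (G + 96 * G / l2 ^ 2 - l2 / 2 * k) ≤
          Real.exp (G + 100 * G / l2 ^ 2 - l2 / 2 * k) := by
        apply Real.exp_le_exp.2
        have h3 : 96 * G / l2 ^ 2 ≤ 100 * G / l2 ^ 2 := by
          apply div_le_div_of_nonneg_right _ hsq2.le
          linarith
        linarith
      refine le_trans ?_ h2
      rw [h1]
      nlinarith
  intro i k hk
  exact claim D le_rfl i (hd i) k hk

end Pool.Agent.Work.MP_499dc6_lc.CD3

end

section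

/-!
# Substitution into circuits with gates of bounded support
-/

namespace Pool.Agent.Work.MP_499dc6_lc.CD3

open MvPolynomial Pool.Agent.Work.MP_499dc6_lc.CD

theorem pr_CktSubst : S_CktSubst := by
  intro σ τ K _ s e e' r F d θ hF hθ i
  rcases hF i with ⟨l, c, hl, hc, hFi⟩ | ⟨k, hk, hFi⟩ | ⟨Q, hQ, hFi⟩
  · refine Or.inl ⟨aeval θ l, c, CktSubst_deg e e' θ hθ l hl, hc, ?_⟩
    change aeval θ (F i) = _
    conv_lhs => rw [hFi]
    rw [map_add, map_sum]
    congr 1
    refine Finset.sum_congr rfl fun j _ => ?_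
    rw [map_mul, aeval_C]
    rfl
  · refine Or.inr (Or.inl ⟨k, hk, ?_⟩)
    change aeval θ (F i) = _
    conv_lhs => rw [hFi]
    rw [map_prod]
    exact Finset.prod_congr rfl fun j _ => map_pow _ _ _
  · refine Or.inr (Or.inr ⟨Q, hQ, ?_⟩)
    change aeval θ (F i) = _
    conv_lhs => rw [hFi]
    exact comp_aeval_apply (f := F)
      (φ := (aeval θ : MvPolynomial σ K →ₐ[K] MvPolynomial τ K)) Q

end Pool.Agent.Work.MP_499dc6_lc.CD3

end

section

/-!
# Gates of bounded support
-/

namespace Pool.Agent.Work.MP_499dc6_lc.CD3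

open MvPolynomial Pool.Agent.Work.MP_499dc6_lc.CD

theorem exists_cover {s r : ℕ} (S : Finset (Fin s)) (hS : S.Nonempty) (hr : S.card ≤ r) :
    ∃ g : Fin r → Fin s, ∀ j, j ∈ S ↔ ∃ t, g t = j := by
  classical
  obtain ⟨a, ha⟩ := hS
  have e := S.equivFin
  refine ⟨fun t => if h : (t : ℕ) < S.card then (e.symm ⟨t, h⟩ : Fin s) else a, ?_⟩
  intro j
  constructor
  · intro hj
    refine ⟨⟨e ⟨j, hj⟩, lt_of_lt_of_le (e ⟨j, hj⟩).2 hr⟩, ?_⟩
    simp
  · rintro ⟨t, ht⟩
    rw [← ht]
    show (if h : (t : ℕ) < S.card then (e.symm ⟨t, h⟩ : Fin s) else a) ∈ S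
    split_ifs with h
    · exact (e.symm ⟨t, h⟩).2
    · exact ha

theorem aeval_monomial_cover {σ K : Type} [Field K] {s r : ℕ} (v : Fin s → MvPolynomial σ K)
    (g : Fin r → Fin s) (m : Fin s →₀ ℕ) (c : K) (hm : ∀ j ∈ m.support, ∃ t, g t = j) :
    ∃ P : MvPolynomial (Fin r) K, aeval (fun t => v (g t)) P = aeval v (monomial m c) := by
  classical
  choose f hf using hm
  refine ⟨C c * ∏ j ∈ m.support.attach, X (f j j.2) ^ m j, ?_⟩
  rw [map_mul, aeval_C, map_prod, aeval_monomial]
  congr 1
  rw [Finsupp.prod, ← Finset.prod_attach m.support (fun j => v j ^ m j)]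
  refine Finset.prod_congr rfl fun j hj => ?_
  rw [map_pow, aeval_X, hf j j.2]

theorem sum_BB {Y Z : Type} [Fintype Y] [Fintype Z] {K : Type} [Field K] {al be : ℝ}
    {ι : Type} (J : Finset ι) (f : ι → MvPolynomial (Y ⊕ Z) K) (E : ℝ)
    (h : ∀ j ∈ J, BB al be (f j) E) : BB al be (∑ j ∈ J, f j) (J.card * E) := by
  classical
  induction J using Finset.induction_on with
  | empty => simpa using BB.zero
  | insert a J ha ih =>
    rw [Finset.sum_insert ha, Finset.card_insert_of_notMem ha]
    have h1 := h a (Finset.mem_insert_self _ _)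
    have h2 := ih fun j hj => h j (Finset.mem_insert_of_mem hj)
    refine BB.mono (BB.add h1 h2) (le_of_eq ?_)
    push_cast
    ring

theorem pr_JuntaBB (hLoc : S_LocalBB) : S_JuntaBB := by
  intro Y Z _ _ K _ al be s r v Q lam k hlam hk hQ
  classical
  -- the cover of a monomial
  have hcov : ∀ m : Fin s →₀ ℕ, ∃ g : Option (Fin r → Fin s),
      (g = none → m ∈ Q.support → m = 0) ∧
      (∀ g', g = some g' → m ∈ Q.support ∧ ∀ j, j ∈ m.support ↔ ∃ t, g' t = j) := by
    intro m
    by_cases hm : m ∈ Q.support ∧ m ≠ 0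
    · have hne : m.support.Nonempty := by
        rw [Finsupp.support_nonempty_iff]; exact hm.2
      obtain ⟨g, hg⟩ := exists_cover m.support hne (hQ m hm.1).1
      refine ⟨some g, by simp, ?_⟩
      intro g' hg'
      rw [Option.some.injEq] at hg'
      subst hg'
      exact ⟨hm.1, hg⟩
    · refine ⟨none, ?_, by simp⟩
      intro _ h1
      by_contra h2
      exact hm ⟨h1, h2⟩
  choose cov hcov1 hcov2 using hcov
  -- decomposition
  have hdec : Q = (∑ m ∈ Q.support.filter (fun m => cov m = none), monomial m (coeff m Q)) +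
      ∑ g : Fin r → Fin s, ∑ m ∈ Q.support.filter (fun m => cov m = some g),
        monomial m (coeff m Q) := by
    conv_lhs => rw [Q.as_sum]
    have h1 : ∑ m ∈ Q.support, monomial m (coeff m Q) =
        ∑ o : Option (Fin r → Fin s), ∑ m ∈ Q.support.filter (fun m => cov m = o),
          monomial m (coeff m Q) := by
      rw [Finset.sum_fiberwise]
    rw [h1, Fintype.sum_option]
  have hzero : homogeneousComponent k (aeval v
      (∑ m ∈ Q.support.filter (fun m => cov m = none), monomial m (coeff m Q))) = 0 := by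
    rw [map_sum, map_sum]
    apply Finset.sum_eq_zero
    intro m hm
    rw [Finset.mem_filter] at hm
    have h0 := hcov1 m hm.2 hm.1
    rw [h0, aeval_monomial, Finsupp.prod_zero_index, mul_one]
    apply homogeneousComponent_eq_zero
    have : (algebraMap K (MvPolynomial (Y ⊕ Z) K) (coeff 0 Q)).totalDegree = 0 := totalDegree_C _
    rw [this]
    omega
  have hE : 0 ≤ Real.exp (96 * r / lam ^ 2 - lam / 2 * k) := (Real.exp_pos _).le
  rw [hdec, map_add, map_add, hzero, zero_add, map_sum, map_sum]
  have hcard : ((Finset.univ : Finset (Fin r → Fin s)).card : ℝ) = (s : ℝ) ^ r := by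
    rw [Finset.card_univ, Fintype.card_fun, Fintype.card_fin, Fintype.card_fin]
    push_cast
    rfl
  rw [← hcard]
  apply sum_BB
  intro g _
  by_cases hex : ∃ m, cov m = some g
  · obtain ⟨m0, hm0⟩ := hex
    obtain ⟨hm0Q, hm0g⟩ := hcov2 m0 g hm0
    have hvg : ∀ t, ∀ i, 1 ≤ i →
        BB al be (homogeneousComponent i (v (g t))) (Real.exp (-(lam * i))) := by
      intro t
      exact (hQ m0 hm0Q).2 (g t) ((hm0g (g t)).mpr ⟨t, rfl⟩)
    have hP : ∃ P : MvPolynomial (Fin r) K, aeval (fun t => v (g t)) P =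
        aeval v (∑ m ∈ Q.support.filter (fun m => cov m = some g), monomial m (coeff m Q)) := by
      have : ∀ m, ∃ P : MvPolynomial (Fin r) K, cov m = some g →
          aeval (fun t => v (g t)) P = aeval v (monomial m (coeff m Q)) := by
        intro m
        by_cases hm : cov m = some g
        · obtain ⟨P, hP⟩ := aeval_monomial_cover v g m (coeff m Q)
            (fun j hj => ((hcov2 m g hm).2 j).mp hj)
          exact ⟨P, fun _ => hP⟩
        · exact ⟨0, fun h => absurd h hm⟩
      choose P hP using this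
      refine ⟨∑ m ∈ Q.support.filter (fun m => cov m = some g), P m, ?_⟩
      rw [map_sum, map_sum]
      refine Finset.sum_congr rfl fun m hm => ?_
      rw [Finset.mem_filter] at hm
      exact hP m hm.2
    obtain ⟨P, hP⟩ := hP
    rw [← hP]
    exact hLoc Y Z K al be r (fun t => v (g t)) P lam k hlam hvg
  · have : Q.support.filter (fun m => cov m = some g) = ∅ := by
      apply Finset.filter_eq_empty_iff.mpr
      intro m _ hm
      exact hex ⟨m, hm⟩
    rw [this, Finset.sum_empty, map_zero, map_zero]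
    exact BB.mono BB.zero hE

end Pool.Agent.Work.MP_499dc6_lc.CD3

end
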