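import Mathlib
import Pool.Agent.Work.MP_499dc6_lc.Bd.B04
import Pool.Agent.Work.MP_499dc6_lc.CD.Final2
import Pool.Agent.Work.MP_499dc6_lc.Bd.B03
import Pool.Agent.Work.MP_499dc6_lc.Bd.B09

/-! Bundle of small proof modules (one section per former module). -/

section

/-!
# Tilted weight of large types
-/

set_option autoImplicit false

namespace Pool.Agent.Work.MP_499dc6_lc.D3

theorem TypeL_natAbs (u v : ℕ) : ((((u : ℤ) - v).natAbs : ℕ) : ℝ) = |(u : ℝ) - v| := by
  rw [Nat.cast_natAbs]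
  push_cast
  rfl

theorem pr_TypeL : S_TypeL := by
  intro w u v s X hw hX hXle
  have hal : 0 < Real.log (3 / 2) := Real.log_pos (by norm_num)
  have hR : Real.exp (-(Real.log (3 / 2) / 64)) ^ ((u : ℤ) - v).natAbs *
      Real.exp (-(s * (u + v))) =
      Real.exp (-(Real.log (3 / 2) / 64) * |(u : ℝ) - v| + -(s * (u + v))) := by
    rw [← Real.exp_nat_mul, ← Real.exp_add, TypeL_natAbs]
    congr 1
    ring
  rw [hR]
  refine (mul_le_mul_of_nonneg_right (mul_le_mul_of_nonneg_right hXle (Real.exp_pos _).le)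
    (Real.exp_pos _).le).trans ?_
  rw [← Real.exp_add, ← Real.exp_add]
  apply Real.exp_le_exp.mpr
  set al := Real.log (3 / 2) with hdef
  have hu : (0 : ℝ) ≤ u := Nat.cast_nonneg _
  have hv : (0 : ℝ) ≤ v := Nat.cast_nonneg _
  have key : al / 64 * (u + v) + al / 64 * |(u : ℝ) - v| ≤ 63 / 1024 * al * u + 961 / 1024 * al * v := by
    rcases abs_cases ((u : ℝ) - v) with ⟨h, _⟩ | ⟨h, _⟩
    · rw [h]; nlinarith [mul_nonneg hal.le hu, mul_nonneg hal.le hv]
    · rw [h]; nlinarith [mul_nonneg hal.le hu, mul_nonneg hal.le hv]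
  have hlin : al / 64 * (↑u + ↑v) + -(↑u * al + ↑v * (al * (↑w + 1) / ↑w)) / 2 +
      -((al / 2 - 961 / 1024 * al + s) * ↑u +
        (-(al * (↑w + 1) / ↑w) / 2 + 961 / 1024 * al + s) * ↑v) =
      al / 64 * (u + v) - 63 / 1024 * al * u - 961 / 1024 * al * v - s * (u + v) := by
    ring
  rw [hlin]
  linarith

end Pool.Agent.Work.MP_499dc6_lc.D3

end

section

set_option autoImplicit false

namespace Pool.Agent.Work.MP_499dc6_lc.D3

theorem TypeS_core (L w t u v s : ℝ) (hL : 0 < L) (ht : 1 ≤ t) (hw : 32 * t ≤ w)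
    (hu : 0 ≤ u) (hv : 0 ≤ v) (huv : u + v < t) (hi : v < u → v + 1 ≤ u) :
    -|u * L - v * (L * (w + 1) / w)| / 2 +
      -((L / 2 - 961 / 1024 * L + s) * u + (-(L * (w + 1) / w) / 2 + 961 / 1024 * L + s) * v) ≤
      -(L / 64) * |u - v| + -(s * (u + v)) := by
  have hw0 : 0 < w := by linarith
  have hb : L * (w + 1) / w = L + L / w := by field_simp
  have hLw : 0 < L / w := by positivity
  rw [hb]
  rcases lt_or_ge v u with h | h
  · have h1 : v * (L / w) ≤ L / 64 := by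
      have h2 : v * 64 ≤ w := by linarith
      have h3 : v * (L / w) = L * v / w := by ring
      rw [h3, div_le_div_iff₀ hw0 (by norm_num)]
      nlinarith
    have h4 := hi h
    have h5 : 0 ≤ u * L - v * (L + L / w) := by nlinarith
    rw [abs_of_nonneg h5, abs_of_pos (sub_pos.2 h)]
    nlinarith
  · have h5 : u * L - v * (L + L / w) ≤ 0 := by nlinarith [mul_nonneg hv hLw.le]
    rw [abs_of_nonpos h5, abs_of_nonpos (sub_nonpos.2 h)]
    nlinarith [mul_nonneg hL.le (sub_nonneg.2 h)]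

theorem pr_TypeS : S_TypeS := by
  intro w t u v s ht hw huv
  have hL : 0 < Real.log (3 / 2) := Real.log_pos (by norm_num)
  have h := TypeS_core (Real.log (3 / 2)) w t u v s hL (by exact_mod_cast ht)
    (by exact_mod_cast hw) (Nat.cast_nonneg _) (Nat.cast_nonneg _) (by exact_mod_cast huv)
    (fun h => by exact_mod_cast (show v + 1 ≤ u from by exact_mod_cast h))
  have h1 : (((u : ℤ) - v).natAbs : ℝ) = |(u : ℝ) - v| := by
    rw [Nat.cast_natAbs]
    push_cast
    rfl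
  rw [← Real.exp_add, ← Real.exp_nat_mul, ← Real.exp_add, Real.exp_le_exp, h1]
  refine h.trans (le_of_eq ?_)
  ring

end Pool.Agent.Work.MP_499dc6_lc.D3

end

section

/-!
# D3: sum over the multisets of types
-/

set_option autoImplicit false

namespace Pool.Agent.Work.MP_499dc6_lc.D3

open Finset

theorem TypeSum_geom (r : ℝ) (h0 : 0 ≤ r) (h1 : r < 1) (N : ℕ) :
    ∑ i ∈ range N, r ^ i ≤ (1 - r)⁻¹ :=
  sum_le_hasSum _ (fun _ _ => pow_nonneg h0 _) (hasSum_geometric_of_lt_one h0 h1)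

theorem TypeSum_S (y q : ℝ) (hy : 0 ≤ y) (hy1 : y ≤ 1) (hq : 0 < q) (hq1 : q < 1) (N : ℕ) :
    ∑ p ∈ (range (N + 1) ×ˢ range (N + 1)).erase (0, 0), (y * q) ^ p.1 * (q ^ 2) ^ p.2 ≤
      (1 - y * q)⁻¹ * (1 - q ^ 2)⁻¹ - 1 := by
  have hmem : ((0, 0) : ℕ × ℕ) ∈ range (N + 1) ×ˢ range (N + 1) := by simp
  have h := Finset.sum_erase_add (range (N + 1) ×ˢ range (N + 1))
    (fun p : ℕ × ℕ => (y * q) ^ p.1 * (q ^ 2) ^ p.2) hmem
  have h2 : ∑ p ∈ range (N + 1) ×ˢ range (N + 1), (y * q) ^ p.1 * (q ^ 2) ^ p.2 ≤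
      (1 - y * q)⁻¹ * (1 - q ^ 2)⁻¹ := by
    rw [Finset.sum_product]
    have : ∀ x ∈ range (N + 1), ∑ z ∈ range (N + 1), (y * q) ^ x * (q ^ 2) ^ z ≤
        (y * q) ^ x * (1 - q ^ 2)⁻¹ := by
      intro x _
      rw [← Finset.mul_sum]
      apply mul_le_mul_of_nonneg_left _ (by positivity)
      exact TypeSum_geom _ (by positivity) (by nlinarith) _
    refine (Finset.sum_le_sum this).trans ?_
    rw [← Finset.sum_mul]
    apply mul_le_mul_of_nonneg_right
    · exact TypeSum_geom _ (by positivity) (by nlinarith) _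
    · rw [inv_nonneg]; nlinarith
  simp only [pow_zero, mul_one] at h
  linarith

theorem TypeSum_grid (y q : ℝ) (hy : 0 ≤ y) (hy1 : y ≤ 1) (hq : 0 < q) (hq1 : q < 1) (a b : ℕ) :
    ∑ τ ∈ Ty a b, y ^ ((τ.1 : ℤ) - τ.2).natAbs * q ^ (τ.1 + τ.2) ≤
      2 * ((1 - y * q)⁻¹ * (1 - q ^ 2)⁻¹ - 1) := by
  classical
  have key : ∀ (s : Finset (ℕ × ℕ)) (ψ : ℕ × ℕ → ℕ × ℕ), s ⊆ Ty a b → Set.InjOn ψ s →
      (∀ τ ∈ s, ψ τ ∈ (range (a + b + 1) ×ˢ range (a + b + 1)).erase (0, 0)) →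
      (∀ τ ∈ s, y ^ ((τ.1 : ℤ) - τ.2).natAbs * q ^ (τ.1 + τ.2) =
        (y * q) ^ (ψ τ).1 * (q ^ 2) ^ (ψ τ).2) →
      ∑ τ ∈ s, y ^ ((τ.1 : ℤ) - τ.2).natAbs * q ^ (τ.1 + τ.2) ≤
        (1 - y * q)⁻¹ * (1 - q ^ 2)⁻¹ - 1 := by
    intro s ψ _ hinj hmem heq
    rw [Finset.sum_congr rfl heq,
      ← Finset.sum_image (f := fun p : ℕ × ℕ => (y * q) ^ p.1 * (q ^ 2) ^ p.2) hinj]
    refine le_trans (Finset.sum_le_sum_of_subset_of_nonneg ?_ ?_)
      (TypeSum_S y q hy hy1 hq hq1 (a + b))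
    · intro p hp
      rw [Finset.mem_image] at hp
      obtain ⟨τ, hτ, rfl⟩ := hp
      exact hmem τ hτ
    · intro p _ _
      positivity
  have hTy : ∀ τ : ℕ × ℕ, τ ∈ Ty a b ↔ τ ≠ (0, 0) ∧ τ.1 ≤ a ∧ τ.2 ≤ b := by
    intro τ
    simp [Ty, Nat.lt_succ_iff]
  rw [← Finset.sum_filter_add_sum_filter_not (Ty a b) (fun τ => τ.2 ≤ τ.1)]
  have h1 := key ((Ty a b).filter fun τ => τ.2 ≤ τ.1) (fun τ => (τ.1 - τ.2, τ.2))
    (Finset.filter_subset _ _) (by
      rintro ⟨u, v⟩ hu ⟨u', v'⟩ hu' h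
      simp only [coe_filter, Set.mem_ofPred_eq, Prod.mk.injEq] at hu hu' h ⊢
      omega) (by
      rintro ⟨u, v⟩ hu
      simp only [mem_filter, hTy, ne_eq, Prod.mk.injEq, mem_erase, mem_product, mem_range] at hu ⊢
      omega) (by
      rintro ⟨u, v⟩ hu
      simp only [mem_filter] at hu
      obtain ⟨d, rfl⟩ := Nat.exists_eq_add_of_le hu.2
      simp only [add_tsub_cancel_left]
      have : (((v + d : ℕ) : ℤ) - (v : ℤ)).natAbs = d := by omega
      rw [this]
      ring)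
  have h2 := key ((Ty a b).filter fun τ => ¬ τ.2 ≤ τ.1) (fun τ => (τ.2 - τ.1, τ.1))
    (Finset.filter_subset _ _) (by
      rintro ⟨u, v⟩ hu ⟨u', v'⟩ hu' h
      simp only [coe_filter, Set.mem_ofPred_eq, Prod.mk.injEq] at hu hu' h ⊢
      omega) (by
      rintro ⟨u, v⟩ hu
      simp only [mem_filter, hTy, ne_eq, Prod.mk.injEq, mem_erase, mem_product, mem_range] at hu ⊢
      omega) (by
      rintro ⟨u, v⟩ hu
      simp only [mem_filter] at hu
      obtain ⟨d, rfl⟩ := Nat.exists_eq_add_of_le (le_of_not_ge hu.2)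
      simp only [add_tsub_cancel_left]
      have : ((u : ℤ) - ((u + d : ℕ) : ℤ)).natAbs = d := by omega
      rw [this]
      ring)
  linarith

theorem TypeSum_real (θ y x : ℝ) (hθ1 : θ < 1) (hy : 0 ≤ y) (hyθ : y ≤ θ)
    (hx : 0 < x) :
    2 * ((1 - y * Real.exp (-x))⁻¹ * (1 - Real.exp (-x) ^ 2)⁻¹ - 1) ≤ 4 / ((1 - θ) * x) := by
  set q := Real.exp (-x) with hqdef
  have hq : 0 < q := Real.exp_pos _
  have hq1 : q < 1 := by
    rw [hqdef, Real.exp_lt_one_iff]; linarith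
  have hqx : x * q ≤ 1 - q := by
    have h1 : x + 1 ≤ Real.exp x := Real.add_one_le_exp x
    have h2 : Real.exp x * q = 1 := by
      rw [hqdef, ← Real.exp_add]; simp
    nlinarith
  have hθ : 0 < 1 - θ := by linarith
  have hyq : y * q ≤ θ := by nlinarith
  have h1q : 0 < 1 - q := by linarith
  have h1q2 : 0 < 1 - q ^ 2 := by nlinarith
  have h1yq : 0 < 1 - y * q := by nlinarith
  -- the two pieces
  have e : (1 - y * q)⁻¹ * (1 - q ^ 2)⁻¹ - 1 =
      y * q / ((1 - y * q) * (1 - q ^ 2)) + q ^ 2 / (1 - q ^ 2) := by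
    field_simp
    ring
  have hA : q ^ 2 / (1 - q ^ 2) ≤ 1 / ((1 - θ) * x) := by
    rw [div_le_div_iff₀ h1q2 (by positivity)]
    have hθ0 : 0 ≤ θ := hy.trans hyθ
    have : q ^ 2 * ((1 - θ) * x) ≤ q * (x * q) := by
      nlinarith [mul_nonneg hθ0 (mul_nonneg (sq_nonneg q) hx.le)]
    nlinarith
  have hB : y * q / ((1 - y * q) * (1 - q ^ 2)) ≤ 1 / ((1 - θ) * x) := by
    rw [div_le_div_iff₀ (by positivity) (by positivity)]
    have h1 : y * q * ((1 - θ) * x) ≤ (1 - θ) * (1 - q) := by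
      have : y * (x * q) ≤ 1 * (1 - q) :=
        mul_le_mul (by linarith) hqx (by positivity) (by norm_num)
      nlinarith
    have h2 : (1 - θ) * (1 - q) ≤ (1 - y * q) * (1 - q ^ 2) :=
      mul_le_mul (by linarith) (by nlinarith) h1q.le h1yq.le
    linarith
  rw [e]
  have : 4 / ((1 - θ) * x) = 2 * (1 / ((1 - θ) * x) + 1 / ((1 - θ) * x)) := by ring
  rw [this]
  linarith

theorem TypeSum_inv_sq (n : ℕ) : ∑ j ∈ range n, 1 / ((j : ℝ) + 1) ^ 2 ≤ 2 := by
  have h : ∀ n : ℕ, ∑ j ∈ range (n + 1), 1 / ((j : ℝ) + 1) ^ 2 ≤ 2 - 1 / ((n : ℝ) + 1) := by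
    intro n
    induction n with
    | zero => norm_num
    | succ n ih =>
      rw [Finset.sum_range_succ]
      push_cast
      have h1 : 1 / ((n : ℝ) + 1 + 1) ^ 2 ≤ 1 / ((n : ℝ) + 1) - 1 / ((n : ℝ) + 1 + 1) := by
        have : 1 / ((n : ℝ) + 1) - 1 / ((n : ℝ) + 1 + 1) = 1 / (((n : ℝ) + 1) * (n + 1 + 1)) := by
          field_simp
          ring
        rw [this]
        apply one_div_le_one_div_of_le (by positivity)
        nlinarith
      linarith
  cases n with
  | zero => simp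
  | succ n =>
    refine (h n).trans ?_
    have : 0 ≤ 1 / ((n : ℝ) + 1) := by positivity
    linarith

theorem pr_TypeSum : S_TypeSum := by
  intro θ s a b f hθ hθ1 hs hf0 hf
  classical
  set X : ℕ × ℕ → ℝ := fun τ => θ ^ ((τ.1 : ℤ) - τ.2).natAbs * Real.exp (-(s * (τ.1 + τ.2)))
    with hX
  have hX0 : ∀ τ, 0 < X τ := fun τ => by rw [hX]; positivity
  have hX1 : ∀ τ ∈ Ty a b, X τ < 1 := by
    intro τ hτ
    have hne : τ ≠ (0, 0) := by
      simp only [Ty, mem_erase] at hτ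
      exact hτ.1
    have hpos : 0 < s * ((τ.1 : ℝ) + τ.2) := by
      apply mul_pos hs
      have : 0 < τ.1 + τ.2 := by
        rcases τ with ⟨u, v⟩
        simp only [ne_eq, Prod.mk.injEq, not_and] at hne
        by_contra hcon
        exact hne (by simp at hcon; omega) (by simp at hcon; omega)
      exact_mod_cast this
    have h1 : θ ^ ((τ.1 : ℤ) - τ.2).natAbs ≤ 1 := pow_le_one₀ hθ.le hθ1.le
    have h2 : Real.exp (-(s * ((τ.1 : ℝ) + τ.2))) < 1 := by
      rw [Real.exp_lt_one_iff]; linarith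
    have h3 := Real.exp_pos (-(s * ((τ.1 : ℝ) + τ.2)))
    simp only [hX]
    nlinarith [pow_pos hθ ((τ.1 : ℤ) - τ.2).natAbs]
  -- comparison with the exponential
  have hstep : ∏ τ ∈ Ty a b, (1 - f τ)⁻¹ ≤ Real.exp (∑ τ ∈ Ty a b, -Real.log (1 - X τ)) := by
    rw [Real.exp_sum]
    apply Finset.prod_le_prod
    · intro τ hτ
      rw [inv_nonneg]
      have := hf τ hτ
      have := hX1 τ hτ
      simp only [hX] at this
      linarith
    · intro τ hτ
      have h1 := hf τ hτ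
      have h2 := hX1 τ hτ
      have h3 : f τ ≤ X τ := h1
      rw [Real.exp_neg, Real.exp_log (by linarith)]
      apply inv_anti₀ (by linarith)
      linarith
  refine hstep.trans (Real.exp_le_exp.2 ?_)
  have hsum : HasSum (fun j : ℕ => ∑ τ ∈ Ty a b, X τ ^ (j + 1) / ((j : ℝ) + 1))
      (∑ τ ∈ Ty a b, -Real.log (1 - X τ)) := by
    apply hasSum_sum
    intro τ hτ
    apply Real.hasSum_pow_div_log_of_abs_lt_one
    rw [abs_of_pos (hX0 τ)]
    exact hX1 τ hτ
  have hterm : ∀ j : ℕ, ∑ τ ∈ Ty a b, X τ ^ (j + 1) / ((j : ℝ) + 1) ≤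
      4 / ((1 - θ) * s) * (1 / ((j : ℝ) + 1) ^ 2) := by
    intro j
    have hj : (0 : ℝ) < (j : ℝ) + 1 := by positivity
    have hy : θ ^ (j + 1) ≤ θ := by
      calc θ ^ (j + 1) ≤ θ ^ 1 := pow_le_pow_of_le_one hθ.le hθ1.le (by omega)
        _ = θ := pow_one θ
    have hx : 0 < s * ((j : ℝ) + 1) := mul_pos hs hj
    have h1 := TypeSum_grid (θ ^ (j + 1)) (Real.exp (-(s * ((j : ℝ) + 1)))) (by positivity)
      (hy.trans hθ1.le) (Real.exp_pos _) (by rw [Real.exp_lt_one_iff]; linarith) a b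
    have h2 := TypeSum_real θ (θ ^ (j + 1)) (s * ((j : ℝ) + 1)) hθ1 (by positivity) hy hx
    have h3 : ∑ τ ∈ Ty a b, X τ ^ (j + 1) / ((j : ℝ) + 1) =
        (∑ τ ∈ Ty a b, (θ ^ (j + 1)) ^ ((τ.1 : ℤ) - τ.2).natAbs *
          Real.exp (-(s * ((j : ℝ) + 1))) ^ (τ.1 + τ.2)) / ((j : ℝ) + 1) := by
      rw [Finset.sum_div]
      refine Finset.sum_congr rfl fun τ _ => ?_
      congr 1
      simp only [hX]
      rw [mul_pow, ← pow_mul, ← pow_mul, mul_comm (j + 1), ← Real.exp_nat_mul, ← Real.exp_nat_mul]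
      congr 2
      push_cast
      ring
    rw [h3, div_le_iff₀ hj]
    refine (h1.trans h2).trans (le_of_eq ?_)
    field_simp
  apply le_of_tendsto' hsum.tendsto_sum_nat
  intro n
  calc ∑ j ∈ range n, ∑ τ ∈ Ty a b, X τ ^ (j + 1) / ((j : ℝ) + 1)
      ≤ ∑ j ∈ range n, 4 / ((1 - θ) * s) * (1 / ((j : ℝ) + 1) ^ 2) :=
        Finset.sum_le_sum fun j _ => hterm j
    _ = 4 / ((1 - θ) * s) * ∑ j ∈ range n, 1 / ((j : ℝ) + 1) ^ 2 := by rw [Finset.mul_sum]
    _ ≤ 4 / ((1 - θ) * s) * 2 := by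
        apply mul_le_mul_of_nonneg_left (TypeSum_inv_sq n)
        have : 0 < (1 - θ) * s := mul_pos (by linarith) hs
        positivity
    _ = 8 / ((1 - θ) * s) := by ring

end Pool.Agent.Work.MP_499dc6_lc.D3

end

section

/-!
# Depth three circuits for the permanent: final assembly
-/

namespace Pool.Agent.Work.MP_499dc6_lc.D3

open MvPolynomial Equiv
open Pool.Agent.Work.MP_499dc6_lc.CD

/-! ## The hard polynomial -/

theorem PC_monomial (R : Type) [CommSemiring R] {α β : Type} [Fintype α] [Fintype β]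
    [DecidableEq α] [DecidableEq β] (σ : Perm α) (ζ : Perm β) :
    (monomial (Finsupp.sumElim (gr σ) (gr ζ)) (1 : R) :
      MvPolynomial ((α × α) ⊕ (β × β)) R) =
    (∏ i, X (Sum.inl (i, σ i))) * ∏ i, X (Sum.inr (i, ζ i)) := by
  rw [monomial_eq, C_1, one_mul, Finsupp.prod_fintype _ _ fun i => pow_zero _,
    Fintype.prod_sum_type]
  congr 1
  · rw [Fintype.prod_prod_type]
    refine Finset.prod_congr rfl fun i _ => ?_
    rw [Finset.prod_eq_single (σ i)]
    · simp [gr]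
    · intro j _ hj
      simp [gr, hj.symm]
    · intro h
      exact absurd (Finset.mem_univ _) h
  · rw [Fintype.prod_prod_type]
    refine Finset.prod_congr rfl fun i _ => ?_
    rw [Finset.prod_eq_single (ζ i)]
    · simp [gr]
    · intro j _ hj
      simp [gr, hj.symm]
    · intro h
      exact absurd (Finset.mem_univ _) h

theorem PC_prod (R : Type) [CommSemiring R] (n k : ℕ) :
    (∑ c : Code n k, (∏ i, X (Sum.inl (i, c.1.1 i))) * ∏ i, X (Sum.inr (i, c.1.2 i))) =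
      PC R n k := by
  unfold PC
  exact Finset.sum_congr rfl fun c _ => (PC_monomial R c.1.1 c.1.2).symm

theorem PC_map {R S : Type} [CommSemiring R] [CommSemiring S] (f : R →+* S) (n k : ℕ) :
    MvPolynomial.map f (PC R n k) = PC S n k := by
  unfold PC
  rw [map_sum]
  refine Finset.sum_congr rfl fun c _ => ?_
  rw [map_monomial, map_one]

theorem gr_sum {α : Type} [Fintype α] [DecidableEq α] (σ : Perm α) :
    ∑ p, gr σ p = Fintype.card α := by
  rw [Fintype.sum_prod_type]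
  simp [gr]

theorem card_CY (n k : ℕ) : Fintype.card (CY n k) = 2 * (n + k) := by
  simp [CY]; ring

theorem card_CZ (n : ℕ) : Fintype.card (CZ n) = 2 * n := by
  simp [CZ]

theorem PC_isBi (R : Type) [CommSemiring R] (n k : ℕ) :
    IsBi (PC R n k) (2 * (n + k)) (2 * n) := by
  unfold PC
  refine isBi_sum _ _ fun c _ => ?_
  have h := isBi_monomial (Finsupp.sumElim (gr c.1.1) (gr c.1.2)) (1 : R)
  have h1 : dY (Finsupp.sumElim (gr c.1.1) (gr c.1.2)) = 2 * (n + k) := by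
    rw [← card_CY n k, ← gr_sum c.1.1]
    rfl
  have h2 : dZ (Finsupp.sumElim (gr c.1.1) (gr c.1.2)) = 2 * n := by
    rw [← card_CZ n, ← gr_sum c.1.2]
    rfl
  rw [h1, h2] at h
  exact h

/-! ## One product -/

theorem constantCoeff_isBi {Y Z : Type} [Fintype Y] [Fintype Z] {R : Type} [CommSemiring R]
    {f : MvPolynomial (Y ⊕ Z) R} {u v : ℕ} (h : IsBi f u v) (h0 : u + v ≠ 0) :
    constantCoeff f = 0 := by
  by_contra h1
  have h2 := h 0 h1
  have h3 : dY (0 : Y ⊕ Z →₀ ℕ) = 0 := by simp [dY]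
  have h4 : dZ (0 : Y ⊕ Z →₀ ℕ) = 0 := by simp [dZ]
  omega

/-- The constant coefficient of a polynomial in forms without constant term. -/
theorem constantCoeff_aeval {σ τ : Type} {R : Type} [CommRing R] (g : σ → MvPolynomial τ R)
    (hg : ∀ i, constantCoeff (g i) = 0) (f : MvPolynomial σ R) :
    constantCoeff (aeval g f) = constantCoeff f := by
  induction f using MvPolynomial.induction_on with
  | C a => simp
  | add p q hp hq => simp only [map_add, hp, hq]
  | mul_X p i hp =>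
    rw [map_mul, map_mul, aeval_X, hg, mul_zero, map_mul, constantCoeff_X, mul_zero]

/-- The product of the values of polynomials at affine forms after the translation. -/
theorem term_bound (hUp : S_Up) (hAf : S_Affine) {Y Z : Type} [Fintype Y] [Fintype Z]
    (K : Type) [Field K] [CharZero K] (w k t D r : ℕ)
    (F : Fin D → MvPolynomial (Fin r) K) (l : Fin D → Fin r → MvPolynomial (Y ⊕ Z) K)
    (hD : 1 ≤ D) (hr : 1 ≤ r) (hk : 1 ≤ k) (ht : 32 * t ≤ w) (hDr : 4000 * (Real.log D + r) ≤ t)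
    (hl : ∀ j i, (l j i).totalDegree ≤ 1)
    (hc : ∀ j, constantCoeff (aeval (l j) (F j)) ≠ 0) :
    BB (Real.log (3 / 2)) (Real.log (3 / 2) * (w + 1) / w)
      (bc (2 * (w * k + k)) (2 * (w * k)) (∏ j, aeval (l j) (F j)))
      (Real.exp (-(15 / 8 * Real.log (3 / 2) * k) +
        72 * Real.sqrt ((2 * (w * k + k) + 2 * (w * k) : ℕ) : ℝ))) := by
  choose c y z hy hz hlc using fun j i => hAf Y Z K (l j i) (hl j i)
  let G : Fin D → MvPolynomial (Fin r ⊕ Fin r) K := fun j =>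
    aeval (fun i => C (c j i) + (X (Sum.inl i) + X (Sum.inr i))) (F j)
  have hG : ∀ j, aeval (Sum.elim (y j) (z j)) (G j) = aeval (l j) (F j) := by
    intro j
    change aeval (Sum.elim (y j) (z j)) (aeval _ (F j)) = _
    rw [← AlgHom.comp_apply, comp_aeval]
    congr 2
    funext i
    rw [map_add, map_add, aeval_X, aeval_X, hlc j i]
    congr 1
    rw [← algebraMap_eq, AlgHom.commutes]
    rfl
  have hG0 : ∀ j, constantCoeff (G j) ≠ 0 := by
    intro j
    rw [← constantCoeff_aeval (Sum.elim (y j) (z j)) _ (G j), hG]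
    · exact hc j
    · rintro (i | i)
      · exact constantCoeff_isBi (hy j i) (by norm_num)
      · exact constantCoeff_isBi (hz j i) (by norm_num)
  have h := hUp Y Z K w k t D r G y z hD hr hk ht hDr hG0 hy hz
  have h2 : (∏ j, aeval (Sum.elim (y j) (z j)) (G j)) = ∏ j, aeval (l j) (F j) :=
    Finset.prod_congr rfl fun j _ => hG j
  rw [h2] at h
  exact h

/-! ## The upper bound -/

/-- `bc` of a polynomial of the form `W + X * R` after a translation. -/
theorem bc_gen {Y Z R : Type} [Fintype Y] [Fintype Z] [CommRing R] (hTT : S_TransTop)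
    (hBH : S_BiHom) (x : Y ⊕ Z → R) (W R1 : MvPolynomial (Y ⊕ Z) R) (c : R) (a b : ℕ)
    (hW : IsBi W a b) :
    bc a b (aeval (fun j => (X j + C (x j) : MvPolynomial (Y ⊕ Z) R)) (W + C c * R1)) =
      W + C c * bc a b (aeval (fun j => (X j + C (x j) : MvPolynomial (Y ⊕ Z) R)) R1) := by
  rw [aeval_lin, bc_add, bc_C_mul]
  congr 1
  have h1 := hTT _ R W (a + b) x (hBH Y Z R W a b hW)
  have h2 := bc_hc a b (a + b) (aeval (fun j => (X j + C (x j) : MvPolynomial (Y ⊕ Z) R)) W)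
  rw [if_pos rfl, h1, bc_self hW] at h2
  exact h2.symm

theorem BB_fin_sum {Y Z K : Type} [Fintype Y] [Fintype Z] [Field K] {al be c : ℝ} {S : ℕ}
    (f : Fin S → MvPolynomial (Y ⊕ Z) K) (h : ∀ i, BB al be (f i) c) :
    BB al be (∑ i, f i) (S * c) := by
  induction S with
  | zero => simpa using BB.zero
  | succ S ih =>
    rw [Fin.sum_univ_castSucc]
    have h1 := BB.add (ih (fun i => f i.castSucc) fun i => h _) (h (Fin.last S))
    refine BB.mono h1 (le_of_eq ?_)
    push_cast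
    ring

variable (hProj : S_Proj) (hUp : S_Up) (hAf : S_Affine) (hTr : S_Transl) (hTT : S_TransTop)
  (hBH : S_BiHom) (hSm : S_BBsmul)

include hProj hUp hAf hTr hTT hBH hSm in
/-- Upper bound for the functional `BB` of the hard polynomial. -/
theorem upper3 (k : Type) [Field k] [CharZero k] (N S D r w kk t : ℕ)
    (F : Fin S → Fin D → MvPolynomial (Fin r) (LaurentSeries k))
    (l : Fin S → Fin D → Fin r → MvPolynomial (Fin N × Fin N) (LaurentSeries k))
    (hl : ∀ i j a, (l i j a).totalDegree ≤ 1)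
    (R : MvPolynomial (Fin N × Fin N) (PowerSeries k))
    (h : ∑ i, ∏ j, aeval (l i j) (F i j) =
      MvPolynomial.map (algebraMap (PowerSeries k) (LaurentSeries k))
        (permP (PowerSeries k) N + C PowerSeries.X * R))
    (hD : 1 ≤ D) (hr : 1 ≤ r) (hk : 1 ≤ kk) (ht : 32 * t ≤ w) (hDr : 4000 * (Real.log D + r) ≤ t)
    (hN : 4 * (2 * (w * kk) + kk) ≤ N) :
    ∃ R' : MvPolynomial ((CY (w * kk) kk × CY (w * kk) kk) ⊕ (CZ (w * kk) × CZ (w * kk)))
        (PowerSeries k),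
      BB (Real.log (3 / 2)) (Real.log (3 / 2) * (w + 1) / w)
        (MvPolynomial.map (algebraMap (PowerSeries k) (LaurentSeries k))
          (PC (PowerSeries k) (w * kk) kk + C PowerSeries.X * R'))
        (S * Real.exp (-(15 / 8 * Real.log (3 / 2) * kk) +
          72 * Real.sqrt ((2 * (w * kk + kk) + 2 * (w * kk) : ℕ) : ℝ))) := by
  classical
  set φ := algebraMap (PowerSeries k) (LaurentSeries k) with hφ
  have := charZero_laurent k
  obtain ⟨n, hn⟩ : ∃ n, n = w * kk := ⟨_, rfl⟩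
  rw [← hn] at hN ⊢
  obtain ⟨A, hA, hperm⟩ := hProj (MvPolynomial ((CY n kk × CY n kk) ⊕ (CZ n × CZ n))
    (PowerSeries k)) n kk N (fun i j => X (Sum.inl (i, j))) (fun i j => X (Sum.inr (i, j))) hN
  rw [PC_prod] at hperm
  let g1 : Fin N × Fin N → MvPolynomial ((CY n kk × CY n kk) ⊕ (CZ n × CZ n)) (PowerSeries k) :=
    fun p => A p.1 p.2
  let θ1 : Fin N × Fin N → MvPolynomial ((CY n kk × CY n kk) ⊕ (CZ n × CZ n)) (LaurentSeries k) :=
    fun p => MvPolynomial.map φ (g1 p)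
  have hθ1 : ∀ p, (θ1 p).totalDegree ≤ 1 := by
    intro p
    rcases hA p.1 p.2 with h | h | h | ⟨a, b, h⟩ | ⟨a, b, h⟩
    · have : θ1 p = 0 := by simp [θ1, g1, h]
      rw [this]; simp
    · have : θ1 p = 1 := by simp [θ1, g1, h]
      rw [this]; simp
    · have : θ1 p = C (-1) := by simp [θ1, g1, h]
      rw [this, totalDegree_C]; exact Nat.zero_le _
    · have : θ1 p = X (Sum.inl (a, b)) := by simp [θ1, g1, h]
      rw [this, totalDegree_X]
    · have : θ1 p = X (Sum.inr (a, b)) := by simp [θ1, g1, h]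
      rw [this, totalDegree_X]
  -- the value of the permanent
  have h2 : aeval g1 (permP (PowerSeries k) N) = A.permanent := by
    unfold permP
    have := map_permanent' (aeval g1 : MvPolynomial (Fin N × Fin N) (PowerSeries k)
      →ₐ[PowerSeries k] MvPolynomial _ (PowerSeries k)).toRingHom
      (Matrix.of fun i j => (X (i, j) : MvPolynomial (Fin N × Fin N) (PowerSeries k)))
    simp only [AlgHom.toRingHom_eq_coe, RingHom.coe_coe, Matrix.of_apply, aeval_X] at this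
    rw [this]
    rfl
  -- the constant
  obtain ⟨c0, hc0, hc0u⟩ : ∃ c0 : k, c0 ≠ 0 ∧ A.permanent =
      C (PowerSeries.C c0) * PC (PowerSeries k) n kk := by
    refine ⟨(-1) ^ n * 4 ^ n, ?_, ?_⟩
    · exact mul_ne_zero (pow_ne_zero _ (by norm_num)) (pow_ne_zero _ (by norm_num))
    · rw [hperm]
      congr 1
      simp only [map_mul, map_pow, map_neg, map_one]
      congr 2
  -- translation
  let L' : Fin S → Fin D → Fin r → MvPolynomial ((CY n kk × CY n kk) ⊕ (CZ n × CZ n))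
      (LaurentSeries k) := fun i j a => aeval θ1 (l i j a)
  let V : Fin S → Fin D → MvPolynomial ((CY n kk × CY n kk) ⊕ (CZ n × CZ n))
      (LaurentSeries k) := fun i j => aeval (L' i j) (F i j)
  obtain ⟨x, hx⟩ := hTr _ k (S * D) (fun q => V (finProdFinEquiv.symm q).1
    (finProdFinEquiv.symm q).2)
  let trP : ((CY n kk × CY n kk) ⊕ (CZ n × CZ n)) → MvPolynomial _ (PowerSeries k) :=
    fun j => X j + C (PowerSeries.C (x j))
  let tr : ((CY n kk × CY n kk) ⊕ (CZ n × CZ n)) → MvPolynomial _ (LaurentSeries k) :=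
    fun j => X j + C (φ (PowerSeries.C (x j)))
  have htr : tr = fun j => MvPolynomial.map φ (trP j) := by
    funext j
    simp [tr, trP]
  have hx' : ∀ i j, V i j ≠ 0 → constantCoeff (aeval tr (V i j)) ≠ 0 := by
    intro i j hij
    have h3 := hx (finProdFinEquiv (i, j))
    rw [Equiv.symm_apply_apply] at h3
    exact h3 hij
  have hV : ∑ i, ∏ j, V i j = MvPolynomial.map φ (C (PowerSeries.C c0) *
      PC (PowerSeries k) n kk + C PowerSeries.X * aeval g1 R) := by
    have h3 : aeval θ1 (∑ i, ∏ j, aeval (l i j) (F i j)) = ∑ i, ∏ j, V i j := by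
      rw [map_sum]
      refine Finset.sum_congr rfl fun i _ => ?_
      rw [map_prod]
      refine Finset.prod_congr rfl fun j _ => ?_
      exact comp_aeval_apply (l i j) (aeval θ1 : MvPolynomial (Fin N × Fin N) (LaurentSeries k)
        →ₐ[LaurentSeries k] _) (F i j)
    rw [← h3, h, show θ1 = fun p => MvPolynomial.map φ (g1 p) from rfl, aeval_map_map,
      aeval_lin, h2, hc0u]
  -- scale and translate
  refine ⟨bc (2 * (n + kk)) (2 * n) (aeval trP (C (PowerSeries.C c0⁻¹) * aeval g1 R)), ?_⟩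
  have hkey : MvPolynomial.map φ (PC (PowerSeries k) n kk + C PowerSeries.X *
      bc (2 * (n + kk)) (2 * n) (aeval trP (C (PowerSeries.C c0⁻¹) * aeval g1 R))) =
      ∑ i, C (φ (PowerSeries.C c0⁻¹)) * bc (2 * (n + kk)) (2 * n) (aeval tr (∏ j, V i j)) := by
    have h4 := bc_gen hTT hBH (fun j => (PowerSeries.C (x j) : PowerSeries k))
      (PC (PowerSeries k) n kk) (C (PowerSeries.C c0⁻¹) * aeval g1 R) PowerSeries.X
      (2 * (n + kk)) (2 * n) (PC_isBi _ n kk)
    rw [← h4, ← Finset.mul_sum, ← bc_sum, ← map_sum, hV, ← bc_map, ← aeval_map_map]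
    have h5 : (fun j => MvPolynomial.map φ (X j + C (PowerSeries.C (x j)))) = tr := htr.symm
    rw [h5, ← bc_C_mul]
    congr 1
    have h6 : C (φ (PowerSeries.C c0⁻¹)) = aeval tr
        (C (φ (PowerSeries.C c0⁻¹)) : MvPolynomial _ (LaurentSeries k)) := by
      rw [← algebraMap_eq, AlgHom.commutes]
    rw [h6, ← map_mul]
    congr 1
    rw [show (C (φ (PowerSeries.C c0⁻¹)) : MvPolynomial ((CY n kk × CY n kk) ⊕ (CZ n × CZ n))
        (LaurentSeries k)) = MvPolynomial.map φ (C (PowerSeries.C c0⁻¹)) from (map_C φ _).symm,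
      ← map_mul]
    congr 1
    have h10 : (C (PowerSeries.C c0⁻¹) : MvPolynomial ((CY n kk × CY n kk) ⊕ (CZ n × CZ n))
        (PowerSeries k)) * C (PowerSeries.C c0) = 1 := by
      rw [← C_mul, ← map_mul, inv_mul_cancel₀ hc0, map_one, C_1]
    linear_combination (-(PC (PowerSeries k) n kk)) * h10
  rw [hkey]
  refine BB_fin_sum _ fun i => hSm _ _ _ _ _ _ _ _ ?_
  by_cases hi : ∃ j, V i j = 0
  · obtain ⟨j, hj⟩ := hi
    rw [Finset.prod_eq_zero (Finset.mem_univ j) hj, map_zero, bc_zero]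
    exact BB.mono BB.zero (Real.exp_pos _).le
  · push Not at hi
    have h7 : aeval tr (∏ j, V i j) = ∏ j, aeval (fun a => aeval tr (L' i j a)) (F i j) := by
      rw [map_prod]
      refine Finset.prod_congr rfl fun j _ => ?_
      exact comp_aeval_apply (L' i j) (aeval tr : MvPolynomial _ (LaurentSeries k)
        →ₐ[LaurentSeries k] _) (F i j)
    rw [h7]
    subst hn
    refine term_bound hUp hAf (LaurentSeries k) w kk t D r (F i) _ hD hr hk ht hDr ?_ ?_
    · intro j a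
      refine CircSubst_deg 1 tr (fun p => totalDegree_trans_X _ _) _ ?_
      exact CircSubst_deg 1 θ1 hθ1 _ (hl i j a)
    · intro j
      have h8 := hx' i j (hi j)
      have h9 : aeval tr (V i j) = aeval (fun a => aeval tr (L' i j a)) (F i j) :=
        comp_aeval_apply (L' i j) (aeval tr : MvPolynomial _ (LaurentSeries k)
          →ₐ[LaurentSeries k] _) (F i j)
      rw [h9] at h8
      exact h8

/-! ## The parameter `l` -/

theorem ell (N2 : ℕ) (be : ℝ) (h2 : 2 ≤ N2) (hbe : 0 < be) :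
    ∃ l : ℕ, (l : ℝ) / (N2 + l - 1) ≤ Real.exp (-be) ∧ ((N2 : ℝ) + l) / (l + 1) ≤ Real.exp be := by
  have h1 : 1 < Real.exp be := Real.one_lt_exp_iff.mpr hbe
  have hN : (2 : ℝ) ≤ N2 := by exact_mod_cast h2
  have hp : 0 ≤ ((N2 : ℝ) - 1) / (Real.exp be - 1) := by
    apply div_nonneg <;> linarith
  refine ⟨⌊((N2 : ℝ) - 1) / (Real.exp be - 1)⌋₊, ?_, ?_⟩
  · have h3 := Nat.floor_le hp
    set l : ℝ := ((⌊((N2 : ℝ) - 1) / (Real.exp be - 1)⌋₊ : ℕ) : ℝ) with hl
    have hl0 : 0 ≤ l := by rw [hl]; exact Nat.cast_nonneg _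
    rw [le_div_iff₀ (by linarith)] at h3
    rw [Real.exp_neg, div_le_iff₀ (by linarith), ← div_eq_inv_mul, le_div_iff₀ (by linarith)]
    nlinarith
  · have h3 := Nat.lt_floor_add_one (((N2 : ℝ) - 1) / (Real.exp be - 1))
    set l : ℝ := ((⌊((N2 : ℝ) - 1) / (Real.exp be - 1)⌋₊ : ℕ) : ℝ) with hl
    have hl0 : 0 ≤ l := by rw [hl]; exact Nat.cast_nonneg _
    rw [div_lt_iff₀ (by linarith)] at h3
    rw [div_le_iff₀ (by linarith)]
    nlinarith

theorem TT_pos {N p : ℕ} (hN : 1 ≤ N) : 0 < TT N p := by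
  unfold TT
  apply Nat.choose_pos
  omega

variable (hRR : S_RankR) (hRK : S_RankK) (hBr : S_BBrank) (hNum : S_Num)

include hProj hUp hAf hTr hTT hBH hSm hRR hRK hBr in
/-- The main inequality for given parameters. -/
theorem ineq3 (k : Type) [Field k] [CharZero k] (N S D r w kk t : ℕ)
    (F : Fin S → Fin D → MvPolynomial (Fin r) (LaurentSeries k))
    (l : Fin S → Fin D → Fin r → MvPolynomial (Fin N × Fin N) (LaurentSeries k))
    (hl : ∀ i j a, (l i j a).totalDegree ≤ 1)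
    (R : MvPolynomial (Fin N × Fin N) (PowerSeries k))
    (h : ∑ i, ∏ j, aeval (l i j) (F i j) =
      MvPolynomial.map (algebraMap (PowerSeries k) (LaurentSeries k))
        (permP (PowerSeries k) N + C PowerSeries.X * R))
    (hD : 1 ≤ D) (hr : 1 ≤ r) (hk : 1 ≤ kk) (ht : 32 * t ≤ w) (hDr : 4000 * (Real.log D + r) ≤ t)
    (hN : 4 * (2 * (w * kk) + kk) ≤ N) :
    1 ≤ S ∧ Real.log (3 / 2) / 8 * kk ≤ Real.log S +
      72 * Real.sqrt ((2 * (w * kk + kk) + 2 * (w * kk) : ℕ) : ℝ) +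
      Real.log (1000 * ((2 * (w * kk + kk) + 1 : ℕ) : ℝ) ^ 6) := by
  classical
  have hlogD : 0 ≤ Real.log D := Real.log_nonneg (by exact_mod_cast hD)
  have hrR : (1 : ℝ) ≤ r := by exact_mod_cast hr
  have htR : (1 : ℝ) ≤ t := by linarith
  have ht1 : 1 ≤ t := by exact_mod_cast htR
  have hw : 32 ≤ w := by omega
  have hwR : (32 : ℝ) ≤ w := by exact_mod_cast hw
  have hal : 0 < Real.log (3 / 2 : ℝ) := Real.log_pos (by norm_num)
  obtain ⟨R', hBB⟩ := upper3 hProj hUp hAf hTr hTT hBH hSm k N S D r w kk t F l hl R h hD hr hk ht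
    hDr hN
  obtain ⟨m, hm⟩ : ∃ m, m = w * kk + kk := ⟨_, rfl⟩
  obtain ⟨E, hE⟩ : ∃ E : ℝ, E = Real.exp (-(15 / 8 * Real.log (3 / 2) * kk) +
    72 * Real.sqrt ((2 * (w * kk + kk) + 2 * (w * kk) : ℕ) : ℝ)) := ⟨_, rfl⟩
  rw [← hE] at hBB
  have hwk : 32 ≤ w * kk := by nlinarith
  have hm1 : 33 ≤ m := by omega
  obtain ⟨L, hL⟩ : ∃ L, L + 2 * m = 2 * ((2 * m) ^ 2 - 1) := by
    refine ⟨2 * ((2 * m) ^ 2 - 1) - 2 * m, Nat.sub_add_cancel ?_⟩
    have : 2 * m + 1 ≤ (2 * m) ^ 2 := by nlinarith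
    omega
  obtain ⟨be, hbe⟩ : ∃ be : ℝ, be = Real.log (3 / 2) * (w + 1) / w := ⟨_, rfl⟩
  have hbe0 : 0 < be := by rw [hbe]; positivity
  obtain ⟨q, hq1, hq2⟩ := ell ((2 * (w * kk)) ^ 2) be (by nlinarith) hbe0
  rw [hbe] at hq1 hq2
  -- lower bound
  have hlow := hRR w kk L q hw hk (by rw [← hm]; exact hL) (by push_cast at hq1 ⊢; exact hq1)
  have hlow2 := @hRK (CY (w * kk) kk × CY (w * kk) kk) (CZ (w * kk) × CZ (w * kk)) _ _ _ _ k _ _
    (PC ℤ (w * kk) kk) R' (L + 2 * (w * kk + kk)) q L (q + 2 * (w * kk))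
  rw [PC_map, PC_map] at hlow2
  -- upper bound
  have : Nonempty (CY (w * kk) kk × CY (w * kk) kk) :=
    ⟨(Sum.inl (true, ⟨0, by omega⟩), Sum.inl (true, ⟨0, by omega⟩))⟩
  have : Nonempty (CZ (w * kk) × CZ (w * kk)) :=
    ⟨((true, ⟨0, by omega⟩), (true, ⟨0, by omega⟩))⟩
  have hcY : Fintype.card (CY (w * kk) kk × CY (w * kk) kk) = (2 * (w * kk + kk)) ^ 2 := by
    rw [Fintype.card_prod, card_CY, sq]
  have hcZ : Fintype.card (CZ (w * kk) × CZ (w * kk)) = (2 * (w * kk)) ^ 2 := by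
    rw [Fintype.card_prod, card_CZ, sq]
  have hupp := hBr _ _ (LaurentSeries k) _ _ _ _ L q (2 * (w * kk + kk)) (2 * (w * kk)) (by omega)
    (by
      rw [hcY, ← hm, Real.exp_log (by norm_num)]
      have h5 : ((L : ℝ) + ((2 * m : ℕ) : ℝ)) = 2 * (((2 * m : ℕ) : ℝ) ^ 2 - 1) := by
        have h6 : ((L + 2 * m : ℕ) : ℝ) = ((2 * ((2 * m) ^ 2 - 1) : ℕ) : ℝ) := by rw [hL]
        rw [Nat.cast_add, Nat.cast_mul 2 ((2 * m) ^ 2 - 1), Nat.cast_sub (Nat.one_le_pow _ _
          (by omega)), Nat.cast_pow] at h6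
        push_cast at h6 ⊢
        exact h6
      rw [h5]
      have h7 : (66 : ℝ) ≤ ((2 * m : ℕ) : ℝ) := by exact_mod_cast (by omega : 66 ≤ 2 * m)
      have h8 : (1 : ℝ) < ((2 * m : ℕ) : ℝ) ^ 2 := by nlinarith
      rw [le_div_iff₀ (by linarith)]
      push_cast
      linarith)
    (by rw [hcZ]; exact hq2) hBB
  rw [hcY, hcZ] at hupp
  have hexp0 : Real.exp (-(((2 * (w * kk + kk) : ℕ) : ℝ) * Real.log (3 / 2) -
      ((2 * (w * kk) : ℕ) : ℝ) * (Real.log (3 / 2) * (w + 1) / w)) / 2) = 1 := by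
    rw [Real.exp_eq_one_iff]
    have hw0 : (w : ℝ) ≠ 0 := by positivity
    push_cast
    field_simp
    ring
  rw [hexp0, mul_one] at hupp
  obtain ⟨T, hT⟩ : ∃ T : ℝ, T = (TT ((2 * (w * kk + kk)) ^ 2) (L + 2 * (w * kk + kk)) : ℝ) *
    TT ((2 * (w * kk)) ^ 2) q := ⟨_, rfl⟩
  have hTpos : 0 < T := by
    rw [hT]
    apply mul_pos
    · exact_mod_cast TT_pos (Nat.one_le_pow _ _ (by omega))
    · exact_mod_cast TT_pos (Nat.one_le_pow _ _ (by omega))
  obtain ⟨X, hX⟩ : ∃ X : ℝ, X = 1000 * ((2 * (w * kk + kk) + 1 : ℕ) : ℝ) ^ 6 := ⟨_, rfl⟩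
  have hXpos : 0 < X := by rw [hX]; positivity
  rw [← hT, ← hX] at hlow
  rw [← hT] at hupp
  have hEpos : 0 < E := by rw [hE]; exact Real.exp_pos _
  have h9 : T ≤ T * (S * E) * (X * Real.exp (7 / 4 * Real.log (3 / 2) * kk)) := by
    refine hlow.trans ?_
    apply mul_le_mul_of_nonneg_right _ (by positivity)
    exact (Nat.cast_le.mpr hlow2).trans hupp
  have h10 : 1 ≤ (S * E) * (X * Real.exp (7 / 4 * Real.log (3 / 2) * kk)) := by
    rw [mul_assoc] at h9
    exact le_of_mul_le_mul_left (by linarith) hTpos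
  have hS : 1 ≤ S := by
    by_contra hcon
    have : S = 0 := by omega
    rw [this] at h10
    norm_num at h10
  refine ⟨hS, ?_⟩
  have hSpos : (0 : ℝ) < S := by exact_mod_cast (by omega : 0 < S)
  have h11 := Real.log_le_log one_pos h10
  rw [Real.log_one, Real.log_mul (by positivity) (by positivity), Real.log_mul (by positivity)
    (by positivity), Real.log_mul (by positivity) (by positivity), Real.log_exp, hE,
    Real.log_exp, hX] at h11
  linarith

include hProj hUp hAf hTr hTT hBH hSm hRR hRK hBr hNum in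
/-- The lower bound for depth three circuits. -/
theorem main_final3 (k : Type) [Field k] [CharZero k] (N S D r : ℕ)
    (F : Fin S → Fin D → MvPolynomial (Fin r) (LaurentSeries k))
    (l : Fin S → Fin D → Fin r → MvPolynomial (Fin N × Fin N) (LaurentSeries k))
    (hl : ∀ i j a, (l i j a).totalDegree ≤ 1)
    (R : MvPolynomial (Fin N × Fin N) (PowerSeries k))
    (h : ∑ i, ∏ j, aeval (l i j) (F i j) =
      MvPolynomial.map (algebraMap (PowerSeries k) (LaurentSeries k))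
        (permP (PowerSeries k) N + C PowerSeries.X * R))
    (hD : 1 ≤ D) (hr : 1 ≤ r) :
    (N : ℝ) / 10 ^ 10 ≤ (Real.log S + Real.sqrt N) * (Real.log D + r) := by
  have hlogD : 0 ≤ Real.log D := Real.log_nonneg (by exact_mod_cast hD)
  have hrR : (1 : ℝ) ≤ r := by exact_mod_cast hr
  have hlog : Real.log S = Real.log (max (S : ℝ) 1) := by
    rcases Nat.eq_zero_or_pos S with h0 | h0
    · rw [h0]; simp
    · rw [max_eq_left]
      exact_mod_cast h0
  rw [hlog]
  refine hNum N (max (S : ℝ) 1) (Real.log D + r) _ _ _ (le_max_right _ _) (by linarith) rfl rfl rfl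
    fun hk => ?_
  have h1 := ineq3 hProj hUp hAf hTr hTT hBH hSm hRR hRK hBr k N S D r _ _ _ F l hl R h hD hr hk
    le_rfl (Nat.le_ceil _) (by
      have h2 := Nat.div_mul_le_self N (4 * (2 * (32 * ⌈4000 * (Real.log D + r)⌉₊) + 1))
      refine le_trans (le_of_eq ?_) h2
      ring)
  rw [← hlog]
  exact h1.2

end Pool.Agent.Work.MP_499dc6_lc.D3

end

section

/-!
# Item Affine: affine forms
-/

namespace Pool.Agent.Work.MP_499dc6_lc.D3

open MvPolynomial
open Pool.Agent.Work.MP_499dc6_lc.CD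

theorem pr_Affine : S_Affine := by
  classical
  intro Y Z _ _ R _ l hl
  refine ⟨coeff 0 l, bc 1 0 l, bc 0 1 l, isBi_bc 1 0 l, isBi_bc 0 1 l, ?_⟩
  ext m
  rw [coeff_add, coeff_add, coeff_bc, coeff_bc, coeff_C]
  by_cases h0 : coeff m l = 0
  · rw [h0, ite_self, ite_self]
    split_ifs with h
    · rw [h, h0]; simp
    · simp
  · have h1 : m.degree ≤ 1 := (le_totalDegree (mem_support_iff.2 h0)).trans hl
    rw [deg_eq] at h1
    have h2 : (0 : Y ⊕ Z →₀ ℕ) = m ↔ dY m = 0 ∧ dZ m = 0 := by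
      constructor
      · intro h
        rw [← h]
        simp [dY, dZ]
      · rintro ⟨h3, h4⟩
        have h5 : m.degree = 0 := by rw [deg_eq, h3, h4]
        exact ((Finsupp.degree_eq_zero_iff m).1 h5).symm
    rcases Nat.eq_zero_or_pos (dY m) with hy | hy
    · rcases Nat.eq_zero_or_pos (dZ m) with hz | hz
      · rw [if_pos (h2.2 ⟨hy, hz⟩), if_neg, if_neg, h2.2 ⟨hy, hz⟩]
        · simp
        · rintro ⟨_, h⟩; omega
        · rintro ⟨h, _⟩; omega
      · have hz1 : dZ m = 1 := by omega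
        rw [if_neg, if_neg, if_pos ⟨hy, hz1⟩]
        · simp
        · rintro ⟨h, _⟩; omega
        · intro h
          have := h2.1 h
          omega
    · have hy1 : dY m = 1 := by omega
      have hz : dZ m = 0 := by omega
      rw [if_neg, if_pos ⟨hy1, hz⟩, if_neg]
      · simp
      · rintro ⟨h, _⟩; omega
      · intro h
        have := h2.1 h
        omega

end Pool.Agent.Work.MP_499dc6_lc.D3

end

section

/-!
# Substitution of linear forms and bihomogeneous components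
-/

set_option autoImplicit false

namespace Pool.Agent.Work.MP_499dc6_lc.D3

open MvPolynomial
open Pool.Agent.Work.MP_499dc6_lc.CD

section

variable {Y Z : Type} [Fintype Y] [Fintype Z] {R : Type} [CommRing R]

theorem BcAeval_pow {g : MvPolynomial (Y ⊕ Z) R} {x y : ℕ} (hg : IsBi g x y) (k : ℕ) :
    IsBi (g ^ k) (k * x) (k * y) := by
  induction k with
  | zero => rw [pow_zero, Nat.zero_mul, Nat.zero_mul]; exact isBi_one
  | succ k ih =>
    rw [pow_succ, Nat.succ_mul, Nat.succ_mul]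
    exact pr_BiMul Y Z R (g ^ k) g _ _ _ _ ih hg

theorem BcAeval_prod {ι : Type*} (s : Finset ι) (g : ι → MvPolynomial (Y ⊕ Z) R) (x y : ι → ℕ)
    (hg : ∀ i, IsBi (g i) (x i) (y i)) : IsBi (∏ i ∈ s, g i) (∑ i ∈ s, x i) (∑ i ∈ s, y i) := by
  classical
  induction s using Finset.induction_on with
  | empty => rw [Finset.prod_empty, Finset.sum_empty, Finset.sum_empty]; exact isBi_one
  | insert i s hi ih =>
    rw [Finset.prod_insert hi, Finset.sum_insert hi, Finset.sum_insert hi]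
    exact pr_BiMul Y Z R (g i) _ _ _ _ _ (hg i) ih

theorem BcAeval_monomial {Y' Z' : Type} [Fintype Y'] [Fintype Z']
    (y : Y' → MvPolynomial (Y ⊕ Z) R) (z : Z' → MvPolynomial (Y ⊕ Z) R)
    (hy : ∀ i, IsBi (y i) 1 0) (hz : ∀ i, IsBi (z i) 0 1) (m : Y' ⊕ Z' →₀ ℕ) (a : R) :
    IsBi (aeval (Sum.elim y z) (monomial m a)) (dY m) (dZ m) := by
  rw [aeval_monomial, Finsupp.prod_fintype _ _ fun i => pow_zero _, Fintype.prod_sum_type,
    MvPolynomial.algebraMap_eq]
  apply isBi_C_mul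
  have h1 : IsBi (∏ i : Y', (Sum.elim y z (Sum.inl i)) ^ (m (Sum.inl i)))
      (∑ i : Y', m (Sum.inl i) * 1) (∑ i : Y', m (Sum.inl i) * 0) :=
    BcAeval_prod _ _ _ _ fun i => BcAeval_pow (hy i) _
  have h2 : IsBi (∏ i : Z', (Sum.elim y z (Sum.inr i)) ^ (m (Sum.inr i)))
      (∑ i : Z', m (Sum.inr i) * 0) (∑ i : Z', m (Sum.inr i) * 1) :=
    BcAeval_prod _ _ _ _ fun i => BcAeval_pow (hz i) _
  have h3 := pr_BiMul Y Z R _ _ _ _ _ _ h1 h2
  simp only [Nat.mul_one, Nat.mul_zero, Finset.sum_const_zero, Nat.add_zero, Nat.zero_add] at h3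
  exact h3

end

theorem pr_BcAeval : S_BcAeval := by
  intro Y Z Y' Z' _ _ _ _ R _ y z f u v hy hz
  rw [f.as_sum, map_sum, bc_sum, bc_sum, map_sum]
  refine Finset.sum_congr rfl fun m _ => ?_
  rw [bc_of_isBi (BcAeval_monomial y z hy hz m _), bc_of_isBi (isBi_monomial m _)]
  split_ifs
  · rfl
  · rw [map_zero]

end Pool.Agent.Work.MP_499dc6_lc.D3

end

section

/-!
# Item BcMul: bihomogeneous components of a product
-/

namespace Pool.Agent.Work.MP_499dc6_lc.D3

open MvPolynomial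
open Pool.Agent.Work.MP_499dc6_lc.CD

section

variable {Y Z : Type}

private theorem BcMul_dY [Fintype Y] (p q : Y ⊕ Z →₀ ℕ) : dY (p + q) = dY p + dY q := by
  simp only [dY, Finsupp.add_apply, Finset.sum_add_distrib]

private theorem BcMul_dZ [Fintype Z] (p q : Y ⊕ Z →₀ ℕ) : dZ (p + q) = dZ p + dZ q := by
  simp only [dZ, Finsupp.add_apply, Finset.sum_add_distrib]

end

theorem pr_BcMul : S_BcMul := by
  classical
  intro Y Z _ _ R _ f g u v
  ext m
  rw [coeff_bc, coeff_sum]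
  simp only [coeff_sum, coeff_mul]
  have h1 : ∑ p ∈ Finset.HasAntidiagonal.antidiagonal u,
      ∑ q ∈ Finset.HasAntidiagonal.antidiagonal v,
        ∑ x ∈ Finset.HasAntidiagonal.antidiagonal m,
          coeff x.1 (bc p.1 q.1 f) * coeff x.2 (bc p.2 q.2 g) =
      ∑ x ∈ Finset.HasAntidiagonal.antidiagonal m,
        if dY m = u ∧ dZ m = v then coeff x.1 f * coeff x.2 g else 0 := by
    have h2 : ∀ p ∈ Finset.HasAntidiagonal.antidiagonal u,
        ∑ q ∈ Finset.HasAntidiagonal.antidiagonal v,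
        ∑ x ∈ Finset.HasAntidiagonal.antidiagonal m,
          coeff x.1 (bc p.1 q.1 f) * coeff x.2 (bc p.2 q.2 g) =
        ∑ x ∈ Finset.HasAntidiagonal.antidiagonal m,
        ∑ q ∈ Finset.HasAntidiagonal.antidiagonal v,
          coeff x.1 (bc p.1 q.1 f) * coeff x.2 (bc p.2 q.2 g) := fun p _ => Finset.sum_comm
    rw [Finset.sum_congr rfl h2, Finset.sum_comm]
    refine Finset.sum_congr rfl fun x hx => ?_
    have hx' : x.1 + x.2 = m := Finset.HasAntidiagonal.mem_antidiagonal.1 hx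
    have hY : dY x.1 + dY x.2 = dY m := by rw [← BcMul_dY, hx']
    have hZ : dZ x.1 + dZ x.2 = dZ m := by rw [← BcMul_dZ, hx']
    simp only [coeff_bc]
    by_cases h : dY m = u ∧ dZ m = v
    · rw [if_pos h]
      obtain ⟨rfl, rfl⟩ := h
      rw [Finset.sum_eq_single_of_mem (dY x.1, dY x.2) (Finset.HasAntidiagonal.mem_antidiagonal.2 hY)]
      · rw [Finset.sum_eq_single_of_mem (dZ x.1, dZ x.2) (Finset.HasAntidiagonal.mem_antidiagonal.2 hZ)]
        · rw [if_pos ⟨rfl, rfl⟩, if_pos ⟨rfl, rfl⟩]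
        · intro q _ hq
          by_cases h3 : dY x.1 = dY x.1 ∧ dZ x.1 = q.1
          · by_cases h4 : dY x.2 = dY x.2 ∧ dZ x.2 = q.2
            · exact absurd (Prod.ext h3.2.symm h4.2.symm) hq
            · rw [if_neg h4, mul_zero]
          · rw [if_neg h3, zero_mul]
      · intro p _ hp
        refine Finset.sum_eq_zero fun q _ => ?_
        by_cases h3 : dY x.1 = p.1 ∧ dZ x.1 = q.1
        · by_cases h4 : dY x.2 = p.2 ∧ dZ x.2 = q.2
          · exact absurd (Prod.ext h3.1.symm h4.1.symm) hp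
          · rw [if_neg h4, mul_zero]
        · rw [if_neg h3, zero_mul]
    · rw [if_neg h]
      refine Finset.sum_eq_zero fun p hp => Finset.sum_eq_zero fun q hq => ?_
      rw [Finset.HasAntidiagonal.mem_antidiagonal] at hp hq
      by_cases h3 : dY x.1 = p.1 ∧ dZ x.1 = q.1
      · by_cases h4 : dY x.2 = p.2 ∧ dZ x.2 = q.2
        · exfalso
          apply h
          constructor
          · rw [← hY, h3.1, h4.1, hp]
          · rw [← hZ, h3.2, h4.2, hq]
        · rw [if_neg h4, mul_zero]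
      · rw [if_neg h3, zero_mul]
  rw [h1]
  by_cases h : dY m = u ∧ dZ m = v
  · simp only [if_pos h]
  · simp only [if_neg h, Finset.sum_const_zero]

end Pool.Agent.Work.MP_499dc6_lc.D3

end

section

/-!
# Forms of bidegree `(u, v)` in few linear forms
-/

namespace Pool.Agent.Work.MP_499dc6_lc.D3

open MvPolynomial
open Pool.Agent.Work.MP_499dc6_lc.CD

theorem FacBB_pow {Y Z : Type} [Fintype Y] [Fintype Z] {R : Type} [CommSemiring R]
    {f : MvPolynomial (Y ⊕ Z) R} {a b : ℕ} (h : IsBi f a b) (n : ℕ) :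
    IsBi (f ^ n) (n * a) (n * b) := by
  induction n with
  | zero =>
    rw [pow_zero, Nat.zero_mul, Nat.zero_mul]
    exact isBi_one
  | succ n ih =>
    rw [pow_succ, Nat.succ_mul, Nat.succ_mul]
    exact pr_BiMul Y Z R _ _ _ _ _ _ ih h

theorem FacBB_prod {Y Z : Type} [Fintype Y] [Fintype Z] {R : Type} [CommSemiring R] {ι : Type}
    (s : Finset ι) (f : ι → MvPolynomial (Y ⊕ Z) R) (a b : ι → ℕ)
    (h : ∀ i, IsBi (f i) (a i) (b i)) :
    IsBi (∏ i ∈ s, f i) (∑ i ∈ s, a i) (∑ i ∈ s, b i) := by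
  classical
  induction s using Finset.induction_on with
  | empty =>
    rw [Finset.prod_empty, Finset.sum_empty, Finset.sum_empty]
    exact isBi_one
  | insert i s hi ih =>
    rw [Finset.prod_insert hi, Finset.sum_insert hi, Finset.sum_insert hi]
    exact pr_BiMul Y Z R _ _ _ _ _ _ (h i) ih

theorem FacBB_sum {Y Z : Type} [Fintype Y] [Fintype Z] {K : Type} [Field K] (al be e : ℝ)
    {ι : Type} (s : Finset ι) (f : ι → MvPolynomial (Y ⊕ Z) K)
    (h : ∀ i ∈ s, BB al be (f i) e) : BB al be (∑ i ∈ s, f i) (s.card * e) := by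
  classical
  induction s using Finset.induction_on with
  | empty =>
    rw [Finset.sum_empty, Finset.card_empty, Nat.cast_zero, zero_mul]
    exact BB.zero
  | insert i s hi ih =>
    rw [Finset.sum_insert hi, Finset.card_insert_of_notMem hi, Nat.cast_succ, add_mul, one_mul,
      add_comm ((s.card : ℝ) * e) e]
    exact BB.add (h i (Finset.mem_insert_self i s))
      (ih fun j hj => h j (Finset.mem_insert_of_mem hj))

theorem FacBB_card {R : Type} [CommSemiring R] (r u v : ℕ)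
    (g : MvPolynomial (Fin r ⊕ Fin r) R) (hg : IsBi g u v) :
    g.support.card ≤ TT r u * TT r v := by
  classical
  have h1 : Fintype.card (Mon (Fin r) u × Mon (Fin r) v) = TT r u * TT r v := by
    rw [Fintype.card_prod, Conf_card_Mon, Conf_card_Mon, Fintype.card_fin]
  rw [← h1, ← Fintype.card_coe]
  refine Fintype.card_le_of_injective
    (fun m : {x // x ∈ g.support} =>
      ((⟨(Finsupp.sumFinsuppEquivProdFinsupp m.1).1, by
          rw [Conf_mem]
          exact (hg m.1 (mem_support_iff.1 m.2)).1⟩ : Mon (Fin r) u),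
        (⟨(Finsupp.sumFinsuppEquivProdFinsupp m.1).2, by
          rw [Conf_mem]
          exact (hg m.1 (mem_support_iff.1 m.2)).2⟩ : Mon (Fin r) v))) ?_
  intro m m' hmm
  apply Subtype.ext
  apply Finsupp.sumFinsuppEquivProdFinsupp.injective
  have h2 := congrArg (fun z => z.1.1) hmm
  have h3 := congrArg (fun z => z.2.1) hmm
  exact Prod.ext h2 h3

theorem pr_FacBB : S_FacBB := by
  intro Y Z _ _ K _ al be r u v g y z hg hy hz
  classical
  have h0 : aeval (Sum.elim y z) g =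
      ∑ m ∈ g.support, (C (coeff m g) * ∏ i, y i ^ m (Sum.inl i)) *
        ∏ i, z i ^ m (Sum.inr i) := by
    rw [aeval_def, eval₂_eq']
    refine Finset.sum_congr rfl fun m _ => ?_
    rw [Fintype.prod_sum_type, mul_assoc]
    rfl
  rw [h0]
  have h1 : ∀ m ∈ g.support, BB al be ((C (coeff m g) * ∏ i, y i ^ m (Sum.inl i)) *
      ∏ i, z i ^ m (Sum.inr i)) (Real.exp (-((u : ℝ) * al + v * be) / 2)) := by
    intro m hm
    obtain ⟨hu, hv⟩ := hg m (mem_support_iff.1 hm)
    have hY : IsBi (∏ i, y i ^ m (Sum.inl i)) u 0 := by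
      have h5 := FacBB_prod Finset.univ (fun i => y i ^ m (Sum.inl i))
        (fun i => m (Sum.inl i) * 1) (fun i => m (Sum.inl i) * 0) fun i => FacBB_pow (hy i) _
      have h6 : ∑ i, m (Sum.inl i) * 1 = u := by
        rw [← hu]
        exact Finset.sum_congr rfl fun i _ => Nat.mul_one _
      have h7 : ∑ i, m (Sum.inl i) * 0 = 0 := Finset.sum_eq_zero fun i _ => Nat.mul_zero _
      rw [h6, h7] at h5
      exact h5
    have hZ : IsBi (∏ i, z i ^ m (Sum.inr i)) 0 v := by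
      have h5 := FacBB_prod Finset.univ (fun i => z i ^ m (Sum.inr i))
        (fun i => m (Sum.inr i) * 0) (fun i => m (Sum.inr i) * 1) fun i => FacBB_pow (hz i) _
      have h6 : ∑ i, m (Sum.inr i) * 1 = v := by
        rw [← hv]
        exact Finset.sum_congr rfl fun i _ => Nat.mul_one _
      have h7 : ∑ i, m (Sum.inr i) * 0 = 0 := Finset.sum_eq_zero fun i _ => Nat.mul_zero _
      rw [h6, h7] at h5
      exact h5
    have h2 := BB.term (al := al) (be := be) (isBi_C_mul (coeff m g) hY) hZ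
    have h3 : ((((0 : ℕ) : ℝ) * al - v * be) - ((u : ℝ) * al - ((0 : ℕ) : ℝ) * be)) / 2 =
        -((u : ℝ) * al + v * be) / 2 := by
      push_cast
      ring
    rw [h3] at h2
    exact h2
  refine BB.mono (FacBB_sum al be _ g.support _ h1) ?_
  refine mul_le_mul_of_nonneg_right ?_ (Real.exp_pos _).le
  have h4 := FacBB_card r u v g hg
  exact_mod_cast h4

end Pool.Agent.Work.MP_499dc6_lc.D3

end

section

/-!
# Bigraded logarithmic derivative of a product
-/

namespace Pool.Agent.Work.MP_499dc6_lc.D3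

open MvPolynomial
open Pool.Agent.Work.MP_499dc6_lc.CD

section Ser

variable {A : Type} [CommRing A]

/-- Double series. -/
noncomputable def LogBi_S (F : ℕ → ℕ → A) : PowerSeries (PowerSeries A) :=
  PowerSeries.mk fun u => PowerSeries.mk fun v => F u v

theorem LogBi_coeff_S (F : ℕ → ℕ → A) (u v : ℕ) :
    PowerSeries.coeff v (PowerSeries.coeff u (LogBi_S F)) = F u v := by
  simp [LogBi_S]

theorem LogBi_ext {F G : PowerSeries (PowerSeries A)}
    (h : ∀ u v, PowerSeries.coeff v (PowerSeries.coeff u F) =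
      PowerSeries.coeff v (PowerSeries.coeff u G)) : F = G := by
  ext u v
  exact h u v

theorem LogBi_coeff_mul (F G : PowerSeries (PowerSeries A)) (u v : ℕ) :
    PowerSeries.coeff v (PowerSeries.coeff u (F * G)) =
      ∑ p ∈ Finset.HasAntidiagonal.antidiagonal u, ∑ q ∈ Finset.HasAntidiagonal.antidiagonal v,
        PowerSeries.coeff q.1 (PowerSeries.coeff p.1 F) *
          PowerSeries.coeff q.2 (PowerSeries.coeff p.2 G) := by
  rw [PowerSeries.coeff_mul, map_sum]
  refine Finset.sum_congr rfl fun p _ => ?_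
  rw [PowerSeries.coeff_mul]

/-- Euler operator. -/
noncomputable def LogBi_E (F : PowerSeries (PowerSeries A)) : PowerSeries (PowerSeries A) :=
  LogBi_S fun u v => ((u + v : ℕ) : A) * PowerSeries.coeff v (PowerSeries.coeff u F)

theorem LogBi_coeff_E (F : PowerSeries (PowerSeries A)) (u v : ℕ) :
    PowerSeries.coeff v (PowerSeries.coeff u (LogBi_E F)) =
      ((u + v : ℕ) : A) * PowerSeries.coeff v (PowerSeries.coeff u F) := by
  rw [LogBi_E, LogBi_coeff_S]

theorem LogBi_E_mul (F G : PowerSeries (PowerSeries A)) :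
    LogBi_E (F * G) = LogBi_E F * G + F * LogBi_E G := by
  apply LogBi_ext
  intro u v
  rw [LogBi_coeff_E, map_add, map_add, LogBi_coeff_mul, LogBi_coeff_mul, LogBi_coeff_mul,
    Finset.mul_sum, ← Finset.sum_add_distrib]
  refine Finset.sum_congr rfl fun p hp => ?_
  rw [Finset.mul_sum, ← Finset.sum_add_distrib]
  refine Finset.sum_congr rfl fun q hq => ?_
  rw [Finset.HasAntidiagonal.mem_antidiagonal] at hp hq
  rw [LogBi_coeff_E, LogBi_coeff_E, ← hp, ← hq]
  push_cast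
  ring

theorem LogBi_E_one : LogBi_E (1 : PowerSeries (PowerSeries A)) = 0 := by
  apply LogBi_ext
  intro u v
  rw [LogBi_coeff_E, map_zero, map_zero, PowerSeries.coeff_one]
  by_cases hu : u = 0
  · rw [if_pos hu, PowerSeries.coeff_one]
    by_cases hv : v = 0
    · rw [hu, hv]; simp
    · rw [if_neg hv, mul_zero]
  · rw [if_neg hu, map_zero, mul_zero]

theorem LogBi_prod {J : Type} (s : Finset J) (V W : J → PowerSeries (PowerSeries A))
    (h : ∀ j, LogBi_E (V j) = W j * V j) :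
    LogBi_E (∏ j ∈ s, V j) = (∑ j ∈ s, W j) * ∏ j ∈ s, V j := by
  classical
  induction s using Finset.induction_on with
  | empty => rw [Finset.prod_empty, Finset.sum_empty, LogBi_E_one, zero_mul]
  | insert a s ha ih =>
    rw [Finset.prod_insert ha, Finset.sum_insert ha, LogBi_E_mul, h a, ih]
    ring

end Ser

section Main

variable {Y Z : Type} [Fintype Y] [Fintype Z] {R : Type} [CommRing R]

/-- Double series of the bihomogeneous components. -/
noncomputable def LogBi_B (f : MvPolynomial (Y ⊕ Z) R) :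
    PowerSeries (PowerSeries (MvPolynomial (Y ⊕ Z) R)) :=
  LogBi_S fun u v => bc u v f

theorem LogBi_coeff_B (f : MvPolynomial (Y ⊕ Z) R) (u v : ℕ) :
    PowerSeries.coeff v (PowerSeries.coeff u (LogBi_B f)) = bc u v f := by
  rw [LogBi_B, LogBi_coeff_S]

theorem LogBi_B_mul (h1 : S_BcMul) (f g : MvPolynomial (Y ⊕ Z) R) :
    LogBi_B (f * g) = LogBi_B f * LogBi_B g := by
  apply LogBi_ext
  intro u v
  rw [LogBi_coeff_B, LogBi_coeff_mul, h1]
  refine Finset.sum_congr rfl fun p _ => Finset.sum_congr rfl fun q _ => ?_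
  rw [LogBi_coeff_B, LogBi_coeff_B]

theorem LogBi_B_one : LogBi_B (1 : MvPolynomial (Y ⊕ Z) R) = 1 := by
  apply LogBi_ext
  intro u v
  rw [LogBi_coeff_B, bc_of_isBi isBi_one, PowerSeries.coeff_one]
  by_cases hu : u = 0
  · rw [if_pos hu, PowerSeries.coeff_one]
    by_cases hv : v = 0
    · rw [if_pos hv, if_pos ⟨hu, hv⟩]
    · rw [if_neg hv, if_neg fun h => hv h.2]
  · rw [if_neg hu, map_zero, if_neg fun h => hu h.1]

theorem LogBi_B_prod (h1 : S_BcMul) {J : Type} (s : Finset J) (f : J → MvPolynomial (Y ⊕ Z) R) :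
    LogBi_B (∏ j ∈ s, f j) = ∏ j ∈ s, LogBi_B (f j) := by
  classical
  induction s using Finset.induction_on with
  | empty => rw [Finset.prod_empty, Finset.prod_empty, LogBi_B_one]
  | insert a s ha ih => rw [Finset.prod_insert ha, Finset.prod_insert ha, LogBi_B_mul h1, ih]

end Main

theorem LogBi_bc_natCast_mul {Y Z : Type} [Fintype Y] [Fintype Z] {R : Type} [CommRing R]
    (u v n : ℕ) (f : MvPolynomial (Y ⊕ Z) R) :
    bc u v ((n : MvPolynomial (Y ⊕ Z) R) * f) = (n : MvPolynomial (Y ⊕ Z) R) * bc u v f := by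
  have h : (n : MvPolynomial (Y ⊕ Z) R) = C (n : R) := by simp
  rw [h, bc_C_mul]

/-- The relation for one factor. -/
theorem LogBi_one (h1 : S_BcMul) (K : Type) [Field K] (r : ℕ)
    (G : MvPolynomial (Fin r ⊕ Fin r) K) (hG : constantCoeff G = 1) :
    ∃ g : ℕ → ℕ → MvPolynomial (Fin r ⊕ Fin r) K,
      g 0 0 = 0 ∧ (∀ u v, IsBi (g u v) u v) ∧
      ∀ u v : ℕ, ((u + v : ℕ) : MvPolynomial (Fin r ⊕ Fin r) K) * bc u v G =
        ∑ p ∈ Finset.HasAntidiagonal.antidiagonal u,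
          ∑ q ∈ Finset.HasAntidiagonal.antidiagonal v, g p.1 q.1 * bc p.2 q.2 G := by
  obtain ⟨w, hw0, hwh, hw, -⟩ := pr_LogDer pr_HcMul (Fin r ⊕ Fin r) K Unit (fun _ => G)
    (fun _ => 1) (fun _ => hG)
  refine ⟨fun u v => bc u v (w () (u + v)), ?_, fun u v => isBi_bc u v _, ?_⟩
  · show bc 0 0 (w () (0 + 0)) = 0
    rw [Nat.add_zero, hw0, bc_zero]
  · intro u v
    have h := congrArg (bc u v) (hw () (u + v))
    rw [LogBi_bc_natCast_mul, bc_hc, if_pos rfl, bc_sum] at h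
    rw [h]
    have h2 : ∀ p ∈ Finset.HasAntidiagonal.antidiagonal (u + v),
        bc u v (w () p.1 * homogeneousComponent p.2 G) =
          ∑ a ∈ Finset.HasAntidiagonal.antidiagonal u,
            ∑ b ∈ Finset.HasAntidiagonal.antidiagonal v,
              if a.1 + b.1 = p.1 then bc a.1 b.1 (w () (a.1 + b.1)) * bc a.2 b.2 G else 0 := by
      intro p hp
      rw [Finset.HasAntidiagonal.mem_antidiagonal] at hp
      rw [h1]
      refine Finset.sum_congr rfl fun a ha => Finset.sum_congr rfl fun b hb => ?_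
      rw [Finset.HasAntidiagonal.mem_antidiagonal] at ha hb
      rw [bc_hc]
      by_cases hab : a.1 + b.1 = p.1
      · rw [if_pos (by omega), if_pos hab, hab]
      · rw [if_neg (by omega), if_neg hab, mul_zero]
    rw [Finset.sum_congr rfl h2, Finset.sum_comm]
    refine Finset.sum_congr rfl fun a ha => ?_
    rw [Finset.sum_comm]
    refine Finset.sum_congr rfl fun b hb => ?_
    rw [Finset.HasAntidiagonal.mem_antidiagonal] at ha hb
    rw [Finset.sum_eq_single (a.1 + b.1, a.2 + b.2)]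
    · rw [if_pos rfl]
    · intro p hp hne
      rw [Finset.HasAntidiagonal.mem_antidiagonal] at hp
      rw [if_neg]
      intro h3
      exact hne (Prod.ext h3.symm (by simp only; omega))
    · intro h3
      exact absurd (Finset.HasAntidiagonal.mem_antidiagonal.2 (by simp only; omega)) h3

theorem pr_LogBi (h1 : S_BcMul) (h2 : S_BcAeval) : S_LogBi := by
  intro Y Z _ _ K _ D r G y z V hG hy hz hV
  choose g hg0 hgb hg using fun j => LogBi_one h1 K r (G j) (hG j)
  refine ⟨g, hg0, hgb, ?_⟩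
  have hj : ∀ j, LogBi_E (LogBi_B (aeval (Sum.elim (y j) (z j)) (G j))) =
      LogBi_S (fun u v => aeval (Sum.elim (y j) (z j)) (g j u v)) *
        LogBi_B (aeval (Sum.elim (y j) (z j)) (G j)) := by
    intro j
    apply LogBi_ext
    intro u v
    rw [LogBi_coeff_E, LogBi_coeff_B, LogBi_coeff_mul,
      h2 Y Z (Fin r) (Fin r) K (y j) (z j) (G j) u v (hy j) (hz j)]
    have h3 := congrArg (aeval (Sum.elim (y j) (z j))) (hg j u v)
    rw [map_mul, map_natCast, map_sum] at h3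
    rw [h3]
    refine Finset.sum_congr rfl fun p _ => ?_
    rw [map_sum]
    refine Finset.sum_congr rfl fun q _ => ?_
    rw [LogBi_coeff_S, LogBi_coeff_B, map_mul,
      h2 Y Z (Fin r) (Fin r) K (y j) (z j) (G j) p.2 q.2 (hy j) (hz j)]
  have hP := LogBi_prod Finset.univ
    (fun j => LogBi_B (aeval (Sum.elim (y j) (z j)) (G j))) _ hj
  rw [← LogBi_B_prod h1, ← hV] at hP
  intro u v
  have h4 := congrArg (fun F => PowerSeries.coeff v (PowerSeries.coeff u F)) hP
  rw [LogBi_coeff_E, LogBi_coeff_B, LogBi_coeff_mul] at h4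
  rw [h4]
  refine Finset.sum_congr rfl fun p _ => Finset.sum_congr rfl fun q _ => ?_
  rw [LogBi_coeff_B, map_sum, map_sum]
  congr 1
  refine Finset.sum_congr rfl fun j _ => ?_
  rw [LogBi_coeff_S]

end Pool.Agent.Work.MP_499dc6_lc.D3

end

section

/-!
# Upper bound for a product
-/

set_option autoImplicit false

namespace Pool.Agent.Work.MP_499dc6_lc.D3

open MvPolynomial
open Pool.Agent.Work.MP_499dc6_lc.CD

section

variable {Y Z : Type} [Fintype Y] [Fintype Z] {R : Type} [CommRing R]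

theorem Up_isBi_pow {f : MvPolynomial (Y ⊕ Z) R} {u v : ℕ} (h : IsBi f u v) (n : ℕ) :
    IsBi (f ^ n) (n * u) (n * v) := by
  induction n with
  | zero => simpa using (isBi_one (Y := Y) (Z := Z) (R := R))
  | succ n ih =>
    rw [pow_succ, Nat.succ_mul, Nat.succ_mul]
    exact pr_BiMul Y Z R _ _ _ _ _ _ ih h

theorem Up_isBi_prod {ι : Type} (s : Finset ι) (f : ι → MvPolynomial (Y ⊕ Z) R) (a b : ι → ℕ)
    (h : ∀ i ∈ s, IsBi (f i) (a i) (b i)) : IsBi (∏ i ∈ s, f i) (∑ i ∈ s, a i) (∑ i ∈ s, b i) := by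
  classical
  induction s using Finset.induction_on with
  | empty => simpa using (isBi_one (Y := Y) (Z := Z) (R := R))
  | insert i s hi ih =>
    rw [Finset.prod_insert hi, Finset.sum_insert hi, Finset.sum_insert hi]
    exact pr_BiMul Y Z R _ _ _ _ _ _ (h i (Finset.mem_insert_self i s))
      (ih fun j hj => h j (Finset.mem_insert_of_mem hj))

theorem Up_isBi_aeval {Y' Z' : Type} [Fintype Y'] [Fintype Z']
    (y : Y' → MvPolynomial (Y ⊕ Z) R) (z : Z' → MvPolynomial (Y ⊕ Z) R)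
    (f : MvPolynomial (Y' ⊕ Z') R) (u v : ℕ) (hy : ∀ i, IsBi (y i) 1 0)
    (hz : ∀ i, IsBi (z i) 0 1) (hf : IsBi f u v) : IsBi (aeval (Sum.elim y z) f) u v := by
  rw [aeval_def, eval₂_eq']
  refine isBi_sum _ _ fun m hm => ?_
  rw [algebraMap_eq]
  refine isBi_C_mul _ ?_
  obtain ⟨h1, h2⟩ := hf m (mem_support_iff.1 hm)
  rw [Fintype.prod_sum_type]
  simp only [Sum.elim_inl, Sum.elim_inr]
  have e1 := Up_isBi_prod Finset.univ (fun i => y i ^ m (Sum.inl i)) (fun i => m (Sum.inl i) * 1)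
    (fun i => m (Sum.inl i) * 0) fun i _ => Up_isBi_pow (hy i) _
  have e2 := Up_isBi_prod Finset.univ (fun i => z i ^ m (Sum.inr i)) (fun i => m (Sum.inr i) * 0)
    (fun i => m (Sum.inr i) * 1) fun i _ => Up_isBi_pow (hz i) _
  have e3 := pr_BiMul Y Z R _ _ _ _ _ _ e1 e2
  simp only [mul_one, mul_zero, Finset.sum_const_zero, add_zero, zero_add] at e3
  rw [← h1, ← h2]
  exact e3

theorem Up_bc00 (f : MvPolynomial (Y ⊕ Z) R) : bc 0 0 f = C (constantCoeff f) := by
  classical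
  ext m
  rw [coeff_bc, coeff_C]
  by_cases h : 0 = m
  · subst h
    rw [if_pos rfl, if_pos]
    · rfl
    · simp [dY, dZ]
  · rw [if_neg h, if_neg]
    rintro ⟨h1, h2⟩
    apply h
    ext i
    rcases i with i | i
    · rw [dY, Finset.sum_eq_zero_iff] at h1
      exact (h1 i (Finset.mem_univ i)).symm
    · rw [dZ, Finset.sum_eq_zero_iff] at h2
      exact (h2 i (Finset.mem_univ i)).symm

theorem Up_cc_aeval {Y' Z' : Type} (y : Y' → MvPolynomial (Y ⊕ Z) R)
    (z : Z' → MvPolynomial (Y ⊕ Z) R) (f : MvPolynomial (Y' ⊕ Z') R)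
    (hy : ∀ i, IsBi (y i) 1 0) (hz : ∀ i, IsBi (z i) 0 1) :
    constantCoeff (aeval (Sum.elim y z) f) = constantCoeff f := by
  rw [map_aeval]
  have h : (fun i => constantCoeff (Sum.elim y z i)) = fun _ => (0 : R) := by
    funext i
    rcases i with i | i
    · by_contra h0
      have := (hy i 0 h0).1
      simp [dY] at this
    · by_contra h0
      have := (hz i 0 h0).2
      simp [dZ] at this
  rw [h, eval₂Hom_zero'_apply]
  simp

end

theorem Up_theta : Real.exp (-(Real.log (3 / 2) / 64)) ≤ 159 / 160 := by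
  have h1 := Num_log
  have h2 := Real.add_one_le_exp (Real.log (3 / 2) / 64)
  rw [Real.exp_neg, inv_le_comm₀ (Real.exp_pos _) (by norm_num)]
  refine le_trans ?_ h2
  norm_num
  linarith

/-- The case of constant coefficients `1`. -/
theorem Up_main (h1 : S_LogBi) (h2 : S_Span2) (h3 : S_SpanBB2) (h4 : S_FacBB) (h5 : S_BiBB)
    (h6 : S_TypeSum) (h7 : S_Large) (h8 : S_TypeS) (h9 : S_TypeL)
    (Y Z : Type) [Fintype Y] [Fintype Z] (K : Type) [Field K] [CharZero K] (w k t D r : ℕ)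
    (G : Fin D → MvPolynomial (Fin r ⊕ Fin r) K)
    (y z : Fin D → Fin r → MvPolynomial (Y ⊕ Z) K)
    (hD : 1 ≤ D) (hr : 1 ≤ r) (hk : 1 ≤ k) (hw : 32 * t ≤ w) (ht : 4000 * (Real.log D + r) ≤ t)
    (hG : ∀ j, constantCoeff (G j) = 1) (hy : ∀ j i, IsBi (y j i) 1 0)
    (hz : ∀ j i, IsBi (z j i) 0 1) :
    BB (Real.log (3 / 2)) (Real.log (3 / 2) * (w + 1) / w)
      (bc (2 * (w * k + k)) (2 * (w * k)) (∏ j, aeval (Sum.elim (y j) (z j)) (G j)))
      (Real.exp (-(15 / 8 * Real.log (3 / 2) * k) +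
        72 * Real.sqrt ((2 * (w * k + k) + 2 * (w * k) : ℕ) : ℝ))) := by
  obtain ⟨g, hg0, hgb, hg⟩ := h1 Y Z K D r G y z _ hG hy hz rfl
  set V := ∏ j, aeval (Sum.elim (y j) (z j)) (G j) with hV
  have hV00 : bc 0 0 V = 1 := by
    rw [Up_bc00, hV, map_prod, Finset.prod_eq_one, map_one]
    intro j _
    rw [Up_cc_aeval _ _ _ (hy j) (hz j), hG j]
  have hWb : ∀ u v, IsBi (∑ j, aeval (Sum.elim (y j) (z j)) (g j u v)) u v := fun u v =>
    isBi_sum _ _ fun j _ => Up_isBi_aeval _ _ _ _ _ (hy j) (hz j) (hgb j u v)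
  have hW0 : ∑ j, aeval (Sum.elim (y j) (z j)) (g j 0 0) = 0 := by
    refine Finset.sum_eq_zero fun j _ => ?_
    rw [hg0 j, map_zero]
  have hPS := h2 K (MvPolynomial (Y ⊕ Z) K) (fun u v => bc u v V)
    (fun u v => ∑ j, aeval (Sum.elim (y j) (z j)) (g j u v)) hV00 hW0 hg
    (2 * (w * k + k)) (2 * (w * k))
  -- numbers
  have hal := Num_log
  set al := Real.log (3 / 2) with hal_def
  have hlogD : 0 ≤ Real.log D := Real.log_natCast_nonneg D
  have hr1 : (1 : ℝ) ≤ r := by exact_mod_cast hr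
  have ht1' : (1 : ℝ) ≤ t := by linarith
  have ht1 : 1 ≤ t := by exact_mod_cast ht1'
  have hw1 : 1 ≤ w := by omega
  have hw0 : (w : ℝ) ≠ 0 := by positivity
  have hk1 : (1 : ℝ) ≤ k := by exact_mod_cast hk
  set a := 2 * (w * k + k) with ha
  set b := 2 * (w * k) with hb
  have hd1 : 1 ≤ a + b := by
    have : 1 ≤ w * k := Nat.mul_pos hw1 hk
    omega
  have hd1' : (1 : ℝ) ≤ ((a + b : ℕ) : ℝ) := by exact_mod_cast hd1
  set q := Real.sqrt ((a + b : ℕ) : ℝ) with hq
  have hqq : q * q = ((a + b : ℕ) : ℝ) := Real.mul_self_sqrt (by linarith)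
  have hq0 : 0 < q := Real.sqrt_pos.2 (by linarith)
  set s := 36 / q with hs
  have hs0 : 0 < s := by positivity
  set be := al * (w + 1) / w with hbe
  set θ := Real.exp (-(al / 64)) with hθ
  have hθ0 : 0 < θ := Real.exp_pos _
  have hθ1 : θ ≤ 159 / 160 := Up_theta
  set x : ℕ → ℕ → ℝ := fun u v => if u + v < t then Real.exp (-|(u : ℝ) * al - v * be| / 2) else
    D * (TT r u * TT r v * Real.exp (-((u : ℝ) * al + v * be) / 2)) with hx
  have hxBB : ∀ τ ∈ Ty a b, BB al be ((fun u v => ∑ j, aeval (Sum.elim (y j) (z j)) (g j u v))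
      τ.1 τ.2) (x τ.1 τ.2) := by
    intro τ _
    simp only [hx]
    split_ifs with hlt
    · exact h5 Y Z K al be _ _ _ (hWb _ _)
    · have h := LB_sum al be (Finset.univ : Finset (Fin D))
        (fun j => aeval (Sum.elim (y j) (z j)) (g j τ.1 τ.2)) _
        (fun j _ => h4 Y Z K al be r τ.1 τ.2 (g j τ.1 τ.2) (y j) (z j) (hgb j _ _) (hy j) (hz j))
      rwa [Finset.card_univ, Fintype.card_fin] at h
  set A := al / 2 - 961 / 1024 * al + s with hA
  set B := -be / 2 + 961 / 1024 * al + s with hB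
  have hle : ∀ τ ∈ Ty a b, x τ.1 τ.2 * Real.exp (-(A * τ.1 + B * τ.2)) ≤
      θ ^ ((τ.1 : ℤ) - τ.2).natAbs * Real.exp (-(s * (τ.1 + τ.2))) := by
    intro τ _
    simp only [hx]
    split_ifs with hlt
    · exact h8 w t τ.1 τ.2 s ht1 hw hlt
    · have hX := h7 D r τ.1 τ.2 hD hr (by
        have : (t : ℝ) ≤ ((τ.1 + τ.2 : ℕ) : ℝ) := by exact_mod_cast not_lt.1 hlt
        push_cast at this
        linarith)
      have h := h9 w τ.1 τ.2 s (D * (TT r τ.1 * TT r τ.2)) hw1 (by positivity) hX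
      refine le_trans (le_of_eq ?_) h
      ring
  have hlt : ∀ τ ∈ Ty a b, x τ.1 τ.2 * Real.exp (-(A * τ.1 + B * τ.2)) < 1 := by
    intro τ hτ
    refine (hle τ hτ).trans_lt ?_
    have h10 : θ ^ ((τ.1 : ℤ) - τ.2).natAbs ≤ 1 := pow_le_one₀ hθ0.le (by linarith)
    have h11 : (1 : ℝ) ≤ (τ.1 : ℝ) + τ.2 := by
      have h12 : τ ≠ (0, 0) := Finset.ne_of_mem_erase hτ
      have h13 : 1 ≤ τ.1 + τ.2 := by
        by_contra h14
        apply h12
        ext
        · show τ.1 = 0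
          omega
        · show τ.2 = 0
          omega
      exact_mod_cast h13
    have h15 : Real.exp (-(s * (τ.1 + τ.2))) < 1 := by
      rw [Real.exp_lt_one_iff]
      have : 0 < s * ((τ.1 : ℝ) + τ.2) := by positivity
      linarith
    calc θ ^ ((τ.1 : ℤ) - τ.2).natAbs * Real.exp (-(s * (τ.1 + τ.2)))
        ≤ 1 * Real.exp (-(s * (τ.1 + τ.2))) :=
          mul_le_mul_of_nonneg_right h10 (Real.exp_pos _).le
      _ < 1 := by rwa [one_mul]
  have hx0 : ∀ u v, 0 ≤ x u v := by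
    intro u v
    simp only [hx]
    split_ifs <;> positivity
  have hmain := h3 Y Z K al be (fun u v => ∑ j, aeval (Sum.elim (y j) (z j)) (g j u v))
    (bc a b V) a b x A B hPS hxBB hlt
  refine hmain.mono ?_
  have hprod := h6 θ s a b (fun τ => x τ.1 τ.2 * Real.exp (-(A * τ.1 + B * τ.2))) hθ0
    (by linarith) hs0 (fun τ _ => mul_nonneg (hx0 _ _) (Real.exp_pos _).le) hle
  refine (mul_le_mul_of_nonneg_left hprod (Real.exp_pos _).le).trans ?_
  rw [← Real.exp_add]
  refine Real.exp_le_exp.2 ?_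
  have hAB : A * (a : ℝ) + B * (b : ℝ) = -(961 / 512) * al * k + 36 * q := by
    have e1 : be * (b : ℝ) = al * a := by
      rw [hbe, hb, ha]
      push_cast
      field_simp
    have e2 : s * ((a : ℝ) + b) = 36 * q := by
      rw [hs]
      have : ((a : ℝ) + b) = q * q := by rw [hqq]; push_cast; ring
      rw [this]
      field_simp
    have e3 : (a : ℝ) - b = 2 * k := by
      rw [ha, hb]
      push_cast
      ring
    have e4 : A * (a : ℝ) + B * (b : ℝ) = (al * a - be * b) / 2 - 961 / 1024 * al * (a - b) +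
        s * (a + b) := by
      rw [hA, hB]
      ring
    rw [e4, e1, e2, e3]
    ring
  have h20 : 8 / ((1 - θ) * s) ≤ 36 * q := by
    rw [div_le_iff₀ (by apply mul_pos (by linarith) hs0)]
    have e5 : 36 * q * ((1 - θ) * s) = 36 * 36 * (1 - θ) := by
      rw [hs]
      field_simp
    rw [e5]
    linarith
  have h21 : 0 ≤ al * k := by positivity
  rw [hAB]
  linarith

theorem pr_Up (h1 : S_LogBi) (h2 : S_Span2) (h3 : S_SpanBB2) (h4 : S_FacBB) (h5 : S_BiBB)
    (h6 : S_TypeSum) (h7 : S_Large) (h8 : S_TypeS) (h9 : S_TypeL) : S_Up := by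
  intro Y Z _ _ K _ _ w k t D r G y z hD hr hk hw ht hG hy hz
  have h := Up_main h1 h2 h3 h4 h5 h6 h7 h8 h9 Y Z K w k t D r
    (fun j => C (constantCoeff (G j))⁻¹ * G j) y z hD hr hk hw ht (fun j => by
      rw [map_mul, constantCoeff_C, inv_mul_cancel₀ (hG j)]) hy hz
  have e : ∏ j, aeval (Sum.elim (y j) (z j)) (G j) =
      C (∏ j, constantCoeff (G j)) *
        ∏ j, aeval (Sum.elim (y j) (z j)) (C (constantCoeff (G j))⁻¹ * G j) := by
    rw [map_prod, ← Finset.prod_mul_distrib]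
    refine Finset.prod_congr rfl fun j _ => ?_
    rw [map_mul, aeval_C, algebraMap_eq, ← mul_assoc, ← C_mul, mul_inv_cancel₀ (hG j), C_1,
      one_mul]
  rw [e, bc_C_mul]
  exact pr_BBsmul Y Z K _ _ _ _ _ h

end Pool.Agent.Work.MP_499dc6_lc.D3

end

section

/-!
# The final numbers, version with `p` products
-/

set_option autoImplicit false

namespace Pool.Agent.Work.MP_499dc6_lc.D3

theorem num_multi (N p : ℕ) (S τ : ℝ) (t w k : ℕ) (hp : 1 ≤ p) (hS : 1 ≤ S) (hτ : 1 ≤ τ)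
    (ht : t = ⌈4000 * τ⌉₊) (hw : w = 32 * t) (hk : k = N / (4 * (2 * w + 1)))
    (hmain : 1 ≤ k → Real.log (3 / 2) / 8 * k ≤ Real.log S +
      72 * Real.sqrt ((p * (2 * (w * k + k) + 2 * (w * k)) : ℕ) : ℝ) +
      Real.log (1000 * ((2 * (w * k + k) + 1 : ℕ) : ℝ) ^ 6)) :
    (N : ℝ) / 10 ^ 10 ≤ (Real.log S + Real.sqrt ((p : ℝ) * N)) * τ := by
  have hlogS : 0 ≤ Real.log S := Real.log_nonneg hS
  have hpR : (1 : ℝ) ≤ p := by exact_mod_cast hp
  rcases Nat.eq_zero_or_pos N with hN | hN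
  · subst hN
    simp
    positivity
  have hN1 : (1 : ℝ) ≤ N := by exact_mod_cast hN
  have hsqp : Real.sqrt N ≤ Real.sqrt ((p : ℝ) * N) := by
    apply Real.sqrt_le_sqrt
    nlinarith
  have hsq1 : 1 ≤ Real.sqrt ((p : ℝ) * N) := by
    rw [Real.one_le_sqrt]
    nlinarith
  have ht1 : (t : ℝ) ≤ 4001 * τ := by
    have := Nat.ceil_lt_add_one (R := ℝ) (a := 4000 * τ) (by positivity)
    rw [ht]; linarith
  have ht0 : (4000 : ℝ) ≤ t := by
    have := Nat.le_ceil (4000 * τ)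
    rw [ht]; linarith
  have hwR : (w : ℝ) = 32 * t := by rw [hw]; push_cast; ring
  have h2w : (2 * w + 1 : ℝ) ≤ 65 * t := by rw [hwR]; linarith
  rcases Nat.eq_zero_or_pos k with hk0 | hk1
  · -- `N < 4 (2 w + 1)`
    have hlt : N < 4 * (2 * w + 1) := by
      rw [hk0] at hk
      have hpos : 0 < 4 * (2 * w + 1) := by positivity
      exact (Nat.div_eq_zero_iff_lt hpos).mp hk.symm
    have hltR : (N : ℝ) < 4 * (2 * w + 1) := by exact_mod_cast hlt
    have h1 : (N : ℝ) ≤ 260 * (4001 * τ) := by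
      calc (N : ℝ) ≤ 4 * (2 * w + 1) := hltR.le
        _ ≤ 4 * (65 * t) := by linarith
        _ ≤ 260 * (4001 * τ) := by linarith
    have h2 : τ ≤ (Real.log S + Real.sqrt ((p : ℝ) * N)) * τ := by nlinarith
    rw [div_le_iff₀ (by positivity)]
    nlinarith
  · have hm := hmain hk1
    have hk1R : (1 : ℝ) ≤ k := by exact_mod_cast hk1
    have hle : k * (4 * (2 * w + 1)) ≤ N := by rw [hk]; exact Nat.div_mul_le_self _ _
    have hleR : (k : ℝ) * (4 * (2 * w + 1)) ≤ N := by exact_mod_cast hle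
    have hlt : N < (k + 1) * (4 * (2 * w + 1)) := by
      rw [hk]
      have hpos : 0 < 4 * (2 * w + 1) := by positivity
      have := Nat.lt_div_mul_add (a := N) hpos
      linarith [Nat.div_mul_le_self N (4 * (2 * w + 1))]
    have hltR : (N : ℝ) < (k + 1) * (4 * (2 * w + 1)) := by exact_mod_cast hlt
    have hN6 : (10 : ℝ) ^ 6 ≤ N := by
      have h3 : (4 * (2 * (w : ℝ) + 1)) ≤ k * (4 * (2 * w + 1)) := by nlinarith
      nlinarith
    have hd : ((p * (2 * (w * k + k) + 2 * (w * k)) : ℕ) : ℝ) ≤ p * N / 2 := by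
      have hd0 : ((2 * (w * k + k) + 2 * (w * k) : ℕ) : ℝ) ≤ N / 2 := by
        push_cast
        nlinarith
      rw [Nat.cast_mul, mul_div_assoc]
      exact mul_le_mul_of_nonneg_left hd0 (by linarith)
    have hd1 : ((2 * (w * k + k) + 1 : ℕ) : ℝ) ≤ N := by
      push_cast
      nlinarith
    have hsqd : 72 * Real.sqrt ((p * (2 * (w * k + k) + 2 * (w * k)) : ℕ) : ℝ) ≤
        51 * Real.sqrt ((p : ℝ) * N) := by
      have h4 : Real.sqrt ((p * (2 * (w * k + k) + 2 * (w * k)) : ℕ) : ℝ) ≤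
          51 / 72 * Real.sqrt ((p : ℝ) * N) := by
        apply Real.sqrt_le_iff.mpr
        refine ⟨by positivity, ?_⟩
        rw [mul_pow, Real.sq_sqrt (by positivity)]
        refine hd.trans ?_
        have : 0 ≤ (p : ℝ) * N := by positivity
        linarith
      linarith
    have hlog : Real.log (1000 * ((2 * (w * k + k) + 1 : ℕ) : ℝ) ^ 6) ≤ Real.sqrt N := by
      refine le_trans ?_ (Num_logN N hN6)
      apply Real.log_le_log (by positivity)
      gcongr
    have hal := Num_log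
    have hkl : (N : ℝ) ≤ 8 * (65 * (4001 * τ)) * k := by
      calc (N : ℝ) ≤ (k + 1) * (4 * (2 * w + 1)) := hltR.le
        _ ≤ (2 * k) * (4 * (65 * (4001 * τ))) := by
            apply mul_le_mul <;> linarith
        _ = 8 * (65 * (4001 * τ)) * k := by ring
    have h5 : 0.405 / 8 * (k : ℝ) ≤ Real.log S + 52 * Real.sqrt ((p : ℝ) * N) := by
      have h6 : 0.405 / 8 * (k : ℝ) ≤ Real.log (3 / 2) / 8 * k := by
        apply mul_le_mul_of_nonneg_right _ (by linarith)
        linarith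
      linarith
    rw [div_le_iff₀ (by positivity)]
    have h7 : 0.405 / 8 * (k : ℝ) ≤ 52 * (Real.log S + Real.sqrt ((p : ℝ) * N)) := by linarith
    have h8 : (k : ℝ) * τ ≤ 52 * 8 / 0.405 * ((Real.log S + Real.sqrt ((p : ℝ) * N)) * τ) := by
      have : 0.405 / 8 * (k : ℝ) * τ ≤ 52 * (Real.log S + Real.sqrt ((p : ℝ) * N)) * τ :=
        mul_le_mul_of_nonneg_right h7 (by linarith)
      rw [div_mul_eq_mul_div, le_div_iff₀ (by norm_num)]
      nlinarith
    have h9 : 0 ≤ (Real.log S + Real.sqrt ((p : ℝ) * N)) * τ := by positivity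
    nlinarith

end Pool.Agent.Work.MP_499dc6_lc.D3

end

section

/-!
# Several products: polynomials in products of affine forms

Here the span of the products of several families of bihomogeneous polynomials is treated.
-/

namespace Pool.Agent.Work.MP_499dc6_lc.D3

open MvPolynomial
open Pool.Agent.Work.MP_499dc6_lc.CD

/-- Span of the products of the `w i u v` of total bidegree `(a, b)`. -/
noncomputable def PS3 (K : Type) [Field K] {A ι : Type} [CommRing A] [Algebra K A]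
    (w : ι → ℕ → ℕ → A) (a b : ℕ) : Submodule K A :=
  Submodule.span K {x | ∃ m : ι × (ℕ × ℕ) →₀ ℕ, (∀ i, m (i, (0, 0)) = 0) ∧
    m.sum (fun τ j => j * τ.2.1) = a ∧ m.sum (fun τ j => j * τ.2.2) = b ∧
    x = m.prod fun τ j => w τ.1 τ.2.1 τ.2.2 ^ j}

section

variable {K : Type} [Field K] {A ι : Type} [CommRing A] [Algebra K A] (w : ι → ℕ → ℕ → A)

theorem PS3_one : (1 : A) ∈ PS3 K w 0 0 := by
  apply Submodule.subset_span
  exact ⟨0, by simp, by simp, by simp, by simp⟩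

theorem PS3_mul {a b a' b' : ℕ} {x y : A} (hx : x ∈ PS3 K w a b) (hy : y ∈ PS3 K w a' b') :
    x * y ∈ PS3 K w (a + a') (b + b') := by
  have h : PS3 K w a b * PS3 K w a' b' ≤ PS3 K w (a + a') (b + b') := by
    unfold PS3
    rw [Submodule.span_mul_span]
    apply Submodule.span_mono
    rintro x ⟨_, ⟨m, h0, h1, h2, rfl⟩, _, ⟨m', h0', h1', h2', rfl⟩, rfl⟩
    refine ⟨m + m', ?_, ?_, ?_, ?_⟩
    · intro i
      rw [Finsupp.add_apply, h0, h0']
    · rw [Finsupp.sum_add_index' (by intro; simp) (by intros; ring), h1, h1']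
    · rw [Finsupp.sum_add_index' (by intro; simp) (by intros; ring), h2, h2']
    · rw [Finsupp.prod_add_index' (by intro; simp) (by intros; rw [pow_add])]
  exact h (Submodule.mul_mem_mul hx hy)

theorem PS3_of_PS2 (i : ι) {a b : ℕ} {x : A} (hx : x ∈ PS2 K (w i) a b) : x ∈ PS3 K w a b := by
  classical
  have h : PS2 K (w i) a b ≤ PS3 K w a b := by
    unfold PS2 PS3
    apply Submodule.span_mono
    rintro x ⟨m, h0, h1, h2, rfl⟩
    let e : ℕ × ℕ ↪ ι × (ℕ × ℕ) := ⟨fun τ => (i, τ), fun x y h => (Prod.ext_iff.1 h).2⟩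
    refine ⟨m.embDomain e, ?_, ?_, ?_, ?_⟩
    · intro j
      by_cases hj : j = i
      · subst hj
        have : ((j, (0, 0)) : ι × (ℕ × ℕ)) = e (0, 0) := rfl
        rw [this, Finsupp.embDomain_apply_self, h0]
      · rw [Finsupp.embDomain_of_notMem_range]
        rintro ⟨τ, hτ⟩
        exact hj (Prod.ext_iff.1 hτ).1.symm
    · rw [Finsupp.sum_embDomain]; exact h1
    · rw [Finsupp.sum_embDomain]; exact h2
    · rw [Finsupp.prod_embDomain]; rfl
  exact h hx

end

/-- A polynomial in polynomials whose components are in the span. -/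
theorem Span3 {Y Z K ι : Type} [Fintype Y] [Fintype Z] [Field K] {s : ℕ}
    (w : ι → ℕ → ℕ → MvPolynomial (Y ⊕ Z) K) (V : Fin s → MvPolynomial (Y ⊕ Z) K)
    (hV : ∀ i a b, bc a b (V i) ∈ PS3 K w a b) (Q : MvPolynomial (Fin s) K) (a b : ℕ) :
    bc a b (aeval V Q) ∈ PS3 K w a b := by
  induction Q using MvPolynomial.induction_on generalizing a b with
  | C c =>
    have h1 : aeval V (C c : MvPolynomial (Fin s) K) = C c * 1 := by
      rw [← algebraMap_eq, AlgHom.commutes, mul_one]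
      rfl
    rw [h1, bc_C_mul, bc_of_isBi isBi_one]
    split_ifs with h
    · rw [h.1, h.2, ← MvPolynomial.smul_eq_C_mul]
      exact Submodule.smul_mem _ _ (PS3_one w)
    · rw [mul_zero]
      exact Submodule.zero_mem _
  | add p q hp hq =>
    rw [map_add, bc_add]
    exact Submodule.add_mem _ (hp a b) (hq a b)
  | mul_X p i hp =>
    rw [map_mul, aeval_X, pr_BcMul]
    refine Submodule.sum_mem _ fun x hx => Submodule.sum_mem _ fun y hy => ?_
    rw [Finset.HasAntidiagonal.mem_antidiagonal] at hx hy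
    have h := PS3_mul w (hp x.1 y.1) (hV i x.2 y.2)
    rw [hx, hy] at h
    exact h

theorem SpanBB3_mem {ι : Type} [Fintype ι] {a b : ℕ} {m : ι × (ℕ × ℕ) →₀ ℕ}
    (h0 : ∀ i, m (i, (0, 0)) = 0)
    (ha : m.sum (fun τ j => j * τ.2.1) = a) (hb : m.sum (fun τ j => j * τ.2.2) = b) :
    m ∈ ((Finset.univ : Finset ι) ×ˢ Ty a b).finsupp (fun _ => Finset.range (a + b + 1)) := by
  classical
  have hle : ∀ τ ∈ m.support, m τ * τ.2.1 ≤ a ∧ m τ * τ.2.2 ≤ b := by
    intro τ hτ
    constructor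
    · rw [← ha]
      exact Finset.single_le_sum (f := fun τ => m τ * τ.2.1) (fun _ _ => Nat.zero_le _) hτ
    · rw [← hb]
      exact Finset.single_le_sum (f := fun τ => m τ * τ.2.2) (fun _ _ => Nat.zero_le _) hτ
  rw [Finset.mem_finsupp_iff]
  constructor
  · intro τ hτ
    have h1 : 1 ≤ m τ := Nat.one_le_iff_ne_zero.2 (Finsupp.mem_support_iff.1 hτ)
    obtain ⟨h2, h3⟩ := hle τ hτ
    have h4 : τ.2.1 ≤ m τ * τ.2.1 := Nat.le_mul_of_pos_left _ h1
    have h5 : τ.2.2 ≤ m τ * τ.2.2 := Nat.le_mul_of_pos_left _ h1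
    rw [Finset.mem_product]
    refine ⟨Finset.mem_univ _, ?_⟩
    unfold Ty
    rw [Finset.mem_erase, Finset.mem_product, Finset.mem_range, Finset.mem_range]
    refine ⟨?_, by omega, by omega⟩
    intro h6
    obtain ⟨i, τ'⟩ := τ
    simp only at h6
    subst h6
    rw [h0] at h1
    omega
  · intro τ hτ
    rw [Finset.mem_range]
    by_cases hs : τ ∈ m.support
    · obtain ⟨h2, h3⟩ := hle τ hs
      have h6 : 1 ≤ τ.2.1 + τ.2.2 := by
        by_contra hcon
        have h7 : τ.2 = (0, 0) := Prod.ext (by simp; omega) (by simp; omega)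
        obtain ⟨i, τ'⟩ := τ
        simp only at h7
        subst h7
        exact (Finsupp.mem_support_iff.1 hs) (h0 i)
      have h8 : m τ ≤ m τ * (τ.2.1 + τ.2.2) := Nat.le_mul_of_pos_right _ h6
      rw [Nat.mul_add] at h8
      omega
    · rw [Finsupp.notMem_support_iff.1 hs]
      omega

/-- Tilted bound for elements of the span. -/
theorem SpanBB3 (Y Z : Type) [Fintype Y] [Fintype Z] (K : Type) [Field K] (al be : ℝ) (s : ℕ)
    (w : Fin s → ℕ → ℕ → MvPolynomial (Y ⊕ Z) K) (f : MvPolynomial (Y ⊕ Z) K) (a b : ℕ)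
    (x : ℕ → ℕ → ℝ) (A B : ℝ) (hf : f ∈ PS3 K w a b) (hx0 : ∀ τ ∈ Ty a b, 0 ≤ x τ.1 τ.2)
    (hw : ∀ i, ∀ τ ∈ Ty a b, BB al be (w i τ.1 τ.2) (x τ.1 τ.2))
    (hlt : ∀ τ ∈ Ty a b, x τ.1 τ.2 * Real.exp (-(A * τ.1 + B * τ.2)) < 1) :
    BB al be f (Real.exp (A * a + B * b) *
      (∏ τ ∈ Ty a b, (1 - x τ.1 τ.2 * Real.exp (-(A * τ.1 + B * τ.2)))⁻¹) ^ s) := by
  classical
  obtain ⟨T, hT⟩ : ∃ T : Finset (Fin s × (ℕ × ℕ)), T = Finset.univ ×ˢ Ty a b := ⟨_, rfl⟩
  have hTm : ∀ τ ∈ T, τ.2 ∈ Ty a b := by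
    intro τ hτ
    rw [hT, Finset.mem_product] at hτ
    exact hτ.2
  obtain ⟨MS, hMS⟩ : ∃ MS : Finset (Fin s × (ℕ × ℕ) →₀ ℕ), MS =
      (T.finsupp (fun _ => Finset.range (a + b + 1))).filter
        (fun m => (∀ i, m (i, (0, 0)) = 0) ∧ m.sum (fun τ j => j * τ.2.1) = a ∧
          m.sum (fun τ j => j * τ.2.2) = b) := ⟨_, rfl⟩
  have hsub : f ∈ Submodule.span K (Set.range fun m : MS =>
      (m.1.prod fun τ j => w τ.1 τ.2.1 τ.2.2 ^ j : MvPolynomial (Y ⊕ Z) K)) := by
    unfold PS3 at hf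
    refine Submodule.span_mono ?_ hf
    rintro _ ⟨m, h0, ha, hb, rfl⟩
    refine ⟨⟨m, ?_⟩, rfl⟩
    rw [hMS, Finset.mem_filter, hT]
    exact ⟨SpanBB3_mem h0 ha hb, h0, ha, hb⟩
  rw [Submodule.mem_span_range_iff_exists_fun] at hsub
  obtain ⟨c, rfl⟩ := hsub
  have hsupp : ∀ m ∈ MS, m.support ⊆ T := by
    intro m hm
    rw [hMS, Finset.mem_filter, Finset.mem_finsupp_iff] at hm
    exact hm.1.1
  have hprodw : ∀ m ∈ MS, BB al be (m.prod fun τ j => w τ.1 τ.2.1 τ.2.2 ^ j)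
      (∏ τ ∈ T, x τ.2.1 τ.2.2 ^ m τ) := by
    intro m hm
    rw [Finsupp.prod_of_support_subset m (hsupp m hm) _ (fun _ _ => pow_zero _)]
    exact SpanBB2_prod _ _ _ fun τ hτ => SpanBB2_pow (hw τ.1 τ.2 (hTm τ hτ)) _
  have hB := SpanBB2_sum (al := al) (be := be) (Finset.univ : Finset MS)
    (fun m : MS => (m.1.prod fun τ j => w τ.1 τ.2.1 τ.2.2 ^ j : MvPolynomial (Y ⊕ Z) K))
    (fun m : MS => ∏ τ ∈ T, x τ.2.1 τ.2.2 ^ m.1 τ) c (fun m _ => hprodw m.1 m.2)
  refine BB.mono hB ?_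
  -- the numerical part
  rw [Finset.sum_coe_sort MS (fun m => ∏ τ ∈ T, x τ.2.1 τ.2.2 ^ m τ)]
  have hterm : ∀ m ∈ MS, ∏ τ ∈ T, x τ.2.1 τ.2.2 ^ m τ = Real.exp (A * a + B * b) *
      ∏ τ ∈ T, (x τ.2.1 τ.2.2 * Real.exp (-(A * τ.2.1 + B * τ.2.2))) ^ m τ := by
    intro m hm
    have hm' := hm
    rw [hMS, Finset.mem_filter] at hm'
    obtain ⟨-, -, ha, hb⟩ := hm'
    rw [Finsupp.sum_of_support_subset m (hsupp m hm) (fun τ j => j * τ.2.1)
      (fun _ _ => zero_mul _)] at ha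
    rw [Finsupp.sum_of_support_subset m (hsupp m hm) (fun τ j => j * τ.2.2)
      (fun _ _ => zero_mul _)] at hb
    have h1 : ∏ τ ∈ T, (x τ.2.1 τ.2.2 * Real.exp (-(A * τ.2.1 + B * τ.2.2))) ^ m τ =
        (∏ τ ∈ T, x τ.2.1 τ.2.2 ^ m τ) * Real.exp (-(A * a + B * b)) := by
      have haR : (a : ℝ) = ∑ τ ∈ T, (m τ : ℝ) * τ.2.1 := by
        exact_mod_cast ha.symm
      have hbR : (b : ℝ) = ∑ τ ∈ T, (m τ : ℝ) * τ.2.2 := by
        exact_mod_cast hb.symm
      have h2 : ∀ τ : Fin s × (ℕ × ℕ),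
          (x τ.2.1 τ.2.2 * Real.exp (-(A * τ.2.1 + B * τ.2.2))) ^ m τ =
          x τ.2.1 τ.2.2 ^ m τ * Real.exp ((m τ : ℝ) * (-(A * τ.2.1 + B * τ.2.2))) := by
        intro τ
        rw [mul_pow, ← Real.exp_nat_mul]
      rw [Finset.prod_congr rfl fun τ _ => h2 τ, Finset.prod_mul_distrib, ← Real.exp_sum]
      congr 2
      rw [haR, hbR]
      rw [Finset.mul_sum, Finset.mul_sum, ← Finset.sum_add_distrib, ← Finset.sum_neg_distrib]
      refine Finset.sum_congr rfl fun τ _ => ?_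
      ring
    rw [h1, mul_comm, mul_assoc, ← Real.exp_add]
    simp
  rw [Finset.sum_congr rfl hterm, ← Finset.mul_sum]
  refine mul_le_mul_of_nonneg_left ?_ (Real.exp_pos _).le
  have hy : ∀ τ ∈ T, 0 ≤ x τ.2.1 τ.2.2 * Real.exp (-(A * τ.2.1 + B * τ.2.2)) :=
    fun τ hτ => mul_nonneg (hx0 _ (hTm τ hτ)) (Real.exp_pos _).le
  calc ∑ m ∈ MS, ∏ τ ∈ T, (x τ.2.1 τ.2.2 * Real.exp (-(A * τ.2.1 + B * τ.2.2))) ^ m τ
      ≤ ∑ m ∈ T.finsupp (fun _ => Finset.range (a + b + 1)),
          ∏ τ ∈ T, (x τ.2.1 τ.2.2 * Real.exp (-(A * τ.2.1 + B * τ.2.2))) ^ m τ := by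
        refine Finset.sum_le_sum_of_subset_of_nonneg ?_ fun m _ _ =>
          Finset.prod_nonneg fun τ hτ => pow_nonneg (hy τ hτ) _
        rw [hMS]
        exact Finset.filter_subset _ _
    _ = ∏ τ ∈ T, ∑ j ∈ Finset.range (a + b + 1),
          (x τ.2.1 τ.2.2 * Real.exp (-(A * τ.2.1 + B * τ.2.2))) ^ j :=
        SpanBB2_finsupp T (fun τ => x τ.2.1 τ.2.2 * Real.exp (-(A * τ.2.1 + B * τ.2.2))) _
    _ ≤ ∏ τ ∈ T, (1 - x τ.2.1 τ.2.2 * Real.exp (-(A * τ.2.1 + B * τ.2.2)))⁻¹ := by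
        refine Finset.prod_le_prod (fun τ hτ => Finset.sum_nonneg fun j _ =>
          pow_nonneg (hy τ hτ) _) fun τ hτ => ?_
        exact SpanBB2_geom _ (hy τ hτ) (hlt _ (hTm τ hτ)) _
    _ = (∏ τ ∈ Ty a b, (1 - x τ.1 τ.2 * Real.exp (-(A * τ.1 + B * τ.2)))⁻¹) ^ s := by
        rw [hT, Finset.prod_product]
        simp only [Finset.prod_const, Finset.card_univ, Fintype.card_fin]

end Pool.Agent.Work.MP_499dc6_lc.D3

end

section

/-!
# Upper bound for a polynomial in several products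
-/

namespace Pool.Agent.Work.MP_499dc6_lc.D3

open MvPolynomial
open Pool.Agent.Work.MP_499dc6_lc.CD

/-- Bounds for the types. -/
noncomputable def xT (al be : ℝ) (t D r u v : ℕ) : ℝ :=
  if u + v < t then Real.exp (-|(u : ℝ) * al - v * be| / 2) else
    D * (TT r u * TT r v * Real.exp (-((u : ℝ) * al + v * be) / 2))

theorem xT_nonneg (al be : ℝ) (t D r u v : ℕ) : 0 ≤ xT al be t D r u v := by
  unfold xT
  split_ifs <;> positivity

/-- The bigraded logarithmic derivative of one product. -/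
theorem single (h1 : S_LogBi) (h2 : S_Span2) (h4 : S_FacBB) (h5 : S_BiBB)
    (Y Z : Type) [Fintype Y] [Fintype Z] (K : Type) [Field K] [CharZero K] (al be : ℝ)
    (t D r : ℕ) (G : Fin D → MvPolynomial (Fin r ⊕ Fin r) K)
    (y z : Fin D → Fin r → MvPolynomial (Y ⊕ Z) K)
    (hG : (∀ j, constantCoeff (G j) ≠ 0) ∨ ∏ j, aeval (Sum.elim (y j) (z j)) (G j) = 0)
    (hy : ∀ j i, IsBi (y j i) 1 0) (hz : ∀ j i, IsBi (z j i) 0 1) :
    ∃ w : ℕ → ℕ → MvPolynomial (Y ⊕ Z) K,
      (∀ u v, BB al be (w u v) (xT al be t D r u v)) ∧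
      ∀ a b, bc a b (∏ j, aeval (Sum.elim (y j) (z j)) (G j)) ∈ PS2 K w a b := by
  rcases hG with hG | hG
  · obtain ⟨G', hG'⟩ : ∃ G' : Fin D → MvPolynomial (Fin r ⊕ Fin r) K,
        G' = fun j => C (constantCoeff (G j))⁻¹ * G j := ⟨_, rfl⟩
    have hG1 : ∀ j, constantCoeff (G' j) = 1 := by
      intro j
      rw [hG']
      simp only
      rw [map_mul, constantCoeff_C, inv_mul_cancel₀ (hG j)]
    have e : ∏ j, aeval (Sum.elim (y j) (z j)) (G j) =
        C (∏ j, constantCoeff (G j)) * ∏ j, aeval (Sum.elim (y j) (z j)) (G' j) := by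
      rw [map_prod, ← Finset.prod_mul_distrib]
      refine Finset.prod_congr rfl fun j _ => ?_
      rw [hG']
      simp only
      rw [map_mul, aeval_C, algebraMap_eq, ← mul_assoc, ← C_mul, mul_inv_cancel₀ (hG j), C_1,
        one_mul]
    obtain ⟨g, hg0, hgb, hg⟩ := h1 Y Z K D r G' y z _ hG1 hy hz rfl
    obtain ⟨V, hV⟩ : ∃ V, V = ∏ j, aeval (Sum.elim (y j) (z j)) (G' j) := ⟨_, rfl⟩
    rw [← hV] at hg e
    have hV00 : bc 0 0 V = 1 := by
      rw [Up_bc00, hV, map_prod, Finset.prod_eq_one, map_one]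
      intro j _
      rw [Up_cc_aeval _ _ _ (hy j) (hz j), hG1 j]
    have hWb : ∀ u v, IsBi (∑ j, aeval (Sum.elim (y j) (z j)) (g j u v)) u v := fun u v =>
      isBi_sum _ _ fun j _ => Up_isBi_aeval _ _ _ _ _ (hy j) (hz j) (hgb j u v)
    have hW0 : ∑ j, aeval (Sum.elim (y j) (z j)) (g j 0 0) = 0 := by
      refine Finset.sum_eq_zero fun j _ => ?_
      rw [hg0 j, map_zero]
    have hPS := h2 K (MvPolynomial (Y ⊕ Z) K) (fun u v => bc u v V)
      (fun u v => ∑ j, aeval (Sum.elim (y j) (z j)) (g j u v)) hV00 hW0 hg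
    refine ⟨fun u v => ∑ j, aeval (Sum.elim (y j) (z j)) (g j u v), ?_, ?_⟩
    · intro u v
      unfold xT
      split_ifs with hlt
      · exact h5 Y Z K al be _ _ _ (hWb _ _)
      · have h := LB_sum al be (Finset.univ : Finset (Fin D))
          (fun j => aeval (Sum.elim (y j) (z j)) (g j u v)) _
          (fun j _ => h4 Y Z K al be r u v (g j u v) (y j) (z j) (hgb j _ _) (hy j) (hz j))
        rwa [Finset.card_univ, Fintype.card_fin] at h
    · intro a b
      rw [e, bc_C_mul, ← MvPolynomial.smul_eq_C_mul]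
      exact Submodule.smul_mem _ _ (hPS a b)
  · refine ⟨fun _ _ => 0, ?_, ?_⟩
    · intro u v
      have h0 : BB al be (0 : MvPolynomial (Y ⊕ Z) K) 0 := BB.zero
      exact h0.mono (xT_nonneg al be t D r u v)
    · intro a b
      rw [hG, bc_zero]
      exact Submodule.zero_mem _

/-- Upper bound for a polynomial in `p` products. -/
theorem up_multi (h1 : S_LogBi) (h2 : S_Span2) (h4 : S_FacBB) (h5 : S_BiBB)
    (h6 : S_TypeSum) (h7 : S_Large) (h8 : S_TypeS) (h9 : S_TypeL)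
    (Y Z : Type) [Fintype Y] [Fintype Z] (K : Type) [Field K] [CharZero K] (w k t p D r : ℕ)
    (Q : MvPolynomial (Fin p) K) (G : Fin p → Fin D → MvPolynomial (Fin r ⊕ Fin r) K)
    (y z : Fin p → Fin D → Fin r → MvPolynomial (Y ⊕ Z) K)
    (hp : 1 ≤ p) (hD : 1 ≤ D) (hr : 1 ≤ r) (hk : 1 ≤ k) (hw : 32 * t ≤ w)
    (ht : 4000 * (Real.log D + r) ≤ t)
    (hG : ∀ i, (∀ j, constantCoeff (G i j) ≠ 0) ∨
      ∏ j, aeval (Sum.elim (y i j) (z i j)) (G i j) = 0)
    (hy : ∀ i j a, IsBi (y i j a) 1 0) (hz : ∀ i j a, IsBi (z i j a) 0 1) :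
    BB (Real.log (3 / 2)) (Real.log (3 / 2) * (w + 1) / w)
      (bc (2 * (w * k + k)) (2 * (w * k))
        (aeval (fun i => ∏ j, aeval (Sum.elim (y i j) (z i j)) (G i j)) Q))
      (Real.exp (-(15 / 8 * Real.log (3 / 2) * k) +
        72 * Real.sqrt ((p * (2 * (w * k + k) + 2 * (w * k)) : ℕ) : ℝ))) := by
  -- numbers
  have hal := Num_log
  set al := Real.log (3 / 2) with hal_def
  have hlogD : 0 ≤ Real.log D := Real.log_natCast_nonneg D
  have hr1 : (1 : ℝ) ≤ r := by exact_mod_cast hr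
  have ht1' : (1 : ℝ) ≤ t := by linarith
  have ht1 : 1 ≤ t := by exact_mod_cast ht1'
  have hw1 : 1 ≤ w := by omega
  have hw0 : (w : ℝ) ≠ 0 := by positivity
  have hk1 : (1 : ℝ) ≤ k := by exact_mod_cast hk
  have hp1 : (1 : ℝ) ≤ p := by exact_mod_cast hp
  set a := 2 * (w * k + k) with ha
  set b := 2 * (w * k) with hb
  have hd1 : 1 ≤ a + b := by
    have : 1 ≤ w * k := Nat.mul_pos hw1 hk
    omega
  have hd1' : (1 : ℝ) ≤ ((a + b : ℕ) : ℝ) := by exact_mod_cast hd1
  set q := Real.sqrt ((a + b : ℕ) : ℝ) with hq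
  have hqq : q * q = ((a + b : ℕ) : ℝ) := Real.mul_self_sqrt (by linarith)
  have hq0 : 0 < q := Real.sqrt_pos.2 (by linarith)
  set c := Real.sqrt (p : ℝ) with hc
  have hcc : c * c = (p : ℝ) := Real.mul_self_sqrt (by linarith)
  have hc0 : 0 < c := Real.sqrt_pos.2 (by linarith)
  have hcq : Real.sqrt ((p * (a + b) : ℕ) : ℝ) = c * q := by
    rw [Nat.cast_mul, Real.sqrt_mul (by linarith)]
  set s := 36 * c / q with hs
  have hs0 : 0 < s := by positivity
  set be := al * (w + 1) / w with hbe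
  set θ := Real.exp (-(al / 64)) with hθ
  have hθ0 : 0 < θ := Real.exp_pos _
  have hθ1 : θ ≤ 159 / 160 := Up_theta
  choose W hWB hWS using fun i => single h1 h2 h4 h5 Y Z K al be t D r (G i) (y i) (z i) (hG i)
    (hy i) (hz i)
  set A := al / 2 - 961 / 1024 * al + s with hA
  set B := -be / 2 + 961 / 1024 * al + s with hB
  have hle : ∀ τ ∈ Ty a b, xT al be t D r τ.1 τ.2 * Real.exp (-(A * τ.1 + B * τ.2)) ≤
      θ ^ ((τ.1 : ℤ) - τ.2).natAbs * Real.exp (-(s * (τ.1 + τ.2))) := by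
    intro τ _
    unfold xT
    split_ifs with hlt
    · exact h8 w t τ.1 τ.2 s ht1 hw hlt
    · have hX := h7 D r τ.1 τ.2 hD hr (by
        have : (t : ℝ) ≤ ((τ.1 + τ.2 : ℕ) : ℝ) := by exact_mod_cast not_lt.1 hlt
        push_cast at this
        linarith)
      have h := h9 w τ.1 τ.2 s (D * (TT r τ.1 * TT r τ.2)) hw1 (by positivity) hX
      refine le_trans (le_of_eq ?_) h
      ring
  have hlt : ∀ τ ∈ Ty a b, xT al be t D r τ.1 τ.2 * Real.exp (-(A * τ.1 + B * τ.2)) < 1 := by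
    intro τ hτ
    refine (hle τ hτ).trans_lt ?_
    have h10 : θ ^ ((τ.1 : ℤ) - τ.2).natAbs ≤ 1 := pow_le_one₀ hθ0.le (by linarith)
    have h11 : (1 : ℝ) ≤ (τ.1 : ℝ) + τ.2 := by
      have h12 : τ ≠ (0, 0) := Finset.ne_of_mem_erase hτ
      have h13 : 1 ≤ τ.1 + τ.2 := by
        by_contra h14
        apply h12
        ext
        · show τ.1 = 0
          omega
        · show τ.2 = 0
          omega
      exact_mod_cast h13
    have h15 : Real.exp (-(s * (τ.1 + τ.2))) < 1 := by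
      rw [Real.exp_lt_one_iff]
      have : 0 < s * ((τ.1 : ℝ) + τ.2) := by positivity
      linarith
    calc θ ^ ((τ.1 : ℤ) - τ.2).natAbs * Real.exp (-(s * (τ.1 + τ.2)))
        ≤ 1 * Real.exp (-(s * (τ.1 + τ.2))) :=
          mul_le_mul_of_nonneg_right h10 (Real.exp_pos _).le
      _ < 1 := by rwa [one_mul]
  have hPS := Span3 W (fun i => ∏ j, aeval (Sum.elim (y i j) (z i j)) (G i j))
    (fun i a b => PS3_of_PS2 W i (hWS i a b)) Q a b
  have hmain := SpanBB3 Y Z K al be p W _ a b (xT al be t D r) A B hPS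
    (fun τ _ => xT_nonneg _ _ _ _ _ _ _) (fun i τ _ => hWB i τ.1 τ.2) hlt
  refine hmain.mono ?_
  have hprod := h6 θ s a b (fun τ => xT al be t D r τ.1 τ.2 * Real.exp (-(A * τ.1 + B * τ.2))) hθ0
    (by linarith) hs0 (fun τ _ => mul_nonneg (xT_nonneg _ _ _ _ _ _ _) (Real.exp_pos _).le) hle
  have hprod0 : 0 ≤ ∏ τ ∈ Ty a b,
      (1 - xT al be t D r τ.1 τ.2 * Real.exp (-(A * τ.1 + B * τ.2)))⁻¹ :=
    Finset.prod_nonneg fun τ hτ => inv_nonneg.2 (by linarith [hlt τ hτ])
  have hprod2 := pow_le_pow_left₀ hprod0 hprod p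
  rw [← Real.exp_nat_mul] at hprod2
  refine (mul_le_mul_of_nonneg_left hprod2 (Real.exp_pos _).le).trans ?_
  rw [← Real.exp_add]
  refine Real.exp_le_exp.2 ?_
  have hAB : A * (a : ℝ) + B * (b : ℝ) = -(961 / 512) * al * k + 36 * (c * q) := by
    have e1 : be * (b : ℝ) = al * a := by
      rw [hbe, hb, ha]
      push_cast
      field_simp
    have e2 : s * ((a : ℝ) + b) = 36 * (c * q) := by
      rw [hs]
      have : ((a : ℝ) + b) = q * q := by rw [hqq]; push_cast; ring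
      rw [this]
      field_simp
    have e3 : (a : ℝ) - b = 2 * k := by
      rw [ha, hb]
      push_cast
      ring
    have e4 : A * (a : ℝ) + B * (b : ℝ) = (al * a - be * b) / 2 - 961 / 1024 * al * (a - b) +
        s * (a + b) := by
      rw [hA, hB]
      ring
    rw [e4, e1, e2, e3]
    ring
  have h20 : (p : ℝ) * (8 / ((1 - θ) * s)) ≤ 36 * (c * q) := by
    rw [← mul_div_assoc, div_le_iff₀ (by apply mul_pos (by linarith) hs0)]
    have e5 : 36 * (c * q) * ((1 - θ) * s) = 36 * 36 * (1 - θ) * p := by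
      rw [hs, ← hcc]
      field_simp
    rw [e5]
    nlinarith
  have h21 : 0 ≤ al * k := by positivity
  rw [hAB, hcq]
  linarith

end Pool.Agent.Work.MP_499dc6_lc.D3

end
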