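import Pool.Agent.Work.MP_499dc6_lc.Bd.B12
import Pool.Agent.Work.MP_499dc6_lc.Bd.B11
import Pool.Agent.Work.MP_499dc6_lc.H21Numeric

/-! Bundle of small proof modules (one section per former module). -/

section

set_option autoImplicit false
set_option linter.unusedSectionVars false

/-! Coefficientwise limits of polynomials. -/

namespace Pool.Agent.Work.MP_499dc6_lc.Deg

open Submodule Module MvPolynomial Filter Topology

variable {σ ι : Type*}

/-- Coefficientwise convergence of polynomials. -/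
def Conv (l : Filter ι) (y : ι → MvPolynomial σ ℂ) (y0 : MvPolynomial σ ℂ) : Prop :=
  ∀ m : σ →₀ ℕ, Tendsto (fun j => coeff m (y j)) l (𝓝 (coeff m y0))

variable {l : Filter ι}

theorem Conv.const (y0 : MvPolynomial σ ℂ) : Conv l (fun _ => y0) y0 :=
  fun _ => tendsto_const_nhds

theorem Conv.add {y z : ι → MvPolynomial σ ℂ} {y0 z0 : MvPolynomial σ ℂ} (hy : Conv l y y0)
    (hz : Conv l z z0) : Conv l (fun j => y j + z j) (y0 + z0) := by
  intro m
  simp only [coeff_add]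
  exact (hy m).add (hz m)

theorem Conv.mul {y z : ι → MvPolynomial σ ℂ} {y0 z0 : MvPolynomial σ ℂ} (hy : Conv l y y0)
    (hz : Conv l z z0) : Conv l (fun j => y j * z j) (y0 * z0) := by
  classical
  intro m
  simp only [coeff_mul]
  exact tendsto_finsetSum _ fun x _ => (hy x.1).mul (hz x.2)

theorem Conv.smul {y : ι → MvPolynomial σ ℂ} {y0 : MvPolynomial σ ℂ} (c : ℂ) (hy : Conv l y y0) :
    Conv l (fun j => c • y j) (c • y0) := by
  intro m
  simp only [coeff_smul]
  exact (hy m).const_smul c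

theorem Conv.sum {α : Type*} (s : Finset α) {y : α → ι → MvPolynomial σ ℂ}
    {y0 : α → MvPolynomial σ ℂ} (hy : ∀ a ∈ s, Conv l (y a) (y0 a)) :
    Conv l (fun j => ∑ a ∈ s, y a j) (∑ a ∈ s, y0 a) := by
  intro m
  simp only [coeff_sum]
  exact tendsto_finsetSum _ fun a ha => hy a ha m

theorem Conv.finite_sum_coeff {τ : Type*} (s : Finset (τ →₀ ℕ)) {y : ι → MvPolynomial τ ℂ}
    {y0 : MvPolynomial τ ℂ} (hy : Conv l y y0) (g : (τ →₀ ℕ) → MvPolynomial σ ℂ) :
    Conv l (fun j => ∑ d ∈ s, coeff d (y j) • g d) (∑ d ∈ s, coeff d y0 • g d) := by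
  intro m
  simp only [coeff_sum, coeff_smul]
  exact tendsto_finsetSum _ fun d _ => (hy d).smul tendsto_const_nhds

/-- The exponents of degree at most `n`. -/
def expo (τ : Type*) [Fintype τ] [DecidableEq τ] (n : ℕ) : Finset (τ →₀ ℕ) :=
  (Finset.range (n + 1)).biUnion (fun i => Finset.finsuppAntidiag Finset.univ i)

theorem mem_expo {τ : Type*} [Fintype τ] [DecidableEq τ] (n : ℕ) (d : τ →₀ ℕ) :
    d ∈ expo τ n ↔ d.degree ≤ n := by
  unfold expo
  rw [Finset.mem_biUnion]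
  constructor
  · rintro ⟨i, hi, hd⟩
    rw [Finset.mem_finsuppAntidiag] at hd
    rw [Finsupp.degree_eq_sum, hd.1]
    exact Nat.lt_succ_iff.1 (Finset.mem_range.1 hi)
  · intro h
    refine ⟨d.degree, Finset.mem_range.2 (by omega), ?_⟩
    rw [Finset.mem_finsuppAntidiag]
    refine ⟨?_, Finset.subset_univ _⟩
    rw [Finsupp.degree_eq_sum]

theorem eq_sum_expo {τ : Type*} [Fintype τ] [DecidableEq τ] {n : ℕ} {p : MvPolynomial τ ℂ}
    (hp : p ∈ restrictTotalDegree τ ℂ n) : p = ∑ d ∈ expo τ n, coeff d p • monomial d 1 := by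
  ext e
  rw [coeff_sum]
  simp only [coeff_smul, coeff_monomial, smul_eq_mul, mul_ite, mul_one, mul_zero]
  rw [Finset.sum_ite_eq' (expo τ n) e (fun d => coeff d p)]
  split_ifs with h
  · rfl
  · rw [mem_expo] at h
    exact (mem_W_iff n p).1 hp e (by omega)

theorem trunc_eq_sum_expo {τ : Type*} [Fintype τ] [DecidableEq τ] (n : ℕ)
    (p : MvPolynomial τ ℂ) : trunc n p = ∑ d ∈ expo τ n, coeff d p • monomial d 1 := by
  have h := eq_sum_expo (trunc_mem n p)
  rw [h]
  apply Finset.sum_congr rfl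
  intro d hd
  rw [coeff_trunc, if_pos ((mem_expo n d).1 hd)]

/-- Substitution is continuous for bounded degree. -/
theorem Conv.aeval {τ : Type*} [Fintype τ] {y : ι → MvPolynomial τ ℂ}
    {y0 : MvPolynomial τ ℂ} (hy : Conv l y y0) {n : ℕ}
    (hn : ∀ j, y j ∈ restrictTotalDegree τ ℂ n) (hn0 : y0 ∈ restrictTotalDegree τ ℂ n)
    (g : τ → MvPolynomial σ ℂ) :
    Conv l (fun j => MvPolynomial.aeval g (y j)) (MvPolynomial.aeval g y0) := by
  classical
  have h : ∀ p ∈ restrictTotalDegree τ ℂ n, MvPolynomial.aeval g p =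
      ∑ d ∈ expo τ n, coeff d p • MvPolynomial.aeval g (monomial d (1 : ℂ)) := by
    intro p hp
    conv_lhs => rw [eq_sum_expo hp]
    rw [map_sum]
    simp only [map_smul]
  rw [h y0 hn0]
  have h2 : (fun j => MvPolynomial.aeval g (y j)) =
      fun j => ∑ d ∈ expo τ n, coeff d (y j) • MvPolynomial.aeval g (monomial d (1 : ℂ)) := by
    funext j
    exact h (y j) (hn j)
  rw [h2]
  exact Conv.finite_sum_coeff _ hy _

theorem coeff_pderiv' (v : σ) (p : MvPolynomial σ ℂ) (d : σ →₀ ℕ) :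
    coeff d (pderiv v p) = coeff (d + Finsupp.single v 1) p * ((d v : ℂ) + 1) := by
  classical
  induction p using MvPolynomial.induction_on' with
  | monomial e c =>
    rw [pderiv_monomial, coeff_monomial, coeff_monomial]
    by_cases h : e = d + Finsupp.single v 1
    · rw [if_pos h, if_pos (by rw [h, add_tsub_cancel_right])]
      rw [h]
      simp
    · rw [if_neg h, zero_mul]
      split_ifs with h2
      · by_cases hv : e v = 0
        · rw [hv]; simp
        · exfalso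
          apply h
          rw [← h2]
          ext w
          by_cases hw : v = w
          · subst hw
            simp
            omega
          · simp [hw]
      · rfl
  | add p q hp hq => rw [map_add, coeff_add, coeff_add, hp, hq, add_mul]

theorem Conv.pderiv {y : ι → MvPolynomial σ ℂ} {y0 : MvPolynomial σ ℂ} (hy : Conv l y y0)
    (v : σ) : Conv l (fun j => MvPolynomial.pderiv v (y j)) (MvPolynomial.pderiv v y0) := by
  intro m
  simp only [coeff_pderiv']
  exact (hy _).mul_const _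

/-- Linear functionals vanishing on polynomials of large order are continuous. -/
theorem Conv.functional [Fintype σ] {y : ι → MvPolynomial σ ℂ}
    {y0 : MvPolynomial σ ℂ} (hy : Conv l y y0) {m : ℕ} (Λ : MvPolynomial σ ℂ →ₗ[ℂ] ℂ)
    (hΛ : ∀ p ∈ idealOfVars σ ℂ ^ (m + 1), Λ p = 0) :
    Tendsto (fun j => Λ (y j)) l (𝓝 (Λ y0)) := by
  classical
  have h : ∀ p, Λ p = ∑ d ∈ expo σ m, coeff d p • Λ (monomial d 1) := by
    intro p
    have h1 := hΛ _ (sub_trunc_mem m p)
    rw [map_sub, sub_eq_zero] at h1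
    rw [h1, trunc_eq_sum_expo, map_sum]
    simp only [map_smul]
  rw [h y0]
  have h2 : (fun j => Λ (y j)) = fun j => ∑ d ∈ expo σ m, coeff d (y j) • Λ (monomial d 1) := by
    funext j
    exact h (y j)
  rw [h2]
  exact tendsto_finsetSum _ fun d _ => (hy d).smul tendsto_const_nhds

/-- Lower semicontinuity of a family of subspaces. -/
def Lsc (l : Filter ι) (M : ι → Submodule ℂ (MvPolynomial σ ℂ))
    (M0 : Submodule ℂ (MvPolynomial σ ℂ)) : Prop :=
  ∀ y0 ∈ M0, ∃ y : ι → MvPolynomial σ ℂ, (∀ j, y j ∈ M j) ∧ Conv l y y0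

theorem Lsc.mul {M N : ι → Submodule ℂ (MvPolynomial σ ℂ)}
    {M0 N0 : Submodule ℂ (MvPolynomial σ ℂ)} (hM : Lsc l M M0) (hN : Lsc l N N0) :
    Lsc l (fun j => M j * N j) (M0 * N0) := by
  intro y0 hy0
  refine Submodule.mul_induction_on hy0 ?_ ?_
  · intro a ha b hb
    obtain ⟨y, hy, hy'⟩ := hM a ha
    obtain ⟨z, hz, hz'⟩ := hN b hb
    exact ⟨fun j => y j * z j, fun j => Submodule.mul_mem_mul (hy j) (hz j), hy'.mul hz'⟩
  · rintro x y ⟨x', hx, hx'⟩ ⟨y', hy, hy'⟩
    exact ⟨fun j => x' j + y' j, fun j => add_mem (hx j) (hy j), hx'.add hy'⟩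

theorem Lsc.pow {M : ι → Submodule ℂ (MvPolynomial σ ℂ)}
    {M0 : Submodule ℂ (MvPolynomial σ ℂ)} (hM : Lsc l M M0) (n : ℕ) :
    Lsc l (fun j => M j ^ n) (M0 ^ n) := by
  induction n with
  | zero =>
    intro y0 hy0
    refine ⟨fun _ => y0, fun j => ?_, Conv.const y0⟩
    show y0 ∈ M j ^ 0
    rw [pow_zero] at hy0 ⊢
    exact hy0
  | succ n ih =>
    have := ih.mul hM
    simpa only [pow_succ] using this

theorem Lsc.span {M : ι → Submodule ℂ (MvPolynomial σ ℂ)} {S : Set (MvPolynomial σ ℂ)}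
    (h : ∀ y0 ∈ S, ∃ y : ι → MvPolynomial σ ℂ, (∀ j, y j ∈ M j) ∧ Conv l y y0) :
    Lsc l M (Submodule.span ℂ S) := by
  intro y0 hy0
  induction hy0 using Submodule.span_induction with
  | mem x hx => exact h x hx
  | zero => exact ⟨fun _ => 0, fun j => zero_mem _, Conv.const 0⟩
  | add x y _ _ hx hy =>
    obtain ⟨x', hx, hx'⟩ := hx
    obtain ⟨y', hy, hy'⟩ := hy
    exact ⟨fun j => x' j + y' j, fun j => add_mem (hx j) (hy j), hx'.add hy'⟩
  | smul c x _ hx =>
    obtain ⟨x', hx, hx'⟩ := hx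
    exact ⟨fun j => c • x' j, fun j => Submodule.smul_mem _ c (hx j), hx'.smul c⟩

end Pool.Agent.Work.MP_499dc6_lc.Deg

end

section

set_option autoImplicit false
set_option linter.unusedSectionVars false

/-! Sums of elementary symmetric polynomials in disjoint sets of variables. -/

namespace Pool.Agent.Work.MP_499dc6_lc.Deg

open Submodule Module MvPolynomial

variable {σ Δ : Type*} [Fintype σ] [Fintype Δ] [DecidableEq σ] [DecidableEq Δ]

theorem pderiv_X_prod_of_notMem (v : σ) (D : Finset σ) (hv : v ∉ D) :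
    pderiv v (∏ w ∈ D, X w : MvPolynomial σ ℂ) = 0 := by
  apply Finset.prod_induction _ (fun p => pderiv v p = 0)
  · intro p q hp hq
    rw [Derivation.leibniz, hp, hq, smul_zero, smul_zero, add_zero]
  · exact Derivation.map_one_eq_zero _
  · intro w hw
    rw [pderiv_X, Pi.single_eq_of_ne]
    rintro rfl
    exact hv hw

theorem pderiv_es_of_notMem (v : σ) (j : ℕ) (S : Finset σ) (hv : v ∉ S) :
    pderiv v (es (X : σ → MvPolynomial σ ℂ) j S) = 0 := by
  unfold es
  rw [map_sum]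
  apply Finset.sum_eq_zero
  intro D hD
  exact pderiv_X_prod_of_notMem v D (fun h => hv ((Finset.mem_powersetCard.1 hD).1 h))

theorem pderiv_es (v : σ) (j : ℕ) (S : Finset σ) (hv : v ∈ S) :
    pderiv v (es (X : σ → MvPolynomial σ ℂ) (j + 1) S) =
      es (X : σ → MvPolynomial σ ℂ) j (S.erase v) := by
  rw [es_succ X j hv, map_add, pderiv_es_of_notMem v _ _ (Finset.notMem_erase v S), zero_add,
    Derivation.leibniz, pderiv_es_of_notMem v _ _ (Finset.notMem_erase v S), smul_zero, zero_add,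
    pderiv_X_self, smul_eq_mul, mul_one]

theorem isHomogeneous_es_X (j : ℕ) (S : Finset σ) :
    (es (X : σ → MvPolynomial σ ℂ) j S).IsHomogeneous j := by
  unfold es
  apply IsHomogeneous.sum
  intro D hD
  have h := IsHomogeneous.prod D (X : σ → MvPolynomial σ ℂ) (fun _ => 1)
    (fun t _ => isHomogeneous_X ℂ t)
  rw [Finset.sum_const, smul_eq_mul, mul_one, (Finset.mem_powersetCard.1 hD).2] at h
  exact h

/-- The fibre of a map. -/
def fib (dg : σ → Δ) (d : Δ) : Finset σ := Finset.univ.filter (fun v => dg v = d)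

theorem mem_fib (dg : σ → Δ) (v : σ) : v ∈ fib dg (dg v) := by simp [fib]

/-- The generators. -/
noncomputable def dgen (dg : σ → Δ) (q : Δ × ℕ) : MvPolynomial σ ℂ := es X q.2 (fib dg q.1)

/-- The index set of the generators. -/
def dset (Δ : Type*) [Fintype Δ] (κ : ℕ) : Finset (Δ × ℕ) := Finset.univ ×ˢ Finset.Icc 1 (κ - 1)

theorem card_dset (κ : ℕ) : (dset Δ κ).card = Fintype.card Δ * (κ - 1) := by
  unfold dset
  rw [Finset.card_product, Finset.card_univ, Nat.card_Icc, Nat.add_sub_cancel]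

/-- The sum of the elementary symmetric polynomials of the fibres. -/
noncomputable def P0 (dg : σ → Δ) (κ : ℕ) : MvPolynomial σ ℂ := ∑ d, es X κ (fib dg d)

theorem pderiv_P0 (dg : σ → Δ) {κ : ℕ} (hκ : 1 ≤ κ) (v : σ) :
    pderiv v (P0 dg κ) = es X (κ - 1) ((fib dg (dg v)).erase v) := by
  obtain ⟨j, rfl⟩ : ∃ j, κ = j + 1 := ⟨κ - 1, by omega⟩
  unfold P0
  rw [map_sum, Finset.sum_eq_single (dg v)]
  · rw [pderiv_es v j _ (mem_fib dg v), Nat.add_sub_cancel]
  · intro d _ hd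
    apply pderiv_es_of_notMem
    simp only [fib, Finset.mem_filter, Finset.mem_univ, true_and]
    exact fun h => hd h.symm
  · intro h
    exact absurd (Finset.mem_univ _) h

theorem exists_pow_P0 (dg : σ → Δ) {κ : ℕ} (hκ : 1 ≤ κ) :
    ∃ E, idealOfVars σ ℂ ^ E ≤ Ideal.span (Set.range fun v => pderiv v (P0 dg κ)) ⊔
      Ideal.span (dgen dg '' (dset Δ κ)) := by
  apply Ideal.exists_pow_le_of_le_radical_of_fg _ (idealOfVars_fg σ ℂ)
  rw [Ideal.span_le]
  rintro _ ⟨v, rfl⟩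
  refine ⟨κ - 1, ?_⟩
  have h1 := es_erase_mod (X : σ → MvPolynomial σ ℂ) (Ideal.span (dgen dg '' (dset Δ κ)))
    (mem_fib dg v) (n := κ - 1) (fun j h1 h2 => ?_) (κ - 1) le_rfl
  · rw [← pderiv_P0 dg hκ v] at h1
    have h2 : X v ^ (κ - 1) = (-1) ^ (κ - 1) * pderiv v (P0 dg κ) -
        (-1) ^ (κ - 1) * (pderiv v (P0 dg κ) - (-X v) ^ (κ - 1)) := by
      rw [neg_pow (X v : MvPolynomial σ ℂ)]
      have h3 : ((-1 : MvPolynomial σ ℂ) ^ (κ - 1)) * (-1) ^ (κ - 1) = 1 := by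
        rw [← mul_pow]; simp
      linear_combination (-(X v : MvPolynomial σ ℂ) ^ (κ - 1)) * h3
    rw [h2]
    refine sub_mem ?_ ?_
    · exact Ideal.mem_sup_left (Ideal.mul_mem_left _ _ (Ideal.subset_span ⟨v, rfl⟩))
    · exact Ideal.mem_sup_right (Ideal.mul_mem_left _ _ h1)
  · refine Ideal.subset_span ⟨(dg v, j), ?_, rfl⟩
    simp only [dset, Finset.coe_product, Finset.coe_univ, Finset.coe_Icc, Set.mem_prod,
      Set.mem_univ, true_and, Set.mem_Icc]
    exact ⟨h1, h2⟩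

theorem dgen_homogeneous (dg : σ → Δ) (κ : ℕ) : ∀ q ∈ dset Δ κ,
    (dgen dg q).IsHomogeneous q.2 ∧ 0 < q.2 := by
  intro q hq
  refine ⟨isHomogeneous_es_X _ _, ?_⟩
  simp only [dset, Finset.mem_product, Finset.mem_univ, true_and, Finset.mem_Icc] at hq
  exact hq.1

/-- The lower bound from a family of matrices whose permanents have leading forms which
degenerate to a sum of elementary symmetric polynomials in disjoint sets of variables. -/
theorem diag_bound (dg : σ → Δ) {κ : ℕ} (hκ : 3 ≤ κ)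
    (P : MvPolynomial σ (Polynomial ℂ)) (hP : P.IsHomogeneous κ)
    (hP0 : map (Polynomial.evalRingHom 0) P = P0 dg κ)
    {n s : ℕ} {L : Submodule ℂ (MvPolynomial (Fin n × Fin n) ℂ)}
    (hL : Reach (L0 (Fin n × Fin n)) s L) (hf : permPoly (Fin n) ∈ L)
    {Λ : Type*} [Fintype Λ] [DecidableEq Λ] (hcard : Fintype.card Λ ≤ n)
    (hgad : ∀ t : ℂ, t ≠ 0 → ∃ (A : Matrix Λ Λ (MvPolynomial σ ℂ)) (c0 c1 : ℂ),
      (∀ i j, A i j ∈ L0 σ) ∧ c1 ≠ 0 ∧
      A.permanent - (C c0 + C c1 * map (Polynomial.evalRingHom t) P) ∈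
        idealOfVars σ ℂ ^ (κ + 1)) :
    (κ - 1) ^ (Fintype.card σ - Fintype.card Δ * (κ - 1)) ≤ 2 ^ (3 * s) := by
  classical
  obtain ⟨hI, -⟩ := hdim_finset (dset Δ κ) (dgen dg) (fun q => q.2) (dgen_homogeneous dg κ)
  obtain ⟨E, hE⟩ := exists_pow_P0 dg (by omega : 1 ≤ κ)
  have hG : ∀ v : σ, (pderiv v P).IsHomogeneous (κ - 1) := fun v => hP.pderiv
  obtain ⟨t, ht, htE⟩ := deform hI (fun v => pderiv v P) (δ := κ - 1) (by omega) hG (E := E) (by
    refine hE.trans (sup_le_sup_right (le_of_eq ?_) _)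
    congr 2
    funext v
    rw [← pderiv_map, hP0])
  obtain ⟨A, c0, c1, hA, hc1, hlead⟩ := hgad t ht
  obtain ⟨L', hL', hfL'⟩ := reach_permanent hL hf hcard A hA
  have := reach_degree_bound_lead hL' hfL' (dset Δ κ) (dgen dg) (fun q => q.2)
    (dgen_homogeneous dg κ) hκ (hP.map _) hc1 hlead (E := E) (by
      refine htE.trans (sup_le_sup_right (le_of_eq ?_) _)
      congr 2
      funext v
      rw [← pderiv_map])
  rwa [card_dset] at this

end Pool.Agent.Work.MP_499dc6_lc.Deg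

end

section

set_option autoImplicit false
set_option linter.unusedSectionVars false

/-! The degree bound for coefficientwise limits. -/

namespace Pool.Agent.Work.MP_499dc6_lc.Deg

open Submodule Module MvPolynomial Filter Topology

variable {σ ι : Type*} {l : Filter ι}

/-- The dimension of an image is lower semicontinuous. -/
theorem finrank_lsc [Fintype σ] [l.NeBot] {V : Type*} [AddCommGroup V] [Module ℂ V]
    (ρ : MvPolynomial σ ℂ →ₗ[ℂ] V) {m : ℕ} (hρ : ∀ p ∈ idealOfVars σ ℂ ^ (m + 1), ρ p = 0)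
    {M : ι → Submodule ℂ (MvPolynomial σ ℂ)} {M0 : Submodule ℂ (MvPolynomial σ ℂ)}
    (hM : Lsc l M M0) (hfin0 : FiniteDimensional ℂ ↥(M0.map ρ))
    (hfin : ∀ j, FiniteDimensional ℂ ↥((M j).map ρ)) :
    ∃ j, finrank ℂ ↥(M0.map ρ) ≤ finrank ℂ ↥((M j).map ρ) := by
  classical
  let b := Module.finBasis ℂ ↥(M0.map ρ)
  have h1 : ∀ k, ∃ y0 ∈ M0, ρ y0 = b k := fun k => by
    obtain ⟨y, hy, hy2⟩ := (b k).2
    exact ⟨y, hy, hy2⟩
  choose y0 hy0 hy0' using h1
  have h2 : ∀ k, ∃ y : ι → MvPolynomial σ ℂ, (∀ j, y j ∈ M j) ∧ Conv l y (y0 k) :=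
    fun k => hM _ (hy0 k)
  choose y hy hy' using h2
  obtain ⟨g, hg⟩ := LinearMap.exists_leftInverse_of_injective (M0.map ρ).subtype
    (Submodule.ker_subtype _)
  have hg' : ∀ x : ↥(M0.map ρ), g (x : V) = x := fun x => by
    have := congrArg (fun h : ↥(M0.map ρ) →ₗ[ℂ] ↥(M0.map ρ) => h x) hg
    exact this
  let Λ : V →ₗ[ℂ] (Fin (finrank ℂ ↥(M0.map ρ)) → ℂ) :=
    (b.equivFun : ↥(M0.map ρ) →ₗ[ℂ] _).comp g
  let A : ι → Matrix (Fin (finrank ℂ ↥(M0.map ρ))) (Fin (finrank ℂ ↥(M0.map ρ))) ℂ :=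
    fun j => Matrix.of fun k i => Λ (ρ (y k j)) i
  have hA : Tendsto A l (𝓝 1) := by
    refine tendsto_pi_nhds.2 fun k => tendsto_pi_nhds.2 fun i => ?_
    have h3 := (hy' k).functional (m := m) ((LinearMap.proj i).comp (Λ.comp ρ)) (by
      intro p hp
      simp only [LinearMap.comp_apply, hρ p hp, map_zero])
    have h4 : ((LinearMap.proj i).comp (Λ.comp ρ) : MvPolynomial σ ℂ →ₗ[ℂ] ℂ) (y0 k) =
        (1 : Matrix (Fin (finrank ℂ ↥(M0.map ρ))) (Fin (finrank ℂ ↥(M0.map ρ))) ℂ) k i := by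
      show b.equivFun (g (ρ (y0 k))) i = _
      rw [hy0', hg', Module.Basis.equivFun_self, Matrix.one_apply]
    rw [h4] at h3
    exact h3
  have hdet : Tendsto (fun j => (A j).det) l (𝓝 1) := by
    have h3 : Continuous (fun B : Matrix (Fin (finrank ℂ ↥(M0.map ρ)))
        (Fin (finrank ℂ ↥(M0.map ρ))) ℂ => B.det) := continuous_id.matrix_det
    have h4 := (h3.tendsto 1).comp hA
    rw [Matrix.det_one] at h4
    exact h4
  obtain ⟨j, hj⟩ := (hdet.eventually_ne one_ne_zero).exists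
  refine ⟨j, ?_⟩
  have h5 : LinearIndependent ℂ (fun k => A j k) := Matrix.linearIndependent_rows_of_det_ne_zero hj
  have h6 : LinearIndependent ℂ (fun k => ρ (y k j)) := by
    apply LinearIndependent.of_comp Λ
    exact h5
  have h7 : LinearIndependent ℂ
      (fun k => (⟨ρ (y k j), mem_map_of_mem (hy k j)⟩ : ↥((M j).map ρ))) := by
    apply LinearIndependent.of_comp ((M j).map ρ).subtype
    exact h6
  have hfinj := hfin j
  have h8 := h7.fintype_card_le_finrank
  rwa [Fintype.card_fin] at h8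

theorem hdim_le_finrank_mkQ [Fintype σ] {I : Ideal (MvPolynomial σ ℂ)} (hI : TruncClosed I)
    {τ : Type*} [Fintype τ]
    {M : Submodule ℂ (MvPolynomial σ ℂ ⧸ I)} [FiniteDimensional ℂ M] (h1 : 1 ∈ M)
    (hX : ∀ e, Ideal.Quotient.mk I (X e) ∈ M) {δ : ℕ} (hδ : 0 < δ)
    (G : τ → MvPolynomial σ ℂ) (hG : ∀ t, (G t).IsHomogeneous δ)
    (hF : ∀ t, ∃ F ∈ M, Ideal.Quotient.mk I (G t) - F ∈ ordIdeal I (δ + 1))
    {E : ℕ} (hδE : δ < E) (hE : idealOfVars σ ℂ ^ E ≤ Ideal.span (Set.range G) ⊔ I)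
    (D : ℕ) : hdim I (δ * D) ≤
      finrank ℂ ↥((M ^ (D + E)).map ((ordIdeal I (δ * D + 1)).restrictScalars ℂ).mkQ) := by
  have hfin := finite_pow M (D + E)
  set P := M ^ (D + E) with hP
  set π := (Ideal.Quotient.mkₐ ℂ I).toLinearMap with hπ
  set U := (restrictTotalDegree σ ℂ (δ * D)).map π with hU
  set J : Submodule ℂ (MvPolynomial σ ℂ ⧸ I) := (ordIdeal I (δ * D + 1)).restrictScalars ℂ with hJ
  have hUfin : FiniteDimensional ℂ U := inferInstance
  have hUJ : ∀ x ∈ U, x ∈ J → x = 0 := by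
    rintro _ ⟨p, hp, rfl⟩ hxJ
    obtain ⟨o, ho, ho2⟩ := (Ideal.mem_map_iff_of_surjective _
      Ideal.Quotient.mk_surjective).1 hxJ
    have h2 : p - o ∈ I := by
      rw [← Ideal.Quotient.eq_zero_iff_mem, map_sub, ho2]
      exact sub_self _
    have h3 := hI _ h2 (δ * D)
    rw [map_sub, trunc_of_ord ho, sub_zero, trunc_of_mem hp] at h3
    exact Ideal.Quotient.eq_zero_iff_mem.2 h3
  have hle : U.map J.mkQ ≤ P.map J.mkQ := by
    rintro _ ⟨x, ⟨p, hp, rfl⟩, rfl⟩
    obtain ⟨w, hw, hw2⟩ := approx_gen_all I hI h1 hX hδ G hG hF hδE hE D (δ * D + 1) 0 rfl p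
      (by simp)
    refine ⟨w, hw, ?_⟩
    symm
    exact (Submodule.Quotient.eq J).2 hw2
  have hinj : finrank ℂ U ≤ finrank ℂ ↥(U.map J.mkQ) := by
    have hinj : Function.Injective ((J.mkQ.domRestrict U).codRestrict (U.map J.mkQ)
        (fun b => mem_map_of_mem b.2)) := by
      rw [← LinearMap.ker_eq_bot, LinearMap.ker_eq_bot']
      intro b hb
      have h0 : J.mkQ (b : MvPolynomial σ ℂ ⧸ I) = 0 := congrArg Subtype.val hb
      rw [Submodule.mkQ_apply, Submodule.Quotient.mk_eq_zero] at h0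
      exact Subtype.ext (hUJ _ b.2 h0)
    exact LinearMap.finrank_le_finrank_of_injective hinj
  exact hinj.trans (Submodule.finrank_mono hle)

/-- The degree bound for limits. -/
theorem border_degree_bound [Fintype σ] [l.NeBot] {f : ι → MvPolynomial σ ℂ}
    {f0 : MvPolynomial σ ℂ} (hconv : Conv l f f0) {s : ℕ}
    {L : ι → Submodule ℂ (MvPolynomial σ ℂ)} (hL : ∀ j, Reach (L0 σ) s (L j))
    (hf : ∀ j, f j ∈ L j)
    {α : Type*} (T : Finset α) (J : α → MvPolynomial σ ℂ) (e : α → ℕ)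
    (hJ : ∀ i ∈ T, (J i).IsHomogeneous (e i) ∧ 0 < e i)
    {δ : ℕ} (hδ : 2 ≤ δ) (G : σ → MvPolynomial σ ℂ) (hG : ∀ v, (G v).IsHomogeneous δ)
    (hlead : ∀ v, pderiv v f0 - G v ∈ idealOfVars σ ℂ ^ (δ + 1))
    {E : ℕ} (hE : idealOfVars σ ℂ ^ E ≤ Ideal.span (Set.range G) ⊔ Ideal.span (J '' T)) :
    δ ^ (Fintype.card σ - T.card) ≤ 2 ^ (3 * s) := by
  classical
  have hbs : ∀ j, ∃ M, Reach (L0 σ) (3 * s) M ∧ f j ∈ M ∧ ∀ v, pderiv v (f j) ∈ M :=
    fun j => baur_strassen (fun v : σ => pderiv (R := ℂ) v)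
      (L0 _) one_mem_L0 (fun v => pderiv_L0 v) (hL j) (hf j)
  choose M hM _ hder using hbs
  obtain ⟨hI, hcount⟩ := hdim_finset T J e hJ
  let I := Ideal.span (J '' T)
  let π : MvPolynomial σ ℂ →ₐ[ℂ] (MvPolynomial σ ℂ ⧸ I) := Ideal.Quotient.mkₐ ℂ I
  let S0 : Set (MvPolynomial σ ℂ) := insert 1 (Set.range X ∪ Set.range fun v => pderiv v f0)
  let M0 : Submodule ℂ (MvPolynomial σ ℂ) := span ℂ S0
  have hS0 : S0.Finite := ((Set.finite_range _).union (Set.finite_range _)).insert _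
  have hM0fin : FiniteDimensional ℂ M0 := FiniteDimensional.span_of_finite ℂ hS0
  have hM01 : (1 : MvPolynomial σ ℂ) ∈ M0 := subset_span (Set.mem_insert _ _)
  have hM0X : ∀ v, (X v : MvPolynomial σ ℂ) ∈ M0 := fun v =>
    subset_span (Set.mem_insert_of_mem _ (Or.inl ⟨v, rfl⟩))
  have hM0F : ∀ v, pderiv v f0 ∈ M0 := fun v =>
    subset_span (Set.mem_insert_of_mem _ (Or.inr ⟨v, rfl⟩))
  have hlsc : Lsc l M M0 := by
    apply Lsc.span
    rintro y0 (rfl | ⟨v, rfl⟩ | ⟨v, rfl⟩)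
    · exact ⟨fun _ => 1, fun j => (hM j).le one_mem_L0, Conv.const 1⟩
    · exact ⟨fun _ => X v, fun j => (hM j).le (X_mem_L0 v), Conv.const _⟩
    · exact ⟨fun j => pderiv v (f j), fun j => hder j v, hconv.pderiv v⟩
  have hE' : idealOfVars σ ℂ ^ (E + (δ + 1)) ≤
      Ideal.span (Set.range G) ⊔ Ideal.span (J '' T) :=
    (Ideal.pow_le_pow_right (Nat.le_add_right _ _)).trans hE
  have hL0fin : FiniteDimensional ℂ (L0 σ) :=
    FiniteDimensional.span_of_finite ℂ ((Set.finite_range _).insert _)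
  apply arith_bound (hdim I) (fun a b h => hdim_mono _ h)
    (N := Fintype.card σ) (E := E + (δ + 1)) hδ
  · intro D
    have hF : ∀ v : σ, ∃ F ∈ M0.map π.toLinearMap,
        Ideal.Quotient.mk I (G v) - F ∈ ordIdeal I (δ + 1) := by
      intro v
      refine ⟨π (pderiv v f0), mem_map_of_mem (hM0F v), ?_⟩
      have h1 : Ideal.Quotient.mk I (pderiv v f0 - G v) ∈ ordIdeal I (δ + 1) :=
        Ideal.mem_map_of_mem _ (hlead v)
      have h2 : Ideal.Quotient.mk I (G v) - π (pderiv v f0) =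
          - Ideal.Quotient.mk I (pderiv v f0 - G v) := by
        rw [map_sub, neg_sub]
        rfl
      rw [h2]
      exact neg_mem h1
    have h1 := hdim_le_finrank_mkQ hI (M := M0.map π.toLinearMap) ⟨1, hM01, map_one π⟩
      (fun v => ⟨X v, hM0X v, rfl⟩) (by omega : 0 < δ) G hG hF (by omega) hE' D
    rw [← Submodule.map_pow, ← Submodule.map_comp] at h1
    set ρ := ((ordIdeal I (δ * D + 1)).restrictScalars ℂ).mkQ.comp π.toLinearMap with hρdef
    have hρ : ∀ p ∈ idealOfVars σ ℂ ^ (δ * D + 1), ρ p = 0 := by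
      intro p hp
      rw [hρdef, LinearMap.comp_apply, Submodule.mkQ_apply, Submodule.Quotient.mk_eq_zero]
      exact Ideal.mem_map_of_mem _ hp
    have hMfin : ∀ j, FiniteDimensional ℂ ↥(M j) := fun j => (hM j).finite hL0fin
    have hpf : ∀ n, FiniteDimensional ℂ ↥(M0 ^ n) := finite_pow M0
    have hpfj : ∀ j n, FiniteDimensional ℂ ↥(M j ^ n) := fun j n => by
      have := hMfin j
      exact finite_pow (M j) n
    obtain ⟨j, hj⟩ := finrank_lsc ρ hρ (hlsc.pow (D + (E + (δ + 1)))) inferInstance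
      (fun j => by
        have := hpfj j (D + (E + (δ + 1)))
        infer_instance)
    refine h1.trans (hj.trans ?_)
    have h2 : finrank ℂ ↥((M j ^ (D + (E + (δ + 1)))).map ρ) ≤
        finrank ℂ ↥((M j ^ (D + (E + (δ + 1)))).map π.toLinearMap) := by
      rw [hρdef, Submodule.map_comp]
      have := hpfj j (D + (E + (δ + 1)))
      exact Submodule.finrank_map_le _ _
    refine h2.trans ?_
    rw [Submodule.map_pow]
    have h3 := ((hM j).map π).finrank_pow_le (⟨1, one_mem_L0, map_one π⟩ :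
      (1 : MvPolynomial σ ℂ ⧸ I) ∈ (L0 σ).map π.toLinearMap) inferInstance
      (D + (E + (δ + 1)))
    refine h3.trans ?_
    apply Nat.mul_le_mul_left
    apply Submodule.finrank_mono
    refine (pow_le_pow_left' (Submodule.map_mono L0_le_W) _).trans ?_
    rw [← Submodule.map_pow]
    exact Submodule.map_mono (W_one_pow_le _)
  · intro q
    exact (pow_le_hdim_bot q).trans (hcount _)

end Pool.Agent.Work.MP_499dc6_lc.Deg

end

section

set_option autoImplicit false
set_option linter.unusedSectionVars false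

/-! The degree bound for limits, applied to permanents. -/

namespace Pool.Agent.Work.MP_499dc6_lc.Deg

open Submodule Module MvPolynomial Filter Topology

theorem Reach.pad {K A : Type*} [Field K] [CommRing A] [Algebra K A] {M0 M : Submodule K A}
    (h1 : (1 : A) ∈ M0) {s : ℕ} (h : Reach M0 s M) {t : ℕ} (hst : s ≤ t) :
    ∃ M', M ≤ M' ∧ Reach M0 t M' := by
  obtain ⟨k, rfl⟩ := Nat.exists_eq_add_of_le hst
  clear hst
  induction k with
  | zero => exact ⟨M, le_rfl, h⟩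
  | succ k ih =>
    obtain ⟨M', h2, h3⟩ := ih
    exact ⟨M' ⊔ span K {1 * 1}, h2.trans le_sup_left, h3.step (h3.le h1) (h3.le h1)⟩

theorem Reach.degree_le {σ : Type*} {s : ℕ} {L : Submodule ℂ (MvPolynomial σ ℂ)}
    (h : Reach (L0 σ) s L) : L ≤ restrictTotalDegree σ ℂ (2 ^ s) := by
  induction h with
  | refl => exact L0_le_W
  | @step t M' _ u v hu hv ih =>
    apply sup_le
    · exact ih.trans (W_mono (Nat.pow_le_pow_right (by norm_num) (Nat.le_succ t)))
    · rw [span_singleton_le_iff_mem, mem_restrictTotalDegree]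
      have h1 := ih hu
      have h2 := ih hv
      rw [mem_restrictTotalDegree] at h1 h2
      refine (totalDegree_mul u v).trans ?_
      rw [pow_succ]
      omega

/-- The entries of the padded matrix. -/
noncomputable def padEntry {Λ σ : Type*} [Fintype Λ] {n : ℕ}
    (e : Fin n ≃ Λ ⊕ Fin (n - Fintype.card Λ)) (A : Matrix Λ Λ (MvPolynomial σ ℂ))
    (p : Fin n × Fin n) : MvPolynomial σ ℂ :=
  Matrix.fromBlocks A 0 0 (1 : Matrix (Fin (n - Fintype.card Λ)) (Fin (n - Fintype.card Λ))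
    (MvPolynomial σ ℂ)) (e p.1) (e p.2)

theorem aeval_padEntry {Λ σ : Type*} [Fintype Λ] [DecidableEq Λ] {n : ℕ}
    (e : Fin n ≃ Λ ⊕ Fin (n - Fintype.card Λ)) (A : Matrix Λ Λ (MvPolynomial σ ℂ)) :
    aeval (padEntry e A) (permPoly (Fin n)) = A.permanent := by
  classical
  rw [← permanent_fromBlocks_one (Φ := Fin (n - Fintype.card Λ)) A, permPoly_eq, map_sum]
  unfold Matrix.permanent
  refine Fintype.sum_equiv (Equiv.permCongr e) _ _ ?_
  intro τ
  rw [map_prod, ← e.symm.prod_comp]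
  apply Finset.prod_congr rfl
  intro i _
  rw [aeval_X]
  simp [padEntry]

theorem padEntry_mem_L0 {Λ σ : Type*} [Fintype Λ] {n : ℕ}
    (e : Fin n ≃ Λ ⊕ Fin (n - Fintype.card Λ)) (A : Matrix Λ Λ (MvPolynomial σ ℂ))
    (hA : ∀ i j, A i j ∈ L0 σ) (p : Fin n × Fin n) : padEntry e A p ∈ L0 σ := by
  classical
  unfold padEntry
  generalize e p.1 = x
  generalize e p.2 = y
  rcases x with i | i <;> rcases y with j | j
  · exact hA i j
  · exact zero_mem _
  · exact zero_mem _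
  · show (1 : Matrix _ _ (MvPolynomial σ ℂ)) i j ∈ L0 σ
    rw [Matrix.one_apply]
    split_ifs
    · exact one_mem_L0
    · exact zero_mem _

/-- `diag_bound` for coefficientwise limits. -/
theorem diag_bound_border {σ Δ : Type*} [Fintype σ] [Fintype Δ] [DecidableEq σ] [DecidableEq Δ]
    (dg : σ → Δ) {κ : ℕ} (hκ : 3 ≤ κ)
    (P : MvPolynomial σ (Polynomial ℂ)) (hP : P.IsHomogeneous κ)
    (hP0 : map (Polynomial.evalRingHom 0) P = P0 dg κ)
    {n s : ℕ} {ι : Type*} {l : Filter ι} [l.NeBot]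
    {f : ι → MvPolynomial (Fin n × Fin n) ℂ} (hconv : Conv l f (permPoly (Fin n)))
    {L : ι → Submodule ℂ (MvPolynomial (Fin n × Fin n) ℂ)}
    (hL : ∀ j, Reach (L0 (Fin n × Fin n)) s (L j)) (hf : ∀ j, f j ∈ L j)
    {Λ : Type*} [Fintype Λ] [DecidableEq Λ] (hcard : Fintype.card Λ ≤ n)
    (hgad : ∀ t : ℂ, t ≠ 0 → ∃ (A : Matrix Λ Λ (MvPolynomial σ ℂ)) (c0 c1 : ℂ),
      (∀ i j, A i j ∈ L0 σ) ∧ c1 ≠ 0 ∧
      A.permanent - (C c0 + C c1 * map (Polynomial.evalRingHom t) P) ∈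
        idealOfVars σ ℂ ^ (κ + 1)) :
    (κ - 1) ^ (Fintype.card σ - Fintype.card Δ * (κ - 1)) ≤ 2 ^ (3 * s) := by
  classical
  obtain ⟨hI, -⟩ := hdim_finset (dset Δ κ) (dgen dg) (fun q => q.2) (dgen_homogeneous dg κ)
  obtain ⟨E, hE⟩ := exists_pow_P0 dg (by omega : 1 ≤ κ)
  have hG : ∀ v : σ, (pderiv v P).IsHomogeneous (κ - 1) := fun v => hP.pderiv
  obtain ⟨t, ht, htE⟩ := deform hI (fun v => pderiv v P) (δ := κ - 1) (by omega) hG (E := E) (by
    refine hE.trans (sup_le_sup_right (le_of_eq ?_) _)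
    congr 2
    funext v
    rw [← pderiv_map, hP0])
  obtain ⟨A, c0, c1, hA, hc1, hlead⟩ := hgad t ht
  have hc : Fintype.card (Fin n) = Fintype.card (Λ ⊕ Fin (n - Fintype.card Λ)) := by
    simp only [Fintype.card_fin, Fintype.card_sum]
    omega
  let e : Fin n ≃ Λ ⊕ Fin (n - Fintype.card Λ) := Fintype.equivOfCardEq hc
  have hperm : permPoly (Fin n) ∈ restrictTotalDegree (Fin n × Fin n) ℂ (2 ^ s) := by
    rw [mem_W_iff]
    intro d hd
    have h1 : ∀ j, coeff d (f j) = 0 := fun j =>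
      (mem_W_iff _ _).1 ((hL j).degree_le (hf j)) d hd
    have h2 := hconv d
    simp only [h1] at h2
    exact (tendsto_nhds_unique h2 tendsto_const_nhds)
  have hconv' := hconv.aeval (fun j => (hL j).degree_le (hf j)) hperm (padEntry e A)
  rw [aeval_padEntry] at hconv'
  have hreach : ∀ j, ∃ L', Reach (L0 σ) s L' ∧ aeval (padEntry e A) (f j) ∈ L' := fun j =>
    reach_aeval (hL j) (hf j) (padEntry e A) (padEntry_mem_L0 e A hA)
  choose L' hL' hf' using hreach
  have := border_degree_bound hconv' hL' hf' (dset Δ κ) (dgen dg) (fun q => q.2)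
    (dgen_homogeneous dg κ) (δ := κ - 1) (by omega)
    (fun v => C c1 * pderiv v (map (Polynomial.evalRingHom t) P)) ?_ ?_ (E := E) ?_
  · rwa [card_dset] at this
  · intro v
    have h1 := (hP.map (Polynomial.evalRingHom t)).pderiv (i := v)
    have h2 := (isHomogeneous_C σ c1).mul h1
    rwa [zero_add] at h2
  · intro v
    have h1 := derivation_pow (pderiv (R := ℂ) v) (idealOfVars σ ℂ) κ _ hlead
    rw [map_sub, map_add, pderiv_C, zero_add] at h1
    rw [show κ - 1 + 1 = κ by omega]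
    convert h1 using 2
    rw [Derivation.leibniz, pderiv_C, smul_zero, add_zero, smul_eq_mul]
  · refine htE.trans (sup_le_sup_right ?_ _)
    rw [Ideal.span_le]
    rintro _ ⟨v, rfl⟩
    have h1 : map (Polynomial.evalRingHom t) (pderiv v P) =
        C c1⁻¹ * (C c1 * pderiv v (map (Polynomial.evalRingHom t) P)) := by
      rw [← mul_assoc, ← map_mul, inv_mul_cancel₀ hc1, map_one, one_mul, pderiv_map]
    rw [SetLike.mem_coe]
    show map (Polynomial.evalRingHom t) (pderiv v P) ∈ _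
    rw [h1]
    exact Ideal.mul_mem_left _ _ (Ideal.subset_span ⟨v, rfl⟩)

end Pool.Agent.Work.MP_499dc6_lc.Deg

end

section

set_option autoImplicit false
set_option linter.unusedSectionVars false

/-! The family of leading forms of the gadget and its degeneration. -/

namespace Pool.Agent.Work.MP_499dc6_lc.Deg

open Submodule Module MvPolynomial

variable {m1 m2 ka kb : ℕ}

/-- The free variables: a block, a row of the block and a diagonal. -/
abbrev Fv (m1 m2 ka : ℕ) := (Fin m1 × Fin m2) × (Fin (ka + 1) × Fin (ka + 1))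

/-- The diagonal of a free variable. -/
def dgF (v : Fv m1 m2 ka) : (Fin m1 × Fin m2) × Fin (ka + 1) := (v.1, v.2.2)

/-- The free variable at row `i` and column `c` of a block, or zero. -/
noncomputable def ventry {R : Type*} [CommRing R] (p : Fin m1 × Fin m2) (i : Fin (ka + 1))
    (c : Fin (kb + 1)) : MvPolynomial (Fv m1 m2 ka) R :=
  if h : (i : ℕ) ≤ c ∧ (c : ℕ) - i < ka + 1 then X (p, (i, ⟨(c : ℕ) - i, h.2⟩)) else 0

/-- The exponent. -/
def expn (s : Fin (ka + 1)) (i : Fin (ka + 1)) (c : Fin (kb + 1)) : ℕ :=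
  (((c : ℤ) - i - s).natAbs) ^ 2

/-- The leading form of the gadget. -/
noncomputable def Pform {R : Type*} [CommRing R] (m1 m2 ka kb κ : ℕ) (T : R) :
    MvPolynomial (Fv m1 m2 ka) R :=
  ∑ a : Fin m1, ∑ b : Fin m2, ∑ s : Fin (ka + 1),
    ∑ Q ∈ (Finset.univ : Finset (Fin (ka + 1))).powersetCard κ,
      ∑ φ : Q ↪ Fin (kb + 1), ∏ i : Q, (C (T ^ expn s i (φ i)) * ventry (a, b) i (φ i))

theorem isHomogeneous_ventry {R : Type*} [CommRing R] (p : Fin m1 × Fin m2) (i : Fin (ka + 1))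
    (c : Fin (kb + 1)) : (ventry p i c : MvPolynomial (Fv m1 m2 ka) R).IsHomogeneous 1 := by
  unfold ventry
  split_ifs
  · exact isHomogeneous_X _ _
  · exact isHomogeneous_zero _ _ _

theorem isHomogeneous_Pform {R : Type*} [CommRing R] (κ : ℕ) (T : R) :
    (Pform m1 m2 ka kb κ T).IsHomogeneous κ := by
  unfold Pform
  refine IsHomogeneous.sum _ _ _ fun a _ => IsHomogeneous.sum _ _ _ fun b _ =>
    IsHomogeneous.sum _ _ _ fun s _ => IsHomogeneous.sum _ _ _ fun Q hQ =>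
    IsHomogeneous.sum _ _ _ fun φ _ => ?_
  have h := IsHomogeneous.prod (Finset.univ : Finset Q)
    (fun i : Q => (C (T ^ expn s i (φ i)) * ventry (a, b) (i : Fin (ka + 1)) (φ i) :
      MvPolynomial (Fv m1 m2 ka) R)) (fun _ => 0 + 1)
    (fun i _ => (isHomogeneous_C _ _).mul (isHomogeneous_ventry _ _ _))
  rw [Finset.sum_const, Finset.card_univ, Fintype.card_coe,
    (Finset.mem_powersetCard.1 hQ).2, smul_eq_mul, zero_add, mul_one] at h
  exact h

theorem map_ventry {R S : Type*} [CommRing R] [CommRing S] (f : R →+* S) (p : Fin m1 × Fin m2)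
    (i : Fin (ka + 1)) (c : Fin (kb + 1)) :
    map f (ventry p i c : MvPolynomial (Fv m1 m2 ka) R) = ventry p i c := by
  unfold ventry
  split_ifs
  · rw [map_X]
  · rw [map_zero]

theorem map_Pform {R S : Type*} [CommRing R] [CommRing S] (f : R →+* S) (κ : ℕ) (T : R) :
    map f (Pform m1 m2 ka kb κ T) = Pform m1 m2 ka kb κ (f T) := by
  unfold Pform
  simp only [map_sum, map_prod, map_mul, map_C, map_ventry, map_pow]

theorem ventry_zero (p : Fin m1 × Fin m2) (s i : Fin (ka + 1))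
    (c : Fin (kb + 1)) :
    (C ((0 : ℂ) ^ expn s i c) * ventry p i c : MvPolynomial (Fv m1 m2 ka) ℂ) =
      if (c : ℕ) = i + s then X (p, (i, s)) else 0 := by
  by_cases hc : (c : ℕ) = i + s
  · rw [if_pos hc]
    have h1 : expn s i c = 0 := by
      unfold expn
      have : ((c : ℤ) - i - s).natAbs = 0 := by omega
      rw [this]
      rfl
    rw [h1, pow_zero, map_one, one_mul]
    unfold ventry
    rw [dif_pos ⟨by omega, by have := s.2; omega⟩]
    congr 2
    apply Prod.ext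
    · rfl
    · apply Fin.ext
      show (c : ℕ) - i = s
      omega
  · rw [if_neg hc]
    have h1 : expn s i c ≠ 0 := by
      unfold expn
      have : ((c : ℤ) - i - s).natAbs ≠ 0 := by omega
      exact pow_ne_zero 2 this
    rw [zero_pow h1, map_zero, zero_mul]

theorem es_fib_dgF (κ : ℕ) (a : Fin m1) (b : Fin m2) (s : Fin (ka + 1)) :
    es (X : Fv m1 m2 ka → MvPolynomial (Fv m1 m2 ka) ℂ) κ (fib dgF ((a, b), s)) =
      ∑ Q ∈ (Finset.univ : Finset (Fin (ka + 1))).powersetCard κ,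
        ∏ i ∈ Q, X ((a, b), (i, s)) := by
  classical
  let f : Fin (ka + 1) ↪ Fv m1 m2 ka := ⟨fun i => ((a, b), (i, s)), fun x y h => by
    simpa using h⟩
  have hf : fib dgF ((a, b), s) = (Finset.univ : Finset (Fin (ka + 1))).map f := by
    ext ⟨p, i, s'⟩
    simp only [fib, dgF, Finset.mem_filter, Finset.mem_univ, true_and, Finset.mem_map, f,
      Function.Embedding.coeFn_mk, Prod.mk.injEq]
    constructor
    · rintro ⟨rfl, rfl⟩
      exact ⟨i, rfl, rfl, rfl⟩
    · rintro ⟨j, rfl, rfl, rfl⟩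
      exact ⟨rfl, rfl⟩
  unfold es
  rw [hf, Finset.powersetCard_map, Finset.sum_map]
  apply Finset.sum_congr rfl
  intro Q _
  show ∏ t ∈ Q.map f, X t = ∏ i ∈ Q, X ((a, b), (i, s))
  rw [Finset.prod_map]
  rfl

theorem Pform_zero (h : 2 * ka ≤ kb) (κ : ℕ) :
    Pform m1 m2 ka kb κ (0 : ℂ) = P0 dgF κ := by
  classical
  unfold Pform P0
  rw [Fintype.sum_prod_type, Fintype.sum_prod_type]
  refine Finset.sum_congr rfl fun a _ => Finset.sum_congr rfl fun b _ =>
    Finset.sum_congr rfl fun s _ => ?_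
  rw [es_fib_dgF]
  apply Finset.sum_congr rfl
  intro Q _
  let φ0 : Q ↪ Fin (kb + 1) := ⟨fun i => ⟨(i : Fin (ka + 1)) + s, by
    have h1 := (i : Fin (ka + 1)).2
    have h2 := s.2
    omega⟩, fun x y hxy => by
      have h1 := congrArg Fin.val hxy
      simp only at h1
      exact Subtype.ext (Fin.ext (by omega))⟩
  rw [Finset.sum_eq_single φ0]
  · rw [← Finset.prod_coe_sort Q]
    apply Finset.prod_congr rfl
    intro i _
    rw [ventry_zero, if_pos (show ((φ0 i : Fin (kb + 1)) : ℕ) = ((i : Fin (ka + 1)) : ℕ) + s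
      from rfl)]
  · intro φ _ hφ
    have h1 : ∃ i : Q, ((φ i : Fin (kb + 1)) : ℕ) ≠ ((i : Fin (ka + 1)) : ℕ) + s := by
      by_contra hcon
      push Not at hcon
      apply hφ
      ext i
      exact hcon i
    obtain ⟨i, hi⟩ := h1
    apply Finset.prod_eq_zero (Finset.mem_univ i)
    rw [ventry_zero, if_neg hi]
  · intro h1
    exact absurd (Finset.mem_univ _) h1

/-- The scaling identity. -/
theorem scaling {t : ℂ} (ht : t ≠ 0) (s i : Fin (ka + 1)) (c : Fin (kb + 1)) (h : (i : ℕ) ≤ c) :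
    t ^ (2 * (s : ℕ) * i + (s : ℕ) ^ 2) * (t⁻¹) ^ (2 * (s : ℕ) * c) * t ^ (((c : ℕ) - i) ^ 2) =
      t ^ expn s i c := by
  have h1 : 2 * (s : ℕ) * i + (s : ℕ) ^ 2 + ((c : ℕ) - i) ^ 2 =
      expn s i c + 2 * (s : ℕ) * c := by
    unfold expn
    obtain ⟨d, hd⟩ := Nat.exists_eq_add_of_le h
    rw [hd, Nat.add_sub_cancel_left]
    zify
    rw [sq_abs]
    ring
  rw [inv_pow]
  rw [mul_assoc, mul_comm ((t ^ (2 * (s : ℕ) * c))⁻¹), ← mul_assoc, ← pow_add, h1, pow_add,
    mul_assoc, mul_inv_cancel₀ (pow_ne_zero _ ht), mul_one]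

/-- The row weights of the hub. -/
noncomputable def alphaF (m1 m2 : ℕ) {ka : ℕ} (t : ℂ) (_ : Fin 1) (s i : Fin (ka + 1)) :
    MvPolynomial (Fv m1 m2 ka) ℂ := C (t ^ (2 * (s : ℕ) * i + (s : ℕ) ^ 2))

/-- The column weights of the hub. -/
noncomputable def betaF (m1 m2 : ℕ) {ka kb : ℕ} (t : ℂ) (_ : Fin 1) (s : Fin (ka + 1))
    (c : Fin (kb + 1)) : MvPolynomial (Fv m1 m2 ka) ℂ := C ((t⁻¹) ^ (2 * (s : ℕ) * c))

/-- The variable entries. -/
noncomputable def VF {m1 m2 ka kb : ℕ} (t : ℂ) (r : Fin m1 × Fin (ka + 1))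
    (c : Fin m2 × Fin (kb + 1)) : MvPolynomial (Fv m1 m2 ka) ℂ :=
  C (t ^ (((c.2 : ℕ) - r.2) ^ 2)) * ventry (r.1, c.1) r.2 c.2

theorem factor_eq {t : ℂ} (ht : t ≠ 0) (a : Fin m1) (b : Fin m2) (s i : Fin (ka + 1))
    (c : Fin (kb + 1)) (l : Fin 1) :
    alphaF m1 m2 t l s i * betaF m1 m2 t l s c * VF t (a, i) (b, c) =
      C (t ^ expn s i c) * ventry (a, b) i c := by
  unfold alphaF betaF VF
  by_cases h : (i : ℕ) ≤ c
  · rw [← scaling ht s i c h, map_mul, map_mul]
    ring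
  · have h1 : (ventry (a, b) i c : MvPolynomial (Fv m1 m2 ka) ℂ) = 0 := by
      unfold ventry
      rw [dif_neg (fun h' => h h'.1)]
    simp only [h1, mul_zero]

theorem gadget_sum {t : ℂ} (ht : t ≠ 0) (κ : ℕ) :
    (∑ a : Fin m1, ∑ b : Fin m2, ∑ s : Fin 1 → Fin (ka + 1),
      ∑ Q ∈ (Finset.univ : Finset (Fin (ka + 1))).powersetCard κ,
      ∑ φ : Q ↪ Fin (kb + 1), ∏ i : Q,
        ((∏ l, alphaF m1 m2 t l (s l) i * betaF m1 m2 t l (s l) (φ i)) *
          VF t (a, (i : Fin (ka + 1))) (b, φ i))) = Pform m1 m2 ka kb κ t := by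
  unfold Pform
  refine Finset.sum_congr rfl fun a _ => Finset.sum_congr rfl fun b _ => ?_
  rw [← (Equiv.funUnique (Fin 1) (Fin (ka + 1))).symm.sum_comp]
  refine Finset.sum_congr rfl fun s _ => Finset.sum_congr rfl fun Q _ =>
    Finset.sum_congr rfl fun φ _ => Finset.prod_congr rfl fun i _ => ?_
  rw [Fin.prod_univ_one]
  exact factor_eq ht a b s i (φ i) 0

theorem VF_mem_L0 (t : ℂ) (r : Fin m1 × Fin (ka + 1)) (c : Fin m2 × Fin (kb + 1)) :
    VF t r c ∈ L0 (Fv m1 m2 ka) := by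
  unfold VF ventry
  split_ifs
  · exact C_mul_X_mem_L0 _ _
  · rw [mul_zero]
    exact zero_mem _

theorem VF_mem_ideal (t : ℂ) (r : Fin m1 × Fin (ka + 1)) (c : Fin m2 × Fin (kb + 1)) :
    VF t r c ∈ idealOfVars (Fv m1 m2 ka) ℂ := by
  unfold VF ventry
  split_ifs
  · exact Ideal.mul_mem_left _ _ (Ideal.subset_span ⟨_, rfl⟩)
  · rw [mul_zero]
    exact zero_mem _

end Pool.Agent.Work.MP_499dc6_lc.Deg

end

section

set_option autoImplicit false
set_option linter.unusedSectionVars false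

/-! The final bound, from the gadget. -/

namespace Pool.Agent.Work.MP_499dc6_lc.Deg

open Submodule Module MvPolynomial Filter Topology

theorem ComputedWith.reach {σ : Type*} {p : MvPolynomial σ ℂ} {S : ℕ} (h : ComputedWith p S) :
    ∃ L, Reach (L0 σ) S L ∧ p ∈ L := by
  obtain ⟨s, f, N, hf, hN, o, rfl⟩ := h
  obtain ⟨L, hL, hmem⟩ := hf.reach_all
  obtain ⟨L', h1, h2⟩ := hL.pad one_mem_L0 hN
  exact ⟨L', h2, h1 (hmem o)⟩

/-- What is needed of the gadget. -/
def GadgetStatement : Prop := ∀ m1 m2 ka κ : ℕ, 0 < κ → ∃ (Λ : Type) (_ : Fintype Λ)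
  (_ : DecidableEq Λ), Fintype.card Λ ≤ 2 + m1 * (ka + 1 + 1) + m2 * (2 * (ka + 1) + 1) +
    (m1 * (ka + 1) + m2 * (2 * (ka + 1))) * 6 + (ka + 1) * κ ∧
  ∀ t : ℂ, t ≠ 0 → ∃ (A : Matrix Λ Λ (MvPolynomial (Fv m1 m2 ka) ℂ)) (c0 c1 : ℂ),
    (∀ i j, A i j ∈ L0 (Fv m1 m2 ka)) ∧ c1 ≠ 0 ∧
    A.permanent - (C c0 + C c1 * Pform m1 m2 ka (2 * ka + 1) κ t) ∈
      idealOfVars (Fv m1 m2 ka) ℂ ^ (κ + 1)

theorem border_bound (H : GadgetStatement) : ∀ᶠ n : ℕ in atTop,
    ∀ (S : ℕ) (f : ℕ → MvPolynomial (Fin n × Fin n) ℂ), (∀ j, ComputedWith (f j) S) →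
      (∀ m, Tendsto (fun j => coeff m (f j)) atTop
        (𝓝 (coeff m (Matrix.permanent (Matrix.of fun i j => X (i, j)))))) →
      (n : ℝ) ^ 2 * Real.log n / 1700 ≤ S := by
  obtain ⟨n0, hn0⟩ := H21.numeric
  filter_upwards [eventually_ge_atTop n0] with n hn
  intro S f hf hconv
  obtain ⟨m1, m2, k, κ, hκ, hκk, hsize, hfin⟩ := hn0 n hn
  apply hfin
  obtain ⟨ka, rfl⟩ : ∃ ka, k = ka + 1 := ⟨k - 1, by omega⟩
  obtain ⟨Λ, i1, i2, hcard, hgad⟩ := H m1 m2 ka κ (by omega)
  choose L hL hfL using fun j => (hf j).reach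
  have h1 := diag_bound_border (σ := Fv m1 m2 ka) (dgF (m1 := m1) (m2 := m2) (ka := ka)) hκ
    (Pform m1 m2 ka (2 * ka + 1) κ Polynomial.X) (isHomogeneous_Pform _ _)
    (by
      rw [map_Pform, Polynomial.coe_evalRingHom, Polynomial.eval_X]
      exact Pform_zero (by omega) κ)
    (n := n) (s := S) (l := atTop) (f := f) hconv hL hfL (Λ := Λ) (by omega)
    (by
      intro t ht
      obtain ⟨A, c0, c1, hA, hc1, hlead⟩ := hgad t ht
      refine ⟨A, c0, c1, hA, hc1, ?_⟩
      rw [map_Pform, Polynomial.coe_evalRingHom, Polynomial.eval_X]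
      exact hlead)
  have h2 : Fintype.card (Fv m1 m2 ka) -
      Fintype.card ((Fin m1 × Fin m2) × Fin (ka + 1)) * (κ - 1) =
      m1 * m2 * (ka + 1) * (ka + 1 - (κ - 1)) := by
    simp only [Fintype.card_prod, Fintype.card_fin]
    rw [Nat.mul_sub (m1 * m2 * (ka + 1)) (ka + 1) (κ - 1)]
    congr 1
    ring
  rwa [h2] at h1

end Pool.Agent.Work.MP_499dc6_lc.Deg

end
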